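import Pool.Agent.Lib.MP_d439b2_co.B.SpecE

/-!
# MP_d439b2_co, E2: the graphs `CQG n` are in `InCQ` and have unbounded clique-width
-/

set_option autoImplicit false

namespace Pool.Agent.MPd439b2

namespace cqUnbAux

theorem inCQ (n : ℕ) : InCQ (CQG n) := by
  refine ⟨Set.range Sum.inl, ?_, ?_, ?_⟩
  · rintro _ ⟨a, rfl⟩ _ ⟨b, rfl⟩ hab
    exact fun h => hab (by rw [h])
  · intro u hu v hv huv
    rcases u with u | u
    · exact hu ⟨u, rfl⟩
    rcases v with v | v
    · exact hv ⟨v, rfl⟩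
    exact huv
  · intro v hv
    rcases v with v | v
    · exact absurd ⟨v, rfl⟩ hv
    have hsub : {k | k ∈ Set.range (Sum.inl : Fin n → Fin n ⊕ (Fin n × Fin n)) ∧
        ¬ (CQG n).Adj (Sum.inr v) k} ⊆ {Sum.inl v.1, Sum.inl v.2} := by
      rintro _ ⟨⟨w, rfl⟩, hw⟩
      have hw' : ¬ (w ≠ v.1 ∧ w ≠ v.2) := hw
      by_cases h1 : w = v.1
      · exact Or.inl (by rw [h1])
      · by_cases h2 : w = v.2
        · exact Or.inr (by rw [h2]; rfl)
        · exact absurd ⟨h1, h2⟩ hw'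
    refine (Set.encard_le_encard hsub).trans ?_
    refine (Set.encard_insert_le _ _).trans ?_
    rw [Set.encard_singleton]
    exact le_of_eq (by norm_num)

end cqUnbAux

/-- **E2.** `CQG n` is in `InCQ` and has unbounded clique-width. -/
theorem cqUnb (h : S_CWCut) : S_CQUnb := by
  refine ⟨cqUnbAux.inCQ, ?_⟩
  intro c n hcn hn hcw
  have hM : (Set.range (Sum.inl : Fin n → Fin n ⊕ (Fin n × Fin n))).ncard = n := by
    rw [← Set.image_univ, Set.ncard_image_of_injective _ Sum.inl_injective, Set.ncard_univ,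
      Nat.card_eq_fintype_card, Fintype.card_fin]
  obtain ⟨A, hA1, hA2, hA3⟩ := h _ (CQG n) c hcw (Set.range Sum.inl) (by rw [hM]; exact hn)
  rw [hM] at hA1 hA2
  let I : Set (Fin n) := {a | (Sum.inl a : Fin n ⊕ (Fin n × Fin n)) ∈ A}
  have hI : (A ∩ Set.range (Sum.inl : Fin n → Fin n ⊕ (Fin n × Fin n))).ncard = I.ncard := by
    have : A ∩ Set.range (Sum.inl : Fin n → Fin n ⊕ (Fin n × Fin n)) = Sum.inl '' I := by
      ext x
      constructor
      · rintro ⟨hx, a, rfl⟩
        exact ⟨a, hx, rfl⟩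
      · rintro ⟨a, ha, rfl⟩
        exact ⟨ha, a, rfl⟩
    rw [this, Set.ncard_image_of_injective _ Sum.inl_injective]
  rw [hI] at hA1 hA2
  have hIJ : I.ncard + Iᶜ.ncard = n := by
    rw [Set.ncard_add_ncard_compl, Nat.card_eq_fintype_card, Fintype.card_fin]
  have hfin : {T : Set (Fin n ⊕ (Fin n × Fin n)) | ∃ u ∈ A, T = (CQG n).neighborSet u \ A}.Finite :=
    Set.toFinite _
  by_cases hc : ∀ b, b ∉ I → ∃ a ∈ I, (Sum.inr (a, b) : Fin n ⊕ (Fin n × Fin n)) ∈ A
  · choose! f hfI hfA using hc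
    have h1 : Iᶜ.ncard ≤
        {T : Set (Fin n ⊕ (Fin n × Fin n)) | ∃ u ∈ A, T = (CQG n).neighborSet u \ A}.ncard := by
      refine Set.ncard_le_ncard_of_injOn
        (fun b => (CQG n).neighborSet (Sum.inr (f b, b)) \ A) ?_ ?_ hfin
      · intro b hb
        exact ⟨_, hfA b hb, rfl⟩
      · intro b hb b' hb' he
        by_contra hne
        have he' : (CQG n).neighborSet (Sum.inr (f b, b)) \ A =
          (CQG n).neighborSet (Sum.inr (f b', b')) \ A := he
        have h2 : (Sum.inl b' : Fin n ⊕ (Fin n × Fin n)) ∈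
            (CQG n).neighborSet (Sum.inr (f b, b)) \ A := by
          refine ⟨show b' ≠ f b ∧ b' ≠ b from ⟨?_, fun h3 => hne h3.symm⟩, hb'⟩
          intro h3
          exact hb' (h3 ▸ hfI b hb)
        rw [he'] at h2
        have h3 : b' ≠ f b' ∧ b' ≠ b' := h2.1
        exact h3.2 rfl
    omega
  · push Not at hc
    obtain ⟨b₀, hb₀, hb₀'⟩ := hc
    have h1 : I.ncard ≤
        {T : Set (Fin n ⊕ (Fin n × Fin n)) | ∃ u ∈ A, T = (CQG n).neighborSet u \ A}.ncard := by
      refine Set.ncard_le_ncard_of_injOn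
        (fun a => (CQG n).neighborSet (Sum.inl a) \ A) ?_ ?_ hfin
      · intro a ha
        exact ⟨_, ha, rfl⟩
      · intro a ha a' ha' he
        by_contra hne
        have he' : (CQG n).neighborSet (Sum.inl a) \ A = (CQG n).neighborSet (Sum.inl a') \ A := he
        have h2 : (Sum.inr (a', b₀) : Fin n ⊕ (Fin n × Fin n)) ∈
            (CQG n).neighborSet (Sum.inl a) \ A := by
          refine ⟨show a ≠ a' ∧ a ≠ b₀ from ⟨hne, ?_⟩, hb₀' a' ha'⟩
          intro h3
          exact hb₀ (h3 ▸ ha)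
        rw [he'] at h2
        have h3 : a' ≠ a' ∧ a' ≠ b₀ := h2.1
        exact h3.1 rfl
    omega

end Pool.Agent.MPd439b2
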