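import Pool.Agent.Lib.MP_d439b2_co.B.SpecE

/-!
# MP_d439b2_co, E1: the classes `InCQ` and `InMC` are closed under induced minors
-/

set_option autoImplicit false

namespace Pool.Agent.MPd439b2

namespace EClosedAux

variable {V W : Type} {G : SimpleGraph V} {K : Set V} {B : W → Set V}

/-- A branch set outside `K` is a singleton. -/
theorem sing (hI : ∀ u, u ∉ K → ∀ v, v ∉ K → ¬ G.Adj u v)
    (hc : ∀ w, (G.induce (B w)).Connected) (w : W) (hw : ¬ (B w ∩ K).Nonempty) :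
    ∃ v, B w = {v} ∧ v ∉ K := by
  have hnK : ∀ x ∈ B w, x ∉ K := fun x hx hxK => hw ⟨x, hx, hxK⟩
  have hconn : Conn G (B w) := (conn_iff G (B w)).2 (hc w)
  obtain ⟨v, hv⟩ := hconn.1
  refine ⟨v, ?_, hnK v hv⟩
  by_contra hcon
  obtain ⟨b, hb, a, ha, hab⟩ := hconn.2 {v} (Set.singleton_subset_iff.2 hv) ⟨v, rfl⟩
    (fun h => hcon h.symm)
  have hbv : b = v := hb
  exact hI b (hbv ▸ hnK v hv) a (hnK a ha.1) hab

end EClosedAux

open EClosedAux

theorem eClosed : S_EClosed := by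
  rintro V W G H ⟨B, hc, hdisj, hadj⟩
  have hne : ∀ u w : W, u ≠ w → ∀ x ∈ B u, ∀ y ∈ B w, x ≠ y := fun u w huw x hx y hy hxy =>
    Set.disjoint_left.1 (hdisj u w huw) hx (hxy ▸ hy)
  -- the clique and the independent set
  have hcl : ∀ K : Set V, (∀ u ∈ K, ∀ v ∈ K, u ≠ v → G.Adj u v) →
      ∀ u ∈ {w | (B w ∩ K).Nonempty}, ∀ v ∈ {w | (B w ∩ K).Nonempty}, u ≠ v → H.Adj u v := by
    rintro K hK u ⟨x, hxB, hxK⟩ v ⟨y, hyB, hyK⟩ huv
    exact (hadj u v huv).2 ⟨x, hxB, y, hyB, hK x hxK y hyK (hne u v huv x hxB y hyB)⟩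
  have hin : ∀ K : Set V, (∀ u, u ∉ K → ∀ v, v ∉ K → ¬ G.Adj u v) →
      ∀ u, u ∉ {w | (B w ∩ K).Nonempty} → ∀ v, v ∉ {w | (B w ∩ K).Nonempty} → ¬ H.Adj u v := by
    intro K hI u hu v hv huv
    obtain ⟨x, hx, y, hy, hxy⟩ := (hadj u v huv.ne).1 huv
    exact hI x (fun h => hu ⟨x, hx, h⟩) y (fun h => hv ⟨y, hy, h⟩) hxy
  refine ⟨?_, ?_⟩
  · rintro ⟨K, hK, hI, hdeg⟩
    refine ⟨{w | (B w ∩ K).Nonempty}, hcl K hK, hin K hI, ?_⟩
    intro w hw
    obtain ⟨v, hsing, hvK⟩ := sing hI hc w hw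
    have hch : ∀ w' : W, ∃ y : V, (B w' ∩ K).Nonempty → y ∈ B w' ∧ y ∈ K := by
      intro w'
      by_cases h : (B w' ∩ K).Nonempty
      · obtain ⟨y, hy⟩ := h
        exact ⟨y, fun _ => hy⟩
      · exact ⟨v, fun h' => absurd h' h⟩
    choose f hf using hch
    refine (Set.encard_le_encard_of_injOn (f := f) (t := {k | k ∈ K ∧ ¬ G.Adj v k}) ?_ ?_).trans
      (hdeg v hvK)
    · rintro w' ⟨hw', hn⟩
      have hf' := hf w' hw'
      refine ⟨hf'.2, fun h => hn ?_⟩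
      have hww : w ≠ w' := by
        rintro rfl
        exact hw hw'
      exact (hadj w w' hww).2 ⟨v, by rw [hsing]; rfl, f w', hf'.1, h⟩
    · rintro w₁ ⟨h₁, -⟩ w₂ ⟨h₂, -⟩ h12
      by_contra hcon
      exact hne w₁ w₂ hcon _ (hf w₁ h₁).1 _ (hf w₂ h₂).1 h12
  · rintro ⟨K, C, hK, hI, hC, hnest⟩
    refine ⟨{w | (B w ∩ K).Nonempty}, fun w => {w' | ∃ x ∈ B w, ∃ y ∈ B w', y ∈ C x}, hcl K hK,
      hin K hI, ?_, ?_⟩
    · intro w hw
      obtain ⟨v, hsing, hvK⟩ := sing hI hc w hw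
      have hvB : v ∈ B w := by
        rw [hsing]
        rfl
      refine ⟨?_, ?_⟩
      · rintro w' ⟨x, hx, y, hy, hyC⟩
        rw [hsing] at hx
        have hx' : x = v := hx
        subst hx'
        have had : G.Adj x y := (hC x hvK).1 hyC
        have hww : w ≠ w' := by
          rintro rfl
          rw [hsing] at hy
          have hy' : y = x := hy
          exact had.ne hy'.symm
        exact (hadj w w' hww).2 ⟨x, hvB, y, hy, had⟩
      · have hch : ∀ w' : W, ∃ y : V, H.Adj w w' → y ∈ B w' ∧ G.Adj v y := by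
          intro w'
          by_cases h : H.Adj w w'
          · obtain ⟨x, hx, y, hy, hxy⟩ := (hadj w w' h.ne).1 h
            rw [hsing] at hx
            have hxv : x = v := hx
            exact ⟨y, fun _ => ⟨hy, hxv ▸ hxy⟩⟩
          · exact ⟨v, fun h' => absurd h' h⟩
        choose f hf using hch
        refine (Set.encard_le_encard_of_injOn (f := f) (t := G.neighborSet v \ C v) ?_ ?_).trans
          (hC v hvK).2
        · rintro w' ⟨hw', hn⟩
          refine ⟨(hf w' hw').2, fun h => hn ⟨v, hvB, f w', (hf w' hw').1, h⟩⟩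
        · rintro w₁ ⟨h₁, -⟩ w₂ ⟨h₂, -⟩ h12
          by_contra hcon
          exact hne w₁ w₂ hcon _ (hf w₁ h₁).1 _ (hf w₂ h₂).1 h12
    · intro u hu u' hu'
      obtain ⟨v, hv, hvK⟩ := sing hI hc u hu
      obtain ⟨v', hv', hvK'⟩ := sing hI hc u' hu'
      have hmono : ∀ {a b : W} {x y : V}, B a = {x} → B b = {y} → C x ⊆ C y →
          {w' | ∃ x ∈ B a, ∃ y ∈ B w', y ∈ C x} ⊆ {w' | ∃ x ∈ B b, ∃ y ∈ B w', y ∈ C x} := by
        rintro a b x y ha hb hxy w' ⟨x', hx', z, hz, hzC⟩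
        rw [ha] at hx'
        have hx'' : x' = x := hx'
        subst hx''
        exact ⟨y, by rw [hb]; rfl, z, hz, hxy hzC⟩
      rcases hnest v hvK v' hvK' with h | h
      · exact Or.inl (hmono hv hv' h)
      · exact Or.inr (hmono hv' hv h)

end Pool.Agent.MPd439b2
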