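import Pool.Agent.Lib.MP_d439b2_co.B.SpecE

/-!
# MP_d439b2_co, E4: excluded graphs of the classes `InCQ` and `InMC`
-/

set_option autoImplicit false

namespace Pool.Agent.MPd439b2

namespace eExclAux

private theorem three {W : Type} {S : Set W} (h : S.encard ≤ 2) {p q r : W} (hp : p ∈ S)
    (hq : q ∈ S) (hr : r ∈ S) (pq : p ≠ q) (pr : p ≠ r) (qr : q ≠ r) : False := by
  have h1 : ({p, q, r} : Set W) ⊆ S := by
    intro z hz
    rcases hz with rfl | rfl | rfl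
    · exact hp
    · exact hq
    · exact hr
  have h2 := Set.encard_le_encard h1
  rw [Set.encard_eq_three.mpr ⟨p, q, r, pq, pr, qr, rfl⟩] at h2
  exact absurd (h2.trans h) (by decide)

private theorem part1 (W : Type) (H : SimpleGraph W) (a b c d v : W) (ab : H.Adj a b)
    (ac : H.Adj a c) (ad : H.Adj a d) (bc : H.Adj b c) (bd : H.Adj b d) (cd : H.Adj c d)
    (va : v ≠ a) (vb : v ≠ b) (_vc : v ≠ c) (_vd : v ≠ d) (nva : ¬ H.Adj v a) (nvb : ¬ H.Adj v b)
    (nvc : ¬ H.Adj v c) (nvd : ¬ H.Adj v d) : ¬ InCQ H := by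
  rintro ⟨K, hK, hI, hC⟩
  have hv : v ∉ K := by
    intro hv
    by_cases h : a ∈ K
    · exact nva (hK v hv a h va)
    by_cases h' : b ∈ K
    · exact nvb (hK v hv b h' vb)
    exact hI a h b h' ab
  have key := hC v hv
  by_cases h1 : a ∈ K
  · by_cases h2 : b ∈ K
    · by_cases h3 : c ∈ K
      · exact three key (p := a) (q := b) (r := c) ⟨h1, nva⟩ ⟨h2, nvb⟩ ⟨h3, nvc⟩ ab.ne ac.ne bc.ne
      · have h4 : d ∈ K := by
          by_contra h4
          exact hI c h3 d h4 cd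
        exact three key (p := a) (q := b) (r := d) ⟨h1, nva⟩ ⟨h2, nvb⟩ ⟨h4, nvd⟩ ab.ne ad.ne bd.ne
    · have h3 : c ∈ K := by
        by_contra h3
        exact hI b h2 c h3 bc
      have h4 : d ∈ K := by
        by_contra h4
        exact hI b h2 d h4 bd
      exact three key (p := a) (q := c) (r := d) ⟨h1, nva⟩ ⟨h3, nvc⟩ ⟨h4, nvd⟩ ac.ne ad.ne cd.ne
  · have h2 : b ∈ K := by
      by_contra h2
      exact hI a h1 b h2 ab
    have h3 : c ∈ K := by
      by_contra h3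
      exact hI a h1 c h3 ac
    have h4 : d ∈ K := by
      by_contra h4
      exact hI a h1 d h4 ad
    exact three key (p := b) (q := c) (r := d) ⟨h2, nvb⟩ ⟨h3, nvc⟩ ⟨h4, nvd⟩ bc.ne bd.ne cd.ne

private theorem part2 (W : Type) (H : SimpleGraph W) (a b c x y v : W) (ab : H.Adj a b)
    (ac : H.Adj a c) (bc : H.Adj b c) (xa : H.Adj x a) (xb : H.Adj x b) (ya : H.Adj y a)
    (yc : H.Adj y c) (_xy : x ≠ y) (_nxy : ¬ H.Adj x y) (xc : x ≠ c) (yb : y ≠ b)
    (va : v ≠ a) (vb : v ≠ b) (_vc : v ≠ c) (_vx : v ≠ x) (_vy : v ≠ y) (nva : ¬ H.Adj v a)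
    (nvb : ¬ H.Adj v b) (nvc : ¬ H.Adj v c) (nvx : ¬ H.Adj v x) (nvy : ¬ H.Adj v y) :
    ¬ InCQ H := by
  rintro ⟨K, hK, hI, hC⟩
  have hv : v ∉ K := by
    intro hv
    by_cases h : a ∈ K
    · exact nva (hK v hv a h va)
    by_cases h' : b ∈ K
    · exact nvb (hK v hv b h' vb)
    exact hI a h b h' ab
  have key := hC v hv
  by_cases h1 : a ∈ K
  · by_cases h2 : b ∈ K
    · by_cases h3 : c ∈ K
      · exact three key (p := a) (q := b) (r := c) ⟨h1, nva⟩ ⟨h2, nvb⟩ ⟨h3, nvc⟩ ab.ne ac.ne bc.ne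
      · have h4 : y ∈ K := by
          by_contra h4
          exact hI y h4 c h3 yc
        exact three key (p := a) (q := b) (r := y) ⟨h1, nva⟩ ⟨h2, nvb⟩ ⟨h4, nvy⟩ ab.ne ya.ne.symm
          yb.symm
    · have h3 : c ∈ K := by
        by_contra h3
        exact hI b h2 c h3 bc
      have h4 : x ∈ K := by
        by_contra h4
        exact hI x h4 b h2 xb
      exact three key (p := a) (q := c) (r := x) ⟨h1, nva⟩ ⟨h3, nvc⟩ ⟨h4, nvx⟩ ac.ne xa.ne.symm
        xc.symm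
  · have h2 : b ∈ K := by
      by_contra h2
      exact hI a h1 b h2 ab
    have h3 : c ∈ K := by
      by_contra h3
      exact hI a h1 c h3 ac
    have h4 : x ∈ K := by
      by_contra h4
      exact hI x h4 a h1 xa
    exact three key (p := b) (q := c) (r := x) ⟨h2, nvb⟩ ⟨h3, nvc⟩ ⟨h4, nvx⟩ bc.ne xb.ne.symm
      xc.symm

private theorem part3 (W : Type) (H : SimpleGraph W) (a b c d x y : W) (ab : H.Adj a b)
    (_ac : H.Adj a c) (_ad : H.Adj a d) (_bc : H.Adj b c) (_bd : H.Adj b d) (cd : H.Adj c d)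
    (xa : H.Adj x a) (xb : H.Adj x b) (nxc : ¬ H.Adj x c) (nxd : ¬ H.Adj x d) (yc : H.Adj y c)
    (yd : H.Adj y d) (nya : ¬ H.Adj y a) (nyb : ¬ H.Adj y b) (xc : x ≠ c) (xd : x ≠ d)
    (ya : y ≠ a) (yb : y ≠ b) : ¬ InMC H := by
  rintro ⟨K, C, hK, hI, hC, hN⟩
  have hx : x ∉ K := by
    intro hx
    have h1 : c ∉ K := fun h => nxc (hK x hx c h xc)
    have h2 : d ∉ K := fun h => nxd (hK x hx d h xd)
    exact hI c h1 d h2 cd
  have hy : y ∉ K := by
    intro hy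
    have h1 : a ∉ K := fun h => nya (hK y hy a h ya)
    have h2 : b ∉ K := fun h => nyb (hK y hy b h yb)
    exact hI a h1 b h2 ab
  have hCx := hC x hx
  have hCy := hC y hy
  rcases hN x hx y hy with h | h
  · -- C x ⊆ C y ⊆ N(y): a, b are not in C x
    have e := Set.encard_le_one_iff.mp hCx.2 a b
      ⟨xa, fun ha => nya (hCy.1 (h ha))⟩ ⟨xb, fun hb => nyb (hCy.1 (h hb))⟩
    exact ab.ne e
  · have e := Set.encard_le_one_iff.mp hCy.2 c d
      ⟨yc, fun hc => nxc (hCx.1 (h hc))⟩ ⟨yd, fun hd => nxd (hCx.1 (h hd))⟩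
    exact cd.ne e

private theorem part4 (W : Type) (H : SimpleGraph W) (a b c d : W) (hac : a ≠ c) (hbd : b ≠ d)
    (ab : H.Adj a b) (bc : H.Adj b c) (cd : H.Adj c d) (da : H.Adj d a) (nac : ¬ H.Adj a c)
    (nbd : ¬ H.Adj b d) (K : Set W) (hK : ∀ u ∈ K, ∀ v ∈ K, u ≠ v → H.Adj u v)
    (hI : ∀ u, u ∉ K → ∀ v, v ∉ K → ¬ H.Adj u v) : False := by
  by_cases h1 : a ∈ K
  · have h3 : c ∉ K := fun h => nac (hK a h1 c h hac)
    by_cases h2 : b ∈ K
    · have h4 : d ∉ K := fun h => nbd (hK b h2 d h hbd)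
      exact hI c h3 d h4 cd
    · exact hI b h2 c h3 bc
  · by_cases h2 : b ∈ K
    · have h4 : d ∉ K := fun h => nbd (hK b h2 d h hbd)
      exact hI d h4 a h1 da
    · exact hI a h1 b h2 ab

end eExclAux

/-- **E4.** -/
theorem eExcl : S_EExcl := by
  refine ⟨eExclAux.part1, eExclAux.part2, eExclAux.part3, ?_⟩
  intro W H a b c d hac hbd ab bc cd da nac nbd
  refine ⟨?_, ?_⟩
  · rintro ⟨K, hK, hI, -⟩
    exact eExclAux.part4 W H a b c d hac hbd ab bc cd da nac nbd K hK hI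
  · rintro ⟨K, C, hK, hI, -, -⟩
    exact eExclAux.part4 W H a b c d hac hbd ab bc cd da nac nbd K hK hI

end Pool.Agent.MPd439b2
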