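import Pool.Agent.Lib.MP_d439b2_co.B.SpecF
import Pool.Agent.Lib.MP_d439b2_co.Size8

/-!
# MP_d439b2_co, FA: small graphs outside `InCoS` and `InCoT`
-/

set_option autoImplicit false

namespace Pool.Agent.MPd439b2

namespace fAAux

theorem pig {T : Type} {a b c d x y z : T} (hab : a ≠ b) (hac : a ≠ c) (had : a ≠ d)
    (hbc : b ≠ c) (hbd : b ≠ d) (hcd : c ≠ d) (ha : a = x ∨ a = y ∨ a = z)
    (hb : b = x ∨ b = y ∨ b = z) (hc : c = x ∨ c = y ∨ c = z) (hd : d = x ∨ d = y ∨ d = z) :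
    False := by
  rcases ha with rfl | rfl | rfl <;> rcases hb with rfl | rfl | rfl <;>
    rcases hc with h | h | h <;> rcases hd with h' | h' | h' <;>
    first
      | exact hab rfl
      | exact hac h.symm
      | exact hbc h.symm
      | exact had h'.symm
      | exact hbd h'.symm
      | exact hcd (h.trans h'.symm)

theorem sep {ι : Type} {a b : ι × Fin 3 × ℕ} (h1 : a.1 = b.1) (h : a ≠ b) :
    a.2.1.val ≠ b.2.1.val ∨ a.2.2 ≠ b.2.2 := by
  obtain ⟨c, i, k⟩ := a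
  obtain ⟨c', i', k'⟩ := b
  simp only at h1 ⊢
  subst h1
  by_contra hcon
  push Not at hcon
  apply h
  rw [Fin.ext hcon.1, hcon.2]

/-- a vertex of `tripods ι` with three different neighbours is a centre -/
theorem tcent {ι : Type} {u a b c : ι × Fin 3 × ℕ} (h1 : (tripods ι).Adj u a)
    (h2 : (tripods ι).Adj u b) (h3 : (tripods ι).Adj u c) (hab : a ≠ b) (hac : a ≠ c)
    (hbc : b ≠ c) : u.2.1.val = 0 ∧ u.2.2 = 0 := by
  have e1 := Size8_tadj h1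
  have e2 := Size8_tadj h2
  have e3 := Size8_tadj h3
  have s1 := sep (h1.2.1.symm.trans h2.2.1) hab
  have s2 := sep (h1.2.1.symm.trans h3.2.1) hac
  have s3 := sep (h2.2.1.symm.trans h3.2.1) hbc
  have l1 := a.2.1.isLt
  have l2 := b.2.1.isLt
  have l3 := c.2.1.isLt
  have l4 := u.2.1.isLt
  omega

/-- three different neighbours in `nets ι`: the vertex has the level `0`, and two of the neighbours
have the level `0` -/
theorem nlev {ι : Type} {u a b c : ι × Fin 3 × ℕ} (h1 : (nets ι).Adj u a)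
    (h2 : (nets ι).Adj u b) (h3 : (nets ι).Adj u c) (hab : a ≠ b) (hac : a ≠ c)
    (hbc : b ≠ c) : (a.2.2 = 0 ∧ b.2.2 = 0) ∨ (a.2.2 = 0 ∧ c.2.2 = 0) ∨
      (b.2.2 = 0 ∧ c.2.2 = 0) := by
  have e1 := Size8_nadj h1
  have e2 := Size8_nadj h2
  have e3 := Size8_nadj h3
  have s1 := sep (h1.2.1.symm.trans h2.2.1) hab
  have s2 := sep (h1.2.1.symm.trans h3.2.1) hac
  have s3 := sep (h2.2.1.symm.trans h3.2.1) hbc
  have l1 := a.2.1.isLt
  have l2 := b.2.1.isLt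
  have l3 := c.2.1.isLt
  have l4 := u.2.1.isLt
  omega

end fAAux

open fAAux in
theorem fA : S_FA := by
  refine ⟨?_, ?_, ?_⟩
  · rintro W H ⟨a, b, c, hab, hac, hbc, nab, nac, nbc⟩ ⟨ι, f, hf, hadj⟩
    exact Size8_ttri (hadj a b ((SimpleGraph.compl_adj H _ _).2 ⟨hab, nab⟩))
      (hadj a c ((SimpleGraph.compl_adj H _ _).2 ⟨hac, nac⟩))
      (hadj b c ((SimpleGraph.compl_adj H _ _).2 ⟨hbc, nbc⟩))
  · intro W H a b c d v ab ac ad bc bd cd va vb vc vd nva nvb nvc nvd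
    constructor
    · rintro ⟨ι, f, hf, hadj⟩
      obtain ⟨x, y, z, h⟩ := Size8_tdeg ι (f v)
      exact pig (hf.ne ab.ne) (hf.ne ac.ne) (hf.ne ad.ne) (hf.ne bc.ne) (hf.ne bd.ne)
        (hf.ne cd.ne) (h _ (hadj v a ((SimpleGraph.compl_adj H _ _).2 ⟨va, nva⟩)))
        (h _ (hadj v b ((SimpleGraph.compl_adj H _ _).2 ⟨vb, nvb⟩)))
        (h _ (hadj v c ((SimpleGraph.compl_adj H _ _).2 ⟨vc, nvc⟩)))
        (h _ (hadj v d ((SimpleGraph.compl_adj H _ _).2 ⟨vd, nvd⟩)))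
    · rintro ⟨ι, f, hf, hadj, -⟩
      obtain ⟨x, y, z, h⟩ := Size8_ndeg ι (f v)
      exact pig (hf.ne ab.ne) (hf.ne ac.ne) (hf.ne ad.ne) (hf.ne bc.ne) (hf.ne bd.ne)
        (hf.ne cd.ne) (h _ (hadj v a ((SimpleGraph.compl_adj H _ _).2 ⟨va, nva⟩)))
        (h _ (hadj v b ((SimpleGraph.compl_adj H _ _).2 ⟨vb, nvb⟩)))
        (h _ (hadj v c ((SimpleGraph.compl_adj H _ _).2 ⟨vc, nvc⟩)))
        (h _ (hadj v d ((SimpleGraph.compl_adj H _ _).2 ⟨vd, nvd⟩)))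
  · intro W H a b c d x y ab ac ad bc bd cd xa xb nxc nxd yc yd nya nyb xc xd ya yb xy nxy
    constructor
    · rintro ⟨ι, f, hf, hadj⟩
      have h1 := hadj x c ((SimpleGraph.compl_adj H _ _).2 ⟨xc, nxc⟩)
      have h2 := hadj x d ((SimpleGraph.compl_adj H _ _).2 ⟨xd, nxd⟩)
      have h3 := hadj x y ((SimpleGraph.compl_adj H _ _).2 ⟨xy, nxy⟩)
      have h4 := hadj y a ((SimpleGraph.compl_adj H _ _).2 ⟨ya, nya⟩)
      have h5 := hadj y b ((SimpleGraph.compl_adj H _ _).2 ⟨yb, nyb⟩)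
      have c1 := tcent h1 h2 h3 (hf.ne cd.ne) (hf.ne yc.ne.symm) (hf.ne yd.ne.symm)
      have c2 := tcent h4 h5 h3.symm (hf.ne ab.ne) (hf.ne xa.ne.symm) (hf.ne xb.ne.symm)
      have c3 := (Size8_tadj h3).1
      omega
    · rintro ⟨ι, f, hf, hadj, hlast⟩
      have h1 := hadj x c ((SimpleGraph.compl_adj H _ _).2 ⟨xc, nxc⟩)
      have h2 := hadj x d ((SimpleGraph.compl_adj H _ _).2 ⟨xd, nxd⟩)
      have h3 := hadj x y ((SimpleGraph.compl_adj H _ _).2 ⟨xy, nxy⟩)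
      rcases nlev h1 h2 h3 (hf.ne cd.ne) (hf.ne yc.ne.symm) (hf.ne yd.ne.symm) with
        ⟨e1, e2⟩ | ⟨e1, e2⟩ | ⟨e1, e2⟩
      · exact (hlast c d cd.ne (h1.2.1.symm.trans h2.2.1) e1 e2).2 cd
      · exact (hlast c y yc.ne.symm (h1.2.1.symm.trans h3.2.1) e1 e2).2 yc.symm
      · exact (hlast d y yd.ne.symm (h2.2.1.symm.trans h3.2.1) e1 e2).2 yd.symm

end Pool.Agent.MPd439b2
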