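import Pool.Agent.Lib.MP_d439b2_co.B.SpecF

/-!
# MP_d439b2_co, FB: the members of `S2` with independence number two
-/

set_option autoImplicit false

namespace Pool.Agent.MPd439b2

namespace fBAux

theorem three {W : Type} {S : Set W} (h : S.encard ≤ 2) {p q r : W} (hp : p ∈ S)
    (hq : q ∈ S) (hr : r ∈ S) (pq : p ≠ q) (pr : p ≠ r) (qr : q ≠ r) : False := by
  have h1 : ({p, q, r} : Set W) ⊆ S := by
    intro z hz
    rcases hz with rfl | rfl | rfl
    · exact hp
    · exact hq
    · exact hr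
  have h2 := Set.encard_le_encard h1
  rw [Set.encard_eq_three.mpr ⟨p, q, r, pq, pr, qr, rfl⟩] at h2
  exact absurd (h2.trans h) (by decide)

/-- embedding of a clique and one more vertex -/
theorem one_emb {W β : Type} [Finite W] [Nonempty β] {H : SimpleGraph W} {K : Set W} {v : W}
    (hK : ∀ u ∈ K, ∀ w ∈ K, u ≠ w → H.Adj u w) (hv : ∀ w, w ∉ K → w = v) (T : SimpleGraph β)
    (t : β) (A B : Set β) (hA : {w | w ≠ v ∧ H.Adj v w}.encard ≤ A.encard)
    (hB : {w | w ≠ v ∧ ¬ H.Adj v w}.encard ≤ B.encard) (tA : ∀ a ∈ A, T.Adj t a)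
    (tB : ∀ b ∈ B, b ≠ t ∧ ¬ T.Adj t b)
    (hAB : ∀ a ∈ A ∪ B, ∀ b ∈ A ∪ B, a ≠ b → T.Adj a b) (hd : Disjoint A B) : IsIndSub H T := by
  classical
  obtain ⟨gA, hgA, iA⟩ := Set.Finite.exists_injOn_of_encard_le (Set.toFinite _) hA
  obtain ⟨gB, hgB, iB⟩ := Set.Finite.exists_injOn_of_encard_le (Set.toFinite _) hB
  let f : W → β := fun w => if w = v then t else if H.Adj v w then gA w else gB w
  have fv : f v = t := if_pos rfl
  have fA : ∀ w, w ≠ v → H.Adj v w → f w = gA w := fun w h h' => by
    change (if w = v then t else if H.Adj v w then gA w else gB w) = gA w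
    rw [if_neg h, if_pos h']
  have fB : ∀ w, w ≠ v → ¬ H.Adj v w → f w = gB w := fun w h h' => by
    change (if w = v then t else if H.Adj v w then gA w else gB w) = gB w
    rw [if_neg h, if_neg h']
  have mA : ∀ w, w ≠ v → H.Adj v w → f w ∈ A := fun w h h' => by
    rw [fA w h h']
    exact hgA ⟨h, h'⟩
  have mB : ∀ w, w ≠ v → ¬ H.Adj v w → f w ∈ B := fun w h h' => by
    rw [fB w h h']
    exact hgB ⟨h, h'⟩
  have mAB : ∀ w, w ≠ v → f w ∈ A ∪ B := fun w h => by
    by_cases h' : H.Adj v w
    · exact Or.inl (mA w h h')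
    · exact Or.inr (mB w h h')
  have ft : ∀ w, w ≠ v → f w ≠ t := fun w h => by
    by_cases h' : H.Adj v w
    · exact (tA _ (mA w h h')).ne.symm
    · exact (tB _ (mB w h h')).1
  have inK : ∀ w, w ≠ v → w ∈ K := fun w h => by
    by_contra h'
    exact h (hv w h')
  have finj : Function.Injective f := by
    intro u w h
    by_cases hu : u = v
    · by_cases hw : w = v
      · exact hu.trans hw.symm
      · exact absurd (by rw [← h, hu, fv]) (ft w hw)
    · by_cases hw : w = v
      · exact absurd (by rw [h, hw, fv]) (ft u hu)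
      · by_cases h1 : H.Adj v u <;> by_cases h2 : H.Adj v w
        · apply iA (show u ∈ {w | w ≠ v ∧ H.Adj v w} from ⟨hu, h1⟩) ⟨hw, h2⟩
          rw [← fA u hu h1, ← fA w hw h2, h]
        · exact absurd (h ▸ mA u hu h1) (fun h' => Set.disjoint_left.mp hd h' (mB w hw h2))
        · exact absurd (h ▸ mB u hu h1) (fun h' => Set.disjoint_left.mp hd (mA w hw h2) h')
        · apply iB (show u ∈ {w | w ≠ v ∧ ¬ H.Adj v w} from ⟨hu, h1⟩) ⟨hw, h2⟩
          rw [← fB u hu h1, ← fB w hw h2, h]
  have key : ∀ w, w ≠ v → (H.Adj v w ↔ T.Adj t (f w)) := by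
    intro w hw
    by_cases h : H.Adj v w
    · exact iff_of_true h (tA _ (mA w hw h))
    · exact iff_of_false h (tB _ (mB w hw h)).2
  refine ⟨f, finj, ?_⟩
  intro u w
  by_cases hu : u = v
  · by_cases hw : w = v
    · rw [hu, hw]
      exact iff_of_false (H.loopless.irrefl v) (T.loopless.irrefl _)
    · rw [hu, fv]
      exact key w hw
  · by_cases hw : w = v
    · rw [hw, fv, H.adj_comm, T.adj_comm]
      exact key u hu
    · constructor
      · intro h
        exact hAB _ (mAB u hu) _ (mAB w hw) (fun e => h.ne (finj e))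
      · intro h
        exact hK u (inK u hu) w (inK w hw) (fun e => h.ne (by rw [e]))

/-- embedding from an enumeration of the vertices -/
theorem sub_of_enum {W β : Type} {m : ℕ} {H : SimpleGraph W} {T : SimpleGraph β} (p : Fin m → W)
    (hp : Function.Bijective p) (q : Fin m → β) (hq : Function.Injective q)
    (h : ∀ i j, H.Adj (p i) (p j) ↔ T.Adj (q i) (q j)) : IsIndSub H T := by
  let e := Equiv.ofBijective p hp
  have he : ∀ w, p (e.symm w) = w := fun w => e.apply_symm_apply w
  refine ⟨fun w => q (e.symm w), hq.comp e.symm.injective, ?_⟩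
  intro u w
  rw [← h, he, he]

/-- the abbreviation for the fourth alternative -/
def Alt4 {W : Type} (H : SimpleGraph W) : Prop :=
  ∃ a b c d x y : W, H.Adj a b ∧ H.Adj a c ∧ H.Adj a d ∧ H.Adj b c ∧ H.Adj b d ∧ H.Adj c d ∧
      H.Adj x a ∧ H.Adj x b ∧ ¬ H.Adj x c ∧ ¬ H.Adj x d ∧ H.Adj y c ∧ H.Adj y d ∧
      ¬ H.Adj y a ∧ ¬ H.Adj y b ∧ x ≠ c ∧ x ≠ d ∧ y ≠ a ∧ y ≠ b ∧ x ≠ y ∧ ¬ H.Adj x y

theorem enc2 {m : ℕ} {a b : Fin m} (h : a ≠ b) : ({a, b} : Set (Fin m)).encard = 2 :=
  Set.encard_pair h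

/-- `x` has two private neighbours `a`, `b` -/
theorem two {W : Type} [Finite W] {H : SimpleGraph W} {K : Set W} {x y : W}
    (hK : ∀ u ∈ K, ∀ w ∈ K, u ≠ w → H.Adj u w) (hKc : ∀ w, w ∉ K ↔ w = x ∨ w = y) (hxy : x ≠ y)
    (hnxy : ¬ H.Adj x y) (hx2 : (H.neighborSet x).encard ≤ 2)
    (hor : ∀ k ∈ K, H.Adj x k ∨ H.Adj y k) {a b : W} (haK : a ∈ K) (hbK : b ∈ K) (hab : a ≠ b)
    (xa : H.Adj x a) (xb : H.Adj x b) (ya : ¬ H.Adj y a) (yb : ¬ H.Adj y b) :
    Row2 H ∨ Alt4 H := by
  have hxK : x ∉ K := (hKc x).mpr (Or.inl rfl)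
  have hyK : y ∉ K := (hKc y).mpr (Or.inr rfl)
  have hax : a ≠ x := fun h => hxK (h ▸ haK)
  have hay : a ≠ y := fun h => hyK (h ▸ haK)
  have hbx : b ≠ x := fun h => hxK (h ▸ hbK)
  have hby : b ≠ y := fun h => hyK (h ▸ hbK)
  have hab' : H.Adj a b := hK a haK b hbK hab
  have hnx : ∀ w, w ≠ a → w ≠ b → ¬ H.Adj x w := fun w h1 h2 h =>
    three hx2 (p := a) (q := b) (r := w) xa xb h hab h1.symm h2.symm
  have hy : ∀ w ∈ K, w ≠ a → w ≠ b → H.Adj y w := fun w hw h1 h2 =>
    (hor w hw).resolve_left (hnx w h1 h2)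
  by_cases hc : ∃ c ∈ K, c ≠ a ∧ c ≠ b
  · obtain ⟨c, hcK, hca, hcb⟩ := hc
    have hcx : c ≠ x := fun h => hxK (h ▸ hcK)
    have hcy : c ≠ y := fun h => hyK (h ▸ hcK)
    have yc : H.Adj y c := hy c hcK hca hcb
    have xc : ¬ H.Adj x c := hnx c hca hcb
    have hac' : H.Adj a c := hK a haK c hcK hca.symm
    have hbc' : H.Adj b c := hK b hbK c hcK hcb.symm
    by_cases hd : ∃ d ∈ K, d ≠ a ∧ d ≠ b ∧ d ≠ c
    · obtain ⟨d, hdK, hda, hdb, hdc⟩ := hd
      right
      refine ⟨a, b, c, d, x, y, hab', hac', hK a haK d hdK hda.symm, hbc',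
        hK b hbK d hdK hdb.symm, hK c hcK d hdK hdc.symm, xa, xb, xc, hnx d hda hdb, yc,
        hy d hdK hda hdb, ya, yb, hcx.symm, fun h => hxK (h ▸ hdK), hay.symm, hby.symm, hxy, hnxy⟩
    · -- the kite
      left
      right
      push Not at hd
      let p : Fin 5 → W := ![c, a, b, y, x]
      have hsurj : Function.Surjective p := by
        intro w
        by_cases hw : w ∈ K
        · by_cases h1 : w = a
          · exact ⟨1, h1.symm⟩
          by_cases h2 : w = b
          · exact ⟨2, h2.symm⟩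
          · exact ⟨0, (hd w hw h1 h2).symm⟩
        · rcases (hKc w).mp hw with h | h
          · exact ⟨4, h.symm⟩
          · exact ⟨3, h.symm⟩
      have hinj : Function.Injective p := by
        intro i j h
        fin_cases i <;> fin_cases j <;> first
          | rfl
          | exact absurd h hca
          | exact absurd h hcb
          | exact absurd h hcy
          | exact absurd h hcx
          | exact absurd h hab
          | exact absurd h hay
          | exact absurd h hax
          | exact absurd h hby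
          | exact absurd h hbx
          | exact absurd h hxy
          | exact absurd h.symm hca
          | exact absurd h.symm hcb
          | exact absurd h.symm hcy
          | exact absurd h.symm hcx
          | exact absurd h.symm hab
          | exact absurd h.symm hay
          | exact absurd h.symm hax
          | exact absurd h.symm hby
          | exact absurd h.symm hbx
          | exact absurd h.symm hxy
      have hadj : ∀ i j, H.Adj (p i) (p j) ↔ Kite.Adj i j := by
        intro i j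
        have k1 := hac'.symm
        have k2 := hbc'.symm
        have k3 := yc.symm
        have k4 := xa.symm
        have k5 := xb.symm
        have k6 := hab'.symm
        have n1 : ¬ H.Adj c x := fun h => xc h.symm
        have n2 : ¬ H.Adj a y := fun h => ya h.symm
        have n3 : ¬ H.Adj b y := fun h => yb h.symm
        have n4 : ¬ H.Adj y x := fun h => hnxy h.symm
        fin_cases i <;> fin_cases j <;> first
          | exact iff_of_false (H.loopless.irrefl _) (fun h => h.1 rfl)
          | (refine iff_of_true ?_ ⟨by decide, by decide⟩; assumption)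
          | (refine iff_of_false ?_ (fun h => absurd h.2 (by decide)); assumption)
      let e := Equiv.ofBijective p ⟨hinj, hsurj⟩
      refine ⟨⟨e.symm, ?_⟩⟩
      intro u w
      have hu : p (e.symm u) = u := e.apply_symm_apply u
      have hw : p (e.symm w) = w := e.apply_symm_apply w
      rw [← hadj, hu, hw]
  · -- `K_3 + P_1`
    left
    left
    push Not at hc
    have hKab : ∀ w ∈ K, w = a ∨ w = b := by
      intro w hw
      by_cases h : w = a
      · exact Or.inl h
      · exact Or.inr (hc w hw h)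
    constructor
    · refine ⟨![a, b, x, y], ?_, ?_⟩
      · intro i j h
        fin_cases i <;> fin_cases j <;> first
          | rfl
          | exact absurd h hab
          | exact absurd h hax
          | exact absurd h hay
          | exact absurd h hbx
          | exact absurd h hby
          | exact absurd h hxy
          | exact absurd h.symm hab
          | exact absurd h.symm hax
          | exact absurd h.symm hay
          | exact absurd h.symm hbx
          | exact absurd h.symm hby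
          | exact absurd h.symm hxy
      · intro i j
        have k4 := xa.symm
        have k5 := xb.symm
        have k6 := hab'.symm
        have n2 : ¬ H.Adj a y := fun h => ya h.symm
        have n3 : ¬ H.Adj b y := fun h => yb h.symm
        have n4 : ¬ H.Adj y x := fun h => hnxy h.symm
        fin_cases i <;> fin_cases j <;> first
          | exact iff_of_false (fun h => h.1 rfl) (H.loopless.irrefl _)
          | (refine iff_of_true ⟨by decide, by decide⟩ ?_; assumption)
          | (refine iff_of_false (fun h => absurd h.2 (by decide)) ?_; assumption)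
    · have hny : ∀ w, ¬ H.Adj y w := by
        intro w h
        by_cases hw : w ∈ K
        · rcases hKab w hw with h' | h'
          · exact ya (h' ▸ h)
          · exact yb (h' ▸ h)
        · rcases (hKc w).mp hw with h' | h'
          · exact hnxy (h' ▸ h).symm
          · exact h.ne h'.symm
      refine one_emb (K := insert x K) (v := y) ?_ ?_ K5P 5 {0, 1} {2, 3, 4} ?_ ?_ ?_ ?_ ?_ ?_
      · have hxk : ∀ w ∈ K, H.Adj x w := by
          intro w hw
          rcases hKab w hw with h' | h'
          · exact h' ▸ xa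
          · exact h' ▸ xb
        rintro u (rfl | hu) w (rfl | hw) huw
        · exact absurd rfl huw
        · exact hxk w hw
        · exact (hxk u hu).symm
        · exact hK u hu w hw huw
      · intro w hw
        have h1 : w ∉ K := fun h => hw (Or.inr h)
        exact ((hKc w).mp h1).resolve_left (fun h => hw (Or.inl h))
      · rw [enc2 (by decide)]
        have : {w | w ≠ y ∧ H.Adj y w} = ∅ := by
          rw [Set.eq_empty_iff_forall_notMem]
          intro w hw
          exact hny w hw.2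
        rw [this, Set.encard_empty]
        exact bot_le
      · rw [Set.encard_eq_three.mpr ⟨2, 3, 4, by decide, by decide, by decide, rfl⟩]
        have hsub : {w | w ≠ y ∧ ¬ H.Adj y w} ⊆ {a, b, x} := by
          intro w hw
          by_cases hwK : w ∈ K
          · rcases hKab w hwK with h' | h'
            · exact Or.inl h'
            · exact Or.inr (Or.inl h')
          · exact Or.inr (Or.inr (((hKc w).mp hwK).resolve_right hw.1))
        refine (Set.encard_le_encard hsub).trans ?_
        rw [Set.encard_eq_three.mpr ⟨a, b, x, hab, hax, hbx, rfl⟩]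
      · rintro i (rfl | rfl)
        · exact ⟨by decide, by decide⟩
        · exact ⟨by decide, by decide⟩
      · rintro i (rfl | rfl | rfl)
        · exact ⟨by decide, fun h => absurd h.2 (by decide)⟩
        · exact ⟨by decide, fun h => absurd h.2 (by decide)⟩
        · exact ⟨by decide, fun h => absurd h.2 (by decide)⟩
      · intro i hi j hj hij
        refine ⟨hij, Or.inl ⟨?_, ?_⟩⟩
        · rcases hi with (rfl | rfl) | (rfl | rfl | rfl) <;> decide
        · rcases hj with (rfl | rfl) | (rfl | rfl | rfl) <;> decide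
      · rw [Set.disjoint_left]
        rintro i (rfl | rfl) (h | h | h) <;> exact absurd h (by decide)

/-- one vertex outside the clique -/
theorem one {W : Type} [Finite W] {H : SimpleGraph W} {K : Set W} {v : W}
    (hK : ∀ u ∈ K, ∀ w ∈ K, u ≠ w → H.Adj u w) (hKc : ∀ w, w ∉ K ↔ w = v)
    (hv2 : (H.neighborSet v).encard ≤ 2) : Kn H ∨ Row2 H ∨
    ∃ a b c d v : W, H.Adj a b ∧ H.Adj a c ∧ H.Adj a d ∧ H.Adj b c ∧ H.Adj b d ∧ H.Adj c d ∧
      v ≠ a ∧ v ≠ b ∧ v ≠ c ∧ v ≠ d ∧ ¬ H.Adj v a ∧ ¬ H.Adj v b ∧ ¬ H.Adj v c ∧ ¬ H.Adj v d := by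
  have : Nonempty W := ⟨v⟩
  have inK : ∀ w, w ≠ v → w ∈ K := fun w h => by
    by_contra h'
    exact h ((hKc w).mp h')
  have hN : {w | w ≠ v ∧ H.Adj v w}.encard ≤ 2 :=
    (Set.encard_le_encard (fun w hw => hw.2)).trans hv2
  have hfin : {w | w ≠ v ∧ ¬ H.Adj v w}.Finite := Set.toFinite _
  by_cases h4 : (4 : ℕ∞) ≤ {w | w ≠ v ∧ ¬ H.Adj v w}.encard
  · right
    right
    have hu : (Set.univ : Set (Fin 4)).encard = 4 := by
      rw [Set.encard_univ]
      simp
    obtain ⟨p, hp, ip⟩ := Set.Finite.exists_injOn_of_encard_le (s := (Set.univ : Set (Fin 4)))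
      (Set.toFinite _) (hu.trans_le h4)
    have hp' : ∀ i, p i ≠ v ∧ ¬ H.Adj v (p i) := fun i => hp (Set.mem_univ i)
    have hadj : ∀ i j, i ≠ j → H.Adj (p i) (p j) := fun i j hij =>
      hK _ (inK _ (hp' i).1) _ (inK _ (hp' j).1)
        (fun h => hij (ip (Set.mem_univ i) (Set.mem_univ j) h))
    exact ⟨p 0, p 1, p 2, p 3, v, hadj 0 1 (by decide), hadj 0 2 (by decide),
      hadj 0 3 (by decide), hadj 1 2 (by decide), hadj 1 3 (by decide), hadj 2 3 (by decide),
      (hp' 0).1.symm, (hp' 1).1.symm, (hp' 2).1.symm, (hp' 3).1.symm, (hp' 0).2, (hp' 1).2,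
      (hp' 2).2, (hp' 3).2⟩
  by_cases h3 : (3 : ℕ∞) ≤ {w | w ≠ v ∧ ¬ H.Adj v w}.encard
  · right
    left
    left
    constructor
    · have hu : (Set.univ : Set (Fin 3)).encard = 3 := by
        rw [Set.encard_univ]
        simp
      obtain ⟨p, hp, ip⟩ := Set.Finite.exists_injOn_of_encard_le (s := (Set.univ : Set (Fin 3)))
        (Set.toFinite _) (hu.trans_le h3)
      have hp' : ∀ i, p i ≠ v ∧ ¬ H.Adj v (p i) := fun i => hp (Set.mem_univ i)
      have hne : ∀ i j, i ≠ j → p i ≠ p j := fun i j hij h =>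
        hij (ip (Set.mem_univ i) (Set.mem_univ j) h)
      have hadj : ∀ i j, i ≠ j → H.Adj (p i) (p j) := fun i j hij =>
        hK _ (inK _ (hp' i).1) _ (inK _ (hp' j).1) (hne i j hij)
      refine ⟨![p 0, p 1, p 2, v], ?_, ?_⟩
      · intro i j h
        fin_cases i <;> fin_cases j <;> first
          | rfl
          | exact absurd h (hne 0 1 (by decide))
          | exact absurd h (hne 0 2 (by decide))
          | exact absurd h (hne 1 2 (by decide))
          | exact absurd h (hne 1 0 (by decide))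
          | exact absurd h (hne 2 0 (by decide))
          | exact absurd h (hne 2 1 (by decide))
          | exact absurd h (hp' 0).1
          | exact absurd h (hp' 1).1
          | exact absurd h (hp' 2).1
          | exact absurd h (hp' 0).1.symm
          | exact absurd h (hp' 1).1.symm
          | exact absurd h (hp' 2).1.symm
      · intro i j
        have k1 := hadj 0 1 (by decide)
        have k2 := hadj 0 2 (by decide)
        have k3 := hadj 1 2 (by decide)
        have k4 := k1.symm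
        have k5 := k2.symm
        have k6 := k3.symm
        have n1 := (hp' 0).2
        have n2 := (hp' 1).2
        have n3 := (hp' 2).2
        have n4 : ¬ H.Adj (p 0) v := fun h => n1 h.symm
        have n5 : ¬ H.Adj (p 1) v := fun h => n2 h.symm
        have n6 : ¬ H.Adj (p 2) v := fun h => n3 h.symm
        fin_cases i <;> fin_cases j <;> first
          | exact iff_of_false (fun h => h.1 rfl) (H.loopless.irrefl _)
          | (refine iff_of_true ⟨by decide, by decide⟩ ?_; assumption)
          | (refine iff_of_false (fun h => absurd h.2 (by decide)) ?_; assumption)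
    · refine one_emb (K := K) (v := v) hK (fun w h => (hKc w).mp h) K5P 5 {0, 1} {2, 3, 4}
        ?_ ?_ ?_ ?_ ?_ ?_
      · rw [enc2 (by decide)]
        exact hN
      · rw [Set.encard_eq_three.mpr ⟨2, 3, 4, by decide, by decide, by decide, rfl⟩]
        rw [not_le] at h4
        exact Order.le_of_lt_add_one (h4.trans_le (by norm_num))
      · rintro i (rfl | rfl)
        · exact ⟨by decide, by decide⟩
        · exact ⟨by decide, by decide⟩
      · rintro i (rfl | rfl | rfl)
        · exact ⟨by decide, fun h => absurd h.2 (by decide)⟩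
        · exact ⟨by decide, fun h => absurd h.2 (by decide)⟩
        · exact ⟨by decide, fun h => absurd h.2 (by decide)⟩
      · intro i hi j hj hij
        refine ⟨hij, Or.inl ⟨?_, ?_⟩⟩
        · rcases hi with (rfl | rfl) | (rfl | rfl | rfl) <;> decide
        · rcases hj with (rfl | rfl) | (rfl | rfl | rfl) <;> decide
      · rw [Set.disjoint_left]
        rintro i (rfl | rfl) (h | h | h) <;> exact absurd h (by decide)
  · left
    right
    refine one_emb (K := K) (v := v) hK (fun w h => (hKc w).mp h) co2P1P3 4 {0, 1} {2, 3}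
      ?_ ?_ ?_ ?_ ?_ ?_
    · rw [enc2 (by decide)]
      exact hN
    · rw [enc2 (by decide)]
      rw [not_le] at h3
      exact Order.le_of_lt_add_one (h3.trans_le (by norm_num))
    · rintro i (rfl | rfl)
      · exact ⟨by decide, by decide⟩
      · exact ⟨by decide, by decide⟩
    · rintro i (rfl | rfl)
      · exact ⟨by decide, fun h => absurd h.2 (by decide)⟩
      · exact ⟨by decide, fun h => absurd h.2 (by decide)⟩
    · intro i hi j hj hij
      refine ⟨hij, Or.inr (Or.inr ⟨?_, ?_⟩)⟩
      · rcases hi with (rfl | rfl) | (rfl | rfl) <;> decide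
      · rcases hj with (rfl | rfl) | (rfl | rfl) <;> decide
    · rw [Set.disjoint_left]
      rintro i (rfl | rfl) (h | h) <;> exact absurd h (by decide)

/-- the gem, case of classes with at most one element -/
theorem gem_emb {W : Type} {H : SimpleGraph W} {K : Set W} {x y : W}
    (hK : ∀ u ∈ K, ∀ w ∈ K, u ≠ w → H.Adj u w) (hKc : ∀ w, w ∉ K ↔ w = x ∨ w = y) (hxy : x ≠ y)
    (hnxy : ¬ H.Adj x y) (hor : ∀ k ∈ K, H.Adj x k ∨ H.Adj y k)
    (hX : ∀ u ∈ K, ∀ w ∈ K, H.Adj x u → ¬ H.Adj y u → H.Adj x w → ¬ H.Adj y w → u = w)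
    (hY : ∀ u ∈ K, ∀ w ∈ K, ¬ H.Adj x u → H.Adj y u → ¬ H.Adj x w → H.Adj y w → u = w)
    (hZ : ∀ u ∈ K, ∀ w ∈ K, H.Adj x u → H.Adj y u → H.Adj x w → H.Adj y w → u = w) :
    IsIndSub H gem := by
  classical
  have hxK : x ∉ K := (hKc x).mpr (Or.inl rfl)
  have hyK : y ∉ K := (hKc y).mpr (Or.inr rfl)
  let f : W → Fin 5 := fun w => if w = x then 0 else if w = y then 3 else
    if H.Adj x w then (if H.Adj y w then 4 else 1) else 2
  have hcl : ∀ w, (w = x ∧ f w = 0) ∨ (w = y ∧ f w = 3) ∨
      (w ∈ K ∧ H.Adj x w ∧ H.Adj y w ∧ f w = 4) ∨ (w ∈ K ∧ H.Adj x w ∧ ¬ H.Adj y w ∧ f w = 1) ∨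
      (w ∈ K ∧ ¬ H.Adj x w ∧ H.Adj y w ∧ f w = 2) := by
    intro w
    by_cases hwK : w ∈ K
    · have h1 : w ≠ x := fun h => hxK (h ▸ hwK)
      have h2 : w ≠ y := fun h => hyK (h ▸ hwK)
      by_cases h3 : H.Adj x w
      · by_cases h4 : H.Adj y w
        · refine Or.inr (Or.inr (Or.inl ⟨hwK, h3, h4, ?_⟩))
          simp [f, h1, h2, h3, h4]
        · refine Or.inr (Or.inr (Or.inr (Or.inl ⟨hwK, h3, h4, ?_⟩)))
          simp [f, h1, h2, h3, h4]
      · refine Or.inr (Or.inr (Or.inr (Or.inr ⟨hwK, h3, (hor w hwK).resolve_left h3, ?_⟩)))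
        simp [f, h1, h2, h3]
    · rcases (hKc w).mp hwK with h | h
      · exact Or.inl ⟨h, by simp [f, h]⟩
      · refine Or.inr (Or.inl ⟨h, ?_⟩)
        have h1 : w ≠ x := fun h' => hxy (h'.symm.trans h)
        simp [f, h, hxy.symm]
  have finj : Function.Injective f := by
    intro u w h
    rcases hcl u with ⟨u1, u2⟩ | ⟨u1, u2⟩ | ⟨u1, u2, u3, u4⟩ | ⟨u1, u2, u3, u4⟩ | ⟨u1, u2, u3, u4⟩ <;>
      rcases hcl w with ⟨w1, w2⟩ | ⟨w1, w2⟩ | ⟨w1, w2, w3, w4⟩ | ⟨w1, w2, w3, w4⟩ |
        ⟨w1, w2, w3, w4⟩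
    · exact u1.trans w1.symm
    · exact absurd (u2.symm.trans (h.trans w2)) (by decide)
    · exact absurd (u2.symm.trans (h.trans w4)) (by decide)
    · exact absurd (u2.symm.trans (h.trans w4)) (by decide)
    · exact absurd (u2.symm.trans (h.trans w4)) (by decide)
    · exact absurd (u2.symm.trans (h.trans w2)) (by decide)
    · exact u1.trans w1.symm
    · exact absurd (u2.symm.trans (h.trans w4)) (by decide)
    · exact absurd (u2.symm.trans (h.trans w4)) (by decide)
    · exact absurd (u2.symm.trans (h.trans w4)) (by decide)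
    · exact absurd (u4.symm.trans (h.trans w2)) (by decide)
    · exact absurd (u4.symm.trans (h.trans w2)) (by decide)
    · exact hZ u u1 w w1 u2 u3 w2 w3
    · exact absurd (u4.symm.trans (h.trans w4)) (by decide)
    · exact absurd (u4.symm.trans (h.trans w4)) (by decide)
    · exact absurd (u4.symm.trans (h.trans w2)) (by decide)
    · exact absurd (u4.symm.trans (h.trans w2)) (by decide)
    · exact absurd (u4.symm.trans (h.trans w4)) (by decide)
    · exact hX u u1 w w1 u2 u3 w2 w3
    · exact absurd (u4.symm.trans (h.trans w4)) (by decide)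
    · exact absurd (u4.symm.trans (h.trans w2)) (by decide)
    · exact absurd (u4.symm.trans (h.trans w2)) (by decide)
    · exact absurd (u4.symm.trans (h.trans w4)) (by decide)
    · exact absurd (u4.symm.trans (h.trans w4)) (by decide)
    · exact hY u u1 w w1 u2 u3 w2 w3
  have hg : ∀ i j : Fin 5, i ≠ j → (¬ (i = 0 ∧ j = 2)) → (¬ (i = 0 ∧ j = 3)) →
      (¬ (i = 1 ∧ j = 3)) → (¬ (i = 2 ∧ j = 0)) → (¬ (i = 3 ∧ j = 0)) → (¬ (i = 3 ∧ j = 1)) →
      gem.Adj i j := by
    intro i j h1 h2 h3 h4 h5 h6 h7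
    refine ⟨h1, ?_⟩
    revert i j
    decide
  have hKK : ∀ u ∈ K, ∀ w ∈ K, f u ≠ 0 → f u ≠ 3 → f w ≠ 0 → f w ≠ 3 →
      (H.Adj u w ↔ gem.Adj (f u) (f w)) := by
    intro u hu w hw a1 a2 a3 a4
    by_cases huw : u = w
    · subst huw
      exact iff_of_false (H.loopless.irrefl _) (gem.loopless.irrefl _)
    · refine iff_of_true (hK u hu w hw huw) (hg _ _ (fun h => huw (finj h)) ?_ ?_ ?_ ?_ ?_ ?_)
      · exact fun h => a1 h.1
      · exact fun h => a1 h.1
      · exact fun h => a4 h.2
      · exact fun h => a3 h.2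
      · exact fun h => a3 h.2
      · exact fun h => a2 h.1
  have hhalf : ∀ u w, (u = x ∨ u = y) → (H.Adj u w ↔ gem.Adj (f u) (f w)) := by
    intro u w huxy
    rcases hcl u with ⟨u1, u2⟩ | ⟨u1, u2⟩ | ⟨u1, u2, u3, u4⟩ | ⟨u1, u2, u3, u4⟩ | ⟨u1, u2, u3, u4⟩
    · rw [u2, u1]
      rcases hcl w with ⟨w1, w2⟩ | ⟨w1, w2⟩ | ⟨w1, w2, w3, w4⟩ | ⟨w1, w2, w3, w4⟩ |
        ⟨w1, w2, w3, w4⟩
      · rw [w2, w1]
        exact iff_of_false (H.loopless.irrefl _) (gem.loopless.irrefl _)
      · rw [w2, w1]
        exact iff_of_false hnxy (fun h => absurd h.2 (by decide))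
      · rw [w4]
        exact iff_of_true w2 ⟨by decide, by decide⟩
      · rw [w4]
        exact iff_of_true w2 ⟨by decide, by decide⟩
      · rw [w4]
        exact iff_of_false w2 (fun h => absurd h.2 (by decide))
    · rw [u2, u1]
      rcases hcl w with ⟨w1, w2⟩ | ⟨w1, w2⟩ | ⟨w1, w2, w3, w4⟩ | ⟨w1, w2, w3, w4⟩ |
        ⟨w1, w2, w3, w4⟩
      · rw [w2, w1]
        exact iff_of_false (fun h => hnxy h.symm) (fun h => absurd h.2 (by decide))
      · rw [w2, w1]
        exact iff_of_false (H.loopless.irrefl _) (gem.loopless.irrefl _)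
      · rw [w4]
        exact iff_of_true w3 ⟨by decide, by decide⟩
      · rw [w4]
        exact iff_of_false w3 (fun h => absurd h.2 (by decide))
      · rw [w4]
        exact iff_of_true w3 ⟨by decide, by decide⟩
    · exfalso
      rcases huxy with h | h
      · exact hxK (h ▸ u1)
      · exact hyK (h ▸ u1)
    · exfalso
      rcases huxy with h | h
      · exact hxK (h ▸ u1)
      · exact hyK (h ▸ u1)
    · exfalso
      rcases huxy with h | h
      · exact hxK (h ▸ u1)
      · exact hyK (h ▸ u1)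
  have hfK : ∀ w ∈ K, f w ≠ 0 ∧ f w ≠ 3 := by
    intro w hw
    rcases hcl w with ⟨w1, w2⟩ | ⟨w1, w2⟩ | ⟨w1, w2, w3, w4⟩ | ⟨w1, w2, w3, w4⟩ |
      ⟨w1, w2, w3, w4⟩
    · exact absurd (w1 ▸ hw) hxK
    · exact absurd (w1 ▸ hw) hyK
    · rw [w4]
      decide
    · rw [w4]
      decide
    · rw [w4]
      decide
  refine ⟨f, finj, ?_⟩
  intro u w
  by_cases hu : u ∈ K
  · by_cases hw : w ∈ K
    · exact hKK u hu w hw (hfK u hu).1 (hfK u hu).2 (hfK w hw).1 (hfK w hw).2
    · rw [H.adj_comm, gem.adj_comm]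
      exact hhalf w u ((hKc w).mp hw)
  · exact hhalf u w ((hKc u).mp hu)

/-- two vertices outside the clique -/
theorem pair {W : Type} [Finite W] {H : SimpleGraph W} {K : Set W} {x y : W}
    (hK : ∀ u ∈ K, ∀ w ∈ K, u ≠ w → H.Adj u w) (hKc : ∀ w, w ∉ K ↔ w = x ∨ w = y) (hxy : x ≠ y)
    (hnxy : ¬ H.Adj x y) (hx2 : (H.neighborSet x).encard ≤ 2)
    (hy2 : (H.neighborSet y).encard ≤ 2) (hor : ∀ k ∈ K, H.Adj x k ∨ H.Adj y k) :
    Kn H ∨ Row2 H ∨ Alt4 H := by
  have hxK : x ∉ K := (hKc x).mpr (Or.inl rfl)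
  have hyK : y ∉ K := (hKc y).mpr (Or.inr rfl)
  by_cases hZ : ∃ z₁ ∈ K, ∃ z₂ ∈ K, z₁ ≠ z₂ ∧ H.Adj x z₁ ∧ H.Adj y z₁ ∧ H.Adj x z₂ ∧ H.Adj y z₂
  · obtain ⟨z₁, hz₁, z₂, hz₂, hz, a1, a2, a3, a4⟩ := hZ
    left
    left
    have hall : ∀ w ∈ K, w = z₁ ∨ w = z₂ := by
      intro w hw
      by_contra hcon
      rw [not_or] at hcon
      rcases hor w hw with h | h
      · exact three hx2 (p := z₁) (q := z₂) (r := w) a1 a3 h hz (Ne.symm hcon.1)
          (Ne.symm hcon.2)
      · exact three hy2 (p := z₁) (q := z₂) (r := w) a2 a4 h hz (Ne.symm hcon.1)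
          (Ne.symm hcon.2)
    refine sub_of_enum (m := 4) ![x, y, z₁, z₂] ⟨?_, ?_⟩ ![0, 2, 1, 4] (by decide) ?_
    · intro i j h
      have e1 : x ≠ z₁ := fun h => hxK (h ▸ hz₁)
      have e2 : x ≠ z₂ := fun h => hxK (h ▸ hz₂)
      have e3 : y ≠ z₁ := fun h => hyK (h ▸ hz₁)
      have e4 : y ≠ z₂ := fun h => hyK (h ▸ hz₂)
      fin_cases i <;> fin_cases j <;> first
        | rfl
        | exact absurd h hxy
        | exact absurd h e1
        | exact absurd h e2
        | exact absurd h e3
        | exact absurd h e4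
        | exact absurd h hz
        | exact absurd h.symm hxy
        | exact absurd h.symm e1
        | exact absurd h.symm e2
        | exact absurd h.symm e3
        | exact absurd h.symm e4
        | exact absurd h.symm hz
    · intro w
      by_cases hw : w ∈ K
      · rcases hall w hw with h | h
        · exact ⟨2, h.symm⟩
        · exact ⟨3, h.symm⟩
      · rcases (hKc w).mp hw with h | h
        · exact ⟨0, h.symm⟩
        · exact ⟨1, h.symm⟩
    · intro i j
      have k1 := a1.symm
      have k2 := a2.symm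
      have k3 := a3.symm
      have k4 := a4.symm
      have k5 := hK z₁ hz₁ z₂ hz₂ hz
      have k6 := k5.symm
      have n4 : ¬ H.Adj y x := fun h => hnxy h.symm
      fin_cases i <;> fin_cases j <;> first
        | exact iff_of_false (H.loopless.irrefl _) (fun h => h.1 rfl)
        | (refine iff_of_true ?_ ⟨by decide, by decide⟩; assumption)
        | (refine iff_of_false ?_ (fun h => absurd h.2 (by decide)); assumption)
  by_cases hX : ∃ a ∈ K, ∃ b ∈ K, a ≠ b ∧ H.Adj x a ∧ H.Adj x b ∧ ¬ H.Adj y a ∧ ¬ H.Adj y b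
  · obtain ⟨a, ha, b, hb, hab, a1, a2, a3, a4⟩ := hX
    exact Or.inr (two hK hKc hxy hnxy hx2 hor ha hb hab a1 a2 a3 a4)
  by_cases hY : ∃ a ∈ K, ∃ b ∈ K, a ≠ b ∧ H.Adj y a ∧ H.Adj y b ∧ ¬ H.Adj x a ∧ ¬ H.Adj x b
  · obtain ⟨a, ha, b, hb, hab, a1, a2, a3, a4⟩ := hY
    exact Or.inr (two hK (fun w => (hKc w).trans or_comm) hxy.symm (fun h => hnxy h.symm) hy2
      (fun k hk => (hor k hk).symm) ha hb hab a1 a2 a3 a4)
  left
  left
  refine gem_emb hK hKc hxy hnxy hor ?_ ?_ ?_
  · intro u hu w hw h1 h2 h3 h4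
    by_contra h
    exact hX ⟨u, hu, w, hw, h, h1, h3, h2, h4⟩
  · intro u hu w hw h1 h2 h3 h4
    by_contra h
    exact hY ⟨u, hu, w, hw, h, h2, h4, h1, h3⟩
  · intro u hu w hw h1 h2 h3 h4
    by_contra h
    exact hZ ⟨u, hu, w, hw, h, h1, h2, h3, h4⟩

end fBAux

open fBAux in
theorem fB : S_FB := by
  intro W _ H hS hnc hn3
  obtain ⟨K, hK, hI, hN⟩ := hS
  obtain ⟨v, hv⟩ : ∃ v, v ∉ K := by
    by_contra hcon
    push Not at hcon
    exact hnc (fun u w huw => hK u (hcon u) w (hcon w) huw)
  by_cases h1 : ∀ w, w ∉ K → w = v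
  · rcases one hK (fun w => ⟨h1 w, fun h => h ▸ hv⟩) (hN v hv) with h | h | h
    · exact Or.inl h
    · exact Or.inr (Or.inl h)
    · exact Or.inr (Or.inr (Or.inl h))
  · push Not at h1
    obtain ⟨y, hy, hyv⟩ := h1
    have hKc : ∀ w, w ∉ K ↔ w = v ∨ w = y := by
      intro w
      constructor
      · intro hw
        by_contra hcon
        rw [not_or] at hcon
        exact hn3 ⟨v, y, w, hyv.symm, Ne.symm hcon.1, Ne.symm hcon.2, hI v hv y hy, hI v hv w hw,
          hI y hy w hw⟩
      · rintro (h | h)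
        · exact h ▸ hv
        · exact h ▸ hy
    have hor : ∀ k ∈ K, H.Adj v k ∨ H.Adj y k := by
      intro k hk
      by_contra hcon
      rw [not_or] at hcon
      exact hn3 ⟨v, y, k, hyv.symm, fun h => hv (h ▸ hk), fun h => hy (h ▸ hk), hI v hv y hy,
        hcon.1, hcon.2⟩
    rcases pair hK hKc hyv.symm (hI v hv y hy) (hN v hv) (hN y hy) hor with h | h | h
    · exact Or.inl h
    · exact Or.inr (Or.inl h)
    · exact Or.inr (Or.inr (Or.inr h))

end Pool.Agent.MPd439b2
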