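import Pool.Agent.Lib.MP_d439b2_co.B.SpecA
import Pool.Agent.Lib.MP_d439b2_co.ImsTrans
import Pool.Agent.Lib.MP_d439b2_co.S2DD
import Pool.Agent.Lib.MP_d439b2_co.LayCW

/-!
# MP_d439b2_co, A5: Theorem B (positive part) from the layout theorem
-/

set_option autoImplicit false

namespace Pool.Agent.MPd439b2

namespace A5Aux

variable {V W : Type}

/-- an induced subgraph is an induced minor -/
theorem ims_of_emb {G : SimpleGraph V} {H : SimpleGraph W} (f : W → V)
    (hf : Function.Injective f) (h : ∀ u v, u ≠ v → (H.Adj u v ↔ G.Adj (f u) (f v))) :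
    IMS H G Set.univ := by
  refine ⟨fun w => {f w}, fun w => Set.subset_univ _, fun w => Conn.singleton G (f w), ?_, ?_⟩
  · intro w w' hw
    rw [Set.disjoint_singleton]
    exact fun h' => hw (hf h')
  · intro w w' hw
    rw [h w w' hw]
    constructor
    · intro h'
      exact ⟨f w, rfl, f w', rfl, h'⟩
    · rintro ⟨a, ha, b, hb, hab⟩
      rw [Set.mem_singleton_iff] at ha hb
      rw [← ha, ← hb]
      exact hab

theorem dd_mono {N₀ N m : ℕ} (h : N₀ ≤ N) : IMS (DD N₀ m) (DD N m) Set.univ := by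
  refine ims_of_emb (Sum.map (Fin.castLE h) id)
    (Function.Injective.sumMap (Fin.castLE_injective h) Function.injective_id) ?_
  rintro (u | u) (v | v) huv
  · change u ≠ v ↔ Fin.castLE h u ≠ Fin.castLE h v
    rw [Ne, Ne, (Fin.castLE_injective h).eq_iff]
  · exact Iff.rfl
  · exact Iff.rfl
  · exact Iff.rfl

theorem grid_mono {n n' : ℕ} (h : n ≤ n') : IMS (grid n) (grid n') Set.univ := by
  refine ims_of_emb (Prod.map (Fin.castLE h) (Fin.castLE h))
    (Function.Injective.prodMap (Fin.castLE_injective h) (Fin.castLE_injective h)) ?_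
  rintro ⟨a, b⟩ ⟨c, d⟩ _
  simp only [grid, Prod.map, (Fin.castLE_injective h).eq_iff, Fin.val_castLE]

theorem kp4 [Finite W] {H : SimpleGraph W} (h : IsKP4 H) : ∃ s, IMS H (KP s) Set.univ := by
  classical
  obtain ⟨g, hg1, hg2⟩ := h
  haveI : Fintype W := Fintype.ofFinite W
  let e := Fintype.equivFin {w // g w = none}
  let f : W → Fin (Fintype.card {w // g w = none}) ⊕ Fin 4 := fun w =>
    match hw : g w with
    | none => Sum.inl (e ⟨w, hw⟩)
    | some i => Sum.inr i
  have fn : ∀ w (hw : g w = none), f w = Sum.inl (e ⟨w, hw⟩) := by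
    intro w hw
    simp only [f]
    split
    · rfl
    · rename_i i hi
      rw [hw] at hi
      exact absurd hi (by simp)
  have fs : ∀ w i, g w = some i → f w = Sum.inr i := by
    intro w i hw
    simp only [f]
    split
    · rename_i hi
      rw [hw] at hi
      exact absurd hi (by simp)
    · rename_i j hj
      rw [hw] at hj
      rw [Option.some.inj hj]
  refine ⟨Fintype.card {w // g w = none}, ims_of_emb f ?_ ?_⟩
  · intro u v huv
    rcases hu : g u with _ | i <;> rcases hv : g v with _ | j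
    · rw [fn u hu, fn v hv] at huv
      have := e.injective (Sum.inl.inj huv)
      exact congrArg Subtype.val this
    · rw [fn u hu, fs v j hv] at huv
      exact absurd huv (by simp)
    · rw [fs u i hu, fn v hv] at huv
      exact absurd huv (by simp)
    · rw [fs u i hu, fs v j hv] at huv
      have := Sum.inr.inj huv
      subst this
      exact hg1 u v i hu hv
  · intro u v huv
    rw [hg2 u v huv]
    rcases hu : g u with _ | i <;> rcases hv : g v with _ | j
    · rw [fn u hu, fn v hv]
      refine iff_of_true (by simp) ?_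
      change e ⟨u, hu⟩ ≠ e ⟨v, hv⟩
      intro h'
      exact huv (congrArg Subtype.val (e.injective h'))
    · rw [fn u hu, fs v j hv]
      exact iff_of_true (by simp) trivial
    · rw [fs u i hu, fn v hv]
      exact iff_of_true (by simp) trivial
    · rw [fs u i hu, fs v j hv]
      change _ ↔ (i.val = j.val + 1 ∨ j.val = i.val + 1)
      constructor
      · intro h'
        exact h' i j rfl rfl
      · intro h' i' j' hi hj
        rw [← Option.some.inj hi, ← Option.some.inj hj]
        exact h'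

end A5Aux

open A5Aux in
/-- **A5.** -/
theorem a5 : S_A5 := by
  intro hLay W W' _ _ H H' hS hK hgrid
  obtain ⟨N₀, m, hm, hHD⟩ := s2DD W H hS
  have hHD' : IMS H (DD (N₀ + 2) m) Set.univ :=
    imsTrans _ _ _ _ _ _ _ hHD (dd_mono (Nat.le_add_right N₀ 2))
  obtain ⟨s, hHK⟩ := kp4 hK
  obtain ⟨n, hn⟩ : ∃ n, IMS H (grid (n + 2)) Set.univ ∨ IMS H' (grid (n + 2)) Set.univ := by
    rcases hgrid with ⟨n, hn⟩ | ⟨n, hn⟩
    · exact ⟨n, Or.inl (imsTrans _ _ _ _ _ _ _ (ims_univ_iff.mpr hn)
        (grid_mono (Nat.le_add_right n 2)))⟩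
    · exact ⟨n, Or.inr (imsTrans _ _ _ _ _ _ _ (ims_univ_iff.mpr hn)
        (grid_mono (Nat.le_add_right n 2)))⟩
  obtain ⟨k, hk⟩ := hLay s (N₀ + 2) m (n + 2) (by omega) (by omega) (by omega)
  refine ⟨3 * (k + 1), ?_⟩
  intro V _ _ G h1 h2
  rw [← ims_univ_iff] at h1 h2
  apply layCW V G k
  apply hk V G
  · refine ⟨fun h => h2 (imsTrans _ _ _ _ _ _ _ hHK h), fun h => h1 ?_⟩
    exact imsTrans _ _ _ _ _ _ _ hHD' h
  · intro h
    rcases hn with hn | hn
    · exact h1 (imsTrans _ _ _ _ _ _ _ hn h)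
    · exact h2 (imsTrans _ _ _ _ _ _ _ hn h)

end Pool.Agent.MPd439b2
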