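import Pool.Agent.Lib.MP_d439b2_co.B.SpecF
import Pool.Agent.Lib.MP_d439b2_co.B.A5
import Pool.Agent.Lib.MP_d439b2_co.ImsTrans

/-!
# MP_d439b2_co, FD: monotonicity of the boundedness of clique-width
-/

set_option autoImplicit false

namespace Pool.Agent.MPd439b2

namespace FDAux

open A5Aux

theorem indMinor_of_indSub {W W' : Type} {H : SimpleGraph W} {H' : SimpleGraph W'}
    (h : IsIndSub H H') : IsIndMinor H H' := by
  obtain ⟨f, hf, hadj⟩ := h
  exact ims_univ_iff.mp (ims_of_emb f hf (fun u v _ => hadj u v))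

theorem indMinor_trans {W W' W'' : Type} {H : SimpleGraph W} {H' : SimpleGraph W'}
    {H'' : SimpleGraph W''} (h : IsIndMinor H H') (h' : IsIndMinor H' H'') :
    IsIndMinor H H'' :=
  ims_univ_iff.mp (imsTrans _ _ _ _ _ _ _ (ims_univ_iff.mpr h) (ims_univ_iff.mpr h'))

end FDAux

theorem fD : S_FD := by
  refine ⟨fun W W' H H' h => FDAux.indMinor_of_indSub h, ?_⟩
  intro W₁ W₂ W₃ W₄ H₁ H₂ H₁' H₂' h1 h2 hb
  obtain ⟨c, hc⟩ := hb
  refine ⟨c, ?_⟩
  intro V _ _ G hG1 hG2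
  exact hc V G (fun h => hG1 (FDAux.indMinor_trans h1 h)) (fun h => hG2 (FDAux.indMinor_trans h2 h))

end Pool.Agent.MPd439b2
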