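import Pool.Agent.Lib.MP_d439b2_co.B.SpecA
import Pool.Agent.Lib.MP_d439b2_co.B.A5
import Pool.Agent.Lib.MP_d439b2_co.Defs6
import Pool.Agent.Lib.MP_d439b2_co.Goal3A

/-!
# MP_d439b2_co, Theorem B: the classification outside the exceptional graphs
-/

set_option autoImplicit false

namespace Pool.Agent.MPd439b2

namespace Fin2Aux

open Goal3Aux A5Aux

/-- one of the two graphs belongs to each of the six classes -/
theorem six (h1 : S_S2Closed) (h2 : S_SGUnb) (h3 : S_CoSClosed) (h4 : S_CoTClosed)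
    (h5 : S_WTUnb) (h6 : S_GridUnb) (h7 : S_QSClosed) (h8 : S_QSUnb) (h9 : S_A3Fam)
    (h10 : S_A3Closed) (W₁ W₂ : Type) [Finite W₁] [Finite W₂] (H₁ : SimpleGraph W₁)
    (H₂ : SimpleGraph W₂) (hbd : BoundedCW H₁ H₂) :
    (InS2 H₁ ∨ InS2 H₂) ∧ (InCoS H₁ ∨ InCoS H₂) ∧ (InCoT H₁ ∨ InCoT H₂) ∧
      (InGrid H₁ ∨ InGrid H₂) ∧ (InQS H₁ ∨ InQS H₂) ∧ (InA3 H₁ ∨ InA3 H₂) := by
  obtain ⟨c, hb⟩ := hbd
  have P := fun (V : Type) (_ : Finite V) (_ : Nonempty V) (G : SimpleGraph V)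
    (h : ¬ CWLe c G) => principle hb V G h
  have hS2 : InS2 H₁ ∨ InS2 H₂ := by
    have hne : Nonempty (Fin (3 * c + 2) ⊕ (Fin (3 * c + 2) × Fin (3 * c + 2))) :=
      ⟨Sum.inl ⟨0, by omega⟩⟩
    rcases P _ inferInstance hne (SG (3 * c + 2)) (h2.2 c (3 * c + 2) (by omega) (by omega))
      with h | h
    · exact Or.inl (h1.1 _ _ _ _ (h2.1 _) h)
    · exact Or.inr (h1.1 _ _ _ _ (h2.1 _) h)
  set g : ℕ := 3 * Nat.card W₁ + 3 * Nat.card W₂ + 6 with hg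
  have hCoS : InCoS H₁ ∨ InCoS H₂ := by
    obtain ⟨n, hn, hcw⟩ := h5 g 0 c (by omega) (by omega)
    rcases P _ inferInstance (wtv_nonempty hn) _ hcw with h | h
    · exact Or.inl (h3 W₁ H₁ n g (by omega) h)
    · exact Or.inr (h3 W₂ H₂ n g (by omega) h)
  have hCoT : InCoT H₁ ∨ InCoT H₂ := by
    obtain ⟨n, hn, hcw⟩ := h5 g 1 c (by omega) (by omega)
    rcases P _ inferInstance (wtv_nonempty hn) _ hcw with h | h
    · exact Or.inl (h4 W₁ H₁ n g (by omega) h)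
    · exact Or.inr (h4 W₂ H₂ n g (by omega) h)
  have hGrid : InGrid H₁ ∨ InGrid H₂ := by
    obtain ⟨n, hn, hcw⟩ := h6 c
    have hne : Nonempty (Fin n × Fin n) := ⟨(⟨0, hn⟩, ⟨0, hn⟩)⟩
    rcases P _ inferInstance hne _ hcw with h | h
    · exact Or.inl ⟨n, h⟩
    · exact Or.inr ⟨n, h⟩
  have hQS : InQS H₁ ∨ InQS H₂ := by
    have he : Even (2 * (Nat.card W₁ + Nat.card W₂ + 1)) := even_two_mul _
    obtain ⟨n, hn, hcw⟩ := h8 (2 * (Nat.card W₁ + Nat.card W₂ + 1)) c (by omega) he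
    rcases P _ inferInstance (wtv_nonempty hn) _ hcw with h | h
    · exact Or.inl (h7 W₁ H₁ n _ he (by omega) h)
    · exact Or.inr (h7 W₂ H₂ n _ he (by omega) h)
  have hA3 : InA3 H₁ ∨ InA3 H₂ := by
    obtain ⟨n, hn, hcw⟩ := h9.2 c
    have hne : Nonempty ((Fin n × Fin n) ⊕ (Fin n ⊕ Fin n)) := ⟨Sum.inl (⟨0, hn⟩, ⟨0, hn⟩)⟩
    rcases P _ inferInstance hne _ hcw with h | h
    · exact Or.inl (h10 _ _ _ _ (h9.1 n) h)
    · exact Or.inr (h10 _ _ _ _ (h9.1 n) h)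
  exact ⟨hS2, hCoS, hCoT, hGrid, hQS, hA3⟩

/-- a member of `S2` is complete or exceptional, or its partner is a join as in `IsKP4` -/
theorem red2 {W W' : Type} (h12 : S_C4) (h13 : S_KP4)
    (H : SimpleGraph W) (H' : SimpleGraph W') (hS : InS2 H) (hCoS : InCoS H ∨ InCoS H')
    (hCoT : InCoT H ∨ InCoT H') (hQS : InQS H ∨ InQS H') (hA : InA3 H ∨ InA3 H')
    (hE : Exc H → IsKP4 H') : C1 H H' := by
  refine ⟨hS, ?_⟩
  by_cases h0 : IsComplete H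
  · exact Or.inl h0
  refine Or.inr ?_
  by_cases h1 : InCoS H
  · exact hE ⟨hS, h0, Or.inl h1⟩
  by_cases h2 : InCoT H
  · exact hE ⟨hS, h0, Or.inr (Or.inl h2)⟩
  have h1' : InCoS H' := hCoS.resolve_left h1
  have h2' : InCoT H' := hCoT.resolve_left h2
  by_cases h3 : ∃ a b c d : W', a ≠ c ∧ b ≠ d ∧ H'.Adj a b ∧ H'.Adj b c ∧ H'.Adj c d ∧
      H'.Adj d a ∧ ¬ H'.Adj a c ∧ ¬ H'.Adj b d
  · obtain ⟨a, b, c, d, hac, hbd, e1, e2, e3, e4, e5, e6⟩ := h3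
    obtain ⟨q, a3⟩ := h12 W' H' a b c d hac hbd e1 e2 e3 e4 e5 e6
    exact hE ⟨hS, h0, Or.inr (Or.inr ⟨hQS.resolve_right q, hA.resolve_right a3⟩)⟩
  · exact h13 W' H' h1' h2' h3

theorem necessary (h1 : S_S2Closed) (h2 : S_SGUnb) (h3 : S_CoSClosed) (h4 : S_CoTClosed)
    (h5 : S_WTUnb) (h6 : S_GridUnb) (h7 : S_QSClosed) (h8 : S_QSUnb) (h9 : S_A3Fam)
    (h10 : S_A3Closed) (h12 : S_C4) (h13 : S_KP4) (W₁ W₂ : Type) [Finite W₁] [Finite W₂]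
    (H₁ : SimpleGraph W₁) (H₂ : SimpleGraph W₂) (hE₁ : Exc H₁ → IsKP4 H₂)
    (hE₂ : Exc H₂ → IsKP4 H₁) (hbd : BoundedCW H₁ H₂) : Cond H₁ H₂ := by
  obtain ⟨hS2, hCoS, hCoT, hGrid, hQS, hA3⟩ :=
    six h1 h2 h3 h4 h5 h6 h7 h8 h9 h10 W₁ W₂ H₁ H₂ hbd
  refine ⟨hGrid, ?_⟩
  rcases hS2 with h | h
  · exact Or.inl (red2 h12 h13 H₁ H₂ h hCoS hCoT hQS hA3 hE₁)
  · exact Or.inr (red2 h12 h13 H₂ H₁ h hCoS.symm hCoT.symm hQS.symm hA3.symm hE₂)

theorem complete_in {W : Type} [Finite W] {H : SimpleGraph W} (hc : IsComplete H) :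
    ∃ n, IMS H (KP n) Set.univ ∧ IMS H (DD (n + 2) 0) Set.univ := by
  classical
  haveI : Fintype W := Fintype.ofFinite W
  let e := Fintype.equivFin W
  refine ⟨Fintype.card W, ?_, ?_⟩
  · refine ims_of_emb (fun w => Sum.inl (e w)) (fun u v h => e.injective (Sum.inl.inj h)) ?_
    intro u v huv
    refine iff_of_true (hc u v huv) ?_
    change e u ≠ e v
    exact fun h => huv (e.injective h)
  · refine ims_of_emb (fun w => Sum.inl (Fin.castLE (Nat.le_add_right _ 2) (e w)))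
      (fun u v h => e.injective (Fin.castLE_injective _ (Sum.inl.inj h))) ?_
    intro u v huv
    refine iff_of_true (hc u v huv) ?_
    change Fin.castLE _ (e u) ≠ Fin.castLE _ (e v)
    exact fun h => huv (e.injective (Fin.castLE_injective _ h))

theorem complete_case (hLay : S_LayB) (W W' : Type) [Finite W] [Finite W'] (H : SimpleGraph W)
    (H' : SimpleGraph W') (hc : IsComplete H) (hgrid : InGrid H ∨ InGrid H') :
    BoundedCW H H' := by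
  obtain ⟨s, hK, hD⟩ := complete_in hc
  obtain ⟨n, hn⟩ : ∃ n, IMS H (grid (n + 2)) Set.univ ∨ IMS H' (grid (n + 2)) Set.univ := by
    rcases hgrid with ⟨n, hn⟩ | ⟨n, hn⟩
    · exact ⟨n, Or.inl (imsTrans _ _ _ _ _ _ _ (ims_univ_iff.mpr hn)
        (grid_mono (Nat.le_add_right n 2)))⟩
    · exact ⟨n, Or.inr (imsTrans _ _ _ _ _ _ _ (ims_univ_iff.mpr hn)
        (grid_mono (Nat.le_add_right n 2)))⟩
  obtain ⟨k, hk⟩ := hLay s (s + 2) 0 (n + 2) (by omega) (by omega) (by omega)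
  refine ⟨3 * (k + 1), ?_⟩
  intro V _ _ G h1 h2
  rw [← ims_univ_iff] at h1 h2
  apply layCW V G k
  apply hk V G
  · exact ⟨fun h => h1 (imsTrans _ _ _ _ _ _ _ hK h), fun h => h1 (imsTrans _ _ _ _ _ _ _ hD h)⟩
  · intro h
    rcases hn with hn | hn
    · exact h1 (imsTrans _ _ _ _ _ _ _ hn h)
    · exact h2 (imsTrans _ _ _ _ _ _ _ hn h)

theorem boundedCW_symm {W₁ W₂ : Type} {H₁ : SimpleGraph W₁} {H₂ : SimpleGraph W₂}
    (h : BoundedCW H₁ H₂) : BoundedCW H₂ H₁ := by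
  obtain ⟨c, hc⟩ := h
  exact ⟨c, fun V _ _ G h1 h2 => hc V G h2 h1⟩

theorem suff1 (hLay : S_LayB) (W W' : Type) [Finite W] [Finite W'] (H : SimpleGraph W)
    (H' : SimpleGraph W') (hC : C1 H H') (hgrid : InGrid H ∨ InGrid H') : BoundedCW H H' := by
  rcases hC.2 with h | h
  · exact complete_case hLay W W' H H' h hgrid
  · exact a5 hLay W W' H H' hC.1 h hgrid

theorem sufficient (hLay : S_LayB) (W₁ W₂ : Type) [Finite W₁] [Finite W₂] (H₁ : SimpleGraph W₁)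
    (H₂ : SimpleGraph W₂) (h : Cond H₁ H₂) : BoundedCW H₁ H₂ := by
  rcases h.2 with h' | h'
  · exact suff1 hLay W₁ W₂ H₁ H₂ h' h.1
  · exact boundedCW_symm (suff1 hLay W₂ W₁ H₂ H₁ h' h.1.symm)

end Fin2Aux

end Pool.Agent.MPd439b2
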