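import Pool.Agent.Lib.MP_d439b2_co.B.SpecF
import Pool.Agent.Lib.MP_d439b2_co.B.Fin2

/-!
# MP_d439b2_co, FE: assembly of the sufficient condition
-/

set_option autoImplicit false

namespace Pool.Agent.MPd439b2

namespace fEAux

theorem sub_of_iso {W W' : Type} {H : SimpleGraph W} {H' : SimpleGraph W'} (e : H ≃g H') :
    IsIndSub H H' :=
  ⟨e, e.injective, fun _ _ => e.map_adj_iff.symm⟩

theorem sub_refl {W : Type} (H : SimpleGraph W) : IsIndSub H H :=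
  ⟨id, Function.injective_id, fun _ _ => Iff.rfl⟩

theorem grid_trans {W W' : Type} {H : SimpleGraph W} {H' : SimpleGraph W'}
    (h : IsIndMinor H H') (hg : InGrid H') : InGrid H := by
  obtain ⟨n, hn⟩ := hg
  exact ⟨n, ims_univ_iff.mp (imsTrans _ _ _ _ _ _ _ (ims_univ_iff.mpr h) (ims_univ_iff.mpr hn))⟩

theorem suf (hC : S_FC) (hD : S_FD) (hR : S_Rows) (hLay : S_LayB) (W W' : Type) [Finite W]
    [Finite W'] (H : SimpleGraph W) (H' : SimpleGraph W') (h : Suf H H')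
    (hg : InGrid H ∨ InGrid H') : BoundedCW H H' := by
  obtain ⟨hS, h | h | ⟨hrow, hT⟩ | ⟨hT, hG, s, hs⟩⟩ := h
  · exact Fin2Aux.suff1 hLay W W' H H' ⟨hS, Or.inl h⟩ hg
  · exact Fin2Aux.suff1 hLay W W' H H' ⟨hS, Or.inr h⟩ hg
  · have hrefl := hD.1 W' W' H' H' (sub_refl H')
    rcases hrow with ⟨h1, h2⟩ | ⟨⟨e⟩⟩
    · rcases hC W H h1 h2 with h3 | ⟨⟨e⟩⟩
      · exact hD.2 W W' (Fin 5) W' H H' K4P H' (hD.1 _ _ _ _ h3) hrefl (hR.1 W' H' hT)
      · have h4 := hD.1 _ _ _ _ (sub_of_iso e)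
        have h5 := hD.1 _ _ _ _ (sub_of_iso e.symm)
        refine hD.2 W W' (Fin 6) W' H H' K5P H' h4 hrefl (hR.2.1 W' H' hT ?_)
        exact hg.imp (fun h => grid_trans h5 h) id
    · exact hD.2 W W' (Fin 5) W' H H' Kite H' (hD.1 _ _ _ _ (sub_of_iso e)) hrefl
        (hR.2.2.1 W' H' hT)
  · exact hD.2 W W' W _ H H' H (KC s) (hD.1 W W H H (sub_refl H)) (hD.1 _ _ _ _ hs)
      (hR.2.2.2 s W H hS hG hT)

end fEAux

open fEAux in
theorem fE : S_FE := by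
  intro hC hD hR hLay W₁ W₂ _ _ H₁ H₂ h
  rcases h.2 with h' | h'
  · exact suf hC hD hR hLay W₁ W₂ H₁ H₂ h' h.1
  · exact Fin2Aux.boundedCW_symm (suf hC hD hR hLay W₂ W₁ H₂ H₁ h' h.1.symm)

end Pool.Agent.MPd439b2
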