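import Pool.Agent.Lib.MP_d439b2_co.B.SpecF
import Pool.Agent.Lib.MP_d439b2_co.Goal3A

/-!
# MP_d439b2_co, FG: the classes `InCQ` and `InMC` as necessary conditions
-/

set_option autoImplicit false

namespace Pool.Agent.MPd439b2

theorem fG : S_FG := by
  intro hcl hcq hmc h6 W₁ W₂ _ _ H₁ H₂ hbd
  obtain ⟨a1, a2, a3, a4, a5, a6⟩ := h6 W₁ W₂ H₁ H₂ hbd
  obtain ⟨c, hb⟩ := hbd
  refine ⟨a1, a2, a3, a4, a5, a6, ?_, ?_⟩
  · have hne : Nonempty (Fin (3 * c + 2) ⊕ (Fin (3 * c + 2) × Fin (3 * c + 2))) :=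
      ⟨Sum.inl ⟨0, by omega⟩⟩
    rcases Goal3Aux.principle hb _ (CQG (3 * c + 2))
      (hcq.2 c (3 * c + 2) (by omega) (by omega)) with h | h
    · exact Or.inl ((hcl _ _ _ _ h).1 (hcq.1 _))
    · exact Or.inr ((hcl _ _ _ _ h).1 (hcq.1 _))
  · obtain ⟨n, hn, hcw⟩ := hmc.2 c
    have hne : Nonempty (Fin n ⊕ (Fin n × Fin n)) := ⟨Sum.inl ⟨0, hn⟩⟩
    rcases Goal3Aux.principle hb _ (MCG n) hcw with h | h
    · exact Or.inl ((hcl _ _ _ _ h).2 (hmc.1 _))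
    · exact Or.inr ((hcl _ _ _ _ h).2 (hmc.1 _))

end Pool.Agent.MPd439b2
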