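import Pool.Agent.Lib.MP_d439b2_co.B.SpecF
import Pool.Agent.Lib.MP_d439b2_co.B.Fin2

/-!
# MP_d439b2_co, FH: assembly of the necessary condition
-/

set_option autoImplicit false

namespace Pool.Agent.MPd439b2

namespace fHAux

/-- the class `InCoT` is closed under induced subgraphs -/
theorem coT_sub {W W' : Type} {H : SimpleGraph W} {H' : SimpleGraph W'} (h : IsIndSub H H')
    (hT : InCoT H') : InCoT H := by
  obtain ⟨g, hg, hga⟩ := h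
  obtain ⟨ι, f, hf, h1, h2⟩ := hT
  have hcomp : ∀ u v, Hᶜ.Adj u v ↔ H'ᶜ.Adj (g u) (g v) := by
    intro u v
    rw [SimpleGraph.compl_adj, SimpleGraph.compl_adj, hga u v, hg.ne_iff]
  refine ⟨ι, fun w => f (g w), hf.comp hg, fun u v huv => h1 _ _ ((hcomp u v).mp huv), ?_⟩
  intro u v huv e1 e2 e3
  exact (hcomp u v).mpr (h2 (g u) (g v) (fun h => huv (hg h)) e1 e2 e3)

theorem main1 (hA : S_FA) (hB : S_FB) (hD : S_FD) (hK : S_Kill) (hC4 : S_C4) (hKP : S_KP4)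
    (hE : S_EExcl) (h7 : S_K7) (h18 : S_X18) (W W' : Type) [Finite W] [Finite W']
    (H : SimpleGraph W) (H' : SimpleGraph W') (hb : BoundedCW H H') (hS : InS2 H)
    (hCoS : InCoS H ∨ InCoS H') (hCoT : InCoT H ∨ InCoT H') (hQS : InQS H ∨ InQS H')
    (hA3 : InA3 H ∨ InA3 H') (hCQ : InCQ H ∨ InCQ H') (hMC : InMC H ∨ InMC H') :
    Suf H H' ∨ Kn H ∨ Rem H H' := by
  by_cases h0 : IsComplete H
  · exact Or.inl ⟨hS, Or.inl h0⟩
  by_cases h3 : Ind3 H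
  · have hnS : ¬ InCoS H := hA.1 W H h3
    have hS' : InCoS H' := hCoS.resolve_left hnS
    have hk1 : ¬ IsIndSub co2P3 H' := fun h => hK W W' H H' h3 (Or.inl (hD.1 _ _ _ _ h)) hb
    have hk2 : ¬ IsIndSub co6P2 H' := fun h => hK W W' H H' h3 (Or.inr (hD.1 _ _ _ _ h)) hb
    by_cases h4 : InCoT H ∨ (InQS H ∧ InA3 H)
    · exact Or.inr (Or.inr ⟨hS, h3, h4, hS', hk1, hk2⟩)
    · rw [not_or] at h4
      have hT' : InCoT H' := hCoT.resolve_left h4.1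
      refine Or.inl ⟨hS, Or.inr (Or.inl (hKP W' H' hS' hT' ?_))⟩
      rintro ⟨a, b, c, d, hac, hbd, e1, e2, e3, e4, e5, e6⟩
      obtain ⟨q, a3⟩ := hC4 W' H' a b c d hac hbd e1 e2 e3 e4 e5 e6
      exact h4.2 ⟨hQS.resolve_right q, hA3.resolve_right a3⟩
  · rcases hB W H hS h0 h3 with h | h | h | h
    · exact Or.inr (Or.inl h)
    · have hnT : ¬ InCoT H := by
        intro hT
        rcases h with ⟨h1, h2⟩ | ⟨⟨e⟩⟩
        · exact h7.1 (coT_sub h1 hT)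
        · exact h18 (coT_sub ⟨e.symm, e.symm.injective, fun _ _ => e.symm.map_adj_iff.symm⟩ hT)
      exact Or.inl ⟨hS, Or.inr (Or.inr (Or.inl ⟨h, hCoT.resolve_left hnT⟩))⟩
    · obtain ⟨a, b, c, d, v, e1, e2, e3, e4, e5, e6, n1, n2, n3, n4, m1, m2, m3, m4⟩ := h
      obtain ⟨hnS, hnT⟩ := hA.2.1 W H a b c d v e1 e2 e3 e4 e5 e6 n1 n2 n3 n4 m1 m2 m3 m4
      have hnQ := hE.1 W H a b c d v e1 e2 e3 e4 e5 e6 n1 n2 n3 n4 m1 m2 m3 m4
      refine Or.inl ⟨hS, Or.inr (Or.inl (hKP W' H' (hCoS.resolve_left hnS)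
        (hCoT.resolve_left hnT) ?_))⟩
      rintro ⟨a, b, c, d, hac, hbd, e1, e2, e3, e4, e5, e6⟩
      exact (hE.2.2.2 W' H' a b c d hac hbd e1 e2 e3 e4 e5 e6).1 (hCQ.resolve_left hnQ)
    · obtain ⟨a, b, c, d, x, y, e1, e2, e3, e4, e5, e6, x1, x2, x3, x4, y1, y2, y3, y4, n1, n2,
        n3, n4, n5, n6⟩ := h
      obtain ⟨hnS, hnT⟩ := hA.2.2 W H a b c d x y e1 e2 e3 e4 e5 e6 x1 x2 x3 x4 y1 y2 y3 y4 n1
        n2 n3 n4 n5 n6
      have hnM := hE.2.2.1 W H a b c d x y e1 e2 e3 e4 e5 e6 x1 x2 x3 x4 y1 y2 y3 y4 n1 n2 n3 n4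
      refine Or.inl ⟨hS, Or.inr (Or.inl (hKP W' H' (hCoS.resolve_left hnS)
        (hCoT.resolve_left hnT) ?_))⟩
      rintro ⟨a, b, c, d, hac, hbd, e1, e2, e3, e4, e5, e6⟩
      exact (hE.2.2.2 W' H' a b c d hac hbd e1 e2 e3 e4 e5 e6).2 (hMC.resolve_left hnM)

end fHAux

open fHAux in
theorem fH : S_FH := by
  intro hA hB hD hK hN hC4 hKP hE h7 h18 W₁ W₂ _ _ H₁ H₂ hb
  obtain ⟨hS2, hCoS, hCoT, hG, hQS, hA3, hCQ, hMC⟩ := hN W₁ W₂ H₁ H₂ hb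
  refine ⟨hG, ?_⟩
  rcases hS2 with hS | hS
  · rcases main1 hA hB hD hK hC4 hKP hE h7 h18 W₁ W₂ H₁ H₂ hb hS hCoS hCoT hQS hA3 hCQ hMC
      with h | h | h
    · exact Or.inl ⟨hG, Or.inl h⟩
    · exact Or.inr (Or.inl h)
    · exact Or.inr (Or.inr (Or.inr (Or.inl h)))
  · rcases main1 hA hB hD hK hC4 hKP hE h7 h18 W₂ W₁ H₂ H₁ (Fin2Aux.boundedCW_symm hb) hS
      hCoS.symm hCoT.symm hQS.symm hA3.symm hCQ.symm hMC.symm with h | h | h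
    · exact Or.inl ⟨hG, Or.inr h⟩
    · exact Or.inr (Or.inr (Or.inl h))
    · exact Or.inr (Or.inr (Or.inr (Or.inr h)))

end Pool.Agent.MPd439b2
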