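import Pool.Agent.Lib.MP_d439b2_co.Defs8
import Pool.Agent.Lib.MP_d439b2_co.B.FH

/-!
# MP_d439b2_co, FI: assembly of the necessary condition with the precise list of remaining pairs
-/

set_option autoImplicit false

namespace Pool.Agent.MPd439b2

/-- the conclusion of `S_GMain` -/
def S_GC : Prop := ∀ (W W' : Type) (H : SimpleGraph W) (H' : SimpleGraph W'), BoundedCW H H' →
  (IsIndMinor (KA 2 2 ![∅, ∅]) H → ¬ IsIndMinor coP6 H' ∧ ¬ IsIndMinor coP4P2 H') ∧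
  (IsIndMinor (KA 3 3 ![{0}, {1, 2}, {1, 2}]) H → ¬ IsIndMinor cyc4 H') ∧
  (IsIndMinor (KA 5 1 ![{0}]) H → ¬ IsIndMinor cyc4 H') ∧
  (IsIndMinor (KA 3 3 ![{0, 1}, {0, 2}, {1, 2}]) H → ¬ IsIndMinor cyc4 H') ∧
  (IsIndMinor (KA 3 2 ![∅, {0, 1}]) H → ¬ IsIndMinor coP3P2 H' ∧ ¬ IsIndMinor co3P2 H')

namespace fIAux

theorem ka41 (hE : S_EExcl) : ¬ InCQ (KA 4 1 ![∅]) := by
  refine hE.1 _ _ (Sum.inl 0) (Sum.inl 1) (Sum.inl 2) (Sum.inl 3) (Sum.inr 0) ?_ ?_ ?_ ?_ ?_ ?_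
    ?_ ?_ ?_ ?_ ?_ ?_ ?_ ?_ <;> simp [KA]

theorem ka33 (hE : S_EExcl) : ¬ InCQ (KA 3 3 ![∅, {0, 1}, {0, 2}]) := by
  refine hE.2.1 _ _ (Sum.inl 0) (Sum.inl 1) (Sum.inl 2) (Sum.inr 1) (Sum.inr 2) (Sum.inr 0)
    ?_ ?_ ?_ ?_ ?_ ?_ ?_ ?_ ?_ ?_ ?_ ?_ ?_ ?_ ?_ ?_ ?_ ?_ ?_ ?_ ?_ <;> simp [KA]

theorem ka42 (hE : S_EExcl) : ¬ InMC (KA 4 2 ![{0, 1}, {2, 3}]) := by
  refine hE.2.2.1 _ _ (Sum.inl 0) (Sum.inl 1) (Sum.inl 2) (Sum.inl 3) (Sum.inr 0) (Sum.inr 1)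
    ?_ ?_ ?_ ?_ ?_ ?_ ?_ ?_ ?_ ?_ ?_ ?_ ?_ ?_ ?_ ?_ ?_ ?_ <;> simp [KA]

theorem cyc4_pat {W : Type} {H : SimpleGraph W} (h : IsIndSub cyc4 H) : ∃ a b c d : W, a ≠ c ∧
    b ≠ d ∧ H.Adj a b ∧ H.Adj b c ∧ H.Adj c d ∧ H.Adj d a ∧ ¬ H.Adj a c ∧ ¬ H.Adj b d := by
  obtain ⟨f, hf, ha⟩ := h
  refine ⟨f 0, f 1, f 2, f 3, fun h => ?_, fun h => ?_, (ha 0 1).mp ?_, (ha 1 2).mp ?_,
    (ha 2 3).mp ?_, (ha 3 0).mp ?_, fun h => ?_, fun h => ?_⟩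
  · exact absurd (hf h) (by decide)
  · exact absurd (hf h) (by decide)
  · simp [cyc4]
  · simp [cyc4]
  · simp [cyc4]
  · simp [cyc4]
  · have := (ha 0 2).mpr h
    simp [cyc4] at this
  · have := (ha 1 3).mpr h
    simp [cyc4] at this

theorem pat_cyc4 {W : Type} {H : SimpleGraph W} {a b c d : W} (hac : a ≠ c) (hbd : b ≠ d)
    (e1 : H.Adj a b) (e2 : H.Adj b c) (e3 : H.Adj c d) (e4 : H.Adj d a) (e5 : ¬ H.Adj a c)
    (e6 : ¬ H.Adj b d) : IsIndSub cyc4 H := by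
  have n1 := e1.ne
  have n2 := e2.ne
  have n3 := e3.ne
  have n4 := e4.ne
  have e7 : ¬ H.Adj c a := fun h => e5 h.symm
  have e8 : ¬ H.Adj d b := fun h => e6 h.symm
  refine ⟨![a, b, c, d], ?_, ?_⟩
  · intro i j h
    fin_cases i <;> fin_cases j <;> simp_all
  · intro i j
    fin_cases i <;> fin_cases j <;> simp [cyc4, e1, e2, e3, e4, e5, e6, e7, e8, e1.symm,
      e2.symm, e3.symm, e4.symm]

theorem main2 (hA : S_FA) (hB : S_FB) (hD : S_FD) (hK : S_Kill) (hC4 : S_C4) (hKP : S_KP4)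
    (hE : S_EExcl) (hEC : S_EClosed) (hG : S_GC) (h7 : S_K7) (h18 : S_X18) (W W' : Type)
    [Finite W] [Finite W']
    (H : SimpleGraph W) (H' : SimpleGraph W') (hb : BoundedCW H H') (hS : InS2 H)
    (hCoS : InCoS H ∨ InCoS H') (hCoT : InCoT H ∨ InCoT H') (hQS : InQS H ∨ InQS H')
    (hA3 : InA3 H ∨ InA3 H') (hCQ : InCQ H ∨ InCQ H') (hMC : InMC H ∨ InMC H') :
    Suf H H' ∨ Kn H ∨ Left H H' := by
  by_cases h3 : Ind3 H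
  · by_cases h4 : IsKP4 H'
    · exact Or.inl ⟨hS, Or.inr (Or.inl h4)⟩
    have hnS : ¬ InCoS H := hA.1 W H h3
    have hS' : InCoS H' := hCoS.resolve_left hnS
    obtain ⟨g1, g2, g3, g4, g5⟩ := hG W W' H H' hb
    refine Or.inr (Or.inr ⟨hS, h3, h4, hS', hCoT, fun h => hK W W' H H' h3 (Or.inl h) hb,
      fun h => hK W W' H H' h3 (Or.inr h) hb, ?_, g1, g5⟩)
    by_cases hc : IsIndSub cyc4 H'
    · refine Or.inr ?_
      obtain ⟨a, b, c, d, hac, hbd, e1, e2, e3, e4, e5, e6⟩ := cyc4_pat hc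
      obtain ⟨q, a3⟩ := hC4 W' H' a b c d hac hbd e1 e2 e3 e4 e5 e6
      obtain ⟨m1, m2⟩ := hE.2.2.2 W' H' a b c d hac hbd e1 e2 e3 e4 e5 e6
      have hc' := hD.1 _ _ _ _ hc
      refine ⟨hQS.resolve_right q, hA3.resolve_right a3, ?_⟩
      rintro (h | h | h | h | h | h)
      · exact ka41 hE ((hEC _ _ _ _ h).1 (hCQ.resolve_right m1))
      · exact g3 h hc'
      · exact ka42 hE ((hEC _ _ _ _ h).2 (hMC.resolve_right m2))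
      · exact ka33 hE ((hEC _ _ _ _ h).1 (hCQ.resolve_right m1))
      · exact g2 h hc'
      · exact g4 h hc'
    · exact Or.inl hc
  · rcases fHAux.main1 hA hB hD hK hC4 hKP hE h7 h18 W W' H H' hb hS hCoS hCoT hQS hA3 hCQ hMC
      with h | h | h
    · exact Or.inl h
    · exact Or.inr (Or.inl h)
    · exact absurd h.2.1 h3

theorem small (hN : S_FN) (hD : S_FD) (h8 : S_Size8) (hKP : S_KP4) {W W' : Type} [Finite W]
    [Finite W'] {H : SimpleGraph W} {H' : SimpleGraph W'} (h : Left H H') :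
    Nat.card W ≤ 8 ∧ (nonDom H').ncard ≤ 28 := by
  obtain ⟨hS, ⟨a, b, c, hab, hac, hbc, n1, n2, n3⟩, h4, hS', hT, k1, k2, h5, -⟩ := h
  refine ⟨?_, hN W' H' hS' (fun h => k1 (hD.1 _ _ _ _ h)) fun h => k2 (hD.1 _ _ _ _ h)⟩
  have hcomp : ¬ IsComplete H := fun h => n1 (h a b hab)
  have hex : InCoS H ∨ InCoT H ∨ (InQS H ∧ InA3 H) := by
    by_cases hT1 : InCoT H
    · exact Or.inr (Or.inl hT1)
    · refine Or.inr (Or.inr ?_)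
      rcases h5 with h5 | h5
      · refine absurd (hKP W' H' hS' (hT.resolve_left hT1) ?_) h4
        rintro ⟨p, q, r, s, m1, m2, e1, e2, e3, e4, e5, e6⟩
        exact h5 (pat_cyc4 m1 m2 e1 e2 e3 e4 e5 e6)
      · exact ⟨h5.1, h5.2.1⟩
  rcases h8 W H hS hex with h' | h'
  · exact absurd h' hcomp
  · exact h'

end fIAux

open fIAux in
theorem fI (hA : S_FA) (hB : S_FB) (hD : S_FD) (hK : S_Kill) (hN : S_Nec) (hC4 : S_C4)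
    (hKP : S_KP4) (hE : S_EExcl) (hEC : S_EClosed) (hGC : S_GC) (h7 : S_K7) (h18 : S_X18)
    (W₁ W₂ : Type) [Finite W₁] [Finite W₂] (H₁ : SimpleGraph W₁) (H₂ : SimpleGraph W₂)
    (hb : BoundedCW H₁ H₂) : (InGrid H₁ ∨ InGrid H₂) ∧
      (Good H₁ H₂ ∨ Kn H₁ ∨ Kn H₂ ∨ Left H₁ H₂ ∨ Left H₂ H₁) := by
  obtain ⟨hS2, hCoS, hCoT, hG, hQS, hA3, hCQ, hMC⟩ := hN W₁ W₂ H₁ H₂ hb
  refine ⟨hG, ?_⟩
  rcases hS2 with hS | hS
  · rcases main2 hA hB hD hK hC4 hKP hE hEC hGC h7 h18 W₁ W₂ H₁ H₂ hb hS hCoS hCoT hQS hA3 hCQ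
      hMC with h | h | h
    · exact Or.inl ⟨hG, Or.inl h⟩
    · exact Or.inr (Or.inl h)
    · exact Or.inr (Or.inr (Or.inr (Or.inl h)))
  · rcases main2 hA hB hD hK hC4 hKP hE hEC hGC h7 h18 W₂ W₁ H₂ H₁ (Fin2Aux.boundedCW_symm hb) hS
      hCoS.symm hCoT.symm hQS.symm hA3.symm hCQ.symm hMC.symm with h | h | h
    · exact Or.inl ⟨hG, Or.inr h⟩
    · exact Or.inr (Or.inr (Or.inl h))
    · exact Or.inr (Or.inr (Or.inr (Or.inr h)))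

end Pool.Agent.MPd439b2
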