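import Pool.Agent.Lib.MP_d439b2_co.B.SpecF
import Pool.Agent.Lib.MP_d439b2_co.Size8

/-!
# MP_d439b2_co, Spec F, FN: at most 28 vertices which are not adjacent to all other vertices
-/

set_option autoImplicit false

namespace Pool.Agent.MPd439b2

namespace fNAux

open Finset

variable {W : Type}

/-- six disjoint edges of the complement -/
theorem six {H : SimpleGraph W} (S : Set W) (p : W → W) (T : Finset W) (hT : T.card = 6)
    (hp1 : ∀ u ∈ T, Hᶜ.Adj u (p u)) (hp2 : ∀ u ∈ T, p u ∉ S) (hS : ∀ u ∈ T, u ∉ S)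
    (hun : ∀ u v w, u ∉ S → v ∉ S → w ∉ S → Hᶜ.Adj u v → Hᶜ.Adj u w → v = w)
    (hne : ∀ u ∈ T, ∀ v ∈ T, u ≠ p v) : IsIndSub co6P2 H := by
  classical
  have e : Fin 6 ≃ T := (Fintype.equivFinOfCardEq (by rw [Fintype.card_coe, hT])).symm
  set f : Fin 6 × Bool → W := fun x => if x.2 then p (e x.1) else (e x.1 : W) with hf
  have f1 : ∀ i, f (i, false) = (e i : W) := fun i => rfl
  have f2 : ∀ i, f (i, true) = p (e i) := fun i => rfl
  have hfS : ∀ x, f x ∉ S := by
    rintro ⟨i, b⟩
    cases b
    · exact hS _ (e i).2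
    · exact hp2 _ (e i).2
  have hadj : ∀ i, Hᶜ.Adj (f (i, false)) (f (i, true)) := fun i => hp1 _ (e i).2
  have hflip : ∀ i b, Hᶜ.Adj (f (i, b)) (f (i, !b)) := by
    intro i b
    cases b
    · exact hadj i
    · exact (hadj i).symm
  have hinj : Function.Injective f := by
    rintro ⟨i, b⟩ ⟨j, c⟩ h
    cases b <;> cases c
    · have h1 : (e i : W) = e j := h
      have h2 := e.injective (Subtype.ext h1)
      rw [h2]
    · exact absurd h (hne _ (e i).2 _ (e j).2)
    · exact absurd h.symm (hne _ (e j).2 _ (e i).2)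
    · have h1 : f (i, true) = f (j, true) := h
      have h2 : (e i : W) = e j := by
        refine hun (f (i, true)) _ _ (hfS _) (hfS (i, false)) (hfS (j, false)) (hadj i).symm ?_
        rw [h1]
        exact (hadj j).symm
      have h3 := e.injective (Subtype.ext h2)
      rw [h3]
  refine ⟨f, hinj, ?_⟩
  rintro ⟨i, b⟩ ⟨j, c⟩
  constructor
  · intro h
    have hij : i ≠ j := h
    by_contra hcon
    have h1 : Hᶜ.Adj (f (i, b)) (f (j, c)) := by
      rw [SimpleGraph.compl_adj]
      exact ⟨fun h2 => hij (congrArg Prod.fst (hinj h2)), hcon⟩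
    have h2 := hun _ _ _ (hfS (i, b)) (hfS (j, c)) (hfS (i, !b)) h1 (hflip i b)
    exact hij (congrArg Prod.fst (hinj h2)).symm
  · intro h
    change i ≠ j
    intro hij
    subst hij
    by_cases hbc : b = c
    · subst hbc
      exact H.loopless.irrefl _ h
    · have hc : c = !b := by
        cases b <;> cases c <;> simp_all
      subst hc
      exact ((SimpleGraph.compl_adj H _ _).1 (hflip i b)).2 h

/-- the greedy choice -/
theorem greedy {H : SimpleGraph W} [Fintype W] (h6 : ¬ IsIndSub co6P2 H) (S M : Finset W)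
    (hun : ∀ u v w, u ∉ S → v ∉ S → w ∉ S → Hᶜ.Adj u v → Hᶜ.Adj u w → v = w)
    (hM : ∀ u ∈ M, u ∉ S ∧ ∃ v, v ∉ S ∧ Hᶜ.Adj u v) : M.card ≤ 10 := by
  classical
  by_contra hcon
  push Not at hcon
  set p : W → W := fun u => if h : ∃ v, v ∉ S ∧ Hᶜ.Adj u v then h.choose else u with hp
  have hp0 : ∀ u, (∃ v, v ∉ S ∧ Hᶜ.Adj u v) → p u ∉ S ∧ Hᶜ.Adj u (p u) := by
    intro u hu
    have : p u = hu.choose := dif_pos hu
    rw [this]
    exact hu.choose_spec
  have hp1 : ∀ u ∈ M, p u ∉ S ∧ Hᶜ.Adj u (p u) := fun u hu => hp0 u (hM u hu).2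
  have hpp : ∀ u ∈ M, p (p u) = u := by
    intro u hu
    obtain ⟨h1, h2⟩ := hp1 u hu
    obtain ⟨h3, h4⟩ := hp0 (p u) ⟨u, (hM u hu).1, h2.symm⟩
    exact hun (p u) _ _ h1 h3 (hM u hu).1 h4 h2.symm
  have key : ∀ n ≤ 6, ∃ T ⊆ M, T.card = n ∧ ∀ u ∈ T, ∀ v ∈ T, u ≠ p v := by
    intro n
    induction n with
    | zero =>
      intro _
      exact ⟨∅, empty_subset _, card_empty, fun u hu => absurd hu (notMem_empty u)⟩
    | succ n ih =>
      intro hn
      obtain ⟨T, hTM, hTc, hTp⟩ := ih (by omega)
      have h1 : (T ∪ T.image p).card ≤ 10 := by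
        refine (card_union_le _ _).trans ?_
        have := card_image_le (s := T) (f := p)
        omega
      have h2 : ¬ M ⊆ T ∪ T.image p := by
        intro h
        have := card_le_card h
        omega
      rw [not_subset] at h2
      obtain ⟨u, huM, hu⟩ := h2
      rw [mem_union, not_or] at hu
      refine ⟨insert u T, insert_subset huM hTM, ?_, ?_⟩
      · rw [card_insert_of_notMem hu.1, hTc]
      · intro a ha b hb
        rw [mem_insert] at ha hb
        rcases ha with rfl | ha <;> rcases hb with rfl | hb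
        · exact (hp1 _ huM).2.ne
        · intro h
          exact hu.2 (mem_image.2 ⟨b, hb, h.symm⟩)
        · intro h
          refine hu.2 (mem_image.2 ⟨a, ha, ?_⟩)
          rw [h]
          exact hpp _ huM
        · exact hTp a ha b hb
  obtain ⟨T, hTM, hTc, hTp⟩ := key 6 le_rfl
  exact h6 (six (S : Set W) p T hTc (fun u hu => (hp1 u (hTM hu)).2) (fun u hu => (hp1 u (hTM hu)).1)
    (fun u hu => (hM u (hTM hu)).1) hun hTp)

/-- two disjoint paths of the complement -/
theorem two {H : SimpleGraph W} (htri : ∀ a b c, Hᶜ.Adj a b → Hᶜ.Adj a c → Hᶜ.Adj b c → False)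
    {x y z u v w : W} (hxy : Hᶜ.Adj x y) (hxz : Hᶜ.Adj x z) (hyz : y ≠ z) (huv : Hᶜ.Adj u v)
    (huw : Hᶜ.Adj u w) (hvw : v ≠ w)
    (hno : ∀ a ∈ ({x, y, z} : Set W), ∀ b ∈ ({u, v, w} : Set W), a ≠ b ∧ ¬ Hᶜ.Adj a b) :
    IsIndSub co2P3 H := by
  have nyz : ¬ Hᶜ.Adj y z := fun h => htri x y z hxy hxz h
  have nvw : ¬ Hᶜ.Adj v w := fun h => htri u v w huv huw h
  have hH : ∀ {a b : W}, a ≠ b → ¬ Hᶜ.Adj a b → H.Adj a b := by
    intro a b h1 h2
    by_contra h3
    exact h2 ((SimpleGraph.compl_adj H a b).2 ⟨h1, h3⟩)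
  have hN : ∀ {a b : W}, Hᶜ.Adj a b → ¬ H.Adj a b := fun h => ((SimpleGraph.compl_adj H _ _).1 h).2
  have mx : x ∈ ({x, y, z} : Set W) := by simp
  have my : y ∈ ({x, y, z} : Set W) := by simp
  have mz : z ∈ ({x, y, z} : Set W) := by simp
  have mu : u ∈ ({u, v, w} : Set W) := by simp
  have mv : v ∈ ({u, v, w} : Set W) := by simp
  have mw : w ∈ ({u, v, w} : Set W) := by simp
  have e1 := hN hxy
  have e2 := hN hxz
  have e3 := hN huv
  have e4 := hN huw
  have e1' := hN hxy.symm
  have e2' := hN hxz.symm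
  have e3' := hN huv.symm
  have e4' := hN huw.symm
  have a1 := hH hyz nyz
  have a2 := hH hvw nvw
  have c1 := hH (hno x mx u mu).1 (hno x mx u mu).2
  have c2 := hH (hno x mx v mv).1 (hno x mx v mv).2
  have c3 := hH (hno x mx w mw).1 (hno x mx w mw).2
  have c4 := hH (hno y my u mu).1 (hno y my u mu).2
  have c5 := hH (hno y my v mv).1 (hno y my v mv).2
  have c6 := hH (hno y my w mw).1 (hno y my w mw).2
  have c7 := hH (hno z mz u mu).1 (hno z mz u mu).2
  have c8 := hH (hno z mz v mv).1 (hno z mz v mv).2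
  have c9 := hH (hno z mz w mw).1 (hno z mz w mw).2
  have d0 : ∀ a : W, ¬ H.Adj a a := fun a => H.loopless.irrefl a
  refine ⟨![x, y, z, u, v, w], ?_, ?_⟩
  · intro i j hij
    have nx : x ≠ y := hxy.ne
    have nz : x ≠ z := hxz.ne
    have nu : u ≠ v := huv.ne
    have nw : u ≠ w := huw.ne
    fin_cases i <;> fin_cases j <;> simp only [Fin.reduceFinMk, Matrix.cons_val] at hij ⊢ <;>
      first
        | rfl
        | exact absurd hij nx
        | exact absurd hij nz
        | exact absurd hij nu
        | exact absurd hij nw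
        | exact absurd hij hyz
        | exact absurd hij hvw
        | exact absurd hij.symm nx
        | exact absurd hij.symm nz
        | exact absurd hij.symm nu
        | exact absurd hij.symm nw
        | exact absurd hij.symm hyz
        | exact absurd hij.symm hvw
        | exact absurd hij c1.ne
        | exact absurd hij c2.ne
        | exact absurd hij c3.ne
        | exact absurd hij c4.ne
        | exact absurd hij c5.ne
        | exact absurd hij c6.ne
        | exact absurd hij c7.ne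
        | exact absurd hij c8.ne
        | exact absurd hij c9.ne
        | exact absurd hij.symm c1.ne
        | exact absurd hij.symm c2.ne
        | exact absurd hij.symm c3.ne
        | exact absurd hij.symm c4.ne
        | exact absurd hij.symm c5.ne
        | exact absurd hij.symm c6.ne
        | exact absurd hij.symm c7.ne
        | exact absurd hij.symm c8.ne
        | exact absurd hij.symm c9.ne
  · have key : ∀ i j : Fin 6, i ≤ j →
        (co2P3.Adj i j ↔ H.Adj ((![x, y, z, u, v, w] : Fin 6 → W) i) ((![x, y, z, u, v, w] : Fin 6 → W) j)) := by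
      intro i j hij
      fin_cases i <;> fin_cases j <;>
        simp only [Fin.reduceFinMk, Matrix.cons_val, co2P3] at hij ⊢ <;>
        first
          | exact absurd hij (by decide)
          | exact iff_of_true (by decide) (by assumption)
          | exact iff_of_false (by decide) (by first | assumption | exact d0 _)
    intro i j
    rcases le_total i j with h | h
    · exact key i j h
    · rw [SimpleGraph.adj_comm, key j i h, SimpleGraph.adj_comm]

end fNAux

open Finset in
theorem fN : S_FN := by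
  classical
  intro W _ H hC h2 h6
  have _ : Fintype W := Fintype.ofFinite W
  obtain ⟨ι, f, hf, hadj⟩ := hC
  have htri : ∀ a b c, Hᶜ.Adj a b → Hᶜ.Adj a c → Hᶜ.Adj b c → False :=
    fun a b c h h' h'' => Size8_ttri (hadj _ _ h) (hadj _ _ h') (hadj _ _ h'')
  set nb : W → Finset W := fun u => univ.filter (fun v => Hᶜ.Adj u v) with hnb
  have mnb : ∀ {u v : W}, v ∈ nb u ↔ Hᶜ.Adj u v := by
    intro u v
    rw [hnb]
    simp
  have hdeg : ∀ u, (nb u).card ≤ 3 := by
    intro u
    obtain ⟨x, y, z, hxyz⟩ := Size8_tdeg ι (f u)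
    have h1 : (nb u).card ≤ ({x, y, z} : Finset (ι × Fin 3 × ℕ)).card := by
      refine card_le_card_of_injOn f ?_ (hf.injOn)
      intro v hv
      have := hxyz (f v) (hadj _ _ (mnb.1 hv))
      simp only [coe_insert, coe_singleton, Set.mem_insert_iff, Set.mem_singleton_iff]
      exact this
    exact h1.trans card_le_three
  have hncard : ∀ F : Finset W, F.card ≤ 28 → (∀ w ∈ nonDom H, w ∈ F) → (nonDom H).ncard ≤ 28 := by
    intro F hF hsub
    have h1 : (nonDom H).ncard ≤ (F : Set W).ncard :=
      Set.ncard_le_ncard (fun w hw => hsub w hw) (Finset.finite_toSet F)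
    rw [Set.ncard_coe_finset] at h1
    exact h1.trans hF
  have hnd : ∀ w ∈ nonDom H, ∃ u, Hᶜ.Adj w u := by
    rintro w ⟨u, hu1, hu2⟩
    exact ⟨u, (SimpleGraph.compl_adj H w u).2 ⟨hu1.symm, hu2⟩⟩
  by_cases hcase : ∃ x y z, Hᶜ.Adj x y ∧ Hᶜ.Adj x z ∧ y ≠ z
  · obtain ⟨x, y, z, hxy, hxz, hyz⟩ := hcase
    set S : Finset W := insert x (nb x ∪ nb y ∪ nb z) with hS
    have hSx : x ∈ S := mem_insert_self _ _
    have hSnx : ∀ v ∈ nb x, v ∈ S := fun v hv =>
      mem_insert_of_mem (mem_union_left _ (mem_union_left _ hv))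
    have hSny : ∀ v ∈ nb y, v ∈ S := fun v hv =>
      mem_insert_of_mem (mem_union_left _ (mem_union_right _ hv))
    have hSnz : ∀ v ∈ nb z, v ∈ S := fun v hv => mem_insert_of_mem (mem_union_right _ hv)
    have hSy : y ∈ S := hSnx y (mnb.2 hxy)
    have hSz : z ∈ S := hSnx z (mnb.2 hxz)
    have hun : ∀ u v w, u ∉ S → v ∉ S → w ∉ S → Hᶜ.Adj u v → Hᶜ.Adj u w → v = w := by
      intro u v w hu hv hw huv huw
      by_contra hvw
      refine h2 (fNAux.two htri hxy hxz hyz huv huw hvw ?_)
      intro a ha b hb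
      have hbS : b ∉ S := by
        simp only [Set.mem_insert_iff, Set.mem_singleton_iff] at hb
        rcases hb with rfl | rfl | rfl
        · exact hu
        · exact hv
        · exact hw
      simp only [Set.mem_insert_iff, Set.mem_singleton_iff] at ha
      rcases ha with rfl | rfl | rfl
      · exact ⟨fun h => hbS (h ▸ hSx), fun h => hbS (hSnx b (mnb.2 h))⟩
      · exact ⟨fun h => hbS (h ▸ hSy), fun h => hbS (hSny b (mnb.2 h))⟩
      · exact ⟨fun h => hbS (h ▸ hSz), fun h => hbS (hSnz b (mnb.2 h))⟩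
    set M : Finset W := univ.filter (fun u => u ∉ S ∧ ∃ v, v ∉ S ∧ Hᶜ.Adj u v) with hM
    have hMc : M.card ≤ 10 := by
      refine fNAux.greedy h6 S M hun ?_
      intro u hu
      rw [hM, mem_filter] at hu
      exact hu.2
    set R : Finset W := ((nb x).erase y).erase z ∪ (nb y).erase x ∪ (nb z).erase x with hR
    have hRc : R.card ≤ 5 := by
      refine (card_union_le _ _).trans ?_
      have a1 := card_union_le (((nb x).erase y).erase z) ((nb y).erase x)
      have a2 : (((nb x).erase y).erase z).card = (nb x).card - 1 - 1 := by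
        rw [card_erase_of_mem, card_erase_of_mem (mnb.2 hxy)]
        rw [mem_erase]
        exact ⟨hyz.symm, mnb.2 hxz⟩
      have a3 : ((nb y).erase x).card = (nb y).card - 1 := card_erase_of_mem (mnb.2 hxy.symm)
      have a4 : ((nb z).erase x).card = (nb z).card - 1 := card_erase_of_mem (mnb.2 hxz.symm)
      have b1 := hdeg x
      have b2 := hdeg y
      have b3 := hdeg z
      omega
    have hSR : ∀ s ∈ S, s = x ∨ s = y ∨ s = z ∨ s ∈ R := by
      intro s hs
      by_cases h1 : s = x
      · exact Or.inl h1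
      by_cases h3 : s = y
      · exact Or.inr (Or.inl h3)
      by_cases h4 : s = z
      · exact Or.inr (Or.inr (Or.inl h4))
      refine Or.inr (Or.inr (Or.inr ?_))
      rw [hS, mem_insert, mem_union, mem_union] at hs
      rw [hR, mem_union, mem_union, mem_erase, mem_erase, mem_erase, mem_erase]
      rcases hs with h | (h | h) | h
      · exact absurd h h1
      · exact Or.inl (Or.inl ⟨h4, h3, h⟩)
      · exact Or.inl (Or.inr ⟨h1, h⟩)
      · exact Or.inr ⟨h1, h⟩
    have hSc : S.card ≤ 8 := by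
      have h1 : S ⊆ ({x, y, z} : Finset W) ∪ R := by
        intro s hs
        rw [mem_union, mem_insert, mem_insert, mem_singleton]
        rcases hSR s hs with h | h | h | h
        · exact Or.inl (Or.inl h)
        · exact Or.inl (Or.inr (Or.inl h))
        · exact Or.inl (Or.inr (Or.inr h))
        · exact Or.inr h
      have h3 := card_le_card h1
      have h4 := card_union_le ({x, y, z} : Finset W) R
      have h5 : ({x, y, z} : Finset W).card ≤ 3 := card_le_three
      omega
    have hRn : ∀ s ∈ R, (nb s \ S).card ≤ 2 := by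
      intro s hs
      have h1 : ∃ t ∈ nb s, t ∈ S := by
        rw [hR, mem_union, mem_union, mem_erase, mem_erase, mem_erase, mem_erase] at hs
        rcases hs with (⟨-, -, h⟩ | ⟨-, h⟩) | ⟨-, h⟩
        · exact ⟨x, mnb.2 (mnb.1 h).symm, hSx⟩
        · exact ⟨y, mnb.2 (mnb.1 h).symm, hSy⟩
        · exact ⟨z, mnb.2 (mnb.1 h).symm, hSz⟩
      obtain ⟨t, ht1, ht2⟩ := h1
      have h3 : nb s \ S ⊆ (nb s).erase t := by
        intro v hv
        rw [mem_sdiff] at hv
        rw [mem_erase]
        exact ⟨fun h => hv.2 (h ▸ ht2), hv.1⟩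
      have h4 := card_le_card h3
      rw [card_erase_of_mem ht1] at h4
      have := hdeg s
      omega
    set Q : Finset W := R.biUnion (fun s => nb s \ S) with hQ
    have hQc : Q.card ≤ 10 := by
      refine card_biUnion_le.trans ?_
      have h1 : ∑ s ∈ R, (nb s \ S).card ≤ ∑ _s ∈ R, 2 := sum_le_sum hRn
      rw [sum_const, smul_eq_mul] at h1
      omega
    refine hncard (S ∪ M ∪ Q) ?_ ?_
    · have h1 := card_union_le (S ∪ M) Q
      have h3 := card_union_le S M
      omega
    · intro w hw
      obtain ⟨s, hs⟩ := hnd w hw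
      rw [mem_union, mem_union]
      by_cases hwS : w ∈ S
      · exact Or.inl (Or.inl hwS)
      by_cases hsS : s ∈ S
      · right
        rw [hQ, mem_biUnion]
        rcases hSR s hsS with h | h | h | h
        · exact absurd (hSnx w (mnb.2 (h ▸ hs.symm))) hwS
        · exact absurd (hSny w (mnb.2 (h ▸ hs.symm))) hwS
        · exact absurd (hSnz w (mnb.2 (h ▸ hs.symm))) hwS
        · exact ⟨s, h, mem_sdiff.2 ⟨mnb.2 hs.symm, hwS⟩⟩
      · left
        right
        rw [hM, mem_filter]
        exact ⟨mem_univ _, hwS, s, hsS, hs⟩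
  · have hun : ∀ u v w, u ∉ (∅ : Finset W) → v ∉ (∅ : Finset W) → w ∉ (∅ : Finset W) →
        Hᶜ.Adj u v → Hᶜ.Adj u w → v = w := by
      intro u v w _ _ _ huv huw
      by_contra hvw
      exact hcase ⟨u, v, w, huv, huw, hvw⟩
    set M : Finset W := univ.filter (fun u => ∃ v, Hᶜ.Adj u v) with hM
    have hMc : M.card ≤ 10 := by
      refine fNAux.greedy h6 ∅ M hun ?_
      intro u hu
      rw [hM, mem_filter] at hu
      obtain ⟨-, v, hv⟩ := hu
      exact ⟨notMem_empty u, v, notMem_empty v, hv⟩
    refine hncard M (by omega) ?_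
    intro w hw
    rw [hM, mem_filter]
    exact ⟨mem_univ _, hnd w hw⟩

end Pool.Agent.MPd439b2
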