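import Pool.Agent.Lib.MP_d439b2_co.B.SpecG

/-!
# MP_d439b2_co, Spec G, G4 : excluded induced minors of `GF1 n`
-/

set_option autoImplicit false

namespace Pool.Agent.MPd439b2

namespace g1ExclAux

variable {n : ℕ} {W : Type}

/-- the letter of a vertex -/
def letter : GFV n → Fin 3
  | Sum.inl _ => 0
  | Sum.inr (Sum.inl _) => 1
  | Sum.inr (Sum.inr _) => 2

/-- the set `B w` has the letter `i` -/
def Has (B : W → Set (GFV n)) (w : W) (i : Fin 3) : Prop := ∃ u ∈ B w, letter u = i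

theorem hasX {B : W → Set (GFV n)} {w : W} (h : Has B w 0) : ∃ p, Sum.inl p ∈ B w := by
  obtain ⟨u, hu, hl⟩ := h
  rcases u with p | k | l
  · exact ⟨p, hu⟩
  · exact absurd (show (1 : Fin 3) = 0 from hl) (by decide)
  · exact absurd (show (2 : Fin 3) = 0 from hl) (by decide)

theorem hasY {B : W → Set (GFV n)} {w : W} (h : Has B w 1) : ∃ k, Sum.inr (Sum.inl k) ∈ B w := by
  obtain ⟨u, hu, hl⟩ := h
  rcases u with p | k | l
  · exact absurd (show (0 : Fin 3) = 1 from hl) (by decide)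
  · exact ⟨k, hu⟩
  · exact absurd (show (2 : Fin 3) = 1 from hl) (by decide)

theorem hasZ {B : W → Set (GFV n)} {w : W} (h : Has B w 2) : ∃ l, Sum.inr (Sum.inr l) ∈ B w := by
  obtain ⟨u, hu, hl⟩ := h
  rcases u with p | k | l
  · exact absurd (show (0 : Fin 3) = 2 from hl) (by decide)
  · exact absurd (show (1 : Fin 3) = 2 from hl) (by decide)
  · exact ⟨l, hu⟩

/-- a model, and what non-adjacency means -/
structure Mod (H : SimpleGraph W) (B : W → Set (GFV n)) : Prop where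
  con : ∀ w, ((GF1 n).induce (B w)).Connected
  dj : ∀ w w', w ≠ w' → Disjoint (B w) (B w')
  ad : ∀ w w', w ≠ w' → (H.Adj w w' ↔ ∃ x ∈ B w, ∃ y ∈ B w', (GF1 n).Adj x y)

variable {H : SimpleGraph W} {B : W → Set (GFV n)}

theorem nadj (M : Mod H B) {w w' : W} (hne : w ≠ w') (hw : ¬ H.Adj w w') {x y : GFV n}
    (hx : x ∈ B w) (hy : y ∈ B w') : ¬ (GF1 n).Adj x y :=
  fun h => hw ((M.ad w w' hne).mpr ⟨x, hx, y, hy, h⟩)

theorem hne (M : Mod H B) {w w' : W} (hne : w ≠ w') {x y : GFV n}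
    (hx : x ∈ B w) (hy : y ∈ B w') : x ≠ y :=
  fun h => Set.disjoint_left.mp (M.dj w w' hne) hx (h ▸ hy)

theorem adj_of_letter {x y : GFV n} (h : letter x = letter y) (hxy : x ≠ y) :
    (GF1 n).Adj x y := by
  rcases x with p | k | l <;> rcases y with q | k' | l'
  · exact fun h' => hxy (by rw [h'])
  · exact absurd (show (0 : Fin 3) = 1 from h) (by decide)
  · exact absurd (show (0 : Fin 3) = 2 from h) (by decide)
  · exact absurd (show (1 : Fin 3) = 0 from h) (by decide)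
  · exact fun h' => hxy (by rw [h'])
  · exact absurd (show (1 : Fin 3) = 2 from h) (by decide)
  · exact absurd (show (2 : Fin 3) = 0 from h) (by decide)
  · exact absurd (show (2 : Fin 3) = 1 from h) (by decide)
  · exact fun h' => hxy (by rw [h'])

/-- (i) non-adjacent vertices have no common letter -/
theorem noCommon (M : Mod H B) {w w' : W} (h : w ≠ w') (hw : ¬ H.Adj w w') {i : Fin 3}
    (h1 : Has B w i) (h2 : Has B w' i) : False := by
  obtain ⟨x, hx, e⟩ := h1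
  obtain ⟨y, hy, e'⟩ := h2
  exact nadj M h hw hx hy (adj_of_letter (e.trans e'.symm) (hne M h hx hy))

/-- non-adjacent `x (a, b)`, `y k` -/
theorem xy (M : Mod H B) {w w' : W} (h : w ≠ w') (hw : ¬ H.Adj w w') {p : Fin n × Fin n}
    {k : Fin n} (hx : Sum.inl p ∈ B w) (hy : Sum.inr (Sum.inl k) ∈ B w') : k = p.1 := by
  by_contra hk
  exact nadj M h hw hx hy hk

/-- non-adjacent `x (a, b)`, `z l` -/
theorem xz (M : Mod H B) {w w' : W} (h : w ≠ w') (hw : ¬ H.Adj w w') {p : Fin n × Fin n}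
    {l : Fin n} (hx : Sum.inl p ∈ B w) (hy : Sum.inr (Sum.inr l) ∈ B w') : l = p.2 := by
  by_contra hk
  exact nadj M h hw hx hy hk

theorem hasSome (M : Mod H B) (w : W) : ∃ i, Has B w i := by
  obtain ⟨⟨u, hu⟩⟩ := (M.con w).nonempty
  exact ⟨letter u, u, hu, rfl⟩

/-- (ii) -/
theorem yz (M : Mod H B) {w : W} (h1 : Has B w 1) (h2 : Has B w 2) : Has B w 0 := by
  obtain ⟨u, hu, e⟩ := h1
  obtain ⟨v, hv, e'⟩ := h2
  obtain ⟨q⟩ := (M.con w).preconnected ⟨u, hu⟩ ⟨v, hv⟩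
  obtain ⟨d, -, hd1, hd2⟩ := q.exists_boundary_dart {s | letter s.1 = 1} e (by
    intro h
    have h' : letter v = 1 := h
    rw [e'] at h'
    exact absurd h' (by decide))
  obtain ⟨⟨s, t⟩, hst⟩ := d
  obtain ⟨s, hs⟩ := s
  obtain ⟨t, ht⟩ := t
  have hs1 : letter s = 1 := hd1
  have ht1 : ¬ letter t = 1 := hd2
  have hst' : (GF1 n).Adj s t := hst
  rcases t with p | k | l
  · exact ⟨Sum.inl p, ht, rfl⟩
  · exact absurd rfl ht1
  · rcases s with p' | k' | l'
    · exact absurd (show (0 : Fin 3) = 1 from hs1) (by decide)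
    · exact absurd hst' (fun h => h)
    · exact absurd (show (2 : Fin 3) = 1 from hs1) (by decide)

/-- the combinatorics of part (a) -/
theorem comb4 : ∀ a b c d : Fin 3, a ≠ c → a ≠ d → c ≠ d → b ≠ c → b ≠ d →
    (a = 0 ∧ b = 0 ∧ c = 1 ∧ d = 2) ∨ (a = 0 ∧ b = 0 ∧ c = 2 ∧ d = 1) ∨
    (a = 1 ∧ b = 1 ∧ (c = 0 ∨ d = 0)) ∨ (a = 2 ∧ b = 2 ∧ (c = 0 ∨ d = 0)) := by
  decide

/-- part (a) for four vertices -/
theorem partA (M : Mod H B) (s t u v : W) (st : s ≠ t) (su : s ≠ u) (sv : s ≠ v) (tu : t ≠ u)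
    (tv : t ≠ v) (uv : u ≠ v) (nsu : ¬ H.Adj s u) (nsv : ¬ H.Adj s v) (ntu : ¬ H.Adj t u)
    (ntv : ¬ H.Adj t v) (nuv : ¬ H.Adj u v) : False := by
  obtain ⟨a, ha⟩ := hasSome M s
  obtain ⟨b, hb⟩ := hasSome M t
  obtain ⟨c, hc⟩ := hasSome M u
  obtain ⟨d, hd⟩ := hasSome M v
  have ac : a ≠ c := fun h => noCommon M su nsu ha (h ▸ hc)
  have ad : a ≠ d := fun h => noCommon M sv nsv ha (h ▸ hd)
  have cd : c ≠ d := fun h => noCommon M uv nuv hc (h ▸ hd)
  have bc : b ≠ c := fun h => noCommon M tu ntu hb (h ▸ hc)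
  have bd : b ≠ d := fun h => noCommon M tv ntv hb (h ▸ hd)
  -- both of `s`, `t` have `X`, the other two `Y`, `Z`
  have key : ∀ u' v' : W, s ≠ u' → s ≠ v' → t ≠ u' → t ≠ v' → ¬ H.Adj s u' → ¬ H.Adj s v' →
      ¬ H.Adj t u' → ¬ H.Adj t v' → Has B s 0 → Has B t 0 → Has B u' 1 → Has B v' 2 → False := by
    intro u' v' h1 h2 h3 h4 g1 g2 g3 g4 hs ht hu hv
    obtain ⟨p, hp⟩ := hasX hs
    obtain ⟨q, hq⟩ := hasX ht
    obtain ⟨k, hk⟩ := hasY hu
    obtain ⟨l, hl⟩ := hasZ hv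
    have e1 := xy M h1 g1 hp hk
    have e2 := xz M h2 g2 hp hl
    have e3 := xy M h3 g3 hq hk
    have e4 := xz M h4 g4 hq hl
    have e : p = q := Prod.ext (e1.symm.trans e3) (e2.symm.trans e4)
    exact hne M st hp hq (by rw [e])
  have keyY : ∀ u' : W, s ≠ u' → t ≠ u' → ¬ H.Adj s u' → ¬ H.Adj t u' → Has B s 1 → Has B t 1 →
      Has B u' 0 → False := by
    intro u' h1 h2 g1 g2 hs ht hu
    obtain ⟨p, hp⟩ := hasX hu
    obtain ⟨k, hk⟩ := hasY hs
    obtain ⟨l, hl⟩ := hasY ht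
    have e1 := xy M h1.symm (fun h => g1 h.symm) hp hk
    have e2 := xy M h2.symm (fun h => g2 h.symm) hp hl
    exact hne M st hk hl (by rw [e1, e2])
  have keyZ : ∀ u' : W, s ≠ u' → t ≠ u' → ¬ H.Adj s u' → ¬ H.Adj t u' → Has B s 2 → Has B t 2 →
      Has B u' 0 → False := by
    intro u' h1 h2 g1 g2 hs ht hu
    obtain ⟨p, hp⟩ := hasX hu
    obtain ⟨k, hk⟩ := hasZ hs
    obtain ⟨l, hl⟩ := hasZ ht
    have e1 := xz M h1.symm (fun h => g1 h.symm) hp hk
    have e2 := xz M h2.symm (fun h => g2 h.symm) hp hl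
    exact hne M st hk hl (by rw [e1, e2])
  rcases comb4 a b c d ac ad cd bc bd with ⟨r1, r2, r3, r4⟩ | ⟨r1, r2, r3, r4⟩ |
    ⟨r1, r2, r3 | r3⟩ | ⟨r1, r2, r3 | r3⟩
  · subst r1 r2 r3 r4
    exact key u v su sv tu tv nsu nsv ntu ntv ha hb hc hd
  · subst r1 r2 r3 r4
    exact key v u sv su tv tu nsv nsu ntv ntu ha hb hd hc
  · subst r1 r2 r3
    exact keyY u su tu nsu ntu ha hb hc
  · subst r1 r2 r3
    exact keyY v sv tv nsv ntv ha hb hd
  · subst r1 r2 r3
    exact keyZ u su tu nsu ntu ha hb hc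
  · subst r1 r2 r3
    exact keyZ v sv tv nsv ntv ha hb hd

/-- the properties of the labelling of part (b) -/
theorem partB (M : Mod H B) : ∃ l : W → Fin 3,
    (∀ w w', w ≠ w' → ¬ H.Adj w w' → l w ≠ l w') ∧
    (∀ w w', l w = 1 → l w' = 2 → ¬ H.Adj w w') ∧
    (∀ w w' w'', w ≠ w' → w ≠ w'' → w' ≠ w'' → ¬ H.Adj w w' → ¬ H.Adj w w'' → l w = 0 →
      l w' = l w'' → False) := by
  classical
  have hex : ∀ w, ∃ i, Has B w i ∧ (Has B w 0 → i = 0) := by
    intro w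
    by_cases h : Has B w 0
    · exact ⟨0, h, fun _ => rfl⟩
    · obtain ⟨i, hi⟩ := hasSome M w
      exact ⟨i, hi, fun h' => absurd h' h⟩
  choose l hl hl0 using hex
  refine ⟨l, ?_, ?_, ?_⟩
  · intro w w' h hn e
    exact noCommon M h hn (hl w) (e ▸ hl w')
  · intro w w' h1 h2 hadj
    have e1 : Has B w 1 := h1 ▸ hl w
    have e2 : Has B w' 2 := h2 ▸ hl w'
    have n1 : ¬ Has B w 0 := fun h => absurd ((hl0 w h).symm.trans h1) (by decide)
    have n2 : ¬ Has B w' 0 := fun h => absurd ((hl0 w' h).symm.trans h2) (by decide)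
    have n3 : ¬ Has B w 2 := fun h => n1 (yz M e1 h)
    have n4 : ¬ Has B w' 1 := fun h => n2 (yz M h e2)
    obtain ⟨x, hx, y, hy, hxy⟩ := (M.ad w w' hadj.ne).mp hadj
    rcases x with p | k | k
    · exact n1 ⟨_, hx, rfl⟩
    · rcases y with q | m | m
      · exact n2 ⟨_, hy, rfl⟩
      · exact n4 ⟨_, hy, rfl⟩
      · exact hxy
    · exact n3 ⟨_, hx, rfl⟩
  · intro w w' w'' h1 h2 h3 g1 g2 e0 e
    have hw : Has B w 0 := e0 ▸ hl w
    obtain ⟨p, hp⟩ := hasX hw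
    have a1 := hl w'
    have a2 := hl w''
    rw [← e] at a2
    rcases (show l w' = 0 ∨ l w' = 1 ∨ l w' = 2 by
      generalize l w' = i
      revert i
      decide) with r | r | r
    · rw [r] at a1
      exact noCommon M h1 g1 hw a1
    · rw [r] at a1 a2
      obtain ⟨k, hk⟩ := hasY a1
      obtain ⟨m, hm⟩ := hasY a2
      have e1 := xy M h1 g1 hp hk
      have e2 := xy M h2 g2 hp hm
      exact hne M h3 hk hm (by rw [e1, e2])
    · rw [r] at a1 a2
      obtain ⟨k, hk⟩ := hasZ a1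
      obtain ⟨m, hm⟩ := hasZ a2
      have e1 := xz M h1 g1 hp hk
      have e2 := xz M h2 g2 hp hm
      exact hne M h3 hk hm (by rw [e1, e2])

/-- not `Y`, `Z` in some order -/
def Q (i j : Fin 3) : Bool := !((i == 1 && j == 2) || (i == 2 && j == 1))

/-- the conditions for the complement of `P_6` -/
def ok6 (a b c d e f : Fin 3) : Bool :=
  a != b && b != c && c != d && d != e && e != f &&
  !(b == 0 && a == c) && !(c == 0 && b == d) && !(d == 0 && c == e) && !(e == 0 && d == f) &&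
  Q a c && Q a d && Q a e && Q a f && Q b d && Q b e && Q b f && Q c e && Q c f && Q d f

/-- the conditions for the complement of `P_4 + P_2` -/
def ok4 (a b c d e f : Fin 3) : Bool :=
  a != b && b != c && c != d && e != f &&
  !(b == 0 && a == c) && !(c == 0 && b == d) &&
  Q a c && Q a d && Q a e && Q a f && Q b d && Q b e && Q b f && Q c e && Q c f && Q d e && Q d f

/-- the combinatorics for the path with six vertices `a b c d e f` -/
theorem combP6 : ∀ a b c d e f : Fin 3, ok6 a b c d e f = false := by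
  decide +kernel

/-- the combinatorics for the path `a b c d` and the edge `e f` -/
theorem combP4 : ∀ a b c d e f : Fin 3, ok4 a b c d e f = false := by
  decide +kernel

theorem Q_of {i j : Fin 3} (h : ¬ (i = 1 ∧ j = 2)) (h' : ¬ (i = 2 ∧ j = 1)) : Q i j = true := by
  revert i j
  decide

theorem bne_of {i j : Fin 3} (h : i ≠ j) : (i != j) = true := by
  revert i j
  decide

theorem p_of {i j k : Fin 3} (h : j = 0 → i ≠ k) : (!(j == 0 && i == k)) = true := by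
  revert i j k
  decide

theorem noP6 {B : Fin 6 → Set (GFV n)} (M : Mod coP6 B) : False := by
  obtain ⟨l, h1, h2, h3⟩ := partB M
  have F : ∀ i j : Fin 6, (i.val + 1 = j.val ∨ j.val + 1 = i.val) → ¬ coP6.Adj i j :=
    fun i j h h' => h'.2 h
  have A : ∀ i j : Fin 6, i ≠ j → ¬ (i.val + 1 = j.val ∨ j.val + 1 = i.val) → coP6.Adj i j :=
    fun i j h h' => ⟨h, h'⟩
  have T : ∀ i j : Fin 6, i ≠ j → ¬ (i.val + 1 = j.val ∨ j.val + 1 = i.val) →
      ¬ (l i = 1 ∧ l j = 2) := fun i j h h' h'' => h2 i j h''.1 h''.2 (A i j h h')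
  have T' : ∀ i j : Fin 6, i ≠ j → ¬ (i.val + 1 = j.val ∨ j.val + 1 = i.val) →
      ¬ (l i = 2 ∧ l j = 1) := fun i j h h' h'' => h2 j i h''.2 h''.1 (A i j h h').symm
  have R : ∀ i j : Fin 6, i ≠ j → (i.val + 1 = j.val ∨ j.val + 1 = i.val) → l i ≠ l j :=
    fun i j h h' => h1 i j h (F i j h')
  have P : ∀ i j k : Fin 6, i ≠ j → j ≠ k → i ≠ k → (j.val + 1 = i.val ∨ i.val + 1 = j.val) →
      (j.val + 1 = k.val ∨ k.val + 1 = j.val) → (l j = 0 → l i ≠ l k) :=
    fun i j k a b c d e f g => h3 j i k a.symm b c (F j i d) (F j k e) f g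
  have key : ok6 (l 0) (l 1) (l 2) (l 3) (l 4) (l 5) = true := by
    unfold ok6
    simp only [Bool.and_eq_true]
    refine ⟨⟨⟨⟨⟨⟨⟨⟨⟨⟨⟨⟨⟨⟨⟨⟨⟨⟨?_, ?_⟩, ?_⟩, ?_⟩, ?_⟩, ?_⟩, ?_⟩, ?_⟩, ?_⟩, ?_⟩, ?_⟩, ?_⟩, ?_⟩, ?_⟩, ?_⟩, ?_⟩, ?_⟩, ?_⟩, ?_⟩
    · exact bne_of (R 0 1 (by decide) (by decide))
    · exact bne_of (R 1 2 (by decide) (by decide))
    · exact bne_of (R 2 3 (by decide) (by decide))
    · exact bne_of (R 3 4 (by decide) (by decide))
    · exact bne_of (R 4 5 (by decide) (by decide))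
    · exact p_of (P 0 1 2 (by decide) (by decide) (by decide) (by decide) (by decide))
    · exact p_of (P 1 2 3 (by decide) (by decide) (by decide) (by decide) (by decide))
    · exact p_of (P 2 3 4 (by decide) (by decide) (by decide) (by decide) (by decide))
    · exact p_of (P 3 4 5 (by decide) (by decide) (by decide) (by decide) (by decide))
    · exact Q_of (T 0 2 (by decide) (by decide)) (T' 0 2 (by decide) (by decide))
    · exact Q_of (T 0 3 (by decide) (by decide)) (T' 0 3 (by decide) (by decide))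
    · exact Q_of (T 0 4 (by decide) (by decide)) (T' 0 4 (by decide) (by decide))
    · exact Q_of (T 0 5 (by decide) (by decide)) (T' 0 5 (by decide) (by decide))
    · exact Q_of (T 1 3 (by decide) (by decide)) (T' 1 3 (by decide) (by decide))
    · exact Q_of (T 1 4 (by decide) (by decide)) (T' 1 4 (by decide) (by decide))
    · exact Q_of (T 1 5 (by decide) (by decide)) (T' 1 5 (by decide) (by decide))
    · exact Q_of (T 2 4 (by decide) (by decide)) (T' 2 4 (by decide) (by decide))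
    · exact Q_of (T 2 5 (by decide) (by decide)) (T' 2 5 (by decide) (by decide))
    · exact Q_of (T 3 5 (by decide) (by decide)) (T' 3 5 (by decide) (by decide))
  exact absurd ((combP6 (l 0) (l 1) (l 2) (l 3) (l 4) (l 5)).symm.trans key) (by decide)

theorem noP4 {B : Fin 6 → Set (GFV n)} (M : Mod coP4P2 B) : False := by
  obtain ⟨l, h1, h2, h3⟩ := partB M
  have F : ∀ i j : Fin 6, ((i.val + 1 = j.val ∧ i.val ≠ 3) ∨ (j.val + 1 = i.val ∧ j.val ≠ 3)) →
      ¬ coP4P2.Adj i j := fun i j h h' => h'.2 h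
  have A : ∀ i j : Fin 6, i ≠ j →
      ¬ ((i.val + 1 = j.val ∧ i.val ≠ 3) ∨ (j.val + 1 = i.val ∧ j.val ≠ 3)) → coP4P2.Adj i j :=
    fun i j h h' => ⟨h, h'⟩
  have T : ∀ i j : Fin 6, i ≠ j →
      ¬ ((i.val + 1 = j.val ∧ i.val ≠ 3) ∨ (j.val + 1 = i.val ∧ j.val ≠ 3)) →
      ¬ (l i = 1 ∧ l j = 2) := fun i j h h' h'' => h2 i j h''.1 h''.2 (A i j h h')
  have T' : ∀ i j : Fin 6, i ≠ j →
      ¬ ((i.val + 1 = j.val ∧ i.val ≠ 3) ∨ (j.val + 1 = i.val ∧ j.val ≠ 3)) →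
      ¬ (l i = 2 ∧ l j = 1) := fun i j h h' h'' => h2 j i h''.2 h''.1 (A i j h h').symm
  have R : ∀ i j : Fin 6, i ≠ j →
      ((i.val + 1 = j.val ∧ i.val ≠ 3) ∨ (j.val + 1 = i.val ∧ j.val ≠ 3)) → l i ≠ l j :=
    fun i j h h' => h1 i j h (F i j h')
  have P : ∀ i j k : Fin 6, i ≠ j → j ≠ k → i ≠ k →
      ((j.val + 1 = i.val ∧ j.val ≠ 3) ∨ (i.val + 1 = j.val ∧ i.val ≠ 3)) →
      ((j.val + 1 = k.val ∧ j.val ≠ 3) ∨ (k.val + 1 = j.val ∧ k.val ≠ 3)) →
      (l j = 0 → l i ≠ l k) :=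
    fun i j k a b c d e f g => h3 j i k a.symm b c (F j i d) (F j k e) f g
  have key : ok4 (l 0) (l 1) (l 2) (l 3) (l 4) (l 5) = true := by
    unfold ok4
    simp only [Bool.and_eq_true]
    refine ⟨⟨⟨⟨⟨⟨⟨⟨⟨⟨⟨⟨⟨⟨⟨⟨?_, ?_⟩, ?_⟩, ?_⟩, ?_⟩, ?_⟩, ?_⟩, ?_⟩, ?_⟩, ?_⟩, ?_⟩, ?_⟩, ?_⟩, ?_⟩, ?_⟩, ?_⟩, ?_⟩
    · exact bne_of (R 0 1 (by decide) (by decide))
    · exact bne_of (R 1 2 (by decide) (by decide))
    · exact bne_of (R 2 3 (by decide) (by decide))
    · exact bne_of (R 4 5 (by decide) (by decide))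
    · exact p_of (P 0 1 2 (by decide) (by decide) (by decide) (by decide) (by decide))
    · exact p_of (P 1 2 3 (by decide) (by decide) (by decide) (by decide) (by decide))
    · exact Q_of (T 0 2 (by decide) (by decide)) (T' 0 2 (by decide) (by decide))
    · exact Q_of (T 0 3 (by decide) (by decide)) (T' 0 3 (by decide) (by decide))
    · exact Q_of (T 0 4 (by decide) (by decide)) (T' 0 4 (by decide) (by decide))
    · exact Q_of (T 0 5 (by decide) (by decide)) (T' 0 5 (by decide) (by decide))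
    · exact Q_of (T 1 3 (by decide) (by decide)) (T' 1 3 (by decide) (by decide))
    · exact Q_of (T 1 4 (by decide) (by decide)) (T' 1 4 (by decide) (by decide))
    · exact Q_of (T 1 5 (by decide) (by decide)) (T' 1 5 (by decide) (by decide))
    · exact Q_of (T 2 4 (by decide) (by decide)) (T' 2 4 (by decide) (by decide))
    · exact Q_of (T 2 5 (by decide) (by decide)) (T' 2 5 (by decide) (by decide))
    · exact Q_of (T 3 4 (by decide) (by decide)) (T' 3 4 (by decide) (by decide))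
    · exact Q_of (T 3 5 (by decide) (by decide)) (T' 3 5 (by decide) (by decide))
  exact absurd ((combP4 (l 0) (l 1) (l 2) (l 3) (l 4) (l 5)).symm.trans key) (by decide)

end g1ExclAux

open g1ExclAux in
/-- **G4.** -/
theorem g1Excl : S_G1Excl := by
  intro n
  refine ⟨?_, ?_, ?_⟩
  · rintro ⟨B, h1, h2, h3⟩
    have M : Mod (KA 2 2 ![∅, ∅]) B := ⟨h1, h2, h3⟩
    have e : ∀ (i : Fin 2) (q : Fin 2), ¬ (KA 2 2 ![∅, ∅]).Adj (Sum.inl i) (Sum.inr q) := by
      intro i q h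
      have h' : i ∈ (![∅, ∅] : Fin 2 → Set (Fin 2)) q := h
      fin_cases q
      · exact h'
      · exact h'
    exact partA M (Sum.inl 0) (Sum.inl 1) (Sum.inr 0) (Sum.inr 1) (by simp) (by simp) (by simp)
      (by simp) (by simp) (by simp) (e 0 0) (e 0 1) (e 1 0) (e 1 1) (fun h => h)
  · rintro ⟨B, h1, h2, h3⟩
    exact noP6 ⟨h1, h2, h3⟩
  · rintro ⟨B, h1, h2, h3⟩
    exact noP4 ⟨h1, h2, h3⟩

end Pool.Agent.MPd439b2
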