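import Pool.Agent.Lib.MP_d439b2_co.B.SpecG
import Pool.Agent.Lib.MP_d439b2_co.Basic

/-!
# MP_d439b2_co, Spec G: G2Excl, excluded induced minors of `GF2 n`
-/

set_option autoImplicit false

namespace Pool.Agent.MPd439b2

namespace G2Aux

variable {n : ℕ}

/-- the set meets the clique -/
def Big (S : Set (GFV n)) : Prop := ∃ k, Sum.inr (Sum.inl k) ∈ S

/-- a substar of the star of `z b`, containing the centre -/
def ZS (b : Fin n) (S : Set (GFV n)) : Prop :=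
  Sum.inr (Sum.inr b) ∈ S ∧ ∀ u ∈ S, u = Sum.inr (Sum.inr b) ∨ ∃ a, u = Sum.inl (a, b)

/-- the single vertex `x (a, b)` -/
def XS (a b : Fin n) (S : Set (GFV n)) : Prop := S = {Sum.inl (a, b)}

theorem tsymm {S S' : Set (GFV n)} (h : ¬ Tch (GF2 n) S S') : ¬ Tch (GF2 n) S' S :=
  fun h' => h h'.symm

theorem f1 {S S' : Set (GFV n)} (hd : Disjoint S S') (h : Big S) (h' : Big S') :
    Tch (GF2 n) S S' := by
  obtain ⟨k, hk⟩ := h
  obtain ⟨k', hk'⟩ := h'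
  refine ⟨_, hk, _, hk', ?_⟩
  show k ≠ k'
  rintro rfl
  exact Set.disjoint_left.mp hd hk hk'

theorem f2 {S S' : Set (GFV n)} {b : Fin n} (h : ZS b S) (h' : Big S') : Tch (GF2 n) S S' := by
  obtain ⟨k, hk⟩ := h'
  exact ⟨_, h.1, _, hk, trivial⟩

theorem f3 {S S' : Set (GFV n)} {a b : Fin n} (h : XS a b S) (hn : ¬ Tch (GF2 n) S S') {k : Fin n}
    (hk : Sum.inr (Sum.inl k) ∈ S') : k = a := by
  by_contra hka
  exact hn ⟨Sum.inl (a, b), by rw [h]; rfl, _, hk, hka⟩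

theorem f4 {S S' : Set (GFV n)} {a b a' b' : Fin n} (h : XS a b S) (h' : XS a' b' S') :
    ¬ Tch (GF2 n) S S' := by
  rintro ⟨u, hu, v, hv, huv⟩
  rw [h, Set.mem_singleton_iff] at hu
  rw [h', Set.mem_singleton_iff] at hv
  subst hu hv
  exact huv

theorem f5 {S S' : Set (GFV n)} {b b' : Fin n} (hd : Disjoint S S') (h : ZS b S)
    (h' : ZS b' S') : ¬ Tch (GF2 n) S S' := by
  have hb : b ≠ b' := by
    rintro rfl
    exact Set.disjoint_left.mp hd h.1 h'.1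
  rintro ⟨u, hu, v, hv, huv⟩
  rcases h.2 u hu with rfl | ⟨a, rfl⟩ <;> rcases h'.2 v hv with rfl | ⟨a', rfl⟩
  · exact huv
  · exact hb huv
  · exact hb (Eq.symm huv)
  · exact huv

theorem f6 {S S' : Set (GFV n)} {a' b b' : Fin n} (h : ZS b S) (h' : XS a' b' S')
    (ht : Tch (GF2 n) S S') : b = b' := by
  obtain ⟨u, hu, v, hv, huv⟩ := ht
  rw [h', Set.mem_singleton_iff] at hv
  subst hv
  rcases h.2 u hu with rfl | ⟨a, rfl⟩
  · exact huv
  · exact absurd huv (fun h => h)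

theorem cls {S : Set (GFV n)} (hS : Conn (GF2 n) S) (hb : ¬ Big S) :
    (∃ b, ZS b S) ∨ ∃ a b, XS a b S := by
  by_cases hz : ∃ l, Sum.inr (Sum.inr l) ∈ S
  · left
    obtain ⟨l, hl⟩ := hz
    refine ⟨l, hl, ?_⟩
    have key := hS.eq_of_nb
      (C := {u | u ∈ S ∧ (u = Sum.inr (Sum.inr l) ∨ ∃ a, u = Sum.inl (a, l))})
      (fun u hu => hu.1) ⟨_, hl, Or.inl rfl⟩ (by
        rintro v hv ⟨hvn, u, hu, huv⟩
        apply hvn
        refine ⟨hv, ?_⟩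
        rcases hu.2 with rfl | ⟨a, rfl⟩
        · rcases v with ⟨c, d⟩ | k | k
          · right
            have hld : l = d := huv
            exact ⟨c, by rw [hld]⟩
          · exact absurd ⟨k, hv⟩ hb
          · exact absurd huv (fun h => h)
        · rcases v with ⟨c, d⟩ | k | k
          · exact absurd huv (fun h => h)
          · exact absurd ⟨k, hv⟩ hb
          · left
            have hkl : k = l := huv
            rw [hkl])
    intro u hu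
    rw [← key] at hu
    exact hu.2
  · right
    have hX : ∀ u ∈ S, ∃ p, u = Sum.inl p := by
      intro u hu
      rcases u with p | k | k
      · exact ⟨p, rfl⟩
      · exact absurd ⟨k, hu⟩ hb
      · exact absurd ⟨k, hu⟩ hz
    obtain ⟨u, hu⟩ := hS.1
    obtain ⟨⟨a, b⟩, rfl⟩ := hX u hu
    refine ⟨a, b, ?_⟩
    by_contra hne
    obtain ⟨v, hv, w, hw, hvw⟩ := hS.2 {Sum.inl (a, b)} (Set.singleton_subset_iff.mpr hu)
      ⟨_, rfl⟩ (fun h' => hne h'.symm)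
    rw [Set.mem_singleton_iff] at hv
    subst hv
    obtain ⟨q, rfl⟩ := hX w hw.1
    exact hvw

/-- a small set adjacent to `x (a, b)` is a star with centre `z b` -/
theorem adjX {S S' : Set (GFV n)} {a b : Fin n} (hS : Conn (GF2 n) S) (hb : ¬ Big S)
    (h' : XS a b S') (ht : Tch (GF2 n) S S') : ZS b S := by
  rcases cls hS hb with ⟨b', h⟩ | ⟨a', b', h⟩
  · rw [← f6 h h' ht]
    exact h
  · exact absurd ht (f4 h h')

/-- a small set adjacent to a star with centre `z b` is some `x (a, b)` -/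
theorem adjZ {S S' : Set (GFV n)} {b : Fin n} (hS : Conn (GF2 n) S) (hb : ¬ Big S)
    (hd : Disjoint S S') (h' : ZS b S') (ht : Tch (GF2 n) S S') : ∃ a, XS a b S := by
  rcases cls hS hb with ⟨b', h⟩ | ⟨a', b', h⟩
  · exact absurd ht (f5 hd h h')
  · refine ⟨a', ?_⟩
    rw [f6 h' h ht.symm]
    exact h

/-- two disjoint sets are not both stars with the same centre -/
theorem noZZ {S S' : Set (GFV n)} {b : Fin n} (hd : Disjoint S S') (h : ZS b S) (h' : ZS b S') :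
    False := Set.disjoint_left.mp hd h.1 h'.1

/-- two adjacent small sets -/
theorem small2 {S S' : Set (GFV n)} (hS : Conn (GF2 n) S) (hS' : Conn (GF2 n) S')
    (hd : Disjoint S S') (hb : ¬ Big S) (hb' : ¬ Big S') (ht : Tch (GF2 n) S S') :
    ∃ a b, (ZS b S ∧ XS a b S') ∨ (XS a b S ∧ ZS b S') := by
  rcases cls hS hb with ⟨b, h⟩ | ⟨a, b, h⟩
  · obtain ⟨a, ha⟩ := adjZ hS' hb' hd.symm h ht.symm
    exact ⟨a, b, Or.inl ⟨h, ha⟩⟩
  · exact ⟨a, b, Or.inr ⟨h, adjX hS' hb' h ht.symm⟩⟩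

/-- the configuration `S ~ {x (a, b)} ~ S'`, `S ≁ S'`, `S` a star, is impossible -/
theorem noP3 {S S' T : Set (GFV n)} {a b : Fin n} (hS' : Conn (GF2 n) S') (hd : Disjoint S S')
    (h : ZS b S) (hT : XS a b T) (hn : ¬ Tch (GF2 n) S S') (ht : Tch (GF2 n) T S') : False := by
  have hb : ¬ Big S' := fun hb => hn (f2 h hb)
  exact noZZ hd h (adjX hS' hb hT ht.symm)

/-- the four-cycle `S T S' T'` -/
theorem c4aux {S T S' T' : Set (GFV n)} (cS : Conn (GF2 n) S) (cT : Conn (GF2 n) T)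
    (cS' : Conn (GF2 n) S') (cT' : Conn (GF2 n) T') (dST : Disjoint S T) (dSS : Disjoint S S')
    (dTT : Disjoint T T') (bS : ¬ Big S) (bT : ¬ Big T) (hST : Tch (GF2 n) S T)
    (hTS : Tch (GF2 n) T S') (hST' : Tch (GF2 n) S T') (nS : ¬ Tch (GF2 n) S S')
    (nT : ¬ Tch (GF2 n) T T') : False := by
  obtain ⟨a, b, ⟨h, h'⟩ | ⟨h, h'⟩⟩ := small2 cS cT dST bS bT hST
  · exact noP3 cS' dSS h h' nS hTS
  · exact noP3 cT' dTT h' h nT hST'

theorem noC4 (n : ℕ) : ¬ IsIndMinor cyc4 (GF2 n) := by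
  rw [← ims_univ_iff]
  rintro ⟨B, -, hc, hd, ht⟩
  have t01 : Tch (GF2 n) (B 0) (B 1) := (ht 0 1 (by decide)).mp (show (0 + 1) % 2 = 1 by omega)
  have t12 : Tch (GF2 n) (B 1) (B 2) := (ht 1 2 (by decide)).mp (show (1 + 2) % 2 = 1 by omega)
  have t23 : Tch (GF2 n) (B 2) (B 3) := (ht 2 3 (by decide)).mp (show (2 + 3) % 2 = 1 by omega)
  have t03 : Tch (GF2 n) (B 0) (B 3) := (ht 0 3 (by decide)).mp (show (0 + 3) % 2 = 1 by omega)
  have n02 : ¬ Tch (GF2 n) (B 0) (B 2) := by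
    rw [← ht 0 2 (by decide)]
    show ¬ ((0 + 2) % 2 = 1)
    omega
  have n13 : ¬ Tch (GF2 n) (B 1) (B 3) := by
    rw [← ht 1 3 (by decide)]
    show ¬ ((1 + 3) % 2 = 1)
    omega
  have h02 : ¬ Big (B 0) ∨ ¬ Big (B 2) := by
    by_contra hcon
    push Not at hcon
    exact n02 (f1 (hd _ _ (by decide)) hcon.1 hcon.2)
  have h13 : ¬ Big (B 1) ∨ ¬ Big (B 3) := by
    by_contra hcon
    push Not at hcon
    exact n13 (f1 (hd _ _ (by decide)) hcon.1 hcon.2)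
  rcases h02 with h | h <;> rcases h13 with h' | h'
  · exact c4aux (hc 0) (hc 1) (hc 2) (hc 3) (hd _ _ (by decide)) (hd _ _ (by decide))
      (hd _ _ (by decide)) h h' t01 t12 t03 n02 n13
  · exact c4aux (hc 0) (hc 3) (hc 2) (hc 1) (hd _ _ (by decide)) (hd _ _ (by decide))
      (hd _ _ (by decide)) h h' t03 t23.symm t01 n02 (tsymm n13)
  · exact c4aux (hc 2) (hc 1) (hc 0) (hc 3) (hd _ _ (by decide)) (hd _ _ (by decide))
      (hd _ _ (by decide)) h h' t12.symm t01.symm t23 (tsymm n02) n13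
  · exact c4aux (hc 2) (hc 3) (hc 0) (hc 1) (hd _ _ (by decide)) (hd _ _ (by decide))
      (hd _ _ (by decide)) h h' t23 t03.symm t12.symm (tsymm n02) (tsymm n13)

/-- a set not adjacent to a big set -/
theorem nbig {S S' : Set (GFV n)} (hS : Conn (GF2 n) S) (hd : Disjoint S S') (hb : Big S')
    (hn : ¬ Tch (GF2 n) S S') : ∃ a b, XS a b S := by
  rcases cls hS (fun h => hn (f1 hd h hb)) with ⟨b, h⟩ | h
  · exact absurd (f2 h hb) hn
  · exact h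

/-- three pairwise adjacent sets are not all small -/
theorem noTri {S S' S'' : Set (GFV n)} (hS : Conn (GF2 n) S) (hS' : Conn (GF2 n) S')
    (hS'' : Conn (GF2 n) S'') (hd : Disjoint S S') (hd' : Disjoint S' S'') (hd'' : Disjoint S S'')
    (b : ¬ Big S) (b' : ¬ Big S') (b'' : ¬ Big S'') (t : Tch (GF2 n) S S')
    (t' : Tch (GF2 n) S' S'') (t'' : Tch (GF2 n) S S'') : False := by
  obtain ⟨a, c, ⟨h, h'⟩ | ⟨h, h'⟩⟩ := small2 hS hS' hd b b' t
  · exact noZZ hd'' h (adjX hS'' b'' h' t'.symm)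
  · exact noZZ hd' h' (adjX hS'' b'' h t''.symm)

/-- Case 3a -/
theorem case3a {T0 T2 U V V' : Set (GFV n)} (c0 : Conn (GF2 n) T0) (c2 : Conn (GF2 n) T2)
    (cV : Conn (GF2 n) V) (cV' : Conn (GF2 n) V') (d02 : Disjoint T0 T2)
    (d2V : Disjoint T2 V) (d2V' : Disjoint T2 V')
    (dVV : Disjoint V V') (t02 : Tch (GF2 n) T0 T2) (t0U : Tch (GF2 n) T0 U)
    (t2V : Tch (GF2 n) T2 V) (t2V' : Tch (GF2 n) T2 V')
    (n0V : ¬ Tch (GF2 n) V T0) (n0V' : ¬ Tch (GF2 n) V' T0) (b2 : ¬ Big T2) (bV : ¬ Big V)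
    (bV' : ¬ Big V') {a b : Fin n} (hU : XS a b U) : False := by
  obtain ⟨c, d, ⟨h, h'⟩ | ⟨h, h'⟩⟩ := small2 c2 cV d2V b2 bV t2V
  · obtain ⟨c', hc'⟩ := adjZ cV' bV' d2V'.symm h t2V'.symm
    have b0 : Big T0 := by
      by_contra b0
      obtain ⟨a', ha'⟩ := adjZ c0 b0 d02 h t02
      exact f4 ha' hU t0U
    obtain ⟨k, hk⟩ := b0
    have e1 := f3 h' n0V hk
    have e2 := f3 hc' n0V' hk
    subst e1 e2
    have e3 : V = V' := h'.trans hc'.symm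
    subst e3
    obtain ⟨v, hv⟩ := cV.1
    exact Set.disjoint_left.mp dVV hv hv
  · exact noZZ dVV h' (adjX cV' bV' h t2V'.symm)

/-- Case 3b -/
theorem case3b {T0 T2 U V V' : Set (GFV n)} (c0 : Conn (GF2 n) T0) (c2 : Conn (GF2 n) T2)
    (cV' : Conn (GF2 n) V') (d02 : Disjoint T0 T2) (d0V : Disjoint T0 V)
    (d0V' : Disjoint T0 V') (t02 : Tch (GF2 n) T0 T2) (t0U : Tch (GF2 n) T0 U)
    (t2V' : Tch (GF2 n) T2 V')
    (n0V : ¬ Tch (GF2 n) T0 V) (b2 : ¬ Big T2) (bV : Big V)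
    (bV' : ¬ Big V') {a b : Fin n} (hU : XS a b U) : False := by
  have b0 : ¬ Big T0 := fun h => n0V (f1 d0V h bV)
  have z0 := adjX c0 b0 hU t0U
  obtain ⟨c, hc⟩ := adjZ c2 b2 d02.symm z0 t02.symm
  exact noZZ d0V' z0 (adjX cV' bV' hc t2V'.symm)

/-- Case 3 -/
theorem case3 {T0 T1 T2 U V V' : Set (GFV n)} (c0 : Conn (GF2 n) T0) (c2 : Conn (GF2 n) T2)
    (cU : Conn (GF2 n) U) (cV : Conn (GF2 n) V) (cV' : Conn (GF2 n) V')
    (d02 : Disjoint T0 T2) (d1U : Disjoint U T1)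
    (d0V : Disjoint T0 V) (d0V' : Disjoint T0 V') (d2V : Disjoint T2 V) (d2V' : Disjoint T2 V')
    (dVV : Disjoint V V') (t02 : Tch (GF2 n) T0 T2)
    (t0U : Tch (GF2 n) T0 U) (n1U : ¬ Tch (GF2 n) U T1)
    (t2V : Tch (GF2 n) T2 V) (t2V' : Tch (GF2 n) T2 V')
    (n0V : ¬ Tch (GF2 n) T0 V) (n0V' : ¬ Tch (GF2 n) T0 V') (nVV : ¬ Tch (GF2 n) V V')
    (b1 : Big T1) (b2 : ¬ Big T2) : False := by
  obtain ⟨a, b, hU⟩ := nbig cU d1U b1 n1U
  by_cases bV : Big V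
  · have bV' : ¬ Big V' := fun h => nVV (f1 dVV bV h)
    exact case3b c0 c2 cV' d02 d0V d0V' t02 t0U t2V' n0V b2 bV bV' hU
  · by_cases bV' : Big V'
    · exact case3b c0 c2 cV d02 d0V' d0V t02 t0U t2V n0V' b2 bV' bV hU
    · exact case3a c0 c2 cV cV' d02 d2V d2V' dVV t02 t0U t2V t2V' (tsymm n0V) (tsymm n0V') b2 bV
        bV' hU

theorem noK3 (n : ℕ) : ¬ IsIndMinor (KA 3 3 ![{0}, {1, 2}, {1, 2}]) (GF2 n) := by
  rw [← ims_univ_iff]
  rintro ⟨B, -, hc, hd, ht⟩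
  set N : Fin 3 → Set (Fin 3) := ![{0}, {1, 2}, {1, 2}] with hN
  have tt : ∀ i j : Fin 3, i ≠ j → Tch (GF2 n) (B (Sum.inl i)) (B (Sum.inl j)) := by
    intro i j hij
    exact (ht _ _ (fun h => hij (Sum.inl_injective h))).mp hij
  have tu : ∀ i q : Fin 3, i ∈ N q → Tch (GF2 n) (B (Sum.inl i)) (B (Sum.inr q)) := by
    intro i q hiq
    exact (ht _ _ Sum.inl_ne_inr).mp hiq
  have nu : ∀ i q : Fin 3, i ∉ N q → ¬ Tch (GF2 n) (B (Sum.inl i)) (B (Sum.inr q)) := by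
    intro i q hiq h
    exact hiq ((ht _ _ Sum.inl_ne_inr).mpr h)
  have nn : ∀ q q' : Fin 3, q ≠ q' → ¬ Tch (GF2 n) (B (Sum.inr q)) (B (Sum.inr q')) := by
    intro q q' hq h
    exact (ht _ _ (fun h => hq (Sum.inr_injective h))).mpr h
  have dl : ∀ i j : Fin 3, i ≠ j → Disjoint (B (Sum.inl i)) (B (Sum.inl j)) :=
    fun i j hij => hd _ _ (fun h => hij (Sum.inl_injective h))
  have dr : ∀ i j : Fin 3, i ≠ j → Disjoint (B (Sum.inr i)) (B (Sum.inr j)) :=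
    fun i j hij => hd _ _ (fun h => hij (Sum.inr_injective h))
  have dm : ∀ i j : Fin 3, Disjoint (B (Sum.inl i)) (B (Sum.inr j)) :=
    fun i j => hd _ _ Sum.inl_ne_inr
  have m00 : (0 : Fin 3) ∈ N 0 := by simp [hN]
  have m10 : (1 : Fin 3) ∉ N 0 := by simp [hN]
  have m20 : (2 : Fin 3) ∉ N 0 := by simp [hN]
  have m01 : (0 : Fin 3) ∉ N 1 := by simp [hN]
  have m11 : (1 : Fin 3) ∈ N 1 := by simp [hN]
  have m21 : (2 : Fin 3) ∈ N 1 := by simp [hN]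
  have m02 : (0 : Fin 3) ∉ N 2 := by simp [hN]
  have m12 : (1 : Fin 3) ∈ N 2 := by simp [hN]
  have m22 : (2 : Fin 3) ∈ N 2 := by simp [hN]
  by_cases b1 : Big (B (Sum.inl 1))
  · by_cases b2 : Big (B (Sum.inl 2))
    · obtain ⟨a, b, hU⟩ := nbig (hc (Sum.inr 0)) (dm 1 0).symm b1 (tsymm (nu 1 0 m10))
      obtain ⟨k, hk⟩ := b1
      obtain ⟨k', hk'⟩ := b2
      have e1 := f3 hU (tsymm (nu 1 0 m10)) hk
      have e2 := f3 hU (tsymm (nu 2 0 m20)) hk'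
      subst e1 e2
      exact Set.disjoint_left.mp (dl 1 2 (by decide)) hk hk'
    · exact case3 (T0 := B (Sum.inl 0)) (T1 := B (Sum.inl 1)) (T2 := B (Sum.inl 2))
        (U := B (Sum.inr 0)) (V := B (Sum.inr 1)) (V' := B (Sum.inr 2)) (hc _) (hc _) (hc _)
        (hc _) (hc _) (dl 0 2 (by decide)) (dm 1 0).symm (dm 0 1) (dm 0 2) (dm 2 1) (dm 2 2)
        (dr 1 2 (by decide)) (tt 0 2 (by decide)) (tu 0 0 m00) (tsymm (nu 1 0 m10)) (tu 2 1 m21)
        (tu 2 2 m22) (nu 0 1 m01) (nu 0 2 m02) (nn 1 2 (by decide)) b1 b2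
  · by_cases b2 : Big (B (Sum.inl 2))
    · exact case3 (T0 := B (Sum.inl 0)) (T1 := B (Sum.inl 2)) (T2 := B (Sum.inl 1))
        (U := B (Sum.inr 0)) (V := B (Sum.inr 1)) (V' := B (Sum.inr 2)) (hc _) (hc _) (hc _)
        (hc _) (hc _) (dl 0 1 (by decide)) (dm 2 0).symm (dm 0 1) (dm 0 2) (dm 1 1) (dm 1 2)
        (dr 1 2 (by decide)) (tt 0 1 (by decide)) (tu 0 0 m00) (tsymm (nu 2 0 m20)) (tu 1 1 m11)
        (tu 1 2 m12) (nu 0 1 m01) (nu 0 2 m02) (nn 1 2 (by decide)) b2 b1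
    · have bV : ∀ q : Fin 3, 1 ∈ N q → 2 ∈ N q → Big (B (Sum.inr q)) := by
        intro q h1 h2
        by_contra hb
        exact noTri (hc (Sum.inl 1)) (hc (Sum.inl 2)) (hc (Sum.inr q)) (dl 1 2 (by decide))
          (dm 2 q) (dm 1 q) b1 b2 hb (tt 1 2 (by decide)) (tu 2 q h2) (tu 1 q h1)
      exact nn 1 2 (by decide) (f1 (dr 1 2 (by decide)) (bV 1 m11 m21) (bV 2 m12 m22))

end G2Aux

open G2Aux in
theorem g2Excl : S_G2Excl := fun n => ⟨noC4 n, noK3 n⟩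

end Pool.Agent.MPd439b2
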