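import Pool.Agent.Lib.MP_d439b2_co.B.SpecG
import Pool.Agent.Lib.MP_d439b2_co.Basic

/-!
# MP_d439b2_co, Spec G: G34Excl, excluded induced minors of the split graphs `GF3 n`, `GF4 n`
-/

set_option autoImplicit false

namespace Pool.Agent.MPd439b2

namespace G34Aux

variable {W V : Type} {H : SimpleGraph W} {G : SimpleGraph V}

/-- `C` is a clique, its complement is independent -/
def Split (G : SimpleGraph V) (C : Set V) : Prop :=
  (∀ a ∈ C, ∀ b ∈ C, a ≠ b → G.Adj a b) ∧ ∀ a ∉ C, ∀ b ∉ C, ¬ G.Adj a b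

theorem big_adj {C : Set V} {B : W → Set V} (hC : Split G C)
    (hd : ∀ w w', w ≠ w' → Disjoint (B w) (B w'))
    (ht : ∀ w w', w ≠ w' → (H.Adj w w' ↔ Tch G (B w) (B w'))) {w w' : W} (hw : w ≠ w')
    (h : ∃ u ∈ B w, u ∈ C) (h' : ∃ u ∈ B w', u ∈ C) : H.Adj w w' := by
  obtain ⟨u, hu, huC⟩ := h
  obtain ⟨u', hu', huC'⟩ := h'
  rw [ht w w' hw]
  refine ⟨u, hu, u', hu', hC.1 u huC u' huC' ?_⟩
  rintro rfl
  exact Set.disjoint_left.mp (hd w w' hw) hu hu'

theorem small_nadj {C : Set V} {B : W → Set V} (hC : Split G C)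
    (ht : ∀ w w', w ≠ w' → (H.Adj w w' ↔ Tch G (B w) (B w'))) {w w' : W} (hw : w ≠ w')
    (h : ¬ ∃ u ∈ B w, u ∈ C) (h' : ¬ ∃ u ∈ B w', u ∈ C) : ¬ H.Adj w w' := by
  rw [ht w w' hw]
  rintro ⟨u, hu, u', hu', huu⟩
  push Not at h h'
  exact hC.2 u (h u hu) u' (h' u' hu') huu

theorem small_single {C : Set V} (hC : Split G C) {S : Set V} (hS : Conn G S)
    (h : ¬ ∃ u ∈ S, u ∈ C) : ∃ p, p ∉ C ∧ S = {p} := by
  push Not at h
  obtain ⟨p, hp⟩ := hS.1
  refine ⟨p, h p hp, ?_⟩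
  by_contra hne
  obtain ⟨b, hb, a, ha, hab⟩ := hS.2 {p} (Set.singleton_subset_iff.mpr hp) ⟨p, rfl⟩
    (fun h' => hne h'.symm)
  rw [Set.mem_singleton_iff] at hb
  subst hb
  exact hC.2 b (h b hp) a (h a ha.1) hab

/-- no four-cycle in a split graph -/
theorem noC4 {C : Set V} (hC : Split G C) : ¬ IsIndMinor cyc4 G := by
  rw [← ims_univ_iff]
  rintro ⟨B, -, hc, hd, ht⟩
  have h02 : ¬ (∃ u ∈ B 0, u ∈ C) ∨ ¬ ∃ u ∈ B 2, u ∈ C := by
    by_contra hcon
    push Not at hcon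
    have := big_adj (H := cyc4) hC hd ht (show (0 : Fin 4) ≠ 2 by decide) hcon.1 hcon.2
    revert this
    show ¬ ((0 + 2) % 2 = 1)
    omega
  have h13 : ¬ (∃ u ∈ B 1, u ∈ C) ∨ ¬ ∃ u ∈ B 3, u ∈ C := by
    by_contra hcon
    push Not at hcon
    have := big_adj (H := cyc4) hC hd ht (show (1 : Fin 4) ≠ 3 by decide) hcon.1 hcon.2
    revert this
    show ¬ ((1 + 3) % 2 = 1)
    omega
  rcases h02 with h | h <;> rcases h13 with h' | h'
  · exact small_nadj (H := cyc4) hC ht (by decide) h h' (show (0 + 1) % 2 = 1 by omega)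
  · exact small_nadj (H := cyc4) hC ht (by decide) h h' (show (0 + 3) % 2 = 1 by omega)
  · exact small_nadj (H := cyc4) hC ht (by decide) h h' (show (2 + 1) % 2 = 1 by omega)
  · exact small_nadj (H := cyc4) hC ht (by decide) h h' (show (2 + 3) % 2 = 1 by omega)

theorem split3 (n : ℕ) : Split (GF3 n) (Set.range Sum.inr) := by
  constructor
  · rintro _ ⟨a, rfl⟩ _ ⟨b, rfl⟩ hab
    rcases a with a | a <;> rcases b with b | b
    · exact fun h => hab (by rw [h])
    · exact trivial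
    · exact trivial
    · exact fun h => hab (by rw [h])
  · intro a ha b hb
    rcases a with a | a
    · rcases b with b | b
      · exact fun h => h
      · exact absurd ⟨b, rfl⟩ hb
    · exact absurd ⟨a, rfl⟩ ha

theorem split4 (n : ℕ) : Split (GF4 n) (Set.range Sum.inl) := by
  constructor
  · rintro _ ⟨a, rfl⟩ _ ⟨b, rfl⟩ hab
    exact fun h => hab (by rw [h])
  · intro a ha b hb
    rcases a with a | a
    · exact absurd ⟨a, rfl⟩ ha
    · rcases b with b | b
      · exact absurd ⟨b, rfl⟩ hb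
      · rcases a with a | a <;> rcases b with b | b <;> exact fun h => h

/-- `K_5` with a pendant vertex in `GF3 n` -/
theorem noK5 (n : ℕ) : ¬ IsIndMinor (KA 5 1 ![{0}]) (GF3 n) := by
  rw [← ims_univ_iff]
  rintro ⟨B, -, hc, hd, ht⟩
  have hS := split3 n
  -- at most one `t_i` is not big
  have h1 : ∀ i j : Fin 5, i ≠ j →
      (∃ u ∈ B (Sum.inl i), u ∈ Set.range Sum.inr) ∨ ∃ u ∈ B (Sum.inl j), u ∈ Set.range Sum.inr := by
    intro i j hij
    by_contra hcon
    rw [not_or] at hcon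
    exact small_nadj (H := KA 5 1 ![{0}]) hS ht (fun h => hij (Sum.inl_injective h)) hcon.1 hcon.2
      (show i ≠ j from hij)
  have hua : ∀ i : Fin 5, i ≠ 0 → ¬ (KA 5 1 ![{0}]).Adj (Sum.inl i) (Sum.inr 0) := by
    intro i hi h
    exact hi h
  -- `u` is not big
  have hu : ¬ ∃ u ∈ B (Sum.inr 0), u ∈ Set.range Sum.inr := by
    intro hu
    rcases h1 1 2 (by decide) with h | h
    · exact hua 1 (by decide) (big_adj (H := KA 5 1 ![{0}]) hS hd ht Sum.inl_ne_inr h hu)
    · exact hua 2 (by decide) (big_adj (H := KA 5 1 ![{0}]) hS hd ht Sum.inl_ne_inr h hu)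
  obtain ⟨p, hp, hpB⟩ := small_single hS (hc (Sum.inr 0)) hu
  obtain ⟨a, b⟩ | p := p
  swap
  · exact hp ⟨p, rfl⟩
  -- big sets
  have h2 : ∀ i : Fin 5, i ≠ 0 → (∃ u ∈ B (Sum.inl i), u ∈ Set.range Sum.inr) →
      Sum.inr (Sum.inl a) ∈ B (Sum.inl i) ∨ Sum.inr (Sum.inr b) ∈ B (Sum.inl i) := by
    rintro i hi ⟨_, hu, k, rfl⟩
    have hn : ¬ Tch (GF3 n) (B (Sum.inl i)) (B (Sum.inr 0)) := by
      rw [← ht _ _ Sum.inl_ne_inr]
      exact hua i hi
    have hn' : ¬ (GF3 n).Adj (Sum.inr k) (Sum.inl (a, b)) := by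
      intro h
      exact hn ⟨_, hu, _, by rw [hpB]; rfl, h⟩
    rcases k with k | k
    · left
      have : k = a := by
        by_contra hk
        exact hn' hk
      rw [← this]
      exact hu
    · right
      have : k = b := by
        by_contra hk
        exact hn' hk
      rw [← this]
      exact hu
  have h3 : ∀ i j : Fin 5, i ≠ j → ∀ v, v ∈ B (Sum.inl i) → v ∉ B (Sum.inl j) := by
    intro i j hij v hv hv'
    exact Set.disjoint_left.mp (hd _ _ (fun h => hij (Sum.inl_injective h))) hv hv'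
  -- three big sets
  obtain ⟨i, j, k, hi, hj, hk, hij, hik, hjk, bi, bj, bk⟩ : ∃ i j k : Fin 5, i ≠ 0 ∧ j ≠ 0 ∧ k ≠ 0 ∧
      i ≠ j ∧ i ≠ k ∧ j ≠ k ∧ (∃ u ∈ B (Sum.inl i), u ∈ Set.range Sum.inr) ∧
      (∃ u ∈ B (Sum.inl j), u ∈ Set.range Sum.inr) ∧
      ∃ u ∈ B (Sum.inl k), u ∈ Set.range Sum.inr := by
    by_cases b1 : ∃ u ∈ B (Sum.inl 1), u ∈ Set.range Sum.inr
    · by_cases b2 : ∃ u ∈ B (Sum.inl 2), u ∈ Set.range Sum.inr
      · rcases h1 3 4 (by decide) with h | h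
        · exact ⟨1, 2, 3, by decide, by decide, by decide, by decide, by decide, by decide, b1, b2, h⟩
        · exact ⟨1, 2, 4, by decide, by decide, by decide, by decide, by decide, by decide, b1, b2, h⟩
      · have b3 := (h1 2 3 (by decide)).resolve_left b2
        have b4 := (h1 2 4 (by decide)).resolve_left b2
        exact ⟨1, 3, 4, by decide, by decide, by decide, by decide, by decide, by decide, b1, b3, b4⟩
    · have b2 := (h1 1 2 (by decide)).resolve_left b1
      have b3 := (h1 1 3 (by decide)).resolve_left b1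
      have b4 := (h1 1 4 (by decide)).resolve_left b1
      exact ⟨2, 3, 4, by decide, by decide, by decide, by decide, by decide, by decide, b2, b3, b4⟩
  rcases h2 i hi bi with h | h <;> rcases h2 j hj bj with h' | h' <;>
    rcases h2 k hk bk with h'' | h''
  · exact h3 i j hij _ h h'
  · exact h3 i j hij _ h h'
  · exact h3 i k hik _ h h''
  · exact h3 j k hjk _ h' h''
  · exact h3 j k hjk _ h' h''
  · exact h3 i k hik _ h h''
  · exact h3 i j hij _ h h'
  · exact h3 i j hij _ h h'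

/-- the `3`-sun in `GF4 n` -/
theorem noSun (n : ℕ) : ¬ IsIndMinor (KA 3 3 ![{0, 1}, {0, 2}, {1, 2}]) (GF4 n) := by
  rw [← ims_univ_iff]
  rintro ⟨B, -, hc, hd, ht⟩
  have hS := split4 n
  set N : Fin 3 → Set (Fin 3) := ![{0, 1}, {0, 2}, {1, 2}] with hN
  have hadj : ∀ i q, (KA 3 3 N).Adj (Sum.inl i) (Sum.inr q) ↔ i ∈ N q := fun i q => Iff.rfl
  have hadj' : ∀ i q, (KA 3 3 N).Adj (Sum.inr q) (Sum.inl i) ↔ i ∈ N q := fun i q => Iff.rfl
  have hnn : ∀ q q', ¬ (KA 3 3 N).Adj (Sum.inr q) (Sum.inr q') := fun q q' h => h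
  -- every `i` is in two sets `N q`, and not in one
  have hN2 : ∀ i : Fin 3, ∃ q q', q ≠ q' ∧ i ∈ N q ∧ i ∈ N q' := by
    intro i
    fin_cases i
    · exact ⟨0, 1, by decide, by simp [hN], by simp [hN]⟩
    · exact ⟨0, 2, by decide, by simp [hN], by simp [hN]⟩
    · exact ⟨1, 2, by decide, by simp [hN], by simp [hN]⟩
  have hN1 : ∀ q : Fin 3, ∃ i, i ∉ N q := by
    intro q
    fin_cases q
    · exact ⟨2, by simp [hN]⟩
    · exact ⟨1, by simp [hN]⟩
    · exact ⟨0, by simp [hN]⟩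
  have hNd : ∀ q q' : Fin 3, q ≠ q' → ∃ i, i ∈ N q' ∧ i ∉ N q := by
    intro q q' hq
    fin_cases q
    · refine ⟨2, ?_, by simp [hN]⟩
      fin_cases q'
      · exact absurd rfl hq
      · simp [hN]
      · simp [hN]
    · refine ⟨1, ?_, by simp [hN]⟩
      fin_cases q'
      · simp [hN]
      · exact absurd rfl hq
      · simp [hN]
    · refine ⟨0, ?_, by simp [hN]⟩
      fin_cases q'
      · simp [hN]
      · simp [hN]
      · exact absurd rfl hq
  -- the triangle is big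
  have ht1 : ∀ i : Fin 3, ∃ u ∈ B (Sum.inl i), u ∈ Set.range Sum.inl := by
    intro i
    by_contra hi
    obtain ⟨q, q', hqq, hq, hq'⟩ := hN2 i
    have b : ∀ q, i ∈ N q → ∃ u ∈ B (Sum.inr q), u ∈ Set.range Sum.inl := by
      intro q hq
      by_contra hb
      exact small_nadj (H := KA 3 3 N) hS ht Sum.inl_ne_inr hi hb ((hadj i q).mpr hq)
    exact hnn q q' (big_adj (H := KA 3 3 N) hS hd ht (fun h => hqq (Sum.inr_injective h)) (b q hq)
      (b q' hq'))
  have hu1 : ∀ q : Fin 3, ¬ ∃ u ∈ B (Sum.inr q), u ∈ Set.range Sum.inl := by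
    intro q hq
    obtain ⟨i, hi⟩ := hN1 q
    exact hi ((hadj i q).mp (big_adj (H := KA 3 3 N) hS hd ht Sum.inl_ne_inr (ht1 i) hq))
  have hp : ∀ q : Fin 3, ∃ p, B (Sum.inr q) = {Sum.inr p} := by
    intro q
    obtain ⟨p, hp, hpB⟩ := small_single hS (hc (Sum.inr q)) (hu1 q)
    rcases p with p | p
    · exact absurd ⟨p, rfl⟩ hp
    · exact ⟨p, hpB⟩
  choose p hpB using hp
  -- comparable elements
  have key : ∀ q q' : Fin 3, q ≠ q' →
      (∀ x : Fin n × Fin n, (GF4 n).Adj (Sum.inl x) (Sum.inr (p q')) → (GF4 n).Adj (Sum.inl x) (Sum.inr (p q))) →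
      False := by
    intro q q' hq hcmp
    obtain ⟨i, hi, hi'⟩ := hNd q q' hq
    have h1 : Tch (GF4 n) (B (Sum.inl i)) (B (Sum.inr q')) := by
      rw [← ht _ _ Sum.inl_ne_inr]
      exact (hadj i q').mpr hi
    obtain ⟨u, hu, v, hv, huv⟩ := h1
    rw [hpB q', Set.mem_singleton_iff] at hv
    subst hv
    rcases u with x | y
    · apply hi'
      rw [← hadj i q, ht _ _ Sum.inl_ne_inr]
      exact ⟨_, hu, _, by rw [hpB q]; rfl, hcmp x huv⟩
    · revert huv
      rcases y with y | y <;> rcases p q' with z | z <;> exact fun h => h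
  have keyY : ∀ q q' : Fin 3, q ≠ q' → ∀ k k' : Fin n, p q = Sum.inl k → p q' = Sum.inl k' → False := by
    intro q q' hq k k' h h'
    rcases le_total k k' with hk | hk
    · apply key q q' hq
      intro x hx
      rw [h'] at hx
      rw [h]
      exact hk.trans hx
    · apply key q' q hq.symm
      intro x hx
      rw [h] at hx
      rw [h']
      exact hk.trans hx
  have keyZ : ∀ q q' : Fin 3, q ≠ q' → ∀ k k' : Fin n, p q = Sum.inr k → p q' = Sum.inr k' → False := by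
    intro q q' hq k k' h h'
    rcases le_total k k' with hk | hk
    · apply key q q' hq
      intro x hx
      rw [h'] at hx
      rw [h]
      exact hk.trans hx
    · apply key q' q hq.symm
      intro x hx
      rw [h] at hx
      rw [h']
      exact hk.trans hx
  rcases h0 : p 0 with k0 | k0 <;> rcases h1 : p 1 with k1 | k1 <;> rcases h2 : p 2 with k2 | k2
  · exact keyY 0 1 (by decide) _ _ h0 h1
  · exact keyY 0 1 (by decide) _ _ h0 h1
  · exact keyY 0 2 (by decide) _ _ h0 h2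
  · exact keyZ 1 2 (by decide) _ _ h1 h2
  · exact keyY 1 2 (by decide) _ _ h1 h2
  · exact keyZ 0 2 (by decide) _ _ h0 h2
  · exact keyZ 0 1 (by decide) _ _ h0 h1
  · exact keyZ 0 1 (by decide) _ _ h0 h1

end G34Aux

open G34Aux in
theorem g34Excl : S_G34Excl := fun n =>
  ⟨noC4 (split3 n), noK5 n, noC4 (split4 n), noSun n⟩

end Pool.Agent.MPd439b2
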