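import Pool.Agent.Lib.MP_d439b2_co.B.SpecG

/-!
# MP_d439b2_co, Spec G, G7 : excluded induced minors of `GF5` (helper50)
-/

set_option autoImplicit false

namespace Pool.Agent.MPd439b2

namespace G5Excl

/-- the vertices of `GF5 n` -/
abbrev VT (n : ℕ) : Type := ((Fin n × Fin n) ⊕ (Fin n × Fin n)) ⊕ (Fin n ⊕ Fin n)

/-- the pair of a vertex outside the clique -/
def ix {n : ℕ} : (Fin n × Fin n) ⊕ (Fin n × Fin n) → Fin n × Fin n
  | Sum.inl p => p
  | Sum.inr p => p

/-- the member of the clique which is not adjacent to the vertex -/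
def nn {n : ℕ} : (Fin n × Fin n) ⊕ (Fin n × Fin n) → Fin n ⊕ Fin n
  | Sum.inl p => Sum.inl p.1
  | Sum.inr p => Sum.inr p.2

theorem adj_clique {n : ℕ} {k l : Fin n ⊕ Fin n} (h : k ≠ l) :
    (GF5 n).Adj (Sum.inr k) (Sum.inr l) := by
  rcases k with k | k <;> rcases l with l | l
  · exact fun h' => h (by rw [h'])
  · exact trivial
  · exact trivial
  · exact fun h' => h (by rw [h'])

theorem adj_nn {n : ℕ} {v : (Fin n × Fin n) ⊕ (Fin n × Fin n)} {k : Fin n ⊕ Fin n} (h : k ≠ nn v) :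
    (GF5 n).Adj (Sum.inl v) (Sum.inr k) := by
  rcases v with v | v <;> rcases k with k | k
  · exact fun h' => h (by rw [h']; rfl)
  · exact trivial
  · exact trivial
  · exact fun h' => h (by rw [h']; rfl)

theorem ix_adj {n : ℕ} {v w : (Fin n × Fin n) ⊕ (Fin n × Fin n)}
    (h : (GF5 n).Adj (Sum.inl v) (Sum.inl w)) : ix v = ix w := by
  rcases v with v | v <;> rcases w with w | w
  · exact h.elim
  · exact h
  · exact h
  · exact h.elim

theorem ix_ext {n : ℕ} {v w : (Fin n × Fin n) ⊕ (Fin n × Fin n)} (h : ix v = ix w)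
    (hs : v.isLeft = w.isLeft) : v = w := by
  rcases v with v | v <;> rcases w with w | w
  · exact congrArg Sum.inl h
  · exact absurd hs (by simp)
  · exact absurd hs (by simp)
  · exact congrArg Sum.inr h

theorem main {n : ℕ} {W : Type} {H : SimpleGraph W} (h : IsIndMinor H (GF5 n)) :
    ∃ big : W → Prop, (∀ w w', w ≠ w' → big w → big w' → H.Adj w w') ∧
      (∀ w w' w'', w ≠ w' → w ≠ w'' → w' ≠ w'' → ¬ big w → big w' → big w'' →
        H.Adj w w' ∨ H.Adj w w'') ∧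
      (∀ a b c, a ≠ b → b ≠ c → a ≠ c → ¬ big a → ¬ big b → ¬ big c → H.Adj a b → H.Adj b c →
        False) := by
  obtain ⟨B, hconn, hdisj, hadj⟩ := h
  have hne : ∀ w, ∃ v, v ∈ B w := by
    intro w
    obtain ⟨x⟩ := (hconn w).nonempty
    exact ⟨x.1, x.2⟩
  have hnd : ∀ {w w' : W} {x : VT n}, x ∈ B w → x ∈ B w' → w = w' := by
    intro w w' x hx hx'
    by_contra hww
    exact Set.disjoint_left.mp (hdisj w w' hww) hx hx'
  -- the sets which are not big
  have hsmall : ∀ w, (¬ ∃ k, Sum.inr k ∈ B w) → ∀ v ∈ B w, ∃ x, v = Sum.inl x := by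
    intro w hw v hv
    rcases v with v | v
    · exact ⟨v, rfl⟩
    · exact absurd ⟨v, hv⟩ hw
  have hix : ∀ w, (¬ ∃ k, Sum.inr k ∈ B w) → ∀ x y, Sum.inl x ∈ B w → Sum.inl y ∈ B w →
      ix x = ix y := by
    intro w hw x y hx hy
    have hC : Conn (GF5 n) (B w) := (conn_iff _ _).2 (hconn w)
    by_contra hxy
    obtain ⟨b, hb, a, ha, hab⟩ := hC.2 {v ∈ B w | ∃ z, v = Sum.inl z ∧ ix z = ix x}
      (fun v hv => hv.1) ⟨Sum.inl x, hx, x, rfl, rfl⟩ (by
        intro he
        have h2 : (Sum.inl y : VT n) ∈ {v ∈ B w | ∃ z, v = Sum.inl z ∧ ix z = ix x} := by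
          rw [he]
          exact hy
        obtain ⟨-, z, hz, hz2⟩ := h2
        rw [Sum.inl.inj hz] at hxy
        exact hxy hz2.symm)
    obtain ⟨hb1, z, rfl, hz⟩ := hb
    obtain ⟨u, rfl⟩ := hsmall w hw a ha.1
    exact ha.2 ⟨ha.1, u, rfl, by rw [← ix_adj hab, hz]⟩
  refine ⟨fun w => ∃ k, Sum.inr k ∈ B w, ?_, ?_, ?_⟩
  · rintro w w' hww ⟨k, hk⟩ ⟨l, hl⟩
    refine (hadj w w' hww).2 ⟨_, hk, _, hl, adj_clique ?_⟩
    rintro rfl
    exact hww (hnd hk hl)
  · rintro w w' w'' h1 h2 h3 hw ⟨k, hk⟩ ⟨l, hl⟩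
    obtain ⟨v, hv⟩ := hne w
    obtain ⟨x, rfl⟩ := hsmall w hw v hv
    by_contra hcon
    rw [not_or] at hcon
    have e1 : k = nn x := by
      by_contra hk2
      exact hcon.1 ((hadj w w' h1).2 ⟨_, hv, _, hk, adj_nn hk2⟩)
    have e2 : l = nn x := by
      by_contra hl2
      exact hcon.2 ((hadj w w'' h2).2 ⟨_, hv, _, hl, adj_nn hl2⟩)
    rw [e1] at hk
    rw [e2] at hl
    exact h3 (hnd hk hl)
  · intro a b c hab hbc hac ha hb hc h1 h2
    obtain ⟨va, hva, vb, hvb, h3⟩ := (hadj a b hab).1 h1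
    obtain ⟨vb', hvb', vc, hvc, h4⟩ := (hadj b c hbc).1 h2
    obtain ⟨xa, rfl⟩ := hsmall a ha va hva
    obtain ⟨xb, rfl⟩ := hsmall b hb vb hvb
    obtain ⟨xb', rfl⟩ := hsmall b hb vb' hvb'
    obtain ⟨xc, rfl⟩ := hsmall c hc vc hvc
    have e1 := ix_adj h3
    have e2 := hix b hb _ _ hvb hvb'
    have e3 := ix_adj h4
    have n1 : xa ≠ xb := fun h => hab (hnd hva (by rw [h]; exact hvb))
    have n2 : xa ≠ xc := fun h => hac (hnd hva (by rw [h]; exact hvc))
    have n3 : xb ≠ xc := fun h => hbc (hnd hvb (by rw [h]; exact hvc))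
    have f1 : ix xa = ix xc := e1.trans (e2.trans e3)
    have f2 : ix xb = ix xc := e2.trans e3
    have g1 : xa.isLeft ≠ xb.isLeft := fun h => n1 (ix_ext e1 h)
    have g2 : xa.isLeft ≠ xc.isLeft := fun h => n2 (ix_ext f1 h)
    have g3 : xb.isLeft ≠ xc.isLeft := fun h => n3 (ix_ext f2 h)
    cases h5 : xa.isLeft <;> cases h6 : xb.isLeft <;> cases h7 : xc.isLeft <;>
      rw [h5] at g1 g2 <;> rw [h6] at g1 g3 <;> rw [h7] at g2 g3 <;>
      first
        | exact g1 rfl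
        | exact g2 rfl
        | exact g3 rfl

end G5Excl

open G5Excl in
/-- **G7.** -/
theorem g5Excl : S_G5Excl := by
  intro n
  refine ⟨fun h => ?_, fun h => ?_, fun h => ?_⟩
  · obtain ⟨big, L1, L2, L3⟩ := main h
    have t01 : (KA 3 2 ![∅, {0, 1}]).Adj (Sum.inl 0) (Sum.inl 1) := by
      show (0 : Fin 3) ≠ 1
      decide
    have t02 : (KA 3 2 ![∅, {0, 1}]).Adj (Sum.inl 0) (Sum.inl 2) := by
      show (0 : Fin 3) ≠ 2
      decide
    have t12 : (KA 3 2 ![∅, {0, 1}]).Adj (Sum.inl 1) (Sum.inl 2) := by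
      show (1 : Fin 3) ≠ 2
      decide
    have u0 : (KA 3 2 ![∅, {0, 1}]).Adj (Sum.inl 0) (Sum.inr 1) := by
      show (0 : Fin 3) ∈ ({0, 1} : Set (Fin 3))
      simp
    have u1 : (KA 3 2 ![∅, {0, 1}]).Adj (Sum.inl 1) (Sum.inr 1) := by
      show (1 : Fin 3) ∈ ({0, 1} : Set (Fin 3))
      simp
    have u2 : ¬ (KA 3 2 ![∅, {0, 1}]).Adj (Sum.inl 2) (Sum.inr 1) := by
      show ¬ ((2 : Fin 3) ∈ ({0, 1} : Set (Fin 3)))
      simp
    have e : ∀ i : Fin 3, ¬ (KA 3 2 ![∅, {0, 1}]).Adj (Sum.inr 0) (Sum.inl i) := by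
      intro i
      show ¬ (i ∈ (∅ : Set (Fin 3)))
      simp
    have eu : ¬ (KA 3 2 ![∅, {0, 1}]).Adj (Sum.inr 0) (Sum.inr 1) := fun h => h
    -- some vertex of the triangle is big, so `e` is not big
    have he : ¬ big (Sum.inr 0) := by
      intro hb
      have nb : ∀ i : Fin 3, ¬ big (Sum.inl i) := fun i hi =>
        e i (L1 _ _ (by simp) hb hi)
      exact L3 _ _ _ (by simp) (by simp) (by simp) (nb 0) (nb 1) (nb 2) t01 t12
    have key : ∀ w w' : Fin 3 ⊕ Fin 2, Sum.inr 0 ≠ w → Sum.inr 0 ≠ w' → w ≠ w' →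
        ¬ (KA 3 2 ![∅, {0, 1}]).Adj (Sum.inr 0) w → ¬ (KA 3 2 ![∅, {0, 1}]).Adj (Sum.inr 0) w' →
        big w → ¬ big w' := by
      intro w w' h1 h2 h3 h4 h5 hw hw'
      rcases L2 _ w w' h1 h2 h3 he hw hw' with h | h
      · exact h4 h
      · exact h5 h
    by_cases b0 : big (Sum.inl 0)
    · have n1 := key _ (Sum.inl 1) (by simp) (by simp) (by simp) (e 0) (e 1) b0
      have n2 := key _ (Sum.inl 2) (by simp) (by simp) (by simp) (e 0) (e 2) b0
      have n3 := key _ (Sum.inr 1) (by simp) (by simp) (by simp) (e 0) eu b0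
      exact L3 (Sum.inl 2) (Sum.inl 1) (Sum.inr 1) (by simp) (by simp) (by simp) n2 n1 n3 t12.symm u1
    · by_cases b1 : big (Sum.inl 1)
      · have n2 := key _ (Sum.inl 2) (by simp) (by simp) (by simp) (e 1) (e 2) b1
        have n3 := key _ (Sum.inr 1) (by simp) (by simp) (by simp) (e 1) eu b1
        exact L3 (Sum.inl 2) (Sum.inl 0) (Sum.inr 1) (by simp) (by simp) (by simp) n2 b0 n3 t02.symm u0
      · by_cases b2 : big (Sum.inl 2)
        · have n3 := key _ (Sum.inr 1) (by simp) (by simp) (by simp) (e 2) eu b2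
          exact L3 (Sum.inl 0) (Sum.inl 1) (Sum.inr 1) (by simp) (by simp) (by simp) b0 b1 n3 t01 u1
        · exact L3 (Sum.inl 0) (Sum.inl 1) (Sum.inl 2) (by simp) (by simp) (by simp) b0 b1 b2 t01 t12
  · obtain ⟨big, L1, L2, L3⟩ := main h
    have adj : ∀ i j : Fin 5, coP3P2.Adj i j ↔
        (i ≠ j ∧ ¬ ((i.val + 1 = j.val ∧ i.val ≠ 2) ∨ (j.val + 1 = i.val ∧ j.val ≠ 2))) :=
      fun i j => Iff.rfl
    obtain ⟨p, hp, hpb⟩ : ∃ p : Fin 5, (p = 3 ∨ p = 4) ∧ ¬ big p := by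
      by_contra hcon
      push Not at hcon
      have := L1 3 4 (by decide) (hcon 3 (Or.inl rfl)) (hcon 4 (Or.inr rfl))
      rw [adj] at this
      revert this
      decide
    have ap : ∀ i : Fin 5, i.val ≤ 2 → coP3P2.Adj i p := by
      intro i hi
      rw [adj]
      rcases hp with rfl | rfl
      · revert i
        decide
      · revert i
        decide
    have pne : ∀ i : Fin 5, i.val ≤ 2 → i ≠ p := fun i hi => (ap i hi).ne
    have a02 : coP3P2.Adj 0 2 := by rw [adj]; decide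
    have n01 : ¬ coP3P2.Adj 1 0 := by rw [adj]; decide
    have n12 : ¬ coP3P2.Adj 1 2 := by rw [adj]; decide
    by_cases b1 : big 1
    · have b0 : ¬ big 0 := fun hb => n01 (L1 1 0 (by decide) b1 hb)
      have b2 : ¬ big 2 := fun hb => n12 (L1 1 2 (by decide) b1 hb)
      exact L3 2 0 p (by decide) (pne 0 (by decide)) (pne 2 (by decide)) b2 b0 hpb a02.symm
        (ap 0 (by decide))
    · have b0 : big 0 := by
        by_contra hb
        exact L3 1 p 0 (pne 1 (by decide)) (pne 0 (by decide)).symm (by decide) b1 hpb hb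
          (ap 1 (by decide)) (ap 0 (by decide)).symm
      have b2 : big 2 := by
        by_contra hb
        exact L3 1 p 2 (pne 1 (by decide)) (pne 2 (by decide)).symm (by decide) b1 hpb hb
          (ap 1 (by decide)) (ap 2 (by decide)).symm
      rcases L2 1 0 2 (by decide) (by decide) (by decide) b1 b0 b2 with h1 | h1
      · exact n01 h1
      · exact n12 h1
  · obtain ⟨big, L1, L2, L3⟩ := main h
    have adj : ∀ i j : Fin 6, co3P2.Adj i j ↔ i.val / 2 ≠ j.val / 2 := fun i j => Iff.rfl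
    have sel : ∀ i j : Fin 6, i ≠ j → i.val / 2 = j.val / 2 → ¬ big i ∨ ¬ big j := by
      intro i j hij h2
      by_contra hcon
      push Not at hcon
      exact (adj i j).1 (L1 i j hij hcon.1 hcon.2) h2
    have key : ∀ a b c : Fin 6, a.val / 2 ≠ b.val / 2 → b.val / 2 ≠ c.val / 2 →
        a.val / 2 ≠ c.val / 2 → ¬ big a → ¬ big b → ¬ big c → False := by
      intro a b c h1 h2 h3 ha hb hc
      exact L3 a b c (fun h => h1 (by rw [h])) (fun h => h2 (by rw [h])) (fun h => h3 (by rw [h]))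
        ha hb hc ((adj a b).2 h1) ((adj b c).2 h2)
    rcases sel 0 1 (by decide) (by decide) with ha | ha <;>
      rcases sel 2 3 (by decide) (by decide) with hb | hb <;>
        rcases sel 4 5 (by decide) (by decide) with hc | hc <;>
          exact key _ _ _ (by decide) (by decide) (by decide) ha hb hc

end Pool.Agent.MPd439b2
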