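import Pool.Agent.Lib.MP_d439b2_co.B.SpecG

set_option autoImplicit false

namespace Pool.Agent.MPd439b2

namespace gFamAux

theorem sep_ne (n : ℕ) : SepR (fun a k : Fin n => k ≠ a) := by
  intro a b hab
  constructor
  · rintro ⟨h1, -⟩
    exact h1.2 (fun h => hab h) rfl
  · rintro ⟨h1, -⟩
    exact h1.2 (fun h => hab h.symm) rfl

theorem sep_eq (n : ℕ) : SepR (fun a k : Fin n => k = a) := by
  intro a b hab
  constructor
  · rintro ⟨h1, -⟩
    exact hab (h1.1 rfl)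
  · rintro ⟨h1, -⟩
    exact hab (h1.1 rfl).symm

theorem sep_le (n : ℕ) : SepR (fun a k : Fin n => k ≤ a) := by
  intro a b hab
  constructor
  · rintro ⟨h1, h2⟩
    exact hab (le_antisymm (h1.1 le_rfl) (h2.2 le_rfl))
  · rintro ⟨h1, h2⟩
    exact hab (le_antisymm (h2.2 le_rfl) (h1.1 le_rfl))

theorem inl_inj (n : ℕ) : Function.Injective (Sum.inl : Fin n × Fin n → GFV n) := Sum.inl_injective

end gFamAux

open gFamAux in
theorem gFam : S_GFam := by
  intro hcut hrow hunb' c n hcn hn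
  have hunb := hunb' hcut hrow
  refine ⟨?_, ?_, ?_, ?_, ?_⟩
  · exact hunb (GFV n) (GF1 n) n c Sum.inl Sum.inl (fun k => Sum.inr (Sum.inl k)) (fun k => Sum.inr (Sum.inr k))
      (fun a k => k ≠ a) (fun a k => k ≠ a) hcn hn (inl_inj n) (sep_ne n) (sep_ne n)
      (fun p k => Iff.rfl) (fun p k => Iff.rfl) (Or.inl rfl)
  · exact hunb (GFV n) (GF2 n) n c Sum.inl Sum.inl (fun k => Sum.inr (Sum.inl k)) (fun k => Sum.inr (Sum.inr k))
      (fun a k => k ≠ a) (fun a k => k = a) hcn hn (inl_inj n) (sep_ne n) (sep_eq n)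
      (fun p k => Iff.rfl) (fun p k => Iff.rfl) (Or.inl rfl)
  · exact hunb (GFV n) (GF3 n) n c Sum.inl Sum.inl (fun k => Sum.inr (Sum.inl k)) (fun k => Sum.inr (Sum.inr k))
      (fun a k => k ≠ a) (fun a k => k ≠ a) hcn hn (inl_inj n) (sep_ne n) (sep_ne n)
      (fun p k => Iff.rfl) (fun p k => Iff.rfl) (Or.inl rfl)
  · exact hunb (GFV n) (GF4 n) n c Sum.inl Sum.inl (fun k => Sum.inr (Sum.inl k)) (fun k => Sum.inr (Sum.inr k))
      (fun a k => k ≤ a) (fun a k => k ≤ a) hcn hn (inl_inj n) (sep_le n) (sep_le n)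
      (fun p k => Iff.rfl) (fun p k => Iff.rfl) (Or.inl rfl)
  · refine hunb _ (GF5 n) n c (fun p => Sum.inl (Sum.inl p)) (fun p => Sum.inl (Sum.inr p))
      (fun k => Sum.inr (Sum.inl k)) (fun k => Sum.inr (Sum.inr k))
      (fun a k => k ≠ a) (fun a k => k ≠ a) hcn hn ?_ (sep_ne n) (sep_ne n)
      (fun p k => Iff.rfl) (fun p k => Iff.rfl) (Or.inr fun p q => Iff.rfl)
    intro p q h
    exact Sum.inl_injective (Sum.inl_injective h)

end Pool.Agent.MPd439b2
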