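import Pool.Agent.Lib.MP_d439b2_co.B.SpecG
import Pool.Agent.Lib.MP_d439b2_co.ImsTrans

/-!
# MP_d439b2_co, Spec G, G8 : the necessary conditions (helper50)
-/

set_option autoImplicit false

namespace Pool.Agent.MPd439b2

private theorem gMain_trans {A B C : Type} {P : SimpleGraph A} {Q : SimpleGraph B}
    {R : SimpleGraph C} (h1 : IsIndMinor P Q) (h2 : IsIndMinor Q R) : IsIndMinor P R :=
  ims_univ_iff.mp (imsTrans _ _ _ _ _ _ _ (ims_univ_iff.mpr h1) (ims_univ_iff.mpr h2))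

private theorem gMain_key {c : ℕ} {W W' : Type} {H : SimpleGraph W} {H' : SimpleGraph W'}
    (hc : ∀ (V : Type) [Finite V] [Nonempty V] (G : SimpleGraph V),
      ¬ IsIndMinor H G → ¬ IsIndMinor H' G → CWLe c G)
    {A A' V : Type} {P : SimpleGraph A} {P' : SimpleGraph A'} {G : SimpleGraph V} [Finite V]
    [Nonempty V] (h : IsIndMinor P H) (h' : IsIndMinor P' H') (n1 : ¬ IsIndMinor P G)
    (n2 : ¬ IsIndMinor P' G) : CWLe c G :=
  hc V G (fun k => n1 (gMain_trans h k)) (fun k => n2 (gMain_trans h' k))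

/-- **G8.** -/
theorem gMain : S_GMain := by
  intro hC hR hU hF hE1 hE2 hE34 hE5 W W' H H' ⟨c, hc⟩
  obtain ⟨f1, f2, f3, f4, f5⟩ := hF hC hR hU c (6 * c + 2) (by omega) (by omega)
  obtain ⟨a1, a2, a3⟩ := hE1 (6 * c + 2)
  obtain ⟨b1, b2⟩ := hE2 (6 * c + 2)
  obtain ⟨c1, c2, c3, c4⟩ := hE34 (6 * c + 2)
  obtain ⟨d1, d2, d3⟩ := hE5 (6 * c + 2)
  have ne1 : Nonempty (GFV (6 * c + 2)) := ⟨Sum.inr (Sum.inl ⟨0, by omega⟩)⟩
  have ne2 : Nonempty (((Fin (6 * c + 2) × Fin (6 * c + 2)) ⊕ (Fin (6 * c + 2) × Fin (6 * c + 2))) ⊕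
    (Fin (6 * c + 2) ⊕ Fin (6 * c + 2))) := ⟨Sum.inr (Sum.inl ⟨0, by omega⟩)⟩
  refine ⟨fun h => ⟨fun h' => f1 ?_, fun h' => f1 ?_⟩, fun h h' => f2 ?_, fun h h' => f3 ?_,
    fun h h' => f4 ?_, fun h => ⟨fun h' => f5 ?_, fun h' => f5 ?_⟩⟩
  · exact gMain_key hc h h' a1 a2
  · exact gMain_key hc h h' a1 a3
  · exact gMain_key hc h h' b2 b1
  · exact gMain_key hc h h' c2 c1
  · exact gMain_key hc h h' c4 c3
  · exact gMain_key hc h h' d1 d2
  · exact gMain_key hc h h' d1 d3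

end Pool.Agent.MPd439b2
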