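import Pool.Agent.Lib.MP_d439b2_co.B.SpecG

set_option autoImplicit false

namespace Pool.Agent.MPd439b2

namespace gUnbAux

/-- pairwise different traces, by a matching -/
theorem tr {V ι : Type} [Finite V] (G : SimpleGraph V) (A : Set V) (c : ℕ)
    (hc : {T : Set V | ∃ u ∈ A, T = G.neighborSet u \ A}.ncard ≤ c) (P : Finset ι) (x w : ι → V)
    (hx : ∀ i ∈ P, x i ∈ A) (hw : ∀ i ∈ P, w i ∉ A)
    (h : ∀ i ∈ P, ∀ j ∈ P, G.Adj (x i) (w j) ↔ i = j) : P.card ≤ c := by
  classical
  refine le_trans ?_ hc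
  rw [← Set.ncard_coe_finset P]
  refine Set.ncard_le_ncard_of_injOn (fun i => G.neighborSet (x i) \ A) ?_ ?_ (Set.toFinite _)
  · intro i hi
    exact ⟨x i, hx i hi, rfl⟩
  · intro i hi j hj he
    have h1 : w i ∈ G.neighborSet (x i) \ A := ⟨(h i hi i hi).2 rfl, hw i hi⟩
    have h2 : w i ∈ G.neighborSet (x j) \ A := by
      have he' : G.neighborSet (x i) \ A = G.neighborSet (x j) \ A := he
      rwa [he'] at h1
    exact ((h j hj i hi).1 h2.1).symm

end gUnbAux

open gUnbAux in
theorem gUnb : S_GUnb := by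
  classical
  intro hcut hrow V _ G n c x x' y z r s hcn hn hx hr hs hxy hxz hxx hcw
  obtain ⟨A, hA1, hA2, hA3⟩ := hcut V G c hcw (Set.range x) (by
    rw [← Set.image_univ, Set.ncard_image_of_injective _ hx, Set.ncard_univ, Nat.card_prod, Nat.card_fin]
    nlinarith)
  have hMc : (Set.range x).ncard = n * n := by
    rw [← Set.image_univ, Set.ncard_image_of_injective _ hx, Set.ncard_univ, Nat.card_prod, Nat.card_fin]
  obtain ⟨B, hB⟩ : ∃ B : Finset (Fin n × Fin n), B = Finset.univ.filter fun p => x p ∈ A := ⟨_, rfl⟩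
  have hmB : ∀ p, p ∈ B ↔ x p ∈ A := by
    intro p
    rw [hB, Finset.mem_filter]
    exact ⟨fun h => h.2, fun h => ⟨Finset.mem_univ _, h⟩⟩
  have hBc : (A ∩ Set.range x).ncard = B.card := by
    have e : A ∩ Set.range x = x '' (B : Set (Fin n × Fin n)) := by
      ext v
      constructor
      · rintro ⟨hv, p, rfl⟩
        exact ⟨p, (hmB p).2 hv, rfl⟩
      · rintro ⟨p, hp, rfl⟩
        exact ⟨(hmB p).1 hp, p, rfl⟩
    rw [e, Set.ncard_image_of_injective _ hx, Set.ncard_coe_finset]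
  rw [hMc, hBc] at hA1 hA2
  -- the mixed rows
  obtain ⟨R, hR⟩ : ∃ R : Finset (Fin n), R = Finset.univ.filter fun a =>
    (∃ b, x (a, b) ∈ A) ∧ ∃ b, x (a, b) ∉ A := ⟨_, rfl⟩
  have hRc : R.card ≤ 2 * c := by
    have h1 := hrow V G n c x y r hr hxy A hA3
    have e : {a : Fin n | (∃ b, x (a, b) ∈ A) ∧ ∃ b, x (a, b) ∉ A} = (R : Set (Fin n)) := by
      ext a
      rw [hR]
      simp
    rwa [e, Set.ncard_coe_finset] at h1
  have hmR : ∀ a, (∃ b, x (a, b) ∈ A) → (∃ b, x (a, b) ∉ A) → a ∈ R := by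
    intro a h1 h2
    rw [hR, Finset.mem_filter]
    exact ⟨Finset.mem_univ _, h1, h2⟩
  have h6 : 6 * c * n < n * n := Nat.mul_lt_mul_of_pos_right hcn (by omega)
  have h7 : R.card * n ≤ 2 * c * n := Nat.mul_le_mul_right n hRc
  have hfull : ∃ a : Fin n, ∀ b, x (a, b) ∈ A := by
    by_contra hno
    push Not at hno
    have hsub : B ⊆ R ×ˢ Finset.univ := by
      rintro ⟨a, b⟩ hab
      rw [Finset.mem_product]
      exact ⟨hmR a ⟨b, (hmB _).1 hab⟩ (hno a), Finset.mem_univ _⟩
    have hle := Finset.card_le_card hsub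
    rw [Finset.card_product, Finset.card_univ, Fintype.card_fin] at hle
    have h8 : 6 * c * n = 3 * (2 * c * n) := by ring
    omega
  have hempty : ∃ a : Fin n, ∀ b, x (a, b) ∉ A := by
    by_contra hno
    push Not at hno
    have hsub : Bᶜ ⊆ R ×ˢ Finset.univ := by
      rintro ⟨a, b⟩ hab
      rw [Finset.mem_product]
      rw [Finset.mem_compl, hmB] at hab
      exact ⟨hmR a (hno a) ⟨b, hab⟩, Finset.mem_univ _⟩
    have hle := Finset.card_le_card hsub
    rw [Finset.card_product, Finset.card_univ, Fintype.card_fin, Finset.card_compl,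
      Fintype.card_prod, Fintype.card_fin] at hle
    have h8 : 6 * c * n = 3 * (2 * c * n) := by ring
    omega
  obtain ⟨a₁, ha₁⟩ := hfull
  obtain ⟨a₂, ha₂⟩ := hempty
  -- the pairs on different sides
  obtain ⟨D, hD⟩ : ∃ D : Finset (Fin n × Fin n), D = Finset.univ.filter fun p => ¬ (x p ∈ A ↔ x' p ∈ A) :=
    ⟨_, rfl⟩
  have hmD : ∀ p, p ∉ D → (x p ∈ A ↔ x' p ∈ A) := by
    intro p hp
    rw [hD, Finset.mem_filter] at hp
    by_contra h
    exact hp ⟨Finset.mem_univ _, h⟩
  have hDc : D.card ≤ 2 * c := by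
    rcases hxx with hxx | hxx
    · have h0 : D = ∅ := by
        rw [hD, Finset.filter_eq_empty_iff]
        intro p _ h
        exact h (by rw [hxx])
      rw [h0, Finset.card_empty]
      exact Nat.zero_le _
    · have h1 : (D.filter fun p => x p ∈ A).card ≤ c := by
        apply tr G A c hA3 _ x x'
        · intro p hp
          exact (Finset.mem_filter.1 hp).2
        · intro p hp h
          rw [Finset.mem_filter, hD, Finset.mem_filter] at hp
          exact hp.1.2 ⟨fun _ => h, fun _ => hp.2⟩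
        · intro p _ q _
          exact hxx p q
      have h2 : (D.filter fun p => ¬ x p ∈ A).card ≤ c := by
        apply tr G A c hA3 _ x' x
        · intro p hp
          rw [Finset.mem_filter, hD, Finset.mem_filter] at hp
          by_contra h
          exact hp.1.2 ⟨fun h3 => absurd h3 hp.2, fun h3 => absurd h3 h⟩
        · intro p hp
          exact (Finset.mem_filter.1 hp).2
        · intro p _ q _
          rw [G.adj_comm, hxx]
          exact eq_comm
      have h3 := Finset.card_filter_add_card_filter_not (s := D) (fun p => x p ∈ A)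
      omega
  -- the mixed columns
  obtain ⟨C, hC⟩ : ∃ C : Finset (Fin n), C = Finset.univ.filter fun b =>
    (∃ a, x' (a, b) ∈ A) ∧ ∃ a, x' (a, b) ∉ A := ⟨_, rfl⟩
  have hCc : C.card ≤ 2 * c := by
    have h1 := hrow V G n c (fun p => x' (p.2, p.1)) z s hs (fun p k => hxz (p.2, p.1) k) A hA3
    have e : {b : Fin n | (∃ a, x' (a, b) ∈ A) ∧ ∃ a, x' (a, b) ∉ A} = (C : Set (Fin n)) := by
      ext a
      rw [hC]
      simp
    have e2 : {a : Fin n | (∃ b, (fun p : Fin n × Fin n => x' (p.2, p.1)) (a, b) ∈ A) ∧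
        ∃ b, (fun p : Fin n × Fin n => x' (p.2, p.1)) (a, b) ∉ A} =
        {b : Fin n | (∃ a, x' (a, b) ∈ A) ∧ ∃ a, x' (a, b) ∉ A} := rfl
    rw [e2, e, Set.ncard_coe_finset] at h1
    exact h1
  obtain ⟨E, hE⟩ : ∃ E : Finset (Fin n), E = Finset.univ.filter fun b => (a₁, b) ∈ D ∨ (a₂, b) ∈ D :=
    ⟨_, rfl⟩
  have hEc : E.card ≤ D.card := by
    apply Finset.card_le_card_of_injOn (fun b => if (a₁, b) ∈ D then (a₁, b) else (a₂, b))
    · intro b hb
      rw [Finset.mem_coe, hE, Finset.mem_filter] at hb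
      rw [Finset.mem_coe]
      dsimp only
      split_ifs with h
      · exact h
      · exact hb.2.resolve_left h
    · intro b _ b' _ hbb
      simp only at hbb
      split_ifs at hbb <;> exact (Prod.ext_iff.1 hbb).2
  have hcov : (Finset.univ : Finset (Fin n)) ⊆ E ∪ C := by
    intro b _
    rw [Finset.mem_union]
    by_cases hb : b ∈ E
    · exact Or.inl hb
    · right
      rw [hE, Finset.mem_filter] at hb
      have h1 : (a₁, b) ∉ D := fun h => hb ⟨Finset.mem_univ _, Or.inl h⟩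
      have h2 : (a₂, b) ∉ D := fun h => hb ⟨Finset.mem_univ _, Or.inr h⟩
      rw [hC, Finset.mem_filter]
      exact ⟨Finset.mem_univ _, ⟨a₁, (hmD _ h1).1 (ha₁ b)⟩, ⟨a₂, fun h => ha₂ b ((hmD _ h2).2 h)⟩⟩
  have h9 := (Finset.card_le_card hcov).trans (Finset.card_union_le _ _)
  rw [Finset.card_univ, Fintype.card_fin] at h9
  omega

end Pool.Agent.MPd439b2
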