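import Pool.Agent.Lib.MP_d439b2_co.B.SpecE

/-!
# MP_d439b2_co, E3: the graphs `MCG n` are in `InMC` and have unbounded clique-width
-/

set_option autoImplicit false

namespace Pool.Agent.MPd439b2

namespace mcUnbAux

theorem inMC (n : ℕ) : InMC (MCG n) := by
  refine ⟨Set.range Sum.inl,
    fun v => {x | ∃ (a : Fin n) (q : Fin n × Fin n), x = Sum.inl a ∧ v = Sum.inr q ∧ a < q.1},
    ?_, ?_, ?_, ?_⟩
  · rintro _ ⟨a, rfl⟩ _ ⟨b, rfl⟩ hab
    exact fun h => hab (by rw [h])
  · intro u hu v hv huv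
    rcases u with u | u
    · exact hu ⟨u, rfl⟩
    rcases v with v | v
    · exact hv ⟨v, rfl⟩
    exact huv
  · intro v hv
    rcases v with v | v
    · exact absurd ⟨v, rfl⟩ hv
    refine ⟨?_, ?_⟩
    · rintro _ ⟨a, q, rfl, hq, haq⟩
      have hq' : v = q := Sum.inr_injective hq
      subst hq'
      exact Or.inl haq
    · have hsub : (MCG n).neighborSet (Sum.inr v) \
          {x | ∃ (a : Fin n) (q : Fin n × Fin n), x = Sum.inl a ∧
            (Sum.inr v : Fin n ⊕ (Fin n × Fin n)) = Sum.inr q ∧ a < q.1} ⊆ {Sum.inl v.2} := by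
        rintro w ⟨hw, hw2⟩
        rcases w with w | w
        · have hw' : w < v.1 ∨ w = v.2 := hw
          rcases hw' with h | h
          · exact absurd ⟨w, v, rfl, rfl, h⟩ hw2
          · rw [h]
            rfl
        · exact absurd hw id
      refine (Set.encard_le_encard hsub).trans ?_
      rw [Set.encard_singleton]
  · intro u hu v hv
    rcases u with u | u
    · exact absurd ⟨u, rfl⟩ hu
    rcases v with v | v
    · exact absurd ⟨v, rfl⟩ hv
    rcases le_total u.1 v.1 with h | h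
    · left
      rintro _ ⟨a, q, rfl, hq, haq⟩
      have hq' : u = q := Sum.inr_injective hq
      subst hq'
      exact ⟨a, v, rfl, rfl, lt_of_lt_of_le haq h⟩
    · right
      rintro _ ⟨a, q, rfl, hq, haq⟩
      have hq' : v = q := Sum.inr_injective hq
      subst hq'
      exact ⟨a, u, rfl, rfl, lt_of_lt_of_le haq h⟩

/-- initial segments of a finite set of given size -/
theorem initSeg {n : ℕ} (X : Finset (Fin n)) (r : ℕ) (hr : r ≤ X.card) :
    ∃ X0 : Finset (Fin n), X0 ⊆ X ∧ X0.card = r ∧ ∀ x ∈ X, ∀ y ∈ X0, x < y → x ∈ X0 := by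
  induction r with
  | zero => exact ⟨∅, by simp, by simp, by simp⟩
  | succ r ih =>
    obtain ⟨X0, h1, h2, h3⟩ := ih (by omega)
    have hne : (X \ X0).Nonempty := by
      rw [← Finset.card_pos, Finset.card_sdiff_of_subset h1]
      omega
    have hm := Finset.min'_mem (X \ X0) hne
    rw [Finset.mem_sdiff] at hm
    refine ⟨insert ((X \ X0).min' hne) X0, ?_, ?_, ?_⟩
    · intro x hx
      rcases Finset.mem_insert.mp hx with h | h
      · rw [h]
        exact hm.1
      · exact h1 h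
    · rw [Finset.card_insert_of_notMem hm.2, h2]
    · intro x hx y hy hxy
      rcases Finset.mem_insert.mp hy with h | h
      · by_contra hcon
        have hx2 : x ∈ X \ X0 := by
          rw [Finset.mem_sdiff]
          exact ⟨hx, fun h4 => hcon (Finset.mem_insert_of_mem h4)⟩
        have h5 := Finset.min'_le _ _ hx2
        rw [h] at hxy
        exact absurd h5 (not_le.mpr hxy)
      · exact Finset.mem_insert_of_mem (h3 x hx y h hxy)

/-- two disjoint sets: an initial segment of one of them lies below all but few elements of the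
other -/
theorem seg {n : ℕ} (X Y : Finset (Fin n)) (r : ℕ) (hX : r + 1 ≤ X.card) (hY : r + 1 ≤ Y.card)
    (hXY : Disjoint X Y) :
    (∃ X0 : Finset (Fin n), X0 ⊆ X ∧ X0.card = r + 1 ∧
      Y.card ≤ (Y.filter (fun y => ∀ x ∈ X0, x < y)).card + r) ∨
    (∃ Y0 : Finset (Fin n), Y0 ⊆ Y ∧ Y0.card = r + 1 ∧
      X.card ≤ (X.filter (fun x => ∀ y ∈ Y0, y < x)).card + r) := by
  have key : ∀ (X0 Y0 X Y : Finset (Fin n)), Disjoint X Y → X0 ⊆ X → Y0 ⊆ Y → Y0.card = r + 1 →
      (∀ x ∈ Y, ∀ y ∈ Y0, x < y → x ∈ Y0) → (∃ l ∈ Y0, ∀ x ∈ X0, x < l) →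
      Y.card ≤ (Y.filter (fun y => ∀ x ∈ X0, x < y)).card + r := by
    rintro X0 Y0 X Y hXY hX0 hY0 hc h3 ⟨l, hl, hlX⟩
    have h4 : (Y.filter (fun y => ¬ ∀ x ∈ X0, x < y)) ⊆ Y0.erase l := by
      intro y hy
      rw [Finset.mem_filter] at hy
      obtain ⟨hy1, hy2⟩ := hy
      push Not at hy2
      obtain ⟨x, hx, hxy⟩ := hy2
      have hyl : y < l := lt_of_le_of_lt hxy (hlX x hx)
      rw [Finset.mem_erase]
      exact ⟨ne_of_lt hyl, h3 y hy1 l hl hyl⟩
    have h5 := Finset.card_le_card h4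
    rw [Finset.card_erase_of_mem hl, hc] at h5
    have h6 := Finset.card_filter_add_card_filter_not (s := Y) (fun y => ∀ x ∈ X0, x < y)
    omega
  obtain ⟨X0, hX1, hX2, hX3⟩ := initSeg X (r + 1) hX
  obtain ⟨Y0, hY1, hY2, hY3⟩ := initSeg Y (r + 1) hY
  have hXne : X0.Nonempty := by
    rw [← Finset.card_pos]
    omega
  have hYne : Y0.Nonempty := by
    rw [← Finset.card_pos]
    omega
  have hmX := Finset.max'_mem X0 hXne
  have hmY := Finset.max'_mem Y0 hYne
  rcases lt_trichotomy (X0.max' hXne) (Y0.max' hYne) with h | h | h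
  · left
    exact ⟨X0, hX1, hX2, key X0 Y0 X Y hXY hX1 hY1 hY2 hY3
      ⟨_, hmY, fun x hx => lt_of_le_of_lt (Finset.le_max' _ _ hx) h⟩⟩
  · exfalso
    rw [h] at hmX
    exact Finset.disjoint_left.mp hXY (hX1 hmX) (hY1 hmY)
  · right
    exact ⟨Y0, hY1, hY2, key Y0 X0 Y X hXY.symm hY1 hX1 hX2 hX3
      ⟨_, hmX, fun x hx => lt_of_le_of_lt (Finset.le_max' _ _ hx) h⟩⟩

/-- union bound -/
theorem good {n : ℕ} (c : ℕ) (X0 Y' : Finset (Fin n)) (P : Fin n → Fin n → Prop)
    [∀ a b, Decidable (P a b)] (hX : X0.card = c + 1) (hY : (c + 1) * c < Y'.card)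
    (hP : ∀ a ∈ X0, (Y'.filter (fun b => P a b)).card ≤ c) :
    ∃ b ∈ Y', ∀ a ∈ X0, ¬ P a b := by
  by_contra hcon
  push Not at hcon
  have h1 : Y' ⊆ X0.biUnion (fun a => Y'.filter (fun b => P a b)) := by
    intro b hb
    obtain ⟨a, ha, hab⟩ := hcon b hb
    rw [Finset.mem_biUnion]
    exact ⟨a, ha, by rw [Finset.mem_filter]; exact ⟨hb, hab⟩⟩
  have h2 := Finset.card_le_card h1
  have h3 := Finset.card_biUnion_le_card_mul X0 (fun a => Y'.filter (fun b => P a b)) c hP
  rw [hX] at h3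
  omega

end mcUnbAux

open mcUnbAux in
/-- **E3.** The graphs `MCG n` are in `InMC` and have unbounded clique-width. -/
theorem mcUnb (h : S_CWCut) : S_MCUnb := by
  classical
  refine ⟨inMC, ?_⟩
  intro c
  obtain ⟨n, hn⟩ : ∃ n, n = 3 * (c + 2) ^ 2 := ⟨_, rfl⟩
  have hpos : 2 ^ 2 ≤ (c + 2) ^ 2 := Nat.pow_le_pow_left (by omega) 2
  refine ⟨n, by omega, ?_⟩
  intro hcw
  have hM : (Set.range (Sum.inl : Fin n → Fin n ⊕ (Fin n × Fin n))).ncard = n := by
    rw [← Set.image_univ, Set.ncard_image_of_injective _ Sum.inl_injective, Set.ncard_univ,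
      Nat.card_eq_fintype_card, Fintype.card_fin]
  obtain ⟨A, hA1, hA2, hA3⟩ := h _ (MCG n) c hcw (Set.range Sum.inl) (by rw [hM]; omega)
  rw [hM] at hA1 hA2
  obtain ⟨I, hIdef⟩ : ∃ I : Finset (Fin n), ∀ a, a ∈ I ↔
      (Sum.inl a : Fin n ⊕ (Fin n × Fin n)) ∈ A :=
    ⟨Finset.univ.filter (fun a => (Sum.inl a : Fin n ⊕ (Fin n × Fin n)) ∈ A), by simp⟩
  have hI : (A ∩ Set.range (Sum.inl : Fin n → Fin n ⊕ (Fin n × Fin n))).ncard = I.card := by
    have : A ∩ Set.range (Sum.inl : Fin n → Fin n ⊕ (Fin n × Fin n)) =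
        Sum.inl '' (I : Set (Fin n)) := by
      ext x
      constructor
      · rintro ⟨hx, a, rfl⟩
        exact ⟨a, (hIdef a).mpr hx, rfl⟩
      · rintro ⟨a, ha, rfl⟩
        exact ⟨(hIdef a).mp ha, a, rfl⟩
    rw [this, Set.ncard_image_of_injective _ Sum.inl_injective, Set.ncard_coe_finset]
  rw [hI] at hA1 hA2
  have hIJ : I.card + Iᶜ.card = n := by
    rw [Finset.card_add_card_compl, Fintype.card_fin]
  have hIc : (c + 2) ^ 2 ≤ I.card := by omega
  have hJc : (c + 2) ^ 2 ≤ Iᶜ.card := by omega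
  have hfin : {T : Set (Fin n ⊕ (Fin n × Fin n)) | ∃ u ∈ A, T = (MCG n).neighborSet u \ A}.Finite :=
    Set.toFinite _
  have hle : ∀ (S : Finset (Fin n)) (f : Fin n → Fin n ⊕ (Fin n × Fin n)),
      (∀ a ∈ S, f a ∈ A) →
      (∀ a ∈ S, ∀ b ∈ S, a < b →
        (MCG n).neighborSet (f a) \ A ≠ (MCG n).neighborSet (f b) \ A) → S.card ≤ c := by
    intro S f hf hinj
    rw [← Set.ncard_coe_finset]
    refine le_trans ?_ hA3
    refine Set.ncard_le_ncard_of_injOn (fun a => (MCG n).neighborSet (f a) \ A) ?_ ?_ hfin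
    · intro a ha
      exact ⟨f a, hf a ha, rfl⟩
    · intro a ha b hb hab
      rcases lt_trichotomy a b with h1 | h1 | h1
      · exact absurd hab (hinj a ha b hb h1)
      · exact h1
      · exact absurd hab.symm (hinj b hb a ha h1)
  have hsq : (c + 1) * c + c + 1 ≤ (c + 2) ^ 2 := by nlinarith
  rcases seg I Iᶜ c (by nlinarith) (by nlinarith) disjoint_compl_right with
    ⟨X0, hX1, hX2, hX3⟩ | ⟨Y0, hY1, hY2, hY3⟩
  · obtain ⟨b, hb, hgood⟩ := good c X0 (Iᶜ.filter (fun y => ∀ x ∈ X0, x < y))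
      (fun a b => (Sum.inr (a, b) : Fin n ⊕ (Fin n × Fin n)) ∈ A) hX2 (by omega) (by
        intro a ha
        refine hle _ (fun b => Sum.inr (a, b)) ?_ ?_
        · intro b hb
          exact (Finset.mem_filter.mp hb).2
        · intro b hb b' hb' hbb heq
          have hb1 := (Finset.mem_filter.mp (Finset.mem_filter.mp hb).1)
          have h3 : (Sum.inl b : Fin n ⊕ (Fin n × Fin n)) ∈
              (MCG n).neighborSet (Sum.inr (a, b)) \ A :=
            ⟨show b < a ∨ b = b from Or.inr rfl,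
              fun h4 => (Finset.mem_compl.mp hb1.1) ((hIdef b).mpr h4)⟩
          rw [heq] at h3
          have h5 : b < a ∨ b = b' := h3.1
          have h6 := hb1.2 a ha
          rcases h5 with h5 | h5
          · exact absurd h5 (not_lt.mpr (le_of_lt h6))
          · exact absurd h5 (ne_of_lt hbb))
    have h7 : X0.card ≤ c := by
      refine hle X0 (fun a => Sum.inl a) ?_ ?_
      · intro a ha
        exact (hIdef a).mp (hX1 ha)
      · intro a ha a' ha' haa heq
        have h3 : (Sum.inr (a', b) : Fin n ⊕ (Fin n × Fin n)) ∈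
            (MCG n).neighborSet (Sum.inl a) \ A :=
          ⟨show a < a' ∨ a = b from Or.inl haa, hgood a' ha'⟩
        rw [heq] at h3
        have h5 : a' < a' ∨ a' = b := h3.1
        rcases h5 with h5 | h5
        · exact absurd h5 (lt_irrefl _)
        · subst h5
          exact (Finset.mem_compl.mp (Finset.mem_filter.mp hb).1) (hX1 ha')
    omega
  · obtain ⟨b, hb, hgood⟩ := good c Y0 (I.filter (fun x => ∀ y ∈ Y0, y < x))
      (fun a b => (Sum.inr (a, b) : Fin n ⊕ (Fin n × Fin n)) ∉ A) hY2 (by omega) (by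
        intro a ha
        refine hle _ (fun b => Sum.inl b) ?_ ?_
        · intro b hb
          exact (hIdef b).mp (Finset.mem_filter.mp (Finset.mem_filter.mp hb).1).1
        · intro b hb b' hb' hbb heq
          have hb1 := (Finset.mem_filter.mp (Finset.mem_filter.mp hb).1)
          have hb2 := (Finset.mem_filter.mp (Finset.mem_filter.mp hb').1)
          have h3 : (Sum.inr (a, b) : Fin n ⊕ (Fin n × Fin n)) ∈
              (MCG n).neighborSet (Sum.inl b) \ A :=
            ⟨show b < a ∨ b = b from Or.inr rfl, (Finset.mem_filter.mp hb).2⟩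
          rw [heq] at h3
          have h5 : b' < a ∨ b' = b := h3.1
          have h6 := hb2.2 a ha
          rcases h5 with h5 | h5
          · exact absurd h5 (not_lt.mpr (le_of_lt h6))
          · exact absurd h5.symm (ne_of_lt hbb))
    have h7 : Y0.card ≤ c := by
      refine hle Y0 (fun a => Sum.inr (a, b)) ?_ ?_
      · intro a ha
        exact not_not.mp (hgood a ha)
      · intro a ha a' ha' haa heq
        have haI : (Sum.inl a : Fin n ⊕ (Fin n × Fin n)) ∉ A :=
          fun h4 => (Finset.mem_compl.mp (hY1 ha)) ((hIdef a).mpr h4)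
        have h3 : (Sum.inl a : Fin n ⊕ (Fin n × Fin n)) ∈
            (MCG n).neighborSet (Sum.inr (a', b)) \ A :=
          ⟨show a < a' ∨ a = b from Or.inl haa, haI⟩
        rw [← heq] at h3
        have h5 : a < a ∨ a = b := h3.1
        rcases h5 with h5 | h5
        · exact absurd h5 (lt_irrefl _)
        · subst h5
          exact haI ((hIdef a).mp (Finset.mem_filter.mp hb).1)
    omega

end Pool.Agent.MPd439b2
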