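import Pool.Agent.Lib.MP_d439b2_co.B.SpecH

/-!
# MP_d439b2_co, Spec H, U3: few traces, the chain principle
-/

set_option autoImplicit false

namespace Pool.Agent.MPd439b2

private lemma PentChain_ne {V : Type} {D : SimpleGraph V} {A : Set V} {x y z : V} (hx : x ∈ A) (hy : y ∈ A)
    (hz : z ∉ A) (h1 : D.Adj x z) (h2 : ¬ D.Adj y z) :
    (Dᶜ).neighborSet x \ A ≠ (Dᶜ).neighborSet y \ A := by
  intro h
  have hzy : z ∈ (Dᶜ).neighborSet y \ A := by
    refine ⟨?_, hz⟩
    rw [SimpleGraph.mem_neighborSet, SimpleGraph.compl_adj]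
    exact ⟨fun e => hz (e ▸ hy), h2⟩
  rw [← h] at hzy
  have h3 := hzy.1
  rw [SimpleGraph.mem_neighborSet, SimpleGraph.compl_adj] at h3
  exact h3.2 h1

theorem pentChain : S_PentChain := by
  intro V _ D A k hk T a b ha hb hab hor
  have hinj : Set.InjOn (fun i => (Dᶜ).neighborSet (a i) \ A) (T : Set ℕ) := by
    have key : ∀ i ∈ T, ∀ j ∈ T, i < j →
        (Dᶜ).neighborSet (a i) \ A ≠ (Dᶜ).neighborSet (a j) \ A := by
      intro i hi j hj hij
      rcases hor with h | h
      · exact PentChain_ne (ha i hi) (ha j hj) (hb i hi) (hab i hi) (h i hi j hj hij)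
      · exact (PentChain_ne (ha j hj) (ha i hi) (hb j hj) (hab j hj) (h i hi j hj hij)).symm
    intro i hi j hj hij
    rcases lt_trichotomy i j with h | h | h
    · exact absurd hij (key i hi j hj h)
    · exact h
    · exact absurd hij.symm (key j hj i hi h)
  have hle : (T : Set ℕ).ncard ≤ {T : Set V | ∃ u ∈ A, T = (Dᶜ).neighborSet u \ A}.ncard := by
    refine Set.ncard_le_ncard_of_injOn _ ?_ hinj (Set.toFinite _)
    intro i hi
    exact ⟨a i, ha i hi, rfl⟩
  rw [Set.ncard_coe_finset] at hle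
  exact hle.trans hk

end Pool.Agent.MPd439b2
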