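import Pool.Agent.Lib.MP_d439b2_co.B.SpecH

/-!
# MP_d439b2_co, Spec H, U1: excluded induced minors of the pentagon class
-/

set_option autoImplicit false

namespace Pool.Agent.MPd439b2

namespace PentExclAux

/-- consecutive colours -/
def Cs (a b : ZMod 5) : Prop := b = a + 1 ∨ a = b + 1

instance (a b : ZMod 5) : Decidable (Cs a b) := by unfold Cs; infer_instance

theorem tri : ∀ a b c : ZMod 5, Cs a b → Cs b c → Cs a c → False := by decide

theorem four : ∀ a a' b b' : ZMod 5, Cs a b → Cs a b' → Cs a' b → Cs a' b' → a ≠ a' → b ≠ b' → False := by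
  decide

/-- a model of `H` in the complement of `D` -/
theorem model {V W : Type} {H : SimpleGraph W} {D : SimpleGraph V} (h : IsIndMinor H Dᶜ) :
    ∃ B : W → Set V, (∀ w, (B w).Nonempty) ∧
      (∀ w w', w ≠ w' → ¬ H.Adj w w' → ∀ x ∈ B w, ∀ y ∈ B w', D.Adj x y) ∧
      ∀ w w', H.Adj w w' → ∃ x ∈ B w, ∃ y ∈ B w', ¬ D.Adj x y := by
  rw [← ims_univ_iff] at h
  obtain ⟨B, -, h2, h3, h4⟩ := h
  refine ⟨B, fun w => (h2 w).1, ?_, ?_⟩
  · intro w w' hne hadj x hx y hy
    by_contra hcon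
    apply hadj
    rw [h4 w w' hne]
    refine ⟨x, hx, y, hy, ?_⟩
    rw [SimpleGraph.compl_adj]
    refine ⟨?_, hcon⟩
    rintro rfl
    exact Set.disjoint_left.1 (h3 w w' hne) hx hy
  · intro w w' hadj
    obtain ⟨x, hx, y, hy, hxy⟩ := (h4 w w' hadj.ne).1 hadj
    rw [SimpleGraph.compl_adj] at hxy
    exact ⟨x, hx, y, hy, hxy.2⟩

end PentExclAux

open PentExclAux in
theorem pentExcl : S_PentExcl := by
  intro V D ⟨c, hc, hn⟩
  have hc' : ∀ u v, D.Adj u v → Cs (c u) (c v) := hc
  refine ⟨?_, ?_⟩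
  · intro W H w₁ w₂ w₃ h12 h13 h23 n12 n13 n23 hmin
    obtain ⟨B, hne, hD, -⟩ := model hmin
    obtain ⟨x, hx⟩ := hne w₁
    obtain ⟨y, hy⟩ := hne w₂
    obtain ⟨z, hz⟩ := hne w₃
    exact tri (c x) (c y) (c z) (hc' x y (hD _ _ h12 n12 x hx y hy)) (hc' y z (hD _ _ h23 n23 y hy z hz))
      (hc' x z (hD _ _ h13 n13 x hx z hz))
  · intro hmin
    obtain ⟨B, hne, hD, hA⟩ := model hmin
    have hK : ∀ i (b : Bool), ∀ x ∈ B (i, b), ∀ y ∈ B (i, !b), D.Adj x y := by
      intro i b
      refine hD (i, b) (i, !b) ?_ ?_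
      · intro h
        rw [Prod.mk.injEq] at h
        cases b <;> exact absurd h.2 (by decide)
      · intro h
        exact h rfl
    have claim : ∀ i, ∃ (b : Bool) (a : ZMod 5), ∀ z ∈ B (i, b), c z = a := by
      intro i
      by_contra hcon
      push Not at hcon
      obtain ⟨x, hx⟩ := hne (i, false)
      obtain ⟨x', hx', hxx⟩ := hcon false (c x)
      obtain ⟨y, hy⟩ := hne (i, true)
      obtain ⟨y', hy', hyy⟩ := hcon true (c y)
      have k := hK i false
      exact four (c x) (c x') (c y) (c y') (hc' _ _ (k x hx y hy)) (hc' _ _ (k x hx y' hy'))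
        (hc' _ _ (k x' hx' y hy)) (hc' _ _ (k x' hx' y' hy')) hxx.symm hyy.symm
    choose b a hba using claim
    obtain ⟨i, j, hij, haij⟩ : ∃ i j : Fin 6, i ≠ j ∧ a i = a j := by
      by_contra hcon
      push Not at hcon
      have hinj : Function.Injective a := by
        intro i j h
        by_contra hne
        exact hcon i j hne h
      have := Fintype.card_le_of_injective a hinj
      rw [Fintype.card_fin, ZMod.card] at this
      omega
    obtain ⟨z, hz, w, hw, hzw⟩ := hA (i, b i) (j, !b j) hij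
    obtain ⟨z', hz', w', hw', hzw'⟩ := hA (j, b j) (i, !b i) hij.symm
    have e1 : D.Adj z w' := hK i (b i) z hz w' hw'
    have e2 : D.Adj z' w := hK j (b j) z' hz' w hw
    have e3 : c z = c z' := by rw [hba i z hz, hba j z' hz', haij]
    rcases hn z z' e3 with h | h
    · exact hzw' (h e1)
    · exact hzw (h e2)

end Pool.Agent.MPd439b2
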