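import Pool.Agent.Lib.MP_d439b2_co.B.SpecH

/-!
# MP_d439b2_co, Spec H, U2: the helix belongs to the pentagon class
-/

set_option autoImplicit false

namespace Pool.Agent.MPd439b2

namespace PentInAux

theorem col1 : ∀ a b : Fin 10, (a.val + 1) % 10 = b.val → ((b.val : ℕ) : ZMod 5) = ((a.val : ℕ) : ZMod 5) + 1 := by
  decide

theorem col4 : ∀ a b : Fin 10, (a.val + 4) % 10 = b.val → ((a.val : ℕ) : ZMod 5) = ((b.val : ℕ) : ZMod 5) + 1 := by
  decide

/-- the same even rail -/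
theorem even {n d : ℕ} {u v w : Fin 10 × Fin n} (h1 : u.1 = v.1) (h2 : v.1.val % 2 = 0) (ht : u.2.val ≤ v.2.val)
    (h : (HD n d).Adj v w) : (HD n d).Adj u w := by
  rcases h with ⟨a1, a2, a3⟩ | ⟨a1, a2, -⟩ | h
  · refine Or.inl ⟨h1 ▸ a1, ?_, ?_⟩
    · rw [h1]
      exact a2
    · rw [h1]
      omega
  · exfalso
    have := w.1.isLt
    have := v.1.isLt
    omega
  · refine Or.inr (Or.inr ?_)
    unfold HC at h ⊢
    rw [h1]
    exact h

/-- the same odd rail -/
theorem odd {n d : ℕ} {u v w : Fin 10 × Fin n} (h1 : u.1 = v.1) (h2 : u.1.val % 2 = 1) (ht : u.2.val ≤ v.2.val)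
    (h : (HD n d).Adj u w) : (HD n d).Adj v w := by
  rcases h with ⟨a1, a2, -⟩ | ⟨a1, a2, a3⟩ | ⟨a1, -, -⟩
  · omega
  · refine Or.inr (Or.inl ⟨a1, ?_, ?_⟩)
    · rw [← h1]
      exact a2
    · rw [← h1]
      omega
  · omega

/-- opposite rails -/
theorem opposite {n d : ℕ} {u v w : Fin 10 × Fin n} (h1 : u.1.val % 2 = 0) (h2 : v.1.val % 2 = 1)
    (h3 : u.1.val % 5 = v.1.val % 5) (h : (HD n d).Adj v w) : (HD n d).Adj u w := by
  have := w.1.isLt
  have := v.1.isLt
  have := u.1.isLt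
  rcases h with ⟨a1, -, -⟩ | ⟨a1, a2, -⟩ | ⟨a1, -, -⟩
  · omega
  · refine Or.inr (Or.inr ⟨h1, a1, ?_⟩)
    rcases a2 with a2 | a2
    · left
      omega
    · right
      omega
  · omega

end PentInAux

open PentInAux in
theorem pentIn : S_PentIn := by
  intro n d
  refine ⟨fun u => ((u.1.val : ℕ) : ZMod 5), ?_, ?_⟩
  · rintro u v (⟨-, h | h, -⟩ | ⟨-, h | h, -⟩ | ⟨-, -, h | h⟩)
    · exact Or.inl (col1 _ _ h)
    · exact Or.inr (col1 _ _ h)
    · exact Or.inr (col1 _ _ h)
    · exact Or.inl (col1 _ _ h)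
    · exact Or.inr (col4 _ _ h)
    · exact Or.inl (col4 _ _ h)
  · intro u v h
    have h3 : u.1.val % 5 = v.1.val % 5 := (ZMod.natCast_eq_natCast_iff' _ _ 5).1 h
    have hu := u.1.isLt
    have hv := v.1.isLt
    rcases Nat.mod_two_eq_zero_or_one u.1.val with e | e <;> rcases Nat.mod_two_eq_zero_or_one v.1.val with e' | e'
    · have h1 : u.1 = v.1 := Fin.ext (by omega)
      rcases le_total u.2.val v.2.val with ht | ht
      · exact Or.inr fun w hw => even h1 e' ht hw
      · exact Or.inl fun w hw => even h1.symm e ht hw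
    · exact Or.inr fun w hw => opposite e e' h3 hw
    · exact Or.inl fun w hw => opposite e' e h3.symm hw
    · have h1 : u.1 = v.1 := Fin.ext (by omega)
      rcases le_total u.2.val v.2.val with ht | ht
      · exact Or.inl fun w hw => odd h1 e ht hw
      · exact Or.inr fun w hw => odd h1.symm e' ht hw

end Pool.Agent.MPd439b2
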