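import Pool.Agent.Lib.MP_d439b2_co.B.SpecH
import Pool.Agent.Lib.MP_d439b2_co.ImsTrans

/-!
# MP_d439b2_co, Spec H, U5 : the necessary condition
-/

set_option autoImplicit false

namespace Pool.Agent.MPd439b2

/-- **U5.** -/
theorem pentMain : S_PentMain := by
  intro hE hI hU hCh hC W W' H H' ⟨w₁, w₂, w₃, h12, h13, h23, n12, n13, n23⟩ hH' ⟨c, hc⟩
  obtain ⟨n, d, hn, hnot⟩ := hU hC hCh c
  obtain ⟨hE1, hE2⟩ := hE _ (HD n d) (hI n d)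
  have : Nonempty (Fin 10 × Fin n) := ⟨(⟨0, by norm_num⟩, ⟨0, by omega⟩)⟩
  refine hnot (hc _ (HD n d)ᶜ ?_ ?_)
  · exact hE1 W H w₁ w₂ w₃ h12 h13 h23 n12 n13 n23
  · intro h
    exact hE2 (ims_univ_iff.mp (imsTrans _ _ _ _ _ _ _ (ims_univ_iff.mpr hH')
      (ims_univ_iff.mpr h)))

end Pool.Agent.MPd439b2
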