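import Pool.Agent.Lib.MP_d439b2_co.B.SpecH

/-!
# MP_d439b2_co, U4: the pentagon helix has unbounded clique-width
-/

set_option autoImplicit false

namespace Pool.Agent.MPd439b2

namespace PentUnbAux

open Finset Classical

theorem adj_iff (n d : ℕ) (r r' : Fin 10) (hr : r.val % 2 = 0)
    (hc : (r.val + 1) % 10 = r'.val ∨ (r'.val + 1) % 10 = r.val) (s t : Fin n) :
    (HD n d).Adj (r, s) (r', t) ↔
      s.val + (if r.val = 0 ∧ r'.val = 1 then d else 0) ≤ t.val := by
  have hr' : r'.val % 2 = 1 := by omega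
  constructor
  · rintro (⟨_, _, h⟩ | ⟨h, _, _⟩ | ⟨_, h, _⟩)
    · exact h
    · simp only at h
      omega
    · simp only at h
      omega
  · intro h
    exact Or.inl ⟨hr, hc, h⟩

/-- the point `t` of the rail `r` -/
def P {n : ℕ} (hn : 0 < n) (r : Fin 10) (t : ℕ) : Fin 10 × Fin n := (r, ⟨t % n, Nat.mod_lt _ hn⟩)

theorem P_adj {n : ℕ} (hn : 0 < n) (d : ℕ) (r r' : Fin 10) (hr : r.val % 2 = 0)
    (hc : (r.val + 1) % 10 = r'.val ∨ (r'.val + 1) % 10 = r.val) (s t : ℕ) (hs : s < n)
    (ht : t < n) :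
    (HD n d).Adj (P hn r s) (P hn r' t) ↔
      s + (if r.val = 0 ∧ r'.val = 1 then d else 0) ≤ t := by
  unfold P
  rw [adj_iff n d r r' hr hc]
  simp only [Nat.mod_eq_of_lt hs, Nat.mod_eq_of_lt ht]

theorem P_val {n : ℕ} (hn : 0 < n) (r : Fin 10) (t : Fin n) : P hn r t.val = (r, t) := by
  unfold P
  simp only [Nat.mod_eq_of_lt t.isLt]

/-- the chain principle for the set `A` -/
def Ch (n d k : ℕ) (A : Set (Fin 10 × Fin n)) : Prop :=
  ∀ (T : Finset ℕ) (a b : ℕ → Fin 10 × Fin n), (∀ i ∈ T, a i ∈ A) → (∀ i ∈ T, b i ∉ A) →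
    (∀ i ∈ T, (HD n d).Adj (a i) (b i)) →
    ((∀ i ∈ T, ∀ j ∈ T, i < j → ¬ (HD n d).Adj (a j) (b i)) ∨
      (∀ i ∈ T, ∀ j ∈ T, i < j → ¬ (HD n d).Adj (a i) (b j))) → T.card ≤ k

/-- even rail in `A`, odd rail outside -/
theorem chE {n d k : ℕ} {A : Set (Fin 10 × Fin n)} (hA : Ch n d k A) (hn : 0 < n)
    (r r' : Fin 10) (hr : r.val % 2 = 0)
    (hc : (r.val + 1) % 10 = r'.val ∨ (r'.val + 1) % 10 = r.val) (s : ℕ)
    (hs : s = if r.val = 0 ∧ r'.val = 1 then d else 0) (T : Finset ℕ) (f g : ℕ → ℕ)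
    (hf : ∀ i ∈ T, f i < n) (hg : ∀ i ∈ T, g i < n)
    (h1 : ∀ i ∈ T, P hn r (f i) ∈ A) (h2 : ∀ i ∈ T, P hn r' (g i) ∉ A)
    (h3 : ∀ i ∈ T, f i + s ≤ g i) (h4 : ∀ i ∈ T, ∀ j ∈ T, i < j → g i < f j + s) :
    T.card ≤ k := by
  refine hA T (fun i => P hn r (f i)) (fun i => P hn r' (g i)) h1 h2 ?_ (Or.inl ?_)
  · intro i hi
    rw [P_adj hn d r r' hr hc _ _ (hf i hi) (hg i hi), ← hs]
    exact h3 i hi
  · intro i hi j hj hij
    rw [P_adj hn d r r' hr hc _ _ (hf j hj) (hg i hi), ← hs]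
    have := h4 i hi j hj hij
    omega

/-- odd rail in `A`, even rail outside -/
theorem chO {n d k : ℕ} {A : Set (Fin 10 × Fin n)} (hA : Ch n d k A) (hn : 0 < n)
    (r r' : Fin 10) (hr : r.val % 2 = 0)
    (hc : (r.val + 1) % 10 = r'.val ∨ (r'.val + 1) % 10 = r.val) (s : ℕ)
    (hs : s = if r.val = 0 ∧ r'.val = 1 then d else 0) (T : Finset ℕ) (f g : ℕ → ℕ)
    (hf : ∀ i ∈ T, f i < n) (hg : ∀ i ∈ T, g i < n)
    (h1 : ∀ i ∈ T, P hn r (f i) ∉ A) (h2 : ∀ i ∈ T, P hn r' (g i) ∈ A)
    (h3 : ∀ i ∈ T, f i + s ≤ g i) (h4 : ∀ i ∈ T, ∀ j ∈ T, i < j → g i < f j + s) :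
    T.card ≤ k := by
  refine hA T (fun i => P hn r' (g i)) (fun i => P hn r (f i)) h2 h1 ?_ (Or.inr ?_)
  · intro i hi
    refine SimpleGraph.Adj.symm ?_
    rw [P_adj hn d r r' hr hc _ _ (hf i hi) (hg i hi), ← hs]
    exact h3 i hi
  · intro i hi j hj hij h
    have h' := SimpleGraph.Adj.symm h
    rw [P_adj hn d r r' hr hc _ _ (hf j hj) (hg i hi), ← hs] at h'
    have := h4 i hi j hj hij
    omega

/-- (1) and (1') -/
theorem two_k {n d k : ℕ} {A : Set (Fin 10 × Fin n)} (hA : Ch n d k A) (hn : 0 < n)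
    (r r' : Fin 10) (hr : r.val % 2 = 0)
    (hc : (r.val + 1) % 10 = r'.val ∨ (r'.val + 1) % 10 = r.val) (s : ℕ)
    (hs : s = if r.val = 0 ∧ r'.val = 1 then d else 0) :
    ((range (n - s)).filter (fun t => ¬ (P hn r t ∈ A ↔ P hn r' (t + s) ∈ A))).card ≤ 2 * k := by
  have h1 : ((range (n - s)).filter (fun t => P hn r t ∈ A ∧ P hn r' (t + s) ∉ A)).card ≤ k := by
    refine chE hA hn r r' hr hc s hs _ (fun t => t) (fun t => t + s) ?_ ?_ ?_ ?_ ?_ ?_
    · intro i hi
      have := mem_range.1 (mem_filter.1 hi).1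
      show i < n
      omega
    · intro i hi
      have := mem_range.1 (mem_filter.1 hi).1
      show i + s < n
      omega
    · intro i hi
      exact (mem_filter.1 hi).2.1
    · intro i hi
      exact (mem_filter.1 hi).2.2
    · intro i hi
      exact le_refl _
    · intro i hi j hj hij
      show i + s < j + s
      omega
  have h2 : ((range (n - s)).filter (fun t => P hn r t ∉ A ∧ P hn r' (t + s) ∈ A)).card ≤ k := by
    refine chO hA hn r r' hr hc s hs _ (fun t => t) (fun t => t + s) ?_ ?_ ?_ ?_ ?_ ?_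
    · intro i hi
      have := mem_range.1 (mem_filter.1 hi).1
      show i < n
      omega
    · intro i hi
      have := mem_range.1 (mem_filter.1 hi).1
      show i + s < n
      omega
    · intro i hi
      exact (mem_filter.1 hi).2.1
    · intro i hi
      exact (mem_filter.1 hi).2.2
    · intro i hi
      exact le_refl _
    · intro i hi j hj hij
      show i + s < j + s
      omega
  have h3 : (range (n - s)).filter (fun t => ¬ (P hn r t ∈ A ↔ P hn r' (t + s) ∈ A)) ⊆
      (range (n - s)).filter (fun t => P hn r t ∈ A ∧ P hn r' (t + s) ∉ A) ∪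
      (range (n - s)).filter (fun t => P hn r t ∉ A ∧ P hn r' (t + s) ∈ A) := by
    intro t ht
    rw [mem_filter] at ht
    rw [mem_union, mem_filter, mem_filter]
    by_cases h : P hn r t ∈ A
    · left
      exact ⟨ht.1, h, fun h' => ht.2 ⟨fun _ => h', fun _ => h⟩⟩
    · right
      refine ⟨ht.1, h, ?_⟩
      by_contra h'
      exact ht.2 ⟨fun h'' => absurd h'' h, fun h'' => absurd h'' h'⟩
  have h4 := card_le_card h3
  have h5 := card_union_le ((range (n - s)).filter (fun t => P hn r t ∈ A ∧ P hn r' (t + s) ∉ A))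
      ((range (n - s)).filter (fun t => P hn r t ∉ A ∧ P hn r' (t + s) ∈ A))
  omega

/-- triangle inequality for filters -/
theorem tri (S : Finset ℕ) (p q r : ℕ → Prop) :
    (S.filter (fun t => ¬ (p t ↔ r t))).card ≤
      (S.filter (fun t => ¬ (p t ↔ q t))).card + (S.filter (fun t => ¬ (q t ↔ r t))).card := by
  refine le_trans (card_le_card ?_) (card_union_le _ _)
  intro t ht
  rw [mem_filter] at ht
  rw [mem_union, mem_filter, mem_filter]
  by_cases h : (p t ↔ q t)
  · right
    exact ⟨ht.1, fun h' => ht.2 (h.trans h')⟩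
  · left
    exact ⟨ht.1, h⟩

theorem flip (S : Finset ℕ) (p q : ℕ → Prop) :
    (S.filter (fun t => ¬ (p t ↔ q t))).card = (S.filter (fun t => ¬ (q t ↔ p t))).card := by
  congr 1
  ext t
  rw [mem_filter, mem_filter]
  constructor
  · rintro ⟨h1, h2⟩
    exact ⟨h1, fun h => h2 h.symm⟩
  · rintro ⟨h1, h2⟩
    exact ⟨h1, fun h => h2 h.symm⟩

/-- consecutive rails, not `0, 1` -/
theorem step {n d k : ℕ} {A : Set (Fin 10 × Fin n)} (hA : Ch n d k A) (hn : 0 < n)
    (r r' : Fin 10)
    (hc : (r.val + 1) % 10 = r'.val ∨ (r'.val + 1) % 10 = r.val)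
    (h01 : ¬ (r.val = 0 ∧ r'.val = 1)) (h10 : ¬ (r.val = 1 ∧ r'.val = 0)) :
    ((range n).filter (fun t => ¬ (P hn r t ∈ A ↔ P hn r' t ∈ A))).card ≤ 2 * k := by
  rcases Nat.mod_two_eq_zero_or_one r.val with hr | hr
  · have := two_k hA hn r r' hr hc 0 (by rw [if_neg h01])
    simpa only [Nat.sub_zero, Nat.add_zero] using this
  · have hr' : r'.val % 2 = 0 := by omega
    have := two_k hA hn r' r hr' hc.symm 0 (by rw [if_neg (fun h => h10 ⟨h.2, h.1⟩)])
    simp only [Nat.sub_zero, Nat.add_zero] at this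
    rw [flip]
    exact this

/-- the rail `10 - j` -/
def rail (j : ℕ) : Fin 10 := ⟨(10 - j) % 10, Nat.mod_lt _ (by norm_num)⟩

/-- (2) -/
theorem rails {n d k : ℕ} {A : Set (Fin 10 × Fin n)} (hA : Ch n d k A) (hn : 0 < n) :
    ∀ j : ℕ, j ≤ 9 →
    ((range n).filter (fun t => ¬ (P hn (rail j) t ∈ A ↔ P hn 0 t ∈ A))).card ≤ 2 * k * j := by
  intro j
  induction j with
  | zero =>
    intro _
    have h0 : rail 0 = 0 := by decide
    rw [h0]
    simp
  | succ j ih =>
    intro hj
    have h1 := ih (by omega)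
    have h2 : ((range n).filter
        (fun t => ¬ (P hn (rail (j + 1)) t ∈ A ↔ P hn (rail j) t ∈ A))).card ≤ 2 * k := by
      apply step hA hn
      · unfold rail
        simp only
        left
        omega
      · unfold rail
        simp only
        omega
      · unfold rail
        simp only
        omega
    have h3 := tri (range n) (fun t => P hn (rail (j + 1)) t ∈ A) (fun t => P hn (rail j) t ∈ A)
      (fun t => P hn 0 t ∈ A)
    have h4 : 2 * k * (j + 1) = 2 * k * j + 2 * k := by ring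
    omega

theorem rails' {n d k : ℕ} {A : Set (Fin 10 × Fin n)} (hA : Ch n d k A) (hn : 0 < n)
    (r : Fin 10) :
    ((range n).filter (fun t => ¬ (P hn r t ∈ A ↔ P hn 0 t ∈ A))).card ≤ 18 * k := by
  have hr : ∃ j : ℕ, j ≤ 9 ∧ rail j = r := by
    refine ⟨(10 - r.val) % 10, by omega, ?_⟩
    unfold rail
    ext
    simp only
    have := r.isLt
    omega
  obtain ⟨j, hj, hjr⟩ := hr
  have h := rails hA hn j hj
  rw [hjr] at h
  have h2 : 2 * k * j ≤ 2 * k * 9 := Nat.mul_le_mul_left _ hj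
  omega

/-- (3), first part -/
theorem lag {n d k : ℕ} {A : Set (Fin 10 × Fin n)} (hA : Ch n d k A) (hn : 0 < n) :
    ((range (n - d)).filter (fun t => ¬ (P hn 0 t ∈ A ↔ P hn 0 (t + d) ∈ A))).card
      ≤ 20 * k := by
  have h1 : ((range (n - d)).filter (fun t => ¬ (P hn 0 t ∈ A ↔ P hn 1 (t + d) ∈ A))).card
      ≤ 2 * k := by
    refine two_k hA hn 0 1 (by decide) (Or.inl (by decide)) d ?_
    rw [if_pos (by decide)]
  have h2 : ((range (n - d)).filter
      (fun t => ¬ (P hn 1 (t + d) ∈ A ↔ P hn 0 (t + d) ∈ A))).card ≤ 18 * k := by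
    refine le_trans ?_ (rails' hA hn 1)
    refine card_le_card_of_injOn (fun t => t + d) ?_ ?_
    · intro t ht
      have ht' := mem_filter.1 (Finset.mem_coe.1 ht)
      have := mem_range.1 ht'.1
      refine Finset.mem_coe.2 (mem_filter.2 ⟨mem_range.2 ?_, ht'.2⟩)
      show t + d < n
      omega
    · intro a _ b _ hab
      simp only at hab
      omega
  have h3 := tri (range (n - d)) (fun t => P hn 0 t ∈ A) (fun t => P hn 1 (t + d) ∈ A)
      (fun t => P hn 0 (t + d) ∈ A)
  omega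

/-- good residues -/
def Good {n : ℕ} (hn : 0 < n) (A : Set (Fin 10 × Fin n)) (d m ρ : ℕ) : Prop :=
  ∀ j < m, (P hn 0 (ρ + j * d) ∈ A ↔ P hn 0 ρ ∈ A)

/-- (3), second part -/
theorem bad_card {n d k m : ℕ} {A : Set (Fin 10 × Fin n)} (hA : Ch n d k A) (hn : 0 < n)
    (hnd : n = d * m) :
    ((range d).filter (fun ρ => ¬ Good hn A d m ρ)).card ≤ 20 * k := by
  refine le_trans ?_ (lag hA hn)
  refine le_trans (card_le_card ?_) (card_image_le (f := fun t => t % d))
  intro ρ hρ
  rw [mem_filter, mem_range] at hρ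
  obtain ⟨hρ1, hρ2⟩ := hρ
  have hex : ∃ j, j + 1 < m ∧ ¬ (P hn 0 (ρ + j * d) ∈ A ↔ P hn 0 (ρ + (j + 1) * d) ∈ A) := by
    by_contra hno
    push Not at hno
    apply hρ2
    intro j
    induction j with
    | zero =>
      intro _
      simp
    | succ j ih =>
      intro hj
      rw [← ih (by omega)]
      have := hno j hj
      exact this.symm
  obtain ⟨j, hj, hne⟩ := hex
  rw [mem_image]
  refine ⟨ρ + j * d, ?_, ?_⟩
  · rw [mem_filter, mem_range]
    constructor
    · have h1 : (j + 2) * d ≤ m * d := Nat.mul_le_mul_right _ (by omega)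
      have h2 : (j + 2) * d = j * d + d + d := by ring
      have h3 : n = m * d := by rw [hnd, Nat.mul_comm]
      omega
    · have h4 : ρ + j * d + d = ρ + (j + 1) * d := by ring
      rw [h4]
      exact hne
  · rw [Nat.add_mul_mod_self_right, Nat.mod_eq_of_lt hρ1]

theorem lt_n {n d m : ℕ} (hnd : n = d * m) (ρ j : ℕ) (hρ : ρ < d) (hj : j < m) :
    ρ + j * d < n := by
  have h1 : (j + 1) * d ≤ m * d := Nat.mul_le_mul_right _ (by omega)
  have h2 : (j + 1) * d = j * d + d := by ring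
  have h3 : n = m * d := by rw [hnd, Nat.mul_comm]
  omega

/-- (4) -/
theorem good_same {n d k m : ℕ} {A : Set (Fin 10 × Fin n)} (hA : Ch n d k A) (hn : 0 < n)
    (hnd : n = d * m) (hm : 2 * k < m) (ρ σ : ℕ) (hρ : ρ < d) (hσ : σ < d)
    (gρ : Good hn A d m ρ) (gσ : Good hn A d m σ) (h1 : P hn 0 ρ ∈ A) : P hn 0 σ ∈ A := by
  by_contra h2
  have hu : ∀ j < m, P hn 0 (ρ + j * d) ∈ A := fun j hj => (gρ j hj).2 h1
  have hv : ∀ j < m, P hn 0 (σ + j * d) ∉ A := fun j hj h => h2 ((gσ j hj).1 h)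
  have hsep : ∀ a b : ℕ, a < d → ∀ i j : ℕ, i < j → a + i * d < b + j * d := by
    intro a b ha i j hij
    have h1 : (i + 1) * d ≤ j * d := Nat.mul_le_mul_right _ hij
    have h2 : (i + 1) * d = i * d + d := by ring
    omega
  have hcons : ((0 : Fin 10).val + 1) % 10 = (9 : Fin 10).val ∨
      ((9 : Fin 10).val + 1) % 10 = (0 : Fin 10).val := Or.inr (by decide)
  have hlag : 0 = if (0 : Fin 10).val = 0 ∧ (9 : Fin 10).val = 1 then d else 0 := by
    rw [if_neg (by decide)]
  rcases Nat.lt_or_ge ρ σ with hlt | hge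
  · have c1 : ((range m).filter (fun j => P hn 9 (σ + j * d) ∈ A)).card ≤ k := by
      refine chO hA hn 0 9 (by decide) hcons 0 hlag _ (fun j => σ + j * d)
        (fun j => σ + j * d) ?_ ?_ ?_ ?_ ?_ ?_
      · intro i hi
        exact lt_n hnd σ i hσ (mem_range.1 (mem_filter.1 hi).1)
      · intro i hi
        exact lt_n hnd σ i hσ (mem_range.1 (mem_filter.1 hi).1)
      · intro i hi
        exact hv i (mem_range.1 (mem_filter.1 hi).1)
      · intro i hi
        exact (mem_filter.1 hi).2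
      · intro i hi
        exact le_refl _
      · intro i hi j hj hij
        exact hsep σ σ hσ i j hij
    have c2 : ((range m).filter (fun j => ¬ (P hn 9 (σ + j * d) ∈ A))).card ≤ k := by
      refine chE hA hn 0 9 (by decide) hcons 0 hlag _ (fun j => ρ + j * d)
        (fun j => σ + j * d) ?_ ?_ ?_ ?_ ?_ ?_
      · intro i hi
        exact lt_n hnd ρ i hρ (mem_range.1 (mem_filter.1 hi).1)
      · intro i hi
        exact lt_n hnd σ i hσ (mem_range.1 (mem_filter.1 hi).1)
      · intro i hi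
        exact hu i (mem_range.1 (mem_filter.1 hi).1)
      · intro i hi
        exact (mem_filter.1 hi).2
      · intro i hi
        show ρ + i * d + 0 ≤ σ + i * d
        omega
      · intro i hi j hj hij
        exact hsep σ ρ hσ i j hij
    have c3 := card_filter_add_card_filter_not (s := range m)
      (fun j => P hn 9 (σ + j * d) ∈ A)
    rw [card_range] at c3
    omega
  · have hne : ρ ≠ σ := by
      rintro rfl
      exact h2 h1
    have c1 : ((range m).filter (fun j => ¬ (P hn 9 (ρ + j * d) ∈ A))).card ≤ k := by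
      refine chE hA hn 0 9 (by decide) hcons 0 hlag _ (fun j => ρ + j * d)
        (fun j => ρ + j * d) ?_ ?_ ?_ ?_ ?_ ?_
      · intro i hi
        exact lt_n hnd ρ i hρ (mem_range.1 (mem_filter.1 hi).1)
      · intro i hi
        exact lt_n hnd ρ i hρ (mem_range.1 (mem_filter.1 hi).1)
      · intro i hi
        exact hu i (mem_range.1 (mem_filter.1 hi).1)
      · intro i hi
        exact (mem_filter.1 hi).2
      · intro i hi
        exact le_refl _
      · intro i hi j hj hij
        exact hsep ρ ρ hρ i j hij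
    have c2 : ((range m).filter (fun j => P hn 9 (ρ + j * d) ∈ A)).card ≤ k := by
      refine chO hA hn 0 9 (by decide) hcons 0 hlag _ (fun j => σ + j * d)
        (fun j => ρ + j * d) ?_ ?_ ?_ ?_ ?_ ?_
      · intro i hi
        exact lt_n hnd σ i hσ (mem_range.1 (mem_filter.1 hi).1)
      · intro i hi
        exact lt_n hnd ρ i hρ (mem_range.1 (mem_filter.1 hi).1)
      · intro i hi
        exact hv i (mem_range.1 (mem_filter.1 hi).1)
      · intro i hi
        exact (mem_filter.1 hi).2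
      · intro i hi
        show σ + i * d + 0 ≤ ρ + i * d
        omega
      · intro i hi j hj hij
        exact hsep ρ σ hρ i j hij
    have c3 := card_filter_add_card_filter_not (s := range m)
      (fun j => P hn 9 (ρ + j * d) ∈ A)
    rw [card_range] at c3
    omega

/-- (5), first part -/
theorem beta_zero {n d k m : ℕ} {A : Set (Fin 10 × Fin n)} (hA : Ch n d k A) (hn : 0 < n)
    (hd : 0 < d) (hnd : n = d * m) (hm : 2 * k < m) :
    ∃ β : Prop, ((range n).filter (fun t => ¬ (P hn 0 t ∈ A ↔ β))).card ≤ 20 * k * m := by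
  obtain ⟨β, hβ⟩ : ∃ β : Prop, β ↔ ∃ ρ, ρ < d ∧ Good hn A d m ρ ∧ P hn 0 ρ ∈ A := ⟨_, Iff.rfl⟩
  refine ⟨β, ?_⟩
  have h1 : ((range n).filter (fun t => ¬ (P hn 0 t ∈ A ↔ β))).card ≤
      (((range d).filter (fun ρ => ¬ Good hn A d m ρ)) ×ˢ (range m)).card := by
    refine card_le_card_of_injOn (fun t => (t % d, t / d)) ?_ ?_
    · intro t ht
      have ht' := mem_filter.1 (Finset.mem_coe.1 ht)
      have ht1 := mem_range.1 ht'.1
      have ht2 := ht'.2
      refine Finset.mem_coe.2 (mem_product.2 ⟨mem_filter.2 ⟨mem_range.2 ?_, ?_⟩, mem_range.2 ?_⟩)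
      · exact Nat.mod_lt _ hd
      · intro hg
        apply ht2
        have hlt : t % d < d := Nat.mod_lt _ hd
        have hdiv : t / d < m := by
          rw [Nat.div_lt_iff_lt_mul hd]
          rw [hnd, Nat.mul_comm] at ht1
          exact ht1
        have hteq : t % d + t / d * d = t := by
          rw [Nat.mul_comm]
          exact Nat.mod_add_div t d
        have h3 := hg (t / d) hdiv
        rw [hteq] at h3
        rw [hβ]
        constructor
        · intro h
          exact ⟨t % d, hlt, hg, h3.1 h⟩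
        · rintro ⟨ρ, h4, h5, h6⟩
          exact h3.2 (good_same hA hn hnd hm ρ (t % d) h4 hlt h5 hg h6)
      · show t / d < m
        rw [Nat.div_lt_iff_lt_mul hd]
        rw [hnd, Nat.mul_comm] at ht1
        exact ht1
    · intro a _ b _ hab
      simp only [Prod.mk.injEq] at hab
      rw [← Nat.mod_add_div a d, ← Nat.mod_add_div b d, hab.1, hab.2]
  refine le_trans h1 ?_
  rw [card_product, card_range]
  exact Nat.mul_le_mul_right _ (bad_card hA hn hnd)

/-- (5), second part -/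
theorem beta_all {n d k m : ℕ} {A : Set (Fin 10 × Fin n)} (hA : Ch n d k A) (hn : 0 < n)
    (hd : 0 < d) (hnd : n = d * m) (hm : 2 * k < m) :
    ∃ β : Prop, ((univ : Finset (Fin 10 × Fin n)).filter (fun p => ¬ (p ∈ A ↔ β))).card
      ≤ 380 * k * m := by
  obtain ⟨β, hβ⟩ := beta_zero hA hn hd hnd hm
  refine ⟨β, ?_⟩
  have hr : ∀ r : Fin 10, ((range n).filter (fun t => ¬ (P hn r t ∈ A ↔ β))).card
      ≤ 38 * k * m := by
    intro r
    have h1 := tri (range n) (fun t => P hn r t ∈ A) (fun t => P hn 0 t ∈ A) (fun _ => β)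
    have h2 := rails' hA hn r
    have h3 : 18 * k ≤ 18 * k * m := Nat.le_mul_of_pos_right _ (by omega)
    have h4 : 38 * k * m = 20 * k * m + 18 * k * m := by ring
    omega
  rw [card_eq_sum_card_fiberwise (f := Prod.fst) (t := (univ : Finset (Fin 10)))
    (fun _ _ => Finset.mem_coe.2 (mem_univ _))]
  have h5 : ∀ r ∈ (univ : Finset (Fin 10)),
      (((univ : Finset (Fin 10 × Fin n)).filter (fun p => ¬ (p ∈ A ↔ β))).filter
        (fun p => p.1 = r)).card ≤ 38 * k * m := by
    intro r _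
    refine le_trans ?_ (hr r)
    refine card_le_card_of_injOn (fun p => p.2.val) ?_ ?_
    · rintro ⟨q, t⟩ hp
      have hp' := mem_filter.1 (Finset.mem_coe.1 hp)
      have hq : q = r := hp'.2
      have hb := (mem_filter.1 hp'.1).2
      subst hq
      refine Finset.mem_coe.2 (mem_filter.2 ⟨mem_range.2 t.isLt, ?_⟩)
      show ¬ (P hn q t.val ∈ A ↔ β)
      rw [P_val]
      exact hb
    · rintro ⟨q, t⟩ hp ⟨q', t'⟩ hp' h
      have e1 : q = r := (mem_filter.1 (Finset.mem_coe.1 hp)).2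
      have e2 : q' = r := (mem_filter.1 (Finset.mem_coe.1 hp')).2
      have e3 : t = t' := Fin.ext h
      rw [e1, e2, e3]
  refine le_trans (sum_le_sum h5) ?_
  rw [sum_const, card_univ, Fintype.card_fin, smul_eq_mul]
  apply le_of_eq
  ring

end PentUnbAux

open PentUnbAux Classical in
theorem pentUnb : S_PentUnb := by
  intro hcut hchain k
  have hmpos : 0 < 2 * k + 1 := by omega
  have hdpos : 0 < 300 * (k + 1) := by omega
  refine ⟨(300 * (k + 1)) * (2 * k + 1), 300 * (k + 1), Nat.mul_pos hdpos hmpos, ?_⟩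
  intro hcw
  obtain ⟨m, hm⟩ : ∃ m, m = 2 * k + 1 := ⟨_, rfl⟩
  obtain ⟨d, hd⟩ : ∃ d, d = 300 * (k + 1) := ⟨_, rfl⟩
  rw [← hm, ← hd] at hcw
  rw [← hm] at hmpos
  rw [← hd] at hdpos
  obtain ⟨n, hnd⟩ : ∃ n, n = d * m := ⟨_, rfl⟩
  rw [← hnd] at hcw
  have hn : 0 < n := by rw [hnd]; exact Nat.mul_pos hdpos hmpos
  have huniv : (Set.univ : Set (Fin 10 × Fin n)).ncard = 10 * n := by
    rw [Set.ncard_univ, Nat.card_eq_fintype_card, Fintype.card_prod, Fintype.card_fin,
      Fintype.card_fin]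
  obtain ⟨A, hA1, hA2, hA3⟩ := hcut _ (HD n d)ᶜ k hcw Set.univ (by rw [huniv]; omega)
  rw [Set.inter_univ, huniv] at hA1 hA2
  have hCh : Ch n d k A := fun T a b h1 h2 h3 h4 =>
    hchain _ (HD n d) A k hA3 T a b h1 h2 h3 h4
  obtain ⟨β, hβ⟩ := beta_all hCh hn hdpos hnd (by omega : 2 * k < m)
  have hcardA : A.ncard = ((Finset.univ : Finset (Fin 10 × Fin n)).filter (fun p => p ∈ A)).card := by
    rw [Set.ncard_eq_toFinset_card']
    congr 1
    ext p
    simp
  have hsum := Finset.card_filter_add_card_filter_not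
    (s := (Finset.univ : Finset (Fin 10 × Fin n))) (fun p => p ∈ A)
  rw [← hcardA, Finset.card_univ, Fintype.card_prod, Fintype.card_fin, Fintype.card_fin] at hsum
  have hbig : 1140 * k * m < 10 * n := by
    rw [hnd, hd]
    have h1 : 10 * (300 * (k + 1) * m) = 1140 * k * m + (1860 * k * m + 3000 * m) := by ring
    rw [h1]
    have h2 : 0 < 3000 * m := by omega
    have h3 : 0 ≤ 1860 * k * m := Nat.zero_le _
    omega
  by_cases hb : β
  · have h1 : ((Finset.univ : Finset (Fin 10 × Fin n)).filter (fun p => ¬ (p ∈ A))).card ≤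
        380 * k * m := by
      refine le_trans (Finset.card_le_card ?_) hβ
      intro p hp
      rw [Finset.mem_filter] at hp ⊢
      exact ⟨hp.1, fun h => hp.2 (h.2 hb)⟩
    have h2 : 1140 * k * m = 3 * (380 * k * m) := by ring
    omega
  · have h1 : A.ncard ≤ 380 * k * m := by
      rw [hcardA]
      refine le_trans (Finset.card_le_card ?_) hβ
      intro p hp
      rw [Finset.mem_filter] at hp ⊢
      exact ⟨hp.1, fun h => hb (h.1 hp.2)⟩
    have h2 : 1140 * k * m = 3 * (380 * k * m) := by ring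
    omega

end Pool.Agent.MPd439b2
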