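import Pool.Agent.Lib.MP_d439b2_co.B.SpecT

set_option autoImplicit false

namespace Pool.Agent.MPd439b2

namespace TAAaux

theorem exMin {n : ℕ} (P : Set (TS n)) :
    (∀ p, Sum.inl p ∉ P) ∨ ∃ a b, Sum.inl (a, b) ∈ P ∧ ∀ a' b', Sum.inl (a', b') ∈ P → a ≤ a' := by
  classical
  by_cases h : ∀ p, Sum.inl p ∉ P
  · exact Or.inl h
  · right
    push Not at h
    obtain ⟨⟨a0, b0⟩, h0⟩ := h
    have hne : ({a | ∃ b, Sum.inl (a, b) ∈ P} : Set (Fin n)).Nonempty := ⟨a0, b0, h0⟩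
    obtain ⟨a, ⟨b, hab⟩, hmin⟩ := WellFounded.has_min (wellFounded_lt (α := Fin n)) _ hne
    refine ⟨a, b, hab, ?_⟩
    intro a' b' h'
    exact not_lt.mp (hmin a' ⟨b', h'⟩)

theorem exMax {n : ℕ} (P : Set (TS n)) (hP : P.Nonempty) (h : ∀ p, Sum.inl p ∉ P) :
    ∃ k, Sum.inr k ∈ P ∧ ∀ l, Sum.inr l ∈ P → l ≤ k := by
  classical
  obtain ⟨u, hu⟩ := hP
  have hne : ({k | Sum.inr k ∈ P} : Set (Fin n)).Nonempty := by
    rcases u with p | k
    · exact absurd hu (h p)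
    · exact ⟨k, hu⟩
  obtain ⟨k, hk, hmax⟩ := WellFounded.has_min (wellFounded_gt (α := Fin n)) _ hne
  exact ⟨k, hk, fun l hl => not_lt.mp (hmax l hl)⟩

theorem K {n : ℕ} (P Q P₁ P₂ : Set (TS n)) (dP : Disjoint P₁ P₂) (c1 : Cpl TR P P₁) (c2 : Cpl TR P P₂)
    (a b : Fin n) (hab : Sum.inl (a, b) ∈ P) (hq : ∀ c d, Sum.inl (c, d) ∈ Q → a ≤ c) :
    Cpl TR Q P₁ ∨ Cpl TR Q P₂ := by
  have gen : ∀ P' : Set (TS n), Cpl TR P P' → Sum.inl (a, b) ∉ P' → Cpl TR Q P' := by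
    intro P' hc hn u hu v hv
    have hav := hc _ hab v hv
    rcases v with q | k
    · have hq' : (a, b) = q := hav
      subst hq'
      exact absurd hv hn
    · have hka : k ≤ a := hav
      rcases u with ⟨c, d⟩ | l
      · exact le_trans hka (hq c d hu)
      · exact trivial
  by_cases h : Sum.inl (a, b) ∈ P₁
  · right
    exact gen P₂ c2 (fun h2 => Set.disjoint_left.mp dP h h2)
  · left
    exact gen P₁ c1 h

theorem L {n : ℕ} (P Q P₁ : Set (TS n)) (hQ : ∀ p, Sum.inl p ∉ Q) (c1 : Cpl TR P P₁) (k : Fin n)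
    (hk : Sum.inr k ∈ P) (hmax : ∀ l, Sum.inr l ∈ Q → l ≤ k) : Cpl TR Q P₁ := by
  intro u hu v hv
  rcases u with p | l
  · exact absurd hu (hQ p)
  · have hkv := c1 _ hk v hv
    rcases v with q | m
    · have h1 : k ≤ q.2 := hkv
      exact le_trans (hmax l hu) h1
    · exact trivial

end TAAaux

open TAAaux in
theorem tAA : S_TAA := by
  intro n P Q P₁ P₂ Q₁ Q₂ hP hQ dP dQ c1 c2 c3 c4 h1 h2 h3 h4
  rcases exMin P with nP | ⟨a, b, hab, hmin⟩
  · rcases exMin Q with nQ | ⟨c, d, hcd, hmin'⟩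
    · obtain ⟨k, hk, hkmax⟩ := exMax P hP nP
      obtain ⟨l, hl, hlmax⟩ := exMax Q hQ nQ
      rcases le_total l k with hlk | hkl
      · exact h3 (L P Q P₁ nQ c1 k hk fun l' hl' => le_trans (hlmax l' hl') hlk)
      · exact h1 (L Q P Q₁ nP c3 l hl fun l' hl' => le_trans (hkmax l' hl') hkl)
    · rcases K Q P Q₁ Q₂ dQ c3 c4 c d hcd (fun a' b' h' => absurd h' (nP _)) with h | h
      · exact h1 h
      · exact h2 h
  · rcases exMin Q with nQ | ⟨c, d, hcd, hmin'⟩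
    · rcases K P Q P₁ P₂ dP c1 c2 a b hab (fun a' b' h' => absurd h' (nQ _)) with h | h
      · exact h3 h
      · exact h4 h
    · rcases le_total a c with hac | hca
      · rcases K P Q P₁ P₂ dP c1 c2 a b hab (fun a' b' h' => le_trans hac (hmin' a' b' h')) with h | h
        · exact h3 h
        · exact h4 h
      · rcases K Q P Q₁ Q₂ dQ c3 c4 c d hcd (fun a' b' h' => le_trans hca (hmin a' b' h')) with h | h
        · exact h1 h
        · exact h2 h

end Pool.Agent.MPd439b2
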