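import Pool.Agent.Lib.MP_d439b2_co.B.SpecT

set_option autoImplicit false

namespace Pool.Agent.MPd439b2

namespace TABaux

theorem exMin {n : ℕ} (P : Set (TS n)) :
    (∀ p, Sum.inl p ∉ P) ∨ ∃ a b, Sum.inl (a, b) ∈ P ∧ ∀ a' b', Sum.inl (a', b') ∈ P → a ≤ a' := by
  classical
  by_cases h : ∀ p, Sum.inl p ∉ P
  · exact Or.inl h
  · right
    push Not at h
    obtain ⟨⟨a0, b0⟩, h0⟩ := h
    have hne : ({a | ∃ b, Sum.inl (a, b) ∈ P} : Set (Fin n)).Nonempty := ⟨a0, b0, h0⟩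
    obtain ⟨a, ⟨b, hab⟩, hmin⟩ := WellFounded.has_min (wellFounded_lt (α := Fin n)) _ hne
    refine ⟨a, b, hab, ?_⟩
    intro a' b' h'
    exact not_lt.mp (hmin a' ⟨b', h'⟩)

/-- an element of `Q₁` which is not complete to `P'` -/
theorem exC {n : ℕ} (P P' Q₁ : Set (TS n)) (cP : Cpl TR P P') (a b : Fin n) (hab : Sum.inl (a, b) ∈ P)
    (hn : Sum.inl (a, b) ∉ P') (h1 : ¬ Cpl TR Q₁ P') :
    ∃ c d, Sum.inl (c, d) ∈ Q₁ ∧ c < a := by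
  unfold Cpl at h1
  push Not at h1
  obtain ⟨u, hu, v, hv, huv⟩ := h1
  have hav := cP _ hab v hv
  rcases v with q | k
  · have hq' : (a, b) = q := hav
    subst hq'
    exact absurd hv hn
  · have hka : k ≤ a := hav
    rcases u with ⟨c, d⟩ | l
    · have hck : ¬ k ≤ c := huv
      exact ⟨c, d, hu, lt_of_lt_of_le (not_le.mp hck) hka⟩
    · exact absurd trivial huv

theorem M {n : ℕ} (P Q P' Q₁ Q₂ : Set (TS n)) (dQ : Disjoint Q₁ Q₂) (cP : Cpl TR P P')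
    (cQ1 : Cpl TR Q₁ Q) (cQ2 : Cpl TR Q₂ Q) (a b : Fin n) (hab : Sum.inl (a, b) ∈ P)
    (hmin : ∀ a' b', Sum.inl (a', b') ∈ P → a ≤ a') (hn : Sum.inl (a, b) ∉ P')
    (h1 : ¬ Cpl TR Q₁ P') (h2 : ¬ Cpl TR Q₂ P') : Cpl TR P Q := by
  obtain ⟨c₁, d₁, hu₁, hc₁⟩ := exC P P' Q₁ cP a b hab hn h1
  obtain ⟨c₂, d₂, hu₂, hc₂⟩ := exC P P' Q₂ cP a b hab hn h2
  intro u hu q hq
  have t1 := cQ1 _ hu₁ q hq
  have t2 := cQ2 _ hu₂ q hq
  rcases q with r | l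
  · have e1 : (c₁, d₁) = r := t1
    have e2 : (c₂, d₂) = r := t2
    subst e2
    rw [e1] at hu₁
    exact absurd hu₂ (Set.disjoint_left.mp dQ hu₁)
  · have hl : l ≤ c₁ := t1
    rcases u with ⟨a', b'⟩ | m
    · exact le_trans (le_trans hl hc₁.le) (hmin a' b' hu)
    · exact trivial

theorem N {n : ℕ} (P Q P₁ P₂ Q₁ Q₂ : Set (TS n)) (dP : Disjoint P₁ P₂) (dQ : Disjoint Q₁ Q₂)
    (c1 : Cpl TR P P₁) (c2 : Cpl TR P P₂) (c3 : Cpl TR Q₁ Q) (c4 : Cpl TR Q₂ Q) (h0 : ¬ Cpl TR P Q)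
    (h1 : ¬ Cpl TR Q₁ P₁) (h2 : ¬ Cpl TR Q₁ P₂) (h3 : ¬ Cpl TR Q₂ P₁) (h4 : ¬ Cpl TR Q₂ P₂) (a b : Fin n)
    (hab : Sum.inl (a, b) ∈ P) (hmin : ∀ a' b', Sum.inl (a', b') ∈ P → a ≤ a') : False := by
  by_cases h : Sum.inl (a, b) ∈ P₁
  · exact h0 (M P Q P₂ Q₁ Q₂ dQ c2 c3 c4 a b hab hmin (fun h' => Set.disjoint_left.mp dP h h') h2 h4)
  · exact h0 (M P Q P₁ Q₁ Q₂ dQ c1 c3 c4 a b hab hmin h h1 h3)

/-- the symmetry -/
def sw {n : ℕ} : TS n → TS n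
  | Sum.inl p => Sum.inl (p.2, p.1)
  | Sum.inr k => Sum.inr k

theorem sw_sw {n : ℕ} (u : TS n) : sw (sw u) = u := by
  rcases u with p | k <;> rfl

theorem sw_TR {n : ℕ} (u v : TS n) : TR (sw v) (sw u) ↔ TR u v := by
  rcases u with ⟨a, b⟩ | k <;> rcases v with ⟨c, d⟩ | l
  · constructor
    · intro h
      have h' : ((d, c) : Fin n × Fin n) = (b, a) := h
      have : (a, b) = (c, d) := by
        rw [Prod.mk.injEq] at h' ⊢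
        exact ⟨h'.2.symm, h'.1.symm⟩
      exact this
    · intro h
      have h' : ((a, b) : Fin n × Fin n) = (c, d) := h
      have : ((d, c) : Fin n × Fin n) = (b, a) := by
        rw [Prod.mk.injEq] at h' ⊢
        exact ⟨h'.2.symm, h'.1.symm⟩
      exact this
  · exact Iff.rfl
  · exact Iff.rfl
  · exact Iff.rfl

theorem sw_Cpl {n : ℕ} (P Q : Set (TS n)) : Cpl TR (sw '' Q) (sw '' P) ↔ Cpl TR P Q := by
  constructor
  · intro h u hu v hv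
    exact (sw_TR u v).mp (h _ ⟨v, hv, rfl⟩ _ ⟨u, hu, rfl⟩)
  · rintro h _ ⟨v, hv, rfl⟩ _ ⟨u, hu, rfl⟩
    exact (sw_TR u v).mpr (h u hu v hv)

theorem sw_disj {n : ℕ} (P Q : Set (TS n)) (h : Disjoint P Q) : Disjoint (sw '' P) (sw '' Q) := by
  rw [Set.disjoint_left]
  rintro _ ⟨u, hu, rfl⟩ ⟨v, hv, hvu⟩
  have : v = u := by rw [← sw_sw v, hvu, sw_sw]
  subst this
  exact Set.disjoint_left.mp h hu hv

end TABaux

open TABaux in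
theorem tAB : S_TAB := by
  intro n P Q P₁ P₂ Q₁ Q₂ hP hQ dP dQ c1 c2 c3 c4 h0 h1 h2 h3 h4
  rcases exMin P with nP | ⟨a, b, hab, hmin⟩
  · rcases exMin (sw '' Q) with nQ | ⟨a, b, hab, hmin⟩
    · apply h0
      intro u hu v hv
      rcases u with p | k
      · exact absurd hu (nP p)
      · rcases v with q | l
        · exact absurd ⟨_, hv, rfl⟩ (nQ (q.2, q.1))
        · exact trivial
    · exact N (sw '' Q) (sw '' P) (sw '' Q₁) (sw '' Q₂) (sw '' P₁) (sw '' P₂) (sw_disj _ _ dQ) (sw_disj _ _ dP)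
        ((sw_Cpl _ _).mpr c3) ((sw_Cpl _ _).mpr c4) ((sw_Cpl _ _).mpr c1) ((sw_Cpl _ _).mpr c2)
        (fun h => h0 ((sw_Cpl _ _).mp h)) (fun h => h1 ((sw_Cpl _ _).mp h)) (fun h => h3 ((sw_Cpl _ _).mp h))
        (fun h => h2 ((sw_Cpl _ _).mp h)) (fun h => h4 ((sw_Cpl _ _).mp h)) a b hab hmin
  · exact N P Q P₁ P₂ Q₁ Q₂ dP dQ c1 c2 c3 c4 h0 h1 h2 h3 h4 a b hab hmin

end Pool.Agent.MPd439b2
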