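import Pool.Agent.Lib.MP_d439b2_co.B.SpecT

/-!
# MP_d439b2_co, Spec T, T3 : the excluded induced minors of `TG n`
-/

set_option autoImplicit false

namespace Pool.Agent.MPd439b2

namespace TExclAux

variable {n : ℕ} {W : Type}

/-- two non-adjacent vertices of `H` give sets on different sides, completely related -/
theorem sides {H : SimpleGraph W} {B : W → Set (TS n ⊕ TS n)}
    (hdj : ∀ w w', w ≠ w' → Disjoint (B w) (B w'))
    (hadj : ∀ w w', w ≠ w' → (H.Adj w w' ↔ ∃ x ∈ B w, ∃ y ∈ B w', (TG n).Adj x y))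
    {w w' : W} (hne : w ≠ w') (hw : ¬ H.Adj w w') {x y : TS n ⊕ TS n} (hx : x ∈ B w)
    (hy : y ∈ B w') :
    (∃ u v, x = Sum.inl u ∧ y = Sum.inr v ∧ TR u v) ∨
      (∃ u v, x = Sum.inr v ∧ y = Sum.inl u ∧ TR u v) := by
  have h1 : ¬ (TG n).Adj x y := fun h => hw ((hadj w w' hne).mpr ⟨x, hx, y, hy, h⟩)
  have h2 : x ≠ y := fun h => Set.disjoint_left.mp (hdj w w' hne) hx (h ▸ hy)
  rcases x with u | u <;> rcases y with v | v
  · exact absurd (show u ≠ v from fun h => h2 (by rw [h])) h1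
  · exact Or.inl ⟨u, v, rfl, rfl, not_not.mp h1⟩
  · exact Or.inr ⟨v, u, rfl, rfl, not_not.mp h1⟩
  · exact absurd (show u ≠ v from fun h => h2 (by rw [h])) h1

theorem sideB {H : SimpleGraph W} {B : W → Set (TS n ⊕ TS n)}
    (hdj : ∀ w w', w ≠ w' → Disjoint (B w) (B w'))
    (hadj : ∀ w w', w ≠ w' → (H.Adj w w' ↔ ∃ x ∈ B w, ∃ y ∈ B w', (TG n).Adj x y))
    {w w' : W} (hne : w ≠ w') (hw : ¬ H.Adj w w') {x y : TS n ⊕ TS n} (hx : x ∈ B w)
    (hy : y ∈ B w') : x.isLeft = !y.isLeft := by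
  rcases sides hdj hadj hne hw hx hy with ⟨a, b, h1, h2, -⟩ | ⟨a, b, h1, h2, -⟩
  · rw [h1, h2]; rfl
  · rw [h1, h2]; rfl

/-- the part of `B w` on the left side -/
def PL (B : W → Set (TS n ⊕ TS n)) (w : W) : Set (TS n) := {u | Sum.inl u ∈ B w}

/-- the part of `B w` on the right side -/
def PR (B : W → Set (TS n ⊕ TS n)) (w : W) : Set (TS n) := {u | Sum.inr u ∈ B w}

theorem core (hAA : S_TAA) (hAB : S_TAB) {B : Fin 6 → Set (TS n ⊕ TS n)}
    (hne : ∀ w, (B w).Nonempty)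
    (hdj : ∀ w w', w ≠ w' → Disjoint (B w) (B w'))
    (hadj : ∀ w w', w ≠ w' → (co2P3.Adj w w' ↔ ∃ x ∈ B w, ∃ y ∈ B w', (TG n).Adj x y))
    (h0 : ∃ u, Sum.inl u ∈ B 0) : False := by
  obtain ⟨u0, hu0⟩ := h0
  -- leaf of a left centre is right
  have leafR : ∀ c l : Fin 6, c ≠ l → ¬ co2P3.Adj c l → (∃ u, Sum.inl u ∈ B c) →
      ∀ x ∈ B l, ∃ v, x = Sum.inr v := by
    intro c l hcl hn ⟨u, hu⟩ x hx
    rcases sides hdj hadj hcl hn hu hx with ⟨a, b, h1, h2, h3⟩ | ⟨a, b, h1, h2, h3⟩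
    · exact ⟨b, h2⟩
    · exact absurd h1 (by simp)
  have leafL : ∀ c l : Fin 6, c ≠ l → ¬ co2P3.Adj c l → (∃ u, Sum.inr u ∈ B c) →
      ∀ x ∈ B l, ∃ v, x = Sum.inl v := by
    intro c l hcl hn ⟨u, hu⟩ x hx
    rcases sides hdj hadj hcl hn hu hx with ⟨a, b, h1, h2, h3⟩ | ⟨a, b, h1, h2, h3⟩
    · exact absurd h1 (by simp)
    · exact ⟨a, h2⟩
  have n01 : ¬ co2P3.Adj 0 1 := by simp [co2P3]
  have n02 : ¬ co2P3.Adj 0 2 := by simp [co2P3]
  have n10 : ¬ co2P3.Adj 1 0 := by simp [co2P3]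
  have n34 : ¬ co2P3.Adj 3 4 := by simp [co2P3]
  have n35 : ¬ co2P3.Adj 3 5 := by simp [co2P3]
  have n43 : ¬ co2P3.Adj 4 3 := by simp [co2P3]
  have n53 : ¬ co2P3.Adj 5 3 := by simp [co2P3]
  have l1 := leafR 0 1 (by decide) n01 ⟨u0, hu0⟩
  have l2 := leafR 0 2 (by decide) n02 ⟨u0, hu0⟩
  have r1 : ∃ v, Sum.inr v ∈ B 1 := by
    obtain ⟨x, hx⟩ := hne 1
    obtain ⟨v, rfl⟩ := l1 x hx
    exact ⟨v, hx⟩
  have l0 := leafL 1 0 (by decide) n10 r1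
  -- completeness and non-completeness
  have cpl : ∀ c l : Fin 6, c ≠ l → ¬ co2P3.Adj c l → Cpl TR (PL B c) (PR B l) := by
    intro c l hcl hn u hu v hv
    rcases sides hdj hadj hcl hn hu hv with ⟨a, b, h1, h2, h3⟩ | ⟨a, b, h1, h2, h3⟩
    · rw [Sum.inl.inj h1, Sum.inr.inj h2]; exact h3
    · exact absurd h1 (by simp)
  have ncpl : ∀ c l : Fin 6, c ≠ l → co2P3.Adj c l → (∀ x ∈ B c, ∃ v, x = Sum.inl v) →
      (∀ x ∈ B l, ∃ v, x = Sum.inr v) → ¬ Cpl TR (PL B c) (PR B l) := by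
    intro c l hcl hn hc hl h
    obtain ⟨x, hx, y, hy, hxy⟩ := (hadj c l hcl).mp hn
    obtain ⟨u, rfl⟩ := hc x hx
    obtain ⟨v, rfl⟩ := hl y hy
    exact hxy (h u hx v hy)
  have djR : ∀ c l : Fin 6, c ≠ l → Disjoint (PR B c) (PR B l) := by
    intro c l hcl
    rw [Set.disjoint_left]
    intro v hv hv'
    exact Set.disjoint_left.mp (hdj c l hcl) hv hv'
  have djL : ∀ c l : Fin 6, c ≠ l → Disjoint (PL B c) (PL B l) := by
    intro c l hcl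
    rw [Set.disjoint_left]
    intro v hv hv'
    exact Set.disjoint_left.mp (hdj c l hcl) hv hv'
  obtain ⟨x3, hx3⟩ := hne 3
  rcases x3 with u3 | u3
  · -- both centres on the left side
    have l4 := leafR 3 4 (by decide) n34 ⟨u3, hx3⟩
    have l5 := leafR 3 5 (by decide) n35 ⟨u3, hx3⟩
    have r4 : ∃ v, Sum.inr v ∈ B 4 := by
      obtain ⟨x, hx⟩ := hne 4
      obtain ⟨v, rfl⟩ := l4 x hx
      exact ⟨v, hx⟩
    have l3 := leafL 4 3 (by decide) n43 r4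
    exact hAA n (PL B 0) (PL B 3) (PR B 1) (PR B 2) (PR B 4) (PR B 5) ⟨u0, hu0⟩ ⟨u3, hx3⟩
      (djR 1 2 (by decide)) (djR 4 5 (by decide))
      (cpl 0 1 (by decide) n01) (cpl 0 2 (by decide) n02)
      (cpl 3 4 (by decide) n34) (cpl 3 5 (by decide) n35)
      (ncpl 0 4 (by decide) (by simp [co2P3]) l0 l4)
      (ncpl 0 5 (by decide) (by simp [co2P3]) l0 l5)
      (ncpl 3 1 (by decide) (by simp [co2P3]) l3 l1)
      (ncpl 3 2 (by decide) (by simp [co2P3]) l3 l2)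
  · -- centres on different sides
    have l4 := leafL 3 4 (by decide) n34 ⟨u3, hx3⟩
    have l5 := leafL 3 5 (by decide) n35 ⟨u3, hx3⟩
    have r4 : ∃ v, Sum.inl v ∈ B 4 := by
      obtain ⟨x, hx⟩ := hne 4
      obtain ⟨v, rfl⟩ := l4 x hx
      exact ⟨v, hx⟩
    have l3 := leafR 4 3 (by decide) n43 r4
    exact hAB n (PL B 0) (PR B 3) (PR B 1) (PR B 2) (PL B 4) (PL B 5) ⟨u0, hu0⟩ ⟨u3, hx3⟩
      (djR 1 2 (by decide)) (djL 4 5 (by decide))
      (cpl 0 1 (by decide) n01) (cpl 0 2 (by decide) n02)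
      (cpl 4 3 (by decide) n43) (cpl 5 3 (by decide) n53)
      (ncpl 0 3 (by decide) (by simp [co2P3]) l0 l3)
      (ncpl 4 1 (by decide) (by simp [co2P3]) l4 l1)
      (ncpl 4 2 (by decide) (by simp [co2P3]) l4 l2)
      (ncpl 5 1 (by decide) (by simp [co2P3]) l5 l1)
      (ncpl 5 2 (by decide) (by simp [co2P3]) l5 l2)

/-- the symmetry of one side -/
def sw : TS n → TS n
  | Sum.inl p => Sum.inl (p.2, p.1)
  | Sum.inr k => Sum.inr k

theorem sw_sw (u : TS n) : sw (sw u) = u := by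
  rcases u with ⟨a, b⟩ | k <;> rfl

theorem TR_sw (u v : TS n) : TR (sw v) (sw u) ↔ TR u v := by
  rcases u with ⟨a, b⟩ | k <;> rcases v with ⟨c, d⟩ | l
  · show ((d, c) = (b, a)) ↔ ((a, b) = (c, d))
    simp only [Prod.mk.injEq]
    constructor
    · rintro ⟨h1, h2⟩; exact ⟨h2.symm, h1.symm⟩
    · rintro ⟨h1, h2⟩; exact ⟨h2.symm, h1.symm⟩
  · exact Iff.rfl
  · exact Iff.rfl
  · exact Iff.rfl

/-- exchange of the two sides -/
def sg : TS n ⊕ TS n → TS n ⊕ TS n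
  | Sum.inl u => Sum.inr (sw u)
  | Sum.inr v => Sum.inl (sw v)

theorem sg_sg (x : TS n ⊕ TS n) : sg (sg x) = x := by
  rcases x with u | u <;> simp [sg, sw_sw]

theorem sg_inj {x y : TS n ⊕ TS n} (h : sg x = sg y) : x = y := by
  rw [← sg_sg x, h, sg_sg]

theorem adj_sg (x y : TS n ⊕ TS n) : (TG n).Adj (sg x) (sg y) ↔ (TG n).Adj x y := by
  rcases x with u | u <;> rcases y with v | v
  · show (sw u ≠ sw v) ↔ (u ≠ v)
    constructor
    · intro h h'; exact h (by rw [h'])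
    · intro h h'; exact h (by rw [← sw_sw u, h', sw_sw])
  · show (¬ TR (sw v) (sw u)) ↔ ¬ TR u v
    rw [TR_sw]
  · show (¬ TR (sw u) (sw v)) ↔ ¬ TR v u
    rw [TR_sw]
  · show (sw u ≠ sw v) ↔ (u ≠ v)
    constructor
    · intro h h'; exact h (by rw [h'])
    · intro h h'; exact h (by rw [← sw_sw u, h', sw_sw])

theorem main (hAA : S_TAA) (hAB : S_TAB) (n : ℕ) : ¬ IsIndMinor co2P3 (TG n) := by
  rintro ⟨B, hc, hdj, hadj⟩
  have hne : ∀ w, (B w).Nonempty := fun w => Set.nonempty_coe_sort.mp (hc w).nonempty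
  obtain ⟨x0, hx0⟩ := hne 0
  rcases x0 with u | u
  · exact core hAA hAB hne hdj hadj ⟨u, hx0⟩
  · refine core hAA hAB (B := fun w => {x | sg x ∈ B w}) ?_ ?_ ?_ ⟨sw u, ?_⟩
    · intro w
      obtain ⟨x, hx⟩ := hne w
      exact ⟨sg x, by rw [Set.mem_ofPred_eq, sg_sg]; exact hx⟩
    · intro w w' hw
      rw [Set.disjoint_left]
      intro x hx hx'
      exact Set.disjoint_left.mp (hdj w w' hw) hx hx'
    · intro w w' hw
      rw [hadj w w' hw]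
      constructor
      · rintro ⟨x, hx, y, hy, hxy⟩
        refine ⟨sg x, by rw [Set.mem_ofPred_eq, sg_sg]; exact hx, sg y,
          by rw [Set.mem_ofPred_eq, sg_sg]; exact hy, (adj_sg x y).mpr hxy⟩
      · rintro ⟨x, hx, y, hy, hxy⟩
        exact ⟨sg x, hx, sg y, hy, (adj_sg x y).mpr hxy⟩
    · show sg (Sum.inl (sw u)) ∈ B 0
      show (Sum.inr (sw (sw u)) : TS n ⊕ TS n) ∈ B 0
      rw [sw_sw]; exact hx0

theorem three (n : ℕ) (W : Type) (H : SimpleGraph W) (w₁ w₂ w₃ : W) (h12 : w₁ ≠ w₂)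
    (h13 : w₁ ≠ w₃) (h23 : w₂ ≠ w₃) (n12 : ¬ H.Adj w₁ w₂) (n13 : ¬ H.Adj w₁ w₃)
    (n23 : ¬ H.Adj w₂ w₃) : ¬ IsIndMinor H (TG n) := by
  rintro ⟨B, hc, hdj, hadj⟩
  have hne : ∀ w, (B w).Nonempty := fun w => Set.nonempty_coe_sort.mp (hc w).nonempty
  obtain ⟨x1, hx1⟩ := hne w₁
  obtain ⟨x2, hx2⟩ := hne w₂
  obtain ⟨x3, hx3⟩ := hne w₃
  have e12 := sideB hdj hadj h12 n12 hx1 hx2
  have e13 := sideB hdj hadj h13 n13 hx1 hx3
  have e23 := sideB hdj hadj h23 n23 hx2 hx3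
  rw [e12, e23] at e13
  cases hh : x3.isLeft <;> rw [hh] at e13 <;> exact absurd e13 (by decide)

end TExclAux

/-- **T3.** -/
theorem tExcl : S_TExcl := fun hAA hAB =>
  ⟨TExclAux.three, TExclAux.main hAA hAB⟩

end Pool.Agent.MPd439b2
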