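import Pool.Agent.Lib.MP_d439b2_co.B.SpecT
import Pool.Agent.Lib.MP_d439b2_co.ImsTrans

/-!
# MP_d439b2_co, Spec T, T5 : the necessary condition
-/

set_option autoImplicit false

namespace Pool.Agent.MPd439b2

/-- **T5.** -/
theorem tMain : S_TMain := by
  intro hAA hAB hE hU hC W W' H H' ⟨w₁, w₂, w₃, h12, h13, h23, n12, n13, n23⟩ hH' ⟨c, hc⟩
  obtain ⟨hE1, hE2⟩ := hE hAA hAB
  have hn : 2 ≤ 10 * c + 2 := by omega
  have : Nonempty (TS (10 * c + 2) ⊕ TS (10 * c + 2)) :=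
    ⟨Sum.inl (Sum.inr ⟨0, by omega⟩)⟩
  refine hU hC c (10 * c + 2) (by omega) hn (hc _ (TG (10 * c + 2)) ?_ ?_)
  · exact hE1 _ W H w₁ w₂ w₃ h12 h13 h23 n12 n13 n23
  · intro h
    exact hE2 (10 * c + 2) (ims_univ_iff.mp (imsTrans _ _ _ _ _ _ _ (ims_univ_iff.mpr hH')
      (ims_univ_iff.mpr h)))

end Pool.Agent.MPd439b2
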