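import Pool.Agent.Lib.MP_d439b2_co.B.SpecR

/-!
# MP_d439b2_co, A1: the structure theorem from its parts
-/

set_option autoImplicit false

namespace Pool.Agent.MPd439b2

namespace A1Aux

variable {V : Type} {G : SimpleGraph V}

/-- fewer than `k` vertices meet fewer than `k` disjoint sets -/
theorem exists_free [Finite V] {B : ℕ → Set V} {I : Finset ℕ} {k : ℕ}
    (hd : ∀ i ∈ I, ∀ j ∈ I, i ≠ j → Disjoint (B i) (B j)) (hI : k ≤ I.card) {X : Set V}
    (hX : X.ncard < k) : ∃ j ∈ I, Disjoint (B j) X := by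
  classical
  by_contra hcon
  push Not at hcon
  have h1 : ∀ j : I, ∃ x, x ∈ B j.1 ∧ x ∈ X := by
    intro j
    have := hcon j.1 j.2
    rw [Set.not_disjoint_iff] at this
    exact this
  choose f hf hfX using h1
  have hinj : Function.Injective f := by
    intro a b hab
    by_contra hne
    have hne' : a.1 ≠ b.1 := fun h => hne (Subtype.ext h)
    exact Set.disjoint_left.mp (hd a.1 a.2 b.1 b.2 hne') (hf a) (hab ▸ hf b)
  have h2 : (Set.range f).ncard = I.card := by
    rw [← Set.image_univ, Set.ncard_image_of_injective _ hinj, Set.ncard_univ]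
    simp
  have h3 : (Set.range f).ncard ≤ X.ncard := by
    apply Set.ncard_le_ncard _ (Set.toFinite _)
    rintro _ ⟨j, rfl⟩
    exact hfX j
  omega

theorem deepV [Finite V] {t k : ℕ} {S Q : Set V} {B : Fin t → Set V} {B' : ℕ → Set V}
    (hB' : ∀ (i : ℕ) (h : i < t), B' i = B ⟨i, h⟩) (hB : CliqueModel G B) (hD : Deep G S k B)
    (hQ : k ≤ Q.ncard) (hQt : ∀ a ∈ Q, k ≤ (tau G (Finset.range t) B' {a}).card) :
    DeepV G S k Q := by
  intro X hX
  obtain ⟨a, haQ, haX⟩ : ∃ a ∈ Q, a ∉ X := by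
    by_contra hcon
    push Not at hcon
    have := Set.ncard_le_ncard hcon (Set.toFinite X)
    omega
  obtain ⟨j, hj, hjX⟩ := exists_free (B := B') (I := tau G (Finset.range t) B' {a}) (k := k) (by
    intro i hi j hj hij
    have hi' := Finset.mem_range.mp (mem_tau.mp hi).1
    have hj' := Finset.mem_range.mp (mem_tau.mp hj).1
    rw [hB' i hi', hB' j hj']
    exact (hB.2 _ _ (fun h => hij (by simpa using h))).1) (hQt a haQ) hX
  obtain ⟨hjt, hja⟩ := mem_tau.mp hj
  have hjt' := Finset.mem_range.mp hjt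
  rw [hB' j hjt'] at hja hjX
  obtain ⟨i, C, hCX, hC, hiC, hS⟩ := hD X hX
  have h1 : Conn G (C ∪ B ⟨j, hjt'⟩) := by
    apply hC.union (hB.1 _)
    by_cases hij : i = ⟨j, hjt'⟩
    · left
      obtain ⟨x, hx⟩ := (hB.1 i).1
      exact ⟨x, hiC hx, hij ▸ hx⟩
    · right
      exact (hB.2 i _ hij).2.mono hiC (le_refl _)
  refine ⟨a, haQ, (C ∪ B ⟨j, hjt'⟩) ∪ {a}, ?_, ?_, Or.inr rfl, ?_⟩
  · rw [Set.disjoint_left]
    rintro x ((hx | hx) | hx) hxX
    · exact Set.disjoint_left.mp hCX hx hxX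
    · exact Set.disjoint_left.mp hjX hx hxX
    · rw [Set.mem_singleton_iff] at hx
      exact haX (hx ▸ hxX)
  · apply h1.union (Conn.singleton G a)
    right
    exact (hja.symm).mono Set.subset_union_right (le_refl _)
  · refine lt_of_lt_of_le hS (Nat.mul_le_mul_left 2 ?_)
    exact Set.ncard_le_ncard (Set.inter_subset_inter_right S
      (fun x hx => Or.inl (Or.inl hx))) (Set.toFinite _)

end A1Aux

open A1Aux in
/-- **A1.** -/
theorem a1 : S_A1 := by
  intro hGK hQ hCore s N m r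
  obtain ⟨n, τ, hcore⟩ := hCore s N m
  obtain ⟨t₀, hq⟩ := hQ s N m (max n (τ + 2))
  obtain ⟨t, ht0, htk⟩ : ∃ t, t₀ ≤ t ∧ τ + 2 ≤ t := ⟨max t₀ (τ + 2), le_max_left _ _,
    le_max_right _ _⟩
  obtain ⟨θ, hgk⟩ := hGK t r (τ + 2) htk
  refine ⟨θ, τ, ?_⟩
  intro V _ G S hWL hS hfree hgrid
  rcases hgk θ (le_refl θ) V G S hWL hS with h | ⟨B, hB, hdeep⟩
  · exact absurd h hgrid
  let B' : ℕ → Set V := fun i => if h : i < t then B ⟨i, h⟩ else ∅
  have hB' : ∀ (i : ℕ) (h : i < t), B' i = B ⟨i, h⟩ := fun i h => dif_pos h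
  have hM : Mdl G (Finset.range t) B' := by
    refine ⟨?_, ?_⟩
    · intro i hi
      rw [hB' i (Finset.mem_range.mp hi)]
      exact hB.1 _
    · intro i hi j hj hij
      rw [hB' i (Finset.mem_range.mp hi), hB' j (Finset.mem_range.mp hj)]
      exact hB.2 _ _ (fun h => hij (by simpa using h))
  obtain ⟨Q₁, Q₂, hQd, hQ1, hQ2, hQa, hQt⟩ := hq t ht0 V G B' hfree hM
  obtain ⟨A₀, T, hQA, hT, hP4, hcomp⟩ := hcore V G Q₁ Q₂ hfree hQd
    ((le_max_left _ _).trans hQ1) ((le_max_left _ _).trans hQ2) hQa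
  have hdv : DeepV G S (τ + 2) Q₁ := deepV hB' hB hdeep ((le_max_right _ _).trans hQ1)
    (fun a ha => (le_max_right _ _).trans (hQt a ha))
  have hAT : (A₀ \ T) ∪ T = A₀ ∪ T := Set.sdiff_union_self
  refine ⟨A₀ \ T, T, hT, Set.disjoint_sdiff_left, ?_, ?_⟩
  · intro a ha b hb c hc d hd
    exact hP4 a ha.1 b hb.1 c hc.1 d hd.1
  · intro D hD
    rw [hAT] at hD
    have h1 := hcomp D hD
    have h2 : nb G D ∩ (A₀ \ T) = (nb G D ∩ A₀) \ T := by
      ext x
      simp only [Set.mem_inter_iff, Set.mem_sdiff, and_assoc]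
    refine ⟨by rw [h2]; exact h1, ?_⟩
    have h3 : nb G D ⊆ ((nb G D ∩ A₀) \ T) ∪ T := by
      intro x hx
      by_cases hxT : x ∈ T
      · exact Or.inr hxT
      · left
        refine ⟨⟨hx, ?_⟩, hxT⟩
        by_contra hxA
        exact hD.2.2 x (fun h => h.elim hxA hxT) hx
    have h4 : (nb G D).ncard < τ + 2 := by
      have h5 := Set.ncard_le_ncard h3 (Set.toFinite _)
      have h6 := Set.ncard_union_le ((nb G D ∩ A₀) \ T) T
      omega
    obtain ⟨a, haQ, C, hCX, hC, haC, hSC⟩ := hdv (nb G D) h4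
    have hCD : Disjoint C D := by
      rw [Set.disjoint_left]
      intro x hxC hxD
      have h5 := hC.eq_of_nb (C := C ∩ D) Set.inter_subset_left ⟨x, hxC, hxD⟩ (by
        rintro v hv ⟨hv1, b, hb, hbv⟩
        have hvD : v ∉ D := fun h => hv1 ⟨hv, h⟩
        exact Set.disjoint_left.mp hCX hv ⟨hvD, b, hb.2, hbv⟩)
      have h6 : a ∈ C ∩ D := by rw [h5]; exact haC
      exact (hD.1 h6.2) (Or.inl (hQA (Or.inl haQ)))
    have h5 : (S ∩ D).ncard + (S ∩ C).ncard ≤ S.ncard := by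
      rw [← Set.ncard_union_eq (by
        rw [Set.disjoint_left]
        rintro x ⟨_, hx⟩ ⟨_, hx'⟩
        exact Set.disjoint_left.mp hCD hx' hx) (Set.toFinite _) (Set.toFinite _)]
      exact Set.ncard_le_ncard (Set.union_subset Set.inter_subset_left Set.inter_subset_left)
        (Set.toFinite _)
    omega

end Pool.Agent.MPd439b2
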