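import Pool.Agent.Lib.MP_d439b2_co.B.SpecA

/-!
# MP_d439b2_co, Theorem B, A3: Theorem Q from its parts
-/

set_option autoImplicit false

namespace Pool.Agent.MPd439b2

namespace a3Aux

variable {V : Type} {G : SimpleGraph V}

theorem inj_of_mdl {I : Finset ℕ} {B : ℕ → Set V} {v : ℕ → V} (hM : Mdl G I B)
    (hv : ∀ i ∈ I, v i ∈ B i) {i j : ℕ} (hi : i ∈ I) (hj : j ∈ I) (h : v i = v j) : i = j := by
  by_contra hne
  exact Set.disjoint_left.mp (hM.2 i hi j hj hne).1 (hv i hi) (h ▸ hv j hj)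

theorem ncard_image {T : Finset ℕ} {v : ℕ → V} (hv : ∀ i ∈ T, ∀ j ∈ T, v i = v j → i = j) :
    (v '' (T : Set ℕ)).ncard = T.card := by
  rw [Set.InjOn.ncard_image (fun i hi j hj h => hv i hi j hj h), Set.ncard_coe_finset]

theorem tau_le {I : Finset ℕ} {B : ℕ → Set V} {D : Set V} {i : ℕ} :
    (tau G (I \ {i}) B D).card ≤ (tau G I B D).card := by
  refine Finset.card_le_card fun j hj => ?_
  rw [mem_tau] at hj ⊢
  exact ⟨(Finset.mem_sdiff.mp hj.1).1, hj.2⟩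

end a3Aux

open a3Aux in
theorem a3 : S_A3 := by
  intro hQ1b hQ2 hQ3 s N m n
  classical
  obtain ⟨p, L₀, hp, hQ3⟩ := hQ3 s N m n
  obtain ⟨g, hg⟩ := hQ2 s (n + n) p hp
  obtain ⟨n₁, hn₁⟩ := hQ1b s N m
  obtain ⟨t₀, ht₀⟩ := hn₁ (g + (L₀ + 4 * s + 2 + n))
  refine ⟨t₀ + n₁ + g, fun t ht V _ G B hF hM => ?_⟩
  obtain ⟨Bad, hBad, hgood⟩ := ht₀ t (by omega) V G B hF hM
  have hGd : ∀ i ∈ Finset.range t \ Bad, ∃ v ∈ B i,
      g + (L₀ + 4 * s + 2 + n) < (tau G (Finset.range t \ {i}) B {v}).card := by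
    intro i hi
    rw [Finset.mem_sdiff, Finset.mem_range] at hi
    exact hgood i hi.1 hi.2
  have hne : ∃ x : V, True := by
    by_cases h : 0 < t
    · obtain ⟨x, _⟩ := (hM.1 0 (Finset.mem_range.mpr h)).1
      exact ⟨x, trivial⟩
    · -- `t = 0`: then `g = 0`, use `Q2` with the empty set
      exfalso
      have h0 : n₁ ≤ 0 := by omega
      omega
  obtain ⟨x₀, _⟩ := hne
  have : Nonempty V := ⟨x₀⟩
  choose! v hv1 hv2 using hGd
  have hcard : g ≤ (Finset.range t \ Bad).card := by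
    have h1 := Finset.le_card_sdiff Bad (Finset.range t)
    rw [Finset.card_range] at h1
    omega
  have htau : ∀ i ∈ Finset.range t \ Bad, n ≤ (tau G (Finset.range t) B {v i}).card := by
    intro i hi
    have h1 := hv2 i hi
    have h2 : (tau G (Finset.range t \ {i}) B {v i}).card ≤ (tau G (Finset.range t) B {v i}).card :=
      tau_le
    omega
  have hsub : Finset.range t \ Bad ⊆ Finset.range t := Finset.sdiff_subset
  have hMGd : Mdl G (Finset.range t \ Bad) B :=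
    ⟨fun i hi => hM.1 i (hsub hi), fun i hi j hj => hM.2 i (hsub hi) j (hsub hj)⟩
  rcases hg (L₀ + 4 * s + 2 + n) (by omega) V G t B (Finset.range t \ Bad) v hF.1 hM hsub hcard
    (fun i hi => ⟨hv1 i hi, (hv2 i hi).le⟩) with ⟨T, hT, hTc, hTadj⟩ | ⟨T, hT, hTc, hTadj, J, hJ, hJc, hTJ⟩
  · obtain ⟨T₁, hT₁, hT₁c⟩ := Finset.exists_subset_card_eq (show n ≤ T.card by omega)
    have hinj : ∀ i ∈ T, ∀ j ∈ T, v i = v j → i = j := fun i hi j hj =>
      inj_of_mdl hMGd hv1 (hT hi) (hT hj)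
    have hT₂c : (T \ T₁).card = n := by
      rw [Finset.card_sdiff_of_subset hT₁, hTc, hT₁c]
      omega
    refine ⟨v '' (T₁ : Set ℕ), v '' ((T \ T₁ : Finset ℕ) : Set ℕ), ?_, ?_, ?_, ?_, ?_⟩
    · rw [Set.disjoint_left]
      rintro _ ⟨i, hi, rfl⟩ ⟨j, hj, hij⟩
      have hj' := Finset.mem_sdiff.mp (Finset.mem_coe.mp hj)
      have := hinj i (hT₁ (Finset.mem_coe.mp hi)) j hj'.1 hij.symm
      rw [← this] at hj'
      exact hj'.2 (Finset.mem_coe.mp hi)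
    · rw [ncard_image (fun i hi j hj => hinj i (hT₁ hi) j (hT₁ hj)), hT₁c]
    · rw [ncard_image (fun i hi j hj => hinj i (Finset.sdiff_subset hi) j (Finset.sdiff_subset hj)),
        hT₂c]
    · rintro _ ⟨i, hi, rfl⟩ _ ⟨j, hj, rfl⟩
      have hj' := Finset.mem_sdiff.mp (Finset.mem_coe.mp hj)
      refine hTadj i (hT₁ (Finset.mem_coe.mp hi)) j hj'.1 fun h => ?_
      rw [← h] at hj'
      exact hj'.2 (Finset.mem_coe.mp hi)
    · rintro _ ⟨i, hi, rfl⟩
      exact htau i (hT (hT₁ (Finset.mem_coe.mp hi)))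
  · have hJT : ∀ j ∈ J, j ∈ Finset.range t ∧ j ∉ T := fun j hj => Finset.mem_sdiff.mp (hJ hj)
    have hVB : VB G T J v B := by
      refine ⟨⟨fun j hj => hM.1 j (hJT j hj).1,
        fun i hi j hj => hM.2 i (hJT i hi).1 j (hJT j hj).1⟩, ?_, hTadj, ?_⟩
      · exact fun i hi j hj => inj_of_mdl hMGd hv1 (hT hi) (hT hj)
      · intro c hc j hj
        refine ⟨fun h => ?_, hTJ c hc j hj⟩
        have hne : c ≠ j := fun h' => (hJT j hj).2 (h' ▸ hc)
        exact Set.disjoint_left.mp (hM.2 c (hsub (hT hc)) j (hJT j hj).1 hne).1 (hv1 c (hT hc)) h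
    obtain ⟨Q₁, Q₂, h1, h2, h3, h4, h5⟩ := hQ3 V G T J v B hF hVB hTc (by omega)
    refine ⟨Q₁, Q₂, h1, h2, h3, h4, fun a ha => ?_⟩
    obtain ⟨c, hc, rfl⟩ := h5 a ha
    exact htau c (hT hc)

end Pool.Agent.MPd439b2
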