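import Pool.Agent.Lib.MP_d439b2_co.B.SpecA

set_option autoImplicit false

namespace Pool.Agent.MPd439b2

theorem a4 : S_A4 := by
  intro hCore hLink hGal s N m
  obtain ⟨q, n₂, hq, hL⟩ := hLink s N m
  obtain ⟨n, hn⟩ := hCore s q N hq
  refine ⟨n, 4 * n₂, ?_⟩
  intro V _ G Q₁ Q₂ hfree hdis h1 h2 hadj
  obtain ⟨A, hQA, hP4, hC⟩ := hn V G Q₁ Q₂ hfree.1 ⟨hdis, h1, h2, hadj⟩
  obtain ⟨T, hT, hD⟩ := hGal V G A n₂ (hL V G A hC hfree.2)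
  exact ⟨A, T, hQA, hT, hP4, hD⟩

end Pool.Agent.MPd439b2
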