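import Pool.Agent.Lib.MP_d439b2_co.B.SpecC

/-!
# MP_d439b2_co, Theorem B, C1: the largest linked set
-/

set_option autoImplicit false

namespace Pool.Agent.MPd439b2

namespace cSetAux

theorem lnk_base {V : Type} (G : SimpleGraph V) (Q : Set V) (q : ℕ) : Lnk G Q Q q :=
  ⟨Set.Subset.rfl, fun _ _ x hx hxF => ⟨{x}, Conn.singleton G x,
    Set.singleton_subset_iff.mpr ⟨hx, hxF⟩, rfl, ⟨x, rfl, hx⟩⟩⟩

theorem lnk_sUnion {V : Type} (G : SimpleGraph V) (Q : Set V) (q : ℕ) :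
    Lnk G Q (⋃₀ {X | Lnk G Q X q}) q := by
  refine ⟨Set.subset_sUnion_of_mem (lnk_base G Q q), fun F hF x hx hxF => ?_⟩
  obtain ⟨X, hX, hxX⟩ := hx
  obtain ⟨C, h1, h2, h3, h4⟩ := hX.2 F hF x hxX hxF
  exact ⟨C, h1, fun v hv => ⟨⟨X, hX, (h2 hv).1⟩, (h2 hv).2⟩, h3, h4⟩

theorem lnk_insert {V : Type} [Finite V] (G : SimpleGraph V) (Q A : Set V) (q : ℕ)
    (h : Lnk G Q A q) (w : V) (hw : q < (G.neighborSet w ∩ A).ncard) :
    Lnk G Q (insert w A) q := by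
  refine ⟨h.1.trans (Set.subset_insert w A), fun F hF x hx hxF => ?_⟩
  by_cases hxA : x ∈ A
  · obtain ⟨C, h1, h2, h3, h4⟩ := h.2 F hF x hxA hxF
    exact ⟨C, h1, fun v hv => ⟨Or.inr (h2 hv).1, (h2 hv).2⟩, h3, h4⟩
  · have hxw : x = w := hx.resolve_right hxA
    subst hxw
    obtain ⟨y, hy, hyF⟩ := Set.exists_mem_notMem_of_ncard_lt_ncard (lt_of_le_of_lt hF hw)
    obtain ⟨C, h1, h2, h3, z, hzC, hzQ⟩ := h.2 F hF y hy.2 hyF
    refine ⟨insert x C, h1.insert ⟨y, h3, SimpleGraph.Adj.symm hy.1⟩, ?_, Or.inl rfl, z, Or.inr hzC, hzQ⟩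
    rintro v (rfl | hv)
    · exact ⟨Or.inl rfl, hxF⟩
    · exact ⟨Or.inr (h2 hv).1, (h2 hv).2⟩

end cSetAux

open cSetAux in
/-- **C1** -/
theorem cSet : S_CSet := by
  intro V _ G Q₁ Q₂ q hB
  obtain ⟨_, hn1, hn2, hadj⟩ := hB
  have hA := lnk_sUnion G (Q₁ ∪ Q₂) q
  refine ⟨⋃₀ {X | Lnk G (Q₁ ∪ Q₂) X q}, hA, fun w hw => ?_, fun a ha => ?_⟩
  · by_contra hlt
    push Not at hlt
    exact hw ⟨_, lnk_insert G _ _ q hA w hlt, Or.inl rfl⟩
  · by_cases h1 : a ∈ Q₁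
    · refine lt_of_lt_of_le (show q < Q₂.ncard by omega) (Set.ncard_le_ncard ?_ (Set.toFinite _))
      intro b hb
      exact ⟨hadj a h1 b hb, hA.1 (Or.inr hb)⟩
    by_cases h2 : a ∈ Q₂
    · refine lt_of_lt_of_le (show q < Q₁.ncard by omega) (Set.ncard_le_ncard ?_ (Set.toFinite _))
      intro b hb
      exact ⟨(hadj b hb a h2).symm, hA.1 (Or.inl hb)⟩
    · by_contra hle
      push Not at hle
      have haF : a ∉ G.neighborSet a ∩ ⋃₀ {X | Lnk G (Q₁ ∪ Q₂) X q} :=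
        fun h => G.loopless.irrefl a h.1
      obtain ⟨C, hC, hCA, haC, z, hzC, hzQ⟩ := hA.2 _ hle a ha haF
      have hza : z ≠ a := by
        rintro rfl
        rcases hzQ with h | h
        · exact h1 h
        · exact h2 h
      obtain ⟨b, hb, c, hc, hbc⟩ := hC.2 {a} (Set.singleton_subset_iff.mpr haC) ⟨a, rfl⟩
        (fun h => hza (by rw [← h] at hzC; exact hzC))
      rw [Set.mem_singleton_iff] at hb
      subst hb
      exact (hCA hc.1).2 ⟨hbc, (hCA hc.1).1⟩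

end Pool.Agent.MPd439b2
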