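import Pool.Agent.Lib.MP_d439b2_co.B.SpecC

/-!
# MP_d439b2_co, Theorem B, C4: non-adjacent vertices of the core have many common neighbours
-/

set_option autoImplicit false

namespace Pool.Agent.MPd439b2

namespace comAux

theorem conn_bip {V : Type} (G : SimpleGraph V) (A B : Set V) (hA : A.Nonempty) (hB : B.Nonempty)
    (h : ∀ a ∈ A, ∀ b ∈ B, G.Adj a b) : Conn G (A ∪ B) := by
  refine ⟨hA.mono Set.subset_union_left, fun C hC hne hne' => ?_⟩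
  obtain ⟨v, hv, hvC⟩ : ∃ v ∈ A ∪ B, v ∉ C := by
    by_contra hcon
    push Not at hcon
    exact hne' (Set.Subset.antisymm hC hcon)
  obtain ⟨c, hc⟩ := hne
  obtain ⟨a, ha⟩ := hA
  obtain ⟨b, hb⟩ := hB
  rcases hC hc with hcA | hcB
  · rcases hv with hvA | hvB
    · by_cases hbC : b ∈ C
      · exact ⟨b, hbC, v, ⟨Or.inl hvA, hvC⟩, (h v hvA b hb).symm⟩
      · exact ⟨c, hc, b, ⟨Or.inr hb, hbC⟩, h c hcA b hb⟩
    · exact ⟨c, hc, v, ⟨Or.inr hvB, hvC⟩, h c hcA v hvB⟩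
  · rcases hv with hvA | hvB
    · exact ⟨c, hc, v, ⟨Or.inl hvA, hvC⟩, (h v hvA c hcB).symm⟩
    · by_cases haC : a ∈ C
      · exact ⟨a, haC, v, ⟨Or.inr hvB, hvC⟩, h a ha v hvB⟩
      · exact ⟨c, hc, a, ⟨Or.inl ha, haC⟩, (h a ha c hcB).symm⟩

theorem nonempty_sdiff {V : Type} [Finite V] (Q F : Set V) (q : ℕ) (hQ : q + 1 ≤ Q.ncard)
    (hF : F.ncard ≤ q) : (Q \ F).Nonempty := by
  obtain ⟨y, hy, hyF⟩ := Set.exists_mem_notMem_of_ncard_lt_ncard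
    (show F.ncard < Q.ncard by omega)
  exact ⟨y, hy, hyF⟩

end comAux

open comAux in
/-- **C4** -/
theorem com (hP : S_Path) : S_Com := by
  intro V _ G Q₁ Q₂ A q hB hL hfree x hx y hy hxy hnadj
  obtain ⟨_, hn1, hn2, hadj⟩ := hB
  by_contra hle
  push Not at hle
  set F : Set V := G.neighborSet x ∩ G.neighborSet y ∩ A with hF
  have hxF : x ∉ F := fun h => G.loopless.irrefl x h.1.1
  have hyF : y ∉ F := fun h => G.loopless.irrefl y h.1.2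
  obtain ⟨Cx, hCx, hCxA, hxC, z, hzC, hzQ⟩ := hL.2 F hle x hx hxF
  obtain ⟨Cy, hCy, hCyA, hyC, z', hzC', hzQ'⟩ := hL.2 F hle y hy hyF
  have hQ : Conn G ((Q₁ \ F) ∪ (Q₂ \ F)) := conn_bip G _ _ (nonempty_sdiff Q₁ F q hn1 hle)
    (nonempty_sdiff Q₂ F q hn2 hle) (fun a ha b hb => hadj a ha.1 b hb.1)
  have hzQF : z ∈ (Q₁ \ F) ∪ (Q₂ \ F) := by
    rcases hzQ with h | h
    · exact Or.inl ⟨h, (hCxA hzC).2⟩
    · exact Or.inr ⟨h, (hCxA hzC).2⟩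
  have hzQF' : z' ∈ (Q₁ \ F) ∪ (Q₂ \ F) := by
    rcases hzQ' with h | h
    · exact Or.inl ⟨h, (hCyA hzC').2⟩
    · exact Or.inr ⟨h, (hCyA hzC').2⟩
  have hC1 : Conn G (Cx ∪ ((Q₁ \ F) ∪ (Q₂ \ F))) := hCx.union hQ (Or.inl ⟨z, hzC, hzQF⟩)
  have hC2 : Conn G ((Cx ∪ ((Q₁ \ F) ∪ (Q₂ \ F))) ∪ Cy) :=
    hC1.union hCy (Or.inl ⟨z', Or.inr hzQF', hzC'⟩)
  have hCA : (Cx ∪ ((Q₁ \ F) ∪ (Q₂ \ F))) ∪ Cy ⊆ A \ F := by
    rintro v ((hv | (hv | hv)) | hv)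
    · exact hCxA hv
    · exact ⟨hL.1 (Or.inl hv.1), hv.2⟩
    · exact ⟨hL.1 (Or.inr hv.1), hv.2⟩
    · exact hCyA hv
  obtain ⟨l, p, hp0, hpl, hpC, hinj, hpadj, _, _⟩ := hP V G _ {x} {y} hC2
    ⟨x, Or.inl (Or.inl hxC), rfl⟩ ⟨y, Or.inr hyC, rfl⟩
  rw [Set.mem_singleton_iff] at hp0 hpl
  have hmem : ∀ i ≤ l, p i ∈ A ∧ p i ∉ F := fun i hi => hCA (hpC i hi)
  -- the length is at least two
  have hl0 : l ≠ 0 := by
    rintro rfl
    exact hxy (hp0.symm.trans hpl)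
  have hl1 : l ≠ 1 := by
    rintro rfl
    apply hnadj
    rw [← hp0, ← hpl]
    exact (hpadj 0 (by omega) 1 (by omega)).mpr (Or.inr rfl)
  by_cases hl2 : l = 2
  · subst hl2
    have h1 : G.Adj (p 0) (p 1) := (hpadj 0 (by omega) 1 (by omega)).mpr (Or.inr rfl)
    have h2 : G.Adj (p 2) (p 1) := (hpadj 2 (by omega) 1 (by omega)).mpr (Or.inl rfl)
    rw [hp0] at h1
    rw [hpl] at h2
    exact (hmem 1 (by omega)).2 ⟨⟨h1, h2⟩, (hmem 1 (by omega)).1⟩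
  · have h3 : 3 ≤ l := by omega
    have h01 : G.Adj (p 0) (p 1) := (hpadj 0 (by omega) 1 (by omega)).mpr (Or.inr rfl)
    have h12 : G.Adj (p 1) (p 2) := (hpadj 1 (by omega) 2 (by omega)).mpr (Or.inr rfl)
    have h23 : G.Adj (p 2) (p 3) := (hpadj 2 (by omega) 3 (by omega)).mpr (Or.inr rfl)
    have h02 : ¬ G.Adj (p 0) (p 2) := fun h => by
      rcases (hpadj 0 (by omega) 2 (by omega)).mp h with h | h <;> omega
    have h13 : ¬ G.Adj (p 1) (p 3) := fun h => by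
      rcases (hpadj 1 (by omega) 3 (by omega)).mp h with h | h <;> omega
    have h03 : G.Adj (p 0) (p 3) := hfree _ (hmem 0 (by omega)).1 _ (hmem 1 (by omega)).1 _
      (hmem 2 (by omega)).1 _ (hmem 3 (by omega)).1 h01 h12 h23 h02 h13
    rcases (hpadj 0 (by omega) 3 (by omega)).mp h03 with h | h <;> omega

end Pool.Agent.MPd439b2
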