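import Pool.Agent.Lib.MP_d439b2_co.B.SpecC

/-!
# MP_d439b2_co, Theorem B: existence of the core
-/

set_option autoImplicit false

namespace Pool.Agent.MPd439b2

namespace corePAux

theorem tch_singleton {V : Type} {G : SimpleGraph V} {a b : V} : Tch G {a} {b} ↔ G.Adj a b := by
  constructor
  · rintro ⟨x, hx, y, hy, hxy⟩
    rw [Set.mem_singleton_iff] at hx hy
    rwa [hx, hy] at hxy
  · intro h
    exact ⟨a, rfl, b, rfl, h⟩

theorem pathPat {V : Type} {G : SimpleGraph V} {a b c d : V} (hab : G.Adj a b)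
    (hbc : G.Adj b c) (hcd : G.Adj c d) (hac : ¬ G.Adj a c) (hbd : ¬ G.Adj b d)
    (had : ¬ G.Adj a d) : PathPat G ![{a}, {b}, {c}, {d}] := by
  have nab : a ≠ b := hab.ne
  have nbc : b ≠ c := hbc.ne
  have ncd : c ≠ d := hcd.ne
  have nac : a ≠ c := by
    rintro rfl
    exact had hcd
  have nbd : b ≠ d := by
    rintro rfl
    exact had hab
  have nad : a ≠ d := by
    rintro rfl
    exact hac hcd.symm
  have hv : ∀ i : Fin 4, (![{a}, {b}, {c}, {d}] : Fin 4 → Set V) i = {(![a, b, c, d]) i} := by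
    intro i
    fin_cases i <;> rfl
  have hinj : ∀ i j : Fin 4, i ≠ j → (![a, b, c, d] : Fin 4 → V) i ≠ (![a, b, c, d]) j := by
    intro i j hij
    fin_cases i <;> fin_cases j <;>
      first
        | exact absurd rfl hij
        | exact nab
        | exact nab.symm
        | exact nac
        | exact nac.symm
        | exact nad
        | exact nad.symm
        | exact nbc
        | exact nbc.symm
        | exact nbd
        | exact nbd.symm
        | exact ncd
        | exact ncd.symm
  have hadj : ∀ i j : Fin 4, i ≠ j →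
      (G.Adj ((![a, b, c, d] : Fin 4 → V) i) ((![a, b, c, d]) j) ↔
        i.val = j.val + 1 ∨ j.val = i.val + 1) := by
    intro i j hij
    fin_cases i <;> fin_cases j <;>
      first
        | exact absurd rfl hij
        | exact ⟨fun _ => by decide, fun _ => hab⟩
        | exact ⟨fun _ => by decide, fun _ => hab.symm⟩
        | exact ⟨fun _ => by decide, fun _ => hbc⟩
        | exact ⟨fun _ => by decide, fun _ => hbc.symm⟩
        | exact ⟨fun _ => by decide, fun _ => hcd⟩
        | exact ⟨fun _ => by decide, fun _ => hcd.symm⟩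
        | exact ⟨fun h => absurd h hac, fun h => absurd h (by decide)⟩
        | exact ⟨fun h => absurd h.symm hac, fun h => absurd h (by decide)⟩
        | exact ⟨fun h => absurd h hbd, fun h => absurd h (by decide)⟩
        | exact ⟨fun h => absurd h.symm hbd, fun h => absurd h (by decide)⟩
        | exact ⟨fun h => absurd h had, fun h => absurd h (by decide)⟩
        | exact ⟨fun h => absurd h.symm had, fun h => absurd h (by decide)⟩
  refine ⟨fun i => ?_, fun i j hij => ?_, fun i j hij => ?_⟩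
  · rw [hv]
    exact Conn.singleton G _
  · rw [hv, hv, Set.disjoint_singleton]
    exact hinj i j hij
  · rw [hv, hv, tch_singleton]
    exact hadj i j hij

end corePAux

theorem coreP : S_CSet → S_RC → S_Pat → S_Com → S_CoreP := by
  intro hCSet hRC hPat hCom s q N hq
  refine ⟨3 * (q + 1) + N, ?_⟩
  intro V _ G Q₁ Q₂ hKP hBip
  have hBipq : Bip G Q₁ Q₂ (q + 1) :=
    ⟨hBip.1, by have := hBip.2.1; omega, by have := hBip.2.2.1; omega, hBip.2.2.2⟩
  obtain ⟨A, hLnk, hlow, hhigh⟩ := hCSet V G Q₁ Q₂ q hBipq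
  have hrc : ∀ (r : ℕ) (x : ℕ → V) (F : Set V), (∀ i < r, x i ∈ A ∧ x i ∉ F) →
      (∀ i < r, ∀ j < r, x i = x j → i = j) → F ⊆ A → r + F.ncard ≤ q + 1 →
      ∃ X : ℕ → Set V, Mdl G (Finset.range (r + N)) X ∧ (∀ i < r + N, X i ⊆ A \ F) ∧
        ∀ i < r, x i ∈ X i := by
    intro r x F hx hinj hF hr
    exact hRC V G Q₁ Q₂ A q (3 * (q + 1) + N) hBip hLnk r N x F hx hinj hF hr (by omega)
  have hpat := hPat V G A s q hKP hq hhigh (by
    intro r x F hx hinj hF hr
    obtain ⟨X, hX1, hX2, hX3⟩ := hrc r x F hx hinj hF hr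
    refine ⟨X, ⟨fun i hi => hX1.1 i ?_, fun i hi j hj => hX1.2 i ?_ j ?_⟩,
      fun i hi => hX2 i (by omega), hX3⟩
    · rw [Finset.mem_range] at hi ⊢
      omega
    · rw [Finset.mem_range] at hi ⊢
      omega
    · rw [Finset.mem_range] at hj ⊢
      omega)
  have hP4 : P4Free G A := by
    intro a ha b hb c hc d hd hab hbc hcd hac hbd
    by_contra had
    refine hpat _ (corePAux.pathPat hab hbc hcd hac hbd had) ?_
    intro i
    refine Or.inl ?_
    fin_cases i
    · exact ⟨a, ha, rfl⟩
    · exact ⟨b, hb, rfl⟩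
    · exact ⟨c, hc, rfl⟩
    · exact ⟨d, hd, rfl⟩
  refine ⟨A, hLnk.1, hP4, ⟨hlow, hhigh, hrc, hpat, ?_⟩⟩
  exact hCom V G Q₁ Q₂ A q hBipq hLnk hP4

end Pool.Agent.MPd439b2
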