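import Pool.Agent.Lib.MP_d439b2_co.B.SpecC

/-! C12: the induced minor `DD N m` from short beginnings. -/

set_option autoImplicit false

namespace Pool.Agent.MPd439b2

namespace dDCAux

variable {V : Type}

theorem enum (T : Finset ℕ) (m : ℕ) (h : T.card = m) : ∃ κ : ℕ → ℕ, (∀ q < m, κ q ∈ T) ∧
    (∀ q < m, ∀ q' < m, κ q = κ q' → q = q') := by
  subst h
  refine ⟨fun q => if hq : q < T.card then (T.equivFin.symm ⟨q, hq⟩ : ℕ) else 0, ?_, ?_⟩
  · intro q hq
    simp only [hq, dif_pos]
    exact (T.equivFin.symm ⟨q, hq⟩).2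
  · intro q hq q' hq' he
    simp only [hq, hq', dif_pos] at he
    have h1 := T.equivFin.symm.injective (Subtype.ext he)
    simpa using h1

open Classical in
theorem greedy [Finite V] (S : ℕ → Set V) (Bad : Set V) (hV : Nonempty V) : ∀ T : Finset ℕ,
    (∀ k ∈ T, Bad.ncard + T.card ≤ (S k).ncard) → ∃ α : ℕ → V, (∀ k ∈ T, α k ∈ S k ∧ α k ∉ Bad) ∧
      (∀ k ∈ T, ∀ l ∈ T, α k = α l → k = l) := by
  intro T
  induction T using Finset.induction_on with
  | empty => intro _; exact ⟨fun _ => Classical.choice hV, by simp, by simp⟩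
  | @insert a T ha ih =>
    intro h
    obtain ⟨α, h1, h2⟩ := ih (fun k hk => by
      have := h k (Finset.mem_insert_of_mem hk)
      rw [Finset.card_insert_of_notMem ha] at this
      omega)
    have h3 : ∃ v ∈ S a, v ∉ Bad ∪ (α '' (T : Set ℕ)) := by
      by_contra hcon
      push Not at hcon
      have h4 : (S a).ncard ≤ (Bad ∪ (α '' (T : Set ℕ))).ncard :=
        Set.ncard_le_ncard (fun v hv => hcon v hv) (Set.toFinite _)
      have h5 := Set.ncard_union_le Bad (α '' (T : Set ℕ))
      have h6 : (α '' (T : Set ℕ)).ncard ≤ T.card := by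
        have := Set.ncard_image_le (f := α) (s := (T : Set ℕ)) (T.finite_toSet)
        rwa [Set.ncard_coe_finset] at this
      have h7 := h a (Finset.mem_insert_self _ _)
      rw [Finset.card_insert_of_notMem ha] at h7
      omega
    obtain ⟨v, hv1, hv2⟩ := h3
    have hne : ∀ k ∈ T, k ≠ a := fun k hk h => ha (h ▸ hk)
    refine ⟨fun k => if k = a then v else α k, ?_, ?_⟩
    · intro k hk
      rcases Finset.mem_insert.1 hk with rfl | hk
      · simp only [if_true]
        exact ⟨hv1, fun h => hv2 (Or.inl h)⟩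
      · simp only [hne k hk, if_false]
        exact h1 k hk
    · intro k hk l hl he
      rcases Finset.mem_insert.1 hk with hk' | hk'
      · rcases Finset.mem_insert.1 hl with hl' | hl'
        · rw [hk', hl']
        · exfalso
          simp only [hk', hne l hl', if_true, if_false] at he
          exact hv2 (Or.inr ⟨l, hl', he.symm⟩)
      · rcases Finset.mem_insert.1 hl with hl' | hl'
        · exfalso
          simp only [hl', hne k hk', if_true, if_false] at he
          exact hv2 (Or.inr ⟨k, hk', he⟩)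
        · simp only [hne l hl', hne k hk', if_false] at he
          exact h2 k hk' l hl' he

theorem seg_conn (G : SimpleGraph V) (p : ℕ → V) : ∀ b : ℕ, 0 < b →
    (∀ i, i + 1 < b → G.Adj (p i) (p (i + 1))) → Conn G (seg p 0 b) := by
  intro b
  induction b with
  | zero => intro h; omega
  | succ b ih =>
    intro _ h
    rcases Nat.eq_zero_or_pos b with rfl | hb
    · have : seg p 0 (0 + 1) = {p 0} := by
        ext v
        simp only [seg, Set.mem_ofPred_eq, Set.mem_singleton_iff]
        constructor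
        · rintro ⟨i, _, hi, rfl⟩
          have : i = 0 := by omega
          rw [this]
        · intro hv; exact ⟨0, le_rfl, by omega, hv.symm⟩
      rw [this]
      exact Conn.singleton G _
    · have h1 := ih hb (fun i hi => h i (by omega))
      have h2 : seg p 0 (b + 1) = insert (p b) (seg p 0 b) := by
        ext v
        simp only [seg, Set.mem_ofPred_eq, Set.mem_insert_iff]
        constructor
        · rintro ⟨i, _, hi, rfl⟩
          rcases Nat.lt_succ_iff_lt_or_eq.1 hi with h3 | h3
          · exact Or.inr ⟨i, Nat.zero_le _, h3, rfl⟩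
          · exact Or.inl (by rw [h3])
        · rintro (hv | ⟨i, _, hi, rfl⟩)
          · exact ⟨b, Nat.zero_le _, by omega, hv.symm⟩
          · exact ⟨i, Nat.zero_le _, by omega, rfl⟩
      rw [h2]
      refine h1.insert ⟨p (b - 1), ⟨b - 1, Nat.zero_le _, by omega, rfl⟩, ?_⟩
      have := h (b - 1) (by omega)
      rwa [show b - 1 + 1 = b by omega] at this

open Classical in
theorem unionCard [Finite V] (S : ℕ → Set V) (c : ℕ) : ∀ T : Finset ℕ,
    (∀ k ∈ T, (S k).ncard ≤ c) → ({v | ∃ k ∈ T, v ∈ S k} : Set V).ncard ≤ T.card * c := by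
  intro T
  induction T using Finset.induction_on with
  | empty => intro _; simp
  | @insert a T ha ih =>
    intro h
    have h1 : ({v | ∃ k ∈ insert a T, v ∈ S k} : Set V) = S a ∪ {v | ∃ k ∈ T, v ∈ S k} := by
      ext v
      simp
    rw [h1, Finset.card_insert_of_notMem ha]
    have h2 := Set.ncard_union_le (S a) {v | ∃ k ∈ T, v ∈ S k}
    have h3 := h a (Finset.mem_insert_self _ _)
    have h4 := ih fun k hk => h k (Finset.mem_insert_of_mem hk)
    have h5 : (T.card + 1) * c = T.card * c + c := by ring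
    omega

end dDCAux

open Classical in
theorem dDC : S_DDd → S_DDC := by
  intro hDD V _ G A s q N M₁ m T L d p x y hC hM hq hP hT hpriv hd
  obtain ⟨κ, hκ1, hκ2⟩ := dDCAux.enum T m hT
  rcases Nat.eq_zero_or_pos m with hm0 | hmpos
  · -- `m = 0`
    subst hm0
    obtain ⟨X, hX, _, _⟩ := hC.rc 0 (fun i => x i) ∅ (by intro i hi; omega) (by intro i hi; omega)
      (Set.empty_subset _) (by simp)
    refine hDD V G N 0 (Finset.range (0 + N)) X X (fun q => 2 * q) (fun q => 2 * q + 1) hX
      (by simp) (by intro q hq; omega) (by intro q hq; omega) (by intro q hq; omega)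
      (by intro q hq; omega) (by intro q hq; omega) (by intro q hq; omega)
  have hV : Nonempty V := ⟨x 0⟩
  -- path facts
  have hseg : ∀ k ∈ T, ∀ l ∈ T, k ≠ l → Disjoint (seg (p k) 0 (L k)) (seg (p l) 0 (L l)) :=
    fun k hk l hl hne => (hP.2 k hk l hl hne).1
  have hDsub : ∀ k ∈ T, seg (p k) 0 (d k) ⊆ seg (p k) 0 (L k) := by
    rintro k hk v ⟨i, h1, h2, h3⟩
    exact ⟨i, h1, lt_of_lt_of_le h2 (hd k hk).2.1, h3⟩
  have hout : ∀ k ∈ T, ∀ v ∈ seg (p k) 0 (L k), v ∉ A := by
    rintro k hk v ⟨i, _, h2, rfl⟩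
    exact (hP.1 k hk).1.2.1 i h2
  set F' : Set V := {v | ∃ k ∈ T, v ∈ nb G (seg (p k) 0 (d k)) ∩ A} with hF'
  have hF'c : F'.ncard ≤ m * (16 * s + 4) := by
    have := dDCAux.unionCard (fun k => nb G (seg (p k) 0 (d k)) ∩ A) (16 * s + 4) T
      (fun k hk => (hd k hk).2.2.1.le)
    rwa [hT] at this
  set Bad : Set V := F' ∪ ((x '' (T : Set ℕ)) ∪ (y '' (T : Set ℕ))) with hBad
  have hBadc : Bad.ncard ≤ m * (16 * s + 4) + 2 * m := by
    have h1 := Set.ncard_union_le F' ((x '' (T : Set ℕ)) ∪ (y '' (T : Set ℕ)))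
    have h2 := Set.ncard_union_le (x '' (T : Set ℕ)) (y '' (T : Set ℕ))
    have h3 := Set.ncard_image_le (f := x) (s := (T : Set ℕ)) (T.finite_toSet)
    have h4 := Set.ncard_image_le (f := y) (s := (T : Set ℕ)) (T.finite_toSet)
    rw [Set.ncard_coe_finset, hT] at h3 h4
    rw [hBad]
    omega
  obtain ⟨α, hα1, hα2⟩ := dDCAux.greedy (fun k => G.neighborSet (p k (d k)) ∩ A) Bad hV
    (T.filter (fun k => d k ≠ L k)) (by
      intro k hk
      have hk' := Finset.mem_filter.1 hk
      have h1 := (hd k hk'.1).2.2.2.resolve_left hk'.2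
      have h2 : (T.filter (fun k => d k ≠ L k)).card ≤ m := by
        rw [← hT]; exact Finset.card_filter_le _ _
      show Bad.ncard + (T.filter (fun k => d k ≠ L k)).card ≤ (G.neighborSet (p k (d k)) ∩ A).ncard
      omega)
  have hαS : ∀ k ∈ T, d k ≠ L k → G.Adj (p k (d k)) (α k) ∧ α k ∈ A ∧ α k ∉ F' ∧
      (∀ l ∈ T, α k ≠ x l) ∧ (∀ l ∈ T, α k ≠ y l) := by
    intro k hk hne
    have h1 := hα1 k (Finset.mem_filter.2 ⟨hk, hne⟩)
    refine ⟨h1.1.1, h1.1.2, fun h => h1.2 (Or.inl h), ?_, ?_⟩
    · intro l hl h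
      exact h1.2 (Or.inr (Or.inl ⟨l, hl, h.symm⟩))
    · intro l hl h
      exact h1.2 (Or.inr (Or.inr ⟨l, hl, h.symm⟩))
  have hαi : ∀ k ∈ T, ∀ l ∈ T, d k ≠ L k → d l ≠ L l → α k = α l → k = l := by
    intro k hk l hl h1 h2 h3
    exact hα2 k (Finset.mem_filter.2 ⟨hk, h1⟩) l (Finset.mem_filter.2 ⟨hl, h2⟩) h3
  set z : ℕ → V := fun k => if d k = L k then y k else α k with hz
  have hz1 : ∀ k, d k = L k → z k = y k := fun k h => by simp only [hz, h, if_true]
  have hz2 : ∀ k, d k ≠ L k → z k = α k := fun k h => by simp only [hz, h, if_false]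
  -- facts on the ends
  have hxA : ∀ k ∈ T, x k ∈ A := fun k hk => (hP.1 k hk).2.1
  have hyA : ∀ k ∈ T, y k ∈ A := fun k hk => (hP.1 k hk).2.2.1
  have hzA : ∀ k ∈ T, z k ∈ A := by
    intro k hk
    by_cases h : d k = L k
    · rw [hz1 k h]; exact hyA k hk
    · rw [hz2 k h]; exact (hαS k hk h).2.1
  have hxx : ∀ k ∈ T, ∀ l ∈ T, x k = x l → k = l := by
    intro k hk l hl h
    by_contra hne
    exact (hP.2 k hk l hl hne).2.1 h
  have hyy : ∀ k ∈ T, ∀ l ∈ T, y k = y l → k = l := by
    intro k hk l hl h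
    by_contra hne
    exact (hP.2 k hk l hl hne).2.2.2 h
  have hxy : ∀ k ∈ T, ∀ l ∈ T, x k ≠ y l := by
    intro k hk l hl h
    by_cases hne : k = l
    · subst hne; exact (hP.1 k hk).2.2.2.1 h
    · exact (hP.2 k hk l hl hne).2.2.1 h
  have hxz : ∀ k ∈ T, ∀ l ∈ T, x k ≠ z l := by
    intro k hk l hl h
    by_cases hl' : d l = L l
    · rw [hz1 l hl'] at h; exact hxy k hk l hl h
    · rw [hz2 l hl'] at h; exact (hαS l hl hl').2.2.2.1 k hk h.symm
  have hzz : ∀ k ∈ T, ∀ l ∈ T, z k = z l → k = l := by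
    intro k hk l hl h
    by_cases hk' : d k = L k
    · by_cases hl' : d l = L l
      · rw [hz1 k hk', hz1 l hl'] at h; exact hyy k hk l hl h
      · rw [hz1 k hk', hz2 l hl'] at h; exact absurd h.symm ((hαS l hl hl').2.2.2.2 k hk)
    · by_cases hl' : d l = L l
      · rw [hz2 k hk', hz1 l hl'] at h; exact absurd h ((hαS k hk hk').2.2.2.2 l hl)
      · rw [hz2 k hk', hz2 l hl'] at h; exact hαi k hk l hl hk' hl' h
  -- the roots
  set r : ℕ → V := fun i => if i % 2 = 0 then x (κ (i / 2)) else z (κ (i / 2)) with hr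
  have hr0 : ∀ i, i % 2 = 0 → r i = x (κ (i / 2)) := fun i h => by simp only [hr, h, if_true]
  have hr1 : ∀ i, i % 2 = 1 → r i = z (κ (i / 2)) := fun i h => by
    have : ¬ (i % 2 = 0) := by omega
    simp only [hr, this, if_false]
  have hrA : ∀ i < 2 * m, r i ∈ A := by
    intro i hi
    have hk := hκ1 (i / 2) (by omega)
    rcases Nat.mod_two_eq_zero_or_one i with h | h
    · rw [hr0 i h]; exact hxA _ hk
    · rw [hr1 i h]; exact hzA _ hk
  have hrinj : ∀ i < 2 * m, ∀ j < 2 * m, r i = r j → i = j := by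
    intro i hi j hj h
    have hk := hκ1 (i / 2) (by omega)
    have hl := hκ1 (j / 2) (by omega)
    rcases Nat.mod_two_eq_zero_or_one i with h1 | h1 <;>
      rcases Nat.mod_two_eq_zero_or_one j with h2 | h2
    · rw [hr0 i h1, hr0 j h2] at h
      have := hκ2 _ (by omega) _ (by omega) (hxx _ hk _ hl h)
      omega
    · rw [hr0 i h1, hr1 j h2] at h
      exact absurd h (hxz _ hk _ hl)
    · rw [hr1 i h1, hr0 j h2] at h
      exact absurd h.symm (hxz _ hl _ hk)
    · rw [hr1 i h1, hr1 j h2] at h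
      have := hκ2 _ (by omega) _ (by omega) (hzz _ hk _ hl h)
      omega
  set F : Set V := {v | v ∈ F' ∧ ∀ i < 2 * m, v ≠ r i} with hF
  have hFA : F ⊆ A := by
    rintro v ⟨⟨k, _, hk⟩, _⟩
    exact hk.2
  have hFc : F.ncard ≤ m * (16 * s + 4) :=
    le_trans (Set.ncard_le_ncard (fun v hv => hv.1) (Set.toFinite _)) hF'c
  obtain ⟨X, hX, hXA, hXr⟩ := hC.rc (2 * m) r F (fun i hi => ⟨hrA i hi, fun h => h.2 i hi rfl⟩)
    hrinj hFA (by omega)
  -- the extended sets
  set E : ℕ → Set V := fun i => {v | i < 2 * m ∧ i % 2 = 1 ∧ d (κ (i / 2)) ≠ L (κ (i / 2)) ∧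
    v = p (κ (i / 2)) (d (κ (i / 2)))} with hE
  have hEseg : ∀ i, ∀ v ∈ E i, i < 2 * m ∧ κ (i / 2) ∈ T ∧ v ∈ seg (p (κ (i / 2))) 0 (L (κ (i / 2))) := by
    rintro i v ⟨h1, _, h3, rfl⟩
    have hk := hκ1 (i / 2) (by omega)
    exact ⟨h1, hk, d (κ (i / 2)), Nat.zero_le _, lt_of_le_of_ne (hd _ hk).2.1 h3, rfl⟩
  have hEA : ∀ i, ∀ v ∈ E i, v ∉ A := by
    intro i v hv
    have h1 := hEseg i v hv
    exact hout _ h1.2.1 v h1.2.2
  have hXA' : ∀ i ∈ Finset.range (2 * m + N), X i ⊆ A := fun i hi v hv =>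
    (hXA i (Finset.mem_range.1 hi) hv).1
  have hM' : Mdl G (Finset.range (2 * m + N)) (fun i => X i ∪ E i) := by
    constructor
    · intro i hi
      show Conn G (X i ∪ E i)
      by_cases h : (E i).Nonempty
      · obtain ⟨v, hv⟩ := h
        have h1 := hEseg i v hv
        have h2 : X i ∪ E i = insert v (X i) := by
          ext w
          simp only [Set.mem_union, Set.mem_insert_iff]
          constructor
          · rintro (hw | hw)
            · exact Or.inr hw
            · exact Or.inl (hw.2.2.2.trans hv.2.2.2.symm)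
          · rintro (hw | hw)
            · exact Or.inr (hw ▸ hv)
            · exact Or.inl hw
        rw [h2]
        refine (hX.1 i hi).insert ⟨r i, hXr i h1.1, ?_⟩
        have h3 := hv.2.2
        rw [h3.2, hr1 i hv.2.1, hz2 _ h3.1]
        exact (hαS _ h1.2.1 h3.1).1.symm
      · rw [Set.not_nonempty_iff_eq_empty.1 h, Set.union_empty]
        exact hX.1 i hi
    · intro i hi j hj hne
      have h0 := hX.2 i hi j hj hne
      refine ⟨?_, h0.2.mono Set.subset_union_left Set.subset_union_left⟩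
      rw [Set.disjoint_left]
      rintro v (hv | hv) (hw | hw)
      · exact Set.disjoint_left.1 h0.1 hv hw
      · exact hEA j v hw (hXA' i hi hv)
      · exact hEA i v hv (hXA' j hj hw)
      · have h1 := hEseg i v hv
        have h2 := hEseg j v hw
        have h3 : κ (i / 2) ≠ κ (j / 2) := by
          intro h4
          have h5 := hκ2 _ (by omega) _ (by omega) h4
          have h6 := hv.2.1
          have h7 := hw.2.1
          omega
        exact Set.disjoint_left.1 (hseg _ h1.2.1 _ h2.2.1 h3) h1.2.2 h2.2.2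
  refine hDD V G N m (Finset.range (2 * m + N)) (fun i => X i ∪ E i)
    (fun q => seg (p (κ q)) 0 (d (κ q))) (fun q => 2 * q) (fun q => 2 * q + 1) hM'
    (by simp; omega) ?_ ?_ ?_ (by intro q _ q' _; show 2 * q ≠ 2 * q' + 1; omega)
    (by intro q _ q' _ h; have h' : 2 * q = 2 * q' := h; omega)
    (by intro q _ q' _ h; have h' : 2 * q + 1 = 2 * q' + 1 := h; omega)
  · intro q hq
    have hk := hκ1 q hq
    refine ⟨dDCAux.seg_conn G _ _ (hd _ hk).1 ?_, Finset.mem_range.2 (by show 2 * q < _; omega),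
      Finset.mem_range.2 (by show 2 * q + 1 < _; omega)⟩
    intro i hi
    have h1 := (hd _ hk).2.1
    exact ((hP.1 _ hk).1.2.2.2 i (by omega) (i + 1) (by omega)).2 (Or.inr rfl)
  · intro q hq i hi
    have hk := hκ1 q hq
    constructor
    · rw [Set.disjoint_left]
      rintro v hv (hw | hw)
      · exact hout _ hk v (hDsub _ hk hv) (hXA' i hi hw)
      · have h1 := hEseg i v hw
        by_cases h2 : κ q = κ (i / 2)
        · obtain ⟨j, _, hj, hjv⟩ := hv
          have h3 := hw.2.2
          rw [← h2] at h3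
          have h4 := (hP.1 _ hk).1.2.2.1 j (lt_of_lt_of_le hj (hd _ hk).2.1) (d (κ q))
            (lt_of_le_of_ne (hd _ hk).2.1 h3.1) (hjv.trans h3.2)
          omega
        · exact Set.disjoint_left.1 (hseg _ hk _ h1.2.1 h2) (hDsub _ hk hv) h1.2.2
    · constructor
      · rintro ⟨a, ha, b, hb, hab⟩
        have haL := hDsub _ hk ha
        rcases hb with hb | hb
        · have hbA := hXA' i hi hb
          have hbn : b ∈ nb G (seg (p (κ q)) 0 (d (κ q))) ∩ A :=
            ⟨⟨fun h => hout _ hk b (hDsub _ hk h) hbA, a, ha, hab⟩, hbA⟩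
          have hbF' : b ∈ F' := ⟨κ q, hk, hbn⟩
          have hbF : b ∉ F := (hXA i (Finset.mem_range.1 hi) hb).2
          have hbr : ∃ j < 2 * m, b = r j := by
            by_contra hcon
            push Not at hcon
            exact hbF ⟨hbF', hcon⟩
          obtain ⟨j, hj, hbj⟩ := hbr
          have hji : j = i := by
            by_contra hne
            exact Set.disjoint_left.1 (hX.2 j (Finset.mem_range.2 (by omega)) i hi hne).1
              (hXr j hj) (hbj ▸ hb)
          subst hji
          have hl := hκ1 (j / 2) (by omega)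
          have hbL : b ∈ nb G (seg (p (κ q)) 0 (L (κ q))) :=
            ⟨fun h => hout _ hk b h hbA, a, haL, hab⟩
          by_cases hkl : κ q = κ (j / 2)
          · have := hκ2 _ hq _ (by omega) hkl
            omega
          · exfalso
            have h1 := hpriv _ hk _ hl hkl
            rcases Nat.mod_two_eq_zero_or_one j with h | h
            · rw [hr0 j h] at hbj
              exact h1.1 (hbj ▸ hbL)
            · rw [hr1 j h] at hbj
              by_cases hdl : d (κ (j / 2)) = L (κ (j / 2))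
              · rw [hz1 _ hdl] at hbj
                exact h1.2.1 (hbj ▸ hbL)
              · rw [hz2 _ hdl] at hbj
                exact (hαS _ hl hdl).2.2.1 (hbj ▸ hbF')
        · have h1 := hEseg i b hb
          by_cases hkl : κ q = κ (i / 2)
          · have := hκ2 _ hq _ (by omega) hkl
            omega
          · exact absurd ⟨a, haL, b, h1.2.2, hab⟩ (hpriv _ hk _ h1.2.1 hkl).2.2
      · have hd0 := (hd _ hk).1
        rintro (h | h)
        · have h' : i = 2 * q := h
          subst h'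
          have h1 := hXr (2 * q) (by omega)
          rw [hr0 (2 * q) (by omega), show 2 * q / 2 = q by omega] at h1
          exact ⟨p (κ q) 0, ⟨0, le_rfl, hd0, rfl⟩, x (κ q), Or.inl h1, (hP.1 _ hk).2.2.2.2.1.symm⟩
        · have h' : i = 2 * q + 1 := h
          subst h'
          by_cases hdl : d (κ q) = L (κ q)
          · have h1 := hXr (2 * q + 1) (by omega)
            rw [hr1 (2 * q + 1) (by omega), show (2 * q + 1) / 2 = q by omega, hz1 _ hdl] at h1
            refine ⟨p (κ q) (L (κ q) - 1), ⟨L (κ q) - 1, Nat.zero_le _, by omega, rfl⟩,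
              y (κ q), Or.inl h1, (hP.1 _ hk).2.2.2.2.2.symm⟩
          · refine ⟨p (κ q) (d (κ q) - 1), ⟨d (κ q) - 1, Nat.zero_le _, by omega, rfl⟩,
              p (κ q) (d (κ q)), Or.inr ⟨by omega, by omega, ?_, ?_⟩, ?_⟩
            · rw [show (2 * q + 1) / 2 = q by omega]; exact hdl
            · rw [show (2 * q + 1) / 2 = q by omega]
            · have h1 := (hd _ hk).2.1
              exact ((hP.1 _ hk).1.2.2.2 (d (κ q) - 1) (by omega) (d (κ q)) (by omega)).2
                (Or.inr (by omega))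
  · intro q hq q' hq' hne
    have hk := hκ1 q hq
    have hl := hκ1 q' hq'
    have hkl : κ q ≠ κ q' := fun h => hne (hκ2 _ hq _ hq' h)
    refine ⟨(hseg _ hk _ hl hkl).mono (hDsub _ hk) (hDsub _ hl), ?_⟩
    intro h
    exact (hpriv _ hk _ hl hkl).2.2 (h.mono (hDsub _ hk) (hDsub _ hl))

end Pool.Agent.MPd439b2
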