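import Pool.Agent.Lib.MP_d439b2_co.B.SpecK

/-!
# MP_d439b2_co, Theorem B: detection of `DD N m`
-/

set_option autoImplicit false

namespace Pool.Agent.MPd439b2

namespace dDdAux

/-- the indices used -/
private noncomputable def phi (m : ℕ) (u w ψ : ℕ → ℕ) (i : ℕ) : ℕ :=
  if i < 2 * m then (if i % 2 = 0 then u (i / 2) else w (i / 2)) else ψ i

private theorem phi_even {m : ℕ} {u w ψ : ℕ → ℕ} {q : ℕ} (hq : q < m) :
    phi m u w ψ (2 * q) = u q := by
  unfold phi
  rw [if_pos (by omega), if_pos (by omega)]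
  congr 1
  omega

private theorem phi_odd {m : ℕ} {u w ψ : ℕ → ℕ} {q : ℕ} (hq : q < m) :
    phi m u w ψ (2 * q + 1) = w q := by
  unfold phi
  rw [if_pos (by omega), if_neg (by omega)]
  congr 1
  omega

private theorem phi_big {m : ℕ} {u w ψ : ℕ → ℕ} {i : ℕ} (hi : 2 * m ≤ i) :
    phi m u w ψ i = ψ i := by
  unfold phi
  rw [if_neg (by omega)]

private theorem cases3 (m i : ℕ) :
    (∃ q < m, i = 2 * q) ∨ (∃ q < m, i = 2 * q + 1) ∨ 2 * m ≤ i := by
  rcases lt_or_ge i (2 * m) with h | h
  · rcases Nat.even_or_odd' i with ⟨q, hq | hq⟩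
    · exact Or.inl ⟨q, by omega, hq⟩
    · exact Or.inr (Or.inl ⟨q, by omega, hq⟩)
  · exact Or.inr (Or.inr h)

end dDdAux

open dDdAux in
theorem dDd : S_DDd := by
  intro V G N m I B Y u w hM hcard h1 h2 h3 huw hu hw
  classical
  let R : Finset ℕ := (Finset.range m).image u ∪ (Finset.range m).image w
  have hR : R.card ≤ 2 * m := by
    refine (Finset.card_union_le _ _).trans ?_
    have a1 := Finset.card_image_le (s := Finset.range m) (f := u)
    have a2 := Finset.card_image_le (s := Finset.range m) (f := w)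
    rw [Finset.card_range] at a1 a2
    omega
  have hIR : N ≤ (I \ R).card := by
    have := Finset.le_card_sdiff R I
    omega
  let ψ : ℕ → ℕ := fun i => if h : i < N then
    (I \ R).orderEmbOfFin rfl (Fin.castLE hIR ⟨i, h⟩) else 0
  have hψ : ∀ i < N, ψ i ∈ I ∧ ψ i ∉ R := by
    intro i hi
    have : ψ i ∈ I \ R := by
      simp only [ψ, dif_pos hi]
      exact Finset.orderEmbOfFin_mem _ _ _
    exact Finset.mem_sdiff.mp this
  have hψu : ∀ i < N, ∀ q < m, ψ i ≠ u q := by
    intro i hi q hq h
    apply (hψ i hi).2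
    rw [h]
    exact Finset.mem_union_left _ (Finset.mem_image_of_mem _ (Finset.mem_range.mpr hq))
  have hψw : ∀ i < N, ∀ q < m, ψ i ≠ w q := by
    intro i hi q hq h
    apply (hψ i hi).2
    rw [h]
    exact Finset.mem_union_right _ (Finset.mem_image_of_mem _ (Finset.mem_range.mpr hq))
  have hψi : ∀ i < N, ∀ j < N, ψ i = ψ j → i = j := by
    intro i hi j hj h
    simp only [ψ, dif_pos hi, dif_pos hj] at h
    have := ((I \ R).orderEmbOfFin rfl).injective h
    have := congrArg Fin.val this
    simpa using this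
  have hφI : ∀ i < N, phi m u w ψ i ∈ I := by
    intro i hi
    rcases cases3 m i with ⟨q, hq, rfl⟩ | ⟨q, hq, rfl⟩ | h
    · rw [phi_even hq]; exact (h1 q hq).2.1
    · rw [phi_odd hq]; exact (h1 q hq).2.2
    · rw [phi_big h]; exact (hψ i hi).1
  have hφi : ∀ i < N, ∀ j < N, phi m u w ψ i = phi m u w ψ j → i = j := by
    intro i hi j hj h
    rcases cases3 m i with ⟨q, hq, rfl⟩ | ⟨q, hq, rfl⟩ | h' <;>
      rcases cases3 m j with ⟨q', hq', rfl⟩ | ⟨q', hq', rfl⟩ | h''
    · rw [phi_even hq, phi_even hq'] at h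
      rw [hu q hq q' hq' h]
    · rw [phi_even hq, phi_odd hq'] at h
      exact absurd h (huw q hq q' hq')
    · rw [phi_even hq, phi_big h''] at h
      exact absurd h.symm (hψu j hj q hq)
    · rw [phi_odd hq, phi_even hq'] at h
      exact absurd h.symm (huw q' hq' q hq)
    · rw [phi_odd hq, phi_odd hq'] at h
      rw [hw q hq q' hq' h]
    · rw [phi_odd hq, phi_big h''] at h
      exact absurd h.symm (hψw j hj q hq)
    · rw [phi_big h', phi_even hq'] at h
      exact absurd h (hψu i hi q' hq')
    · rw [phi_big h', phi_odd hq'] at h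
      exact absurd h (hψw i hi q' hq')
    · rw [phi_big h', phi_big h''] at h
      exact hψi i hi j hj h
  have hφq : ∀ i < N, ∀ q < m, (phi m u w ψ i = u q ∨ phi m u w ψ i = w q) ↔
      (i = 2 * q ∨ i = 2 * q + 1) := by
    intro i hi q hq
    constructor
    · intro h
      rcases cases3 m i with ⟨q', hq', rfl⟩ | ⟨q', hq', rfl⟩ | h'
      · rw [phi_even hq'] at h
        rcases h with h | h
        · left; rw [hu q' hq' q hq h]
        · exact absurd h (huw q' hq' q hq)
      · rw [phi_odd hq'] at h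
        rcases h with h | h
        · exact absurd h.symm (huw q hq q' hq')
        · right; rw [hw q' hq' q hq h]
      · rw [phi_big h'] at h
        rcases h with h | h
        · exact absurd h (hψu i hi q hq)
        · exact absurd h (hψw i hi q hq)
    · rintro (rfl | rfl)
      · left; exact phi_even hq
      · right; exact phi_odd hq
  have hTs : ∀ A C : Set V, Tch G A C ↔ Tch G C A := by
    intro A C
    constructor
    · rintro ⟨a, ha, b, hb, hab⟩; exact ⟨b, hb, a, ha, hab.symm⟩
    · rintro ⟨a, ha, b, hb, hab⟩; exact ⟨b, hb, a, ha, hab.symm⟩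
  refine ⟨fun x => match x with
    | Sum.inl i => B (phi m u w ψ i.val)
    | Sum.inr q => Y q.val, fun x => Set.subset_univ _, ?_, ?_, ?_⟩
  · rintro (i | q)
    · exact hM.1 _ (hφI i.val i.isLt)
    · exact (h1 q.val q.isLt).1
  · rintro (i | q) (j | q') hne
    · have hij : i.val ≠ j.val := fun h => hne (by rw [Fin.ext h])
      exact (hM.2 _ (hφI i.val i.isLt) _ (hφI j.val j.isLt)
        fun h => hij (hφi _ i.isLt _ j.isLt h)).1
    · exact ((h2 q'.val q'.isLt _ (hφI i.val i.isLt)).1).symm
    · exact (h2 q.val q.isLt _ (hφI j.val j.isLt)).1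
    · have hqq : q.val ≠ q'.val := fun h => hne (by rw [Fin.ext h])
      exact (h3 _ q.isLt _ q'.isLt hqq).1
  · rintro (i | q) (j | q') hne
    · have hij : i.val ≠ j.val := fun h => hne (by rw [Fin.ext h])
      constructor
      · intro _
        exact (hM.2 _ (hφI i.val i.isLt) _ (hφI j.val j.isLt)
          fun h => hij (hφi _ i.isLt _ j.isLt h)).2
      · intro _ h
        exact hij (congrArg Fin.val h)
    · change (i.val = 2 * q'.val ∨ i.val = 2 * q'.val + 1) ↔ Tch G (B (phi m u w ψ i.val)) (Y q'.val)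
      rw [hTs, (h2 q'.val q'.isLt _ (hφI i.val i.isLt)).2]
      exact (hφq i.val i.isLt q'.val q'.isLt).symm
    · change (j.val = 2 * q.val ∨ j.val = 2 * q.val + 1) ↔ Tch G (Y q.val) (B (phi m u w ψ j.val))
      rw [(h2 q.val q.isLt _ (hφI j.val j.isLt)).2]
      exact (hφq j.val j.isLt q.val q.isLt).symm
    · have hqq : q.val ≠ q'.val := fun h => hne (by rw [Fin.ext h])
      constructor
      · intro h
        exact False.elim h
      · intro h
        exact absurd h (h3 _ q.isLt _ q'.isLt hqq).2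

end Pool.Agent.MPd439b2
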