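import Pool.Agent.Lib.MP_d439b2_co.B.SpecK

/-! K3: independent sets in digraphs of bounded out-degree. -/

namespace Pool.Agent.MPd439b2

namespace digAux

open Classical in
theorem lowIn {α : Type} (S : Finset α) (F : α → Finset α) (d : ℕ) (hF : ∀ x ∈ S, (F x).card ≤ d)
    (hS : S.Nonempty) : ∃ y ∈ S, (S.filter (fun x => y ∈ F x)).card ≤ d := by
  by_contra hcon
  push Not at hcon
  have h1 : ∑ y ∈ S, (d + 1) ≤ ∑ y ∈ S, (S.filter (fun x => y ∈ F x)).card :=
    Finset.sum_le_sum fun y hy => hcon y hy
  have h2 : ∑ y ∈ S, (S.filter (fun x => y ∈ F x)).card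
      = ∑ x ∈ S, (S.filter (fun y => y ∈ F x)).card := by
    simp only [Finset.card_filter]
    exact Finset.sum_comm
  have h3 : ∑ x ∈ S, (S.filter (fun y => y ∈ F x)).card ≤ ∑ x ∈ S, d := by
    refine Finset.sum_le_sum fun x hx => le_trans (Finset.card_le_card ?_) (hF x hx)
    intro y hy
    exact (Finset.mem_filter.1 hy).2
  rw [Finset.sum_const, smul_eq_mul] at h1 h3
  have h4 : 0 < S.card := Finset.card_pos.2 hS
  have h5 : S.card * (d + 1) ≤ S.card * d := by omega
  have := Nat.le_of_mul_le_mul_left h5 h4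
  omega

open Classical in
theorem main {α : Type} (E : α → α → Prop) (F : α → Finset α) (d m : ℕ) :
    ∀ S : Finset α, (∀ x ∈ S, (F x).card ≤ d) → (∀ x ∈ S, ∀ y ∈ S, y ≠ x → E x y → y ∈ F x) →
      (2 * d + 1) * m ≤ S.card → ∃ T ⊆ S, T.card = m ∧ ∀ x ∈ T, ∀ y ∈ T, x ≠ y → ¬ E x y := by
  induction m with
  | zero =>
    intro S _ _ _
    exact ⟨∅, Finset.empty_subset _, rfl, by simp⟩
  | succ m ih =>
    intro S hF hE hc
    have hpos : 0 < S.card := lt_of_lt_of_le (by positivity) hc
    obtain ⟨y, hy, hyd⟩ := lowIn S F d hF (Finset.card_pos.1 hpos)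
    set R : Finset α := insert y (F y ∪ S.filter (fun x => y ∈ F x)) with hR
    have hRc : R.card ≤ 2 * d + 1 := by
      calc R.card ≤ (F y ∪ S.filter (fun x => y ∈ F x)).card + 1 := Finset.card_insert_le _ _
        _ ≤ ((F y).card + (S.filter (fun x => y ∈ F x)).card) + 1 := by
            gcongr; exact Finset.card_union_le _ _
        _ ≤ 2 * d + 1 := by have := hF y hy; omega
    have hS' : (2 * d + 1) * m ≤ (S \ R).card := by
      have := Finset.le_card_sdiff R S
      have h6 : (2 * d + 1) * (m + 1) = (2 * d + 1) * m + (2 * d + 1) := by ring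
      omega
    obtain ⟨T, hT, hTc, hTE⟩ := ih (S \ R)
      (fun x hx => hF x (Finset.mem_sdiff.1 hx).1)
      (fun x hx z hz => hE x (Finset.mem_sdiff.1 hx).1 z (Finset.mem_sdiff.1 hz).1) hS'
    have hyT : y ∉ T := fun h => (Finset.mem_sdiff.1 (hT h)).2 (Finset.mem_insert_self _ _)
    refine ⟨insert y T, ?_, ?_, ?_⟩
    · intro z hz
      rcases Finset.mem_insert.1 hz with rfl | hz
      · exact hy
      · exact (Finset.mem_sdiff.1 (hT hz)).1
    · rw [Finset.card_insert_of_notMem hyT, hTc]
    · intro x hx z hz hne hxz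
      rcases Finset.mem_insert.1 hx with hx' | hx'
      · rcases Finset.mem_insert.1 hz with hz' | hz'
        · exact hne (hx'.trans hz'.symm)
        · have hzS := Finset.mem_sdiff.1 (hT hz')
          subst hx'
          exact hzS.2 (Finset.mem_insert_of_mem (Finset.mem_union_left _
            (hE x hy z hzS.1 hne.symm hxz)))
      · have hxS := Finset.mem_sdiff.1 (hT hx')
        rcases Finset.mem_insert.1 hz with hz' | hz'
        · subst hz'
          exact hxS.2 (Finset.mem_insert_of_mem (Finset.mem_union_right _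
            (Finset.mem_filter.2 ⟨hxS.1, hE x hxS.1 z hy hne.symm hxz⟩)))
        · exact hTE x hx' z hz' hne hxz

end digAux

open Classical in
theorem dig : S_Dig := by
  intro α S E d m h hc
  choose! F hF hE using h
  exact digAux.main E F d m S hF hE hc

end Pool.Agent.MPd439b2
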