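import Pool.Agent.Lib.MP_d439b2_co.B.SpecC

/-!
# MP_d439b2_co, Theorem B: weak form of Gallai's theorem on `A`-paths
-/

set_option autoImplicit false

namespace Pool.Agent.MPd439b2

namespace galAux

/-- a piece of a system: body, ends, centres -/
structure Pc (V : Type) where
  body : Set V
  ends : Set V
  cen : Set V

noncomputable instance (V : Type) : DecidableEq (Pc V) := Classical.decEq _

variable {V : Type} {G : SimpleGraph V} {A : Set V}

/-- links -/
def IsL (G : SimpleGraph V) (A : Set V) (P : Pc V) : Prop :=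
  ∃ x y, ALink G A P.body x y ∧ P.ends = {x, y} ∧ P.cen = ∅

/-- tripods -/
def IsT (G : SimpleGraph V) (A : Set V) (P : Pc V) : Prop :=
  ∃ (c : V) (T : Fin 3 → Set V) (e : Fin 3 → V), Tripod G A c T e ∧
    P.body = {c} ∪ ⋃ i, T i ∧ P.ends = Set.range e ∧ P.cen = {c}

def Val (G : SimpleGraph V) (A : Set V) (P : Pc V) : Prop := IsL G A P ∨ IsT G A P

/-- systems of pieces -/
def Sys (G : SimpleGraph V) (A : Set V) (S : Finset (Pc V)) : Prop :=
  (∀ P ∈ S, Val G A P) ∧
    ∀ P ∈ S, ∀ Q ∈ S, P ≠ Q → Disjoint P.body Q.body ∧ Disjoint P.ends Q.ends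

open Classical in
noncomputable def wt (P : Pc V) : ℕ := if P.cen.Nonempty then 3 else 2

theorem wt_L {P : Pc V} (h : P.cen = ∅) : wt P = 2 := by
  unfold wt
  rw [if_neg (by rw [h]; exact Set.not_nonempty_empty)]

theorem wt_T {P : Pc V} {c : V} (h : P.cen = {c}) : wt P = 3 := by
  unfold wt
  rw [if_pos (by rw [h]; exact Set.singleton_nonempty c)]

theorem wt_le (P : Pc V) : wt P ≤ 3 := by
  unfold wt
  split <;> omega

/-- the set `{c} ∪ T i` of a tripod is connected -/
theorem leg_conn {c : V} {T : Fin 3 → Set V} {e : Fin 3 → V} (h : Tripod G A c T e) (i : Fin 3) :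
    Conn G ({c} ∪ T i) := by
  obtain ⟨_, _, _, _, _, h6⟩ := h
  rcases h6 i with ⟨h1, _⟩ | ⟨h1, h2, _⟩
  · rw [h1, Set.union_empty]
    exact Conn.singleton G c
  · obtain ⟨_, a, ha, hac⟩ := h2
    exact (Conn.singleton G c).union h1 (Or.inr ⟨c, rfl, a, ha, hac.symm⟩)

theorem leg_nb {c : V} {T : Fin 3 → Set V} {e : Fin 3 → V} (h : Tripod G A c T e) (i : Fin 3) :
    ∃ a ∈ ({c} ∪ T i : Set V), G.Adj a (e i) := by
  obtain ⟨_, _, _, _, _, h6⟩ := h
  rcases h6 i with ⟨_, h2⟩ | ⟨_, _, h3⟩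
  · exact ⟨c, Or.inl rfl, h2⟩
  · obtain ⟨_, a, ha, hae⟩ := h3
    exact ⟨a, Or.inr ha, hae⟩

theorem leg_out {c : V} {T : Fin 3 → Set V} {e : Fin 3 → V} (h : Tripod G A c T e) (i : Fin 3) :
    Disjoint ({c} ∪ T i : Set V) A := by
  obtain ⟨h1, _, _, h4, _, _⟩ := h
  rw [Set.disjoint_union_left]
  exact ⟨Set.disjoint_singleton_left.mpr h1, (h4 i).1⟩

/-- two legs give a link -/
theorem two_legs {c : V} {T : Fin 3 → Set V} {e : Fin 3 → V} (h : Tripod G A c T e) {i j : Fin 3}
    (hij : i ≠ j) : ALink G A (({c} ∪ T i) ∪ ({c} ∪ T j)) (e i) (e j) := by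
  have ho : Disjoint (({c} ∪ T i) ∪ ({c} ∪ T j) : Set V) A := by
    rw [Set.disjoint_union_left]
    exact ⟨leg_out h i, leg_out h j⟩
  refine ⟨(leg_conn h i).union (leg_conn h j) (Or.inl ⟨c, Or.inl rfl, Or.inl rfl⟩), ho,
    h.2.2.1 i, h.2.2.1 j, fun h' => hij (h.2.1 h'), ?_, ?_⟩
  · obtain ⟨a, ha, hae⟩ := leg_nb h i
    exact ⟨fun h' => (Set.disjoint_left.mp ho) h' (h.2.2.1 i), a, Or.inl ha, hae⟩
  · obtain ⟨a, ha, hae⟩ := leg_nb h j
    exact ⟨fun h' => (Set.disjoint_left.mp ho) h' (h.2.2.1 j), a, Or.inr ha, hae⟩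

theorem body_eq {c : V} (T : Fin 3 → Set V) :
    ({c} ∪ ⋃ i, T i : Set V) = {c} ∪ ⋃ i, ({c} ∪ T i) := by
  ext v
  simp only [Set.mem_union, Set.mem_singleton_iff, Set.mem_iUnion]
  constructor
  · rintro (h | ⟨i, h⟩)
    · exact Or.inl h
    · exact Or.inr ⟨i, Or.inr h⟩
  · rintro (h | ⟨i, h | h⟩)
    · exact Or.inl h
    · exact Or.inl h
    · exact Or.inr ⟨i, h⟩

theorem body_conn {c : V} {T : Fin 3 → Set V} {e : Fin 3 → V} (h : Tripod G A c T e) :
    Conn G ({c} ∪ ⋃ i, T i) := by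
  rw [body_eq]
  exact (Conn.singleton G c).union_iUnion (fun i => leg_conn h i)
    (fun i => Or.inl ⟨c, rfl, Or.inl rfl⟩)

theorem body_out {c : V} {T : Fin 3 → Set V} {e : Fin 3 → V} (h : Tripod G A c T e) :
    Disjoint ({c} ∪ ⋃ i, T i : Set V) A := by
  rw [body_eq, Set.disjoint_union_left, Set.disjoint_iUnion_left]
  exact ⟨Set.disjoint_singleton_left.mpr h.1, fun i => leg_out h i⟩

/-- every piece contains a link -/
theorem link_of_val {P : Pc V} (h : Val G A P) :
    ∃ x y, ALink G A P.body x y ∧ x ∈ P.ends ∧ y ∈ P.ends := by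
  rcases h with ⟨x, y, h1, h2, _⟩ | ⟨c, T, e, h1, h2, h3, _⟩
  · exact ⟨x, y, h1, h2 ▸ Or.inl rfl, h2 ▸ Or.inr rfl⟩
  · have ho := body_out h1
    have key : ∀ i, e i ∈ nb G ({c} ∪ ⋃ i, T i) := by
      intro i
      obtain ⟨a, ha, hae⟩ := leg_nb h1 i
      refine ⟨fun h' => (Set.disjoint_left.mp ho) h' (h1.2.2.1 i), a, ?_, hae⟩
      rcases ha with ha | ha
      · exact Or.inl ha
      · exact Or.inr (Set.mem_iUnion.mpr ⟨i, ha⟩)
    refine ⟨e 0, e 1, ?_, h3 ▸ ⟨0, rfl⟩, h3 ▸ ⟨1, rfl⟩⟩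
    rw [h2]
    exact ⟨body_conn h1, ho, h1.2.2.1 0, h1.2.2.1 1, fun h' => by
      have := h1.2.1 h'
      revert this
      decide, key 0, key 1⟩

theorem val_body_ne {P : Pc V} (h : Val G A P) : P.body.Nonempty := by
  obtain ⟨x, y, h1, _⟩ := link_of_val h
  exact h1.1.1

theorem val_cap [Finite V] {P : Pc V} (h : Val G A P) : (P.ends ∪ P.cen).ncard ≤ 4 := by
  classical
  rcases h with ⟨x, y, _, h2, h3⟩ | ⟨c, T, e, _, _, h3, h4⟩
  · rw [h2, h3, Set.union_empty]
    exact (Set.ncard_insert_le x {y}).trans (by rw [Set.ncard_singleton]; omega)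
  · rw [h3, h4]
    refine (Set.ncard_union_le _ _).trans ?_
    rw [Set.ncard_singleton]
    have : (Set.range e).ncard ≤ 3 := by
      rw [← Set.image_univ]
      refine (Set.ncard_image_le (Set.toFinite _)).trans ?_
      rw [Set.ncard_univ, Nat.card_eq_fintype_card, Fintype.card_fin]
    omega

/-- systems have few pieces -/
theorem card_lt [Nonempty V] {n : ℕ} (hn : ¬ ∃ (I : ℕ → Set V) (x y : ℕ → V), LinkSys G A n I x y)
    {S : Finset (Pc V)} (hS : Sys G A S) : S.card < n := by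
  by_contra hcon
  push Not at hcon
  apply hn
  rcases Nat.eq_zero_or_pos n with h0 | h0
  · subst h0
    obtain ⟨v⟩ := (inferInstance : Nonempty V)
    exact ⟨fun _ => ∅, fun _ => v, fun _ => v, fun k hk => absurd hk (by omega),
      fun k hk => absurd hk (by omega)⟩
  have hc : 0 < S.card := by omega
  let e := S.equivFin
  have hlt : ∀ k, k % S.card < S.card := fun k => Nat.mod_lt _ hc
  let f : ℕ → Pc V := fun k => (e.symm ⟨k % S.card, hlt k⟩).1
  have hf : ∀ k, f k ∈ S := fun k => (e.symm ⟨k % S.card, hlt k⟩).2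
  have hinj : ∀ k < n, ∀ l < n, k ≠ l → f k ≠ f l := by
    intro k hk l hl hkl h
    have h1 := e.symm.injective (Subtype.ext h)
    rw [Fin.mk.injEq, Nat.mod_eq_of_lt (by omega), Nat.mod_eq_of_lt (by omega)] at h1
    exact hkl h1
  have hex := fun k => link_of_val (hS.1 (f k) (hf k))
  choose x y h1 h2 h3 using hex
  refine ⟨fun k => (f k).body, x, y, fun k _ => h1 k, fun k hk l hl hkl => ?_⟩
  obtain ⟨d1, d2⟩ := hS.2 _ (hf k) _ (hf l) (hinj k hk l hl hkl)
  exact ⟨d1, fun h => (Set.disjoint_left.mp d2) (h2 k) (h ▸ h2 l),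
    fun h => (Set.disjoint_left.mp d2) (h2 k) (h ▸ h3 l),
    fun h => (Set.disjoint_left.mp d2) (h3 k) (h ▸ h3 l)⟩

/-- replacing the pieces of `R` by those of `N` -/
theorem replace {S R N : Finset (Pc V)} {B E : Set V} (hS : Sys G A S) (hR : R ⊆ S)
    (hN : Sys G A N) (hB : ∀ Q ∈ S, Disjoint B Q.body) (hE : ∀ Q ∈ S, Disjoint E Q.ends)
    (hb : ∀ P ∈ N, P.body ⊆ B ∪ ⋃ Q ∈ R, Q.body) (he : ∀ P ∈ N, P.ends ⊆ E ∪ ⋃ Q ∈ R, Q.ends) :
    Sys G A ((S \ R) ∪ N) ∧
      ∑ P ∈ (S \ R) ∪ N, wt P + ∑ P ∈ R, wt P = ∑ P ∈ S, wt P + ∑ P ∈ N, wt P := by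
  have key : ∀ P ∈ N, ∀ Q ∈ S \ R, Disjoint P.body Q.body ∧ Disjoint P.ends Q.ends := by
    intro P hP Q hQ
    rw [Finset.mem_sdiff] at hQ
    constructor
    · refine Set.disjoint_of_subset_left (hb P hP) ?_
      rw [Set.disjoint_union_left]
      refine ⟨hB Q hQ.1, ?_⟩
      rw [Set.disjoint_iUnion₂_left]
      intro Q' hQ'
      exact (hS.2 Q' (hR hQ') Q hQ.1 (fun h => hQ.2 (h ▸ hQ'))).1
    · refine Set.disjoint_of_subset_left (he P hP) ?_
      rw [Set.disjoint_union_left]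
      refine ⟨hE Q hQ.1, ?_⟩
      rw [Set.disjoint_iUnion₂_left]
      intro Q' hQ'
      exact (hS.2 Q' (hR hQ') Q hQ.1 (fun h => hQ.2 (h ▸ hQ'))).2
  have hdis : Disjoint (S \ R) N := by
    rw [Finset.disjoint_left]
    intro Q hQ hQ'
    obtain ⟨v, hv⟩ := val_body_ne (hN.1 Q hQ')
    exact (Set.disjoint_left.mp (key Q hQ' Q hQ).1) hv hv
  refine ⟨⟨?_, ?_⟩, ?_⟩
  · intro P hP
    rw [Finset.mem_union] at hP
    rcases hP with hP | hP
    · exact hS.1 P (Finset.mem_sdiff.mp hP).1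
    · exact hN.1 P hP
  · intro P hP Q hQ hPQ
    rw [Finset.mem_union] at hP hQ
    rcases hP with hP | hP <;> rcases hQ with hQ | hQ
    · exact hS.2 P (Finset.mem_sdiff.mp hP).1 Q (Finset.mem_sdiff.mp hQ).1 hPQ
    · exact ⟨(key Q hQ P hP).1.symm, (key Q hQ P hP).2.symm⟩
    · exact key P hP Q hQ
    · exact hN.2 P hP Q hQ hPQ
  · rw [Finset.sum_union hdis]
    have := Finset.sum_sdiff (f := wt) hR
    omega

theorem two_others : ∀ a : Fin 3, ∃ b b' : Fin 3, a ≠ b ∧ a ≠ b' ∧ b ≠ b' := by decide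

/-- vertex sets of walks are connected -/
theorem walk_conn {p : ℕ → V} {b : ℕ} (h : ∀ i < b, G.Adj (p i) (p (i + 1))) :
    Conn G {v | ∃ i, i ≤ b ∧ p i = v} := by
  induction b with
  | zero =>
    have : {v | ∃ i, i ≤ 0 ∧ p i = v} = {p 0} := by
      ext v
      simp only [Set.mem_setOf_eq, Set.mem_singleton_iff]
      constructor
      · rintro ⟨i, hi, rfl⟩
        rw [Nat.le_zero.mp hi]
      · rintro rfl
        exact ⟨0, le_refl _, rfl⟩
    rw [this]
    exact Conn.singleton G _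
  | succ b ih =>
    have h1 := (ih (fun i hi => h i (by omega))).insert (v := p (b + 1))
      ⟨p b, ⟨b, le_refl _, rfl⟩, h b (by omega)⟩
    have : {v | ∃ i, i ≤ b + 1 ∧ p i = v} = insert (p (b + 1)) {v | ∃ i, i ≤ b ∧ p i = v} := by
      ext v
      simp only [Set.mem_setOf_eq, Set.mem_insert_iff]
      constructor
      · rintro ⟨i, hi, rfl⟩
        rcases Nat.lt_or_ge i (b + 1) with h | h
        · exact Or.inr ⟨i, by omega, rfl⟩
        · exact Or.inl (by rw [show i = b + 1 by omega])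
      · rintro (rfl | ⟨i, hi, rfl⟩)
        · exact ⟨b + 1, le_refl _, rfl⟩
        · exact ⟨i, by omega, rfl⟩
    rw [this]
    exact h1

theorem cap_le [Finite V] (S : Finset (Pc V)) (h : ∀ P ∈ S, Val G A P) :
    (⋃ P ∈ S, (P.ends ∪ P.cen) : Set V).ncard ≤ 4 * S.card := by
  induction S using Finset.induction_on with
  | empty => simp
  | insert P S hP ih =>
    rw [Finset.set_biUnion_insert, Finset.card_insert_of_notMem hP]
    have h1 := Set.ncard_union_le (P.ends ∪ P.cen) (⋃ Q ∈ S, (Q.ends ∪ Q.cen))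
    have h2 := val_cap (h P (Finset.mem_insert_self P S))
    have h3 := ih (fun Q hQ => h Q (Finset.mem_insert_of_mem hQ))
    omega

/-- a maximal system -/
theorem exists_max [Nonempty V] {n : ℕ}
    (hn : ¬ ∃ (I : ℕ → Set V) (x y : ℕ → V), LinkSys G A n I x y) :
    ∃ S : Finset (Pc V), Sys G A S ∧ ∀ S', Sys G A S' → ∑ P ∈ S', wt P ≤ ∑ P ∈ S, wt P := by
  have hb : ∀ S, Sys G A S → ∑ P ∈ S, wt P ≤ 3 * n := by
    intro S hS
    have h1 := card_lt hn hS
    have h2 : ∑ P ∈ S, wt P ≤ S.card • 3 := Finset.sum_le_card_nsmul S wt 3 (fun P _ => wt_le P)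
    rw [smul_eq_mul] at h2
    omega
  let Q : ℕ → Prop := fun k => ∃ S, Sys G A S ∧ 3 * n - ∑ P ∈ S, wt P = k
  have hQ : ∃ k, Q k := ⟨_, ∅, ⟨fun P hP => absurd hP (Finset.notMem_empty P),
    fun P hP => absurd hP (Finset.notMem_empty P)⟩, rfl⟩
  classical
  obtain ⟨S, hS, hk⟩ := Nat.find_spec hQ
  refine ⟨S, hS, fun S' hS' => ?_⟩
  have h1 := Nat.find_min' hQ ⟨S', hS', rfl⟩
  rw [← hk] at h1
  have h2 := hb S hS
  have h3 := hb S' hS'
  omega

end galAux

open galAux in
/-- **C15.** -/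
theorem gal (hT : S_Tri) (hP : S_Path) : S_Gal := by
  intro V _ G A n hn
  rcases isEmpty_or_nonempty V with hV | hV
  · refine ⟨∅, by simp, fun D hD => ?_⟩
    obtain ⟨v, _⟩ := hD.2.1.1
    exact (hV.false v).elim
  obtain ⟨S, hS, hmax⟩ := exists_max hn
  refine ⟨⋃ P ∈ S, (P.ends ∪ P.cen), (cap_le S hS.1).trans
    (by have := card_lt hn hS; omega), fun D hD => ?_⟩
  by_contra hcon
  push Not at hcon
  obtain ⟨x, hx, y, hy, hxy⟩ := (Set.one_lt_ncard (Set.toFinite _)).mp hcon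
  have hxA : x ∈ A := hx.1.2
  have hyA : y ∈ A := hy.1.2
  have hends : ∀ z, z ∉ (⋃ P ∈ S, (P.ends ∪ P.cen) : Set V) → ∀ Q ∈ S, z ∉ Q.ends ∧ z ∉ Q.cen := by
    intro z hz Q hQ
    constructor
    · exact fun h => hz (Set.mem_iUnion₂.mpr ⟨Q, hQ, Or.inl h⟩)
    · exact fun h => hz (Set.mem_iUnion₂.mpr ⟨Q, hQ, Or.inr h⟩)
  obtain ⟨ax, hax, haxx⟩ := hx.1.1.2
  obtain ⟨ay, hay, hayy⟩ := hy.1.1.2
  obtain ⟨l, p, p0, pl, pC, pinj, padj, pX, pY⟩ := hP V G D {v | G.Adj x v} {v | G.Adj y v} hD.2.1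
    ⟨ax, hax, haxx.symm⟩ ⟨ay, hay, hayy.symm⟩
  have pA : ∀ i ≤ l, p i ∉ A := fun i hi h => hD.1 (pC i hi) (Or.inl h)
  have pcap : ∀ i ≤ l, ∀ Q ∈ S, p i ∉ Q.cen := fun i hi Q hQ h =>
    hD.1 (pC i hi) (Or.inr (Set.mem_iUnion₂.mpr ⟨Q, hQ, Or.inr h⟩))
  by_cases hU : ∃ i, i ≤ l ∧ ∃ P ∈ S, p i ∈ P.body
  · -- the path meets a body
    classical
    obtain ⟨hil, P, hPS, hpP⟩ := Nat.find_spec hU
    have hmin : ∀ j < Nat.find hU, ∀ Q ∈ S, p j ∉ Q.body := by
      intro j hj Q hQ h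
      exact Nat.find_min hU hj ⟨by omega, Q, hQ, h⟩
    generalize Nat.find hU = i at hil hpP hmin
    obtain ⟨Λ, hΛ⟩ : ∃ Λ : Set V, Λ = {v | ∃ j, j < i ∧ p j = v} := ⟨_, rfl⟩
    have hΛA : Disjoint Λ A := by
      rw [Set.disjoint_left, hΛ]
      rintro v ⟨j, hj, rfl⟩
      exact pA j (by omega)
    have hΛB : ∀ Q ∈ S, Disjoint Λ Q.body := by
      intro Q hQ
      rw [Set.disjoint_left, hΛ]
      rintro v ⟨j, hj, rfl⟩
      exact hmin j hj Q hQ
    have hΛC : ∀ C : Set V, Conn G C → p i ∈ C → Conn G (C ∪ Λ) ∧ ∃ a ∈ C ∪ Λ, G.Adj a x := by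
      intro C hC hpC
      rcases Nat.eq_zero_or_pos i with h0 | h0
      · subst h0
        have : Λ = ∅ := by
          rw [hΛ]
          ext v
          simp
        rw [this, Set.union_empty]
        exact ⟨hC, p 0, hpC, (show G.Adj x (p 0) from p0).symm⟩
      · have h1 : Λ = {v | ∃ j, j ≤ i - 1 ∧ p j = v} := by
          rw [hΛ]
          ext v
          constructor
          · rintro ⟨j, hj, rfl⟩
            exact ⟨j, by omega, rfl⟩
          · rintro ⟨j, hj, rfl⟩
            exact ⟨j, by omega, rfl⟩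
        have h2 : Conn G Λ := by
          rw [h1]
          exact walk_conn (fun j hj => (padj j (by omega) (j + 1) (by omega)).mpr (Or.inr rfl))
        refine ⟨hC.union h2 (Or.inr ⟨p i, hpC, p (i - 1), ?_, ?_⟩), p 0, Or.inr ?_, (show G.Adj x (p 0) from p0).symm⟩
        · rw [hΛ]
          exact ⟨i - 1, by omega, rfl⟩
        · exact (padj i hil (i - 1) (by omega)).mpr (Or.inl (by omega))
        · rw [hΛ]
          exact ⟨0, h0, rfl⟩
    have hxE : ∀ Q ∈ S, Disjoint ({x} : Set V) Q.ends := fun Q hQ =>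
      Set.disjoint_singleton_left.mpr (hends x hx.2 Q hQ).1
    have hRS : ({P} : Finset (Pc V)) ⊆ S := Finset.singleton_subset_iff.mpr hPS
    rcases hS.1 P hPS with ⟨x', y', hL, hPe, hPc⟩ | ⟨c, T, e, hTr, hPb, hPe, hPc⟩
    · -- a link
      obtain ⟨hK, a, ha, hax⟩ := hΛC P.body hL.1 hpP
      have hKA : Disjoint (P.body ∪ Λ) A := by
        rw [Set.disjoint_union_left]
        exact ⟨hL.2.1, hΛA⟩
      have hxP : x ∉ P.ends := (hends x hx.2 P hPS).1
      rw [hPe] at hxP
      have hxx' : x' ≠ x := fun h => hxP (Or.inl h.symm)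
      have hxy' : y' ≠ x := fun h => hxP (Or.inr h.symm)
      have hxy2 : x' ≠ y' := hL.2.2.2.2.1
      have hnb : ∀ z ∈ A, z ∈ nb G P.body → z ∈ nb G (P.body ∪ Λ) := by
        rintro z hz ⟨_, b, hb, hbz⟩
        exact ⟨fun h => Set.disjoint_left.mp hKA h hz, b, Or.inl hb, hbz⟩
      obtain ⟨c, T, hTr, hcK, hTK⟩ := hT V G A (P.body ∪ Λ) ![x', y', x] hK hKA
        (by
          intro i j hij
          fin_cases i <;> fin_cases j <;>
            first
              | rfl
              | exact absurd hij hxy2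
              | exact absurd hij hxx'
              | exact absurd hij hxy'
              | exact absurd hij.symm hxy2
              | exact absurd hij.symm hxx'
              | exact absurd hij.symm hxy')
        (by
          intro i
          fin_cases i
          · exact ⟨hL.2.2.1, hnb x' hL.2.2.1 hL.2.2.2.2.2.1⟩
          · exact ⟨hL.2.2.2.1, hnb y' hL.2.2.2.1 hL.2.2.2.2.2.2⟩
          · exact ⟨hxA, fun h => Set.disjoint_left.mp hKA h hxA, a, ha, hax⟩)
      obtain ⟨N, hN⟩ : ∃ N : Pc V, N = ⟨{c} ∪ ⋃ i, T i, Set.range ![x', y', x], {c}⟩ := ⟨_, rfl⟩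
      have hNv : Val G A N := Or.inr ⟨c, T, _, hTr, by rw [hN], by rw [hN], by rw [hN]⟩
      obtain ⟨r1, r2⟩ := replace (N := {N}) (B := Λ) (E := {x}) hS hRS
        ⟨fun Q hQ => by rw [Finset.mem_singleton.mp hQ]; exact hNv,
          fun Q hQ Q' hQ' h => absurd ((Finset.mem_singleton.mp hQ).trans
            (Finset.mem_singleton.mp hQ').symm) h⟩ hΛB hxE
        (by
          intro Q hQ v hv
          rw [Finset.mem_singleton.mp hQ, hN] at hv
          have hv' : v ∈ P.body ∪ Λ := by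
            rcases hv with hv | hv
            · rw [Set.mem_singleton_iff.mp hv]
              exact hcK
            · obtain ⟨j, hj⟩ := Set.mem_iUnion.mp hv
              exact hTK j hj
          rcases hv' with hv' | hv'
          · exact Or.inr (Set.mem_iUnion₂.mpr ⟨P, Finset.mem_singleton_self P, hv'⟩)
          · exact Or.inl hv')
        (by
          intro Q hQ v hv
          rw [Finset.mem_singleton.mp hQ, hN] at hv
          obtain ⟨j, rfl⟩ := hv
          fin_cases j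
          · exact Or.inr (Set.mem_iUnion₂.mpr ⟨P, Finset.mem_singleton_self P, hPe ▸ Or.inl rfl⟩)
          · exact Or.inr (Set.mem_iUnion₂.mpr ⟨P, Finset.mem_singleton_self P, hPe ▸ Or.inr rfl⟩)
          · exact Or.inl rfl)
      have h3 := hmax _ r1
      rw [Finset.sum_singleton, Finset.sum_singleton, wt_L hPc, wt_T (c := c) (by rw [hN])] at r2
      omega
    · -- a tripod
      have hpc : p i ≠ c := by
        intro h
        apply pcap i hil P hPS
        rw [hPc, h]
        rfl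
      have hpT : ∃ a, p i ∈ T a := by
        rw [hPb] at hpP
        rcases hpP with h | h
        · exact absurd h hpc
        · exact Set.mem_iUnion.mp h
      obtain ⟨a, hpa⟩ := hpT
      have hTa : Conn G (T a) ∧ c ∈ nb G (T a) ∧ e a ∈ nb G (T a) := by
        rcases hTr.2.2.2.2.2 a with ⟨h, _⟩ | h
        · rw [h] at hpa
          exact absurd hpa (Set.notMem_empty _)
        · exact h
      obtain ⟨b, b', hab, hab', hbb'⟩ := two_others a
      obtain ⟨hK, z, hz, hzx⟩ := hΛC (T a) hTa.1 hpa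
      have hKA : Disjoint (T a ∪ Λ) A := by
        rw [Set.disjoint_union_left]
        exact ⟨(hTr.2.2.2.1 a).1, hΛA⟩
      have hxP : x ∉ P.ends := (hends x hx.2 P hPS).1
      rw [hPe] at hxP
      have hex : ∀ j, e j ≠ x := fun j h => hxP ⟨j, h⟩
      obtain ⟨N₁, hN₁⟩ : ∃ N : Pc V, N = ⟨T a ∪ Λ, {e a, x}, ∅⟩ := ⟨_, rfl⟩
      obtain ⟨N₂, hN₂⟩ : ∃ N : Pc V, N = ⟨({c} ∪ T b) ∪ ({c} ∪ T b'), {e b, e b'}, ∅⟩ := ⟨_, rfl⟩
      have hv₁ : Val G A N₁ := by
        refine Or.inl ⟨e a, x, ?_, by rw [hN₁], by rw [hN₁]⟩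
        rw [hN₁]
        refine ⟨hK, hKA, hTr.2.2.1 a, hxA, hex a, ?_, ?_⟩
        · obtain ⟨_, w, hw, hwe⟩ := hTa.2.2
          exact ⟨fun h => Set.disjoint_left.mp hKA h (hTr.2.2.1 a), w, Or.inl hw, hwe⟩
        · exact ⟨fun h => Set.disjoint_left.mp hKA h hxA, z, hz, hzx⟩
      have hv₂ : Val G A N₂ := by
        refine Or.inl ⟨e b, e b', ?_, by rw [hN₂], by rw [hN₂]⟩
        rw [hN₂]
        exact two_legs hTr hbb'
      have hsub₂ : N₂.body ⊆ P.body := by
        rw [hN₂, hPb]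
        rintro v ((h | h) | (h | h))
        · exact Or.inl h
        · exact Or.inr (Set.mem_iUnion.mpr ⟨b, h⟩)
        · exact Or.inl h
        · exact Or.inr (Set.mem_iUnion.mpr ⟨b', h⟩)
      have hd : Disjoint N₁.body N₂.body ∧ Disjoint N₁.ends N₂.ends := by
        constructor
        · rw [hN₁, Set.disjoint_union_left]
          constructor
          · rw [hN₂, Set.disjoint_union_right, Set.disjoint_union_right, Set.disjoint_union_right]
            have h1 : Disjoint (T a) {c} := Set.disjoint_singleton_right.mpr (hTr.2.2.2.1 a).2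
            exact ⟨⟨h1, hTr.2.2.2.2.1 a b hab⟩, ⟨h1, hTr.2.2.2.2.1 a b' hab'⟩⟩
          · exact Set.disjoint_of_subset_right hsub₂ (hΛB P hPS)
        · rw [hN₁, hN₂, Set.disjoint_left]
          rintro v (rfl | h) (h' | h')
          · exact hab (hTr.2.1 h')
          · exact hab' (hTr.2.1 h')
          · exact hex b (h'.symm.trans h)
          · exact hex b' (h'.symm.trans h)
      have hne : N₁ ≠ N₂ := by
        intro h
        obtain ⟨v, hv⟩ := val_body_ne hv₁
        exact Set.disjoint_left.mp hd.1 hv (h ▸ hv)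
      obtain ⟨r1, r2⟩ := replace (N := {N₁, N₂}) (B := Λ) (E := {x}) hS hRS
        ⟨fun Q hQ => by
            rcases Finset.mem_insert.mp hQ with rfl | hQ
            · exact hv₁
            · rw [Finset.mem_singleton.mp hQ]
              exact hv₂,
          fun Q hQ Q' hQ' h => by
            rw [Finset.mem_insert, Finset.mem_singleton] at hQ hQ'
            rcases hQ with hQ | hQ <;> rcases hQ' with hQ' | hQ'
            · exact absurd (hQ.trans hQ'.symm) h
            · rw [hQ, hQ']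
              exact hd
            · rw [hQ, hQ']
              exact ⟨hd.1.symm, hd.2.symm⟩
            · exact absurd (hQ.trans hQ'.symm) h⟩ hΛB hxE
        (by
          intro Q hQ v hv
          rw [Finset.mem_insert, Finset.mem_singleton] at hQ
          rcases hQ with hQ | hQ
          · rw [hQ, hN₁] at hv
            rcases hv with hv | hv
            · refine Or.inr (Set.mem_iUnion₂.mpr ⟨P, Finset.mem_singleton_self P, ?_⟩)
              rw [hPb]
              exact Or.inr (Set.mem_iUnion.mpr ⟨a, hv⟩)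
            · exact Or.inl hv
          · rw [hQ] at hv
            exact Or.inr (Set.mem_iUnion₂.mpr ⟨P, Finset.mem_singleton_self P, hsub₂ hv⟩))
        (by
          intro Q hQ v hv
          rw [Finset.mem_insert, Finset.mem_singleton] at hQ
          rcases hQ with hQ | hQ
          · rw [hQ, hN₁] at hv
            rcases hv with hv | hv
            · refine Or.inr (Set.mem_iUnion₂.mpr ⟨P, Finset.mem_singleton_self P, ?_⟩)
              rw [hPe, hv]
              exact ⟨a, rfl⟩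
            · exact Or.inl hv
          · rw [hQ, hN₂] at hv
            refine Or.inr (Set.mem_iUnion₂.mpr ⟨P, Finset.mem_singleton_self P, ?_⟩)
            rw [hPe]
            rcases hv with hv | hv
            · exact ⟨b, hv.symm⟩
            · exact ⟨b', hv.symm⟩)
      have h3 := hmax _ r1
      rw [Finset.sum_singleton, Finset.sum_pair hne, wt_T hPc, wt_L (P := N₁) (by rw [hN₁]),
        wt_L (P := N₂) (by rw [hN₂])] at r2
      omega
  · -- the path avoids all bodies
    push Not at hU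
    obtain ⟨N, hN⟩ : ∃ N : Pc V, N = ⟨{v | ∃ j, j ≤ l ∧ p j = v}, {x, y}, ∅⟩ := ⟨_, rfl⟩
    have hNA : Disjoint {v | ∃ j, j ≤ l ∧ p j = v} A := by
      rw [Set.disjoint_left]
      rintro v ⟨j, hj, rfl⟩
      exact pA j hj
    have hNv : Val G A N := by
      refine Or.inl ⟨x, y, ?_, by rw [hN], by rw [hN]⟩
      rw [hN]
      refine ⟨walk_conn (fun j hj => (padj j (by omega) (j + 1) (by omega)).mpr (Or.inr rfl)), hNA,
        hxA, hyA, hxy, ?_, ?_⟩
      · exact ⟨fun h => Set.disjoint_left.mp hNA h hxA, p 0, ⟨0, by omega, rfl⟩, (show G.Adj x (p 0) from p0).symm⟩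
      · exact ⟨fun h => Set.disjoint_left.mp hNA h hyA, p l, ⟨l, by omega, rfl⟩, (show G.Adj y (p l) from pl).symm⟩
    obtain ⟨r1, r2⟩ := replace (R := ∅) (N := {N}) (B := N.body) (E := {x, y}) hS
      (Finset.empty_subset _)
      ⟨fun Q hQ => by rw [Finset.mem_singleton.mp hQ]; exact hNv,
        fun Q hQ Q' hQ' h => absurd ((Finset.mem_singleton.mp hQ).trans
          (Finset.mem_singleton.mp hQ').symm) h⟩
      (by
        intro Q hQ
        rw [hN, Set.disjoint_left]
        rintro v ⟨j, hj, rfl⟩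
        exact hU j hj Q hQ)
      (by
        intro Q hQ
        rw [Set.disjoint_left]
        rintro v (rfl | h)
        · exact (hends v hx.2 Q hQ).1
        · rw [Set.mem_singleton_iff.mp h]
          exact (hends y hy.2 Q hQ).1)
      (by
        intro Q hQ v hv
        rw [Finset.mem_singleton.mp hQ] at hv
        exact Or.inl hv)
      (by
        intro Q hQ v hv
        rw [Finset.mem_singleton.mp hQ, hN] at hv
        exact Or.inl hv)
    have h3 := hmax _ r1
    rw [Finset.sum_empty, Finset.sum_singleton, wt_L (P := N) (by rw [hN])] at r2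
    omega

end Pool.Agent.MPd439b2
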