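import Pool.Agent.Lib.MP_d439b2_co.B.SpecK
import Pool.Agent.Lib.MP_d439b2_co.Basic

/-!
# MP_d439b2_co, Theorem B, module Grow: growing and shrinking connected sets
-/

set_option autoImplicit false

namespace Pool.Agent.MPd439b2

namespace growAux

theorem shrink {V : Type} [Finite V] (G : SimpleGraph V) (C : Set V) (u : V) (hC : Conn G C) (hu : u ∈ C)
    (hne : C ≠ {u}) : ∃ v ∈ C, v ≠ u ∧ Conn G (C \ {v}) := by
  have hfin : {D : Set V | D ⊆ C ∧ D ≠ C ∧ u ∈ D ∧ Conn G D}.Finite := Set.toFinite _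
  have hn : {D : Set V | D ⊆ C ∧ D ≠ C ∧ u ∈ D ∧ Conn G D}.Nonempty :=
    ⟨{u}, Set.singleton_subset_iff.2 hu, hne.symm, rfl, Conn.singleton G u⟩
  obtain ⟨D, hD⟩ := hfin.exists_maximal hn
  obtain ⟨hDC, hDne, huD, hDconn⟩ := hD.1
  obtain ⟨b, hb, a, ha, hab⟩ := hC.2 D hDC ⟨u, huD⟩ hDne
  have hins : Conn G (insert a D) := hDconn.insert ⟨b, hb, hab⟩
  have heq : insert a D = C := by
    by_contra h
    have hle := hD.2 (y := insert a D) ⟨Set.insert_subset ha.1 hDC, h, Set.mem_insert_of_mem a huD, hins⟩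
      (Set.subset_insert a D)
    exact ha.2 (hle (Set.mem_insert a D))
  refine ⟨a, ha.1, ?_, ?_⟩
  · rintro rfl
    exact ha.2 huD
  · have : C \ {a} = D := by
      rw [← heq]
      ext x
      constructor
      · rintro ⟨hx, hxa⟩
        exact hx.resolve_left hxa
      · intro hx
        exact ⟨Or.inr hx, fun h => ha.2 (h ▸ hx)⟩
    rw [this]
    exact hDconn

end growAux

theorem grow : S_Grow := by
  intro V _ G C u hC hu
  refine ⟨growAux.shrink G C u hC hu, ?_⟩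
  intro f M d hf hu0 hM
  have hfin : {D : Set V | D ⊆ C ∧ u ∈ D ∧ Conn G D ∧ M ≤ f D}.Finite := Set.toFinite _
  have hn : {D : Set V | D ⊆ C ∧ u ∈ D ∧ Conn G D ∧ M ≤ f D}.Nonempty := ⟨C, subset_rfl, hu, hC, hM⟩
  obtain ⟨D, hD⟩ := hfin.exists_minimal hn
  obtain ⟨hDC, huD, hDconn, hMD⟩ := hD.1
  have hDne : D ≠ {u} := by
    rintro rfl
    omega
  obtain ⟨v, hvD, hvu, hv⟩ := growAux.shrink G D u hDconn huD hDne
  refine ⟨D, hDC, huD, hDconn, hMD, ?_⟩
  have hlt : f (D \ {v}) < M := by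
    by_contra h
    have hle := hD.2 (y := D \ {v}) ⟨Set.sdiff_subset.trans hDC, ⟨huD, fun h => hvu (Set.mem_singleton_iff.1 h).symm⟩,
      hv, not_lt.1 h⟩ Set.sdiff_subset
    exact (hle hvD).2 rfl
  have h1 := hf (D \ {v}) v (hDC hvD)
  rw [Set.insert_sdiff_singleton, Set.insert_eq_of_mem hvD] at h1
  omega

end Pool.Agent.MPd439b2
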