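import Pool.Agent.Lib.MP_d439b2_co.B.SpecQ

/-!
# MP_d439b2_co, Theorem B, L1: non-touching connected sets have nested traces
-/

set_option autoImplicit false

namespace Pool.Agent.MPd439b2

namespace l1Aux

variable {V : Type}

lemma tau_sub (G : SimpleGraph V) (I E : Finset ℕ) (B : ℕ → Set V) (D : Set V) :
    tau G I B D \ E ⊆ tau G (I \ E) B D := by
  intro x hx
  rw [Finset.mem_sdiff, mem_tau] at hx
  rw [mem_tau, Finset.mem_sdiff]
  exact ⟨⟨hx.1.1, hx.2⟩, hx.1.2⟩

lemma card_tau (G : SimpleGraph V) (I E : Finset ℕ) (B : ℕ → Set V) (D : Set V) (n : ℕ)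
    (hE : E.card ≤ 2) (h : n + 2 ≤ (tau G I B D).card) :
    n ≤ (tau G (I \ E) B D).card := by
  have h1 := Finset.card_le_card (tau_sub G I E B D)
  have h2 := Finset.le_card_sdiff E (tau G I B D)
  omega

lemma card_tau' (G : SimpleGraph V) (I E : Finset ℕ) (B : ℕ → Set V) (D : Set V) (n : ℕ)
    (i : ℕ) (hI : Mdl G I B) (hi : i ∈ I) (hiE : i ∈ E)
    (hE : E.card ≤ 2) (h : n + 2 ≤ (tau G I B D).card) :
    n ≤ (tau G (I \ E) B (B i)).card := by
  have h1 : I \ E ⊆ tau G (I \ E) B (B i) := by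
    intro x hx
    rw [mem_tau]
    rw [Finset.mem_sdiff] at hx
    refine ⟨Finset.mem_sdiff.2 hx, ?_⟩
    exact (hI.2 i hi x hx.1 (fun hh => hx.2 (hh ▸ hiE))).2
  have h2 : tau G I B D ⊆ I := fun x hx => (mem_tau.1 hx).1
  have h3 := Finset.card_le_card h1
  have h4 := Finset.card_le_card h2
  have h5 := Finset.le_card_sdiff E I
  omega

end l1Aux

open l1Aux

theorem l1 : S_KPd → S_L1 := by
  intro hK V G s I B D D' hIM hM hD hD' hdis hnt hBd hc hc'
  by_contra hcon
  rw [not_or] at hcon
  obtain ⟨hc1, hc2⟩ := hcon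
  obtain ⟨i, hi, hi'⟩ := Finset.not_subset.1 hc1
  obtain ⟨j, hj, hj'⟩ := Finset.not_subset.1 hc2
  rw [mem_tau] at hi hj
  have hni : ¬ Tch G D' (B i) := fun h => hi' (mem_tau.2 ⟨hi.1, h⟩)
  have hnj : ¬ Tch G D (B j) := fun h => hj' (mem_tau.2 ⟨hj.1, h⟩)
  have hij : i ≠ j := by
    intro h
    rw [h] at hi
    exact hnj hi.2
  have hBij := hM.2 i hi.1 j hj.1 hij
  have hcE : ({i, j} : Finset ℕ).card ≤ 2 := Finset.card_le_two
  apply hIM
  refine hK V G s (I \ {i, j}) B ![D, B i, B j, D'] ?_ ?_ ?_ ?_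
  · refine ⟨fun x hx => hM.1 x (Finset.mem_sdiff.1 hx).1, fun x hx y hy hxy => ?_⟩
    exact hM.2 x (Finset.mem_sdiff.1 hx).1 y (Finset.mem_sdiff.1 hy).1 hxy
  · refine ⟨?_, ?_, ?_⟩
    · intro a
      fin_cases a
      · exact hD
      · exact hM.1 i hi.1
      · exact hM.1 j hj.1
      · exact hD'
    · intro a b hab
      fin_cases a <;> fin_cases b
      · exact absurd rfl hab
      · exact (hBd i hi.1).1
      · exact (hBd j hj.1).1
      · exact hdis
      · exact (hBd i hi.1).1.symm
      · exact absurd rfl hab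
      · exact hBij.1
      · exact (hBd i hi.1).2.symm
      · exact (hBd j hj.1).1.symm
      · exact hBij.1.symm
      · exact absurd rfl hab
      · exact (hBd j hj.1).2.symm
      · exact hdis.symm
      · exact (hBd i hi.1).2
      · exact (hBd j hj.1).2
      · exact absurd rfl hab
    · intro a b hab
      fin_cases a <;> fin_cases b
      · exact absurd rfl hab
      · exact ⟨fun _ => Or.inr rfl, fun _ => hi.2⟩
      · exact ⟨fun h => absurd h hnj, fun h => absurd h (by decide)⟩
      · exact ⟨fun h => absurd h hnt, fun h => absurd h (by decide)⟩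
      · exact ⟨fun _ => Or.inl rfl, fun _ => hi.2.symm⟩
      · exact absurd rfl hab
      · exact ⟨fun _ => Or.inr rfl, fun _ => hBij.2⟩
      · exact ⟨fun h => absurd h.symm hni, fun h => absurd h (by decide)⟩
      · exact ⟨fun h => absurd h.symm hnj, fun h => absurd h (by decide)⟩
      · exact ⟨fun _ => Or.inl rfl, fun _ => hBij.2.symm⟩
      · exact absurd rfl hab
      · exact ⟨fun _ => Or.inr rfl, fun _ => hj.2.symm⟩
      · exact ⟨fun h => absurd h.symm hnt, fun h => absurd h (by decide)⟩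
      · exact ⟨fun h => absurd h hni, fun h => absurd h (by decide)⟩
      · exact ⟨fun _ => Or.inl rfl, fun _ => hj.2⟩
      · exact absurd rfl hab
  · intro x hx a
    rw [Finset.mem_sdiff] at hx
    have hxi : x ≠ i := fun h => hx.2 (by rw [h]; exact Finset.mem_insert_self i {j})
    have hxj : x ≠ j := fun h => hx.2 (by
      rw [h]
      exact Finset.mem_insert_of_mem (Finset.mem_singleton_self j))
    fin_cases a
    · exact (hBd x hx.1).1.symm
    · exact (hM.2 x hx.1 i hi.1 hxi).1
    · exact (hM.2 x hx.1 j hj.1 hxj).1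
    · exact (hBd x hx.1).2.symm
  · intro a
    fin_cases a
    · exact card_tau G I {i, j} B D (4 * s) hcE hc
    · exact card_tau' G I {i, j} B D (4 * s) i hM hi.1 (Finset.mem_insert_self i {j}) hcE hc
    · exact card_tau' G I {i, j} B D (4 * s) j hM hj.1
        (Finset.mem_insert_of_mem (Finset.mem_singleton_self j)) hcE hc
    · exact card_tau G I {i, j} B D' (4 * s) hcE hc'

end Pool.Agent.MPd439b2
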