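import Pool.Agent.Lib.MP_d439b2_co.B.SpecQ

/-!
# MP_d439b2_co, Theorem B, L2: touching connected sets have equal traces, or the traces cover everything
-/

set_option autoImplicit false

namespace Pool.Agent.MPd439b2

namespace l2Aux

variable {V : Type} {G : SimpleGraph V}

theorem card_sub {I : Finset ℕ} {B : ℕ → Set V} {D : Set V} {j k n : ℕ}
    (h : n + 2 ≤ (tau G I B D).card) : n ≤ (tau G (I \ {j, k}) B D).card := by
  classical
  have h1 : tau G I B D \ {j, k} ⊆ tau G (I \ {j, k}) B D := by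
    intro i hi
    rw [Finset.mem_sdiff, mem_tau] at hi
    rw [mem_tau, Finset.mem_sdiff]
    exact ⟨⟨hi.1.1, hi.2⟩, hi.1.2⟩
  have h2 := Finset.card_le_card h1
  have h3 := Finset.le_card_sdiff ({j, k} : Finset ℕ) (tau G I B D)
  have h4 : ({j, k} : Finset ℕ).card ≤ 2 := Finset.card_le_two
  omega

theorem card_full {I : Finset ℕ} {B : ℕ → Set V} {D : Set V} {j k n l : ℕ} (hM : Mdl G I B)
    (hl : l ∈ I) (hlm : l = j ∨ l = k)
    (h : n + 2 ≤ (tau G I B D).card) : n ≤ (tau G (I \ {j, k}) B (B l)).card := by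
  classical
  refine (card_sub (j := j) (k := k) h).trans (Finset.card_le_card ?_)
  intro i hi
  rw [mem_tau] at hi ⊢
  refine ⟨hi.1, ?_⟩
  have h1 := hi.1
  rw [Finset.mem_sdiff, Finset.mem_insert, Finset.mem_singleton] at h1
  have hne : l ≠ i := by
    rintro rfl
    exact h1.2 hlm
  exact (hM.2 l hl i h1.1 hne).2

theorem main (hK : S_KPd) {s : ℕ} {I : Finset ℕ} {B : ℕ → Set V} {D D' : Set V}
    (hfree : ¬ IMS (KP s) G Set.univ) (hM : Mdl G I B) (hD : Conn G D) (hD' : Conn G D')
    (hdd : Disjoint D D') (ht : Tch G D D') (hdis : ∀ i ∈ I, Disjoint D (B i) ∧ Disjoint D' (B i))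
    (h1 : 4 * s + 2 ≤ (tau G I B D).card) (h2 : 4 * s + 2 ≤ (tau G I B D').card)
    {j k : ℕ} (hj : j ∈ tau G I B D') (hj' : j ∉ tau G I B D) (hk : k ∈ I)
    (hkD : k ∉ tau G I B D) (hkD' : k ∉ tau G I B D') : False := by
  classical
  have hjI : j ∈ I := (mem_tau.mp hj).1
  have hjk : j ≠ k := by
    rintro rfl
    exact hkD' hj
  have nDj : ¬ Tch G D (B j) := fun h => hj' (mem_tau.mpr ⟨hjI, h⟩)
  have nDk : ¬ Tch G D (B k) := fun h => hkD (mem_tau.mpr ⟨hk, h⟩)
  have nD'k : ¬ Tch G D' (B k) := fun h => hkD' (mem_tau.mpr ⟨hk, h⟩)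
  have tD'j : Tch G D' (B j) := (mem_tau.mp hj).2
  have tjk : Tch G (B j) (B k) := (hM.2 j hjI k hk hjk).2
  have djk : Disjoint (B j) (B k) := (hM.2 j hjI k hk hjk).1
  apply hfree
  refine hK V G s (I \ {j, k}) B ![D, D', B j, B k] ?_ ?_ ?_ ?_
  · exact ⟨fun i hi => hM.1 i (Finset.mem_sdiff.mp hi).1,
      fun i hi i' hi' hne => hM.2 i (Finset.mem_sdiff.mp hi).1 i' (Finset.mem_sdiff.mp hi').1 hne⟩
  · refine ⟨?_, ?_, ?_⟩
    · intro i
      fin_cases i
      · exact hD
      · exact hD'
      · exact hM.1 j hjI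
      · exact hM.1 k hk
    · intro a b hab
      fin_cases a <;> fin_cases b <;> first
        | exact absurd rfl hab
        | exact hdd
        | exact hdd.symm
        | exact (hdis j hjI).1
        | exact (hdis j hjI).1.symm
        | exact (hdis k hk).1
        | exact (hdis k hk).1.symm
        | exact (hdis j hjI).2
        | exact (hdis j hjI).2.symm
        | exact (hdis k hk).2
        | exact (hdis k hk).2.symm
        | exact djk
        | exact djk.symm
    · intro a b hab
      fin_cases a <;> fin_cases b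
      · exact absurd rfl hab
      · exact ⟨fun _ => Or.inr rfl, fun _ => ht⟩
      · exact ⟨fun h => absurd h nDj, fun h => by simp at h⟩
      · exact ⟨fun h => absurd h nDk, fun h => by simp at h⟩
      · exact ⟨fun _ => Or.inl rfl, fun _ => ht.symm⟩
      · exact absurd rfl hab
      · exact ⟨fun _ => Or.inr rfl, fun _ => tD'j⟩
      · exact ⟨fun h => absurd h nD'k, fun h => by simp at h⟩
      · exact ⟨fun h => absurd h.symm nDj, fun h => by simp at h⟩
      · exact ⟨fun _ => Or.inl rfl, fun _ => tD'j.symm⟩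
      · exact absurd rfl hab
      · exact ⟨fun _ => Or.inr rfl, fun _ => tjk⟩
      · exact ⟨fun h => absurd h.symm nDk, fun h => by simp at h⟩
      · exact ⟨fun h => absurd h.symm nD'k, fun h => by simp at h⟩
      · exact ⟨fun _ => Or.inl rfl, fun _ => tjk.symm⟩
      · exact absurd rfl hab
  · intro i hi a
    rw [Finset.mem_sdiff, Finset.mem_insert, Finset.mem_singleton, not_or] at hi
    fin_cases a
    · exact (hdis i hi.1).1.symm
    · exact (hdis i hi.1).2.symm
    · exact (hM.2 i hi.1 j hjI hi.2.1).1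
    · exact (hM.2 i hi.1 k hk hi.2.2).1
  · intro a
    fin_cases a
    · exact card_sub h1
    · exact card_sub h2
    · exact card_full hM hjI (Or.inl rfl) h1
    · exact card_full hM hk (Or.inr rfl) h1

end l2Aux

open l2Aux in
theorem l2 : S_KPd → S_L2 := by
  intro hK V G s I B D D' hfree hM hD hD' hdd ht hdis h1 h2
  classical
  by_contra hcon
  push Not at hcon
  obtain ⟨hne, hun⟩ := hcon
  have hsub : tau G I B D ∪ tau G I B D' ⊆ I := by
    intro i hi
    rw [Finset.mem_union, mem_tau, mem_tau] at hi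
    rcases hi with hi | hi
    · exact hi.1
    · exact hi.1
  obtain ⟨k, hk, hk'⟩ : ∃ k ∈ I, k ∉ tau G I B D ∪ tau G I B D' := by
    by_contra h
    push Not at h
    exact hun (Finset.Subset.antisymm hsub h)
  rw [Finset.mem_union, not_or] at hk'
  by_cases h3 : ∃ j ∈ tau G I B D', j ∉ tau G I B D
  · obtain ⟨j, hj, hj'⟩ := h3
    exact main hK hfree hM hD hD' hdd ht hdis h1 h2 hj hj' hk hk'.1 hk'.2
  · push Not at h3
    obtain ⟨j, hj, hj'⟩ : ∃ j ∈ tau G I B D, j ∉ tau G I B D' := by
      by_contra h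
      push Not at h
      exact hne (Finset.Subset.antisymm h h3)
    exact main hK hfree hM hD' hD hdd.symm ht.symm (fun i hi => ⟨(hdis i hi).2, (hdis i hi).1⟩)
      h2 h1 hj hj' hk hk'.2 hk'.1

end Pool.Agent.MPd439b2
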