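import Pool.Agent.Lib.MP_d439b2_co.B.SpecQ

/-!
# MP_d439b2_co, Theorem B: L3, nested traces on the independent vertices
-/

set_option autoImplicit false

namespace Pool.Agent.MPd439b2

theorem l3 : S_KPd → S_L3 := by
  intro hK V G s P J v B D D' hfree hVB hPJ hD hD' hDD hTD hDB hvD hc hc'
  classical
  by_contra hcon
  push Not at hcon
  obtain ⟨h1, h2⟩ := hcon
  rw [Finset.not_subset] at h1 h2
  obtain ⟨i, hi, hi'⟩ := h1
  obtain ⟨k, hk, hk'⟩ := h2
  obtain ⟨hB, hvi, hvn, hvB⟩ := hVB
  have hiP : i ∈ P := (mem_tau.mp hi).1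
  have hkP : k ∈ P := (mem_tau.mp hk).1
  have hik : i ≠ k := fun h => hi' (h ▸ hk)
  set P' := P \ {i, k} with hP'
  have hP'J : P'.card ≤ J.card := (Finset.card_le_card Finset.sdiff_subset).trans hPJ
  obtain ⟨J₁, hJ₁, hJ₁c⟩ := Finset.exists_subset_card_eq hP'J
  let e : J₁ ≃ P' := Finset.equivOfCardEq hJ₁c
  let g : ℕ → ℕ := fun j => if h : j ∈ J₁ then ((e ⟨j, h⟩ : P') : ℕ) else 0
  have hg : ∀ j (hj : j ∈ J₁), g j = ((e ⟨j, hj⟩ : P') : ℕ) := by
    intro j hj
    simp only [g, dif_pos hj]
  have hgP : ∀ j ∈ J₁, g j ∈ P' := by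
    intro j hj
    rw [hg j hj]
    exact (e ⟨j, hj⟩).2
  have hgi : ∀ j ∈ J₁, ∀ j' ∈ J₁, g j = g j' → j = j' := by
    intro j hj j' hj' h
    rw [hg j hj, hg j' hj'] at h
    have := e.injective (Subtype.ext h)
    exact congrArg Subtype.val this
  have hgs : ∀ c ∈ P', ∃ j ∈ J₁, g j = c := by
    intro c hc
    refine ⟨(e.symm ⟨c, hc⟩).1, (e.symm ⟨c, hc⟩).2, ?_⟩
    rw [hg _ (e.symm ⟨c, hc⟩).2]
    simp
  have hgP2 : ∀ j ∈ J₁, g j ∈ P ∧ g j ≠ i ∧ g j ≠ k := by
    intro j hj
    have := hgP j hj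
    rw [hP', Finset.mem_sdiff, Finset.mem_insert, Finset.mem_singleton, not_or] at this
    exact this
  let X : ℕ → Set V := fun j => B j ∪ {v (g j)}
  have hX : Mdl G J₁ X := by
    constructor
    · intro j hj
      have h3 := (hvB (g j) (hgP2 j hj).1 j (hJ₁ hj)).2
      exact (hB.1 j (hJ₁ hj)).union (Conn.singleton G _) (Or.inr h3.symm)
    · intro j hj j' hj' hne
      have h3 := hB.2 j (hJ₁ hj) j' (hJ₁ hj') hne
      refine ⟨?_, h3.2.mono Set.subset_union_left Set.subset_union_left⟩
      rw [Set.disjoint_left]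
      rintro x (hx | hx) (hx' | hx')
      · exact (Set.disjoint_left.mp h3.1) hx hx'
      · rw [Set.mem_singleton_iff] at hx'
        subst hx'
        exact (hvB _ (hgP2 j' hj').1 j (hJ₁ hj)).1 hx
      · rw [Set.mem_singleton_iff] at hx
        subst hx
        exact (hvB _ (hgP2 j hj).1 j' (hJ₁ hj')).1 hx'
      · rw [Set.mem_singleton_iff] at hx hx'
        exact hne (hgi j hj j' hj' (hvi _ (hgP2 j hj).1 _ (hgP2 j' hj').1 (hx ▸ hx')))
  have key : ∀ E : Set V, 4 * s + 2 ≤ (tau G P (fun c => {v c}) E).card →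
      4 * s ≤ (tau G J₁ X E).card := by
    intro E hE
    have h3 : tau G P (fun c => {v c}) E \ {i, k} ⊆ (tau G J₁ X E).image g := by
      intro c hc
      rw [Finset.mem_sdiff] at hc
      have hcP : c ∈ P' := by
        rw [hP', Finset.mem_sdiff]
        exact ⟨(mem_tau.mp hc.1).1, hc.2⟩
      obtain ⟨j, hj, rfl⟩ := hgs c hcP
      rw [Finset.mem_image]
      refine ⟨j, mem_tau.mpr ⟨hj, ?_⟩, rfl⟩
      exact (mem_tau.mp hc.1).2.mono subset_rfl Set.subset_union_right
    have h4 := Finset.card_le_card h3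
    have h5 := Finset.card_image_le (s := tau G J₁ X E) (f := g)
    have h6 := Finset.le_card_sdiff ({i, k} : Finset ℕ) (tau G P (fun c => {v c}) E)
    have h7 : ({i, k} : Finset ℕ).card ≤ 2 := Finset.card_le_two
    omega
  have hJ1big : 4 * s ≤ J₁.card := by
    rw [hJ₁c, hP']
    have h6 := Finset.le_card_sdiff ({i, k} : Finset ℕ) P
    have h7 : ({i, k} : Finset ℕ).card ≤ 2 := Finset.card_le_two
    have h8 := Finset.card_le_card (fun c hc => (mem_tau.mp hc).1 :
      tau G P (fun c => {v c}) D ⊆ P)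
    omega
  have key2 : ∀ c ∈ P, 4 * s ≤ (tau G J₁ X {v c}).card := by
    intro c hc
    have h3 : J₁ ⊆ tau G J₁ X {v c} := by
      intro j hj
      refine mem_tau.mpr ⟨hj, ?_⟩
      exact (hvB c hc j (hJ₁ hj)).2.mono subset_rfl Set.subset_union_left
    exact hJ1big.trans (Finset.card_le_card h3)
  have tD : Tch G D {v i} := (mem_tau.mp hi).2
  have tD' : Tch G D' {v k} := (mem_tau.mp hk).2
  have nD' : ¬ Tch G D' {v i} := fun h => hi' (mem_tau.mpr ⟨hiP, h⟩)
  have nD : ¬ Tch G D {v k} := fun h => hk' (mem_tau.mpr ⟨hkP, h⟩)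
  have nv : ¬ Tch G {v i} {v k} := by
    rintro ⟨a, ha, b, hb, hab⟩
    rw [Set.mem_singleton_iff] at ha hb
    subst ha hb
    exact hvn i hiP k hkP hab
  have dvD : Disjoint {v i} D := Set.disjoint_singleton_left.mpr (hvD i hiP).1
  have dvD' : Disjoint {v i} D' := Set.disjoint_singleton_left.mpr (hvD i hiP).2
  have dkD : Disjoint D {v k} := Set.disjoint_singleton_right.mpr (hvD k hkP).1
  have dkD' : Disjoint D' {v k} := Set.disjoint_singleton_right.mpr (hvD k hkP).2
  have dv : Disjoint ({v i} : Set V) {v k} := by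
    rw [Set.disjoint_singleton]
    exact fun h => hik (hvi i hiP k hkP h)
  apply hfree
  refine hK V G s J₁ X ![{v i}, D, D', {v k}] hX ⟨?_, ?_, ?_⟩ ?_ ?_
  · intro a
    fin_cases a
    · exact Conn.singleton G _
    · exact hD
    · exact hD'
    · exact Conn.singleton G _
  · intro a b hab
    fin_cases a <;> fin_cases b
    · exact absurd rfl hab
    · exact dvD
    · exact dvD'
    · exact dv
    · exact dvD.symm
    · exact absurd rfl hab
    · exact hDD
    · exact dkD
    · exact dvD'.symm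
    · exact hDD.symm
    · exact absurd rfl hab
    · exact dkD'
    · exact dv.symm
    · exact dkD.symm
    · exact dkD'.symm
    · exact absurd rfl hab
  · intro a b hab
    fin_cases a <;> fin_cases b
    · exact absurd rfl hab
    · exact iff_of_true tD.symm (Or.inr rfl)
    · exact iff_of_false (fun h => nD' h.symm) (by decide)
    · exact iff_of_false nv (by decide)
    · exact iff_of_true tD (Or.inl rfl)
    · exact absurd rfl hab
    · exact iff_of_true hTD (Or.inr rfl)
    · exact iff_of_false nD (by decide)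
    · exact iff_of_false nD' (by decide)
    · exact iff_of_true hTD.symm (Or.inl rfl)
    · exact absurd rfl hab
    · exact iff_of_true tD' (Or.inr rfl)
    · exact iff_of_false (fun h => nv h.symm) (by decide)
    · exact iff_of_false (fun h => nD h.symm) (by decide)
    · exact iff_of_true tD'.symm (Or.inl rfl)
    · exact absurd rfl hab
  · intro j hj a
    have hjJ := hJ₁ hj
    have hvX : ∀ c ∈ P, g j ≠ c → Disjoint (X j) {v c} := by
      intro c hc hne
      rw [Set.disjoint_singleton_right]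
      rintro (hx | hx)
      · exact (hvB c hc j hjJ).1 hx
      · rw [Set.mem_singleton_iff] at hx
        exact hne (hvi c hc _ (hgP2 j hj).1 hx).symm
    have hDX : Disjoint (X j) D := by
      rw [Set.disjoint_union_left, Set.disjoint_singleton_left]
      exact ⟨(hDB j hjJ).1.symm, (hvD _ (hgP2 j hj).1).1⟩
    have hDX' : Disjoint (X j) D' := by
      rw [Set.disjoint_union_left, Set.disjoint_singleton_left]
      exact ⟨(hDB j hjJ).2.symm, (hvD _ (hgP2 j hj).1).2⟩
    fin_cases a
    · exact hvX i hiP (hgP2 j hj).2.1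
    · exact hDX
    · exact hDX'
    · exact hvX k hkP (hgP2 j hj).2.2
  · intro a
    fin_cases a
    · exact key2 i hiP
    · exact key D hc
    · exact key D' hc'
    · exact key2 k hkP

end Pool.Agent.MPd439b2
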