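import Pool.Agent.Lib.MP_d439b2_co.B.SpecR

/-!
# MP_d439b2_co, Theorem B: layouts of finite unions
-/

set_option autoImplicit false

namespace Pool.Agent.MPd439b2

theorem layU : S_LayU := by
  intro V _ G k E 𝒟 hk hY hdisj
  have key : ∀ 𝒟' : Set (Set V), 𝒟'.Finite → 𝒟' ⊆ 𝒟 → Lay G k (⋃₀ 𝒟') := by
    intro 𝒟' hfin
    refine Set.Finite.induction_on (motive := fun s _ => s ⊆ 𝒟 → Lay G k (⋃₀ s)) 𝒟' hfin ?_ ?_
    · intro _
      rw [Set.sUnion_empty]
      exact Lay.empty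
    · intro Y s hYs _ ih hsub
      have hYD : Y ∈ 𝒟 := hsub (Set.mem_insert _ _)
      have hsD : s ⊆ 𝒟 := (Set.subset_insert _ _).trans hsub
      rw [Set.sUnion_insert]
      refine Lay.union (hY Y hYD).1 (ih hsD) ?_ ?_
      · rw [Set.disjoint_sUnion_right]
        intro Y' hY'
        exact hdisj Y hYD Y' (hsD hY') (fun h => hYs (h ▸ hY'))
      · have hnb : nb G (Y ∪ ⋃₀ s) ⊆ E := by
          rintro v ⟨hv, a, ha, hav⟩
          rcases ha with ha | ⟨Y', hY', ha⟩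
          · exact (hY Y hYD).2 ⟨fun h => hv (Or.inl h), a, ha, hav⟩
          · exact (hY Y' (hsD hY')).2 ⟨fun h => hv (Or.inr ⟨Y', hY', h⟩), a, ha, hav⟩
        have h1 : (nb G (Y ∪ ⋃₀ s)).ncard ≤ E.ncard := Set.ncard_le_ncard hnb (Set.toFinite _)
        refine (types_encard_le h1).trans ?_
        have h2 : 2 ^ E.ncard - 1 ≤ k := by omega
        exact_mod_cast h2
  exact key 𝒟 (Set.toFinite _) (subset_refl _)

end Pool.Agent.MPd439b2
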