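import Pool.Agent.Lib.MP_d439b2_co.B.SpecC

/-!
# MP_d439b2_co, Theorem B, module LinkBd: bounded number of disjoint links
-/

set_option autoImplicit false

namespace Pool.Agent.MPd439b2

namespace linkBdAux

theorem PSys.mono {V : Type} {G : SimpleGraph V} {A : Set V} {S T : Finset ℕ} {L : ℕ → ℕ}
    {p : ℕ → ℕ → V} {x y : ℕ → V} (h : PSys G A S L p x y) (hT : T ⊆ S) :
    PSys G A T L p x y :=
  ⟨fun k hk => h.1 k (hT hk), fun k hk l hl hkl => h.2 k (hT hk) l (hT hl) hkl⟩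

end linkBdAux

theorem linkBd (hPSys : S_PSys) (hTouch : S_Touch) (hPriv : S_Priv) (hShort : S_Short)
    (hDDC : S_DDC) (hRam : S_Ram) : S_LinkBd := by
  intro s N m
  obtain ⟨M₁, hM₁⟩ : ∃ M₁ : ℕ, M₁ = m * (16 * s + 4) + 3 * m + 1 + (16 * s + 4) := ⟨_, rfl⟩
  obtain ⟨q, hq⟩ : ∃ q : ℕ, q = 4 * (16 * s + 4 + M₁) + 2 * m + m * (16 * s + 4) := ⟨_, rfl⟩
  obtain ⟨a, ha⟩ := hTouch s q
  obtain ⟨b, hb⟩ := hPriv s q (m + 2)
  obtain ⟨n, hn⟩ := hRam a b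
  refine ⟨q, n, by omega, ?_⟩
  intro V _ G A hCore hDD
  rintro ⟨I, x, y, hL⟩
  obtain ⟨L, p, hP⟩ := hPSys V G A n I x y hL
  rcases hn ℕ (Finset.range n) (fun k l => Tch G (seg (p k) 0 (L k)) (seg (p l) 0 (L l)))
    (fun k l h => h.symm) (by rw [Finset.card_range]) with ⟨T, hT, hTc, hT1⟩ | ⟨T, hT, hTc, hT1⟩
  · exact ha V G A N T L p x y hCore (linkBdAux.PSys.mono hP hT) hTc.ge hT1
  · obtain ⟨T', hT', hTc', hT1'⟩ := hb V G A N T L p x y hCore (linkBdAux.PSys.mono hP hT) hTc.ge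
    have hP' := linkBdAux.PSys.mono hP (hT'.trans hT)
    obtain ⟨T₂, hT₂, hTc₂, d, hd⟩ := hShort V G A s q N M₁ m T' L p x y hCore (by omega)
      (by omega) hP' hTc'.ge (fun k hk l hl hkl =>
        ⟨(hT1' k hk l hl hkl).1, hT1 k (hT' hk) l (hT' hl) hkl⟩)
    exact hDD (hDDC V G A s q N M₁ m T₂ L d p x y hCore (by omega) (by omega)
      (linkBdAux.PSys.mono hP' hT₂) hTc₂ (fun k hk l hl hkl =>
        ⟨(hT1' k (hT₂ hk) l (hT₂ hl) hkl).1, (hT1' k (hT₂ hk) l (hT₂ hl) hkl).2,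
          hT1 k (hT' (hT₂ hk)) l (hT' (hT₂ hl)) hkl⟩) hd)

end Pool.Agent.MPd439b2
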