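import Pool.Agent.Lib.MP_d439b2_co.B.SpecC

/-!
# MP_d439b2_co, Theorem B, C6: nested neighbourhoods of big non-touching sets outside the core
-/

set_option autoImplicit false

namespace Pool.Agent.MPd439b2

namespace nestAux

/-- a path pattern from six pairs -/
theorem pathPat {V : Type} (G : SimpleGraph V) (X Y Z W : Set V) (cX : Conn G X) (cY : Conn G Y)
    (cZ : Conn G Z) (cW : Conn G W) (dXY : Disjoint X Y) (dXZ : Disjoint X Z) (dXW : Disjoint X W)
    (dYZ : Disjoint Y Z) (dYW : Disjoint Y W) (dZW : Disjoint Z W) (tXY : Tch G X Y)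
    (tYZ : Tch G Y Z) (tZW : Tch G Z W) (nXZ : ¬ Tch G X Z) (nXW : ¬ Tch G X W)
    (nYW : ¬ Tch G Y W) : PathPat G ![X, Y, Z, W] := by
  have nZX : ¬ Tch G Z X := fun h => nXZ h.symm
  have nWX : ¬ Tch G W X := fun h => nXW h.symm
  have nWY : ¬ Tch G W Y := fun h => nYW h.symm
  refine ⟨?_, ?_, ?_⟩
  · intro w; fin_cases w <;> simpa
  · intro w w' hw
    fin_cases w <;> fin_cases w' <;> first
      | exact absurd rfl hw
      | assumption
      | (apply Disjoint.symm; assumption)
  · intro w w' hw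
    fin_cases w <;> fin_cases w' <;> first
      | exact absurd rfl hw
      | (refine iff_of_true ?_ (by decide); assumption)
      | (refine iff_of_true ?_ (by decide); apply Tch.symm; assumption)
      | (refine iff_of_false ?_ (by decide); assumption)

theorem tch_single {V : Type} (G : SimpleGraph V) (D A : Set V) (hD : Disjoint D A) (a : V)
    (ha : a ∈ A) : Tch G D {a} ↔ a ∈ nb G D ∩ A := by
  constructor
  · rintro ⟨d, hd, b, hb, hdb⟩
    rw [Set.mem_singleton_iff] at hb
    subst hb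
    exact ⟨⟨fun h => (Set.disjoint_left.mp hD) h ha, d, hd, hdb⟩, ha⟩
  · rintro ⟨⟨_, d, hd, hda⟩, _⟩
    exact ⟨d, hd, a, rfl, hda⟩

theorem tch_ss {V : Type} (G : SimpleGraph V) (a b : V) : Tch G {a} {b} ↔ G.Adj a b := by
  constructor
  · rintro ⟨x, hx, y, hy, h⟩
    rw [Set.mem_singleton_iff] at hx hy
    subst hx
    subst hy
    exact h
  · intro h
    exact ⟨a, rfl, b, rfl, h⟩

end nestAux

open nestAux in
/-- **C6** -/
theorem nest : S_Nest := by
  intro V _ G A s q N hcore D D' hD hD' dDA dD'A dDD' nDD' hbig hbig' hle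
  by_contra hcon
  push Not at hcon
  obtain ⟨hc1, hc2⟩ := hcon
  obtain ⟨x, hx, hx'⟩ := Set.not_subset.mp hc1
  obtain ⟨y, hy, hy'⟩ := Set.not_subset.mp hc2
  have hxA : x ∈ A := hx.2
  have hyA : y ∈ A := hy.2
  have hxy : x ≠ y := by
    rintro rfl
    exact hx' hy
  have ns : ∀ a b : V, a ≠ b → Disjoint ({a} : Set V) {b} := fun a b h =>
    Set.disjoint_singleton.mpr h
  have dsD : ∀ a ∈ A, Disjoint D {a} := fun a ha =>
    Set.disjoint_singleton_right.mpr (fun h => (Set.disjoint_left.mp dDA) h ha)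
  have dsD' : ∀ a ∈ A, Disjoint D' {a} := fun a ha =>
    Set.disjoint_singleton_right.mpr (fun h => (Set.disjoint_left.mp dD'A) h ha)
  by_cases hadj : G.Adj x y
  · -- the path `D, {x}, {y}, D'`
    refine hcore.pat _ (pathPat G D {x} {y} D' hD (Conn.singleton G x) (Conn.singleton G y) hD'
      (dsD x hxA) (dsD y hyA) dDD' (ns x y hxy) (dsD' x hxA).symm (dsD' y hyA).symm
      ((tch_single G D A dDA x hxA).mpr hx) ((tch_ss G x y).mpr hadj)
      ((tch_single G D' A dD'A y hyA).mpr hy).symm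
      (fun h => hy' ((tch_single G D A dDA y hyA).mp h)) nDD'
      (fun h => hx' ((tch_single G D' A dD'A x hxA).mp h.symm))) ?_
    intro i
    fin_cases i
    · exact Or.inr ⟨dDA, hbig⟩
    · exact Or.inl ⟨x, hxA, rfl⟩
    · exact Or.inl ⟨y, hyA, rfl⟩
    · exact Or.inr ⟨dD'A, hbig'⟩
  · have hcom := hcore.common x hxA y hyA hxy hadj
    obtain ⟨c, hc, hcD⟩ := Set.exists_mem_notMem_of_ncard_lt_ncard (lt_of_le_of_lt hle hcom)
    have hcA : c ∈ A := hc.2
    have hxc : G.Adj x c := hc.1.1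
    have hyc : G.Adj y c := hc.1.2
    have hxc' : x ≠ c := fun h => G.loopless.irrefl x (by rw [← h] at hxc; exact hxc)
    have hyc' : y ≠ c := fun h => G.loopless.irrefl y (by rw [← h] at hyc; exact hyc)
    by_cases hcD' : c ∈ nb G D' ∩ A
    · -- the path `D, {x}, {c}, D'`
      refine hcore.pat _ (pathPat G D {x} {c} D' hD (Conn.singleton G x) (Conn.singleton G c) hD'
        (dsD x hxA) (dsD c hcA) dDD' (ns x c hxc') (dsD' x hxA).symm (dsD' c hcA).symm
        ((tch_single G D A dDA x hxA).mpr hx) ((tch_ss G x c).mpr hxc)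
        ((tch_single G D' A dD'A c hcA).mpr hcD').symm
        (fun h => hcD ((tch_single G D A dDA c hcA).mp h)) nDD'
        (fun h => hx' ((tch_single G D' A dD'A x hxA).mp h.symm))) ?_
      intro i
      fin_cases i
      · exact Or.inr ⟨dDA, hbig⟩
      · exact Or.inl ⟨x, hxA, rfl⟩
      · exact Or.inl ⟨c, hcA, rfl⟩
      · exact Or.inr ⟨dD'A, hbig'⟩
    · -- the path `D, {x}, {c}, {y}`
      refine hcore.pat _ (pathPat G D {x} {c} {y} hD (Conn.singleton G x) (Conn.singleton G c)
        (Conn.singleton G y)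
        (dsD x hxA) (dsD c hcA) (dsD y hyA) (ns x c hxc') (ns x y hxy) (ns c y hyc'.symm)
        ((tch_single G D A dDA x hxA).mpr hx) ((tch_ss G x c).mpr hxc)
        ((tch_ss G c y).mpr hyc.symm)
        (fun h => hcD ((tch_single G D A dDA c hcA).mp h))
        (fun h => hy' ((tch_single G D A dDA y hyA).mp h))
        (fun h => hadj ((tch_ss G x y).mp h))) ?_
      intro i
      fin_cases i
      · exact Or.inr ⟨dDA, hbig⟩
      · exact Or.inl ⟨x, hxA, rfl⟩
      · exact Or.inl ⟨c, hcA, rfl⟩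
      · exact Or.inl ⟨y, hyA, rfl⟩

end Pool.Agent.MPd439b2
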