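import Pool.Agent.Lib.MP_d439b2_co.B.SpecC

/-!
# MP_d439b2_co, Theorem B, module PSys: from links to induced paths
-/

set_option autoImplicit false

namespace Pool.Agent.MPd439b2

theorem pSys (hPath : S_Path) : S_PSys := by
  intro V G A n I x y hL
  have h : ∀ k, ∃ (l : ℕ) (p : ℕ → V), k < n → (p 0 ∈ {v | G.Adj (x k) v} ∧
      p l ∈ {v | G.Adj (y k) v} ∧ (∀ i ≤ l, p i ∈ I k) ∧
      (∀ i ≤ l, ∀ j ≤ l, p i = p j → i = j) ∧
      (∀ i ≤ l, ∀ j ≤ l, G.Adj (p i) (p j) ↔ i = j + 1 ∨ j = i + 1)) := by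
    intro k
    by_cases hk : k < n
    · obtain ⟨hc, hd, hx, hy, hxy, hxn, hyn⟩ := hL.1 k hk
      obtain ⟨hx1, a, ha, hax⟩ := hxn
      obtain ⟨hy1, b, hb, hby⟩ := hyn
      obtain ⟨l, p, h0, hl, hC, hinj, hadj, _, _⟩ := hPath V G (I k) {v | G.Adj (x k) v}
        {v | G.Adj (y k) v} hc ⟨a, ha, hax.symm⟩ ⟨b, hb, hby.symm⟩
      exact ⟨l, p, fun _ => ⟨h0, hl, hC, hinj, hadj⟩⟩
    · exact ⟨0, fun _ => x k, fun h => absurd h hk⟩
  choose L p h using h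
  have hseg : ∀ k < n, seg (p k) 0 (L k + 1) ⊆ I k := by
    intro k hk v hv
    obtain ⟨i, _, hi, rfl⟩ := hv
    exact (h k hk).2.2.1 i (by omega)
  refine ⟨fun k => L k + 1, p, ?_, ?_⟩
  · intro k hk
    have hk' : k < n := Finset.mem_range.mp hk
    obtain ⟨hc, hd, hx, hy, hxy, hxn, hyn⟩ := hL.1 k hk'
    obtain ⟨h0, hl, hC, hinj, hadj⟩ := h k hk'
    refine ⟨⟨Nat.succ_pos _, ?_, ?_, ?_⟩, hx, hy, hxy, h0, ?_⟩
    · intro i hi hiA
      exact Set.disjoint_left.mp hd (hC i (Nat.lt_succ_iff.mp hi)) hiA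
    · intro i hi j hj hij
      exact hinj i (Nat.lt_succ_iff.mp hi) j (Nat.lt_succ_iff.mp hj) hij
    · intro i hi j hj
      exact hadj i (Nat.lt_succ_iff.mp hi) j (Nat.lt_succ_iff.mp hj)
    · show G.Adj (y k) (p k (L k + 1 - 1))
      rw [Nat.add_sub_cancel]
      exact hl
  · intro k hk l hl hkl
    have hk' : k < n := Finset.mem_range.mp hk
    have hl' : l < n := Finset.mem_range.mp hl
    obtain ⟨hd, h1, h2, h3⟩ := hL.2 k hk' l hl' hkl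
    exact ⟨hd.mono (hseg k hk') (hseg l hl'), h1, h2, h3⟩

end Pool.Agent.MPd439b2
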