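import Pool.Agent.Lib.MP_d439b2_co.B.SpecC

/-!
# MP_d439b2_co, Theorem B, C3: no path of four big sets
-/

set_option autoImplicit false

namespace Pool.Agent.MPd439b2

namespace patAux

theorem choose {V : Type} [Finite V] (v0 : V) (W : ℕ → Set V) (r : ℕ)
    (hW : ∀ i < r, r ≤ (W i).ncard) : ∀ n ≤ r, ∃ x : ℕ → V, (∀ i < n, x i ∈ W i) ∧
      ∀ i < n, ∀ j < n, x i = x j → i = j := by
  intro n
  induction n with
  | zero => exact fun _ => ⟨fun _ => v0, fun i hi => absurd hi (Nat.not_lt_zero i),
      fun i hi => absurd hi (Nat.not_lt_zero i)⟩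
  | succ n ih =>
    intro hn
    obtain ⟨x, hx1, hx2⟩ := ih (by omega)
    have h1 : ((x '' (Set.Iio n)).ncard) ≤ n := by
      calc (x '' (Set.Iio n)).ncard ≤ (Set.Iio n).ncard := Set.ncard_image_le (Set.finite_Iio n)
        _ = n := by simp [Set.ncard_eq_toFinset_card']
    have h2 : ¬ W n ⊆ x '' (Set.Iio n) := by
      intro h
      have h3 := Set.ncard_le_ncard h (Set.toFinite _)
      have h4 := hW n (by omega)
      omega
    obtain ⟨y, hy1, hy2⟩ := Set.not_subset.mp h2
    refine ⟨Function.update x n y, ?_, ?_⟩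
    · intro i hi
      by_cases h : i = n
      · subst h
        rw [Function.update_self]
        exact hy1
      · rw [Function.update_of_ne h]
        exact hx1 i (by omega)
    · intro i hi j hj hij
      by_cases h : i = n
      · by_cases h' : j = n
        · rw [h, h']
        · exfalso
          rw [h, Function.update_self, Function.update_of_ne h'] at hij
          exact hy2 ⟨j, Set.mem_Iio.mpr (by omega), hij.symm⟩
      · by_cases h' : j = n
        · exfalso
          rw [h', Function.update_self, Function.update_of_ne h] at hij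
          exact hy2 ⟨i, Set.mem_Iio.mpr (by omega), hij⟩
        · rw [Function.update_of_ne h, Function.update_of_ne h'] at hij
          exact hx2 i (by omega) j (by omega) hij

end patAux

/-- **C3.** No path of four big sets. -/
theorem pat (hK : S_KPd) : S_Pat := by
  classical
  intro V _ G A s q hno hq hA hrc P hP hbad
  apply hno
  -- F
  let F : Set V := {a | a ∈ A ∧ ∃ i, P i = {a}}
  have hp : ∀ i, ∃ v, v ∈ P i := fun i => (hP.1 i).1
  choose p hp using hp
  have hF : F.ncard ≤ 4 := by
    have h1 : F ⊆ p '' Set.univ := by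
      rintro a ⟨_, i, hi⟩
      refine ⟨i, Set.mem_univ _, ?_⟩
      have h2 := hp i
      rw [hi] at h2
      exact h2
    calc F.ncard ≤ (p '' Set.univ).ncard := Set.ncard_le_ncard h1 (Set.toFinite _)
      _ ≤ (Set.univ : Set (Fin 4)).ncard := Set.ncard_image_le (Set.toFinite _)
      _ = 4 := by rw [Set.ncard_univ, Nat.card_eq_fintype_card, Fintype.card_fin]
  have hFA : F ⊆ A := fun a ha => ha.1
  have hbig : ∀ i, 16 * s + 4 ≤ (nb G (P i) ∩ A).ncard := by
    intro i
    rcases hbad i with ⟨a, ha, hi⟩ | ⟨_, h⟩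
    · have h1 : nb G (P i) ∩ A = G.neighborSet a ∩ A := by
        ext v
        rw [hi]
        constructor
        · rintro ⟨⟨_, b, hb, hbv⟩, hv⟩
          rw [Set.mem_singleton_iff] at hb
          subst hb
          exact ⟨hbv, hv⟩
        · rintro ⟨h1, hv⟩
          refine ⟨⟨?_, a, rfl, h1⟩, hv⟩
          intro h2
          rw [Set.mem_singleton_iff] at h2
          subst h2
          exact G.loopless.irrefl _ h1
      rw [h1]
      have := hA a ha
      omega
    · exact h
  let W : Fin 4 → Set V := fun i => (nb G (P i) ∩ A) \ F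
  have hW : ∀ i, 16 * s ≤ (W i).ncard := by
    intro i
    have h1 := Set.le_ncard_sdiff F (nb G (P i) ∩ A) (Set.toFinite _)
    have h2 := hbig i
    have h3 : (W i).ncard = ((nb G (P i) ∩ A) \ F).ncard := rfl
    omega
  obtain ⟨x, hx1, hx2⟩ := patAux.choose (p 0) (fun k => W (Fin.ofNat 4 (k / (4 * s)))) (16 * s)
    (fun i _ => hW _) (16 * s) le_rfl
  obtain ⟨X, hX1, hX2, hX3⟩ := hrc (16 * s) x F
    (fun i hi => ⟨(hx1 i hi).1.2, (hx1 i hi).2⟩) hx2 hFA (by omega)
  refine hK V G s (Finset.range (16 * s)) X P hX1 hP ?_ ?_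
  · intro i hi j
    have h1 := hX2 i (Finset.mem_range.mp hi)
    rcases hbad j with ⟨a, ha, hj⟩ | ⟨h, _⟩
    · rw [Set.disjoint_left]
      intro v hv hvj
      rw [hj, Set.mem_singleton_iff] at hvj
      subst hvj
      exact (h1 hv).2 ⟨ha, j, hj⟩
    · rw [Set.disjoint_left]
      intro v hv hvj
      exact (Set.disjoint_left.mp h) hvj (h1 hv).1
  · intro j
    have h1 : Finset.Ico (4 * s * j.val) (4 * s * j.val + 4 * s) ⊆
        tau G (Finset.range (16 * s)) X (P j) := by
      intro k hk
      rw [Finset.mem_Ico] at hk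
      have hj := j.isLt
      have hs : 0 < 4 * s := by
        rcases Nat.eq_zero_or_pos (4 * s) with h | h
        · omega
        · exact h
      have hk16 : k < 16 * s := by
        have h3 : 4 * s * j.val ≤ 4 * s * 3 := Nat.mul_le_mul_left _ (by omega)
        omega
      have hdiv : k / (4 * s) = j.val := by
        rw [Nat.div_eq_iff hs]
        constructor
        · rw [Nat.mul_comm]
          omega
        · rw [Nat.mul_comm]
          omega
      have hidx : Fin.ofNat 4 (k / (4 * s)) = j := by
        rw [hdiv]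
        ext
        simp [Fin.ofNat, Nat.mod_eq_of_lt hj]
      have h2 := hx1 k hk16
      simp only [hidx] at h2
      rw [mem_tau]
      refine ⟨Finset.mem_range.mpr hk16, ?_⟩
      obtain ⟨a, ha, hav⟩ := h2.1.1.2
      exact ⟨a, ha, x k, hX3 k hk16, hav⟩
    have h2 := Finset.card_le_card h1
    rw [Nat.card_Ico] at h2
    omega

end Pool.Agent.MPd439b2
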