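import Pool.Agent.Lib.MP_d439b2_co.B.SpecK
import Pool.Agent.Lib.MP_d439b2_co.Basic

/-!
# MP_d439b2_co, Theorem B, module Path: induced paths inside connected sets
-/

set_option autoImplicit false

namespace Pool.Agent.MPd439b2

namespace pathAux

/-- `p 0, ..., p l` is a walk in `C` from `X` to `Y` -/
def Wk {V : Type} (G : SimpleGraph V) (C X Y : Set V) (l : ℕ) (p : ℕ → V) : Prop :=
  p 0 ∈ X ∧ p l ∈ Y ∧ (∀ i ≤ l, p i ∈ C) ∧ ∀ i < l, G.Adj (p i) (p (i + 1))

theorem exists_wk {V : Type} (G : SimpleGraph V) (C X Y : Set V) (hC : Conn G C) (hX : (C ∩ X).Nonempty)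
    (hY : (C ∩ Y).Nonempty) : ∃ (l : ℕ) (p : ℕ → V), Wk G C X Y l p := by
  obtain ⟨x, hxC, hxX⟩ := hX
  have hR : {v | v ∈ C ∧ ∃ (l : ℕ) (p : ℕ → V), Wk G C X {v} l p} = C := by
    refine hC.eq_of_nb (fun v hv => hv.1) ⟨x, hxC, 0, fun _ => x, hxX, rfl, fun _ _ => hxC, by omega⟩ ?_
    rintro v hv ⟨hvn, a, ⟨_, l, p, h0, hl, hp, hadj⟩, hav⟩
    apply hvn
    refine ⟨hv, l + 1, fun i => if i ≤ l then p i else v, ?_, ?_, ?_, ?_⟩
    · simpa using h0
    · simp
    · intro i _
      by_cases h : i ≤ l
      · simpa [h] using hp i h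
      · simpa [h] using hv
    · intro i hi
      have hl' : p l = a := hl
      by_cases h : i = l
      · subst h
        simpa [hl'] using hav
      · have h1 : i ≤ l := by omega
        have h2 : i + 1 ≤ l := by omega
        simpa [h1, h2] using hadj i (by omega)
  obtain ⟨y, hyC, hyY⟩ := hY
  rw [← hR] at hyC
  obtain ⟨_, l, p, h0, hl, hp, hadj⟩ := hyC
  refine ⟨l, p, h0, ?_, hp, hadj⟩
  have : p l = y := hl
  rw [this]
  exact hyY

/-- shortening a walk -/
theorem cut {V : Type} {G : SimpleGraph V} {C X Y : Set V} {l : ℕ} {p : ℕ → V} (h : Wk G C X Y l p) (i m : ℕ)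
    (hil : i + m ≤ l) (hend : i + m = l → p i ∈ Y) (hadj : i + m < l → G.Adj (p i) (p (i + 1 + m))) :
    Wk G C X Y (l - m) (fun k => if k ≤ i then p k else p (k + m)) := by
  obtain ⟨h0, hl, hp, hw⟩ := h
  refine ⟨?_, ?_, ?_, ?_⟩
  · simpa using h0
  · show (if l - m ≤ i then p (l - m) else p (l - m + m)) ∈ Y
    by_cases hh : l - m ≤ i
    · rw [if_pos hh, show l - m = i by omega]
      exact hend (by omega)
    · rw [if_neg hh, show l - m + m = l by omega]
      exact hl
  · intro k hk
    show (if k ≤ i then p k else p (k + m)) ∈ C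
    by_cases hh : k ≤ i
    · rw [if_pos hh]
      exact hp k (by omega)
    · rw [if_neg hh]
      exact hp (k + m) (by omega)
  · intro k hk
    show G.Adj (if k ≤ i then p k else p (k + m)) (if k + 1 ≤ i then p (k + 1) else p (k + 1 + m))
    by_cases h1 : k + 1 ≤ i
    · rw [if_pos h1, if_pos (by omega)]
      exact hw k (by omega)
    · rw [if_neg h1]
      by_cases h2 : k = i
      · subst h2
        rw [if_pos le_rfl]
        exact hadj (by omega)
      · rw [if_neg (by omega), show k + 1 + m = k + m + 1 by omega]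
        exact hw (k + m) (by omega)

end pathAux

theorem path : S_Path := by
  classical
  intro V G C X Y hC hX hY
  have hex : ∃ l : ℕ, ∃ p : ℕ → V, pathAux.Wk G C X Y l p := pathAux.exists_wk G C X Y hC hX hY
  obtain ⟨l, ⟨p, hp⟩, hmin⟩ : ∃ l : ℕ, (∃ p : ℕ → V, pathAux.Wk G C X Y l p) ∧
      ∀ m < l, ¬ ∃ p : ℕ → V, pathAux.Wk G C X Y m p :=
    ⟨Nat.find hex, Nat.find_spec hex, fun m hm => Nat.find_min hex hm⟩
  have hnadj : ∀ i m, 1 ≤ m → i + 1 + m ≤ l → ¬ G.Adj (p i) (p (i + 1 + m)) := by
    intro i m hm him hadj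
    exact hmin (l - m) (by omega) ⟨_, pathAux.cut hp i m (by omega) (by omega) (fun _ => hadj)⟩
  have hneq : ∀ i j, i < j → j ≤ l → p i ≠ p j := by
    intro i j hij hj heq
    refine hmin (l - (j - i)) (by omega) ⟨_, pathAux.cut hp i (j - i) (by omega) (fun h => ?_) (fun h => ?_)⟩
    · have hjl : j = l := by omega
      rw [heq, hjl]
      exact hp.2.1
    · rw [heq, show i + 1 + (j - i) = j + 1 by omega]
      exact hp.2.2.2 j (by omega)
  refine ⟨l, p, hp.1, hp.2.1, hp.2.2.1, ?_, ?_, ?_, ?_⟩
  · intro i hi j hj hij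
    rcases lt_trichotomy i j with h | h | h
    · exact absurd hij (hneq i j h hj)
    · exact h
    · exact absurd hij.symm (hneq j i h hi)
  · intro i hi j hj
    constructor
    · intro hadj
      rcases lt_trichotomy i j with h | h | h
      · right
        by_contra hne
        have := hnadj i (j - i - 1) (by omega) (by omega)
        rw [show i + 1 + (j - i - 1) = j by omega] at this
        exact this hadj
      · subst h
        exact absurd hadj (G.loopless.irrefl _)
      · left
        by_contra hne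
        have := hnadj j (i - j - 1) (by omega) (by omega)
        rw [show j + 1 + (i - j - 1) = i by omega] at this
        exact this hadj.symm
    · rintro (h | h)
      · subst h
        exact (hp.2.2.2 j (by omega)).symm
      · subst h
        exact hp.2.2.2 i (by omega)
  · intro i hi hiX
    by_contra h0
    refine hmin (l - i) (by omega) ⟨fun k => p (k + i), ?_, ?_, ?_, ?_⟩
    · simpa using hiX
    · show p (l - i + i) ∈ Y
      rw [show l - i + i = l by omega]
      exact hp.2.1
    · intro k hk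
      exact hp.2.2.1 (k + i) (by omega)
    · intro k hk
      show G.Adj (p (k + i)) (p (k + 1 + i))
      rw [show k + 1 + i = k + i + 1 by omega]
      exact hp.2.2.2 (k + i) (by omega)
  · intro i hi hiY
    by_contra h0
    exact hmin i (by omega) ⟨p, hp.1, hiY, fun k hk => hp.2.2.1 k (by omega), fun k hk => hp.2.2.2 k (by omega)⟩

end Pool.Agent.MPd439b2
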