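import Pool.Agent.Lib.MP_d439b2_co.B.SpecC

/-! C10: private links. -/

set_option autoImplicit false

namespace Pool.Agent.MPd439b2

namespace privAux

variable {V : Type} [Finite V] {G : SimpleGraph V} {A : Set V}

/-- the bound for the neighbours of a path outside `A` -/
theorem bound (hP : S_PathB) {s q N : ℕ} (hC : CoreP G A s q N) {l : ℕ} {p : ℕ → V}
    (h : OutPath G A l p) : (nb G (seg p 0 l) ∩ A).ncard ≤ 4 * (16 * s + 4 + q) :=
  hP V G A s q N hC l p q h fun i hi => hC.low _ (h.2.1 i hi)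

open Classical in
/-- at most `|M|` indices have an end in `M` -/
theorem few {S : Finset ℕ} {x y : ℕ → V} (M : Set V) (F : Finset ℕ) (hFS : F ⊆ S)
    (hFM : ∀ l ∈ F, x l ∈ M ∨ y l ∈ M)
    (h : ∀ k ∈ S, ∀ l ∈ S, k ≠ l → x k ≠ x l ∧ x k ≠ y l ∧ y k ≠ y l) :
    F.card ≤ M.ncard := by
  let f : ℕ → V := fun l => if x l ∈ M then x l else y l
  have hinj : Set.InjOn f (F : Set ℕ) := by
    intro k hk l hl hkl
    by_contra hne
    have hk' : k ∈ S := hFS (Finset.mem_coe.1 hk)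
    have hl' : l ∈ S := hFS (Finset.mem_coe.1 hl)
    obtain ⟨h1, h2, h3⟩ := h k hk' l hl' hne
    obtain ⟨_, h4, _⟩ := h l hl' k hk' (Ne.symm hne)
    have hkl' : (if x k ∈ M then x k else y k) = if x l ∈ M then x l else y l := hkl
    split_ifs at hkl'
    · exact h1 hkl'
    · exact h2 hkl'
    · exact h4 hkl'.symm
    · exact h3 hkl'
  have hmap : ∀ l ∈ (F : Set ℕ), f l ∈ M := by
    intro l hl
    have h1 := hFM l (Finset.mem_coe.1 hl)
    change (if x l ∈ M then x l else y l) ∈ M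
    split_ifs with h2
    · exact h2
    · exact h1.resolve_left h2
  rw [← Set.ncard_coe_finset F]
  exact Set.ncard_le_ncard_of_injOn f hmap hinj (Set.toFinite M)

end privAux

theorem priv (hP : S_PathB) (hD : S_Dig) : S_Priv := by
  intro s q m'
  refine ⟨(2 * (4 * (16 * s + 4 + q)) + 1) * m', ?_⟩
  intro V _ G A N S L p x y hC hS hn
  classical
  have hends : ∀ k ∈ S, ∀ l ∈ S, k ≠ l → x k ≠ x l ∧ x k ≠ y l ∧ y k ≠ y l :=
    fun k hk l hl hkl => (hS.2 k hk l hl hkl).2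
  obtain ⟨T, hT, hTc, hTE⟩ := hD ℕ S
    (fun k l => x l ∈ nb G (seg (p k) 0 (L k)) ∩ A ∨ y l ∈ nb G (seg (p k) 0 (L k)) ∩ A)
    (4 * (16 * s + 4 + q)) m' (by
      intro k hk
      refine ⟨S.filter fun l => x l ∈ nb G (seg (p k) 0 (L k)) ∩ A ∨
        y l ∈ nb G (seg (p k) 0 (L k)) ∩ A, ?_, ?_⟩
      · exact (privAux.few _ _ (Finset.filter_subset _ _) (fun l hl => (Finset.mem_filter.1 hl).2)
          hends).trans (privAux.bound hP hC (hS.1 k hk).1)
      · intro l hl _ hE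
        exact Finset.mem_filter.2 ⟨hl, hE⟩) hn
  refine ⟨T, hT, hTc, fun k hk l hl hkl => ?_⟩
  have h1 := hTE k hk l hl hkl
  push Not at h1
  obtain ⟨_, hx, hy, _⟩ := hS.1 l (hT hl)
  exact ⟨fun h => h1.1 ⟨h, hx⟩, fun h => h1.2 ⟨h, hy⟩⟩

end Pool.Agent.MPd439b2
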