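import Pool.Agent.Lib.MP_d439b2_co.B.SpecQ

/-!
# MP_d439b2_co, Theorem B, Q1a
-/

set_option autoImplicit false

namespace Pool.Agent.MPd439b2

namespace q1aAux

variable {V : Type} {G : SimpleGraph V}

/-- removing a component of `D \ W` from `D` leaves a connected set -/
theorem conn_sdiff_comp {D W C : Set V} (hD : Conn G D) (hW : Conn G W) (hWD : W ⊆ D)
    (hC : C ⊆ D \ W) (hnb : ∀ u ∈ D \ W, u ∉ nb G C) : Conn G (D \ C) := by
  have hWC : W ⊆ D \ C := fun w hw => ⟨hWD hw, fun h => (hC h).2 hw⟩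
  -- a nonempty subset of `D` which misses `W` and `C` has a neighbour in `D` which is not in `C`
  have key : ∀ E : Set V, E ⊆ D → E.Nonempty → (∀ e ∈ E, e ∉ W ∧ e ∉ C) →
      ∃ e ∈ E, ∃ a ∈ (D \ C) \ E, G.Adj e a := by
    intro E hE hne hWE
    have hEne : E ≠ D := by
      obtain ⟨w, hw⟩ := hW.1
      intro h
      exact (hWE w (h ▸ hWD hw)).1 hw
    obtain ⟨e, he, a, ha, hea⟩ := hD.2 E hE hne hEne
    refine ⟨e, he, a, ⟨⟨ha.1, fun haC => ?_⟩, ha.2⟩, hea⟩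
    exact hnb e ⟨hE he, (hWE e he).1⟩ ⟨(hWE e he).2, a, haC, hea.symm⟩
  refine ⟨hW.1.mono hWC, fun E hE hne hne' => ?_⟩
  by_cases h1 : (E ∩ W).Nonempty
  · by_cases h2 : E ∩ W = W
    · -- `W ⊆ E`
      have h3 : W ⊆ E := by
        rw [← h2]
        exact Set.inter_subset_left
      have h4 : ((D \ C) \ E).Nonempty := by
        by_contra h5
        rw [Set.not_nonempty_iff_eq_empty, Set.sdiff_eq_empty] at h5
        exact hne' (Set.Subset.antisymm hE h5)
      obtain ⟨e, he, a, ha, hea⟩ := key ((D \ C) \ E) (fun x hx => hx.1.1) h4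
        (fun e he => ⟨fun hw => he.2 (h3 hw), he.1.2⟩)
      have haE : a ∈ E := by
        by_contra h6
        exact ha.2 ⟨ha.1, h6⟩
      exact ⟨a, haE, e, he, hea.symm⟩
    · obtain ⟨e, he, a, ha, hea⟩ := hW.2 (E ∩ W) Set.inter_subset_right h1 h2
      exact ⟨e, he.1, a, ⟨hWC ha.1, fun h => ha.2 ⟨h, ha.1⟩⟩, hea⟩
  · obtain ⟨e, he, a, ha, hea⟩ := key E (fun x hx => (hE hx).1) hne
      (fun e he => ⟨fun hw => h1 ⟨e, he, hw⟩, (hE he).2⟩)
    exact ⟨e, he, a, ha, hea⟩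

theorem tau_mono {I : Finset ℕ} {B : ℕ → Set V} {D D' : Set V} (h : D ⊆ D') :
    tau G I B D ⊆ tau G I B D' := by
  intro i hi
  rw [mem_tau] at hi ⊢
  exact ⟨hi.1, hi.2.mono h (Set.Subset.refl _)⟩

theorem tau_insert {I : Finset ℕ} {B : ℕ → Set V} {D : Set V} {v : V} :
    (tau G I B (insert v D)).card ≤ (tau G I B D).card + (tau G I B {v}).card := by
  classical
  refine le_trans (Finset.card_le_card (t := tau G I B D ∪ tau G I B {v}) ?_)
    (Finset.card_union_le _ _)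
  intro i hi
  rw [mem_tau] at hi
  obtain ⟨hiI, a, ha, b, hb, hab⟩ := hi
  rw [Finset.mem_union, mem_tau, mem_tau]
  rcases ha with ha | ha
  · exact Or.inr ⟨hiI, a, ha, b, hb, hab⟩
  · exact Or.inl ⟨hiI, a, ha, b, hb, hab⟩

end q1aAux

open q1aAux in
theorem q1a : S_L2 → S_Grow → S_Q1a := by
  intro hL2 hGrow V _ G s δ I B D hK hM hD hT hδ hI
  classical
  have hf : ∀ D' v, v ∈ D → (tau G I B (insert v D')).card ≤ (tau G I B D').card + δ :=
    fun D' v hv => tau_insert.trans (Nat.add_le_add_left (hδ v hv) _)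
  have hτD : tau G I B D = I := by
    ext i
    rw [mem_tau]
    exact ⟨fun h => h.1, fun h => ⟨h, (hT i h).2⟩⟩
  -- the set `W`
  obtain ⟨W, hWD, hW, hW1, hW2⟩ : ∃ W ⊆ D, Conn G W ∧ 4 * s + 2 ≤ (tau G I B W).card ∧
      (tau G I B W).card < 4 * s + 2 + δ := by
    obtain ⟨u, hu⟩ := hD.1
    by_cases h1 : (tau G I B {u}).card < 4 * s + 2
    · obtain ⟨W, h2, _, h4, h5, h6⟩ := (hGrow V G D u hD hu).2 (fun E => (tau G I B E).card)
        (4 * s + 2) δ hf h1 (by rw [hτD]; omega)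
      exact ⟨W, h2, h4, h5, h6⟩
    · refine ⟨{u}, Set.singleton_subset_iff.mpr hu, Conn.singleton G u, by omega, ?_⟩
      have := hδ u hu
      omega
  refine ⟨I \ tau G I B W, Finset.sdiff_subset, ?_, ?_⟩
  · have h1 : tau G I B W ⊆ I := fun i hi => (mem_tau.mp hi).1
    have h2 := Finset.card_sdiff_add_card_eq_card h1
    omega
  intro j hj
  rw [Finset.mem_sdiff] at hj
  obtain ⟨hjI, hjW⟩ := hj
  obtain ⟨x, hx, b, hb, hxb⟩ := (hT j hjI).2
  have hxW : x ∉ W := fun h => hjW (mem_tau.mpr ⟨hjI, x, h, b, hb, hxb⟩)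
  obtain ⟨C, hC, hxC, hCc, hCnb⟩ := exists_comp G (show x ∈ D \ W from ⟨hx, hxW⟩)
  have hCD : C ⊆ D := fun c hc => (hC hc).1
  have hjC : j ∈ tau G I B C := mem_tau.mpr ⟨hjI, x, hxC, b, hb, hxb⟩
  refine ⟨C, hCD, hCc, conn_sdiff_comp hD hW hWD hC hCnb, hjC, ?_⟩
  by_contra hcon
  push Not at hcon
  -- a vertex of `C` adjacent to `W`
  obtain ⟨u, hu, a, ha, hua⟩ : ∃ u ∈ C, ∃ a ∈ W, G.Adj u a := by
    have hne : C ≠ D := by
      obtain ⟨w, hw⟩ := hW.1
      intro h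
      exact (hC (h ▸ hWD hw)).2 hw
    obtain ⟨c, hc, a, ha, hca⟩ := hD.2 C hCD hCc.1 hne
    refine ⟨c, hc, a, ?_, hca⟩
    by_contra h1
    exact hCnb a ⟨ha.1, h1⟩ ⟨ha.2, c, hc, hca⟩
  have hdis : ∀ {E : Set V}, E ⊆ C → Disjoint E W := by
    intro E hE
    rw [Set.disjoint_left]
    intro e he heW
    exact (hC (hE he)).2 heW
  have hdB : ∀ {E : Set V}, E ⊆ D → ∀ i ∈ I, Disjoint E (B i) ∧ Disjoint W (B i) := by
    intro E hE i hi
    exact ⟨(hT i hi).1.mono_left hE, (hT i hi).1.mono_left hWD⟩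
  have hWI : ∀ E : Set V, (tau G I B E ∪ tau G I B W) = I →
      I.card ≤ (tau G I B E).card + (tau G I B W).card := by
    intro E hE
    calc I.card = (tau G I B E ∪ tau G I B W).card := by rw [hE]
      _ ≤ _ := Finset.card_union_le _ _
  have h1 : I.card ≤ (tau G I B C).card + (tau G I B W).card := by
    rcases hL2 V G s I B C W hK hM hCc hW (hdis (Set.Subset.refl _)) ⟨u, hu, a, ha, hua⟩
      (hdB hCD) (by omega) hW1 with h | h
    · exact absurd (h ▸ hjC) hjW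
    · exact hWI C h
  obtain ⟨C', hC', huC', hC'c, h2, h3⟩ := (hGrow V G C u hCc hu).2
    (fun E => (tau G I B E).card) (4 * s + 2 + δ) δ (fun D' v hv => hf D' v (hCD hv))
    (by have := hδ u (hCD hu); show (tau G I B {u}).card < _; omega)
    (by show _ ≤ (tau G I B C).card; omega)
  have h2' : 4 * s + 2 + δ ≤ (tau G I B C').card := h2
  have h3' : (tau G I B C').card < 4 * s + 2 + δ + δ := h3
  rcases hL2 V G s I B C' W hK hM hC'c hW (hdis hC') ⟨u, huC', a, ha, hua⟩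
      (hdB (hC'.trans hCD)) (by omega) hW1 with h | h
  · rw [h] at h2'
    omega
  · have h4 := hWI C' h
    omega

end Pool.Agent.MPd439b2
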