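import Pool.Agent.Lib.MP_d439b2_co.B.SpecQ

set_option autoImplicit false

namespace Pool.Agent.MPd439b2

namespace q1bAux

variable {V : Type} {G : SimpleGraph V}

theorem enum (T : Finset ℕ) (m : ℕ) (h : m ≤ T.card) : ∃ g : ℕ → ℕ, (∀ k < m, g k ∈ T) ∧
    ∀ k < m, ∀ l < m, g k = g l → k = l := by
  obtain ⟨T', hT', hc⟩ := Finset.exists_subset_card_eq h
  refine ⟨fun k => if hk : k < m then T'.orderEmbOfFin hc ⟨k, hk⟩ else 0, fun k hk => ?_,
    fun k hk l hl hkl => ?_⟩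
  · simp only [dif_pos hk]
    exact hT' (T'.orderEmbOfFin_mem hc _)
  · simp only [dif_pos hk, dif_pos hl] at hkl
    have h1 := (T'.orderEmbOfFin hc).injective hkl
    exact congrArg Fin.val h1

/-- assembling `DD N m` from its named parts -/
theorem assemble (hDD : S_DDd) {N m : ℕ} {P Q E Y : ℕ → Set V}
    (cP : ∀ k < m, Conn G (P k)) (cQ : ∀ k < m, Conn G (Q k)) (cE : ∀ x < N, Conn G (E x))
    (cY : ∀ k < m, Conn G (Y k))
    (hPP : ∀ k < m, ∀ l < m, k ≠ l → Disjoint (P k) (P l) ∧ Tch G (P k) (P l))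
    (hPQ : ∀ k < m, ∀ l < m, Disjoint (P k) (Q l) ∧ Tch G (P k) (Q l))
    (hPE : ∀ k < m, ∀ x < N, Disjoint (P k) (E x) ∧ Tch G (P k) (E x))
    (hQQ : ∀ k < m, ∀ l < m, k ≠ l → Disjoint (Q k) (Q l) ∧ Tch G (Q k) (Q l))
    (hQE : ∀ k < m, ∀ x < N, Disjoint (Q k) (E x) ∧ Tch G (Q k) (E x))
    (hEE : ∀ x < N, ∀ y < N, x ≠ y → Disjoint (E x) (E y) ∧ Tch G (E x) (E y))
    (hYP : ∀ k < m, ∀ l < m, Disjoint (Y k) (P l) ∧ (Tch G (Y k) (P l) ↔ k = l))
    (hYQ : ∀ k < m, ∀ l < m, Disjoint (Y k) (Q l) ∧ (Tch G (Y k) (Q l) ↔ k = l))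
    (hYE : ∀ k < m, ∀ x < N, Disjoint (Y k) (E x) ∧ ¬ Tch G (Y k) (E x))
    (hYY : ∀ k < m, ∀ l < m, k ≠ l → Disjoint (Y k) (Y l) ∧ ¬ Tch G (Y k) (Y l)) :
    IMS (DD N m) G Set.univ := by
  classical
  let X : ℕ → Set V := fun i =>
    if i < 2 * m then (if i % 2 = 0 then P (i / 2) else Q (i / 2)) else E (i - 2 * m)
  have hX0 : ∀ k < m, X (2 * k) = P k := by
    intro k hk
    have h1 : 2 * k < 2 * m := by omega
    have h2 : 2 * k % 2 = 0 := by omega
    have h3 : 2 * k / 2 = k := by omega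
    simp only [X, if_pos h1, if_pos h2, h3]
  have hX1 : ∀ k < m, X (2 * k + 1) = Q k := by
    intro k hk
    have h1 : 2 * k + 1 < 2 * m := by omega
    have h2 : ¬ (2 * k + 1) % 2 = 0 := by omega
    have h3 : (2 * k + 1) / 2 = k := by omega
    simp only [X, if_pos h1, if_neg h2, h3]
  have hX2 : ∀ x, X (2 * m + x) = E x := by
    intro x
    have h1 : ¬ (2 * m + x < 2 * m) := by omega
    have h2 : 2 * m + x - 2 * m = x := by omega
    simp only [X, if_neg h1, h2]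
  have hcase : ∀ i ∈ Finset.range (N + 2 * m), (∃ k < m, i = 2 * k) ∨
      (∃ k < m, i = 2 * k + 1) ∨ ∃ x < N, i = 2 * m + x := by
    intro i hi
    rw [Finset.mem_range] at hi
    by_cases h : i < 2 * m
    · rcases Nat.even_or_odd' i with ⟨k, hk | hk⟩
      · exact Or.inl ⟨k, by omega, hk⟩
      · exact Or.inr (Or.inl ⟨k, by omega, hk⟩)
    · exact Or.inr (Or.inr ⟨i - 2 * m, by omega, by omega⟩)
  refine hDD V G N m (Finset.range (N + 2 * m)) X Y (fun q => 2 * q) (fun q => 2 * q + 1)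
    ⟨?_, ?_⟩ ?_ ?_ ?_ ?_ ?_ ?_ ?_
  · intro i hi
    rcases hcase i hi with ⟨k, hk, rfl⟩ | ⟨k, hk, rfl⟩ | ⟨x, hx, rfl⟩
    · rw [hX0 k hk]; exact cP k hk
    · rw [hX1 k hk]; exact cQ k hk
    · rw [hX2]; exact cE x hx
  · intro i hi j hj hij
    rcases hcase i hi with ⟨k, hk, rfl⟩ | ⟨k, hk, rfl⟩ | ⟨x, hx, rfl⟩ <;>
    rcases hcase j hj with ⟨l, hl, rfl⟩ | ⟨l, hl, rfl⟩ | ⟨y, hy, rfl⟩
    · rw [hX0 k hk, hX0 l hl]; exact hPP k hk l hl (fun h => hij (by rw [h]))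
    · rw [hX0 k hk, hX1 l hl]; exact hPQ k hk l hl
    · rw [hX0 k hk, hX2]; exact hPE k hk y hy
    · rw [hX1 k hk, hX0 l hl]
      exact ⟨(hPQ l hl k hk).1.symm, (hPQ l hl k hk).2.symm⟩
    · rw [hX1 k hk, hX1 l hl]; exact hQQ k hk l hl (fun h => hij (by rw [h]))
    · rw [hX1 k hk, hX2]; exact hQE k hk y hy
    · rw [hX2, hX0 l hl]
      exact ⟨(hPE l hl x hx).1.symm, (hPE l hl x hx).2.symm⟩
    · rw [hX2, hX1 l hl]
      exact ⟨(hQE l hl x hx).1.symm, (hQE l hl x hx).2.symm⟩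
    · rw [hX2, hX2]; exact hEE x hx y hy (fun h => hij (by rw [h]))
  · rw [Finset.card_range]
  · intro q hq
    refine ⟨cY q hq, ?_, ?_⟩ <;> rw [Finset.mem_range] <;> omega
  · intro q hq i hi
    rcases hcase i hi with ⟨k, hk, rfl⟩ | ⟨k, hk, rfl⟩ | ⟨x, hx, rfl⟩
    · rw [hX0 k hk]
      refine ⟨(hYP q hq k hk).1, (hYP q hq k hk).2.trans ?_⟩
      constructor
      · intro h; left; omega
      · intro h; omega
    · rw [hX1 k hk]
      refine ⟨(hYQ q hq k hk).1, (hYQ q hq k hk).2.trans ?_⟩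
      constructor
      · intro h; right; omega
      · intro h; omega
    · rw [hX2]
      refine ⟨(hYE q hq x hx).1, ?_⟩
      constructor
      · intro h; exact absurd h (hYE q hq x hx).2
      · intro h; omega
  · intro q hq q' hq' hne
    exact hYY q hq q' hq' hne
  · intro q _ q' _; omega
  · intro q _ q' _ h; omega
  · intro q _ q' _ h; omega

end q1bAux

theorem q1b : (S_Q1a) → (S_DDd) → (S_Dig) → S_Q1b := by
  classical
  intro hQ1a hDD hDig s N m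
  set c := 4 * s + 1 with hcdef
  set n₁ := (2 * c + 1) * m + 1 with hn₁
  refine ⟨n₁, fun δ => ?_⟩
  set kk := (2 * (m * c) + 1) * m with hkk
  refine ⟨(8 * s + 5 + 3 * δ) + (n₁ + n₁ * (c + δ) + 2 ^ (n₁ * n₁) * kk + 1)
    + (n₁ + m + m * c + (m + N)), fun t ht V _ G B hFree hM => ?_⟩
  by_contra hcon
  push Not at hcon
  -- the bad indices
  obtain ⟨Bad, hBadsub, hBadcard⟩ : ∃ Bad ⊆ (Finset.range t).filter
      (fun i => ∀ v ∈ B i, (tau G (Finset.range t \ {i}) B {v}).card ≤ δ), Bad.card = n₁ := by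
    apply Finset.exists_subset_card_eq
    by_contra hlt
    push Not at hlt
    obtain ⟨i, hi, hiB, h⟩ := hcon _ hlt
    exact hiB (Finset.mem_filter.mpr ⟨Finset.mem_range.mpr hi, h⟩)
  have hBad1 : ∀ i ∈ Bad, i < t := fun i hi =>
    Finset.mem_range.mp (Finset.mem_filter.mp (hBadsub hi)).1
  have hBad2 : ∀ i ∈ Bad, ∀ v ∈ B i, (tau G (Finset.range t \ {i}) B {v}).card ≤ δ := fun i hi =>
    (Finset.mem_filter.mp (hBadsub hi)).2
  have hMc : ∀ i < t, Conn G (B i) := fun i hi => hM.1 i (Finset.mem_range.mpr hi)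
  have hMd : ∀ i < t, ∀ j < t, i ≠ j → Disjoint (B i) (B j) := fun i hi j hj h =>
    (hM.2 i (Finset.mem_range.mpr hi) j (Finset.mem_range.mpr hj) h).1
  have hMt : ∀ i < t, ∀ j < t, i ≠ j → Tch G (B i) (B j) := fun i hi j hj h =>
    (hM.2 i (Finset.mem_range.mpr hi) j (Finset.mem_range.mpr hj) h).2
  have hIcard : ∀ i < t, (Finset.range t \ {i}).card = t - 1 := by
    intro i hi
    rw [Finset.card_sdiff_of_subset (Finset.singleton_subset_iff.mpr (Finset.mem_range.mpr hi)),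
      Finset.card_range, Finset.card_singleton]
  have hI : ∀ i j : ℕ, j ∈ Finset.range t \ {i} ↔ j < t ∧ j ≠ i := by
    intro i j
    rw [Finset.mem_sdiff, Finset.mem_range, Finset.mem_singleton]
  have hJ : ∀ i ∈ Bad, ∃ J ⊆ Finset.range t \ {i},
      (Finset.range t \ {i}).card ≤ J.card + (4 * s + 1 + δ) ∧
      ∀ j ∈ J, ∃ C ⊆ B i, Conn G C ∧ Conn G (B i \ C) ∧
      j ∈ tau G (Finset.range t \ {i}) B C ∧
      (tau G (Finset.range t \ {i}) B C).card ≤ 4 * s + 1 := by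
    intro i hi
    have hit := hBad1 i hi
    apply hQ1a V G s δ (Finset.range t \ {i}) B (B i) hFree.1
    · refine ⟨fun a ha => hM.1 a (Finset.mem_sdiff.mp ha).1, fun a ha b hb hab => ?_⟩
      exact hM.2 a (Finset.mem_sdiff.mp ha).1 b (Finset.mem_sdiff.mp hb).1 hab
    · exact hMc i hit
    · intro j hj
      rw [hI] at hj
      exact ⟨hMd i hit j hj.1 (Ne.symm hj.2), hMt i hit j hj.1 (Ne.symm hj.2)⟩
    · exact hBad2 i hi
    · rw [hIcard i hit]
      omega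
  choose! J hJsub hJcard hJC using hJ
  choose! C hCsub hCconn hCcompl hCmem hCcard using hJC
  -- abbreviation for the traces
  have hJt : ∀ i ∈ Bad, ∀ j ∈ J i, j < t ∧ j ≠ i := fun i hi j hj =>
    (hI i j).mp (hJsub i hi hj)
  obtain ⟨τ, hτdef⟩ : ∃ τ : ℕ → ℕ → Finset ℕ, ∀ i j,
      tau G (Finset.range t \ {i}) B (C i j) = τ i j := ⟨_, fun _ _ => rfl⟩
  have hτ : ∀ i j a, a ∈ τ i j ↔ (a < t ∧ a ≠ i) ∧ Tch G (C i j) (B a) := by
    intro i j a
    rw [← hI, ← hτdef]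
    exact mem_tau
  simp only [hτdef] at hCcard
  -- indices outside of Bad which are in all J i
  obtain ⟨R, hRmem⟩ : ∃ R : Finset ℕ, ∀ j, j ∈ R ↔ j ∈ Finset.range t \ Bad ∧ ∀ i ∈ Bad, j ∈ J i :=
    ⟨(Finset.range t \ Bad).filter (fun j => ∀ i ∈ Bad, j ∈ J i), fun _ => Finset.mem_filter⟩
  have hRcard : t ≤ R.card + n₁ + n₁ * (c + δ) := by
    have h1 : Finset.range t ⊆ (R ∪ Bad) ∪ Bad.biUnion (fun i => (Finset.range t \ {i}) \ J i) := by
      intro j hj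
      rw [Finset.mem_union, Finset.mem_union]
      by_cases hjB : j ∈ Bad
      · exact Or.inl (Or.inr hjB)
      by_cases hjR : ∀ i ∈ Bad, j ∈ J i
      · exact Or.inl (Or.inl ((hRmem j).mpr ⟨Finset.mem_sdiff.mpr ⟨hj, hjB⟩, hjR⟩))
      · push Not at hjR
        obtain ⟨i, hi, hji⟩ := hjR
        refine Or.inr (Finset.mem_biUnion.mpr ⟨i, hi, Finset.mem_sdiff.mpr ⟨?_, hji⟩⟩)
        rw [hI]
        exact ⟨Finset.mem_range.mp hj, fun h => hjB (h ▸ hi)⟩
    have h2 := Finset.card_le_card h1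
    have h3 := Finset.card_union_le (R ∪ Bad)
      (Bad.biUnion (fun i => (Finset.range t \ {i}) \ J i))
    have h4 := Finset.card_union_le R Bad
    have h5 : (Bad.biUnion (fun i => (Finset.range t \ {i}) \ J i)).card ≤ Bad.card * (c + δ) := by
      apply Finset.card_biUnion_le_card_mul
      intro i hi
      rw [Finset.card_sdiff_of_subset (hJsub i hi)]
      have := hJcard i hi
      omega
    rw [Finset.card_range] at h2
    rw [hBadcard] at h4 h5
    omega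
  -- records
  obtain ⟨rec', hrec'⟩ : ∃ f : ℕ → Finset (ℕ × ℕ), ∀ j p, p ∈ f j ↔
      p ∈ Bad ×ˢ Bad ∧ p.2 ∈ τ p.1 j :=
    ⟨fun j => (Bad ×ˢ Bad).filter (fun p => p.2 ∈ τ p.1 j), fun _ _ => Finset.mem_filter⟩
  obtain ⟨y, _, hy⟩ : ∃ y ∈ (Bad ×ˢ Bad).powerset, kk < (R.filter (fun j => rec' j = y)).card := by
    apply Finset.exists_lt_card_fiber_of_mul_lt_card_of_maps_to
    · intro j _
      exact Finset.mem_powerset.mpr (fun p hp => ((hrec' j p).mp hp).1)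
    · rw [Finset.card_powerset, Finset.card_product, hBadcard]
      omega
  obtain ⟨R', hR'mem, hR'card⟩ : ∃ R' : Finset ℕ, (∀ j ∈ R', j ∈ R ∧ rec' j = y) ∧ kk < R'.card :=
    ⟨R.filter (fun j => rec' j = y), fun j hj => Finset.mem_filter.mp hj, hy⟩
  have hR'R : ∀ j ∈ R', (j < t ∧ j ∉ Bad) ∧ ∀ i ∈ Bad, j ∈ J i := by
    intro j hj
    have h2 := (hRmem j).mp (hR'mem j hj).1
    rw [Finset.mem_sdiff, Finset.mem_range] at h2
    exact h2
  obtain ⟨j₀, hj₀⟩ : R'.Nonempty := Finset.card_pos.mp (by omega)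
  have hrec : ∀ j ∈ R', ∀ a ∈ Bad, ∀ b ∈ Bad, (b ∈ τ a j ↔ b ∈ τ a j₀) := by
    intro j hj a ha b hb
    have h1 : rec' j = rec' j₀ := by
      rw [(hR'mem j hj).2, (hR'mem j₀ hj₀).2]
    have h2 : ∀ j', (a, b) ∈ rec' j' ↔ b ∈ τ a j' := by
      intro j'
      rw [hrec', Finset.mem_product]
      exact ⟨fun h => h.2, fun h => ⟨⟨ha, hb⟩, h⟩⟩
    rw [← h2, ← h2, h1]
  -- the first choice
  obtain ⟨T, hTB, hTcard, hT⟩ := hDig ℕ Bad (fun i i' => i' ∈ τ i j₀) c m (by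
    intro i hi
    exact ⟨τ i j₀, hCcard i hi j₀ ((hR'R j₀ hj₀).2 i hi), fun _ _ _ h => h⟩) (by
    rw [hBadcard]; omega)
  -- the second choice
  obtain ⟨T', hTR, hTcard', hT'⟩ := hDig ℕ R' (fun j j' => ∃ i ∈ T, j' ∈ τ i j) (m * c) m (by
    intro j hj
    refine ⟨T.biUnion (fun i => τ i j), ?_, fun y _ _ h => ?_⟩
    · rw [← hTcard]
      apply Finset.card_biUnion_le_card_mul
      intro i hi
      exact hCcard i (hTB hi) j ((hR'R j hj).2 i (hTB hi))
    · obtain ⟨i, hi, h⟩ := h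
      exact Finset.mem_biUnion.mpr ⟨i, hi, h⟩) (by omega)
  obtain ⟨ic, hic, hicinj⟩ := q1bAux.enum T m hTcard.ge
  obtain ⟨jc, hjc, hjcinj⟩ := q1bAux.enum T' m hTcard'.ge
  have hicB : ∀ k < m, ic k ∈ Bad := fun k hk => hTB (hic k hk)
  have hict : ∀ k < m, ic k < t := fun k hk => hBad1 _ (hicB k hk)
  have hjcR : ∀ k < m, (jc k < t ∧ jc k ∉ Bad) ∧ ∀ i ∈ Bad, jc k ∈ J i := fun k hk =>
    hR'R _ (hTR (hjc k hk))
  have hij : ∀ k < m, ∀ l < m, ic k ≠ jc l := fun k hk l hl h =>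
    (hjcR l hl).1.2 (h ▸ hicB k hk)
  -- the sets C k
  obtain ⟨Y, hYdef⟩ : ∃ Y : ℕ → Set V, ∀ k, Y k = C (ic k) (jc k) := ⟨_, fun _ => rfl⟩
  have hjJ : ∀ k < m, jc k ∈ J (ic k) := fun k hk => (hjcR k hk).2 _ (hicB k hk)
  have hYsub : ∀ k < m, Y k ⊆ B (ic k) := fun k hk => by
    rw [hYdef]; exact hCsub _ (hicB k hk) _ (hjJ k hk)
  have hYconn : ∀ k < m, Conn G (Y k) := fun k hk => by
    rw [hYdef]; exact hCconn _ (hicB k hk) _ (hjJ k hk)
  have hYcompl : ∀ k < m, Conn G (B (ic k) \ Y k) := fun k hk => by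
    rw [hYdef]; exact hCcompl _ (hicB k hk) _ (hjJ k hk)
  have hYj : ∀ k < m, Tch G (Y k) (B (jc k)) := fun k hk => by
    rw [hYdef]; exact (mem_tau.mp (hCmem _ (hicB k hk) _ (hjJ k hk))).2
  -- the sets not touched
  have hnot : ∀ k < m, ∀ a, a < t → a ≠ ic k → a ∉ τ (ic k) (jc k) → ¬ Tch G (Y k) (B a) := by
    intro k hk a hat hane ha h
    rw [hYdef] at h
    exact ha ((hτ _ _ _).mpr ⟨⟨hat, hane⟩, h⟩)
  have hnoti : ∀ k < m, ∀ l < m, k ≠ l → ¬ Tch G (Y k) (B (ic l)) := by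
    intro k hk l hl hkl
    have hne : ic k ≠ ic l := fun h => hkl (hicinj k hk l hl h)
    apply hnot k hk (ic l) (hict l hl) (Ne.symm hne)
    rw [hrec (jc k) (hTR (hjc k hk)) _ (hicB k hk) _ (hicB l hl)]
    exact hT _ (hic k hk) _ (hic l hl) hne
  have hnotj : ∀ k < m, ∀ l < m, k ≠ l → ¬ Tch G (Y k) (B (jc l)) := by
    intro k hk l hl hkl
    have hne : jc k ≠ jc l := fun h => hkl (hjcinj k hk l hl h)
    apply hnot k hk (jc l) (hjcR l hl).1.1 (Ne.symm (hij k hk l hl))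
    intro h
    exact hT' _ (hjc k hk) _ (hjc l hl) hne ⟨ic k, hic k hk, h⟩
  -- fresh indices
  obtain ⟨fr, hfr, hfrinj⟩ := q1bAux.enum (((Finset.range t \ Bad) \ T') \
      (Finset.range m).biUnion (fun k => τ (ic k) (jc k))) (m + N) (by
    have h1 := Finset.le_card_sdiff ((Finset.range m).biUnion (fun k => τ (ic k) (jc k)))
      ((Finset.range t \ Bad) \ T')
    have h2 := Finset.le_card_sdiff T' (Finset.range t \ Bad)
    have h3 := Finset.le_card_sdiff Bad (Finset.range t)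
    have h4 : ((Finset.range m).biUnion (fun k => τ (ic k) (jc k))).card ≤
        (Finset.range m).card * c := by
      apply Finset.card_biUnion_le_card_mul
      intro k hk
      rw [Finset.mem_range] at hk
      exact hCcard _ (hicB k hk) _ (hjJ k hk)
    rw [Finset.card_range] at h3 h4
    omega)
  have hfr1 : ∀ x < m + N, fr x < t ∧ fr x ∉ Bad ∧ fr x ∉ T' ∧
      ∀ k < m, fr x ∉ τ (ic k) (jc k) := by
    intro x hx
    have h1 := hfr x hx
    rw [Finset.mem_sdiff, Finset.mem_sdiff, Finset.mem_sdiff, Finset.mem_range] at h1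
    refine ⟨h1.1.1.1, h1.1.1.2, h1.1.2, fun k hk h => h1.2 ?_⟩
    exact Finset.mem_biUnion.mpr ⟨k, Finset.mem_range.mpr hk, h⟩
  have hfri : ∀ x < m + N, ∀ k < m, ic k ≠ fr x := fun x hx k hk h =>
    (hfr1 x hx).2.1 (h ▸ hicB k hk)
  have hfrj : ∀ x < m + N, ∀ k < m, jc k ≠ fr x := fun x hx k hk h =>
    (hfr1 x hx).2.2.1 (h ▸ hjc k hk)
  have hnotf : ∀ k < m, ∀ x < m + N, ¬ Tch G (Y k) (B (fr x)) := fun k hk x hx =>
    hnot k hk _ (hfr1 x hx).1 (Ne.symm (hfri x hx k hk)) ((hfr1 x hx).2.2.2 k hk)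
  -- `P k` touches everything which `Y k` does not touch
  have hPtch : ∀ k < m, ∀ a, a < t → ic k ≠ a → ¬ Tch G (Y k) (B a) →
      Tch G (B (ic k) \ Y k) (B a) := by
    intro k hk a hat hne hno
    obtain ⟨x, hx, y, hy, hxy⟩ := hMt (ic k) (hict k hk) a hat hne
    exact ⟨x, ⟨hx, fun h => hno ⟨x, h, y, hy, hxy⟩⟩, y, hy, hxy⟩
  have hfkN : ∀ k < m, k < m + N := fun k hk => by omega
  have hfxN : ∀ x < N, m + x < m + N := fun x hx => by omega
  apply hFree.2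
  apply q1bAux.assemble (P := fun k => B (ic k) \ Y k) (Q := fun k => B (jc k) ∪ B (fr k))
    (E := fun x => B (fr (m + x))) (Y := Y) hDD
  · exact hYcompl
  · intro k hk
    exact (hMc _ (hjcR k hk).1.1).union (hMc _ (hfr1 k (hfkN k hk)).1)
      (Or.inr (hMt _ (hjcR k hk).1.1 _ (hfr1 k (hfkN k hk)).1 (hfrj k (hfkN k hk) k hk)))
  · intro x hx
    exact hMc _ (hfr1 _ (hfxN x hx)).1
  · exact hYconn
  · -- P P
    intro k hk l hl hkl
    have hne : ic k ≠ ic l := fun h => hkl (hicinj k hk l hl h)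
    refine ⟨(hMd _ (hict k hk) _ (hict l hl) hne).mono Set.sdiff_subset Set.sdiff_subset, ?_⟩
    obtain ⟨x, hx, y, hy, hxy⟩ := hMt (ic k) (hict k hk) (ic l) (hict l hl) hne
    refine ⟨x, ⟨hx, fun h => ?_⟩, y, ⟨hy, fun h => ?_⟩, hxy⟩
    · exact hnoti k hk l hl hkl ⟨x, h, y, hy, hxy⟩
    · exact hnoti l hl k hk (Ne.symm hkl) ⟨y, h, x, hx, hxy.symm⟩
  · -- P Q
    intro k hk l hl
    constructor
    · rw [Set.disjoint_union_right]
      exact ⟨(hMd _ (hict k hk) _ (hjcR l hl).1.1 (hij k hk l hl)).mono_left Set.sdiff_subset,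
        (hMd _ (hict k hk) _ (hfr1 l (hfkN l hl)).1 (hfri l (hfkN l hl) k hk)).mono_left
          Set.sdiff_subset⟩
    · exact (hPtch k hk _ (hfr1 l (hfkN l hl)).1 (hfri l (hfkN l hl) k hk)
        (hnotf k hk l (hfkN l hl))).mono subset_rfl Set.subset_union_right
  · -- P E
    intro k hk x hx
    exact ⟨(hMd _ (hict k hk) _ (hfr1 _ (hfxN x hx)).1 (hfri _ (hfxN x hx) k hk)).mono_left
      Set.sdiff_subset, hPtch k hk _ (hfr1 _ (hfxN x hx)).1 (hfri _ (hfxN x hx) k hk)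
        (hnotf k hk _ (hfxN x hx))⟩
  · -- Q Q
    intro k hk l hl hkl
    have hne : jc k ≠ jc l := fun h => hkl (hjcinj k hk l hl h)
    have hne' : fr k ≠ fr l := fun h => hkl (hfrinj k (hfkN k hk) l (hfkN l hl) h)
    have tjk := (hjcR k hk).1.1
    have tjl := (hjcR l hl).1.1
    have tfk := (hfr1 k (hfkN k hk)).1
    have tfl := (hfr1 l (hfkN l hl)).1
    constructor
    · rw [Set.disjoint_union_left, Set.disjoint_union_right, Set.disjoint_union_right]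
      exact ⟨⟨hMd _ tjk _ tjl hne, hMd _ tjk _ tfl (hfrj l (hfkN l hl) k hk)⟩,
        ⟨hMd _ tfk _ tjl (Ne.symm (hfrj k (hfkN k hk) l hl)), hMd _ tfk _ tfl hne'⟩⟩
    · exact (hMt _ tjk _ tjl hne).mono Set.subset_union_left Set.subset_union_left
  · -- Q E
    intro k hk x hx
    have tjk := (hjcR k hk).1.1
    have tfk := (hfr1 k (hfkN k hk)).1
    have tfx := (hfr1 _ (hfxN x hx)).1
    have hne : jc k ≠ fr (m + x) := hfrj _ (hfxN x hx) k hk
    have hne' : fr k ≠ fr (m + x) := fun h => by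
      have := hfrinj k (hfkN k hk) _ (hfxN x hx) h
      omega
    constructor
    · rw [Set.disjoint_union_left]
      exact ⟨hMd _ tjk _ tfx hne, hMd _ tfk _ tfx hne'⟩
    · exact (hMt _ tjk _ tfx hne).mono Set.subset_union_left subset_rfl
  · -- E E
    intro x hx y hy hxy
    have hne : fr (m + x) ≠ fr (m + y) := fun h => by
      have := hfrinj _ (hfxN x hx) _ (hfxN y hy) h
      omega
    exact ⟨hMd _ (hfr1 _ (hfxN x hx)).1 _ (hfr1 _ (hfxN y hy)).1 hne,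
      hMt _ (hfr1 _ (hfxN x hx)).1 _ (hfr1 _ (hfxN y hy)).1 hne⟩
  · -- Y P
    intro k hk l hl
    by_cases hkl : k = l
    · subst hkl
      refine ⟨Set.disjoint_sdiff_right, iff_of_true ?_ rfl⟩
      obtain ⟨b, hb, a, ha, hab⟩ := (hMc _ (hict k hk)).2 (Y k) (hYsub k hk) (hYconn k hk).1
        (fun h => by
          obtain ⟨z, hz⟩ := (hYcompl k hk).1
          exact hz.2 (h ▸ hz.1))
      exact ⟨b, hb, a, ha, hab⟩
    · have hne : ic k ≠ ic l := fun h => hkl (hicinj k hk l hl h)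
      refine ⟨(hMd _ (hict k hk) _ (hict l hl) hne).mono (hYsub k hk) Set.sdiff_subset,
        iff_of_false (fun h => ?_) hkl⟩
      exact hnoti k hk l hl hkl (h.mono subset_rfl Set.sdiff_subset)
  · -- Y Q
    intro k hk l hl
    constructor
    · rw [Set.disjoint_union_right]
      exact ⟨(hMd _ (hict k hk) _ (hjcR l hl).1.1 (hij k hk l hl)).mono_left (hYsub k hk),
        (hMd _ (hict k hk) _ (hfr1 l (hfkN l hl)).1 (hfri l (hfkN l hl) k hk)).mono_left
          (hYsub k hk)⟩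
    · constructor
      · rintro ⟨a, ha, b, hb | hb, hab⟩
        · by_contra hkl
          exact hnotj k hk l hl hkl ⟨a, ha, b, hb, hab⟩
        · exact absurd ⟨a, ha, b, hb, hab⟩ (hnotf k hk l (hfkN l hl))
      · rintro rfl
        exact (hYj k hk).mono subset_rfl Set.subset_union_left
  · -- Y E
    intro k hk x hx
    exact ⟨(hMd _ (hict k hk) _ (hfr1 _ (hfxN x hx)).1 (hfri _ (hfxN x hx) k hk)).mono_left
      (hYsub k hk), hnotf k hk _ (hfxN x hx)⟩
  · -- Y Y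
    intro k hk l hl hkl
    have hne : ic k ≠ ic l := fun h => hkl (hicinj k hk l hl h)
    exact ⟨(hMd _ (hict k hk) _ (hict l hl) hne).mono (hYsub k hk) (hYsub l hl), fun h =>
      hnoti k hk l hl hkl (h.mono subset_rfl (hYsub l hl))⟩

end Pool.Agent.MPd439b2
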