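import Pool.Agent.Lib.MP_d439b2_co.B.SpecQ

/-!
# MP_d439b2_co, Theorem B: Q3, pigeonhole to a complete bipartite subgraph
-/

set_option autoImplicit false

namespace Pool.Agent.MPd439b2

theorem q3 : S_Q3b → S_Q3 := by
  intro hQ s N m n
  classical
  obtain ⟨p, n₃, L, hp, hb⟩ := hQ s N m n
  refine ⟨p, max L (n₃ + 2 ^ p * n + 1), hp, ?_⟩
  intro V _ G P J v B hF hVB hPc hJ
  obtain ⟨Bad, hBad, hgood⟩ := hb V G P J v B hF hVB hPc ((le_max_left _ _).trans hJ)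
  have hJ' : n₃ + 2 ^ p * n + 1 ≤ J.card := (le_max_right _ _).trans hJ
  have hex : ∀ j, ∃ x : V, j ∈ J → j ∉ Bad →
      x ∈ B j ∧ n < (tau G P (fun c => {v c}) {x}).card := by
    intro j
    by_cases hj : j ∈ J ∧ j ∉ Bad
    · obtain ⟨x, hx, hxn⟩ := hgood j hj.1 hj.2
      exact ⟨x, fun _ _ => ⟨hx, hxn⟩⟩
    · have hJne : J.Nonempty := Finset.card_pos.mp (by omega)
      obtain ⟨j0, hj0⟩ := hJne
      obtain ⟨x, _⟩ := (hVB.1.1 j0 hj0).1
      exact ⟨x, fun h1 h2 => absurd ⟨h1, h2⟩ hj⟩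
  choose x hx using hex
  have hcard : (P.powerset).card * n < (J \ Bad).card := by
    rw [Finset.card_powerset, hPc]
    have := Finset.le_card_sdiff Bad J
    omega
  obtain ⟨A, _, hA⟩ := Finset.exists_lt_card_fiber_of_mul_lt_card_of_maps_to
    (s := J \ Bad) (t := P.powerset) (f := fun j => tau G P (fun c => {v c}) {x j})
    (fun j _ => Finset.mem_powerset.mpr fun c hc => (mem_tau.mp hc).1) hcard
  set Fb := (J \ Bad).filter fun j => tau G P (fun c => {v c}) {x j} = A with hFb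
  have hFbm : ∀ j ∈ Fb, j ∈ J ∧ x j ∈ B j ∧ n < A.card ∧
      tau G P (fun c => {v c}) {x j} = A := by
    intro j hj
    rw [hFb, Finset.mem_filter, Finset.mem_sdiff] at hj
    obtain ⟨⟨hj1, hj2⟩, hj3⟩ := hj
    have := hx j hj1 hj2
    refine ⟨hj1, this.1, ?_, hj3⟩
    rw [← hj3]
    exact this.2
  obtain ⟨j0, hj0⟩ : Fb.Nonempty := Finset.card_pos.mp (by omega)
  have hAP : A ⊆ P := by
    rw [← (hFbm j0 hj0).2.2.2]
    exact fun c hc => (mem_tau.mp hc).1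
  refine ⟨v '' (A : Set ℕ), x '' (Fb : Set ℕ), ?_, ?_, ?_, ?_, ?_⟩
  · rw [Set.disjoint_left]
    rintro _ ⟨c, hc, rfl⟩ ⟨j, hj, hjc⟩
    have h1 := hFbm j hj
    have h2 := (hVB.2.2.2 c (hAP hc) j h1.1).1
    apply h2
    rw [← hjc]
    exact h1.2.1
  · rw [Set.InjOn.ncard_image, Set.ncard_coe_finset]
    · exact (hFbm j0 hj0).2.2.1.le
    · intro c hc c' hc' h
      exact hVB.2.1 c (hAP hc) c' (hAP hc') h
  · rw [Set.InjOn.ncard_image, Set.ncard_coe_finset]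
    · exact hA.le
    · intro j hj j' hj' h
      by_contra hne
      have h1 := hFbm j hj
      have h2 := hFbm j' hj'
      have h3 := (hVB.1.2 j h1.1 j' h2.1 hne).1
      rw [Set.disjoint_left] at h3
      exact h3 h1.2.1 (h ▸ h2.2.1)
  · rintro _ ⟨c, hc, rfl⟩ _ ⟨j, hj, rfl⟩
    have h1 := (hFbm j hj).2.2.2
    have h2 : c ∈ tau G P (fun c => {v c}) {x j} := by rw [h1]; exact hc
    obtain ⟨a, ha, b, hb', hab⟩ := (mem_tau.mp h2).2
    rw [Set.mem_singleton_iff] at ha hb'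
    subst ha hb'
    exact hab.symm
  · rintro _ ⟨c, hc, rfl⟩
    exact ⟨c, hAP hc, rfl⟩

end Pool.Agent.MPd439b2
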