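import Pool.Agent.Lib.MP_d439b2_co.B.SpecQ

set_option autoImplicit false

namespace Pool.Agent.MPd439b2

namespace q3aAux

variable {V : Type} {G : SimpleGraph V}

theorem exists_min [Finite V] (p : Set V → Prop) (h : ∃ W, p W) :
    ∃ W, p W ∧ ∀ W', p W' → W.ncard ≤ W'.ncard := by
  classical
  have h1 : ∃ n, ∃ W, p W ∧ W.ncard = n := by
    obtain ⟨W, hW⟩ := h
    exact ⟨_, W, hW, rfl⟩
  obtain ⟨W, hW, hn⟩ := Nat.find_spec h1
  refine ⟨W, hW, fun W' hW' => ?_⟩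
  rw [hn]
  exact Nat.find_min' h1 ⟨W', hW', rfl⟩

/-- the complement of a component of `W \ Z` is connected -/
theorem compl_conn {W Z F : Set V} (hW : Conn G W) (hZ : Conn G Z) (hZW : Z ⊆ W)
    (hF : F ⊆ W \ Z) (hcl : ∀ u ∈ W \ Z, u ∉ nb G F) : Conn G (W \ F) := by
  have hZF : Z ⊆ W \ F := fun z hz => ⟨hZW hz, fun h => (hF h).2 hz⟩
  refine ⟨hZ.1.mono hZF, fun E hE hEne hEne' => ?_⟩
  by_contra hcon
  push Not at hcon
  by_cases hZE : (E ∩ Z).Nonempty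
  · -- `Z ⊆ E`
    have h1 : E ∩ Z = Z := by
      apply hZ.eq_of_nb Set.inter_subset_right hZE
      rintro v hv ⟨hv1, b, hb, hbv⟩
      exact hcon b hb.1 v ⟨hZF hv, fun h => hv1 ⟨h, hv⟩⟩ hbv
    have hZsub : Z ⊆ E := by
      rw [← h1]; exact Set.inter_subset_left
    have hne : ((W \ F) \ E).Nonempty := by
      by_contra h2
      rw [Set.not_nonempty_iff_eq_empty, Set.sdiff_eq_empty] at h2
      exact hEne' (Set.Subset.antisymm hE h2)
    have h2 : (W \ F) \ E = W := by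
      apply hW.eq_of_nb (fun x hx => hx.1.1) hne
      rintro v hv ⟨hv1, b, hb, hbv⟩
      by_cases hvF : v ∈ F
      · exact hcl b ⟨hb.1.1, fun h => hb.2 (hZsub h)⟩ ⟨hb.1.2, v, hvF, hbv.symm⟩
      · have hvE : v ∈ E := by
          by_contra h3
          exact hv1 ⟨⟨hv, hvF⟩, h3⟩
        exact hcon v hvE b hb hbv.symm
    obtain ⟨z, hz⟩ := hZ.1
    have h3 : z ∈ (W \ F) \ E := by
      rw [h2]; exact hZW hz
    exact h3.2 (hZsub hz)
  · -- `E` is disjoint from `Z`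
    have h2 : E = W := by
      apply hW.eq_of_nb (fun x hx => (hE hx).1) hEne
      rintro v hv ⟨hv1, b, hb, hbv⟩
      by_cases hvF : v ∈ F
      · exact hcl b ⟨(hE hb).1, fun h => hZE ⟨b, hb, h⟩⟩ ⟨(hE hb).2, v, hvF, hbv.symm⟩
      · exact hcon b hb v ⟨⟨hv, hvF⟩, hv1⟩ hbv
    obtain ⟨z, hz⟩ := hZ.1
    exact hZE ⟨z, by rw [h2]; exact hZW hz, hz⟩

/-- a component of `W \ Z` touches `Z` -/
theorem comp_tch {W Z F : Set V} (hW : Conn G W) (hZne : Z.Nonempty) (hZW : Z ⊆ W)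
    (hF : F ⊆ W \ Z) (hFne : F.Nonempty) (hcl : ∀ u ∈ W \ Z, u ∉ nb G F) : Tch G F Z := by
  obtain ⟨b, hb, a, ha, hab⟩ := hW.2 F (fun x hx => (hF hx).1) hFne (fun h => by
    obtain ⟨z, hz⟩ := hZne
    have h1 : z ∈ F := by rw [h]; exact hZW hz
    exact (hF h1).2 hz)
  refine ⟨b, hb, a, ?_, hab⟩
  by_contra haZ
  exact hcl a ⟨ha.1, haZ⟩ ⟨ha.2, b, hb, hab⟩

/-- two components are equal, or disjoint and do not touch -/
theorem comp_cases {X F F' : Set V} (hF : F ⊆ X) (hF' : F' ⊆ X) (cF : Conn G F)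
    (cF' : Conn G F') (hcl : ∀ u ∈ X, u ∉ nb G F) (hcl' : ∀ u ∈ X, u ∉ nb G F') :
    F = F' ∨ Disjoint F F' ∧ ¬ Tch G F F' := by
  by_cases h : (F ∩ F').Nonempty
  · left
    have h1 : F ∩ F' = F := by
      apply cF.eq_of_nb Set.inter_subset_left h
      rintro v hv ⟨hv1, b, hb, hbv⟩
      exact hcl' v (hF hv) ⟨fun h => hv1 ⟨hv, h⟩, b, hb.2, hbv⟩
    have h2 : F ∩ F' = F' := by
      apply cF'.eq_of_nb Set.inter_subset_right h
      rintro v hv ⟨hv1, b, hb, hbv⟩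
      exact hcl v (hF' hv) ⟨fun h => hv1 ⟨h, hv⟩, b, hb.1, hbv⟩
    rw [← h1, h2]
  · right
    refine ⟨Set.disjoint_iff_inter_eq_empty.mpr (Set.not_nonempty_iff_eq_empty.mp h), ?_⟩
    rintro ⟨a, ha, b, hb, hab⟩
    apply hcl b (hF' hb)
    exact ⟨fun h' => h ⟨b, h', hb⟩, a, ha, hab⟩

/-- step (4) -/
theorem step4 (hKP : S_KPd) {s : ℕ} {P J : Finset ℕ} {v : ℕ → V} {B : ℕ → Set V}
    {D Z F F' : Set V} (hfree : ¬ IMS (KP s) G Set.univ) (hVB : VB G P J v B)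
    (hJ : 4 * s ≤ J.card) (hDB : ∀ j ∈ J, Disjoint D (B j)) (hvD : ∀ c ∈ P, v c ∉ D)
    (hZD : Z ⊆ D) (hFD : F ⊆ D) (hFD' : F' ⊆ D) (cZ : Conn G Z) (cF : Conn G F)
    (cF' : Conn G F') (dFZ : Disjoint F Z) (dFZ' : Disjoint F' Z) (dFF : Disjoint F F')
    (tFZ : Tch G F Z) (tFZ' : Tch G F' Z) (tFF : ¬ Tch G F F')
    (hZa : 4 * s ≤ (tau G P (fun c => {v c}) Z).card)
    (hFb : 4 * s ≤ (tau G J B F).card) (hFb' : 4 * s ≤ (tau G J B F').card) {i : ℕ}
    (hi : i ∈ tau G P (fun c => {v c}) F) (hiZ : i ∉ tau G P (fun c => {v c}) Z) :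
    i ∈ tau G P (fun c => {v c}) F' := by
  classical
  by_contra hiF'
  obtain ⟨hMdl, hvinj, hvind, hvB⟩ := hVB
  have hiP := (mem_tau.mp hi).1
  obtain ⟨J₁, hJ₁, hJ₁c⟩ := Finset.exists_subset_card_eq hJ
  obtain ⟨A₁, hA₁, hA₁c⟩ := Finset.exists_subset_card_eq hZa
  have e : J₁ ≃ A₁ := Finset.equivOfCardEq (hJ₁c.trans hA₁c.symm)
  obtain ⟨g, hg, hginj⟩ : ∃ g : ℕ → ℕ, (∀ j ∈ J₁, g j ∈ A₁) ∧
      ∀ j ∈ J₁, ∀ j' ∈ J₁, g j = g j' → j = j' := by
    refine ⟨fun j => if h : j ∈ J₁ then (e ⟨j, h⟩ : ℕ) else 0, fun j hj => ?_,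
      fun j hj j' hj' h => ?_⟩
    · simp only [dif_pos hj]
      exact (e ⟨j, hj⟩).2
    · simp only [dif_pos hj, dif_pos hj'] at h
      have h1 := e.injective (Subtype.ext h)
      exact congrArg Subtype.val h1
  have hgZ : ∀ j ∈ J₁, g j ∈ tau G P (fun c => {v c}) Z := fun j hj => hA₁ (hg j hj)
  have hgP : ∀ j ∈ J₁, g j ∈ P := fun j hj => (mem_tau.mp (hgZ j hj)).1
  obtain ⟨X, hX1, hX2⟩ : ∃ X : ℕ → Set V, (∀ j ∈ J₁, X j = B j ∪ {v (g j)}) ∧
      ∀ j, j ∉ J₁ → X j = B j := by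
    refine ⟨fun j => if j ∈ J₁ then B j ∪ {v (g j)} else B j, fun j hj => ?_, fun j hj => ?_⟩
    · simp only [if_pos hj]
    · simp only [if_neg hj]
  have hBX : ∀ j, B j ⊆ X j := by
    intro j
    by_cases hj : j ∈ J₁
    · rw [hX1 j hj]; exact Set.subset_union_left
    · rw [hX2 j hj]
  -- elements of `X j`
  have hXm : ∀ j ∈ J, ∀ x ∈ X j, x ∈ B j ∨ ∃ h : j ∈ J₁, x = v (g j) := by
    intro j hj x hx
    by_cases hjJ : j ∈ J₁
    · rw [hX1 j hjJ] at hx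
      rcases hx with hx | hx
      · exact Or.inl hx
      · exact Or.inr ⟨hjJ, hx⟩
    · rw [hX2 j hjJ] at hx
      exact Or.inl hx
  apply hfree
  have hPi : ∀ S : Set V, S ⊆ D → ∀ j ∈ J, Disjoint (X j) S := by
    intro S hS j hj
    rw [Set.disjoint_left]
    intro x hx hxS
    rcases hXm j hj x hx with h | ⟨h, rfl⟩
    · exact Set.disjoint_left.mp (hDB j hj) (hS hxS) h
    · exact hvD _ (hgP j h) (hS hxS)
  refine hKP V G s J X ![{v i}, F, Z, F'] ⟨?_, ?_⟩ ⟨?_, ?_, ?_⟩ ?_ ?_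
  · intro j hj
    by_cases hjJ : j ∈ J₁
    · rw [hX1 j hjJ]
      exact (hMdl.1 j hj).union (Conn.singleton G _)
        (Or.inr (hvB _ (hgP j hjJ) j hj).2.symm)
    · rw [hX2 j hjJ]; exact hMdl.1 j hj
  · intro a ha b hb hab
    constructor
    · rw [Set.disjoint_left]
      intro x hx hx'
      rcases hXm a ha x hx with h | ⟨h, rfl⟩
      · rcases hXm b hb x hx' with h' | ⟨h', rfl⟩
        · exact Set.disjoint_left.mp (hMdl.2 a ha b hb hab).1 h h'
        · exact (hvB _ (hgP b h') a ha).1 h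
      · rcases hXm b hb _ hx' with h' | ⟨h', he⟩
        · exact (hvB _ (hgP a h) b hb).1 h'
        · exact hab (hginj a h b h' (hvinj _ (hgP a h) _ (hgP b h') he))
    · exact (hMdl.2 a ha b hb hab).2.mono (hBX a) (hBX b)
  · intro k
    fin_cases k
    · exact Conn.singleton G _
    · exact cF
    · exact cZ
    · exact cF'
  · have d0 : ∀ S : Set V, S ⊆ D → Disjoint ({v i} : Set V) S := by
      intro S hS
      rw [Set.disjoint_singleton_left]
      exact fun h => hvD i hiP (hS h)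
    intro k l hkl
    fin_cases k <;> fin_cases l <;> first
      | exact absurd rfl hkl
      | exact d0 _ hFD
      | exact d0 _ hZD
      | exact d0 _ hFD'
      | exact (d0 _ hFD).symm
      | exact (d0 _ hZD).symm
      | exact (d0 _ hFD').symm
      | exact dFZ
      | exact dFZ.symm
      | exact dFZ'
      | exact dFZ'.symm
      | exact dFF
      | exact dFF.symm
  · have t1 : Tch G {v i} F := (mem_tau.mp hi).2.symm
    have t2 : ¬ Tch G {v i} Z := fun h => hiZ (mem_tau.mpr ⟨hiP, h.symm⟩)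
    have t3 : ¬ Tch G {v i} F' := fun h => hiF' (mem_tau.mpr ⟨hiP, h.symm⟩)
    have t4 : ¬ Tch G Z {v i} := fun h => t2 h.symm
    have t5 : ¬ Tch G F' {v i} := fun h => t3 h.symm
    have t6 : ¬ Tch G F' F := fun h => tFF h.symm
    intro k l hkl
    fin_cases k <;> fin_cases l <;> first
      | exact absurd rfl hkl
      | exact iff_of_true t1 (by decide)
      | exact iff_of_true t1.symm (by decide)
      | exact iff_of_true tFZ (by decide)
      | exact iff_of_true tFZ.symm (by decide)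
      | exact iff_of_true tFZ' (by decide)
      | exact iff_of_true tFZ'.symm (by decide)
      | exact iff_of_false t2 (by decide)
      | exact iff_of_false t3 (by decide)
      | exact iff_of_false t4 (by decide)
      | exact iff_of_false t5 (by decide)
      | exact iff_of_false tFF (by decide)
      | exact iff_of_false t6 (by decide)
  · intro j hj k
    fin_cases k
    · change Disjoint (X j) {v i}
      rw [Set.disjoint_singleton_right]
      intro h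
      rcases hXm j hj _ h with h | ⟨h, he⟩
      · exact (hvB i hiP j hj).1 h
      · have h1 : i = g j := hvinj _ hiP _ (hgP j h) he
        exact hiZ (h1 ▸ hgZ j h)
    · exact hPi F hFD j hj
    · exact hPi Z hZD j hj
    · exact hPi F' hFD' j hj
  · intro k
    have hmono : ∀ S : Set V, tau G J B S ⊆ tau G J X S := by
      intro S j hj
      rw [mem_tau] at hj ⊢
      exact ⟨hj.1, hj.2.mono subset_rfl (hBX j)⟩
    fin_cases k
    · refine hJ.trans (Finset.card_le_card ?_)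
      intro j hj
      rw [mem_tau]
      exact ⟨hj, (hvB i hiP j hj).2.mono subset_rfl (hBX j)⟩
    · exact hFb.trans (Finset.card_le_card (hmono F))
    · change 4 * s ≤ (tau G J X Z).card
      rw [← hJ₁c]
      apply Finset.card_le_card
      intro j hj
      rw [mem_tau]
      refine ⟨hJ₁ hj, (mem_tau.mp (hgZ j hj)).2.mono subset_rfl ?_⟩
      rw [hX1 j hj]
      exact Set.subset_union_right
    · exact hFb'.trans (Finset.card_le_card (hmono F'))

end q3aAux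

theorem q3a : (S_L3) → (S_KPd) → (S_Grow) → S_Q3a := by
  classical
  intro hL3 hKP hGrow V _ G s δ M K P J v B D hfree hVB hPJ hJ hM hP hD hDB hvD hDδ
  obtain ⟨α, hαdef⟩ : ∃ α : Set V → Finset ℕ, ∀ E, tau G P (fun c => {v c}) E = α E :=
    ⟨_, fun _ => rfl⟩
  have hα : ∀ E c, c ∈ α E ↔ c ∈ P ∧ Tch G E {v c} := by
    intro E c
    rw [← hαdef]
    exact mem_tau
  have hαmono : ∀ E E', E ⊆ E' → α E ⊆ α E' := by
    intro E E' h c hc
    rw [hα] at hc ⊢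
    exact ⟨hc.1, hc.2.mono h subset_rfl⟩
  have hαunion : ∀ E E', α (E ∪ E') ⊆ α E ∪ α E' := by
    intro E E' c hc
    rw [hα] at hc
    obtain ⟨hcP, a, ha | ha, b, hb, hab⟩ := hc
    · exact Finset.mem_union_left _ ((hα _ _).mpr ⟨hcP, a, ha, b, hb, hab⟩)
    · exact Finset.mem_union_right _ ((hα _ _).mpr ⟨hcP, a, ha, b, hb, hab⟩)
  simp only [hαdef] at hDδ ⊢
  -- the minimal set `W`
  obtain ⟨W, ⟨hWD, hWc, hWP⟩, hWmin⟩ := q3aAux.exists_min
    (fun W => W ⊆ D ∧ Conn G W ∧ P.card ≤ 2 * (α W).card) ⟨D, subset_rfl, hD, by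
      have h1 : P ⊆ α D := fun c hc => (hα _ _).mpr ⟨hc, (hvD c hc).2⟩
      have := Finset.card_le_card h1
      omega⟩
  have hvW : ∀ c ∈ P, v c ∉ W := fun c hc h => (hvD c hc).1 (hWD h)
  have hBW : ∀ j ∈ J, ∀ S ⊆ W, Disjoint S (B j) := fun j hj S hS =>
    (hDB j hj).mono_left (hS.trans hWD)
  -- (1)
  have step1 : ∀ F ⊆ W, Conn G F → Conn G (W \ F) → 4 * s + 2 ≤ (α (W \ F)).card →
      (α F).card ≤ 4 * s + 1 := by
    intro F hF cF cWF hWF
    by_contra hcon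
    push Not at hcon
    obtain ⟨z, hz⟩ := cWF.1
    have hFne : F ≠ W := fun h => hz.2 (h ▸ hz.1)
    have hT : Tch G F (W \ F) := hWc.2 F hF cF.1 hFne
    have hsplit : α W ⊆ α F ∪ α (W \ F) := by
      have h1 := hαunion F (W \ F)
      rwa [Set.union_sdiff_cancel hF] at h1
    have h1 := hL3 V G s P J v B F (W \ F) hfree hVB hPJ cF cWF Set.disjoint_sdiff_right hT
      (fun j hj => ⟨hBW j hj F hF, hBW j hj _ Set.sdiff_subset⟩)
      (fun c hc => ⟨fun h => hvW c hc (hF h), fun h => hvW c hc h.1⟩)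
    simp only [hαdef] at h1
    rcases h1 hcon hWF with h2 | h2
    · -- `α (W \ F) = α W`
      rw [Finset.union_eq_right.mpr h2] at hsplit
      have h3 := hWmin (W \ F) ⟨Set.sdiff_subset.trans hWD, cWF, hWP.trans
        (Nat.mul_le_mul_left _ (Finset.card_le_card hsplit))⟩
      obtain ⟨f, hf⟩ := cF.1
      have h4 : (W \ F).ncard < W.ncard := by
        apply Set.ncard_lt_ncard _ (Set.toFinite W)
        refine ⟨Set.sdiff_subset, fun h => ?_⟩
        exact (h (hF hf)).2 hf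
      omega
    · rw [Finset.union_eq_left.mpr h2] at hsplit
      have h3 := hWmin F ⟨hF.trans hWD, cF, hWP.trans
        (Nat.mul_le_mul_left _ (Finset.card_le_card hsplit))⟩
      have h4 : F.ncard < W.ncard := Set.ncard_lt_ncard (hF.ssubset_of_ne hFne) (Set.toFinite W)
      omega
  -- (2)
  obtain ⟨Z, hZW, hZc, hZM, hZδ⟩ : ∃ Z ⊆ W, Conn G Z ∧ M ≤ (α Z).card ∧ (α Z).card < M + δ := by
    obtain ⟨u, hu⟩ := hWc.1
    by_cases hfu : (α {u}).card < M
    · obtain ⟨Z, hZ, _, h2, h3, h4⟩ := (hGrow V G W u hWc hu).2 (fun E => (α E).card) M δ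
        (fun E w hw => by
          have h1 : α (insert w E) ⊆ α {w} ∪ α E := by
            have := hαunion {w} E
            rwa [← Set.insert_eq] at this
          have h2 := Finset.card_le_card h1
          have h3 := Finset.card_union_le (α {w}) (α E)
          have h4 := hDδ w (hWD hw)
          change (α (insert w E)).card ≤ (α E).card + δ
          omega) hfu (by omega)
      exact ⟨Z, hZ, h2, h3, h4⟩
    · push Not at hfu
      refine ⟨{u}, Set.singleton_subset_iff.mpr hu, Conn.singleton G u, hfu, ?_⟩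
      have := hDδ u (hWD hu)
      omega
  -- components
  obtain ⟨Cp, hCp⟩ : ∃ Cp : Set V → Prop, ∀ F, Cp F ↔ F ⊆ W \ Z ∧ Conn G F ∧
      ∀ u ∈ W \ Z, u ∉ nb G F := ⟨_, fun _ => Iff.rfl⟩
  -- (3)
  have step3 : ∀ F, Cp F → F ⊆ W ∧ Conn G F ∧ Conn G (W \ F) ∧ Tch G F Z ∧ Z ⊆ W \ F ∧
      (α F).card ≤ 4 * s + 1 := by
    intro F hF
    obtain ⟨h1, h2, h3⟩ := (hCp F).mp hF
    have h4 : F ⊆ W := fun x hx => (h1 hx).1
    have h5 : Z ⊆ W \ F := fun z hz => ⟨hZW hz, fun h => (h1 h).2 hz⟩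
    have h6 : Conn G (W \ F) := q3aAux.compl_conn hWc hZc hZW h1 h3
    refine ⟨h4, h2, h6, q3aAux.comp_tch hWc hZc.1 hZW h1 h2.1 h3, h5, step1 F h4 h2 h6 ?_⟩
    have := Finset.card_le_card (hαmono _ _ h5)
    omega
  -- (4)
  have step4 : ∀ F F', Cp F → Cp F' → 4 * s < (tau G J B F).card → 4 * s < (tau G J B F').card →
      ∀ i ∈ α F, i ∉ α Z → i ∈ α F' := by
    intro F F' hF hF' hb hb' i hi hiZ
    obtain ⟨h1, h2, h3⟩ := (hCp F).mp hF
    obtain ⟨h1', h2', h3'⟩ := (hCp F').mp hF'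
    obtain ⟨g1, g2, g3, g4, g5, g6⟩ := step3 F hF
    obtain ⟨g1', g2', g3', g4', g5', g6'⟩ := step3 F' hF'
    rcases q3aAux.comp_cases h1 h1' h2 h2' h3 h3' with h | ⟨hd, ht⟩
    · rw [← h]; exact hi
    · rw [← hαdef] at hi hiZ ⊢
      refine q3aAux.step4 hKP hfree hVB hJ hDB (fun c hc => (hvD c hc).1) (hZW.trans hWD)
        (g1.trans hWD) (g1'.trans hWD) hZc h2 h2' ?_ ?_ hd g4 g4' ht ?_ hb.le hb'.le hi hiZ
      · rw [Set.disjoint_left]; exact fun x hx hxZ => (h1 hx).2 hxZ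
      · rw [Set.disjoint_left]; exact fun x hx hxZ => (h1' hx).2 hxZ
      · rw [hαdef]; omega
  -- (5)
  obtain ⟨U, hU⟩ : ∃ U : Finset ℕ, ∀ i, i ∈ U ↔ i ∈ P ∧ ∃ F, Cp F ∧
      (tau G J B F).card ≤ 4 * s ∧ i ∈ α F :=
    ⟨P.filter (fun i => ∃ F, Cp F ∧ (tau G J B F).card ≤ 4 * s ∧ i ∈ α F), fun i =>
      Finset.mem_filter⟩
  obtain ⟨S, hScard, hS⟩ : ∃ S : Finset ℕ, S.card ≤ 4 * s + 1 ∧ ∀ F, Cp F →
      4 * s < (tau G J B F).card → ∀ i ∈ α F, i ∉ α Z → i ∈ S := by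
    by_cases hbig : ∃ F₀, Cp F₀ ∧ 4 * s < (tau G J B F₀).card
    · obtain ⟨F₀, hF₀, hb₀⟩ := hbig
      exact ⟨α F₀, (step3 F₀ hF₀).2.2.2.2.2, fun F hF hb i hi hiZ =>
        step4 F F₀ hF hF₀ hb hb₀ i hi hiZ⟩
    · push Not at hbig
      exact ⟨∅, by simp, fun F hF hb => absurd (hbig F hF) (by omega)⟩
  have hcov : α W ⊆ α Z ∪ (U ∪ S) := by
    intro i hi
    rw [Finset.mem_union, Finset.mem_union]
    by_cases hiZ : i ∈ α Z
    · exact Or.inl hiZ
    right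
    obtain ⟨hiP, x, hx, y, hy, hxy⟩ := (hα _ _).mp hi
    have hxZ : x ∉ Z := fun h => hiZ ((hα _ _).mpr ⟨hiP, x, h, y, hy, hxy⟩)
    obtain ⟨F, hF, hxF, cF, hcl⟩ := exists_comp G (show x ∈ W \ Z from ⟨hx, hxZ⟩)
    have hCF : Cp F := (hCp F).mpr ⟨hF, cF, hcl⟩
    have hiF : i ∈ α F := (hα _ _).mpr ⟨hiP, x, hxF, y, hy, hxy⟩
    by_cases hb : (tau G J B F).card ≤ 4 * s
    · exact Or.inl ((hU i).mpr ⟨hiP, F, hCF, hb, hiF⟩)
    · exact Or.inr (hS F hCF (by omega) i hiF hiZ)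
  refine ⟨W, hWD, α Z, fun c hc => ((hα _ _).mp hc).1, U, fun i hi => ((hU i).mp hi).1, hZM, ?_,
    fun i hi => ?_⟩
  · have h1 := Finset.card_le_card hcov
    have h2 := Finset.card_union_le (α Z) (U ∪ S)
    have h3 := Finset.card_union_le U S
    omega
  · obtain ⟨_, F, hF, hb, hiF⟩ := (hU i).mp hi
    obtain ⟨g1, g2, g3, g4, g5, g6⟩ := step3 F hF
    exact ⟨F, g1, g2, g3, g4.mono subset_rfl g5, hiF, g6, hb, hαmono _ _ g5⟩

end Pool.Agent.MPd439b2
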