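import Pool.Agent.Lib.MP_d439b2_co.B.SpecQ

set_option autoImplicit false

namespace Pool.Agent.MPd439b2

namespace q3bAux

variable {V : Type} {G : SimpleGraph V}

theorem enum (T : Finset ℕ) (m : ℕ) (h : m ≤ T.card) : ∃ g : ℕ → ℕ, (∀ k < m, g k ∈ T) ∧
    ∀ k < m, ∀ l < m, g k = g l → k = l := by
  obtain ⟨T', hT', hc⟩ := Finset.exists_subset_card_eq h
  refine ⟨fun k => if hk : k < m then T'.orderEmbOfFin hc ⟨k, hk⟩ else 0, fun k hk => ?_,
    fun k hk l hl hkl => ?_⟩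
  · simp only [dif_pos hk]
    exact hT' (T'.orderEmbOfFin_mem hc _)
  · simp only [dif_pos hk, dif_pos hl] at hkl
    have h1 := (T'.orderEmbOfFin hc).injective hkl
    exact congrArg Fin.val h1

/-- assembling `DD N m` from its named parts -/
theorem assemble (hDD : S_DDd) {N m : ℕ} {P Q E Y : ℕ → Set V}
    (cP : ∀ k < m, Conn G (P k)) (cQ : ∀ k < m, Conn G (Q k)) (cE : ∀ x < N, Conn G (E x))
    (cY : ∀ k < m, Conn G (Y k))
    (hPP : ∀ k < m, ∀ l < m, k ≠ l → Disjoint (P k) (P l) ∧ Tch G (P k) (P l))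
    (hPQ : ∀ k < m, ∀ l < m, Disjoint (P k) (Q l) ∧ Tch G (P k) (Q l))
    (hPE : ∀ k < m, ∀ x < N, Disjoint (P k) (E x) ∧ Tch G (P k) (E x))
    (hQQ : ∀ k < m, ∀ l < m, k ≠ l → Disjoint (Q k) (Q l) ∧ Tch G (Q k) (Q l))
    (hQE : ∀ k < m, ∀ x < N, Disjoint (Q k) (E x) ∧ Tch G (Q k) (E x))
    (hEE : ∀ x < N, ∀ y < N, x ≠ y → Disjoint (E x) (E y) ∧ Tch G (E x) (E y))
    (hYP : ∀ k < m, ∀ l < m, Disjoint (Y k) (P l) ∧ (Tch G (Y k) (P l) ↔ k = l))
    (hYQ : ∀ k < m, ∀ l < m, Disjoint (Y k) (Q l) ∧ (Tch G (Y k) (Q l) ↔ k = l))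
    (hYE : ∀ k < m, ∀ x < N, Disjoint (Y k) (E x) ∧ ¬ Tch G (Y k) (E x))
    (hYY : ∀ k < m, ∀ l < m, k ≠ l → Disjoint (Y k) (Y l) ∧ ¬ Tch G (Y k) (Y l)) :
    IMS (DD N m) G Set.univ := by
  classical
  let X : ℕ → Set V := fun i =>
    if i < 2 * m then (if i % 2 = 0 then P (i / 2) else Q (i / 2)) else E (i - 2 * m)
  have hX0 : ∀ k < m, X (2 * k) = P k := by
    intro k hk
    have h1 : 2 * k < 2 * m := by omega
    have h2 : 2 * k % 2 = 0 := by omega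
    have h3 : 2 * k / 2 = k := by omega
    simp only [X, if_pos h1, if_pos h2, h3]
  have hX1 : ∀ k < m, X (2 * k + 1) = Q k := by
    intro k hk
    have h1 : 2 * k + 1 < 2 * m := by omega
    have h2 : ¬ (2 * k + 1) % 2 = 0 := by omega
    have h3 : (2 * k + 1) / 2 = k := by omega
    simp only [X, if_pos h1, if_neg h2, h3]
  have hX2 : ∀ x, X (2 * m + x) = E x := by
    intro x
    have h1 : ¬ (2 * m + x < 2 * m) := by omega
    have h2 : 2 * m + x - 2 * m = x := by omega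
    simp only [X, if_neg h1, h2]
  have hcase : ∀ i ∈ Finset.range (N + 2 * m), (∃ k < m, i = 2 * k) ∨
      (∃ k < m, i = 2 * k + 1) ∨ ∃ x < N, i = 2 * m + x := by
    intro i hi
    rw [Finset.mem_range] at hi
    by_cases h : i < 2 * m
    · rcases Nat.even_or_odd' i with ⟨k, hk | hk⟩
      · exact Or.inl ⟨k, by omega, hk⟩
      · exact Or.inr (Or.inl ⟨k, by omega, hk⟩)
    · exact Or.inr (Or.inr ⟨i - 2 * m, by omega, by omega⟩)
  refine hDD V G N m (Finset.range (N + 2 * m)) X Y (fun q => 2 * q) (fun q => 2 * q + 1)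
    ⟨?_, ?_⟩ ?_ ?_ ?_ ?_ ?_ ?_ ?_
  · intro i hi
    rcases hcase i hi with ⟨k, hk, rfl⟩ | ⟨k, hk, rfl⟩ | ⟨x, hx, rfl⟩
    · rw [hX0 k hk]; exact cP k hk
    · rw [hX1 k hk]; exact cQ k hk
    · rw [hX2]; exact cE x hx
  · intro i hi j hj hij
    rcases hcase i hi with ⟨k, hk, rfl⟩ | ⟨k, hk, rfl⟩ | ⟨x, hx, rfl⟩ <;>
    rcases hcase j hj with ⟨l, hl, rfl⟩ | ⟨l, hl, rfl⟩ | ⟨y, hy, rfl⟩
    · rw [hX0 k hk, hX0 l hl]; exact hPP k hk l hl (fun h => hij (by rw [h]))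
    · rw [hX0 k hk, hX1 l hl]; exact hPQ k hk l hl
    · rw [hX0 k hk, hX2]; exact hPE k hk y hy
    · rw [hX1 k hk, hX0 l hl]
      exact ⟨(hPQ l hl k hk).1.symm, (hPQ l hl k hk).2.symm⟩
    · rw [hX1 k hk, hX1 l hl]; exact hQQ k hk l hl (fun h => hij (by rw [h]))
    · rw [hX1 k hk, hX2]; exact hQE k hk y hy
    · rw [hX2, hX0 l hl]
      exact ⟨(hPE l hl x hx).1.symm, (hPE l hl x hx).2.symm⟩
    · rw [hX2, hX1 l hl]
      exact ⟨(hQE l hl x hx).1.symm, (hQE l hl x hx).2.symm⟩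
    · rw [hX2, hX2]; exact hEE x hx y hy (fun h => hij (by rw [h]))
  · rw [Finset.card_range]
  · intro q hq
    refine ⟨cY q hq, ?_, ?_⟩ <;> rw [Finset.mem_range] <;> omega
  · intro q hq i hi
    rcases hcase i hi with ⟨k, hk, rfl⟩ | ⟨k, hk, rfl⟩ | ⟨x, hx, rfl⟩
    · rw [hX0 k hk]
      refine ⟨(hYP q hq k hk).1, (hYP q hq k hk).2.trans ?_⟩
      constructor
      · intro h; left; omega
      · intro h; omega
    · rw [hX1 k hk]
      refine ⟨(hYQ q hq k hk).1, (hYQ q hq k hk).2.trans ?_⟩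
      constructor
      · intro h; right; omega
      · intro h; omega
    · rw [hX2]
      refine ⟨(hYE q hq x hx).1, ?_⟩
      constructor
      · intro h; exact absurd h (hYE q hq x hx).2
      · intro h; omega
  · intro q hq q' hq' hne
    exact hYY q hq q' hq' hne
  · intro q _ q' _; omega
  · intro q _ q' _ h; omega
  · intro q _ q' _ h; omega

end q3bAux

theorem q3b : (S_Q3a) → (S_DDd) → (S_Dig) → S_Q3b := by
  classical
  intro hQ3a hDD hDig s N m n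
  obtain ⟨M, hMdef⟩ : ∃ M, M = m * (4 * s + 1) + m + 4 * s + 2 := ⟨_, rfl⟩
  obtain ⟨K, hKdef⟩ : ∃ K, K = (2 * (4 * s + 1) + 1) * m := ⟨_, rfl⟩
  obtain ⟨p, hpdef⟩ : ∃ p, p = 2 * (M + n + 4 * s + K) := ⟨_, rfl⟩
  obtain ⟨kk, hkk⟩ : ∃ kk, kk = (2 * (m * (4 * s)) + 1) * m := ⟨_, rfl⟩
  obtain ⟨nr, hnr⟩ : ∃ nr, nr = 2 ^ p * (2 ^ p * 2 ^ (p * p)) := ⟨_, rfl⟩
  refine ⟨p, nr * kk + 1, p + 1 + 4 * s + (m + m * (4 * s) + (m + m + N)), by omega,
    fun V _ G P J v B hFree hVB hP hL => ?_⟩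
  by_contra hcon
  push Not at hcon
  obtain ⟨hMdl, hvinj, hvind, hvB⟩ := hVB
  -- the bad indices
  obtain ⟨Bad, hBadsub, hBadcard⟩ : ∃ Bad ⊆ J.filter
      (fun j => ∀ x ∈ B j, (tau G P (fun c => {v c}) {x}).card ≤ n), Bad.card = nr * kk + 1 := by
    apply Finset.exists_subset_card_eq
    by_contra hlt
    push Not at hlt
    obtain ⟨i, hi, hiB, h⟩ := hcon _ hlt
    exact hiB (Finset.mem_filter.mpr ⟨hi, h⟩)
  have hBad1 : ∀ j ∈ Bad, j ∈ J := fun j hj => (Finset.mem_filter.mp (hBadsub hj)).1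
  have hBad2 : ∀ j ∈ Bad, ∀ x ∈ B j, (tau G P (fun c => {v c}) {x}).card ≤ n := fun j hj =>
    (Finset.mem_filter.mp (hBadsub hj)).2
  have hMc : ∀ j ∈ J, Conn G (B j) := hMdl.1
  have hMd : ∀ i ∈ J, ∀ j ∈ J, i ≠ j → Disjoint (B i) (B j) := fun i hi j hj h =>
    (hMdl.2 i hi j hj h).1
  have hMt : ∀ i ∈ J, ∀ j ∈ J, i ≠ j → Tch G (B i) (B j) := fun i hi j hj h =>
    (hMdl.2 i hi j hj h).2
  have hI : ∀ i j : ℕ, j ∈ J \ {i} ↔ j ∈ J ∧ j ≠ i := by
    intro i j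
    rw [Finset.mem_sdiff, Finset.mem_singleton]
  have hIcard : ∀ j ∈ J, (J \ {j}).card = J.card - 1 := by
    intro j hj
    rw [Finset.card_sdiff_of_subset (Finset.singleton_subset_iff.mpr hj), Finset.card_singleton]
  have hW : ∀ j ∈ Bad, ∃ W ⊆ B j, ∃ A₀ ⊆ P, ∃ U ⊆ P, M ≤ A₀.card ∧ K ≤ U.card ∧ ∀ i ∈ U,
      ∃ F ⊆ W, Conn G F ∧ Conn G (W \ F) ∧ Tch G F (W \ F) ∧
      i ∈ tau G P (fun c => {v c}) F ∧ (tau G P (fun c => {v c}) F).card ≤ 4 * s + 1 ∧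
      (tau G (J \ {j}) B F).card ≤ 4 * s ∧ A₀ ⊆ tau G P (fun c => {v c}) (W \ F) := by
    intro j hj
    have hjJ := hBad1 j hj
    refine hQ3a V G s n M K P (J \ {j}) v B (B j) hFree.1 ⟨⟨?_, ?_⟩, hvinj, hvind, ?_⟩ ?_ ?_ ?_ ?_
      (hMc j hjJ) ?_ ?_ (hBad2 j hj)
    · intro a ha
      exact hMc a ((hI j a).mp ha).1
    · intro a ha b hb hab
      exact hMdl.2 a ((hI j a).mp ha).1 b ((hI j b).mp hb).1 hab
    · intro c hc a ha
      exact hvB c hc a ((hI j a).mp ha).1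
    · rw [hIcard j hjJ]; omega
    · rw [hIcard j hjJ]; omega
    · omega
    · omega
    · intro a ha
      exact hMd j hjJ a ((hI j a).mp ha).1 (Ne.symm ((hI j a).mp ha).2)
    · intro c hc
      exact ⟨(hvB c hc j hjJ).1, (hvB c hc j hjJ).2.symm⟩
  choose! W hWB A hAP U hUP hAcard hUcard hF using hW
  choose! F hFW hFc hWFc hFt hFi hFa hFτ hWA using hF
  obtain ⟨α, hαdef⟩ : ∃ α : Set V → Finset ℕ, ∀ E, tau G P (fun c => {v c}) E = α E :=
    ⟨_, fun _ => rfl⟩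
  have hα : ∀ E c, c ∈ α E ↔ c ∈ P ∧ Tch G E {v c} := by
    intro E c
    rw [← hαdef]
    exact mem_tau
  obtain ⟨τ, hτdef⟩ : ∃ τ : ℕ → Set V → Finset ℕ, ∀ j E, tau G (J \ {j}) B E = τ j E :=
    ⟨_, fun _ _ => rfl⟩
  have hτ : ∀ j E a, a ∈ τ j E ↔ (a ∈ J ∧ a ≠ j) ∧ Tch G E (B a) := by
    intro j E a
    rw [← hI, ← hτdef]
    exact mem_tau
  simp only [hαdef, hτdef] at hFi hFa hFτ hWA
  clear hαdef hτdef
  -- records
  obtain ⟨rec', hrec'⟩ : ∃ f : ℕ → Finset (ℕ × ℕ), ∀ j q, q ∈ f j ↔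
      q ∈ P ×ˢ P ∧ q.2 ∈ α (F j q.1) :=
    ⟨fun j => (P ×ˢ P).filter (fun q => q.2 ∈ α (F j q.1)), fun _ _ => Finset.mem_filter⟩
  obtain ⟨y, _, hy⟩ : ∃ y ∈ P.powerset ×ˢ (P.powerset ×ˢ (P ×ˢ P).powerset),
      kk < (Bad.filter (fun j => (A j, U j, rec' j) = y)).card := by
    apply Finset.exists_lt_card_fiber_of_mul_lt_card_of_maps_to
    · intro j hj
      exact Finset.mem_product.mpr ⟨Finset.mem_powerset.mpr (hAP j hj),
        Finset.mem_product.mpr ⟨Finset.mem_powerset.mpr (hUP j hj),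
          Finset.mem_powerset.mpr (fun q hq => ((hrec' j q).mp hq).1)⟩⟩
    · rw [Finset.card_product, Finset.card_product, Finset.card_powerset, Finset.card_powerset,
        Finset.card_product, hP, hBadcard, ← hnr]
      exact Nat.lt_succ_self _
  obtain ⟨Bad', hBad'mem, hBad'card⟩ : ∃ Bad' : Finset ℕ,
      (∀ j ∈ Bad', j ∈ Bad ∧ (A j, U j, rec' j) = y) ∧ kk < Bad'.card :=
    ⟨Bad.filter (fun j => (A j, U j, rec' j) = y), fun j hj => Finset.mem_filter.mp hj, hy⟩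
  obtain ⟨j₀, hj₀⟩ : Bad'.Nonempty := Finset.card_pos.mp (by omega)
  have hB'B : ∀ j ∈ Bad', j ∈ Bad := fun j hj => (hBad'mem j hj).1
  have hrA : ∀ j ∈ Bad', A j = A j₀ := by
    intro j hj
    have h1 := (hBad'mem j hj).2.trans (hBad'mem j₀ hj₀).2.symm
    exact (Prod.mk.inj h1).1
  have hrU : ∀ j ∈ Bad', U j = U j₀ := by
    intro j hj
    have h1 := (hBad'mem j hj).2.trans (hBad'mem j₀ hj₀).2.symm
    exact (Prod.mk.inj (Prod.mk.inj h1).2).1
  have hrR : ∀ j ∈ Bad', ∀ i ∈ P, ∀ c ∈ P, (c ∈ α (F j i) ↔ c ∈ α (F j₀ i)) := by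
    intro j hj i hi c hc
    have h1 := (hBad'mem j hj).2.trans (hBad'mem j₀ hj₀).2.symm
    have h2 : rec' j = rec' j₀ := (Prod.mk.inj (Prod.mk.inj h1).2).2
    have h3 : ∀ j', (i, c) ∈ rec' j' ↔ c ∈ α (F j' i) := by
      intro j'
      rw [hrec', Finset.mem_product]
      exact ⟨fun h => h.2, fun h => ⟨⟨hi, hc⟩, h⟩⟩
    rw [← h3, ← h3, h2]
  have hj₀B := hB'B j₀ hj₀
  -- the first choice
  obtain ⟨T, hTU, hTcard, hT⟩ := hDig ℕ (U j₀) (fun i i' => i' ∈ α (F j₀ i)) (4 * s + 1) m (by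
    intro i hi
    exact ⟨α (F j₀ i), hFa j₀ hj₀B i hi, fun _ _ _ h => h⟩) (by
    rw [← hKdef]; exact hUcard j₀ hj₀B)
  have hTP : ∀ i ∈ T, i ∈ P := fun i hi => hUP j₀ hj₀B (hTU hi)
  have hTUj : ∀ j ∈ Bad', ∀ i ∈ T, i ∈ U j := fun j hj i hi => by
    rw [hrU j hj]; exact hTU hi
  have hTj : ∀ j ∈ Bad', ∀ i ∈ T, ∀ i' ∈ T, i ≠ i' → i' ∉ α (F j i) := by
    intro j hj i hi i' hi' hne
    rw [hrR j hj i (hTP i hi) i' (hTP i' hi')]
    exact hT i hi i' hi' hne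
  -- the second choice
  obtain ⟨T', hTB, hTcard', hT'⟩ := hDig ℕ Bad' (fun j j' => ∃ i ∈ T, j' ∈ τ j (F j i))
      (m * (4 * s)) m (by
    intro j hj
    refine ⟨T.biUnion (fun i => τ j (F j i)), ?_, fun y _ _ h => ?_⟩
    · rw [← hTcard]
      apply Finset.card_biUnion_le_card_mul
      intro i hi
      exact hFτ j (hB'B j hj) i (hTUj j hj i hi)
    · obtain ⟨i, hi, h⟩ := h
      exact Finset.mem_biUnion.mpr ⟨i, hi, h⟩) (by omega)
  -- the vertices `c`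
  obtain ⟨cc, hcc, hccinj⟩ := q3bAux.enum (A j₀ \ T.biUnion (fun i => α (F j₀ i))) m (by
    have h1 := Finset.le_card_sdiff (T.biUnion (fun i => α (F j₀ i))) (A j₀)
    have h2 : (T.biUnion (fun i => α (F j₀ i))).card ≤ T.card * (4 * s + 1) := by
      apply Finset.card_biUnion_le_card_mul
      intro i hi
      exact hFa j₀ hj₀B i (hTU hi)
    have h3 := hAcard j₀ hj₀B
    rw [hTcard] at h2
    omega)
  have hccA : ∀ k < m, cc k ∈ A j₀ := fun k hk => (Finset.mem_sdiff.mp (hcc k hk)).1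
  have hccP : ∀ k < m, cc k ∈ P := fun k hk => hAP j₀ hj₀B (hccA k hk)
  have hccF : ∀ k < m, ∀ j ∈ Bad', ∀ i ∈ T, cc k ∉ α (F j i) := by
    intro k hk j hj i hi h
    rw [hrR j hj i (hTP i hi) _ (hccP k hk)] at h
    exact (Finset.mem_sdiff.mp (hcc k hk)).2 (Finset.mem_biUnion.mpr ⟨i, hi, h⟩)
  obtain ⟨ic, hic, hicinj⟩ := q3bAux.enum T m hTcard.ge
  obtain ⟨jc, hjc, hjcinj⟩ := q3bAux.enum T' m hTcard'.ge
  have hjcB' : ∀ k < m, jc k ∈ Bad' := fun k hk => hTB (hjc k hk)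
  have hjcB : ∀ k < m, jc k ∈ Bad := fun k hk => hB'B _ (hjcB' k hk)
  have hjcJ : ∀ k < m, jc k ∈ J := fun k hk => hBad1 _ (hjcB k hk)
  have hicU : ∀ k < m, ic k ∈ U (jc k) := fun k hk => hTUj _ (hjcB' k hk) _ (hic k hk)
  have hicP : ∀ k < m, ic k ∈ P := fun k hk => hTP _ (hic k hk)
  -- the sets `Y k` and `Z k`
  obtain ⟨Y, hYdef⟩ : ∃ Y : ℕ → Set V, ∀ k, F (jc k) (ic k) = Y k := ⟨_, fun _ => rfl⟩
  obtain ⟨Z, hZdef⟩ : ∃ Z : ℕ → Set V, ∀ k, W (jc k) \ Y k = Z k := ⟨_, fun _ => rfl⟩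
  have hYW : ∀ k < m, Y k ⊆ W (jc k) := fun k hk => by
    rw [← hYdef]; exact hFW _ (hjcB k hk) _ (hicU k hk)
  have hYB : ∀ k < m, Y k ⊆ B (jc k) := fun k hk => (hYW k hk).trans (hWB _ (hjcB k hk))
  have hZB : ∀ k < m, Z k ⊆ B (jc k) := fun k hk => by
    rw [← hZdef]; exact Set.sdiff_subset.trans (hWB _ (hjcB k hk))
  have hYZ : ∀ k, Disjoint (Y k) (Z k) := fun k => by
    rw [← hZdef]; exact Set.disjoint_sdiff_right
  have hYc : ∀ k < m, Conn G (Y k) := fun k hk => by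
    rw [← hYdef]; exact hFc _ (hjcB k hk) _ (hicU k hk)
  have hZc : ∀ k < m, Conn G (Z k) := fun k hk => by
    rw [← hZdef, ← hYdef]; exact hWFc _ (hjcB k hk) _ (hicU k hk)
  have hYZt : ∀ k < m, Tch G (Y k) (Z k) := fun k hk => by
    rw [← hZdef, ← hYdef]; exact hFt _ (hjcB k hk) _ (hicU k hk)
  have hYi : ∀ k < m, Tch G (Y k) {v (ic k)} := fun k hk => by
    rw [← hYdef]; exact ((hα _ _).mp (hFi _ (hjcB k hk) _ (hicU k hk))).2
  have hZcc : ∀ k < m, Tch G (Z k) {v (cc k)} := fun k hk => by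
    have h1 := hWA _ (hjcB k hk) _ (hicU k hk)
    rw [hYdef, hZdef, hrA _ (hjcB' k hk)] at h1
    exact ((hα _ _).mp (h1 (hccA k hk))).2
  -- what `Y k` does not touch
  have hnotB : ∀ k < m, ∀ a ∈ J, a ≠ jc k → a ∉ τ (jc k) (Y k) → ¬ Tch G (Y k) (B a) := by
    intro k hk a haJ hane ha h
    exact ha ((hτ _ _ _).mpr ⟨⟨haJ, hane⟩, h⟩)
  have hnotj : ∀ k < m, ∀ l < m, k ≠ l → ¬ Tch G (Y k) (B (jc l)) := by
    intro k hk l hl hkl
    have hne : jc k ≠ jc l := fun h => hkl (hjcinj k hk l hl h)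
    apply hnotB k hk _ (hjcJ l hl) (Ne.symm hne)
    intro h
    rw [← hYdef] at h
    exact hT' _ (hjc k hk) _ (hjc l hl) hne ⟨ic k, hic k hk, h⟩
  have hnoti : ∀ k < m, ∀ l < m, k ≠ l → ¬ Tch G (Y k) {v (ic l)} := by
    intro k hk l hl hkl h
    have hne : ic k ≠ ic l := fun h => hkl (hicinj k hk l hl h)
    rw [← hYdef] at h
    exact hTj _ (hjcB' k hk) _ (hic k hk) _ (hic l hl) hne ((hα _ _).mpr ⟨hicP l hl, h⟩)
  have hnotc : ∀ k < m, ∀ l < m, ¬ Tch G (Y k) {v (cc l)} := by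
    intro k hk l hl h
    rw [← hYdef] at h
    exact hccF l hl _ (hjcB' k hk) _ (hic k hk) ((hα _ _).mpr ⟨hccP l hl, h⟩)
  -- fresh indices
  obtain ⟨fr, hfr, hfrinj⟩ := q3bAux.enum ((J \ T') \
      (Finset.range m).biUnion (fun k => τ (jc k) (Y k))) (m + m + N) (by
    have h1 := Finset.le_card_sdiff ((Finset.range m).biUnion (fun k => τ (jc k) (Y k))) (J \ T')
    have h2 := Finset.le_card_sdiff T' J
    have h4 : ((Finset.range m).biUnion (fun k => τ (jc k) (Y k))).card ≤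
        (Finset.range m).card * (4 * s) := by
      apply Finset.card_biUnion_le_card_mul
      intro k hk
      rw [Finset.mem_range] at hk
      rw [← hYdef]
      exact hFτ _ (hjcB k hk) _ (hicU k hk)
    rw [Finset.card_range] at h4
    omega)
  have hfr1 : ∀ x < m + m + N, fr x ∈ J := by
    intro x hx
    have h1 := hfr x hx
    rw [Finset.mem_sdiff, Finset.mem_sdiff] at h1
    exact h1.1.1
  have hfrj : ∀ x < m + m + N, ∀ k < m, jc k ≠ fr x := by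
    intro x hx k hk h
    have h1 := hfr x hx
    rw [Finset.mem_sdiff, Finset.mem_sdiff] at h1
    exact h1.1.2 (h ▸ hjc k hk)
  have hnotf : ∀ k < m, ∀ x < m + m + N, ¬ Tch G (Y k) (B (fr x)) := by
    intro k hk x hx
    apply hnotB k hk _ (hfr1 x hx) (Ne.symm (hfrj x hx k hk))
    intro h
    have h1 := hfr x hx
    rw [Finset.mem_sdiff] at h1
    exact h1.2 (Finset.mem_biUnion.mpr ⟨k, Finset.mem_range.mpr hk, h⟩)
  have hx1 : ∀ k < m, k < m + m + N := fun k hk => by omega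
  have hx2 : ∀ k < m, m + k < m + m + N := fun k hk => by omega
  have hx3 : ∀ x < N, m + m + x < m + m + N := fun x hx => by omega
  -- disjointness and touching of the pieces
  have dBB : ∀ a ∈ J, ∀ b ∈ J, a ≠ b → ∀ X ⊆ B a, ∀ X' ⊆ B b, Disjoint X X' := by
    intro a ha b hb hab X hX X' hX'
    exact (hMd a ha b hb hab).mono hX hX'
  have dBv : ∀ a ∈ J, ∀ c ∈ P, ∀ X ⊆ B a, Disjoint X {v c} := by
    intro a ha c hc X hX
    rw [Set.disjoint_singleton_right]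
    exact fun h => (hvB c hc a ha).1 (hX h)
  have dvv : ∀ c ∈ P, ∀ c' ∈ P, c ≠ c' → Disjoint ({v c} : Set V) {v c'} := by
    intro c hc c' hc' hne
    rw [Set.disjoint_singleton]
    exact fun h => hne (hvinj c hc c' hc' h)
  have hci : ∀ k < m, ∀ l < m, cc k ≠ ic l := by
    intro k hk l hl h
    have h1 := hccF k hk j₀ hj₀ (ic l) (hic l hl)
    rw [h] at h1
    exact h1 (hFi j₀ hj₀B _ (hTU (hic l hl)))
  apply hFree.2
  apply q3bAux.assemble (P := fun k => (Z k ∪ {v (cc k)}) ∪ B (fr k))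
    (Q := fun k => {v (ic k)} ∪ B (fr (m + k)))
    (E := fun x => B (fr (m + m + x))) (Y := Y) hDD
  · intro k hk
    exact ((hZc k hk).union (Conn.singleton G _) (Or.inr (hZcc k hk))).union
      (hMc _ (hfr1 k (hx1 k hk))) (Or.inr ((hvB _ (hccP k hk) _ (hfr1 k (hx1 k hk))).2.mono
        Set.subset_union_right subset_rfl))
  · intro k hk
    exact (Conn.singleton G _).union (hMc _ (hfr1 _ (hx2 k hk)))
      (Or.inr (hvB _ (hicP k hk) _ (hfr1 _ (hx2 k hk))).2)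
  · intro x hx
    exact hMc _ (hfr1 _ (hx3 x hx))
  · exact hYc
  · -- P P
    intro k hk l hl hkl
    have n1 : jc k ≠ jc l := fun h => hkl (hjcinj k hk l hl h)
    have n2 : fr k ≠ fr l := fun h => hkl (hfrinj k (hx1 k hk) l (hx1 l hl) h)
    have n3 : cc k ≠ cc l := fun h => hkl (hccinj k hk l hl h)
    have j1 := hjcJ k hk
    have j2 := hjcJ l hl
    have f1 := hfr1 k (hx1 k hk)
    have f2 := hfr1 l (hx1 l hl)
    constructor
    · simp only [Set.disjoint_union_left, Set.disjoint_union_right]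
      refine ⟨⟨⟨⟨?_, ?_⟩, ?_⟩, ⟨?_, ?_⟩, ?_⟩, ⟨?_, ?_⟩, ?_⟩
      · exact dBB _ j1 _ j2 n1 _ (hZB k hk) _ (hZB l hl)
      · exact (dBv _ j2 _ (hccP k hk) _ (hZB l hl)).symm
      · exact dBB _ f1 _ j2 (Ne.symm (hfrj k (hx1 k hk) l hl)) _ subset_rfl _ (hZB l hl)
      · exact dBv _ j1 _ (hccP l hl) _ (hZB k hk)
      · exact dvv _ (hccP k hk) _ (hccP l hl) n3
      · exact dBv _ f1 _ (hccP l hl) _ subset_rfl
      · exact dBB _ j1 _ f2 (hfrj l (hx1 l hl) k hk) _ (hZB k hk) _ subset_rfl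
      · exact (dBv _ f2 _ (hccP k hk) _ subset_rfl).symm
      · exact dBB _ f1 _ f2 n2 _ subset_rfl _ subset_rfl
    · exact (hMt _ f1 _ f2 n2).mono Set.subset_union_right Set.subset_union_right
  · -- P Q
    intro k hk l hl
    have n2 : fr k ≠ fr (m + l) := fun h => by
      have := hfrinj k (hx1 k hk) _ (hx2 l hl) h
      omega
    have j1 := hjcJ k hk
    have f1 := hfr1 k (hx1 k hk)
    have f2 := hfr1 _ (hx2 l hl)
    constructor
    · simp only [Set.disjoint_union_left, Set.disjoint_union_right]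
      refine ⟨⟨⟨?_, ?_⟩, ?_⟩, ⟨?_, ?_⟩, ?_⟩
      · exact dBv _ j1 _ (hicP l hl) _ (hZB k hk)
      · exact dvv _ (hccP k hk) _ (hicP l hl) (hci k hk l hl)
      · exact dBv _ f1 _ (hicP l hl) _ subset_rfl
      · exact dBB _ j1 _ f2 (hfrj _ (hx2 l hl) k hk) _ (hZB k hk) _ subset_rfl
      · exact (dBv _ f2 _ (hccP k hk) _ subset_rfl).symm
      · exact dBB _ f1 _ f2 n2 _ subset_rfl _ subset_rfl
    · exact (hMt _ f1 _ f2 n2).mono Set.subset_union_right Set.subset_union_right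
  · -- P E
    intro k hk x hx
    have n2 : fr k ≠ fr (m + m + x) := fun h => by
      have := hfrinj k (hx1 k hk) _ (hx3 x hx) h
      omega
    have j1 := hjcJ k hk
    have f1 := hfr1 k (hx1 k hk)
    have f2 := hfr1 _ (hx3 x hx)
    constructor
    · simp only [Set.disjoint_union_left]
      refine ⟨⟨?_, ?_⟩, ?_⟩
      · exact dBB _ j1 _ f2 (hfrj _ (hx3 x hx) k hk) _ (hZB k hk) _ subset_rfl
      · exact (dBv _ f2 _ (hccP k hk) _ subset_rfl).symm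
      · exact dBB _ f1 _ f2 n2 _ subset_rfl _ subset_rfl
    · exact (hMt _ f1 _ f2 n2).mono Set.subset_union_right subset_rfl
  · -- Q Q
    intro k hk l hl hkl
    have n1 : ic k ≠ ic l := fun h => hkl (hicinj k hk l hl h)
    have n2 : fr (m + k) ≠ fr (m + l) := fun h => by
      have := hfrinj _ (hx2 k hk) _ (hx2 l hl) h
      omega
    have f1 := hfr1 _ (hx2 k hk)
    have f2 := hfr1 _ (hx2 l hl)
    constructor
    · simp only [Set.disjoint_union_left, Set.disjoint_union_right]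
      refine ⟨⟨?_, ?_⟩, ?_, ?_⟩
      · exact dvv _ (hicP k hk) _ (hicP l hl) n1
      · exact dBv _ f1 _ (hicP l hl) _ subset_rfl
      · exact (dBv _ f2 _ (hicP k hk) _ subset_rfl).symm
      · exact dBB _ f1 _ f2 n2 _ subset_rfl _ subset_rfl
    · exact (hMt _ f1 _ f2 n2).mono Set.subset_union_right Set.subset_union_right
  · -- Q E
    intro k hk x hx
    have n2 : fr (m + k) ≠ fr (m + m + x) := fun h => by
      have := hfrinj _ (hx2 k hk) _ (hx3 x hx) h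
      omega
    have f1 := hfr1 _ (hx2 k hk)
    have f2 := hfr1 _ (hx3 x hx)
    constructor
    · simp only [Set.disjoint_union_left]
      refine ⟨?_, ?_⟩
      · exact (dBv _ f2 _ (hicP k hk) _ subset_rfl).symm
      · exact dBB _ f1 _ f2 n2 _ subset_rfl _ subset_rfl
    · exact (hMt _ f1 _ f2 n2).mono Set.subset_union_right subset_rfl
  · -- E E
    intro x hx y hy hxy
    have n2 : fr (m + m + x) ≠ fr (m + m + y) := fun h => by
      have := hfrinj _ (hx3 x hx) _ (hx3 y hy) h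
      omega
    have f1 := hfr1 _ (hx3 x hx)
    have f2 := hfr1 _ (hx3 y hy)
    exact ⟨hMd _ f1 _ f2 n2, hMt _ f1 _ f2 n2⟩
  · -- Y P
    intro k hk l hl
    have j1 := hjcJ k hk
    have j2 := hjcJ l hl
    have f2 := hfr1 l (hx1 l hl)
    constructor
    · simp only [Set.disjoint_union_right]
      refine ⟨⟨?_, ?_⟩, ?_⟩
      · by_cases hkl : k = l
        · subst hkl
          exact hYZ k
        · have n1 : jc k ≠ jc l := fun h => hkl (hjcinj k hk l hl h)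
          exact dBB _ j1 _ j2 n1 _ (hYB k hk) _ (hZB l hl)
      · exact dBv _ j1 _ (hccP l hl) _ (hYB k hk)
      · exact dBB _ j1 _ f2 (hfrj l (hx1 l hl) k hk) _ (hYB k hk) _ subset_rfl
    · constructor
      · rintro ⟨a, ha, b, (hb | hb) | hb, hab⟩
        · by_contra hkl
          exact hnotj k hk l hl hkl ⟨a, ha, b, hZB l hl hb, hab⟩
        · exact absurd ⟨a, ha, b, hb, hab⟩ (hnotc k hk l hl)
        · exact absurd ⟨a, ha, b, hb, hab⟩ (hnotf k hk l (hx1 l hl))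
      · rintro rfl
        exact (hYZt k hk).mono subset_rfl (Set.subset_union_left.trans Set.subset_union_left)
  · -- Y Q
    intro k hk l hl
    have j1 := hjcJ k hk
    have f2 := hfr1 _ (hx2 l hl)
    constructor
    · simp only [Set.disjoint_union_right]
      refine ⟨?_, ?_⟩
      · exact dBv _ j1 _ (hicP l hl) _ (hYB k hk)
      · exact dBB _ j1 _ f2 (hfrj _ (hx2 l hl) k hk) _ (hYB k hk) _ subset_rfl
    · constructor
      · rintro ⟨a, ha, b, hb | hb, hab⟩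
        · by_contra hkl
          exact hnoti k hk l hl hkl ⟨a, ha, b, hb, hab⟩
        · exact absurd ⟨a, ha, b, hb, hab⟩ (hnotf k hk _ (hx2 l hl))
      · rintro rfl
        exact (hYi k hk).mono subset_rfl Set.subset_union_left
  · -- Y E
    intro k hk x hx
    exact ⟨dBB _ (hjcJ k hk) _ (hfr1 _ (hx3 x hx)) (hfrj _ (hx3 x hx) k hk) _ (hYB k hk) _
      subset_rfl, hnotf k hk _ (hx3 x hx)⟩
  · -- Y Y
    intro k hk l hl hkl
    have n1 : jc k ≠ jc l := fun h => hkl (hjcinj k hk l hl h)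
    exact ⟨dBB _ (hjcJ k hk) _ (hjcJ l hl) n1 _ (hYB k hk) _ (hYB l hl), fun h =>
      hnotj k hk l hl hkl (h.mono subset_rfl (hYB l hl))⟩

end Pool.Agent.MPd439b2
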