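import Pool.Agent.Lib.MP_d439b2_co.B.SpecC
import Pool.Agent.Lib.MP_b6048d_co.Sep

/-!
# MP_d439b2_co, Theorem B, C2: rooted models inside the core
-/

set_option autoImplicit false

namespace Pool.Agent.MPd439b2
namespace rCAux

open Pool.Agent.Lib

theorem conn_list {V : Type} (G : SimpleGraph V) : ∀ (l : List V), l ≠ [] →
    l.IsChain G.Adj → Conn G {v | v ∈ l} := by
  intro l
  induction l with
  | nil => intro h; exact absurd rfl h
  | cons a t ih =>
    intro _ hc
    cases t with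
    | nil =>
      have h0 : {v | v ∈ [a]} = ({a} : Set V) := by ext v; simp
      rw [h0]; exact Conn.singleton G a
    | cons b t =>
      rw [List.isChain_cons_cons] at hc
      have h1 := ih (by simp) hc.2
      have h2 := h1.insert (v := a) ⟨b, by simp, hc.1.symm⟩
      have h0 : {v | v ∈ a :: b :: t} = insert a {v | v ∈ b :: t} := by ext v; simp
      rw [h0]; exact h2

theorem mem_of_chain {V : Type} [DecidableEq V] (G : SimpleGraph V) (W : Finset V) :
    ∀ (l : List V), l.IsChain (fun a b => (a, b) ∈ MP_b6048d_co.edg G W) →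
      (∀ a ∈ l.head?, a ∈ W) → ∀ v ∈ l, v ∈ W := by
  intro l
  induction l with
  | nil => intro _ _ v hv; simp at hv
  | cons a t ih =>
    intro hc hh v hv
    rcases List.mem_cons.1 hv with h | h
    · rw [h]; exact hh a rfl
    · cases t with
      | nil => simp at h
      | cons b t =>
        rw [List.isChain_cons_cons] at hc
        refine ih hc.2 ?_ v h
        intro c hcb
        have h1 : b = c := by simpa using hcb
        rw [← h1]
        exact (MP_b6048d_co.mem_edg.1 hc.1).1.2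

theorem sep_bound {V : Type} [Fintype V] [DecidableEq V] (G : SimpleGraph V) (Q A F : Set V)
    (q r : ℕ) (x : ℕ → V) (hL : Lnk G Q A q) (hinj : ∀ i < r, ∀ j < r, x i = x j → i = j)
    (hx : ∀ i < r, x i ∈ A ∧ x i ∉ F) (hr : r + F.ncard ≤ q + 1) (W Y : Finset V)
    (hW : ∀ v, v ∈ W ↔ v ∈ A ∧ v ∉ F) (hY : ∀ v, v ∈ Y ↔ v ∈ Q ∧ v ∉ F) (A' B' : Finset V)
    (hs : MP_b6048d_co.IsSep G W A' B') (hXA : (Finset.range r).image x ⊆ A') (hYB : Y ⊆ B') :
    r ≤ (A' ∩ B').card := by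
  classical
  by_contra hlt
  rw [not_le] at hlt
  have hcard : ((Finset.range r).image x).card = r := by
    rw [Finset.card_image_of_injOn, Finset.card_range]
    intro i hi j hj hij
    exact hinj i (by simpa using hi) j (by simpa using hj) hij
  obtain ⟨v, hv, hvn⟩ := Finset.exists_mem_notMem_of_card_lt_card
    (show (A' ∩ B').card < ((Finset.range r).image x).card by rw [hcard]; exact hlt)
  obtain ⟨i, hi, rfl⟩ := Finset.mem_image.1 hv
  have hi' : i < r := by simpa using hi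
  have hF' : (F ∪ ((A' ∩ B' : Finset V) : Set V)).ncard ≤ q := by
    have h1 := Set.ncard_union_le F ((A' ∩ B' : Finset V) : Set V)
    rw [Set.ncard_coe_finset] at h1
    omega
  obtain ⟨C, hC, hCA, hxC, z, hzC, hzQ⟩ := hL.2 _ hF' (x i) (hx i hi').1 (by
    rintro (h | h)
    · exact (hx i hi').2 h
    · exact hvn (by exact_mod_cast h))
  have hCF : ∀ v ∈ C, v ∉ F := fun v hv h => (hCA hv).2 (Or.inl h)
  have hCS : ∀ v ∈ C, v ∉ A' ∩ B' := fun v hv h => (hCA hv).2 (Or.inr (by exact_mod_cast h))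
  have hCW : ∀ v ∈ C, v ∈ A' ∪ B' := by
    intro v hv
    rw [hs.union, hW]
    exact ⟨(hCA hv).1, hCF v hv⟩
  have hxA' : x i ∈ A' := hXA hv
  have hDC : C ∩ {v | v ∈ A' ∧ v ∉ B'} = C := by
    have hne : (C ∩ {v | v ∈ A' ∧ v ∉ B'}).Nonempty :=
      ⟨x i, hxC, hxA', fun h => hvn (Finset.mem_inter.2 ⟨hxA', h⟩)⟩
    apply hC.eq_of_nb Set.inter_subset_left hne
    rintro v hvC ⟨hvD, a, ⟨haC, haA, haB⟩, hav⟩
    have h1 := hCW v hvC
    have h2 := hCS v hvC
    have hvB : v ∈ B' := by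
      by_contra hvB
      exact hvD ⟨hvC, (Finset.mem_union.1 h1).resolve_right hvB, hvB⟩
    have hvA : v ∉ A' := fun h => h2 (Finset.mem_inter.2 ⟨h, hvB⟩)
    exact hs.far a haA haB v hvB hvA hav
  have hzD : z ∈ C ∩ {v | v ∈ A' ∧ v ∉ B'} := by rw [hDC]; exact hzC
  exact hzD.2.2 (hYB ((hY z).2 ⟨hzQ, hCF z hzC⟩))

theorem link {V : Type} [Finite V] (G : SimpleGraph V) (Q A F : Set V) (q r : ℕ) (x : ℕ → V)
    (hL : Lnk G Q A q) (hx : ∀ i < r, x i ∈ A ∧ x i ∉ F)
    (hinj : ∀ i < r, ∀ j < r, x i = x j → i = j) (hr : r + F.ncard ≤ q + 1) :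
    ∃ (L : ℕ → Set V) (y : ℕ → V), ∀ i < r, Conn G (L i) ∧ L i ⊆ A \ F ∧ x i ∈ L i ∧
      y i ∈ L i ∧ y i ∈ Q ∧ (∀ v ∈ L i, v ∈ Q → v = y i) ∧
        ∀ j < r, i ≠ j → Disjoint (L i) (L j) := by
  classical
  have := Fintype.ofFinite V
  set W : Finset V := Finset.univ.filter (fun v => v ∈ A ∧ v ∉ F) with hWd
  set Y : Finset V := Finset.univ.filter (fun v => v ∈ Q ∧ v ∉ F) with hYd
  have hW : ∀ v, v ∈ W ↔ v ∈ A ∧ v ∉ F := fun v => by simp [hWd]
  have hY : ∀ v, v ∈ Y ↔ v ∈ Q ∧ v ∉ F := fun v => by simp [hYd]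
  have hXW : (Finset.range r).image x ⊆ W := by
    intro v hv
    obtain ⟨i, hi, rfl⟩ := Finset.mem_image.1 hv
    exact (hW _).2 (hx i (by simpa using hi))
  have hYW : Y ⊆ W := by
    intro v hv
    exact (hW v).2 ⟨hL.1 ((hY v).1 hv).1, ((hY v).1 hv).2⟩
  obtain ⟨P, hP, hPd⟩ := MP_b6048d_co.linked_of_sep hXW hYW r
    (fun A' B' hs h1 h2 => sep_bound G Q A F q r x hL hinj hx hr W Y hW hY A' B' hs h1 h2)
  -- truncation
  have htr : ∀ k : Fin r, ∃ (l : List V) (c : V), ∃ i : Fin r,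
      MP_2ce0dd_pr.IsABPath (MP_b6048d_co.edg G W) ((Finset.range r).image x) Y (l ++ [c]) ∧
      c ∈ Y ∧ (∀ v ∈ l, v ∉ Y) ∧ (∀ v ∈ l ++ [c], v ∈ P k) ∧ (l ++ [c]).head? = some (x i) := by
    intro k
    obtain ⟨l, c, h1, h2, h3, h4⟩ := MP_2ce0dd_pr.truncate_first (hP k)
    obtain ⟨a, ha, hh⟩ := h1.head
    obtain ⟨i, hi, rfl⟩ := Finset.mem_image.1 ha
    exact ⟨l, c, ⟨i, by simpa using hi⟩, h1, h2, h3, h4, hh⟩
  choose l c σ h1 h2 h3 h4 h5 using htr
  have hxmem : ∀ k, x (σ k) ∈ l k ++ [c k] := fun k => List.mem_of_head? (h5 k)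
  have hσ : Function.Injective σ := by
    intro k k' hkk
    by_contra hne
    have h6 := h4 k _ (hxmem k)
    have h7 := h4 k' _ (hxmem k')
    rw [← hkk] at h7
    exact hPd k k' hne h6 h7
  have hσs : Function.Surjective σ := Finite.surjective_of_injective hσ
  choose τ hτ using hσs
  have hmemW : ∀ k, ∀ v ∈ l k ++ [c k], v ∈ W := by
    intro k
    apply mem_of_chain G W _ (h1 k).chain
    intro a ha
    rw [h5 k] at ha
    have : x (σ k) = a := by simpa using ha
    rw [← this]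
    exact (hW _).2 (hx _ (σ k).2)
  refine ⟨fun i => if h : i < r then {v | v ∈ l (τ ⟨i, h⟩) ++ [c (τ ⟨i, h⟩)]} else ∅,
    fun i => if h : i < r then c (τ ⟨i, h⟩) else x 0, ?_⟩
  intro i hi
  simp only [hi, dite_true]
  refine ⟨?_, ?_, ?_, ?_, ?_, ?_, ?_⟩
  · apply conn_list G _ (by simp)
    exact (h1 _).chain.imp fun a b hab => (MP_b6048d_co.mem_edg.1 hab).2
  · intro v hv
    exact (hW v).1 (hmemW _ v hv)
  · have h6 := hxmem (τ ⟨i, hi⟩)
    rw [hτ ⟨i, hi⟩] at h6
    exact h6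
  · simp
  · exact ((hY _).1 (h2 _)).1
  · intro v hv hvQ
    have hvW := (hW v).1 (hmemW _ v hv)
    have hvY : v ∈ Y := (hY v).2 ⟨hvQ, hvW.2⟩
    rcases List.mem_append.1 hv with h | h
    · exact absurd hvY (h3 _ v h)
    · simpa using h
  · intro j hj hij
    simp only [hj, dite_true]
    rw [Set.disjoint_left]
    intro v hv hv'
    have hne : τ ⟨i, hi⟩ ≠ τ ⟨j, hj⟩ := by
      intro h
      have := congrArg σ h
      rw [hτ, hτ] at this
      exact hij (Fin.mk.inj_iff.1 this)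
    exact hPd _ _ hne (h4 _ v hv) (h4 _ v hv')

theorem fresh {V : Type} [Finite V] (S : Set V) (k : ℕ) (h : k ≤ S.ncard) (v0 : V) :
    ∃ a : ℕ → V, (∀ i < k, a i ∈ S) ∧ ∀ i < k, ∀ j < k, a i = a j → i = j := by
  classical
  have := Fintype.ofFinite V
  have hc : S.toFinset.card = S.ncard := (Set.ncard_eq_toFinset_card' S).symm
  rw [← hc] at h
  let e := S.toFinset.equivFin
  refine ⟨fun i => if hi : i < S.toFinset.card then (e.symm ⟨i, hi⟩).1 else v0, ?_, ?_⟩
  · intro i hi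
    have hi' : i < S.toFinset.card := lt_of_lt_of_le hi h
    simp only [hi', dite_true]
    exact Set.mem_toFinset.1 (e.symm ⟨i, hi'⟩).2
  · intro i hi j hj hij
    have hi' : i < S.toFinset.card := lt_of_lt_of_le hi h
    have hj' : j < S.toFinset.card := lt_of_lt_of_le hj h
    simp only [hi', hj', dite_true] at hij
    have h1 := e.symm.injective (Subtype.ext hij)
    exact Fin.mk.inj_iff.1 h1

theorem fresh_avoid {V : Type} [Finite V] (S Z : Set V) (k m : ℕ) (hS : m ≤ S.ncard)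
    (hZ : Z.ncard + k ≤ m) (v0 : V) :
    ∃ a : ℕ → V, (∀ i < k, a i ∈ S ∧ a i ∉ Z) ∧ ∀ i < k, ∀ j < k, a i = a j → i = j := by
  have h1 : k ≤ (S \ Z).ncard := by
    have := Set.le_ncard_sdiff Z S (Set.toFinite _)
    omega
  obtain ⟨a, ha, hb⟩ := fresh (S \ Z) k h1 v0
  exact ⟨a, fun i hi => ha i hi, hb⟩

end rCAux

open rCAux in
/-- **C2.** Rooted models inside the core. -/
theorem rC : S_RC := by
  classical
  intro V _ G Q₁ Q₂ A q n hB hL r N x F hx hinj hFA hr hn
  obtain ⟨L, y, hLy⟩ := link G (Q₁ ∪ Q₂) A F q r x hL hx hinj hr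
  set Z : Set V := F ∪ (((Finset.range r).image y : Finset V) : Set V) with hZ
  have hZc : Z.ncard + (r + N) ≤ n := by
    have h1 := Set.ncard_union_le F (((Finset.range r).image y : Finset V) : Set V)
    rw [Set.ncard_coe_finset, ← hZ] at h1
    have h2 : ((Finset.range r).image y).card ≤ r := by
      have := Finset.card_image_le (s := Finset.range r) (f := y)
      simpa using this
    omega
  have hyZ : ∀ i < r, y i ∈ Z := by
    intro i hi
    right
    exact_mod_cast Finset.mem_image_of_mem y (Finset.mem_range.2 hi)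
  obtain ⟨a, ha, hai⟩ := fresh_avoid Q₁ Z (r + N) n hB.2.1 hZc (x 0)
  obtain ⟨b, hb, hbi⟩ := fresh_avoid Q₂ Z (r + N) n hB.2.2.1 hZc (x 0)
  have haL : ∀ i < r + N, ∀ j < r, a i ∉ L j := by
    intro i hi j hj h
    have := (hLy j hj).2.2.2.2.2.1 (a i) h (Or.inl (ha i hi).1)
    exact (ha i hi).2 (this ▸ hyZ j hj)
  have hbL : ∀ i < r + N, ∀ j < r, b i ∉ L j := by
    intro i hi j hj h
    have := (hLy j hj).2.2.2.2.2.1 (b i) h (Or.inr (hb i hi).1)
    exact (hb i hi).2 (this ▸ hyZ j hj)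
  have hab : ∀ i < r + N, ∀ j < r + N, a i ≠ b j := by
    intro i hi j hj h
    exact Set.disjoint_left.1 hB.1 (ha i hi).1 (h ▸ (hb j hj).1)
  have hadj : ∀ i < r + N, ∀ j < r + N, G.Adj (a i) (b j) := fun i hi j hj =>
    hB.2.2.2 _ (ha i hi).1 _ (hb j hj).1
  set L' : ℕ → Set V := fun i => if i < r then L i else ∅ with hL'
  set X : ℕ → Set V := fun i => if i < r then (if y i ∈ Q₁ then L i ∪ {b i} else L i ∪ {a i})
    else {a i, b i} with hX
  have hXsub : ∀ i, X i ⊆ L' i ∪ {a i, b i} := by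
    intro i v hv
    by_cases hi : i < r
    · by_cases hy : y i ∈ Q₁
      · simp only [hX, hL', hi, hy, if_true] at hv ⊢
        rcases hv with hv | hv
        · exact Or.inl hv
        · exact Or.inr (Or.inr hv)
      · simp only [hX, hL', hi, hy, if_true, if_false] at hv ⊢
        rcases hv with hv | hv
        · exact Or.inl hv
        · exact Or.inr (Or.inl hv)
    · simp only [hX, hL', hi, if_false] at hv ⊢
      exact Or.inr hv
  have hconn : ∀ i < r + N, Conn G (X i) ∧ (∃ u ∈ X i, u ∈ Q₁) ∧ ∃ w ∈ X i, w ∈ Q₂ := by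
    intro i hi
    by_cases hir : i < r
    · obtain ⟨c1, c2, c3, c4, c5, c6, c7⟩ := hLy i hir
      by_cases hy : y i ∈ Q₁
      · simp only [hX, hir, hy, if_true]
        refine ⟨?_, ⟨y i, Or.inl c4, hy⟩, ⟨b i, Or.inr rfl, (hb i hi).1⟩⟩
        exact c1.union (Conn.singleton G _) (Or.inr ⟨y i, c4, b i, rfl,
          hB.2.2.2 _ hy _ (hb i hi).1⟩)
      · have hy2 : y i ∈ Q₂ := c5.resolve_left hy
        simp only [hX, hir, hy, if_true, if_false]
        refine ⟨?_, ⟨a i, Or.inr rfl, (ha i hi).1⟩, ⟨y i, Or.inl c4, hy2⟩⟩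
        exact c1.union (Conn.singleton G _) (Or.inr ⟨y i, c4, a i, rfl,
          (hB.2.2.2 _ (ha i hi).1 _ hy2).symm⟩)
    · simp only [hX, hir, if_false]
      exact ⟨Conn.pair (hadj i hi i hi), ⟨a i, Or.inl rfl, (ha i hi).1⟩,
        ⟨b i, Or.inr rfl, (hb i hi).1⟩⟩
  have hL'd : ∀ i j, i ≠ j → Disjoint (L' i) (L' j) := by
    intro i j hij
    simp only [hL']
    by_cases hi : i < r
    · by_cases hj : j < r
      · simp only [hi, hj, if_true]
        exact (hLy i hi).2.2.2.2.2.2 j hj hij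
      · simp [hj]
    · simp [hi]
  have haL' : ∀ i < r + N, ∀ j, a i ∉ L' j := by
    intro i hi j h
    by_cases hj : j < r
    · simp only [hL', hj, if_true] at h
      exact haL i hi j hj h
    · simp only [hL', hj, if_false] at h
      exact h
  have hbL' : ∀ i < r + N, ∀ j, b i ∉ L' j := by
    intro i hi j h
    by_cases hj : j < r
    · simp only [hL', hj, if_true] at h
      exact hbL i hi j hj h
    · simp only [hL', hj, if_false] at h
      exact h
  refine ⟨X, ⟨fun i hi => (hconn i (Finset.mem_range.1 hi)).1, ?_⟩, ?_, ?_⟩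
  · intro i hi j hj hij
    rw [Finset.mem_range] at hi hj
    refine ⟨?_, ?_⟩
    · rw [Set.disjoint_left]
      intro v hv hv'
      rcases hXsub i hv with h | h | h <;> rcases hXsub j hv' with h' | h' | h'
      · exact Set.disjoint_left.1 (hL'd i j hij) h h'
      · exact haL' j hj i (h' ▸ h)
      · exact hbL' j hj i (h' ▸ h)
      · exact haL' i hi j (h ▸ h')
      · exact hij (hai i hi j hj (h.symm.trans h'))
      · exact hab i hi j hj (h.symm.trans h')
      · exact hbL' i hi j (h ▸ h')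
      · exact hab j hj i hi (h'.symm.trans h)
      · exact hij (hbi i hi j hj (h.symm.trans h'))
    · obtain ⟨u, hu, huQ⟩ := (hconn i hi).2.1
      obtain ⟨w, hw, hwQ⟩ := (hconn j hj).2.2
      exact ⟨u, hu, w, hw, hB.2.2.2 u huQ w hwQ⟩
  · intro i hi v hv
    rcases hXsub i hv with h | h | h
    · by_cases hir : i < r
      · simp only [hL', hir, if_true] at h
        exact (hLy i hir).2.1 h
      · simp only [hL', hir, if_false] at h
        exact absurd h (Set.notMem_empty v)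
    · rw [h]
      exact ⟨hL.1 (Or.inl (ha i hi).1), fun hF => (ha i hi).2 (Or.inl hF)⟩
    · rw [Set.mem_singleton_iff.1 h]
      exact ⟨hL.1 (Or.inr (hb i hi).1), fun hF => (hb i hi).2 (Or.inl hF)⟩
  · intro i hi
    have h1 := (hLy i hi).2.2.1
    by_cases hy : y i ∈ Q₁
    · simp only [hX, hi, hy, if_true]
      exact Or.inl h1
    · simp only [hX, hi, hy, if_true, if_false]
      exact Or.inl h1

end Pool.Agent.MPd439b2
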