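import Pool.Agent.Lib.MP_d439b2_co.B.SpecK

/-!
# MP_d439b2_co, Theorem B, module Ram: Ramsey's theorem for pairs
-/

set_option autoImplicit false

namespace Pool.Agent.MPd439b2

namespace ramAux

theorem step {α : Type} (S : Finset α) (E : α → α → Prop) (hE : ∀ x y, E x y → E y x) (a b n1 n2 : ℕ)
    (h1 : ∀ S : Finset α, n1 ≤ S.card → (∃ T ⊆ S, T.card = a ∧ ∀ x ∈ T, ∀ y ∈ T, x ≠ y → E x y) ∨
      ∃ T ⊆ S, T.card = b + 1 ∧ ∀ x ∈ T, ∀ y ∈ T, x ≠ y → ¬ E x y)
    (h2 : ∀ S : Finset α, n2 ≤ S.card → (∃ T ⊆ S, T.card = a + 1 ∧ ∀ x ∈ T, ∀ y ∈ T, x ≠ y → E x y) ∨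
      ∃ T ⊆ S, T.card = b ∧ ∀ x ∈ T, ∀ y ∈ T, x ≠ y → ¬ E x y)
    (hS : n1 + n2 + 1 ≤ S.card) :
    (∃ T ⊆ S, T.card = a + 1 ∧ ∀ x ∈ T, ∀ y ∈ T, x ≠ y → E x y) ∨
      ∃ T ⊆ S, T.card = b + 1 ∧ ∀ x ∈ T, ∀ y ∈ T, x ≠ y → ¬ E x y := by
  classical
  obtain ⟨x, hx⟩ : S.Nonempty := by
    rw [← Finset.card_pos]
    omega
  have hc := Finset.card_filter_add_card_filter_not (s := S.erase x) (fun y => E x y)
  have hce := Finset.card_erase_of_mem hx
  have hcases : n1 ≤ ((S.erase x).filter (fun y => E x y)).card ∨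
      n2 ≤ ((S.erase x).filter (fun y => ¬ E x y)).card := by omega
  rcases hcases with h | h
  · rcases h1 _ h with ⟨T, hT, hTc, hTE⟩ | ⟨T, hT, hTc, hTE⟩
    · left
      have hxT : x ∉ T := by
        intro hxT
        have := hT hxT
        simp at this
      refine ⟨insert x T, ?_, ?_, ?_⟩
      · intro y hy
        rcases Finset.mem_insert.1 hy with rfl | hy
        · exact hx
        · exact Finset.mem_of_mem_erase (Finset.mem_filter.1 (hT hy)).1
      · rw [Finset.card_insert_of_notMem hxT, hTc]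
      · intro y hy z hz hyz
        rcases Finset.mem_insert.1 hy with rfl | hy1 <;> rcases Finset.mem_insert.1 hz with rfl | hz1
        · exact absurd rfl hyz
        · exact (Finset.mem_filter.1 (hT hz1)).2
        · exact hE _ _ (Finset.mem_filter.1 (hT hy1)).2
        · exact hTE y hy1 z hz1 hyz
    · right
      exact ⟨T, fun y hy => Finset.mem_of_mem_erase (Finset.mem_filter.1 (hT hy)).1, hTc, hTE⟩
  · rcases h2 _ h with ⟨T, hT, hTc, hTE⟩ | ⟨T, hT, hTc, hTE⟩
    · left
      exact ⟨T, fun y hy => Finset.mem_of_mem_erase (Finset.mem_filter.1 (hT hy)).1, hTc, hTE⟩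
    · right
      have hxT : x ∉ T := by
        intro hxT
        have := hT hxT
        simp at this
      refine ⟨insert x T, ?_, ?_, ?_⟩
      · intro y hy
        rcases Finset.mem_insert.1 hy with rfl | hy
        · exact hx
        · exact Finset.mem_of_mem_erase (Finset.mem_filter.1 (hT hy)).1
      · rw [Finset.card_insert_of_notMem hxT, hTc]
      · intro y hy z hz hyz
        rcases Finset.mem_insert.1 hy with rfl | hy1 <;> rcases Finset.mem_insert.1 hz with rfl | hz1
        · exact absurd rfl hyz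
        · exact (Finset.mem_filter.1 (hT hz1)).2
        · exact fun h => (Finset.mem_filter.1 (hT hy1)).2 (hE _ _ h)
        · exact hTE y hy1 z hz1 hyz

end ramAux

theorem ram : S_Ram := by
  intro a
  induction a with
  | zero =>
    intro b
    exact ⟨0, fun α S E _ _ => Or.inl ⟨∅, Finset.empty_subset _, rfl, by simp⟩⟩
  | succ a iha =>
    intro b
    induction b with
    | zero => exact ⟨0, fun α S E _ _ => Or.inr ⟨∅, Finset.empty_subset _, rfl, by simp⟩⟩
    | succ b ihb =>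
      obtain ⟨n1, hn1⟩ := iha (b + 1)
      obtain ⟨n2, hn2⟩ := ihb
      refine ⟨n1 + n2 + 1, fun α S E hE hS => ?_⟩
      exact ramAux.step S E hE a b n1 n2 (fun S hS => hn1 α S E hE hS) (fun S hS => hn2 α S E hE hS) hS

end Pool.Agent.MPd439b2
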