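import Pool.Agent.Lib.MP_d439b2_co.B.SpecR

/-!
# MP_d439b2_co, Theorem B, module Rec: the recursion
-/

set_option autoImplicit false

namespace Pool.Agent.MPd439b2

namespace recBAux

variable {V : Type}

theorem hasNb_KP (s : ℕ) : ∀ w, ∃ w', (KP s).Adj w w' := by
  intro w
  rcases w with i | i
  · exact ⟨Sum.inr 0, trivial⟩
  · by_cases h : i.val = 0
    · refine ⟨Sum.inr ⟨1, by omega⟩, ?_⟩
      change i.val = 1 + 1 ∨ 1 = i.val + 1
      omega
    · refine ⟨Sum.inr ⟨i.val - 1, by omega⟩, ?_⟩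
      change i.val = (i.val - 1) + 1 ∨ i.val - 1 = i.val + 1
      omega

theorem hasNb_DD {N m : ℕ} (hN : 2 ≤ N) (hm : 2 * m ≤ N) : ∀ w, ∃ w', (DD N m).Adj w w' := by
  intro w
  rcases w with i | i
  · by_cases h : i.val = 0
    · refine ⟨Sum.inl ⟨1, by omega⟩, ?_⟩
      change i ≠ ⟨1, _⟩
      intro h'
      rw [h'] at h
      simp at h
    · refine ⟨Sum.inl ⟨0, by omega⟩, ?_⟩
      change i ≠ ⟨0, _⟩
      intro h'
      rw [h'] at h
      simp at h
  · refine ⟨Sum.inl ⟨2 * i.val, by omega⟩, ?_⟩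
    exact Or.inl rfl

theorem hasNb_grid {r : ℕ} (hr : 2 ≤ r) : ∀ w, ∃ w', (grid r).Adj w w' := by
  rintro ⟨i, j⟩
  by_cases h : j.val = 0
  · refine ⟨(i, ⟨1, by omega⟩), Or.inl ⟨rfl, ?_⟩⟩
    change j.val = 1 + 1 ∨ 1 = j.val + 1
    omega
  · refine ⟨(i, ⟨j.val - 1, by omega⟩), Or.inl ⟨rfl, ?_⟩⟩
    change j.val = (j.val - 1) + 1 ∨ j.val - 1 = j.val + 1
    omega

theorem types_le [Finite V] {G : SimpleGraph V} {A E : Set V} {k n : ℕ} (h : nb G A ⊆ E)
    (hE : E.ncard ≤ n) (hk : 2 ^ n ≤ k) : (Types G A).encard ≤ k := by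
  have h1 : (nb G A).ncard ≤ n := (Set.ncard_le_ncard h (Set.toFinite _)).trans hE
  refine (types_encard_le h1).trans ?_
  have : 2 ^ n - 1 ≤ k := (Nat.sub_le _ _).trans hk
  exact_mod_cast this

theorem lay_add [Finite V] {G : SimpleGraph V} {k : ℕ} (hk : 1 ≤ k) {A Z : Set V}
    (hA : Lay G k A) (hd : Disjoint A Z)
    (ht : ∀ Z' ⊆ Z, (Types G (A ∪ Z')).encard ≤ k) : Lay G k (A ∪ Z) := by
  have key : ∀ Z' : Set V, Z' ⊆ Z → Lay G k (A ∪ Z') := by
    intro Z' hZ'
    induction Z', (Set.toFinite Z') using Set.Finite.induction_on with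
    | empty => rw [Set.union_empty]; exact hA
    | @insert a s has _ ih =>
      have h1 := ih ((Set.subset_insert _ _).trans hZ')
      have h2 : A ∪ insert a s = insert a (A ∪ s) := Set.union_insert
      rw [h2]
      refine h1.insert hk ?_ ?_
      · rintro (h | h)
        · exact Set.disjoint_left.mp hd h (hZ' (Set.mem_insert _ _))
        · exact has h
      · rw [← h2]; exact ht _ hZ'
  exact key Z le_rfl

theorem claim (hL : S_LayD) (hR : S_Restr) {s N m r θ τ : ℕ} (hN : 2 ≤ N) (hm : 2 * m ≤ N)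
    (hr : 2 ≤ r)
    (hDG : ∀ (V : Type) [Finite V] (G : SimpleGraph V) (S : Set V), WL G S θ →
      5 * θ ≤ S.ncard → Free s N m G → ¬ IMS (grid r) G Set.univ →
      ∃ A T : Set V, T.ncard ≤ τ ∧ Disjoint A T ∧ P4Free G A ∧
        ∀ D, IsComp G (A ∪ T)ᶜ D → (nb G D ∩ A).ncard ≤ 1 ∧ 2 * (S ∩ D).ncard ≤ S.ncard)
    [Finite V] (G : SimpleGraph V) (hF : Free s N m G) (hG : ¬ IMS (grid r) G Set.univ)
    (q k : ℕ) (hq : q = 5 * θ + 2 * τ + 3) (hk : k = 2 ^ (q + θ + τ + 2)) :
    ∀ (n : ℕ) (U S : Set V), U.ncard = n → Disjoint U S → nb G U ⊆ S → S.ncard ≤ q →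
      Lay G k U := by
  intro n
  induction n using Nat.strong_induction_on with
  | _ n ih =>
  intro U S hU hd hn hS
  have hk1 : 1 ≤ k := by rw [hk]; exact Nat.one_le_two_pow
  have hpow : ∀ e : ℕ, e ≤ q + θ + τ + 2 → 2 ^ e ≤ k := by
    intro e he
    rw [hk]
    exact Nat.pow_le_pow_right (by norm_num) he
  have hM : ∀ U' S' : Set V, U'.ncard ≤ n → Disjoint U' S' → nb G U' ⊆ S' → S'.ncard < q →
      Lay G k U' := by
    intro U' S' hU' hd' hn' hS'
    rcases U'.eq_empty_or_nonempty with h0 | ⟨v, hv⟩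
    · rw [h0]; exact Lay.empty
    have h1 : (U' \ {v}).ncard + 1 = U'.ncard :=
      Set.ncard_sdiff_singleton_add_one hv (Set.toFinite _)
    have h2 : Lay G k (U' \ {v}) := by
      refine ih (U' \ {v}).ncard (by omega) (U' \ {v}) (insert v S') rfl ?_ ?_ ?_
      · rw [Set.disjoint_left]
        rintro x ⟨hx1, hx2⟩ hx3
        rcases hx3 with hx3 | hx3
        · exact hx2 hx3
        · exact Set.disjoint_left.mp hd' hx1 hx3
      · rintro x ⟨hx1, a, ha, hax⟩
        by_cases hxv : x = v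
        · exact Or.inl hxv
        · right
          apply hn'
          exact ⟨fun h => hx1 ⟨h, hxv⟩, a, ha.1, hax⟩
      · have := Set.ncard_insert_le v S'
        omega
    have h3 : insert v (U' \ {v}) = U' := by
      ext x
      constructor
      · rintro (h | h)
        · rw [h]; exact hv
        · exact h.1
      · intro h
        by_cases hx : x = v
        · exact Or.inl hx
        · exact Or.inr ⟨h, hx⟩
    have h4 := h2.insert hk1 (v := v) (fun h => h.2 rfl)
      (by rw [h3]; exact types_le hn' hS'.le (hpow _ (by omega)))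
    rwa [h3] at h4
  by_cases hSq : S.ncard < q
  · exact hM U S hU.le hd hn hSq
  have hSq' : S.ncard = q := by omega
  -- the restricted graph
  have hG' : ¬ IMS (grid r) (restr G (U ∪ S)) Set.univ := fun h =>
    hG (hR _ _ G (grid r) (U ∪ S) (hasNb_grid hr) h)
  have hF' : Free s N m (restr G (U ∪ S)) :=
    ⟨fun h => hF.1 (hR _ _ G (KP s) (U ∪ S) (hasNb_KP s) h),
      fun h => hF.2 (hR _ _ G (DD N m) (U ∪ S) (hasNb_DD hN hm) h)⟩
  have hnbU : ∀ u ∈ U, ∀ v, G.Adj u v → v ∈ U ∪ S := by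
    intro u hu v huv
    by_cases hv : v ∈ U
    · exact Or.inl hv
    · exact Or.inr (hn ⟨hv, u, hu, huv⟩)
  by_cases hWL : WL (restr G (U ∪ S)) S θ
  · -- CASE 2
    obtain ⟨A, T, hT, hAT, hP4, hD⟩ := hDG V (restr G (U ∪ S)) S hWL (by omega) hF' hG'
    refine hL V G k U S (A ∩ (U ∪ S)) (T ∩ (U ∪ S)) hd hn Set.inter_subset_right ?_ ?_ ?_ ?_
    · exact hAT.mono Set.inter_subset_left Set.inter_subset_left
    · intro a ha b hb c hc d hd' hab hbc hcd hac hbd
      exact (hP4 a ha.1 b hb.1 c hc.1 d hd'.1 ⟨hab, ha.2, hb.2⟩ ⟨hbc, hb.2, hc.2⟩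
        ⟨hcd, hc.2, hd'.2⟩ (fun h => hac h.1) (fun h => hbd h.1)).1
    · have h1 : (T ∩ (U ∪ S)).ncard ≤ T.ncard :=
        Set.ncard_le_ncard Set.inter_subset_left (Set.toFinite _)
      exact hpow _ (by omega)
    · intro D hDc
      obtain ⟨hD1, hD2, hD3⟩ := hDc
      have hDX : ∀ x ∈ D, x ∈ U ∪ S := fun x hx => (hD1 hx).1
      have hcomp : IsComp (restr G (U ∪ S)) (A ∪ T)ᶜ D := by
        refine ⟨?_, ?_, ?_⟩
        · intro x hx hxAT
          apply (hD1 hx).2
          rcases hxAT with h | h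
          · exact Or.inl ⟨h, hDX x hx⟩
          · exact Or.inr ⟨h, hDX x hx⟩
        · exact hD2.mono_graph fun u hu v hv huv => ⟨huv, hDX u hu, hDX v hv⟩
        · rintro u hu ⟨hu1, a, ha, hau⟩
          refine hD3 u ⟨hau.2.2, ?_⟩ ⟨hu1, a, ha, hau.1⟩
          rintro (h | h)
          · exact hu (Or.inl h.1)
          · exact hu (Or.inr h.1)
      obtain ⟨hD4, hD5⟩ := hD D hcomp
      have hsub : nb G D ∩ (A ∩ (U ∪ S)) ⊆ nb (restr G (U ∪ S)) D ∩ A := by
        rintro x ⟨⟨hx1, a, ha, hax⟩, hx2, hx3⟩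
        exact ⟨⟨hx1, a, ha, hax, hDX a ha, hx3⟩, hx2⟩
      refine ⟨(Set.ncard_le_ncard hsub (Set.toFinite _)).trans hD4, ?_⟩
      refine hM (U ∩ D) ((S ∩ D) ∪ nb (restr G (U ∪ S)) D) ?_ ?_ ?_ ?_
      · rw [← hU]
        exact Set.ncard_le_ncard Set.inter_subset_left (Set.toFinite _)
      · rw [Set.disjoint_left]
        rintro x ⟨hx1, hx2⟩ (hx3 | hx3)
        · exact Set.disjoint_left.mp hd hx1 hx3.1
        · exact hx3.1 hx2
      · rintro x ⟨hx1, a, ha, hax⟩
        have hxX := hnbU a ha.1 x hax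
        by_cases hxD : x ∈ D
        · left
          refine ⟨?_, hxD⟩
          rcases hxX with h | h
          · exact absurd ⟨h, hxD⟩ hx1
          · exact h
        · right
          exact ⟨hxD, a, ha.2, hax, hDX a ha.2, hxX⟩
      · have h1 : nb (restr G (U ∪ S)) D ⊆ (nb (restr G (U ∪ S)) D ∩ A) ∪ T := by
          intro x hx
          by_cases hxA : x ∈ A
          · exact Or.inl ⟨hx, hxA⟩
          · by_cases hxT : x ∈ T
            · exact Or.inr hxT
            · exfalso
              exact hcomp.2.2 x (fun h => h.elim hxA hxT) hx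
        have h2 := Set.ncard_le_ncard h1 (Set.toFinite _)
        have h3 := Set.ncard_union_le (nb (restr G (U ∪ S)) D ∩ A) T
        have h4 := Set.ncard_union_le (S ∩ D) (nb (restr G (U ∪ S)) D)
        omega
  · -- CASE 1
    unfold WL at hWL
    push Not at hWL
    obtain ⟨P, Z, R, hun, hPZ, hZR, hPR, hno, hZ, hSP, hSR⟩ := hWL
    have hcase : ∀ x, x ∈ P ∨ x ∈ Z ∨ x ∈ R := by
      intro x
      have hx : x ∈ P ∪ Z ∪ R := by rw [hun]; exact Set.mem_univ x
      rcases hx with (h | h) | h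
      · exact Or.inl h
      · exact Or.inr (Or.inl h)
      · exact Or.inr (Or.inr h)
    have hsum : (S ∩ P).ncard + (S ∩ R).ncard ≤ q := by
      rw [← hSq', ← Set.ncard_union_eq (hPR.mono Set.inter_subset_right Set.inter_subset_right)
        (Set.toFinite _) (Set.toFinite _)]
      exact Set.ncard_le_ncard (Set.union_subset Set.inter_subset_left Set.inter_subset_left)
        (Set.toFinite _)
    -- a side of the separation
    have side : ∀ P' R' : Set V, (∀ x, x ∈ P' ∨ x ∈ Z ∨ x ∈ R') → Disjoint P' Z →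
        (∀ p ∈ P', ∀ r ∈ R', ¬ (restr G (U ∪ S)).Adj p r) →
        (S ∩ P').ncard + Z.ncard < q → Lay G k (U ∩ P') := by
      intro P' R' hc hPZ' hno' hcard
      refine hM (U ∩ P') ((S ∩ P') ∪ Z) ?_ ?_ ?_ ?_
      · rw [← hU]
        exact Set.ncard_le_ncard Set.inter_subset_left (Set.toFinite _)
      · rw [Set.disjoint_left]
        rintro x ⟨hx1, hx2⟩ (hx3 | hx3)
        · exact Set.disjoint_left.mp hd hx1 hx3.1
        · exact Set.disjoint_left.mp hPZ' hx2 hx3
      · rintro x ⟨hx1, a, ha, hax⟩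
        have hxX := hnbU a ha.1 x hax
        rcases hc x with h | h | h
        · left
          refine ⟨?_, h⟩
          rcases hxX with h' | h'
          · exact absurd ⟨h', h⟩ hx1
          · exact h'
        · exact Or.inr h
        · exfalso
          exact hno' a ha.2 x h ⟨hax, Or.inl ha.1, hxX⟩
      · have := Set.ncard_union_le (S ∩ P') Z
        omega
    have hL1 : Lay G k (U ∩ P) := side P R hcase hPZ hno (by omega)
    have hL2 : Lay G k (U ∩ R) := side R P
      (fun x => by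
        rcases hcase x with h | h | h
        · exact Or.inr (Or.inr h)
        · exact Or.inr (Or.inl h)
        · exact Or.inl h)
      hZR.symm (fun p hp r' hr' h => hno r' hr' p hp h.symm) (by omega)
    have htyp : ∀ Z' ⊆ U ∩ Z, (Types G ((U ∩ P) ∪ (U ∩ R) ∪ Z')).encard ≤ k := by
      intro Z' hZ'
      refine types_le (E := S ∪ Z) (n := q + θ) ?_ ?_ (hpow _ (by omega))
      · rintro x ⟨hx1, a, ha, hax⟩
        have haU : a ∈ U := by
          rcases ha with (h | h) | h
          · exact h.1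
          · exact h.1
          · exact (hZ' h).1
        have hxX := hnbU a haU x hax
        rcases hxX with h | h
        · rcases hcase x with h' | h' | h'
          · exact absurd (Or.inl (Or.inl ⟨h, h'⟩)) hx1
          · exact Or.inr h'
          · exact absurd (Or.inl (Or.inr ⟨h, h'⟩)) hx1
        · exact Or.inl h
      · have := Set.ncard_union_le S Z
        omega
    have hL3 : Lay G k ((U ∩ P) ∪ (U ∩ R)) := by
      refine Lay.union hL1 hL2 (hPR.mono Set.inter_subset_right Set.inter_subset_right) ?_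
      have := htyp ∅ (Set.empty_subset _)
      rwa [Set.union_empty] at this
    have hL4 := lay_add hk1 hL3 (Z := U ∩ Z) (by
      rw [Set.disjoint_left]
      rintro x (hx | hx) hx'
      · exact Set.disjoint_left.mp hPZ hx.2 hx'.2
      · exact Set.disjoint_left.mp hZR hx'.2 hx.2) htyp
    have hfin : (U ∩ P) ∪ (U ∩ R) ∪ (U ∩ Z) = U := by
      ext x
      constructor
      · rintro ((h | h) | h)
        · exact h.1
        · exact h.1
        · exact h.1
      · intro h
        rcases hcase x with h' | h' | h'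
        · exact Or.inl (Or.inl ⟨h, h'⟩)
        · exact Or.inr ⟨h, h'⟩
        · exact Or.inl (Or.inr ⟨h, h'⟩)
    rwa [hfin] at hL4

end recBAux

open recBAux in
theorem recB : (S_LayD) → (S_Restr) → S_Rec := by
  intro hL hR hDG s N m r hN hm hr
  obtain ⟨θ, τ, h⟩ := hDG s N m r
  refine ⟨2 ^ ((5 * θ + 2 * τ + 3) + θ + τ + 2), fun V _ G hF hG => ?_⟩
  refine claim hL hR hN hm hr h G hF hG _ _ rfl rfl _ Set.univ ∅ rfl (Set.disjoint_empty _) ?_ ?_
  · rintro x ⟨hx, _⟩
    exact absurd (Set.mem_univ x) hx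
  · rw [Set.ncard_empty]; exact Nat.zero_le _

end Pool.Agent.MPd439b2
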