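import Pool.Agent.Lib.MP_d439b2_co.B.SpecR

/-!
# MP_d439b2_co, Theorem B: induced minors of a restricted graph
-/

set_option autoImplicit false

namespace Pool.Agent.MPd439b2

theorem restrIMS : S_Restr := by
  intro V W G H X hH hIMS
  obtain ⟨B, _, hconn, hdisj, hadj⟩ := hIMS
  have hsub : ∀ w, B w ⊆ X := by
    intro w
    obtain ⟨w', hw'⟩ := hH w
    obtain ⟨a, ha, b, _, hab⟩ := (hadj w w' hw'.ne).mp hw'
    have h1 : B w ∩ X = B w := by
      refine (hconn w).eq_of_nb Set.inter_subset_left ⟨a, ha, hab.2.1⟩ ?_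
      rintro v hv ⟨hv1, c, _, hcv⟩
      exact hv1 ⟨hv, hcv.2.2⟩
    exact Set.inter_eq_left.mp h1
  refine ⟨B, fun w => Set.subset_univ _, fun w => ?_, hdisj, fun w w' hw => ?_⟩
  · refine (Conn.congr fun u hu v hv => ?_).mp (hconn w)
    exact ⟨fun h => h.1, fun h => ⟨h, hsub w hu, hsub w hv⟩⟩
  · rw [hadj w w' hw]
    constructor
    · rintro ⟨a, ha, b, hb, hab⟩
      exact ⟨a, ha, b, hb, hab.1⟩
    · rintro ⟨a, ha, b, hb, hab⟩
      exact ⟨a, ha, b, hb, hab, hsub w ha, hsub w' hb⟩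

end Pool.Agent.MPd439b2
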