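import Pool.Agent.Lib.MP_d439b2_co.B.SpecR

/-!
# MP_d439b2_co, Theorem B, R1: Seinsche's theorem
-/

set_option autoImplicit false

namespace Pool.Agent.MPd439b2

namespace seinsAux

variable {V : Type}

/-- no edges between the two parts -/
private def NoE (G : SimpleGraph V) (X Y : Set V) : Prop := ∀ a ∈ X, ∀ b ∈ Y, ¬ G.Adj a b

private def Split (G : SimpleGraph V) (A : Set V) : Prop :=
  ∃ A₁ A₂ : Set V, A₁.Nonempty ∧ A₂.Nonempty ∧ Disjoint A₁ A₂ ∧ A₁ ∪ A₂ = A ∧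
    ((∀ a ∈ A₁, ∀ b ∈ A₂, ¬ G.Adj a b) ∨ ∀ a ∈ A₁, ∀ b ∈ A₂, G.Adj a b)

private theorem split_compl {G : SimpleGraph V} {A : Set V} (h : Split Gᶜ A) : Split G A := by
  obtain ⟨A₁, A₂, h1, h2, h3, h4, h5⟩ := h
  refine ⟨A₁, A₂, h1, h2, h3, h4, ?_⟩
  rcases h5 with h5 | h5
  · right
    intro a ha b hb
    by_contra hn
    apply h5 a ha b hb
    rw [SimpleGraph.compl_adj]
    refine ⟨?_, hn⟩
    rintro rfl
    exact Set.disjoint_left.mp h3 ha hb
  · left
    intro a ha b hb hn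
    have := h5 a ha b hb
    rw [SimpleGraph.compl_adj] at this
    exact this.2 hn

private theorem p4_compl {G : SimpleGraph V} {A : Set V} (h : P4Free G A) : P4Free Gᶜ A := by
  intro a ha b hb c hc d hd hab hbc hcd hac hbd
  rw [SimpleGraph.compl_adj] at hab hbc hcd hac hbd
  rw [SimpleGraph.compl_adj]
  by_cases had : a = d
  · subst had
    exact absurd ⟨hcd.1.symm, fun h' => hcd.2 h'.symm⟩ hac
  refine ⟨had, fun hadj => ?_⟩
  by_cases hac' : a = c
  · subst hac'; exact hcd.2 hadj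
  by_cases hbd' : b = d
  · subst hbd'; exact hab.2 hadj
  have e1 : G.Adj a c := by
    by_contra hn; exact hac ⟨hac', hn⟩
  have e2 : G.Adj b d := by
    by_contra hn; exact hbd ⟨hbd', hn⟩
  -- c a d b is a path
  have := h c hc a ha d hd b hb e1.symm hadj e2.symm (fun h' => hcd.2 h') hab.2
  exact hbc.2 this.symm

/-- the main case -/
private theorem main {G : SimpleGraph V} {A : Set V} [Finite V] (hP : P4Free G A) {v : V}
    (hv : v ∈ A) {A₁ A₂ : Set V} (h1 : A₁.Nonempty) (h2 : A₂.Nonempty) (h3 : Disjoint A₁ A₂)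
    (h4 : A₁ ∪ A₂ = A \ {v}) (h5 : ∀ a ∈ A₁, ∀ b ∈ A₂, ¬ G.Adj a b) : Split G A := by
  classical
  -- closed sets
  set Cl : Set V → Prop := fun X => X.Nonempty ∧ X ⊆ A \ {v} ∧
    ∀ a ∈ X, ∀ b ∈ (A \ {v}) \ X, ¬ G.Adj a b with hCl
  have hA1 : Cl A₁ := by
    refine ⟨h1, h4 ▸ Set.subset_union_left, ?_⟩
    intro a ha b hb
    rw [← h4] at hb
    rcases hb with ⟨hb | hb, hb'⟩
    · exact absurd hb hb'
    · exact h5 a ha b hb
  have hA2 : Cl A₂ := by
    refine ⟨h2, h4 ▸ Set.subset_union_right, ?_⟩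
    intro a ha b hb hadj
    rw [← h4] at hb
    rcases hb with ⟨hb | hb, hb'⟩
    · exact h5 b hb a ha hadj.symm
    · exact absurd hb hb'
  by_cases hN : ∀ X, Cl X → ∃ x ∈ X, G.Adj v x
  swap
  · push Not at hN
    obtain ⟨X, hX, hXv⟩ := hN
    refine ⟨X, A \ X, hX.1, ⟨v, hv, fun h => (hX.2.1 h).2 rfl⟩, Set.disjoint_sdiff_right, ?_, ?_⟩
    · rw [Set.union_diff_self, Set.union_eq_right]
      exact fun x hx => (hX.2.1 hx).1
    · left
      intro a ha b hb hadj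
      by_cases hbv : b = v
      · subst hbv; exact hXv a ha hadj.symm
      · exact hX.2.2 a ha b ⟨⟨hb.1, hbv⟩, hb.2⟩ hadj
  by_cases hall : ∀ y ∈ A \ {v}, G.Adj v y
  · refine ⟨{v}, A \ {v}, ⟨v, rfl⟩, ?_, Set.disjoint_sdiff_right, ?_, ?_⟩
    · obtain ⟨x, hx⟩ := h1
      exact ⟨x, hA1.2.1 hx⟩
    · rw [Set.union_diff_self, Set.union_eq_right]
      exact Set.singleton_subset_iff.mpr hv
    · right
      rintro a rfl b hb
      exact hall b hb
  push Not at hall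
  obtain ⟨y, hy, hvy⟩ := hall
  -- a closed set containing `y` that is not everything
  obtain ⟨D, hD, hyD, hDne⟩ : ∃ D, Cl D ∧ y ∈ D ∧ D.ncard < (A \ {v}).ncard := by
    have hy' := hy
    rw [← h4] at hy'
    rcases hy' with hy' | hy'
    · refine ⟨A₁, hA1, hy', Set.ncard_lt_ncard ?_ (Set.toFinite _)⟩
      refine ⟨hA1.2.1, fun h => ?_⟩
      obtain ⟨z, hz⟩ := h2
      exact Set.disjoint_left.mp h3 (h (hA2.2.1 hz)) hz
    · refine ⟨A₂, hA2, hy', Set.ncard_lt_ncard ?_ (Set.toFinite _)⟩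
      refine ⟨hA2.2.1, fun h => ?_⟩
      obtain ⟨z, hz⟩ := h1
      exact Set.disjoint_left.mp h3 hz (h (hA1.2.1 hz))
  have hex : ∃ n : ℕ, ∃ C, Cl C ∧ y ∈ C ∧ C.ncard = n := ⟨_, D, hD, hyD, rfl⟩
  obtain ⟨C, hC, hyC, hCn⟩ := Nat.find_spec hex
  have hmin : ∀ C', Cl C' → y ∈ C' → C.ncard ≤ C'.ncard := by
    intro C' hC' hyC'
    rw [hCn]
    exact Nat.find_min' hex ⟨C', hC', hyC', rfl⟩
  have hCA : C.ncard < (A \ {v}).ncard := lt_of_le_of_lt (hmin D hD hyD) hDne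
  -- the complement of `C`
  have hR : Cl ((A \ {v}) \ C) := by
    refine ⟨?_, Set.diff_subset, ?_⟩
    · rw [Set.nonempty_iff_ne_empty]
      intro h0
      rw [Set.diff_eq_empty] at h0
      exact absurd (Set.ncard_le_ncard h0 (Set.toFinite _)) (not_le.mpr hCA)
    · intro a ha b hb hadj
      have hbC : b ∈ C := by
        by_contra hn
        exact hb.2 ⟨hb.1, hn⟩
      exact hC.2.2 b hbC a ha hadj.symm
  obtain ⟨z, hz, hvz⟩ := hN _ hR
  obtain ⟨x0, hx0, hvx0⟩ := hN _ hC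
  -- an edge from a neighbour of `v` to a non-neighbour of `v` in `C`
  obtain ⟨x, hxC, hvx, y', hy'C, hvy', hxy⟩ : ∃ x ∈ C, G.Adj v x ∧ ∃ y' ∈ C, ¬ G.Adj v y' ∧
      G.Adj x y' := by
    by_contra hno
    push Not at hno
    have hcl : Cl {w ∈ C | ¬ G.Adj v w} := by
      refine ⟨⟨y, hyC, hvy⟩, fun w hw => hC.2.1 hw.1, ?_⟩
      intro a ha b hb hadj
      by_cases hbC : b ∈ C
      · have hvb : G.Adj v b := by
          by_contra hn
          exact hb.2 ⟨hbC, hn⟩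
        exact hno b hbC hvb a ha.1 ha.2 hadj.symm
      · exact hC.2.2 a ha.1 b ⟨hb.1, hbC⟩ hadj
    have h6 := hmin _ hcl ⟨hyC, hvy⟩
    have h7 : ({w ∈ C | ¬ G.Adj v w}).ncard < C.ncard := by
      apply Set.ncard_lt_ncard _ (Set.toFinite _)
      refine ⟨fun w hw => hw.1, fun h => ?_⟩
      exact (h hx0).2 hvx0
    omega
  have hzx : ¬ G.Adj z x := fun h => hC.2.2 x hxC z hz h.symm
  have hzy : ¬ G.Adj z y' := fun h => hC.2.2 y' hy'C z hz h.symm
  exact absurd (hP z hz.1.1 v hv x (hC.2.1 hxC).1 y' (hC.2.1 hy'C).1 hvz.symm hvx hxy hzx hvy') hzy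

private theorem gen [Finite V] : ∀ (n : ℕ) (G : SimpleGraph V) (A : Set V), P4Free G A →
    A.ncard = n + 2 → Split G A := by
  intro n
  induction n with
  | zero =>
    intro G A _ hA
    obtain ⟨x, y, hxy, rfl⟩ := Set.ncard_eq_two.mp hA
    refine ⟨{x}, {y}, ⟨x, rfl⟩, ⟨y, rfl⟩, ?_, rfl, ?_⟩
    · rw [Set.disjoint_singleton]; exact hxy
    · by_cases h : G.Adj x y
      · right; rintro a rfl b rfl; exact h
      · left; rintro a rfl b rfl; exact h
  | succ n ih =>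
    intro G A hP hA
    have hne : A.Nonempty := by
      rw [← Set.ncard_pos (Set.toFinite _)]; omega
    obtain ⟨v, hv⟩ := hne
    have hc : (A \ {v}).ncard = n + 2 := by
      have := Set.ncard_diff_singleton_of_mem hv (s := A)
      omega
    have hP' : P4Free G (A \ {v}) := by
      intro a ha b hb c hc d hd
      exact hP a ha.1 b hb.1 c hc.1 d hd.1
    obtain ⟨A₁, A₂, h1, h2, h3, h4, h5⟩ := ih G (A \ {v}) hP' hc
    rcases h5 with h5 | h5
    · exact main hP hv h1 h2 h3 h4 h5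
    · apply split_compl
      refine main (p4_compl hP) hv h1 h2 h3 h4 ?_
      intro a ha b hb hadj
      rw [SimpleGraph.compl_adj] at hadj
      exact hadj.2 (h5 a ha b hb)

end seinsAux

theorem seins : S_Seins := by
  intro V _ G A hP hA
  obtain ⟨n, hn⟩ := Nat.exists_eq_add_of_le hA
  exact seinsAux.gen n G A hP (by omega)

end Pool.Agent.MPd439b2
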