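import Pool.Agent.Lib.MP_d439b2_co.B.SpecC

/-! C11: short beginnings of links. -/

set_option autoImplicit false

namespace Pool.Agent.MPd439b2

namespace shortAux

variable {V : Type} {G : SimpleGraph V} {A : Set V}

theorem seg_succ (p : ℕ → V) {a b : ℕ} (h : a ≤ b) : seg p a (b + 1) = insert (p b) (seg p a b) := by
  ext v
  constructor
  · rintro ⟨i, h1, h2, rfl⟩
    rcases Nat.lt_succ_iff_lt_or_eq.1 h2 with h3 | h3
    · exact Or.inr ⟨i, h1, h3, rfl⟩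
    · left
      rw [h3]
  · rintro (rfl | ⟨i, h1, h2, rfl⟩)
    · exact ⟨b, h, Nat.lt_succ_self b, rfl⟩
    · exact ⟨i, h1, by omega, rfl⟩

theorem seg_mono (p : ℕ → V) {a b c : ℕ} (h : b ≤ c) : seg p a b ⊆ seg p a c := by
  rintro v ⟨i, h1, h2, rfl⟩
  exact ⟨i, h1, by omega, rfl⟩

theorem seg_one (p : ℕ → V) : seg p 0 1 = {p 0} := by
  ext v
  constructor
  · rintro ⟨i, _, h2, rfl⟩
    have : i = 0 := by omega
    rw [this]
    rfl
  · rintro rfl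
    exact ⟨0, le_rfl, Nat.one_pos, rfl⟩

theorem seg_conn {l : ℕ} {p : ℕ → V} (h : OutPath G A l p) {b : ℕ} (h0 : 0 < b) (hb : b ≤ l) :
    Conn G (seg p 0 b) := by
  induction b with
  | zero => omega
  | succ b ih =>
    rcases Nat.eq_zero_or_pos b with h1 | h1
    · subst h1
      rw [Nat.zero_add, seg_one]
      exact Conn.singleton G _
    · rw [seg_succ p (Nat.zero_le b)]
      refine (ih h1 (by omega)).insert ⟨p (b - 1), ⟨b - 1, Nat.zero_le _, by omega, rfl⟩, ?_⟩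
      exact (h.2.2.2 (b - 1) (by omega) b (by omega)).2 (Or.inr (by omega))

theorem seg_disj {l : ℕ} {p : ℕ → V} (h : OutPath G A l p) {b : ℕ} (hb : b ≤ l) :
    Disjoint (seg p 0 b) A := by
  rw [Set.disjoint_left]
  rintro v ⟨i, _, h2, rfl⟩
  exact h.2.1 i (by omega)

theorem cut {l : ℕ} {p : ℕ → V} (h : OutPath G A l p) {b : ℕ} (h0 : 0 < b) (hb : b ≤ l) :
    OutPath G A b p :=
  ⟨h0, fun i hi => h.2.1 i (by omega), fun i hi j hj => h.2.2.1 i (by omega) j (by omega),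
    fun i hi j hj => h.2.2.2 i (by omega) j (by omega)⟩

theorem nb_one {l : ℕ} {p : ℕ → V} (h : OutPath G A l p) :
    nb G (seg p 0 1) ∩ A = G.neighborSet (p 0) ∩ A := by
  rw [seg_one]
  ext v
  constructor
  · rintro ⟨⟨_, a, ha, hav⟩, hv⟩
    rw [Set.mem_singleton_iff] at ha
    subst ha
    exact ⟨hav, hv⟩
  · rintro ⟨hav, hv⟩
    refine ⟨⟨?_, p 0, rfl, hav⟩, hv⟩
    intro h1
    rw [Set.mem_singleton_iff] at h1
    subst h1
    exact h.2.1 0 h.1 hv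

/-- two large beginnings are impossible -/
theorem clash [Finite V] (hN : S_Nest) {s q N : ℕ} (hC : CoreP G A s q N) {T : Finset ℕ} {L : ℕ → ℕ}
    {p : ℕ → ℕ → V} {x y : ℕ → V} (hS : PSys G A T L p x y)
    (hpr : ∀ k ∈ T, ∀ l ∈ T, k ≠ l → x l ∉ nb G (seg (p k) 0 (L k)) ∧
      ¬ Tch G (seg (p k) 0 (L k)) (seg (p l) 0 (L l))) {k l a c : ℕ} (hk : k ∈ T) (hl : l ∈ T)
    (hkl : k ≠ l) (ha0 : 0 < a) (ha : a ≤ L k) (hc0 : 0 < c) (hc : c ≤ L l)
    (h1 : 16 * s + 4 ≤ (nb G (seg (p k) 0 a) ∩ A).ncard) (h2 : (nb G (seg (p k) 0 a) ∩ A).ncard ≤ q)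
    (h3 : 16 * s + 4 ≤ (nb G (seg (p l) 0 c) ∩ A).ncard) : False := by
  obtain ⟨hok, hxk, _, _, hxk0, _⟩ := hS.1 k hk
  obtain ⟨hol, hxl, _, _, hxl0, _⟩ := hS.1 l hl
  have hdis := (hS.2 k hk l hl hkl).1
  have hdk := seg_disj hok ha
  have hdl := seg_disj hol hc
  have hmk := seg_mono (p k) (a := 0) ha
  have hml := seg_mono (p l) (a := 0) hc
  have key : ∀ (u v : ℕ), u ∈ T → v ∈ T → u ≠ v → ∀ a' c', 0 < a' → a' ≤ L u → c' ≤ L v →
      ¬ nb G (seg (p u) 0 a') ∩ A ⊆ nb G (seg (p v) 0 c') ∩ A := by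
    intro u v hu hv huv a' c' ha' ha'' hc' hsub
    obtain ⟨hou, hxu, _, _, hxu0, _⟩ := hS.1 u hu
    obtain ⟨hov, _⟩ := hS.1 v hv
    have hin : x u ∈ nb G (seg (p u) 0 a') ∩ A :=
      ⟨⟨fun h => Set.disjoint_left.1 (seg_disj hou ha'') h hxu, p u 0, ⟨0, le_rfl, ha', rfl⟩,
        hxu0.symm⟩, hxu⟩
    obtain ⟨⟨_, b, hb, hbx⟩, _⟩ := hsub hin
    refine (hpr v hv u hu (Ne.symm huv)).1 ⟨?_, b, seg_mono (p v) hc' hb, hbx⟩
    exact fun h => Set.disjoint_left.1 (seg_disj hov le_rfl) h hxu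
  rcases hN V G A s q N hC (seg (p k) 0 a) (seg (p l) 0 c) (seg_conn hok ha0 ha) (seg_conn hol hc0 hc)
    hdk hdl (hdis.mono hmk hml) (fun h => (hpr k hk l hl hkl).2 (h.mono hmk hml)) h1 h3 h2 with h | h
  · exact key k l hk hl hkl a c ha0 ha hc h
  · exact key l k hl hk (Ne.symm hkl) c a hc0 hc ha h

end shortAux

open shortAux in
theorem short (hP : S_PathB) (hN : S_Nest) : S_Short := by
  intro V _ G A s q N M₁ m T L p x y hC hM hq hS hcard hpr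
  classical
  have hex : ∀ k, ∃ i, L k ≤ i ∨ M₁ ≤ (G.neighborSet (p k i) ∩ A).ncard := fun k =>
    ⟨L k, Or.inl le_rfl⟩
  let d : ℕ → ℕ := fun k => Nat.find (hex k)
  have hdL : ∀ k, d k ≤ L k := fun k => Nat.find_min' (hex k) (Or.inl le_rfl)
  have hdlt : ∀ k, ∀ i < d k, (G.neighborSet (p k i) ∩ A).ncard < M₁ := by
    intro k i hi
    have := Nat.find_min (hex k) hi
    push Not at this
    exact this.2
  have hdsp : ∀ k, d k = L k ∨ M₁ ≤ (G.neighborSet (p k (d k)) ∩ A).ncard := by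
    intro k
    rcases Nat.find_spec (hex k) with h | h
    · exact Or.inl (le_antisymm (hdL k) h)
    · exact Or.inr h
  set B1 := T.filter fun k => d k = 0 with hB1
  set B2 := T.filter fun k => 0 < d k ∧ 16 * s + 4 ≤ (nb G (seg (p k) 0 (d k)) ∩ A).ncard with hB2
  have hc1 : B1.card ≤ 1 := by
    rw [Finset.card_le_one]
    intro k hk l hl
    rw [hB1, Finset.mem_filter] at hk hl
    by_contra hkl
    have e : ∀ u ∈ T, d u = 0 → 16 * s + 4 ≤ (nb G (seg (p u) 0 1) ∩ A).ncard ∧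
        (nb G (seg (p u) 0 1) ∩ A).ncard ≤ q ∧ 1 ≤ L u := by
      intro u hu hu0
      obtain ⟨hou, _⟩ := hS.1 u hu
      have h1 := hou.1
      rw [nb_one hou]
      refine ⟨?_, hC.low _ (hou.2.1 0 h1), h1⟩
      rcases hdsp u with h2 | h2
      · omega
      · rw [hu0] at h2
        omega
    obtain ⟨a1, a2, a3⟩ := e k hk.1 hk.2
    obtain ⟨b1, _, b3⟩ := e l hl.1 hl.2
    exact clash hN hC hS hpr hk.1 hl.1 hkl Nat.one_pos a3 Nat.one_pos b3 a1 a2 b1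
  have hc2 : B2.card ≤ 1 := by
    rw [Finset.card_le_one]
    intro k hk l hl
    rw [hB2, Finset.mem_filter] at hk hl
    by_contra hkl
    obtain ⟨hok, _⟩ := hS.1 k hk.1
    have h2 : (nb G (seg (p k) 0 (d k)) ∩ A).ncard ≤ q :=
      (hP V G A s q N hC (d k) (p k) M₁ (cut hok hk.2.1 (hdL k))
        (fun i hi => (hdlt k i hi).le)).trans hq
    exact clash hN hC hS hpr hk.1 hl.1 hkl hk.2.1 (hdL k) hl.2.1 (hdL l) hk.2.2 h2 hl.2.2
  have hc3 : m ≤ (T \ (B1 ∪ B2)).card := by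
    have h1 := Finset.le_card_sdiff (B1 ∪ B2) T
    have h2 := Finset.card_union_le B1 B2
    omega
  obtain ⟨T', hT', hT'c⟩ := Finset.exists_subset_card_eq hc3
  refine ⟨T', fun k hk => (Finset.mem_sdiff.1 (hT' hk)).1, hT'c, d, fun k hk => ?_⟩
  obtain ⟨h1, h2⟩ := Finset.mem_sdiff.1 (hT' hk)
  rw [Finset.mem_union, not_or, hB1, hB2, Finset.mem_filter, Finset.mem_filter] at h2
  have h3 : 0 < d k := by
    rcases Nat.eq_zero_or_pos (d k) with h | h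
    · exact absurd ⟨h1, h⟩ h2.1
    · exact h
  refine ⟨h3, hdL k, ?_, hdsp k⟩
  by_contra h4
  exact h2.2 ⟨h1, h3, not_lt.1 h4⟩

end Pool.Agent.MPd439b2
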