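import Pool.Agent.Lib.MP_d439b2_co.B.SpecC

/-! C9: pairwise touching links. -/

set_option autoImplicit false

namespace Pool.Agent.MPd439b2

namespace touchAux

variable {V : Type} {G : SimpleGraph V} {A : Set V}

theorem seg_succ (p : ℕ → V) {a b : ℕ} (h : a ≤ b) : seg p a (b + 1) = insert (p b) (seg p a b) := by
  ext v
  constructor
  · rintro ⟨i, h1, h2, rfl⟩
    rcases Nat.lt_succ_iff_lt_or_eq.1 h2 with h3 | h3
    · exact Or.inr ⟨i, h1, h3, rfl⟩
    · left
      rw [h3]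
  · rintro (rfl | ⟨i, h1, h2, rfl⟩)
    · exact ⟨b, h, Nat.lt_succ_self b, rfl⟩
    · exact ⟨i, h1, by omega, rfl⟩

theorem seg_conn {l : ℕ} {p : ℕ → V} (h : OutPath G A l p) {b : ℕ} (h0 : 0 < b) (hb : b ≤ l) :
    Conn G (seg p 0 b) := by
  induction b with
  | zero => omega
  | succ b ih =>
    rcases Nat.eq_zero_or_pos b with h1 | h1
    · subst h1
      have : seg p 0 (0 + 1) = {p 0} := by
        ext v
        constructor
        · rintro ⟨i, _, h2, rfl⟩
          have : i = 0 := by omega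
          rw [this]
          rfl
        · rintro rfl
          exact ⟨0, le_rfl, Nat.one_pos, rfl⟩
      rw [this]
      exact Conn.singleton G _
    · rw [seg_succ p (Nat.zero_le b)]
      refine (ih h1 (by omega)).insert ⟨p (b - 1), ⟨b - 1, Nat.zero_le _, by omega, rfl⟩, ?_⟩
      exact (h.2.2.2 (b - 1) (by omega) b (by omega)).2 (Or.inr (by omega))

theorem seg_disj {l : ℕ} {p : ℕ → V} (h : OutPath G A l p) : Disjoint (seg p 0 l) A := by
  rw [Set.disjoint_left]
  rintro v ⟨i, _, h2, rfl⟩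
  exact h.2.1 i h2

/-- the union of `m` pairwise touching connected sets is connected -/
theorem conn_union (I : ℕ → Set V) (m : ℕ) (hm : 0 < m) (hI : ∀ j < m, Conn G (I j))
    (ht : ∀ j < m, ∀ j' < m, j ≠ j' → Tch G (I j) (I j')) : Conn G {v | ∃ j < m, v ∈ I j} := by
  induction m with
  | zero => omega
  | succ m ih =>
    have h1 : {v | ∃ j < m + 1, v ∈ I j} = {v | ∃ j < m, v ∈ I j} ∪ I m := by
      ext v
      constructor
      · rintro ⟨j, hj, hv⟩
        rcases Nat.lt_succ_iff_lt_or_eq.1 hj with h | h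
        · exact Or.inl ⟨j, h, hv⟩
        · subst h
          exact Or.inr hv
      · rintro (⟨j, hj, hv⟩ | hv)
        · exact ⟨j, by omega, hv⟩
        · exact ⟨m, by omega, hv⟩
    rcases Nat.eq_zero_or_pos m with h2 | h2
    · subst h2
      have h3 : {v | ∃ j < 0 + 1, v ∈ I j} = I 0 := by
        rw [h1]
        ext v
        constructor
        · rintro (⟨j, hj, _⟩ | hv)
          · omega
          · exact hv
        · exact fun hv => Or.inr hv
      rw [h3]
      exact hI 0 (by omega)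
    · rw [h1]
      refine (ih h2 (fun j hj => hI j (by omega))
        (fun j hj j' hj' => ht j (by omega) j' (by omega))).union (hI m (by omega)) (Or.inr ?_)
      exact (ht 0 (by omega) m (by omega) (by omega)).mono (fun v hv => ⟨0, h2, hv⟩) subset_rfl

theorem pathPat {P0 P1 P2 P3 : Set V} (c0 : Conn G P0) (c1 : Conn G P1) (c2 : Conn G P2)
    (c3 : Conn G P3) (d01 : Disjoint P0 P1) (d02 : Disjoint P0 P2) (d03 : Disjoint P0 P3)
    (d12 : Disjoint P1 P2) (d13 : Disjoint P1 P3) (d23 : Disjoint P2 P3) (t01 : Tch G P0 P1)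
    (t12 : Tch G P1 P2) (t23 : Tch G P2 P3) (n02 : ¬ Tch G P0 P2) (n03 : ¬ Tch G P0 P3)
    (n13 : ¬ Tch G P1 P3) : PathPat G ![P0, P1, P2, P3] := by
  have m02 : ¬ Tch G P2 P0 := fun h => n02 h.symm
  have m03 : ¬ Tch G P3 P0 := fun h => n03 h.symm
  have m13 : ¬ Tch G P3 P1 := fun h => n13 h.symm
  refine ⟨?_, ?_, ?_⟩
  · intro i
    fin_cases i <;> assumption
  · intro i j hij
    fin_cases i <;> fin_cases j <;> first
      | exact absurd rfl hij
      | assumption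
      | (apply Disjoint.symm; assumption)
  · intro i j hij
    fin_cases i <;> fin_cases j <;> first
      | exact absurd rfl hij
      | (refine iff_of_true ?_ (by decide); assumption)
      | (refine iff_of_true ?_ (by decide); apply Tch.symm; assumption)
      | (refine iff_of_false ?_ (by decide); assumption)

end touchAux

open touchAux in
theorem touch (hP : S_PathB) (hD : S_Dig) : S_Touch := by
  intro s q
  -- the size of the groups, the bound for one path, the number of groups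
  obtain ⟨M, hM⟩ : ∃ M, M = 16 * s + 4 := ⟨_, rfl⟩
  obtain ⟨b, hb⟩ : ∃ b, b = 4 * (16 * s + 4 + q) := ⟨_, rfl⟩
  obtain ⟨g, hg⟩ : ∃ g, g = (2 * (M * b) + 1) * 3 := ⟨_, rfl⟩
  refine ⟨g * M, ?_⟩
  intro V _ G A N S L p x y hC hS hn ht
  classical
  have hM0 : 0 < M := by omega
  -- enumeration
  obtain ⟨φ, hφS, hφi⟩ : ∃ φ : ℕ → ℕ, (∀ i < g * M, φ i ∈ S) ∧
      ∀ i < g * M, ∀ j < g * M, φ i = φ j → i = j := by
    refine ⟨fun i => if h : i < S.card then (S.equivFin.symm ⟨i, h⟩ : S).1 else 0, ?_, ?_⟩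
    · intro i hi
      have h : i < S.card := lt_of_lt_of_le hi hn
      simp only [dif_pos h]
      exact (S.equivFin.symm ⟨i, h⟩).2
    · intro i hi j hj hij
      have h : i < S.card := lt_of_lt_of_le hi hn
      have h' : j < S.card := lt_of_lt_of_le hj hn
      simp only [dif_pos h, dif_pos h'] at hij
      have h1 := S.equivFin.symm.injective (Subtype.ext hij)
      exact congrArg Fin.val h1
  let I : ℕ → Set V := fun k => seg (p k) 0 (L k)
  have hIc : ∀ k ∈ S, Conn G (I k) := fun k hk => seg_conn (hS.1 k hk).1 (hS.1 k hk).1.1 le_rfl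
  have hId : ∀ k ∈ S, Disjoint (I k) A := fun k hk => seg_disj (hS.1 k hk).1
  have hIx : ∀ k ∈ S, ∃ v ∈ I k, G.Adj v (x k) := fun k hk =>
    ⟨p k 0, ⟨0, le_rfl, (hS.1 k hk).1.1, rfl⟩, (hS.1 k hk).2.2.2.2.1.symm⟩
  have hxA : ∀ k ∈ S, x k ∈ A := fun k hk => (hS.1 k hk).2.1
  have hxne : ∀ k ∈ S, ∀ l ∈ S, x k = x l → k = l := by
    intro k hk l hl h
    by_contra hne
    exact (hS.2 k hk l hl hne).2.1 h
  have hIb : ∀ k ∈ S, (nb G (I k) ∩ A).ncard ≤ b := by
    intro k hk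
    rw [hb]
    exact hP V G A s q N hC (L k) (p k) q (hS.1 k hk).1
      fun i hi => hC.low _ ((hS.1 k hk).1.2.1 i hi)
  -- the groups
  let ix : ℕ → ℕ → ℕ := fun h j => φ (h * M + j)
  have hlt : ∀ h < g, ∀ j < M, h * M + j < g * M := by
    intro h hh j hj
    have h1 : (h + 1) * M ≤ g * M := Nat.mul_le_mul_right M hh
    rw [Nat.add_mul, Nat.one_mul] at h1
    omega
  have hixS : ∀ h < g, ∀ j < M, ix h j ∈ S := fun h hh j hj => hφS _ (hlt h hh j hj)
  have hixi : ∀ h < g, ∀ j < M, ∀ h' < g, ∀ j' < M, ix h j = ix h' j' → h = h' ∧ j = j' := by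
    intro h hh j hj h' hh' j' hj' heq
    have h1 := hφi _ (hlt h hh j hj) _ (hlt h' hh' j' hj') heq
    have h2 : h = h' := by
      rcases lt_trichotomy h h' with h3 | h3 | h3
      · have h4 : (h + 1) * M ≤ h' * M := Nat.mul_le_mul_right M h3
        rw [Nat.add_mul, Nat.one_mul] at h4
        omega
      · exact h3
      · have h4 : (h' + 1) * M ≤ h * M := Nat.mul_le_mul_right M h3
        rw [Nat.add_mul, Nat.one_mul] at h4
        omega
    subst h2
    exact ⟨rfl, by omega⟩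
  let J : ℕ → Set V := fun h => {v | ∃ j < M, v ∈ I (ix h j)}
  have hJc : ∀ h < g, Conn G (J h) := by
    intro h hh
    refine conn_union (fun j => I (ix h j)) M hM0 (fun j hj => hIc _ (hixS h hh j hj)) ?_
    intro j hj j' hj' hjj
    exact ht _ (hixS h hh j hj) _ (hixS h hh j' hj')
      fun he => hjj (hixi h hh j hj h hh j' hj' he).2
  have hJd : ∀ h < g, Disjoint (J h) A := by
    intro h hh
    rw [Set.disjoint_left]
    rintro v ⟨j, hj, hv⟩ hvA
    exact Set.disjoint_left.1 (hId _ (hixS h hh j hj)) hv hvA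
  have hJJ : ∀ h < g, ∀ h' < g, h ≠ h' → Disjoint (J h) (J h') := by
    intro h hh h' hh' hne
    rw [Set.disjoint_left]
    rintro v ⟨j, hj, hv⟩ ⟨j', hj', hv'⟩
    exact Set.disjoint_left.1 (hS.2 _ (hixS h hh j hj) _ (hixS h' hh' j' hj')
      fun he => hne (hixi h hh j hj h' hh' j' hj' he).1).1 hv hv'
  have hJt : ∀ h < g, ∀ h' < g, h ≠ h' → Tch G (J h) (J h') := by
    intro h hh h' hh' hne
    refine (ht _ (hixS h hh 0 hM0) _ (hixS h' hh' 0 hM0)
      fun he => hne (hixi h hh 0 hM0 h' hh' 0 hM0 he).1).mono ?_ ?_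
    · exact fun v hv => ⟨0, hM0, hv⟩
    · exact fun v hv => ⟨0, hM0, hv⟩
  have hJx : ∀ h < g, ∀ j < M, x (ix h j) ∈ nb G (J h) ∩ A := by
    intro h hh j hj
    have hk := hixS h hh j hj
    obtain ⟨v, hv, hvx⟩ := hIx _ hk
    exact ⟨⟨fun h1 => Set.disjoint_left.1 (hJd h hh) h1 (hxA _ hk), v, ⟨j, hj, hv⟩, hvx⟩, hxA _ hk⟩
  have hJlow : ∀ h < g, 16 * s + 4 ≤ (nb G (J h) ∩ A).ncard := by
    intro h hh
    rw [← hM, ← Finset.card_range M, ← Set.ncard_coe_finset (Finset.range M)]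
    refine Set.ncard_le_ncard_of_injOn (fun j => x (ix h j)) ?_ ?_ (Set.toFinite _)
    · intro j hj
      exact hJx h hh j (Finset.mem_range.1 (Finset.mem_coe.1 hj))
    · intro j hj j' hj' he
      have hj1 := Finset.mem_range.1 (Finset.mem_coe.1 hj)
      have hj2 := Finset.mem_range.1 (Finset.mem_coe.1 hj')
      exact (hixi h hh j hj1 h hh j' hj2
        (hxne _ (hixS h hh j hj1) _ (hixS h hh j' hj2) he)).2
  have hJup : ∀ h < g, (nb G (J h) ∩ A).ncard ≤ M * b := by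
    intro h hh
    have h1 : nb G (J h) ∩ A ⊆ ⋃ j ∈ Finset.range M, (nb G (I (ix h j)) ∩ A) := by
      rintro v ⟨⟨_, a, ⟨j, hj, ha⟩, hav⟩, hvA⟩
      refine Set.mem_iUnion₂.2 ⟨j, Finset.mem_range.2 hj, ⟨fun h2 => ?_, a, ha, hav⟩, hvA⟩
      exact Set.disjoint_left.1 (hId _ (hixS h hh j hj)) h2 hvA
    refine (Set.ncard_le_ncard h1 (Set.toFinite _)).trans ?_
    refine (Finset.set_ncard_biUnion_le _ _).trans ?_
    refine (Finset.sum_le_sum fun j hj => hIb _ (hixS h hh j (Finset.mem_range.1 hj))).trans ?_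
    rw [Finset.sum_const, Finset.card_range, smul_eq_mul]
  -- the digraph
  let z : ℕ → V := fun h => x (ix h 0)
  have hzJ : ∀ h < g, z h ∈ nb G (J h) ∩ A := fun h hh => hJx h hh 0 hM0
  have hzi : ∀ h < g, ∀ h' < g, z h = z h' → h = h' := fun h hh h' hh' he =>
    (hixi h hh 0 hM0 h' hh' 0 hM0 (hxne _ (hixS h hh 0 hM0) _ (hixS h' hh' 0 hM0) he)).1
  obtain ⟨T, hT, hTc, hTE⟩ := hD ℕ (Finset.range g) (fun h h' => z h' ∈ nb G (J h) ∩ A) (M * b) 3 (by
    intro h hh
    refine ⟨(Finset.range g).filter fun h' => z h' ∈ nb G (J h) ∩ A, ?_, ?_⟩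
    · refine le_trans ?_ (hJup h (Finset.mem_range.1 hh))
      rw [← Set.ncard_coe_finset]
      refine Set.ncard_le_ncard_of_injOn z ?_ ?_ (Set.toFinite _)
      · intro h' hh'
        exact (Finset.mem_filter.1 (Finset.mem_coe.1 hh')).2
      · intro h1 hh1 h2 hh2 he
        exact hzi h1 (Finset.mem_range.1 (Finset.mem_filter.1 (Finset.mem_coe.1 hh1)).1) h2
          (Finset.mem_range.1 (Finset.mem_filter.1 (Finset.mem_coe.1 hh2)).1) he
    · intro h' hh' _ hE
      exact Finset.mem_filter.2 ⟨hh', hE⟩) (by rw [Finset.card_range, hg])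
  obtain ⟨a1, a2, a3, h12, h13, h23, rfl⟩ := Finset.card_eq_three.1 hTc
  have g1 : a1 < g := Finset.mem_range.1 (hT (by simp))
  have g2 : a2 < g := Finset.mem_range.1 (hT (by simp))
  have g3 : a3 < g := Finset.mem_range.1 (hT (by simp))
  have n12 := hTE a1 (by simp) a2 (by simp) h12
  have n13 := hTE a1 (by simp) a3 (by simp) h13
  have n21 := hTE a2 (by simp) a1 (by simp) (Ne.symm h12)
  have n23 := hTE a2 (by simp) a3 (by simp) h23
  have n32 := hTE a3 (by simp) a2 (by simp) (Ne.symm h23)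
  have hzA : ∀ h < g, z h ∈ A := fun h hh => (hzJ h hh).2
  have tz : ∀ h < g, Tch G (J h) {z h} := by
    intro h hh
    obtain ⟨⟨_, v, hv, hvz⟩, _⟩ := hzJ h hh
    exact ⟨v, hv, z h, rfl, hvz⟩
  have ntz : ∀ h < g, ∀ h' < g, z h' ∉ nb G (J h) ∩ A → ¬ Tch G (J h) {z h'} := by
    rintro h hh h' hh' hn1 ⟨v, hv, w, hw, hvw⟩
    rw [Set.mem_singleton_iff] at hw
    subst hw
    exact hn1 ⟨⟨fun h2 => Set.disjoint_left.1 (hJd h hh) h2 (hzA h' hh'), v, hv, hvw⟩, hzA h' hh'⟩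
  have dz : ∀ h < g, ∀ h' < g, Disjoint (J h) {z h'} := by
    intro h hh h' hh'
    rw [Set.disjoint_singleton_right]
    exact fun h2 => Set.disjoint_left.1 (hJd h hh) h2 (hzA h' hh')
  have dzz : Disjoint ({z a2} : Set V) {z a3} := by
    rw [Set.disjoint_singleton]
    exact fun he => h23 (hzi a2 g2 a3 g3 he)
  by_cases hadj : G.Adj (z a2) (z a3)
  · have hpat := pathPat (hJc a1 g1) (hJc a2 g2) (Conn.singleton G (z a2)) (Conn.singleton G (z a3))
      (hJJ a1 g1 a2 g2 h12) (dz a1 g1 a2 g2) (dz a1 g1 a3 g3) (dz a2 g2 a2 g2) (dz a2 g2 a3 g3) dzz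
      (hJt a1 g1 a2 g2 h12) (tz a2 g2) ⟨z a2, rfl, z a3, rfl, hadj⟩ (ntz a1 g1 a2 g2 n12)
      (ntz a1 g1 a3 g3 n13) (ntz a2 g2 a3 g3 n23)
    refine hC.pat _ hpat fun i => ?_
    fin_cases i
    · exact Or.inr ⟨hJd a1 g1, hJlow a1 g1⟩
    · exact Or.inr ⟨hJd a2 g2, hJlow a2 g2⟩
    · exact Or.inl ⟨z a2, hzA a2 g2, rfl⟩
    · exact Or.inl ⟨z a3, hzA a3 g3, rfl⟩
  · have nzz : ¬ Tch G ({z a2} : Set V) {z a3} := by
      rintro ⟨v, hv, w, hw, hvw⟩
      rw [Set.mem_singleton_iff] at hv hw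
      subst hv hw
      exact hadj hvw
    have hpat := pathPat (Conn.singleton G (z a2)) (hJc a2 g2) (hJc a3 g3) (Conn.singleton G (z a3))
      (dz a2 g2 a2 g2).symm (dz a3 g3 a2 g2).symm dzz (hJJ a2 g2 a3 g3 h23) (dz a2 g2 a3 g3)
      (dz a3 g3 a3 g3) (tz a2 g2).symm (hJt a2 g2 a3 g3 h23) (tz a3 g3)
      (fun h => ntz a3 g3 a2 g2 n32 h.symm) nzz (ntz a2 g2 a3 g3 n23)
    refine hC.pat _ hpat fun i => ?_
    fin_cases i
    · exact Or.inl ⟨z a2, hzA a2 g2, rfl⟩
    · exact Or.inr ⟨hJd a2 g2, hJlow a2 g2⟩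
    · exact Or.inr ⟨hJd a3 g3, hJlow a3 g3⟩
    · exact Or.inl ⟨z a3, hzA a3 g3, rfl⟩

end Pool.Agent.MPd439b2
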