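import Pool.Agent.Lib.MP_d439b2_co.B.SpecC

set_option autoImplicit false

namespace Pool.Agent.MPd439b2

namespace triAux

variable {V : Type} {G : SimpleGraph V}

theorem mem_seg {p : ℕ → V} {a b : ℕ} {v : V} :
    v ∈ seg p a b ↔ ∃ s, a ≤ s ∧ s < b ∧ p s = v := Iff.rfl

/-- a nonempty segment of a path is connected -/
theorem conn_seg {p : ℕ → V} {a b : ℕ} (hab : a < b) (h : ∀ i, a ≤ i → i + 1 < b →
    G.Adj (p i) (p (i + 1))) : Conn G (seg p a b) := by
  induction b with
  | zero => omega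
  | succ b ih =>
    by_cases hb : a < b
    · have h1 := ih hb (fun i h1 h2 => h i h1 (by omega))
      have h2 : seg p a (b + 1) = insert (p b) (seg p a b) := by
        ext v
        simp only [mem_seg, Set.mem_insert_iff]
        constructor
        · rintro ⟨s, h3, h4, h5⟩
          rcases Nat.lt_or_ge s b with h6 | h6
          · exact Or.inr ⟨s, h3, h6, h5⟩
          · have : s = b := by omega
            subst this
            exact Or.inl h5.symm
        · rintro (h3 | ⟨s, h3, h4, h5⟩)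
          · exact ⟨b, by omega, by omega, h3.symm⟩
          · exact ⟨s, h3, by omega, h5⟩
      rw [h2]
      apply h1.insert
      refine ⟨p (b - 1), mem_seg.2 ⟨b - 1, by omega, by omega, rfl⟩, ?_⟩
      have h3 := h (b - 1) (by omega) (by omega)
      rwa [show b - 1 + 1 = b by omega] at h3
    · have h1 : a = b := by omega
      subst h1
      have h2 : seg p a (a + 1) = {p a} := by
        ext v
        simp only [mem_seg, Set.mem_singleton_iff]
        constructor
        · rintro ⟨s, h3, h4, h5⟩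
          have : s = a := by omega
          subst this
          exact h5.symm
        · intro h3
          exact ⟨a, le_rfl, by omega, h3.symm⟩
      rw [h2]
      exact Conn.singleton G _

theorem seg_self {p : ℕ → V} {a : ℕ} : seg p a a = ∅ := by
  ext v
  simp only [mem_seg, Set.mem_empty_iff_false, iff_false]
  rintro ⟨s, h1, h2, -⟩
  omega

/-- the tripod from a path, a vertex `p i` on it and a third leg -/
theorem core {A K : Set V} {e : Fin 3 → V} (hKA : Disjoint K A) (he : Function.Injective e)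
    (heA : ∀ i, e i ∈ A) {l : ℕ} {p : ℕ → V} (hpK : ∀ i ≤ l, p i ∈ K)
    (hinj : ∀ i ≤ l, ∀ j ≤ l, p i = p j → i = j)
    (hadj : ∀ i, i < l → G.Adj (p i) (p (i + 1)))
    (h0 : G.Adj (p 0) (e 0)) (h1 : G.Adj (p l) (e 1)) {i : ℕ} (hi : i ≤ l) {T₂ : Set V}
    (hT₂ : T₂ ⊆ K) (hT₂p : ∀ j ≤ l, p j ∉ T₂)
    (hT : (T₂ = ∅ ∧ G.Adj (p i) (e 2)) ∨ (Conn G T₂ ∧ p i ∈ nb G T₂ ∧ e 2 ∈ nb G T₂)) :
    ∃ (c : V) (T : Fin 3 → Set V), Tripod G A c T e ∧ c ∈ K ∧ ∀ i, T i ⊆ K := by
  have hs0 : seg p 0 i ⊆ K := by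
    rintro v ⟨s, -, h2, rfl⟩
    exact hpK s (by omega)
  have hs1 : seg p (i + 1) (l + 1) ⊆ K := by
    rintro v ⟨s, -, h2, rfl⟩
    exact hpK s (by omega)
  have hd : ∀ S : Set V, S ⊆ K → Disjoint S A := fun S hS => Set.disjoint_of_subset_left hS hKA
  have hc0 : p i ∉ seg p 0 i := by
    rintro ⟨s, -, h2, h3⟩
    have := hinj s (by omega) i hi h3
    omega
  have hc1 : p i ∉ seg p (i + 1) (l + 1) := by
    rintro ⟨s, h4, h2, h3⟩
    have := hinj s (by omega) i hi h3
    omega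
  have hd01 : Disjoint (seg p 0 i) (seg p (i + 1) (l + 1)) := by
    rw [Set.disjoint_left]
    rintro v ⟨s, -, h2, rfl⟩ ⟨s', h4, h5, h6⟩
    have := hinj s' (by omega) s (by omega) h6
    omega
  have hd02 : Disjoint (seg p 0 i) T₂ := by
    rw [Set.disjoint_left]
    rintro v ⟨s, -, h2, rfl⟩ hv
    exact hT₂p s (by omega) hv
  have hd12 : Disjoint (seg p (i + 1) (l + 1)) T₂ := by
    rw [Set.disjoint_left]
    rintro v ⟨s, -, h2, rfl⟩ hv
    exact hT₂p s (by omega) hv
  have heK : ∀ (j : Fin 3) (S : Set V), S ⊆ K → e j ∉ S := fun j S hS h =>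
    Set.disjoint_left.1 hKA (hS h) (heA j)
  refine ⟨p i, ![seg p 0 i, seg p (i + 1) (l + 1), T₂], ⟨?_, he, heA, ?_, ?_, ?_⟩, hpK i hi, ?_⟩
  · exact fun h => Set.disjoint_left.1 hKA (hpK i hi) h
  · intro j
    fin_cases j
    · exact ⟨hd _ hs0, hc0⟩
    · exact ⟨hd _ hs1, hc1⟩
    · exact ⟨hd _ hT₂, hT₂p i hi⟩
  · intro a b hab
    fin_cases a <;> fin_cases b <;> first
      | exact absurd rfl hab
      | exact hd01
      | exact hd01.symm
      | exact hd02
      | exact hd02.symm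
      | exact hd12
      | exact hd12.symm
  · intro j
    fin_cases j
    · change (seg p 0 i = ∅ ∧ G.Adj (p i) (e 0)) ∨
        (Conn G (seg p 0 i) ∧ p i ∈ nb G (seg p 0 i) ∧ e 0 ∈ nb G (seg p 0 i))
      rcases Nat.eq_zero_or_pos i with h | h
      · subst h
        exact Or.inl ⟨seg_self, h0⟩
      · right
        refine ⟨conn_seg h fun s _ hs => hadj s (by omega), ⟨hc0, p (i - 1),
          ⟨i - 1, Nat.zero_le _, by omega, rfl⟩, ?_⟩, heK 0 _ hs0, p 0,
          ⟨0, le_rfl, h, rfl⟩, h0⟩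
        have h3 := hadj (i - 1) (by omega)
        rwa [show i - 1 + 1 = i by omega] at h3
    · change (seg p (i + 1) (l + 1) = ∅ ∧ G.Adj (p i) (e 1)) ∨
        (Conn G (seg p (i + 1) (l + 1)) ∧ p i ∈ nb G (seg p (i + 1) (l + 1)) ∧
          e 1 ∈ nb G (seg p (i + 1) (l + 1)))
      rcases Nat.lt_or_ge i l with h | h
      · right
        exact ⟨conn_seg (by omega) fun s _ hs => hadj s (by omega), ⟨hc1, p (i + 1),
          ⟨i + 1, le_rfl, by omega, rfl⟩, (hadj i h).symm⟩, heK 1 _ hs1, p l,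
          ⟨l, by omega, by omega, rfl⟩, h1⟩
      · have h2 : i = l := by omega
        subst h2
        exact Or.inl ⟨seg_self, h1⟩
    · exact hT
  · intro j
    fin_cases j
    · exact hs0
    · exact hs1
    · exact hT₂

end triAux

theorem tri : S_Path → S_Tri := by
  intro hP V G A K e hK hKA he hE
  have hadj : ∀ i, ∃ a ∈ K, G.Adj a (e i) := fun i => (hE i).2.2
  obtain ⟨l, p, hp0, hpl, hpK, hpi, hpa, -, -⟩ := hP V G K {v | G.Adj (e 0) v}
    {v | G.Adj (e 1) v} hK (by
      obtain ⟨a, ha, h⟩ := hadj 0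
      exact ⟨a, ha, h.symm⟩) (by
      obtain ⟨a, ha, h⟩ := hadj 1
      exact ⟨a, ha, h.symm⟩)
  have hpa' : ∀ i, i < l → G.Adj (p i) (p (i + 1)) := fun i hi =>
    (hpa i (by omega) (i + 1) (by omega)).2 (Or.inr rfl)
  by_cases h2 : ∃ i ≤ l, G.Adj (p i) (e 2)
  · obtain ⟨i, hi, h2⟩ := h2
    exact triAux.core hKA he (fun i => (hE i).1) hpK hpi hpa' hp0.symm hpl.symm hi
      (Set.empty_subset K) (fun j _ h => h) (Or.inl ⟨rfl, h2⟩)
  · push Not at h2
    obtain ⟨k, r, hr0, hrk, hrK, hri, hra, -, hrY⟩ := hP V G K {v | G.Adj (e 2) v}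
      (seg p 0 (l + 1)) hK (by
        obtain ⟨a, ha, h⟩ := hadj 2
        exact ⟨a, ha, h.symm⟩) ⟨p 0, hpK 0 (Nat.zero_le _), 0, le_rfl, Nat.succ_pos _, rfl⟩
    have hra' : ∀ i, i < k → G.Adj (r i) (r (i + 1)) := fun i hi =>
      (hra i (by omega) (i + 1) (by omega)).2 (Or.inr rfl)
    obtain ⟨i, -, hi, hik⟩ := hrk
    have hk : 0 < k := by
      rcases Nat.eq_zero_or_pos k with h | h
      · exfalso
        subst h
        have h3 : G.Adj (e 2) (r 0) := hr0
        rw [← hik] at h3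
        exact h2 i (by omega) h3.symm
      · exact h
    have hsub : seg r 0 k ⊆ K := by
      rintro v ⟨s, -, h4, rfl⟩
      exact hrK s (by omega)
    have hnp : ∀ j ≤ l, p j ∉ seg r 0 k := by
      rintro j hj ⟨s, -, h4, h5⟩
      have := hrY s (by omega) (by rw [h5]; exact ⟨j, Nat.zero_le _, by omega, rfl⟩)
      omega
    refine triAux.core hKA he (fun i => (hE i).1) hpK hpi hpa' hp0.symm hpl.symm
      (i := i) (by omega) hsub hnp (Or.inr ⟨?_, ⟨?_, r (k - 1), ?_, ?_⟩, ⟨?_, r 0, ?_, ?_⟩⟩)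
    · exact triAux.conn_seg hk fun s _ hs => hra' s (by omega)
    · exact hnp i (by omega)
    · exact ⟨k - 1, Nat.zero_le _, by omega, rfl⟩
    · have h3 := hra' (k - 1) (by omega)
      rw [show k - 1 + 1 = k by omega] at h3
      rw [hik]
      exact h3
    · exact fun h => Set.disjoint_left.1 hKA (hsub h) (hE 2).1
    · exact ⟨0, le_rfl, hk, rfl⟩
    · exact (show G.Adj (e 2) (r 0) from hr0).symm

end Pool.Agent.MPd439b2
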