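import Pool.Agent.Lib.MP_d439b2_co.B.KPd
import Pool.Agent.Lib.MP_d439b2_co.B.DDd
import Pool.Agent.Lib.MP_d439b2_co.B.Dig
import Pool.Agent.Lib.MP_d439b2_co.B.Ram
import Pool.Agent.Lib.MP_d439b2_co.B.Grow
import Pool.Agent.Lib.MP_d439b2_co.B.Path
import Pool.Agent.Lib.MP_d439b2_co.B.L1
import Pool.Agent.Lib.MP_d439b2_co.B.L2
import Pool.Agent.Lib.MP_d439b2_co.B.Q1a
import Pool.Agent.Lib.MP_d439b2_co.B.Q1b
import Pool.Agent.Lib.MP_d439b2_co.B.Q2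
import Pool.Agent.Lib.MP_d439b2_co.B.L3
import Pool.Agent.Lib.MP_d439b2_co.B.Q3a
import Pool.Agent.Lib.MP_d439b2_co.B.Q3b
import Pool.Agent.Lib.MP_d439b2_co.B.Q3
import Pool.Agent.Lib.MP_d439b2_co.B.CSet
import Pool.Agent.Lib.MP_d439b2_co.B.RC
import Pool.Agent.Lib.MP_d439b2_co.B.Pat
import Pool.Agent.Lib.MP_d439b2_co.B.Com
import Pool.Agent.Lib.MP_d439b2_co.B.CoreP
import Pool.Agent.Lib.MP_d439b2_co.B.Nest
import Pool.Agent.Lib.MP_d439b2_co.B.PathB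
import Pool.Agent.Lib.MP_d439b2_co.B.PSys
import Pool.Agent.Lib.MP_d439b2_co.B.Touch
import Pool.Agent.Lib.MP_d439b2_co.B.Priv
import Pool.Agent.Lib.MP_d439b2_co.B.Short
import Pool.Agent.Lib.MP_d439b2_co.B.DDC
import Pool.Agent.Lib.MP_d439b2_co.B.LinkBd
import Pool.Agent.Lib.MP_d439b2_co.B.Tri
import Pool.Agent.Lib.MP_d439b2_co.B.Gal
import Pool.Agent.Lib.MP_d439b2_co.B.Seins
import Pool.Agent.Lib.MP_d439b2_co.B.LayU
import Pool.Agent.Lib.MP_d439b2_co.B.LayD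
import Pool.Agent.Lib.MP_d439b2_co.B.Restr
import Pool.Agent.Lib.MP_d439b2_co.B.Rec
import Pool.Agent.Lib.MP_d439b2_co.B.A1
import Pool.Agent.Lib.MP_d439b2_co.B.A3
import Pool.Agent.Lib.MP_d439b2_co.B.A4
import Pool.Agent.Lib.MP_d439b2_co.GT.BigC
import Pool.Agent.Lib.MP_d439b2_co.GT.Core
import Pool.Agent.Lib.MP_d439b2_co.GT.Cutj
import Pool.Agent.Lib.MP_d439b2_co.GT.Deep
import Pool.Agent.Lib.MP_d439b2_co.GT.ExtA
import Pool.Agent.Lib.MP_d439b2_co.GT.ExtB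
import Pool.Agent.Lib.MP_d439b2_co.GT.ExtC
import Pool.Agent.Lib.MP_d439b2_co.GT.FinG
import Pool.Agent.Lib.MP_d439b2_co.GT.FinK
import Pool.Agent.Lib.MP_d439b2_co.GT.GK
import Pool.Agent.Lib.MP_d439b2_co.GT.Gam
import Pool.Agent.Lib.MP_d439b2_co.GT.Grd
import Pool.Agent.Lib.MP_d439b2_co.GT.Hv
import Pool.Agent.Lib.MP_d439b2_co.GT.LadG
import Pool.Agent.Lib.MP_d439b2_co.GT.LadP
import Pool.Agent.Lib.MP_d439b2_co.GT.LadS
import Pool.Agent.Lib.MP_d439b2_co.GT.Link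
import Pool.Agent.Lib.MP_d439b2_co.GT.Men
import Pool.Agent.Lib.MP_d439b2_co.GT.Min
import Pool.Agent.Lib.MP_d439b2_co.GT.MinH
import Pool.Agent.Lib.MP_d439b2_co.GT.Msh
import Pool.Agent.Lib.MP_d439b2_co.GT.PS
import Pool.Agent.Lib.MP_d439b2_co.GT.Sel
import Pool.Agent.Lib.MP_d439b2_co.GT.SelS
import Pool.Agent.Lib.MP_d439b2_co.GT.Sub
import Pool.Agent.Lib.MP_d439b2_co.J.Main

/-!
# MP_d439b2_co, Theorem B: assembly of the layout theorem
-/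

set_option autoImplicit false

namespace Pool.Agent.MPd439b2

/-- the grid theorem with depth -/
theorem gkFinal : S_GK := by
  intro t r k hkt
  have hMin : GT.SMin := GT.pMin GT.pBigC (GT.pExtA GT.pBigC) (GT.pExtB GT.pMen GT.pBigC) GT.pExtC
  have hMsh : GT.SMsh := GT.pMsh hMin (GT.pLink GT.pMen GT.pBigC) (GT.pDeep GT.pBigC)
  have hSel : GT.SSel := GT.pSel (GT.pSelS GT.pMinH (GT.pCore (GT.pCutj GT.pMen)))
  have hGrd : GT.SGrd := GT.pGrd GT.pPS GT.pGam GT.pSub GT.pLadP GT.pLadS GT.pLadG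
  exact gk_of_GT GT.pHv (GT.pGK hMsh hSel hGrd GT.pFinK GT.pFinG) t r k hkt

/-- Theorem Q -/
theorem qFinal : S_Q :=
  a3 (q1b (q1a (l2 kPd) grow) dDd dig) (q2 ram (l1 kPd))
    (q3 (q3b (q3a (l3 kPd) kPd grow) dDd dig))

/-- Theorem C -/
theorem coreFinal : S_Core :=
  a4 (coreP cSet rC (pat kPd) (com path))
    (linkBd (pSys path) (touch pathB dig) (priv pathB dig) (short pathB nest) (dDC dDd) ram)
    (gal (tri path) path)

/-- graphs without `KP s`, `DD N m` and `grid r` have layouts of bounded width -/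
theorem layBFinal : S_LayB :=
  recB (layD seins layU) restrIMS (a1 gkFinal qFinal coreFinal)

end Pool.Agent.MPd439b2
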