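import Pool.Agent.Lib.MP_d439b2_co.B.SpecC

/-!
# MP_d439b2_co, Theorem B, Spec R: cographs, layouts and the recursion; assembly

Every `S_...` is a statement to be proved in its own file; the docstring contains the complete
proof.
-/

set_option autoImplicit false

namespace Pool.Agent.MPd439b2

/-- **R1.** Seinsche's theorem: a `P_4`-free set with at least two elements splits into two nonempty
parts with no edges or all edges between them.

Proof. Induction on `|A|`.  `|A| = 2` is trivial.  Let `v ∈ A`, `A' = A \ {v}`, `|A'| ≥ 2`; by induction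
`A' = A₁ ∪ A₂` with (say) no edges between the parts; the other case is the same for the complement
graph (`P4Free` is invariant under complementation: `a b c d` becomes `b d a c`; prove the statement
for all graphs simultaneously by strong induction).  So `G[A']` is disconnected.  If `v` has no
neighbour in some union `X` of components of `G[A']` (nonempty) then `A = X ∪ (A \ X)` works; so `v` has a
neighbour in every component of `G[A']`.  If `v` is adjacent to all vertices of `A'` then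
`A = {v} ∪ A'` works (all edges).  Otherwise let `C` be a component of `G[A']` (`exists_comp`) containing a
non-neighbour of `v`; it also contains a neighbour of `v`; as `C` is connected there are adjacent
`x, y ∈ C` with `v ~ x`, `v` not adjacent to `y` (`Conn` with `B = {x ∈ C | G.Adj v x}`).  There is a
component `C' ≠ C` (`C ≠ A'` since `G[A']` is disconnected: `C` is inside `A₁` or inside `A₂`), with a
neighbour `z` of `v`.  `z, v, x, y` is an induced path: contradiction. -/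
def S_Seins : Prop := ∀ (V : Type) [Finite V] (G : SimpleGraph V) (A : Set V), P4Free G A →
  2 ≤ A.ncard → ∃ A₁ A₂ : Set V, A₁.Nonempty ∧ A₂.Nonempty ∧ Disjoint A₁ A₂ ∧ A₁ ∪ A₂ = A ∧
    ((∀ a ∈ A₁, ∀ b ∈ A₂, ¬ G.Adj a b) ∨ ∀ a ∈ A₁, ∀ b ∈ A₂, G.Adj a b)

/-- **R2.** Finite unions of pieces behind a small set.

Proof. Induction on the finite set `𝒟` (it is finite, `V` is finite; for instance `Set.Finite.induction_on`
for the statement for all `𝒟' ⊆ 𝒟`).  `Lay.empty`, `Lay.union`.  The types of a partial union `X` (of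
members of `𝒟' ⊆ 𝒟`) are at most `2 ^ |E|` by `types_encard_le`, since `nb G X ⊆ E`: a vertex of `nb G X` is
in some `nb G Y`, `Y ∈ 𝒟'`. -/
def S_LayU : Prop := ∀ (V : Type) [Finite V] (G : SimpleGraph V) (k : ℕ) (E : Set V)
  (𝒟 : Set (Set V)), 2 ^ E.ncard ≤ k → (∀ Y ∈ 𝒟, Lay G k Y ∧ nb G Y ⊆ E) →
    (∀ Y ∈ 𝒟, ∀ Y' ∈ 𝒟, Y ≠ Y' → Disjoint Y Y') → Lay G k (⋃₀ 𝒟)

/-- **R3.** Layout of a cograph with hanging pieces.  (Uses `S_Seins`, `S_LayU`.)

Proof. `E = S ∪ T`.  The components `D` of `G[(U ∪ S) \ (A ∪ T)]` partition this set; two different ones do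
not touch.  For `a ∈ A` let `W a` be the union of the sets `U ∩ D` over all components `D` with
`nb G D ∩ A = {a}` (exactly), and let `W'` be the union of the `U ∩ D` over the components with
`nb G D ∩ A = ∅`.
(1) `nb G (U ∩ D) ⊆ E ∪ (nb G D ∩ A)`: let `u ∈ U ∩ D`, `u ~ v`, `v ∉ U ∩ D`.  `v ∈ U` or
`v ∈ nb G U ⊆ S`.  If `v ∈ E` fine.  Otherwise `v ∈ U`, `v ∉ T`, so `v ∉ D`; if `v ∉ A` then
`v ∈ (U ∪ S) \ (A ∪ T)` would be in `D` (component); so `v ∈ A ∩ nb G D`.
(2) By `S_LayU` with `E ∪ {a}` resp. `E`: `Lay G k (W a)`, `Lay G k W'` (`2 ^ (|E| + 1) ≤ k`).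
(3) For `A' ⊆ A` put `Y(A') = ⋃_{a ∈ A'} (({a} ∩ U) ∪ W a)`.  CLAIM: if `A' ⊆ A` is a module
(every `b ∈ A \ A'` is adjacent to all or to none of the elements of `A'`) then `Lay G k (Y(A'))`.
Types of `Y(A')`: the trace of a vertex `u ∈ W a` outside `Y(A')` is a subset of `E` (by (1): a neighbour
outside `E` is in `U ∩ D` or is `a`, and `a ∈ U` or `a ∈ S ⊆ E`, so it is in `Y(A')` or in `E`).  The trace of
`a ∈ A' ∩ U`: its neighbours are in `U ∪ S`; outside `E` they are in `A ∩ U` or in a component `D` (in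
`U ∩ D`) with `a ∈ nb G D ∩ A`, so `nb G D ∩ A = {a}` and they are in `W a ⊆ Y(A')`; so the trace is
(a subset of `E`) ∪ (`M \ E`), where `M` is the set of the `b ∈ A \ A'` adjacent to all elements of `A'`
(intersected with `U`).  So there are at most `2 ^ |E| + 2 ^ |E| ≤ k` types.
Proof of the claim by induction on `|A'|`: `A' = ∅` trivial.  `A' = {a}`: `W a`, and if `a ∈ U` then
`Lay.insert`.  `|A'| ≥ 2`: `S_Seins` for `A'` (`P4Free` is inherited) gives `A' = A₁ ∪ A₂`; both parts are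
modules; `Lay.union`.
(4) `U = Y(A) ∪ W' ∪ (U ∩ T)`.  `A` is a module.  `nb G (Y(A) ∪ W') ⊆ E` and the same for
`Y(A) ∪ W' ∪ T'`, `T' ⊆ U ∩ T` (everything of `U` outside it is in `T`): `Lay.union`, then add the elements of
`U ∩ T` one after the other with `Lay.insert`. -/
def S_LayD : Prop := ∀ (V : Type) [Finite V] (G : SimpleGraph V) (k : ℕ) (U S A T : Set V),
  Disjoint U S → nb G U ⊆ S → A ⊆ U ∪ S → Disjoint A T → P4Free G A →
    2 ^ (S.ncard + T.ncard + 1) ≤ k →
    (∀ D, IsComp G ((U ∪ S) \ (A ∪ T)) D → (nb G D ∩ A).ncard ≤ 1 ∧ Lay G k (U ∩ D)) →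
    Lay G k U

/-- `G` restricted to `X`: all vertices outside `X` become isolated -/
def restr {V : Type} (G : SimpleGraph V) (X : Set V) : SimpleGraph V where
  Adj u v := G.Adj u v ∧ u ∈ X ∧ v ∈ X
  symm := ⟨fun _ _ h => ⟨h.1.symm, h.2.2, h.2.1⟩⟩
  loopless := ⟨fun u h => G.loopless.irrefl u h.1⟩

/-- **R4.** Induced minors of a restricted graph.

Proof. Let `B` be a model of `H` in `restr G X`.  Every branch set `B w` is inside `X`: there is `w'` with
`H.Adj w w'`, so `B w` contains a vertex which is adjacent (in `restr G X`) to another vertex, hence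
`B w ∩ X ≠ ∅`; `B w ∩ X` is closed in `B w` with respect to `restr G X` (`Conn.eq_of_nb`), so `B w ⊆ X`.  Inside
`X` the adjacencies of `G` and of `restr G X` agree; connectivity by `Conn.congr`. -/
def S_Restr : Prop := ∀ (V W : Type) (G : SimpleGraph V) (H : SimpleGraph W) (X : Set V),
  (∀ w, ∃ w', H.Adj w w') → IMS H (restr G X) Set.univ → IMS H G Set.univ

/-- **R5.** The recursion.  (Uses `S_LayD`, `S_Restr`.)

Proof. Let `θ, τ` be from the hypothesis `S_DG` and `q = 5 θ + 2 τ + 3`,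
`k = 2 ^ (q + θ + τ + 2)`.  CLAIM: for all `n` and all `U`, `S` with `|U| = n`, `Disjoint U S`,
`nb G U ⊆ S`, `|S| ≤ q`: `Lay G k U`.  (The theorem is the case `U = univ`, `S = ∅`.)  Strong induction on
`n`; `U = ∅` is trivial, let `n ≥ 1`.
(M) If `U' , S'` satisfy the hypotheses, `|U'| ≤ n` and `|S'| < q` then `Lay G k U'`: trivial if `U' = ∅`;
otherwise take `v ∈ U'`; the induction applies to `U' \ {v}`, `insert v S'` (`nb` of `U' \ {v}` is inside
`nb G U' ∪ {v}`), then `Lay.insert` with `types_encard_le` (`nb G U' ⊆ S'`).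
So let `|S| = q`, `X = U ∪ S`, `G' = restr G X`.
CASE 1: `¬ WL G' S θ`: there are `P, Z, R` with `|Z| ≤ θ`, no `G'`-edges between `P` and `R`,
`|S ∩ P| > |Z|`, `|S ∩ R| > |Z|`.  Put `U₁ = U ∩ P`, `S₁ = (S ∩ P) ∪ (Z ∩ X)`.  `nb G U₁ ⊆ S₁`: a neighbour
`v ∉ U₁` of `u ∈ U₁` is in `U ∪ S = X`, so it is a `G'`-neighbour and not in `R`; if `v ∈ P` then `v ∉ U`, so
`v ∈ S ∩ P`; otherwise `v ∈ Z`.  `|S₁| ≤ |S ∩ P| + |Z| < |S ∩ P| + |S ∩ R| ≤ q`, `Disjoint U₁ S₁`.  By (M)
`Lay G k U₁`; the same for `U₂ = U ∩ R`.  `U = U₁ ∪ U₂ ∪ (U ∩ Z)`; all sets `U₁ ∪ U₂ ∪ Z'`, `Z' ⊆ U ∩ Z`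
have `nb ⊆ S ∪ Z`, so at most `2 ^ (q + θ)` types: `Lay.union`, then `Lay.insert` repeatedly.
CASE 2: `WL G' S θ`.  `|S| = q ≥ 5 θ`; `G'` satisfies `Free s N m` and has no grid by `S_Restr` (all
vertices of `KP s`, of `DD N m` for `2 ≤ N`, `2 m ≤ N`, and of `grid r` for `2 ≤ r` have a neighbour).
`S_DG` gives `A, T`.  Put `A' = A ∩ X`, `T' = T ∩ X`.  Apply `S_LayD` with `U, S, A', T'`: `P4Free G A'`
(adjacency in `X` is the same for `G` and `G'`).  Let `D` be a component of `G[X \ (A' ∪ T')]`; it is also a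
component of `G'[(A ∪ T)ᶜ]` (inside `X` the graphs agree, the vertices outside `X` are isolated in `G'`).
`nb G D ∩ A' ⊆ nb G' D ∩ A`: at most one element.  `Lay G k (U ∩ D)` by (M) with
`S' = (S ∩ D) ∪ (nb G' D)`: `nb G (U ∩ D) ⊆ S'` (a neighbour `v ∉ U ∩ D` of `u ∈ U ∩ D` is in `X`; if `v ∈ D`
then `v ∈ S ∩ D`, otherwise `v ∈ nb G' D`); `nb G' D ⊆ (nb G' D ∩ A) ∪ T` has at most `1 + τ` elements and
`2 |S ∩ D| ≤ |S| = q`, so `2 |S'| ≤ q + 2 τ + 2 < 2 q`.  `Disjoint (U ∩ D) S'`.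
(`2 ^ (|S| + |T'| + 1) ≤ k`.) -/
def S_Rec : Prop := S_DG → S_LayB

/-- **A1.** The structure theorem from its parts.  (Uses `S_GK`, `S_Q`, `S_Core`.)

Proof. `S_Core s N m` gives `n, τ`; `k = τ + 2`; `S_Q s N m (max n k)` gives `t₀`, `t = max t₀ k`;
`S_GK t r k` (note `k ≤ t`) gives `θ = θ₀`.  Let `G, S` be given.  No grid, so there is a deep model
`B : Fin t → Set V`; `B' i = if h : i < t then B ⟨i, h⟩ else ∅` is an `Mdl` on `range t`.  `S_Q` gives
`Q₁, Q₂`.  CLAIM `DeepV G S k Q₁`: let `|X| < k`; there is `a ∈ Q₁ \ X` (`|Q₁| ≥ k`); at least `k` sets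
`B' j` are touched by `{a}`, they are disjoint, so one of them is disjoint from `X`; by `Deep` there are
`i, C`, `B i ⊆ C`, `C ∩ X = ∅`; `B j` equals or touches `B i`; `C' = C ∪ B j ∪ {a}` is connected, disjoint
from `X`, contains `a` and `|S ∩ C'| ≥ |S ∩ C|`.
`S_Core` gives `A₀ ⊇ Q₁` and `T`; put `A = A₀ \ T`.  Let `D` be a component of `(A ∪ T)ᶜ = (A₀ ∪ T)ᶜ`:
`|nb G D ∩ A| ≤ 1`, as `nb G D ∩ A = (nb G D ∩ A₀) \ T`.  `X = nb G D ⊆ A ∪ T` (component) has at most
`1 + τ < k` elements.  `DeepV` gives `a ∈ Q₁` and a connected `C ∋ a` disjoint from `X` with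
`|S| < 2 |S ∩ C|`.  `C ∩ D = ∅`: otherwise `C ∩ D` is closed in `C` (a neighbour of `D` outside `D` is in `X`),
so `C ⊆ D`, but `a ∈ A₀` is not in `D`.  So `|S ∩ D| ≤ |S| - |S ∩ C|` and `2 |S ∩ D| ≤ |S|`. -/
def S_A1 : Prop := S_GK → S_Q → S_Core → S_DG

end Pool.Agent.MPd439b2
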