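import Pool.Agent.Lib.MP_d439b2_co.B.SpecA

/-! A6: small joins. -/

set_option autoImplicit false

namespace Pool.Agent.MPd439b2

namespace a6Aux

theorem three {W : Type} {S : Set W} (h : S.encard ≤ 2) {a b c : W} (ha : a ∈ S) (hb : b ∈ S)
    (hc : c ∈ S) (hab : a ≠ b) (hac : a ≠ c) (hbc : b ≠ c) : False := by
  have h1 : ({a, b, c} : Set W).encard = 3 := by
    rw [Set.encard_insert_of_notMem, Set.encard_pair hbc]
    · norm_num
    · simp only [Set.mem_insert_iff, Set.mem_singleton_iff, not_or]
      exact ⟨hab, hac⟩
  have h2 : ({a, b, c} : Set W) ⊆ S := by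
    intro w hw
    simp only [Set.mem_insert_iff, Set.mem_singleton_iff] at hw
    rcases hw with rfl | rfl | rfl
    · exact ha
    · exact hb
    · exact hc
  have h3 := Set.encard_le_encard h2
  rw [h1] at h3
  have h4 := h3.trans h
  exact absurd h4 (by decide)

end a6Aux

open Classical in
theorem a6 : S_A6 := by
  intro W _ H hKP hS
  by_cases hcomp : IsComplete H
  · exact Or.inl hcomp
  right
  obtain ⟨g, hg1, hg2⟩ := hKP
  obtain ⟨K, hK1, hK2, hK3⟩ := hS
  have hex : ∃ a b, a ≠ b ∧ ¬ H.Adj a b ∧ a ∉ K := by
    unfold IsComplete at hcomp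
    push Not at hcomp
    obtain ⟨x, y, hne, hadj⟩ := hcomp
    by_cases hx : x ∈ K
    · refine ⟨y, x, hne.symm, fun h => hadj h.symm, fun hy => hadj (hK1 x hx y hy hne)⟩
    · exact ⟨x, y, hne, hadj, hx⟩
  obtain ⟨a, b, hab, hnab, haK⟩ := hex
  have hnone : ∀ u v, g u = none → u ≠ v → H.Adj u v := by
    intro u v hu hne
    rw [hg2 u v hne]
    intro i j hi
    rw [hu] at hi
    exact absurd hi (by simp)
  have hga : ∃ i, g a = some i := by
    cases h : g a with
    | none => exact absurd (hnone a b h hab) hnab
    | some i => exact ⟨i, rfl⟩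
  obtain ⟨i, hi⟩ := hga
  have hNa := hK3 a haK
  by_cases hU : ∀ u v, g u = none → g v = none → u = v
  · left
    set f : W → Fin 5 := fun w => match g w with
      | some i => ⟨i.val, by omega⟩
      | none => ⟨4, by omega⟩ with hf
    have fS : ∀ w j, g w = some j → (f w).val = j.val := by
      intro w j hw
      simp only [hf, hw]
    have fN : ∀ w, g w = none → (f w).val = 4 := by
      intro w hw
      simp only [hf, hw]
    have hinj : ∀ u v, f u = f v → u = v := by
      intro u v huv
      have h1 := congrArg Fin.val huv
      cases hu : g u with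
      | none =>
        cases hv : g v with
        | none => exact hU u v hu hv
        | some j =>
          rw [fN u hu, fS v j hv] at h1
          omega
      | some i' =>
        cases hv : g v with
        | none =>
          rw [fN v hv, fS u i' hu] at h1
          omega
        | some j =>
          rw [fS u i' hu, fS v j hv] at h1
          have h2 : i' = j := Fin.ext h1
          rw [h2] at hu
          exact hg1 u v j hu hv
    refine ⟨f, fun u v h => hinj u v h, ?_⟩
    intro u v
    by_cases huv : u = v
    · subst huv
      exact ⟨fun h => absurd h (H.loopless.irrefl u), fun h => absurd rfl h.1⟩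
    have hfuv : f u ≠ f v := fun h => huv (hinj u v h)
    rw [hg2 u v huv]
    show _ ↔ (f u ≠ f v ∧ ((f u).val = 4 ∨ (f v).val = 4 ∨ (f u).val = (f v).val + 1 ∨
      (f v).val = (f u).val + 1))
    cases hu : g u with
    | none =>
      rw [fN u hu]
      exact ⟨fun _ => ⟨hfuv, Or.inl rfl⟩, fun _ i' j' h => absurd h (by simp)⟩
    | some i' =>
      cases hv : g v with
      | none =>
        rw [fN v hv]
        exact ⟨fun _ => ⟨hfuv, Or.inr (Or.inl rfl)⟩, fun _ i' j' _ h => absurd h (by simp)⟩
      | some j =>
        rw [fS u i' hu, fS v j hv]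
        constructor
        · intro h
          exact ⟨hfuv, Or.inr (Or.inr (h i' j rfl rfl))⟩
        · rintro ⟨_, h⟩ i'' j'' h1 h2
          obtain rfl := Option.some.inj h1
          obtain rfl := Option.some.inj h2
          have h1 := i'.2
          have h2 := j.2
          omega
  · right
    push Not at hU
    obtain ⟨u0, u1, hu0, hu1, hu01⟩ := hU
    -- a vertex outside `K` which is labelled has no labelled neighbour
    have hlab : ∀ w, w ∉ K → g w ≠ none → ∀ v, H.Adj w v → v = u0 ∨ v = u1 := by
      intro w hwK hw v hv
      by_contra hcon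
      push Not at hcon
      have hw0 : u0 ≠ w := fun h => hw (h ▸ hu0)
      have hw1 : u1 ≠ w := fun h => hw (h ▸ hu1)
      exact a6Aux.three (hK3 w hwK) (a := u0) (b := u1) (c := v) (hnone u0 w hu0 hw0).symm
        (hnone u1 w hu1 hw1).symm hv hu01 hcon.1.symm hcon.2.symm
    have hUn : ∀ w, g w = none → w = u0 ∨ w = u1 := by
      intro w hw
      have hwa : w ≠ a := by
        intro h
        rw [h, hi] at hw
        exact absurd hw (by simp)
      exact hlab a haK (by rw [hi]; simp) w (hnone w a hw hwa).symm
    have ha0 : a ≠ u0 := fun h => by rw [h, hu0] at hi; exact absurd hi (by simp)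
    have ha1 : a ≠ u1 := fun h => by rw [h, hu1] at hi; exact absurd hi (by simp)
    have hainc : ∀ v j, g v = some j → v ≠ a → ¬ (i.val = j.val + 1 ∨ j.val = i.val + 1) ∧
        i.val ≠ j.val := by
      intro v j hv hva
      constructor
      · intro h
        have h1 : H.Adj a v := by
          rw [hg2 a v hva.symm]
          intro i' j' hi' hj'
          rw [hi] at hi'
          rw [hv] at hj'
          obtain rfl := Option.some.inj hi'
          obtain rfl := Option.some.inj hj'
          exact h
        rcases hlab a haK (by rw [hi]; simp) v h1 with h2 | h2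
        · rw [h2, hu0] at hv; exact absurd hv (by simp)
        · rw [h2, hu1] at hv; exact absurd hv (by simp)
      · intro h
        have h2 : i = j := Fin.ext h
        rw [← h2] at hv
        exact hva (hg1 v a i hv hi)
    have hRR : ∀ v w j k, g v = some j → g w = some k → v ≠ a → w ≠ a → v ≠ w →
        (j.val = k.val + 1 ∨ k.val = j.val + 1) := by
      intro v w j k hv hw hva hwa hvw
      have h1 := hainc v j hv hva
      have h2 := hainc w k hw hwa
      have h3 : j.val ≠ k.val := by
        intro h
        have h4 : j = k := Fin.ext h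
        rw [h4] at hv
        exact hvw (hg1 v w k hv hw)
      have := i.2
      have := j.2
      have := k.2
      omega
    set f : W → Fin 5 := fun w => if w = u0 then 0 else if w = u1 then 1 else if w = a then 4 else
      match g w with
      | some j => if j.val % 2 = 0 then 2 else 3
      | none => 0 with hf
    have hf0 : f u0 = 0 := by simp only [hf, if_true]
    have hf1 : f u1 = 1 := by simp only [hf, hu01.symm, if_true, if_false]
    have hfa : f a = 4 := by simp only [hf, ha0, ha1, if_true, if_false]
    have hfR : ∀ w j, g w = some j → w ≠ a → f w = if j.val % 2 = 0 then 2 else 3 := by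
      intro w j hw hwa
      have h0 : w ≠ u0 := fun h => by rw [h, hu0] at hw; exact absurd hw (by simp)
      have h1 : w ≠ u1 := fun h => by rw [h, hu1] at hw; exact absurd hw (by simp)
      simp only [hf, h0, h1, hwa, if_false, hw]
    have hcases : ∀ w, w = u0 ∨ w = u1 ∨ w = a ∨ ∃ j, g w = some j ∧ w ≠ a := by
      intro w
      by_cases hwa : w = a
      · exact Or.inr (Or.inr (Or.inl hwa))
      cases hw : g w with
      | none =>
        rcases hUn w hw with h | h
        · exact Or.inl h
        · exact Or.inr (Or.inl h)
      | some j => exact Or.inr (Or.inr (Or.inr ⟨j, rfl, hwa⟩))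
    have hfR' : ∀ w j, g w = some j → w ≠ a → f w = 2 ∨ f w = 3 := by
      intro w j hw hwa
      rw [hfR w j hw hwa]
      split_ifs
      · exact Or.inl rfl
      · exact Or.inr rfl
    -- the main statement, for ordered pairs of cases
    have key : ∀ u v, u ≠ v → (H.Adj u v ↔ co2P1P3.Adj (f u) (f v)) ∧ f u ≠ f v := by
      have hnoneF : ∀ u v, g u = none → (f u = 0 ∨ f u = 1) → u ≠ v → f u ≠ f v →
          (H.Adj u v ↔ co2P1P3.Adj (f u) (f v)) ∧ f u ≠ f v := by
        intro u v hu hfu huv hne
        refine ⟨⟨fun _ => ⟨hne, Or.inl ?_⟩, fun _ => hnone u v hu huv⟩, hne⟩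
        rcases hfu with h | h <;> rw [h] <;> decide
      have hsym : ∀ u v, ((H.Adj v u ↔ co2P1P3.Adj (f v) (f u)) ∧ f v ≠ f u) →
          ((H.Adj u v ↔ co2P1P3.Adj (f u) (f v)) ∧ f u ≠ f v) := by
        intro u v h
        exact ⟨⟨fun h1 => (h.1.1 h1.symm).symm, fun h1 => (h.1.2 h1.symm).symm⟩, h.2.symm⟩
      have h0 : ∀ v, u0 ≠ v → (H.Adj u0 v ↔ co2P1P3.Adj (f u0) (f v)) ∧ f u0 ≠ f v := by
        intro v hv
        refine hnoneF u0 v hu0 (Or.inl hf0) hv ?_
        rw [hf0]
        rcases hcases v with h | h | h | ⟨j, hj, hja⟩
        · exact absurd h.symm hv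
        · rw [h, hf1]; decide
        · rw [h, hfa]; decide
        · rcases hfR' v j hj hja with h | h <;> rw [h] <;> decide
      have h1 : ∀ v, u1 ≠ v → (H.Adj u1 v ↔ co2P1P3.Adj (f u1) (f v)) ∧ f u1 ≠ f v := by
        intro v hv
        refine hnoneF u1 v hu1 (Or.inr hf1) hv ?_
        rw [hf1]
        rcases hcases v with h | h | h | ⟨j, hj, hja⟩
        · rw [h, hf0]; decide
        · exact absurd h.symm hv
        · rw [h, hfa]; decide
        · rcases hfR' v j hj hja with h | h <;> rw [h] <;> decide
      have haR : ∀ v j, g v = some j → v ≠ a → (H.Adj a v ↔ co2P1P3.Adj (f a) (f v)) ∧ f a ≠ f v := by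
        intro v j hv hva
        have h2 : ¬ H.Adj a v := by
          rw [hg2 a v hva.symm]
          intro h
          exact (hainc v j hv hva).1 (h i j hi hv)
        have h3 : ¬ co2P1P3.Adj (f a) (f v) := by
          rw [hfa]
          rintro ⟨_, h⟩
          rcases hfR' v j hv hva with h' | h' <;> rw [h'] at h <;> revert h <;> decide
        refine ⟨⟨fun h => absurd h h2, fun h => absurd h h3⟩, ?_⟩
        rw [hfa]
        rcases hfR' v j hv hva with h | h <;> rw [h] <;> decide
      have hRR' : ∀ u v j k, g u = some j → g v = some k → u ≠ a → v ≠ a → u ≠ v →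
          (H.Adj u v ↔ co2P1P3.Adj (f u) (f v)) ∧ f u ≠ f v := by
        intro u v j k hu hv hua hva huv
        have h2 := hRR u v j k hu hv hua hva huv
        have h3 : H.Adj u v := by
          rw [hg2 u v huv]
          intro j' k' hj' hk'
          rw [hu] at hj'
          rw [hv] at hk'
          obtain rfl := Option.some.inj hj'
          obtain rfl := Option.some.inj hk'
          exact h2
        have h4 : f u ≠ f v ∧ co2P1P3.Adj (f u) (f v) := by
          rw [hfR u j hu hua, hfR v k hv hva]
          by_cases hj : j.val % 2 = 0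
          · have hk : ¬ (k.val % 2 = 0) := by omega
            rw [if_pos hj, if_neg hk]
            exact ⟨by decide, by decide, Or.inr (Or.inr ⟨by decide, by decide⟩)⟩
          · have hk : k.val % 2 = 0 := by omega
            rw [if_neg hj, if_pos hk]
            exact ⟨by decide, by decide, Or.inr (Or.inr ⟨by decide, by decide⟩)⟩
        exact ⟨⟨fun _ => h4.2, fun _ => h3⟩, h4.1⟩
      intro u v huv
      rcases hcases u with h | h | h | ⟨j, hj, hja⟩
      · subst h; exact h0 v huv
      · subst h; exact h1 v huv
      · rcases hcases v with h' | h' | h' | ⟨k, hk, hka⟩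
        · subst h'; exact hsym _ _ (h0 u huv.symm)
        · subst h'; exact hsym _ _ (h1 u huv.symm)
        · exact absurd (h.trans h'.symm) huv
        · rw [h]; exact haR v k hk hka
      · rcases hcases v with h' | h' | h' | ⟨k, hk, hka⟩
        · subst h'; exact hsym _ _ (h0 u huv.symm)
        · subst h'; exact hsym _ _ (h1 u huv.symm)
        · rw [h']; exact hsym _ _ (haR u j hj hja)
        · exact hRR' u v j k hj hk hja hka huv
    refine ⟨f, ?_, ?_⟩
    · intro u v h
      by_contra hne
      exact (key u v hne).2 h
    · intro u v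
      by_cases huv : u = v
      · subst huv
        exact ⟨fun h => absurd h (H.loopless.irrefl u), fun h => absurd rfl h.1⟩
      · exact (key u v huv).1

end Pool.Agent.MPd439b2
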