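import Pool.Agent.Lib.MP_d439b2_co.Spec1

/-!
# MP_d439b2_co : the complement of six disjoint edges
-/

set_option autoImplicit false

namespace Pool.Agent.MPd439b2

/-- the complete multipartite graph with six classes of two vertices -/
def co6P2 : SimpleGraph (Fin 6 × Bool) where
  Adj x y := x.1 ≠ y.1
  symm := ⟨fun _ _ h => h.symm⟩
  loopless := ⟨fun _ h => h rfl⟩

end Pool.Agent.MPd439b2
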