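import Pool.Agent.Lib.MP_d439b2_co.B.SpecF

/-!
# MP_d439b2_co, module FC (task 8535): the graphs between `K3P` and `K5P`
-/

set_option autoImplicit false

namespace Pool.Agent.MPd439b2

namespace fCAux

/-- the map `5 ↦ 4`, `0, 1 ↦ 0`, `2, 3, 4 ↦ 1, 2, 3` -/
def phi (i : Fin 6) : Fin 5 := ⟨i.val - 1, by omega⟩

lemma phi_inj (i j : Fin 6) (h : phi i = phi j) :
    i = j ∨ (i = 0 ∧ j = 1) ∨ (i = 1 ∧ j = 0) := by
  have h1 : i.val - 1 = j.val - 1 := congrArg Fin.val h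
  have hi := i.isLt
  have hj := j.isLt
  rcases Nat.lt_trichotomy i.val j.val with h2 | h2 | h2
  · right; left
    exact ⟨Fin.ext (by simp; omega), Fin.ext (by simp; omega)⟩
  · left
    exact Fin.ext h2
  · right; right
    exact ⟨Fin.ext (by simp; omega), Fin.ext (by simp; omega)⟩

lemma phi_adj (i j : Fin 6) (h : ¬ (i = 0 ∧ j = 1)) (h' : ¬ (i = 1 ∧ j = 0)) :
    K5P.Adj i j ↔ K4P.Adj (phi i) (phi j) := by
  unfold K5P K4P
  revert h h'
  revert i j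
  decide

lemma five (a b c d : Fin 6) (hab : a ≠ b) (hac : a ≠ c) (hbc : b ≠ c) (had : a ≠ d)
    (hbd : b ≠ d) (hcd : c ≠ d) (h1 : ¬ K5P.Adj a d) (h2 : ¬ K5P.Adj b d) (h3 : ¬ K5P.Adj c d) :
    d.val = 5 ∧ ∀ x : Fin 6, 2 ≤ x.val → x = a ∨ x = b ∨ x = c ∨ x = d := by
  have e1 : ¬ ((a.val < 5 ∧ d.val < 5) ∨ a.val < 2 ∨ d.val < 2) := fun h => h1 ⟨had, h⟩
  have e2 : ¬ ((b.val < 5 ∧ d.val < 5) ∨ b.val < 2 ∨ d.val < 2) := fun h => h2 ⟨hbd, h⟩
  have e3 : ¬ ((c.val < 5 ∧ d.val < 5) ∨ c.val < 2 ∨ d.val < 2) := fun h => h3 ⟨hcd, h⟩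
  have f1 : a.val ≠ b.val := fun h => hab (Fin.ext h)
  have f2 : a.val ≠ c.val := fun h => hac (Fin.ext h)
  have f3 : b.val ≠ c.val := fun h => hbc (Fin.ext h)
  have f4 : a.val ≠ d.val := fun h => had (Fin.ext h)
  have f5 : b.val ≠ d.val := fun h => hbd (Fin.ext h)
  have f6 : c.val ≠ d.val := fun h => hcd (Fin.ext h)
  have ha := a.isLt
  have hb := b.isLt
  have hc := c.isLt
  have hd := d.isLt
  refine ⟨by omega, ?_⟩
  intro x hx
  have hx' := x.isLt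
  by_contra hcon
  push Not at hcon
  obtain ⟨g1, g2, g3, g4⟩ := hcon
  have g1' : x.val ≠ a.val := fun h => g1 (Fin.ext h)
  have g2' : x.val ≠ b.val := fun h => g2 (Fin.ext h)
  have g3' : x.val ≠ c.val := fun h => g3 (Fin.ext h)
  have g4' : x.val ≠ d.val := fun h => g4 (Fin.ext h)
  omega

end fCAux

open fCAux in
theorem fC : S_FC := by
  intro W H hK hE
  obtain ⟨g, hg, hga⟩ := hK
  obtain ⟨f, hf, hfa⟩ := hE
  have hinj : Function.Injective (fun i => f (g i)) := hf.comp hg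
  have hne : ∀ i j : Fin 4, i ≠ j → f (g i) ≠ f (g j) := fun i j hij h => hij (hinj h)
  have hna : ∀ i : Fin 4, ¬ K5P.Adj (f (g i)) (f (g 3)) := by
    intro i h
    have h1 : K3P.Adj i 3 := (hga i 3).2 ((hfa _ _).2 h)
    exact absurd h1.2.2 (by decide)
  obtain ⟨h5, hsur⟩ := five (f (g 0)) (f (g 1)) (f (g 2)) (f (g 3)) (hne _ _ (by decide))
    (hne _ _ (by decide)) (hne _ _ (by decide)) (hne _ _ (by decide)) (hne _ _ (by decide))
    (hne _ _ (by decide)) (hna 0) (hna 1) (hna 2)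
  by_cases h01 : (∃ w, f w = 0) ∧ ∃ w, f w = 1
  · right
    have hs : Function.Surjective f := by
      intro x
      by_cases hx : 2 ≤ x.val
      · rcases hsur x hx with h | h | h | h
        · exact ⟨_, h.symm⟩
        · exact ⟨_, h.symm⟩
        · exact ⟨_, h.symm⟩
        · exact ⟨_, h.symm⟩
      · by_cases h0 : x.val = 0
        · obtain ⟨w, hw⟩ := h01.1
          exact ⟨w, hw.trans (Fin.ext h0.symm)⟩
        · obtain ⟨w, hw⟩ := h01.2
          exact ⟨w, hw.trans (Fin.ext (by simp; omega))⟩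
    exact ⟨{ Equiv.ofBijective f ⟨hf, hs⟩ with
      map_rel_iff' := fun {a b} => (hfa a b).symm }⟩
  · left
    refine ⟨fun w => phi (f w), ?_, ?_⟩
    · intro u v huv
      rcases phi_inj _ _ huv with h | h | h
      · exact hf h
      · exact absurd ⟨⟨u, h.1⟩, ⟨v, h.2⟩⟩ h01
      · exact absurd ⟨⟨v, h.2⟩, ⟨u, h.1⟩⟩ h01
    · intro u v
      rw [hfa u v]
      exact phi_adj _ _ (fun h => h01 ⟨⟨u, h.1⟩, ⟨v, h.2⟩⟩) (fun h => h01 ⟨⟨v, h.2⟩, ⟨u, h.1⟩⟩)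

end Pool.Agent.MPd439b2
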