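import Pool.Agent.Lib.MP_d439b2_co.B.SpecG

/-!
# MP_d439b2_co, G1: a cut with at most `c` traces has at most `2 c` mixed rows
-/

set_option autoImplicit false

namespace Pool.Agent.MPd439b2

namespace GRowAux

/-- pairwise different traces -/
theorem tr {V ι : Type} [Finite V] (G : SimpleGraph V) (A : Set V) (c : ℕ)
    (hc : {T : Set V | ∃ u ∈ A, T = G.neighborSet u \ A}.ncard ≤ c) (P : Set ι) (x : ι → V)
    (hx : ∀ i ∈ P, x i ∈ A)
    (hne : ∀ i ∈ P, ∀ j ∈ P, i ≠ j → ∃ w, w ∉ A ∧ ¬ (G.Adj (x i) w ↔ G.Adj (x j) w)) :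
    P.ncard ≤ c := by
  refine le_trans ?_ hc
  refine Set.ncard_le_ncard_of_injOn (fun i => G.neighborSet (x i) \ A) ?_ ?_ (Set.toFinite _)
  · intro i hi
    exact ⟨x i, hx i hi, rfl⟩
  · intro i hi j hj he
    by_contra hij
    obtain ⟨w, hw, hn⟩ := hne i hi j hj hij
    have he' : G.neighborSet (x i) \ A = G.neighborSet (x j) \ A := he
    apply hn
    constructor
    · intro h
      have h1 : w ∈ G.neighborSet (x i) \ A := ⟨h, hw⟩
      rw [he'] at h1
      exact h1.1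
    · intro h
      have h1 : w ∈ G.neighborSet (x j) \ A := ⟨h, hw⟩
      rw [← he'] at h1
      exact h1.1

end GRowAux

open GRowAux in
/-- **G1.** -/
theorem gRow : S_GRow := by
  classical
  intro V _ G n c x y r hr hxy A hc
  set M : Set (Fin n) := {a : Fin n | (∃ b, x (a, b) ∈ A) ∧ ∃ b, x (a, b) ∉ A} with hM
  have h1 : {a | a ∈ M ∧ y a ∉ A}.ncard ≤ c := by
    have hex : ∀ a : Fin n, ∃ v : V, a ∈ M → (v ∈ A ∧ ∃ b, v = x (a, b)) := by
      intro a
      by_cases ha : a ∈ M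
      · obtain ⟨b, hb⟩ := ha.1
        exact ⟨x (a, b), fun _ => ⟨hb, b, rfl⟩⟩
      · exact ⟨y a, fun h => absurd h ha⟩
    choose f hf using hex
    refine tr G A c hc _ f (fun a ha => (hf a ha.1).1) ?_
    intro a ha b hb hab
    obtain ⟨i, hi⟩ := (hf a ha.1).2
    obtain ⟨j, hj⟩ := (hf b hb.1).2
    by_contra hcon
    push Not at hcon
    apply (hr a b hab).1
    have e1 := hcon (y a) ha.2
    have e2 := hcon (y b) hb.2
    rw [hi, hj, hxy, hxy] at e1 e2
    exact ⟨e1, e2⟩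
  have h2 : {a | a ∈ M ∧ y a ∈ A}.ncard ≤ c := by
    refine tr G A c hc _ y (fun a ha => ha.2) ?_
    intro a ha b hb hab
    obtain ⟨i, hi⟩ := ha.1.2
    obtain ⟨j, hj⟩ := hb.1.2
    by_contra hcon
    push Not at hcon
    apply (hr a b hab).2
    have e1 := hcon (x (a, i)) hi
    have e2 := hcon (x (b, j)) hj
    rw [G.adj_comm (y a), G.adj_comm (y b), hxy, hxy] at e1 e2
    exact ⟨e1, e2⟩
  have h3 : M ⊆ {a | a ∈ M ∧ y a ∉ A} ∪ {a | a ∈ M ∧ y a ∈ A} := by
    intro a ha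
    by_cases h : y a ∈ A
    · exact Or.inr ⟨ha, h⟩
    · exact Or.inl ⟨ha, h⟩
  have h4 := Set.ncard_le_ncard h3 (Set.toFinite _)
  have h5 := Set.ncard_union_le {a | a ∈ M ∧ y a ∉ A} {a | a ∈ M ∧ y a ∈ A}
  omega

end Pool.Agent.MPd439b2
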