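import Pool.Agent.Lib.MP_d439b2_co.B.SpecK

/-!
# MP_d439b2_co, Theorem B, K1: detection of `K_s ∨ P_4`
-/

set_option autoImplicit false

namespace Pool.Agent.MPd439b2

namespace kPdAux

theorem choose {s : ℕ} (T : Fin 4 → Finset ℕ) (h : ∀ j, 4 * s ≤ (T j).card) :
    ∃ f : Fin 4 × Fin s → ℕ, Function.Injective f ∧ ∀ x, f x ∈ T x.1 := by
  classical
  apply (Finset.all_card_le_biUnion_card_iff_exists_injective
    (fun x : Fin 4 × Fin s => T x.1)).mp
  intro S
  rcases S.eq_empty_or_nonempty with hS | ⟨x, hx⟩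
  · rw [hS]
    simp
  · have h1 : S.card ≤ 4 * s := by
      have h2 := Finset.card_le_univ S
      rw [Fintype.card_prod, Fintype.card_fin, Fintype.card_fin] at h2
      exact h2
    refine le_trans (le_trans h1 (h x.1)) (Finset.card_le_card ?_)
    intro y hy
    exact Finset.mem_biUnion.mpr ⟨x, hx, hy⟩

end kPdAux


theorem kPd : S_KPd := by
  intro V G s I B P hM hP hD hc
  obtain ⟨f, hf, hfm⟩ := kPdAux.choose (fun j => tau G I B (P j)) hc
  have hfI : ∀ x, f x ∈ I := fun x => (mem_tau.mp (hfm x)).1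
  have hfT : ∀ x, Tch G (P x.1) (B (f x)) := fun x => (mem_tau.mp (hfm x)).2
  -- distinct indices give disjoint touching sets
  have hne : ∀ x y : Fin 4 × Fin s, x ≠ y → Disjoint (B (f x)) (B (f y)) ∧
      Tch G (B (f x)) (B (f y)) := fun x y hxy =>
    hM.2 (f x) (hfI x) (f y) (hfI y) (fun h => hxy (hf h))
  let U : Fin s → Set V := fun l => ⋃ j : Fin 4, B (f (j, l))
  have hUsub : ∀ (j : Fin 4) (l : Fin s), B (f (j, l)) ⊆ U l := fun j l =>
    Set.subset_iUnion (fun j : Fin 4 => B (f (j, l))) j
  have hUconn : ∀ l, Conn G (U l) := by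
    intro l
    have h1 := Conn.union_iUnion (G := G) (A := B (f (0, l)))
      (P := fun j : Fin 4 => B (f (j, l))) (hM.1 _ (hfI _)) (fun j => hM.1 _ (hfI _)) (by
        intro j
        by_cases hj : j = 0
        · left
          subst hj
          rw [Set.inter_self]
          exact (hM.1 _ (hfI _)).1
        · right
          exact (hne (0, l) (j, l) (fun h => hj (congrArg Prod.fst h).symm)).2)
    have h2 : B (f (0, l)) ∪ ⋃ j : Fin 4, B (f (j, l)) = U l :=
      Set.union_eq_self_of_subset_left (hUsub 0 l)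
    rw [← h2]
    exact h1
  have hUU : ∀ l l' : Fin s, l ≠ l' → Disjoint (U l) (U l') ∧ Tch G (U l) (U l') := by
    intro l l' hl
    refine ⟨?_, ?_⟩
    · apply Set.disjoint_iUnion_left.mpr
      intro j
      apply Set.disjoint_iUnion_right.mpr
      intro j'
      exact (hne (j, l) (j', l') (fun h => hl (congrArg Prod.snd h))).1
    · exact ((hne (0, l) (0, l') (fun h => hl (congrArg Prod.snd h))).2).mono
        (hUsub 0 l) (hUsub 0 l')
  have hUP : ∀ (l : Fin s) (j : Fin 4), Disjoint (U l) (P j) ∧ Tch G (U l) (P j) := by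
    intro l j
    refine ⟨?_, ?_⟩
    · apply Set.disjoint_iUnion_left.mpr
      intro j'
      exact hD _ (hfI _) j
    · exact ((hfT (j, l)).symm).mono (hUsub j l) (Set.Subset.refl _)
  refine ⟨fun w => Sum.elim U P w, fun w => Set.subset_univ _, ?_, ?_, ?_⟩
  · intro w
    rcases w with l | j
    · exact hUconn l
    · exact hP.1 j
  · intro w w' hw
    rcases w with l | j <;> rcases w' with l' | j'
    · exact (hUU l l' (fun h => hw (by rw [h]))).1
    · exact (hUP l j').1
    · exact (hUP l' j).1.symm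
    · exact hP.2.1 j j' (fun h => hw (by rw [h]))
  · intro w w' hw
    rcases w with l | j <;> rcases w' with l' | j'
    · have hl : l ≠ l' := fun h => hw (by rw [h])
      exact ⟨fun _ => (hUU l l' hl).2, fun _ => hl⟩
    · exact ⟨fun _ => (hUP l j').2, fun _ => trivial⟩
    · exact ⟨fun _ => (hUP l' j).2.symm, fun _ => trivial⟩
    · have hj : j ≠ j' := fun h => hw (by rw [h])
      exact (hP.2.2 j j' hj).symm

end Pool.Agent.MPd439b2
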