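import Pool.Agent.Lib.MP_d439b2_co.B.SpecR

/-!
# MP_d439b2_co, Theorem B, LayD: layout of a cograph with hanging pieces
-/

set_option autoImplicit false

namespace Pool.Agent.MPd439b2

namespace layDAux

variable {V : Type}

theorem comp_eq {G : SimpleGraph V} {X D D' : Set V} (h : IsComp G X D) (h' : IsComp G X D')
    (hne : (D ∩ D').Nonempty) : D = D' := by
  have key : ∀ D D' : Set V, IsComp G X D → IsComp G X D' → (D ∩ D').Nonempty → D' ⊆ D := by
    intro D D' h h' hne
    have h1 : D ∩ D' = D' := h'.2.1.eq_of_nb Set.inter_subset_right hne (by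
      rintro v hv ⟨hv1, a, ha, hav⟩
      apply hv1
      refine ⟨?_, hv⟩
      by_contra hvD
      exact h.2.2 v (h'.1 hv) ⟨hvD, a, ha.1, hav⟩)
    rw [← h1]
    exact Set.inter_subset_left
  exact Set.Subset.antisymm (key D' D h' h (by rwa [Set.inter_comm])) (key D D' h h' hne)

theorem exists_isComp (G : SimpleGraph V) {X : Set V} {v : V} (hv : v ∈ X) :
    ∃ D, IsComp G X D ∧ v ∈ D := by
  obtain ⟨C, h1, h2, h3, h4⟩ := exists_comp G hv
  exact ⟨C, ⟨h1, h3, h4⟩, h2⟩

/-- the hypotheses -/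
structure Hyp (G : SimpleGraph V) (k : ℕ) (U S A T : Set V) : Prop where
  nbU : nb G U ⊆ S
  sub : A ⊆ U ∪ S
  dAT : Disjoint A T
  free : P4Free G A
  card : 2 ^ (S.ncard + T.ncard + 1) ≤ k
  comp : ∀ D, IsComp G ((U ∪ S) \ (A ∪ T)) D → (nb G D ∩ A).ncard ≤ 1 ∧ Lay G k (U ∩ D)

/-- the union of the pieces attached exactly to `P` -/
def W (G : SimpleGraph V) (U S A T P : Set V) : Set V :=
  ⋃₀ {Y | ∃ D, IsComp G ((U ∪ S) \ (A ∪ T)) D ∧ nb G D ∩ A = P ∧ Y = U ∩ D}

theorem mem_W {G : SimpleGraph V} {U S A T P : Set V} {u : V} :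
    u ∈ W G U S A T P ↔ u ∈ U ∧ ∃ D, IsComp G ((U ∪ S) \ (A ∪ T)) D ∧ nb G D ∩ A = P ∧ u ∈ D := by
  constructor
  · rintro ⟨Y, ⟨D, h1, h2, h3⟩, h4⟩
    rw [h3] at h4
    exact ⟨h4.1, D, h1, h2, h4.2⟩
  · rintro ⟨h1, D, h2, h3, h4⟩
    exact ⟨U ∩ D, ⟨D, h2, h3, rfl⟩, h1, h4⟩

theorem W_not_A {G : SimpleGraph V} {U S A T P : Set V} {u : V} (h : u ∈ W G U S A T P) : u ∉ A := by
  obtain ⟨-, D, h1, -, h2⟩ := mem_W.1 h
  exact fun h3 => (h1.1 h2).2 (Or.inl h3)

theorem W_not_T {G : SimpleGraph V} {U S A T P : Set V} {u : V} (h : u ∈ W G U S A T P) : u ∉ T := by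
  obtain ⟨-, D, h1, -, h2⟩ := mem_W.1 h
  exact fun h3 => (h1.1 h2).2 (Or.inr h3)

theorem W_unique {G : SimpleGraph V} {U S A T P P' : Set V} {u : V} (h : u ∈ W G U S A T P)
    (h' : u ∈ W G U S A T P') : P = P' := by
  obtain ⟨-, D, h1, h2, h3⟩ := mem_W.1 h
  obtain ⟨-, D', h1', h2', h3'⟩ := mem_W.1 h'
  rw [← h2, ← h2', comp_eq h1 h1' ⟨u, h3, h3'⟩]

/-- the pieces of the elements of `A'` -/
def Y (G : SimpleGraph V) (U S A T A' : Set V) : Set V :=
  {u | (u ∈ A' ∧ u ∈ U) ∨ ∃ a ∈ A', u ∈ W G U S A T {a}}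

theorem Y_sub_U {G : SimpleGraph V} {U S A T A' : Set V} : Y G U S A T A' ⊆ U := by
  rintro u (⟨-, h⟩ | ⟨a, -, h⟩)
  · exact h
  · exact (mem_W.1 h).1

/-- (1) -/
theorem nbUD {G : SimpleGraph V} {k : ℕ} {U S A T : Set V} (h : Hyp G k U S A T) {D : Set V}
    (hD : IsComp G ((U ∪ S) \ (A ∪ T)) D) : nb G (U ∩ D) ⊆ (S ∪ T) ∪ (nb G D ∩ A) := by
  rintro v ⟨hv, u, hu, huv⟩
  by_cases hvE : v ∈ S ∪ T
  · exact Or.inl hvE
  right
  have hvU : v ∈ U := by
    by_contra hvU
    exact hvE (Or.inl (h.nbU ⟨hvU, u, hu.1, huv⟩))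
  have hvD : v ∉ D := fun h1 => hv ⟨hvU, h1⟩
  refine ⟨⟨hvD, u, hu.2, huv⟩, ?_⟩
  by_contra hvA
  have hvX : v ∈ (U ∪ S) \ (A ∪ T) := ⟨Or.inl hvU, fun h1 => h1.elim hvA (fun h2 => hvE (Or.inr h2))⟩
  exact hD.2.2 v hvX ⟨hvD, u, hu.2, huv⟩

/-- (2) -/
theorem layW (hLU : S_LayU) [Finite V] {G : SimpleGraph V} {k : ℕ} {U S A T : Set V}
    (h : Hyp G k U S A T) {P : Set V} (hP : P.ncard ≤ 1) : Lay G k (W G U S A T P) := by
  apply hLU V G k ((S ∪ T) ∪ P)
  · refine le_trans (Nat.pow_le_pow_right (by norm_num) ?_) h.card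
    have h1 := Set.ncard_union_le (S ∪ T) P
    have h2 := Set.ncard_union_le S T
    omega
  · rintro Y ⟨D, hD1, hD2, rfl⟩
    refine ⟨(h.comp D hD1).2, ?_⟩
    have h1 := nbUD h hD1
    rwa [hD2] at h1
  · rintro Y ⟨D, hD1, hD2, rfl⟩ Y' ⟨D', hD1', hD2', rfl⟩ hne
    rw [Set.disjoint_left]
    intro v hv hv'
    apply hne
    rw [comp_eq hD1 hD1' ⟨v, hv.2, hv'.2⟩]

/-- the types of the pieces of a module -/
theorem typesY [Finite V] {G : SimpleGraph V} {k : ℕ} {U S A T : Set V}
    (h : Hyp G k U S A T) {A' : Set V} (hA' : A' ⊆ A)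
    (hmod : ∀ b ∈ A \ A', (∀ a ∈ A', G.Adj a b) ∨ ∀ a ∈ A', ¬ G.Adj a b) :
    (Types G (Y G U S A T A')).encard ≤ k := by
  set M : Set V := {b | b ∈ A \ A' ∧ b ∈ U ∧ b ∉ S ∪ T ∧ ∀ a ∈ A', G.Adj a b} with hM
  have hsub : Types G (Y G U S A T A') ⊆ 𝒫 (S ∪ T) ∪ (fun T' => T' ∪ M) '' 𝒫 (S ∪ T) := by
    rintro Q ⟨-, u, hu, rfl⟩
    rcases hu with ⟨huA, huU⟩ | ⟨a, ha, huW⟩
    · right
      refine ⟨(G.neighborSet u \ Y G U S A T A') ∩ (S ∪ T), Set.inter_subset_right, ?_⟩
      apply Set.Subset.antisymm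
      · rintro v (hv | hv)
        · exact hv.1
        · obtain ⟨hv1, hv2, hv3, hv4⟩ := hv
          refine ⟨hv4 u huA, ?_⟩
          rintro (⟨h1, -⟩ | ⟨a', -, h1⟩)
          · exact hv1.2 h1
          · exact W_not_A h1 hv1.1
      · rintro v ⟨huv, hvY⟩
        have huv' : G.Adj u v := huv
        by_cases hvE : v ∈ S ∪ T
        · exact Or.inl ⟨⟨huv, hvY⟩, hvE⟩
        right
        have hvU : v ∈ U := by
          by_contra hvU
          exact hvE (Or.inl (h.nbU ⟨hvU, u, huU, huv'⟩))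
        have hvA' : v ∉ A' := fun h1 => hvY (Or.inl ⟨h1, hvU⟩)
        have hvA : v ∈ A := by
          by_contra hvA
          have hvX : v ∈ (U ∪ S) \ (A ∪ T) :=
            ⟨Or.inl hvU, fun h1 => h1.elim hvA (fun h2 => hvE (Or.inr h2))⟩
          obtain ⟨D, hD, hvD⟩ := exists_isComp G hvX
          have huD : u ∉ D := fun h1 => (hD.1 h1).2 (Or.inl (hA' huA))
          have hunb : u ∈ nb G D ∩ A := ⟨⟨huD, v, hvD, huv'.symm⟩, hA' huA⟩
          have hone : nb G D ∩ A = {u} := by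
            apply Set.Subset.antisymm
            · intro w hw
              exact (Set.ncard_le_one (Set.toFinite _)).1 (h.comp D hD).1 w hw u hunb
            · exact Set.singleton_subset_iff.2 hunb
          exact hvY (Or.inr ⟨u, huA, mem_W.2 ⟨hvU, D, hD, hone, hvD⟩⟩)
        refine ⟨⟨hvA, hvA'⟩, hvU, hvE, ?_⟩
        rcases hmod v ⟨hvA, hvA'⟩ with h1 | h1
        · exact h1
        · exact absurd huv' (h1 u huA)
    · left
      rintro v ⟨huv, hvY⟩
      have huv' : G.Adj u v := huv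
      obtain ⟨huU, D, hD, hDa, huD⟩ := mem_W.1 huW
      by_cases hvUD : v ∈ U ∩ D
      · exact absurd (Or.inr ⟨a, ha, mem_W.2 ⟨hvUD.1, D, hD, hDa, hvUD.2⟩⟩) hvY
      have h1 := nbUD h hD ⟨hvUD, u, ⟨huU, huD⟩, huv'⟩
      rw [hDa] at h1
      rcases h1 with h1 | h1
      · exact h1
      · have hva : v = a := h1
        subst hva
        rcases h.sub (hA' ha) with h2 | h2
        · exact absurd (Or.inl ⟨ha, h2⟩) hvY
        · exact Or.inl h2
  have hfin : (Types G (Y G U S A T A')).Finite := Set.toFinite _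
  rw [← hfin.cast_ncard_eq]
  have h1 : (Types G (Y G U S A T A')).ncard ≤ 2 ^ (S ∪ T).ncard + 2 ^ (S ∪ T).ncard := by
    refine (Set.ncard_le_ncard hsub (Set.toFinite _)).trans ?_
    refine (Set.ncard_union_le _ _).trans ?_
    have h2 : (𝒫 (S ∪ T)).ncard = 2 ^ (S ∪ T).ncard := Set.ncard_powerset _
    have h3 : ((fun T' => T' ∪ M) '' 𝒫 (S ∪ T)).ncard ≤ (𝒫 (S ∪ T)).ncard :=
      Set.ncard_image_le (Set.toFinite _)
    omega
  have h2 : 2 ^ (S ∪ T).ncard ≤ 2 ^ (S.ncard + T.ncard) :=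
    Nat.pow_le_pow_right (by norm_num) (Set.ncard_union_le S T)
  have h3 := h.card
  rw [pow_succ] at h3
  exact_mod_cast (by omega : (Types G (Y G U S A T A')).ncard ≤ k)

/-- (3) -/
theorem layY (hSe : S_Seins) (hLU : S_LayU) [Finite V] {G : SimpleGraph V} {k : ℕ} {U S A T : Set V}
    (h : Hyp G k U S A T) (hk : 1 ≤ k) : ∀ (n : ℕ) (A' : Set V), A'.ncard = n → A' ⊆ A →
    (∀ b ∈ A \ A', (∀ a ∈ A', G.Adj a b) ∨ ∀ a ∈ A', ¬ G.Adj a b) → Lay G k (Y G U S A T A') := by
  intro n
  induction n using Nat.strong_induction_on with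
  | _ n ih =>
    intro A' hn hA' hmod
    rcases Nat.lt_or_ge n 2 with hn2 | hn2
    · rcases Nat.lt_or_ge n 1 with hn1 | hn1
      · have h0 : A'.ncard = 0 := by omega
        rw [Set.ncard_eq_zero (Set.toFinite _)] at h0
        have h1 : Y G U S A T A' = ∅ := by
          rw [h0, Set.eq_empty_iff_forall_notMem]
          rintro u (⟨h1, -⟩ | ⟨a, h1, -⟩)
          · exact h1
          · exact h1
        rw [h1]
        exact Lay.empty
      · have h0 : A'.ncard = 1 := by omega
        obtain ⟨a, rfl⟩ := Set.ncard_eq_one.1 h0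
        have hW := layW hLU h (P := {a}) (by rw [Set.ncard_singleton])
        by_cases haU : a ∈ U
        · have h1 : Y G U S A T {a} = insert a (W G U S A T {a}) := by
            ext u
            constructor
            · rintro (⟨h1, -⟩ | ⟨b, h1, h2⟩)
              · exact Or.inl h1
              · have hb : b = a := h1
                rw [hb] at h2
                exact Or.inr h2
            · rintro (h1 | h1)
              · rw [h1]
                exact Or.inl ⟨rfl, haU⟩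
              · exact Or.inr ⟨a, rfl, h1⟩
          have h2 := typesY h hA' hmod
          rw [h1] at h2 ⊢
          exact Lay.insert hk hW (fun h3 => W_not_A h3 (hA' rfl)) h2
        · have h1 : Y G U S A T {a} = W G U S A T {a} := by
            ext u
            constructor
            · rintro (⟨h1, h3⟩ | ⟨b, h1, h2⟩)
              · have hu : u = a := h1
                rw [hu] at h3
                exact absurd h3 haU
              · have hb : b = a := h1
                rwa [hb] at h2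
            · intro h1
              exact Or.inr ⟨a, rfl, h1⟩
          rw [h1]
          exact hW
    · obtain ⟨A₁, A₂, hne1, hne2, hdis, hun, hall⟩ := hSe V G A'
        (fun a ha b hb c hc d hd => h.free a (hA' ha) b (hA' hb) c (hA' hc) d (hA' hd)) (by omega)
      have hs1 : A₁ ⊆ A' := by
        rw [← hun]
        exact Set.subset_union_left
      have hs2 : A₂ ⊆ A' := by
        rw [← hun]
        exact Set.subset_union_right
      have hcard : A₁.ncard + A₂.ncard = n := by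
        rw [← hn, ← hun, Set.ncard_union_eq hdis (Set.toFinite _) (Set.toFinite _)]
      have hp1 : 0 < A₁.ncard := (Set.ncard_pos (Set.toFinite _)).2 hne1
      have hp2 : 0 < A₂.ncard := (Set.ncard_pos (Set.toFinite _)).2 hne2
      have hm1 : ∀ b ∈ A \ A₁, (∀ a ∈ A₁, G.Adj a b) ∨ ∀ a ∈ A₁, ¬ G.Adj a b := by
        intro b hb
        by_cases hbA' : b ∈ A'
        · have hb2 : b ∈ A₂ := by
            rw [← hun] at hbA'
            exact hbA'.resolve_left hb.2
          rcases hall with hall | hall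
          · exact Or.inr (fun a ha => hall a ha b hb2)
          · exact Or.inl (fun a ha => hall a ha b hb2)
        · rcases hmod b ⟨hb.1, hbA'⟩ with h1 | h1
          · exact Or.inl (fun a ha => h1 a (hs1 ha))
          · exact Or.inr (fun a ha => h1 a (hs1 ha))
      have hm2 : ∀ b ∈ A \ A₂, (∀ a ∈ A₂, G.Adj a b) ∨ ∀ a ∈ A₂, ¬ G.Adj a b := by
        intro b hb
        by_cases hbA' : b ∈ A'
        · have hb1 : b ∈ A₁ := by
            rw [← hun] at hbA'
            exact hbA'.resolve_right hb.2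
          rcases hall with hall | hall
          · exact Or.inr (fun a ha hab => hall b hb1 a ha hab.symm)
          · exact Or.inl (fun a ha => (hall b hb1 a ha).symm)
        · rcases hmod b ⟨hb.1, hbA'⟩ with h1 | h1
          · exact Or.inl (fun a ha => h1 a (hs2 ha))
          · exact Or.inr (fun a ha => h1 a (hs2 ha))
      have hL1 := ih A₁.ncard (by omega) A₁ rfl (hs1.trans hA') hm1
      have hL2 := ih A₂.ncard (by omega) A₂ rfl (hs2.trans hA') hm2
      have hYu : Y G U S A T A' = Y G U S A T A₁ ∪ Y G U S A T A₂ := by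
        ext u
        constructor
        · rintro (⟨h1, h2⟩ | ⟨a, h1, h2⟩)
          · rw [← hun] at h1
            rcases h1 with h1 | h1
            · exact Or.inl (Or.inl ⟨h1, h2⟩)
            · exact Or.inr (Or.inl ⟨h1, h2⟩)
          · rw [← hun] at h1
            rcases h1 with h1 | h1
            · exact Or.inl (Or.inr ⟨a, h1, h2⟩)
            · exact Or.inr (Or.inr ⟨a, h1, h2⟩)
        · rintro ((⟨h1, h2⟩ | ⟨a, h1, h2⟩) | (⟨h1, h2⟩ | ⟨a, h1, h2⟩))
          · exact Or.inl ⟨hs1 h1, h2⟩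
          · exact Or.inr ⟨a, hs1 h1, h2⟩
          · exact Or.inl ⟨hs2 h1, h2⟩
          · exact Or.inr ⟨a, hs2 h1, h2⟩
      have hYd : Disjoint (Y G U S A T A₁) (Y G U S A T A₂) := by
        rw [Set.disjoint_left]
        rintro u (⟨h1, h2⟩ | ⟨a, h1, h2⟩) (⟨h1', h2'⟩ | ⟨a', h1', h2'⟩)
        · exact Set.disjoint_left.1 hdis h1 h1'
        · exact W_not_A h2' (hA' (hs1 h1))
        · exact W_not_A h2 (hA' (hs2 h1'))
        · have h3 : ({a} : Set V) = {a'} := W_unique h2 h2'
          have h4 : a = a' := Set.singleton_injective h3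
          rw [← h4] at h1'
          exact Set.disjoint_left.1 hdis h1 h1'
      have hty := typesY h hA' hmod
      rw [hYu] at hty ⊢
      exact Lay.union hL1 hL2 hYd hty

end layDAux

open layDAux in
/-- Layout of a cograph with hanging pieces. -/
theorem layD : (S_Seins) → (S_LayU) → S_LayD := by
  intro hSe hLU V _ G k U S A T _ hnb hsub hAT hfree hcard hcomp
  have h : Hyp G k U S A T := ⟨hnb, hsub, hAT, hfree, hcard, hcomp⟩
  have hk : 1 ≤ k := le_trans Nat.one_le_two_pow hcard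
  have hYA := layY hSe hLU h hk A.ncard A rfl subset_rfl (fun b hb => absurd hb.1 hb.2)
  have hW' := layW hLU h (P := ∅) (by rw [Set.ncard_empty]; exact Nat.zero_le _)
  -- the part outside `T`
  have hcover : ∀ u ∈ U, u ∉ T → u ∈ Y G U S A T A ∪ W G U S A T ∅ := by
    intro u huU huT
    by_cases huA : u ∈ A
    · exact Or.inl (Or.inl ⟨huA, huU⟩)
    have huX : u ∈ (U ∪ S) \ (A ∪ T) := ⟨Or.inl huU, fun h1 => h1.elim huA huT⟩
    obtain ⟨D, hD, huD⟩ := exists_isComp G huX
    rcases Set.eq_empty_or_nonempty (nb G D ∩ A) with h1 | ⟨a, ha⟩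
    · exact Or.inr (mem_W.2 ⟨huU, D, hD, h1, huD⟩)
    · left
      right
      refine ⟨a, ha.2, mem_W.2 ⟨huU, D, hD, ?_, huD⟩⟩
      apply Set.Subset.antisymm
      · intro w hw
        exact (Set.ncard_le_one (Set.toFinite _)).1 (h.comp D hD).1 w hw a ha
      · exact Set.singleton_subset_iff.2 ha
  have hsubU : Y G U S A T A ∪ W G U S A T ∅ ⊆ U := by
    rintro u (h1 | h1)
    · exact Y_sub_U h1
    · exact (mem_W.1 h1).1
  have htypes : ∀ X : Set V, Y G U S A T A ∪ W G U S A T ∅ ⊆ X → X ⊆ U → (Types G X).encard ≤ k := by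
    intro X hX1 hX2
    have hnbX : nb G X ⊆ S ∪ T := by
      rintro v ⟨hv, x, hx, hxv⟩
      by_cases hvU : v ∈ U
      · right
        by_contra hvT
        exact hv (hX1 (hcover v hvU hvT))
      · exact Or.inl (h.nbU ⟨hvU, x, hX2 hx, hxv⟩)
    have h1 : (nb G X).ncard ≤ S.ncard + T.ncard :=
      (Set.ncard_le_ncard hnbX (Set.toFinite _)).trans (Set.ncard_union_le S T)
    refine (types_encard_le h1).trans ?_
    have h2 : 2 ^ (S.ncard + T.ncard) - 1 ≤ k := by
      rw [pow_succ] at hcard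
      omega
    exact_mod_cast h2
  have hdis : Disjoint (Y G U S A T A) (W G U S A T ∅) := by
    rw [Set.disjoint_left]
    rintro u (⟨h1, -⟩ | ⟨a, -, h2⟩) h3
    · exact W_not_A h3 h1
    · have h4 := W_unique h2 h3
      exact Set.singleton_ne_empty a h4
  have hbase : Lay G k (Y G U S A T A ∪ W G U S A T ∅) :=
    Lay.union hYA hW' hdis (htypes _ subset_rfl hsubU)
  -- add the vertices of `U ∩ T`
  have hstep : ∀ (Z : Set V), Z ⊆ U ∩ T → Lay G k (Z ∪ (Y G U S A T A ∪ W G U S A T ∅)) := by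
    intro Z
    induction Z, Set.toFinite Z using Set.Finite.induction_on with
    | empty =>
      intro _
      rwa [Set.empty_union]
    | @insert z Z hz _ ihZ =>
      intro hZ
      rw [Set.insert_union]
      have hzUT : z ∈ U ∩ T := hZ (Set.mem_insert z Z)
      have hZ' : Z ⊆ U ∩ T := (Set.subset_insert z Z).trans hZ
      apply Lay.insert hk (ihZ hZ')
      · rintro (h1 | h1 | h1)
        · exact hz h1
        · rcases h1 with ⟨h1, -⟩ | ⟨a, -, h1⟩
          · exact Set.disjoint_left.1 hAT h1 hzUT.2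
          · exact W_not_T h1 hzUT.2
        · exact W_not_T h1 hzUT.2
      · apply htypes
        · exact Set.subset_union_right.trans (Set.subset_insert _ _)
        · rintro u (h1 | h1 | h1)
          · rw [h1]
            exact hzUT.1
          · exact (hZ' h1).1
          · exact hsubU h1
  have hfinal := hstep (U ∩ T) subset_rfl
  have hU : U ∩ T ∪ (Y G U S A T A ∪ W G U S A T ∅) = U := by
    apply Set.Subset.antisymm
    · rintro u (h1 | h1)
      · exact h1.1
      · exact hsubU h1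
    · intro u hu
      by_cases huT : u ∈ T
      · exact Or.inl ⟨hu, huT⟩
      · exact Or.inr (hcover u hu huT)
  rwa [hU] at hfinal

end Pool.Agent.MPd439b2
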