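import Pool.Agent.Lib.MP_d439b2_co.B.SpecC

/-!
# MP_d439b2_co, C7: induced paths outside the core have few neighbours in the core
-/

set_option autoImplicit false

namespace Pool.Agent.MPd439b2

namespace PathBAux

variable {V : Type} {G : SimpleGraph V} {A : Set V} {l : ℕ} {p : ℕ → V}

theorem seg_succ {a b : ℕ} (hab : a ≤ b) : seg p a (b + 1) = insert (p b) (seg p a b) := by
  ext v
  simp only [seg, Set.mem_setOf_eq, Set.mem_insert_iff]
  constructor
  · rintro ⟨i, h1, h2, rfl⟩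
    rcases Nat.lt_succ_iff_lt_or_eq.mp h2 with h | h
    · exact Or.inr ⟨i, h1, h, rfl⟩
    · left; rw [h]
  · rintro (h | ⟨i, h1, h2, rfl⟩)
    · exact ⟨b, hab, Nat.lt_succ_self b, h.symm⟩
    · exact ⟨i, h1, by omega, rfl⟩

theorem seg_one (a : ℕ) : seg p a (a + 1) = {p a} := by
  ext v
  simp only [seg, Set.mem_setOf_eq, Set.mem_singleton_iff]
  constructor
  · rintro ⟨i, h1, h2, rfl⟩
    have : i = a := by omega
    rw [this]
  · rintro rfl
    exact ⟨a, le_refl a, Nat.lt_succ_self a, rfl⟩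

theorem seg_self (a : ℕ) : seg p a a = ∅ := by
  ext v
  simp only [seg, Set.mem_setOf_eq, Set.mem_empty_iff_false, iff_false]
  rintro ⟨i, h1, h2, _⟩
  omega

theorem seg_conn (hp : OutPath G A l p) {a b : ℕ} (hab : a < b) (hb : b ≤ l) :
    Conn G (seg p a b) := by
  induction b, hab using Nat.le_induction with
  | base => rw [seg_one]; exact Conn.singleton G (p a)
  | succ b hab ih =>
    rw [seg_succ (by omega)]
    refine (ih (by omega)).insert ⟨p (b - 1), ⟨b - 1, by omega, by omega, rfl⟩, ?_⟩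
    exact (hp.2.2.2 (b - 1) (by omega) b (by omega)).mpr (Or.inr (by omega))

theorem seg_out (hp : OutPath G A l p) {a b : ℕ} (hb : b ≤ l) : Disjoint (seg p a b) A := by
  rw [Set.disjoint_left]
  rintro v ⟨i, _, h2, rfl⟩
  exact hp.2.1 i (by omega)

theorem seg_disj (hp : OutPath G A l p) {a b a' b' : ℕ} (h : b ≤ a') (hb : b ≤ l) (hb' : b' ≤ l) :
    Disjoint (seg p a b) (seg p a' b') := by
  rw [Set.disjoint_left]
  rintro v ⟨i, h1, h2, rfl⟩ ⟨j, h3, h4, h5⟩
  have := hp.2.2.1 j (by omega) i (by omega) h5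
  omega

theorem seg_tch (hp : OutPath G A l p) {a b a' b' : ℕ} (h0 : a < b) (h : b ≤ a') (h' : a' < b')
    (hb' : b' ≤ l) : Tch G (seg p a b) (seg p a' b') ↔ b = a' := by
  constructor
  · rintro ⟨_, ⟨i, h1, h2, rfl⟩, _, ⟨j, h3, h4, rfl⟩, h5⟩
    have := (hp.2.2.2 i (by omega) j (by omega)).mp h5
    omega
  · rintro rfl
    refine ⟨p (b - 1), ⟨b - 1, by omega, by omega, rfl⟩, p b, ⟨b, le_refl b, h', rfl⟩, ?_⟩
    exact (hp.2.2.2 (b - 1) (by omega) b (by omega)).mpr (Or.inr (by omega))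

theorem seg_union {a b c : ℕ} (hab : a ≤ b) (hbc : b ≤ c) :
    seg p a c = seg p a b ∪ seg p b c := by
  ext v
  simp only [seg, Set.mem_setOf_eq, Set.mem_union]
  constructor
  · rintro ⟨i, h1, h2, rfl⟩
    rcases lt_or_ge i b with h | h
    · exact Or.inl ⟨i, h1, h, rfl⟩
    · exact Or.inr ⟨i, h, h2, rfl⟩
  · rintro (⟨i, h1, h2, rfl⟩ | ⟨i, h1, h2, rfl⟩)
    · exact ⟨i, h1, by omega, rfl⟩
    · exact ⟨i, by omega, h2, rfl⟩

theorem nb_union_le [Finite V] (D E : Set V) :
    (nb G (D ∪ E) ∩ A).ncard ≤ (nb G D ∩ A).ncard + (nb G E ∩ A).ncard := by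
  refine (Set.ncard_le_ncard (t := (nb G D ∩ A) ∪ (nb G E ∩ A)) ?_ (Set.toFinite _)).trans
    (Set.ncard_union_le _ _)
  rintro v ⟨hv, hvA⟩
  rcases (nb_union_subset hv).1 with h | h
  · exact Or.inl ⟨h, hvA⟩
  · exact Or.inr ⟨h, hvA⟩

theorem nb_single_le [Finite V] (v : V) {d : ℕ} (h : (G.neighborSet v ∩ A).ncard ≤ d) :
    (nb G {v} ∩ A).ncard ≤ d := by
  refine (Set.ncard_le_ncard ?_ (Set.toFinite _)).trans h
  rintro w ⟨⟨_, a, ha, haw⟩, hwA⟩
  rw [Set.mem_singleton_iff] at ha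
  subst ha
  exact ⟨haw, hwA⟩

/-- the next cut -/
theorem next [Finite V] (hp : OutPath G A l p) {d M : ℕ} (hM : 0 < M)
    (hd : ∀ i < l, (G.neighborSet (p i) ∩ A).ncard ≤ d) {a : ℕ} (ha : a ≤ l)
    (h : M ≤ (nb G (seg p a l) ∩ A).ncard) :
    ∃ b, a < b ∧ b ≤ l ∧ M ≤ (nb G (seg p a b) ∩ A).ncard ∧
      (nb G (seg p a b) ∩ A).ncard ≤ M + d := by
  classical
  have hex : ∃ b, a ≤ b ∧ b ≤ l ∧ M ≤ (nb G (seg p a b) ∩ A).ncard := ⟨l, ha, le_refl l, h⟩
  have hspec := Nat.find_spec hex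
  obtain ⟨h1, h2, h3⟩ := hspec
  have hmin : ∀ m < Nat.find hex, ¬ (a ≤ m ∧ m ≤ l ∧ M ≤ (nb G (seg p a m) ∩ A).ncard) :=
    fun m hm => Nat.find_min hex hm
  generalize hb : Nat.find hex = b at *
  have hab : a < b := by
    rcases lt_or_eq_of_le h1 with h4 | h4
    · exact h4
    · exfalso
      rw [← h4, seg_self] at h3
      have : nb G (∅ : Set V) ∩ A = ∅ := by
        ext v
        simp [nb]
      rw [this, Set.ncard_empty] at h3
      omega
  refine ⟨b, hab, h2, h3, ?_⟩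
  obtain ⟨c, rfl⟩ : ∃ c, b = c + 1 := ⟨b - 1, by omega⟩
  have h5 : (nb G (seg p a c) ∩ A).ncard < M := by
    by_contra h6
    exact hmin c (Nat.lt_succ_self c) ⟨by omega, by omega, by omega⟩
  have h6 : seg p a (c + 1) = seg p a c ∪ {p c} := by
    rw [seg_succ (by omega), Set.insert_eq, Set.union_comm]
  rw [h6]
  have h7 := nb_union_le (G := G) (A := A) (seg p a c) {p c}
  have h8 := nb_single_le (G := G) (A := A) (p c) (hd c (by omega))
  omega

end PathBAux

open PathBAux in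
/-- **C7.** -/
theorem pathB : S_PathB := by
  intro V _ G A s q N hC l p d hp hd
  by_contra hcon
  push Not at hcon
  set M := 16 * s + 4 with hMdef
  have hM : 0 < M := by omega
  have tri : ∀ a b, a ≤ b → b ≤ l → (nb G (seg p a l) ∩ A).ncard ≤
      (nb G (seg p a b) ∩ A).ncard + (nb G (seg p b l) ∩ A).ncard := by
    intro a b hab hb
    rw [seg_union hab hb]
    exact nb_union_le _ _
  obtain ⟨b1, g1, g2, g3, g4⟩ := next hp hM hd (Nat.zero_le l) (by omega)
  have t1 := tri 0 b1 (by omega) g2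
  obtain ⟨b2, k1, k2, k3, k4⟩ := next hp hM hd g2 (by omega)
  have t2 := tri b1 b2 (by omega) k2
  obtain ⟨b3, m1, m2, m3, m4⟩ := next hp hM hd k2 (by omega)
  have t3 := tri b2 b3 (by omega) m2
  obtain ⟨b4, n1, n2, n3, n4⟩ := next hp hM hd m2 (by omega)
  refine hC.pat ![seg p 0 b1, seg p b1 b2, seg p b2 b3, seg p b3 b4] ⟨?_, ?_, ?_⟩ ?_
  · intro i
    fin_cases i
    · exact seg_conn hp g1 g2
    · exact seg_conn hp k1 k2
    · exact seg_conn hp m1 m2
    · exact seg_conn hp n1 n2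
  · intro i j hij
    fin_cases i <;> fin_cases j <;> first
      | exact absurd rfl hij
      | exact seg_disj hp (by omega) (by omega) (by omega)
      | exact (seg_disj hp (by omega) (by omega) (by omega)).symm
  · intro i j hij
    fin_cases i <;> fin_cases j <;> first
      | exact absurd rfl hij
      | (refine (seg_tch hp (by omega) (by omega) (by omega) (by omega)).trans ?_
         simp
         try omega)
      | (refine tch_comm.trans ((seg_tch hp (by omega) (by omega) (by omega) (by omega)).trans ?_)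
         simp
         try omega)
  · intro i
    right
    fin_cases i
    · exact ⟨seg_out hp g2, g3⟩
    · exact ⟨seg_out hp k2, k3⟩
    · exact ⟨seg_out hp m2, m3⟩
    · exact ⟨seg_out hp n2, n3⟩

end Pool.Agent.MPd439b2
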