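import Pool.Agent.Lib.MP_d439b2_co.Spec1

/-!
# MP_d439b2_co, Spec T: a class of graphs with independence number two and unbounded clique-width
without the complement of `2 P_3` (class T of helper99)

`TG n` is the complement of a bipartite graph `D` (relation `TR`) with sides
`A = {x (a,b)} ∪ {z k}` and `B = {x' (a,b)} ∪ {y k}`:
`x (a,b) ~ y k` iff `k ≤ a`; `x (a,b) ~ x' (a',b')` iff `(a,b) = (a',b')`; `z k ~ x' (a,b)` iff `k ≤ b`;
`z k ~ y l` always.  Every `S_...` is a statement to be proved in its own file; the docstring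
contains the complete proof.
-/

set_option autoImplicit false

namespace Pool.Agent.MPd439b2

/-- the complement of the bipartite graph with sides `α`, `β` and relation `R` -/
def CoB {α β : Type} (R : α → β → Prop) : SimpleGraph (α ⊕ β) where
  Adj
    | Sum.inl u, Sum.inl v => u ≠ v
    | Sum.inl u, Sum.inr v => ¬ R u v
    | Sum.inr v, Sum.inl u => ¬ R u v
    | Sum.inr u, Sum.inr v => u ≠ v
  symm := ⟨fun u v h => by
    rcases u with u | u <;> rcases v with v | v
    · exact Ne.symm h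
    · exact h
    · exact h
    · exact Ne.symm h⟩
  loopless := ⟨fun u h => by
    rcases u with u | u
    · exact h rfl
    · exact h rfl⟩

/-- one side of `D`: `inl (a, b)` is `x (a, b)` (or `x' (a, b)`), `inr k` is `z k` (or `y k`) -/
abbrev TS (n : ℕ) : Type := (Fin n × Fin n) ⊕ Fin n

/-- the bipartite graph `D` -/
def TR {n : ℕ} : TS n → TS n → Prop
  | Sum.inl p, Sum.inl q => p = q
  | Sum.inl p, Sum.inr k => k ≤ p.1
  | Sum.inr k, Sum.inl q => k ≤ q.2
  | Sum.inr _, Sum.inr _ => True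

/-- the host graph -/
def TG (n : ℕ) : SimpleGraph (TS n ⊕ TS n) := CoB TR

/-- complement of two disjoint paths `1 - 0 - 2` and `4 - 3 - 5` -/
def co2P3 : SimpleGraph (Fin 6) where
  Adj i j := i ≠ j ∧ ¬ ((i = 0 ∧ (j = 1 ∨ j = 2)) ∨ (j = 0 ∧ (i = 1 ∨ i = 2)) ∨
    (i = 3 ∧ (j = 4 ∨ j = 5)) ∨ (j = 3 ∧ (i = 4 ∨ i = 5)))
  symm := ⟨fun i j h => ⟨h.1.symm, fun h' => h.2 (by tauto)⟩⟩
  loopless := ⟨fun _ h => h.1 rfl⟩

/-- `P` is complete to `Q` -/
def Cpl {α β : Type} (R : α → β → Prop) (P : Set α) (Q : Set β) : Prop := ∀ u ∈ P, ∀ v ∈ Q, R u v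

/-- **T1.** Two paths `P_3` with both centres on the side `A`.

Proof. If `P` contains some `inl (a, b)`, choose one with `a` minimal; the same for `Q`, `inl (c, d)`.
(i) `P`, `Q` both without `inl`: let `inr k ∈ P`, `inr l ∈ Q` with `k`, `l` maximal.  If `l ≤ k` then
`Q` is complete to `P₁`: for `v ∈ P₁`, `inr l' ∈ Q` (`l' ≤ l ≤ k`): `v = inr _`: `True`; `v = inl q`:
`k ≤ q.2` so `l' ≤ q.2`.  Contradiction to `h5`.  If `k ≤ l` then `P` is complete to `Q₁`, contradiction to `h3`.
(ii) `P` contains `inl (a, b)`, `Q` does not contain any `inl`: one of `P₁`, `P₂` does not contain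
`inl (a, b)` (disjoint), say `P₁`; every `v ∈ P₁` satisfies `TR (inl (a, b)) v`, so `v = inr _`; so `Q` is
complete to `P₁` (`inr, inr`).  Contradiction.  `Q` contains `inl`, `P` does not: the same.
(iii) both contain `inl`: say `a ≤ c` (otherwise exchange the roles).  One of `P₁`, `P₂` does not contain
`inl (a, b)`, say `P₁`; so `P₁` consists of elements `inr k` with `k ≤ a`.  `Q` is complete to `P₁`: `inr`:
`True`; `inl (c', d') ∈ Q`: `k ≤ a ≤ c ≤ c'` by minimality of `c`.  Contradiction. -/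
def S_TAA : Prop := ∀ (n : ℕ) (P Q : Set (TS n)) (P₁ P₂ Q₁ Q₂ : Set (TS n)), P.Nonempty →
  Q.Nonempty → Disjoint P₁ P₂ → Disjoint Q₁ Q₂ → Cpl TR P P₁ → Cpl TR P P₂ → Cpl TR Q Q₁ →
  Cpl TR Q Q₂ → ¬ Cpl TR P Q₁ → ¬ Cpl TR P Q₂ → ¬ Cpl TR Q P₁ → ¬ Cpl TR Q P₂ → False

/-- **T2.** Two paths `P_3` with the centre `P` of the first one on the side `A` and the centre `Q` of
the second one on the side `B`.

Proof. (i) `P` and `Q` both without `inl`: `P` is complete to `Q`, contradiction.
(ii) `P` contains some `inl (a, b)`; choose it with `a` minimal.  One of `P₁`, `P₂` does not contain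
`inl (a, b)` (disjoint), say `P₁` (otherwise exchange them; the hypotheses are symmetric); as
`TR (inl (a, b)) v` for `v ∈ P₁`, `P₁` consists of elements `inr k` with `k ≤ a`.  For `j = 1, 2`: `Q_j` is not
complete to `P₁`, so there are `u ∈ Q_j`, `inr k ∈ P₁` with `¬ TR u (inr k)`; `u` is not `inr _`, so
`u = inl (c_j, d_j)` with `c_j < k ≤ a`.  Let `q ∈ Q`; `TR (inl (c_j, d_j)) q` for `j = 1, 2`.  If `q = inl r`
then `r = (c_1, d_1) = (c_2, d_2)`, so `Q₁` and `Q₂` are not disjoint: contradiction.  So `q = inr l`, and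
`l ≤ c_1 < a`.  Hence `P` is complete to `Q`: `inr _ ∈ P`: `True`; `inl (a', b') ∈ P`: `l ≤ a ≤ a'`.
Contradiction.
(iii) `P` without `inl`, `Q` contains some `inl`: the same by the symmetry `sw (inl (a, b)) = inl (b, a)`,
`sw (inr k) = inr k`, `TR u v ↔ TR (sw v) (sw u)`, which exchanges the sides (apply case (ii) to the sets
`sw '' Q`, `sw '' P`, ...). -/
def S_TAB : Prop := ∀ (n : ℕ) (P Q : Set (TS n)) (P₁ P₂ Q₁ Q₂ : Set (TS n)), P.Nonempty →
  Q.Nonempty → Disjoint P₁ P₂ → Disjoint Q₁ Q₂ → Cpl TR P P₁ → Cpl TR P P₂ → Cpl TR Q₁ Q →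
  Cpl TR Q₂ Q → ¬ Cpl TR P Q → ¬ Cpl TR Q₁ P₁ → ¬ Cpl TR Q₁ P₂ → ¬ Cpl TR Q₂ P₁ →
  ¬ Cpl TR Q₂ P₂ → False

/-- **T3.** Excluded induced minors of `TG n`: three pairwise non-adjacent vertices, and the complement
of `2 P_3` (uses T1, T2).

Proof. Let `B` be a model of `H` in `TG n`.  All `B w` are nonempty.  If `w ≠ w'` are not adjacent in `H`
then `B w`, `B w'` have no edge between them, so for `s ∈ B w`, `t ∈ B w'`: `s`, `t` lie on different sides
(`s ≠ t` as the sets are disjoint; two different vertices of one side are adjacent) and are related by `TR`.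
So there is a side such that `B w` is contained in it and `B w'` is contained in the other one, and
`B w = inl '' P`, `B w' = inr '' P'` (or the other way round) with `P` complete to `P'`.
(a) three pairwise non-adjacent vertices: two of the three nonempty sets lie on the same side: impossible.
(b) `H = co2P3`: `B 0` lies on one side and `B 1`, `B 2` on the other one, completely related to `B 0`; the
same for `B 3` and `B 4`, `B 5`.  The other pairs (one of `0, 1, 2`, one of `3, 4, 5`) are adjacent in `H`; if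
the two sets lie on different sides, this means that they are not complete.
`B 0`, `B 3` both on the side `inl`: T1.  Both on the side `inr`: T1 after exchanging the sides by the
symmetry `sw` of T2.  `B 0` on the side `inl`, `B 3` on the side `inr`: T2 with `P = B 0`, `P_i = B i`,
`Q = B 3`, `Q_j = B (3 + j)`; the remaining case: T2 with the roles exchanged. -/
def S_TExcl : Prop := S_TAA → S_TAB →
  (∀ (n : ℕ) (W : Type) (H : SimpleGraph W) (w₁ w₂ w₃ : W), w₁ ≠ w₂ → w₁ ≠ w₃ → w₂ ≠ w₃ →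
    ¬ H.Adj w₁ w₂ → ¬ H.Adj w₁ w₃ → ¬ H.Adj w₂ w₃ → ¬ IsIndMinor H (TG n)) ∧
  ∀ n : ℕ, ¬ IsIndMinor co2P3 (TG n)

/-- **T4.** `TG n` has unbounded clique-width (uses A2 = `S_CWCut`, proved in `CWCut.lean`).

Proof. Write `y k = inr (inr k)`, `x' p = inr (inl p)`, `x p = inl (inl p)`, `z k = inl (inr k)`.
Let `CWLe c (TG n)`, `10 c < n`, `2 ≤ n`.  `S_CWCut` with `M = {y k}` (`n` elements) gives `A`; put
`I = {k | y k ∈ A}`, `J = {k | y k ∉ A}`: `3 |I| ≥ n`, `3 |J| ≥ n` (so both are nonempty).  The set of the traces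
`N(u) \ A`, `u ∈ A`, has at most `c` elements (it is finite).  In all steps we find `c + 1` vertices in `A`
with different traces.  CHAIN PRINCIPLE (CP): if `u_1, ..., u_m ∈ A` and `v_1, ..., v_m ∉ A` lie on opposite
sides and `TR`-related iff `i ≤ j` (`u_i` with `v_j`), or iff `j ≤ i`, or iff `i = j`, then the traces of the `u_i`
are pairwise different, so `m ≤ c`.  Equivalently, for a finite index set `T ⊆ Fin n` (or `Fin n × Fin n`) and
injective families `u_k ∈ A`, `v_k ∉ A`, `k ∈ T`, related iff `k ≤ l` (resp. `l ≤ k`, `k = l`): `|T| ≤ c`.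
(1) For every `b` at most `c` elements `k ∈ I` satisfy `x (k, b) ∉ A`: (CP) with `u_k = y k ∈ A`,
`v_k = x (k, b) ∉ A`: `y k ~ x (l, b)` iff `k ≤ l`.  Double counting over the pairs `(k, b) ∈ I × Fin n`: there
are at most `c n` bad ones, so there is `a₁ ∈ I` such that at most `3 c` elements `b` satisfy
`x (a₁, b) ∉ A` (otherwise there were at least `(3 c + 1) |I| ≥ (3 c + 1) n / 3 > c n` bad pairs).
(2) For every `b` at most `c` elements `l ∈ J` satisfy `x (l, b) ∈ A`: (CP) with `u_l = x (l, b) ∈ A`,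
`v_k = y k ∉ A`.  So there is `a₂ ∈ J` such that at most `3 c` elements `b` satisfy `x (a₂, b) ∈ A`.
(3) At most `c` pairs `p` satisfy `x p ∈ A`, `x' p ∉ A`, and at most `c` pairs satisfy `x' p ∈ A`, `x p ∉ A`
((CP) with `i = j`).  So at most `4 c` elements `b` satisfy `x' (a₁, b) ∉ A` and at most `4 c` elements `b` satisfy
`x' (a₂, b) ∈ A`.
(4) At most `c` elements `k` satisfy `z k ∉ A` and `x' (a₁, k) ∈ A` ((CP) with `u_l = x' (a₁, l)`, `v_k = z k`,
related iff `k ≤ l`), so at most `5 c` elements `k` satisfy `z k ∉ A`.  At most `c` elements `k` satisfy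
`z k ∈ A` and `x' (a₂, k) ∉ A`, so at most `5 c` elements `k` satisfy `z k ∈ A`.  Together `n ≤ 10 c`:
contradiction. -/
def S_TUnb : Prop := S_CWCut → ∀ c n : ℕ, 10 * c < n → 2 ≤ n → ¬ CWLe c (TG n)

/-- **T5.** The necessary condition: if `H` has three pairwise non-adjacent vertices and `H'` contains the
complement of `2 P_3` as an induced minor then `(H, H')` is unbounded.

Proof. Let `c` be a bound and `n = 10 c + 2`.  `TG n` does not contain `H` (T3) and not `H'` (otherwise it
contains `co2P3` by transitivity of `IsIndMinor`, contradicting T3), so `CWLe c (TG n)`, which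
contradicts T4. -/
def S_TMain : Prop := S_TAA → S_TAB → S_TExcl → S_TUnb → S_CWCut → ∀ (W W' : Type)
  (H : SimpleGraph W) (H' : SimpleGraph W'),
  (∃ w₁ w₂ w₃ : W, w₁ ≠ w₂ ∧ w₁ ≠ w₃ ∧ w₂ ≠ w₃ ∧ ¬ H.Adj w₁ w₂ ∧ ¬ H.Adj w₁ w₃ ∧
    ¬ H.Adj w₂ w₃) → IsIndMinor co2P3 H' → ¬ BoundedCW H H'

end Pool.Agent.MPd439b2
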