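import Pool.Agent.Lib.MP_d439b2_co.B.PentMain
import Pool.Agent.Lib.MP_d439b2_co.B.PentExcl
import Pool.Agent.Lib.MP_d439b2_co.B.PentIn
import Pool.Agent.Lib.MP_d439b2_co.B.PentUnb
import Pool.Agent.Lib.MP_d439b2_co.B.PentChain
import Pool.Agent.Lib.MP_d439b2_co.B.Co6
import Pool.Agent.Lib.MP_d439b2_co.CWCut
import Pool.Agent.Lib.MP_d439b2_co.Defs7

/-!
# MP_d439b2_co : the pentagon helix, final form
-/

set_option autoImplicit false

namespace Pool.Agent.MPd439b2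

/-- If `H` has three pairwise non-adjacent vertices and `H'` contains `co6P2` as an induced minor then
the pair is unbounded. -/
theorem pentFin (W W' : Type) (H : SimpleGraph W) (H' : SimpleGraph W')
    (h : ∃ w₁ w₂ w₃ : W, w₁ ≠ w₂ ∧ w₁ ≠ w₃ ∧ w₂ ≠ w₃ ∧ ¬ H.Adj w₁ w₂ ∧ ¬ H.Adj w₁ w₃ ∧
      ¬ H.Adj w₂ w₃) (h' : IsIndMinor co6P2 H') : ¬ BoundedCW H H' :=
  pentMain pentExcl pentIn pentUnb pentChain cwCut W W' H H' h h'

end Pool.Agent.MPd439b2
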