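import Pool.Agent.Lib.MP_d439b2_co.B.SpecQ

/-!
# MP_d439b2_co, Theorem B, Q2: clique or independent set of the chosen vertices
-/

set_option autoImplicit false

namespace Pool.Agent.MPd439b2

namespace q2Aux

theorem conn_single {V : Type} (G : SimpleGraph V) (x : V) : Conn G ({x} : Set V) := by
  refine ⟨Set.singleton_nonempty x, fun B hB hne hneq => ?_⟩
  exfalso
  apply hneq
  refine Set.Subset.antisymm hB ?_
  obtain ⟨y, hy⟩ := hne
  have hyx : y = x := hB hy
  rw [Set.singleton_subset_iff, ← hyx]
  exact hy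

end q2Aux

/-- A large clique among the chosen vertices, or an independent set completely joined to many sets
of the model. -/
theorem q2 : (S_Ram) → (S_L1) → S_Q2 := by
  classical
  intro hRam hL1 s n p hp
  obtain ⟨n0, hn0⟩ := hRam n p
  refine ⟨max n0 p, fun L hL V G t B Gd v hfree hM hGd hcard hv => ?_⟩
  rcases hn0 ℕ Gd (fun x y => G.Adj (v x) (v y)) (fun x y h => h.symm)
    ((le_max_left _ _).trans hcard) with ⟨T, hT, hTc, hTa⟩ | ⟨T, hT, hTc, hTa⟩
  · exact Or.inl ⟨T, hT, hTc, hTa⟩
  · right
    have hind : ∀ i ∈ T, ∀ j ∈ T, ¬ G.Adj (v i) (v j) := by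
      intro i hi j hj
      by_cases hij : i = j
      · subst hij
        exact G.irrefl
      · exact hTa i hi j hj hij
    set J0 : Finset ℕ := Finset.range t \ T with hJ0
    have hTr : T ⊆ Finset.range t := hT.trans hGd
    have hM0 : Mdl G J0 B :=
      ⟨fun i hi => hM.1 i (Finset.mem_sdiff.1 hi).1, fun i hi j hj hij =>
        hM.2 i (Finset.mem_sdiff.1 hi).1 j (Finset.mem_sdiff.1 hj).1 hij⟩
    -- the traces are large
    have hlarge : ∀ i ∈ T, L ≤ (tau G J0 B {v i}).card := by
      intro i hi
      have h1 := (hv i (hT hi)).2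
      have h2 : tau G (Finset.range t \ {i}) B {v i} ⊆ tau G J0 B {v i} ∪ T := by
        intro j hj
        rw [mem_tau] at hj
        rw [Finset.mem_union, mem_tau, hJ0, Finset.mem_sdiff]
        by_cases hjT : j ∈ T
        · exact Or.inr hjT
        · exact Or.inl ⟨⟨(Finset.mem_sdiff.1 hj.1).1, hjT⟩, hj.2⟩
      have h3 := (Finset.card_le_card h2).trans (Finset.card_union_le _ _)
      have h4 : p ≤ max n0 p := le_max_right _ _
      omega
    -- the traces are nested
    have hdis : ∀ i ∈ T, ∀ j ∈ J0, Disjoint ({v i} : Set V) (B j) := by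
      intro i hi j hj
      obtain ⟨hj1, hj2⟩ := Finset.mem_sdiff.1 hj
      rw [Set.disjoint_singleton_left]
      intro hmem
      have hne : i ≠ j := fun h => hj2 (h ▸ hi)
      exact Set.disjoint_left.1 (hM.2 i (hTr hi) j hj1 hne).1 (hv i (hT hi)).1 hmem
    have hnest : ∀ i ∈ T, ∀ i' ∈ T, tau G J0 B {v i} ⊆ tau G J0 B {v i'} ∨
        tau G J0 B {v i'} ⊆ tau G J0 B {v i} := by
      intro i hi i' hi'
      by_cases hii : i = i'
      · subst hii
        exact Or.inl (Finset.Subset.refl _)
      · refine hL1 V G s J0 B {v i} {v i'} hfree hM0 (q2Aux.conn_single G _)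
          (q2Aux.conn_single G _) ?_ ?_ (fun j hj => ⟨hdis i hi j hj, hdis i' hi' j hj⟩)
          (hL.trans (hlarge i hi)) (hL.trans (hlarge i' hi'))
        · rw [Set.disjoint_singleton_left, Set.mem_singleton_iff]
          intro h
          refine Set.disjoint_left.1 (hM.2 i (hTr hi) i' (hTr hi') hii).1 (hv i (hT hi)).1 ?_
          rw [h]
          exact (hv i' (hT hi')).1
        · rintro ⟨a, ha, b, hb, hab⟩
          rw [Set.mem_singleton_iff] at ha hb
          subst ha
          subst hb
          exact hind i hi i' hi' hab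
    have hTne : T.Nonempty := by
      rw [← Finset.card_pos, hTc]
      exact hp
    obtain ⟨i0, hi0, hmin⟩ := Finset.exists_min_image T (fun i => (tau G J0 B {v i}).card) hTne
    refine ⟨T, hT, hTc, hind, tau G J0 B {v i0}, ?_, hlarge i0 hi0, ?_⟩
    · intro j hj
      exact (mem_tau.1 hj).1
    · intro i hi j hj
      have hsub : tau G J0 B {v i0} ⊆ tau G J0 B {v i} := by
        rcases hnest i0 hi0 i hi with h | h
        · exact h
        · rw [Finset.eq_of_subset_of_card_le h (hmin i hi)]
      exact (mem_tau.1 (hsub hj)).2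

end Pool.Agent.MPd439b2
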