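import Pool.Agent.Lib.MP_d439b2_co.B.SpecQ
import Pool.Agent.Lib.MP_d439b2_co.B.SpecR

/-!
# MP_d439b2_co, Theorem B, Spec A: assembly statements and the final theorems
-/

set_option autoImplicit false

namespace Pool.Agent.MPd439b2

/-- **A3.** Theorem Q from its parts.

Proof. Let `n` be given, `n' = max n 1`.  `S_Q3 s N m n` gives `p ≥ 1` and `L₀`; `L = L₀ + 4 s + 2 + n`;
`S_Q2 s (2 n) p` gives `g`; `S_Q1b s N m` gives `n₁`, and for `δ = g + L` a number `t₀'`;
`t₀ = t₀' + n₁ + g`.  Let `t ≥ t₀` and a model be given.  `Gd = range t \ Bad` has at least `g` elements;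
choose `v i ∈ B i` for `i ∈ Gd`.  `S_Q2`: (a) a clique `T` of size `2 n`: split `T` into two halves
`T₁, T₂` with `n` elements; `Q_i = {v j | j ∈ T_i}` (the `v j` are distinct as the `B j` are disjoint); the
trace of `{v j}` in `range t` has at least `g + L ≥ n` elements.  (b) `T`, `J`: the situation
`VB G T J v B` (`v i ∈ B i`, `J ∩ T = ∅`), `S_Q3` gives `Q₁, Q₂`. -/
def S_A3 : Prop := S_Q1b → S_Q2 → S_Q3 → S_Q

/-- **A4.** Theorem C from its parts.

Proof. `S_LinkBd s N m` gives `q, n₂`; `S_CoreP s q N` gives `n`; `τ = 4 n₂`.  `S_Gal`. -/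
def S_A4 : Prop := S_CoreP → S_LinkBd → S_Gal → S_Core

/-- **A5.** Theorem B (positive part): if `H` belongs to `S2`, `H'` is the join of a complete graph and
an induced subgraph of `P_4`, and `H` or `H'` is an induced minor of a grid, then the pair `(H, H')` has
bounded clique-width.

Proof. (1) `S_S2DD` (theorem `s2DD` of `S2DD.lean`): `H` is an induced minor of `DD N₀ m`,
`2 m ≤ N₀`; let `N = N₀ + 2`; `DD N₀ m` is an induced minor of `DD N m` (singletons, `Fin.castLE`; for
`i.val = 2 q` nothing changes), so `H` is one (`imsTrans`).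
(2) `IsKP4 H'` with the function `g : W' → Option (Fin 4)`: let `s` be the number of the `w` with
`g w = none` (`W'` finite) and `ψ` a bijection of them with `Fin s`; the map `w ↦ inl (ψ w)` resp.
`w ↦ inr i` for `g w = some i` is injective and preserves and reflects adjacency; so `H'` is an induced
minor of `KP s` (singletons).
(3) `InGrid H` or `InGrid H'` gives `n` with `IsIndMinor H (grid n)` or `IsIndMinor H' (grid n)`; `grid n`
is an induced minor of `grid (n + 2)`; put `r = n + 2`.
(4) Let `G` contain neither `H` nor `H'` as an induced minor.  By transitivity (`imsTrans`,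
`ims_univ_iff`) `G` has none of `KP s`, `DD N m`, `grid r`.  `S_LayB` gives `Lay G k univ`, `layCW` gives
`CWLe (3 * (k + 1)) G`. -/
def S_A5 : Prop := S_LayB → ∀ (W W' : Type) [Finite W] [Finite W'] (H : SimpleGraph W)
  (H' : SimpleGraph W'), InS2 H → IsKP4 H' → (InGrid H ∨ InGrid H') → BoundedCW H H'

/-- **A6.** Small joins.

Proof. Let `g` be the labelling of `IsKP4 H`, `K` the clique of `InS2 H`, `U = {w | g w = none}` (adjacent to
all other vertices), and `J ⊆ Fin 4` the set of the labels which occur.  `H` is not complete, so there are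
two non-adjacent vertices, with non-consecutive labels `i < j` in `J`.  Let `u = |U|`.
A vertex outside `K` has degree at most two.  Of two non-adjacent vertices one is outside `K`; it is
adjacent to all vertices of `U`, so `u ≤ 2`.
`u = 0`: `H` is an induced subgraph of `P_4`, so of the gem (`some i ↦ i`).
`u = 1`: `H` is an induced subgraph of the gem (`none ↦ 4`).
`u = 2`: the vertices labelled by `J` which are outside `K` have no neighbours among the labelled
vertices.  If `|J| = 4`: the vertices `0, 1, 2, 3` all have a neighbour among the labelled ones, so all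
are in `K`, but `0, 2` are not adjacent: contradiction.  `|J| = 3`: `J = {0,1,2}` or `{1,2,3}` (a path):
the same contradiction (`0, 2` not adjacent, both have the neighbour `1`).  `J = {0,1,3}` or
`{0,2,3}`: an edge and an isolated vertex; `H` is `co2P1P3` (`U ↦ 0, 1`, the edge `↦ 2, 3`, the isolated
vertex `↦ 4`).  `|J| = 2`, non-consecutive labels: `K_4` minus an edge, an induced subgraph of `co2P1P3`
(`U ↦ 0, 1`, the two others `↦ 2, 4`). -/
def S_A6 : Prop := ∀ (W : Type) [Finite W] (H : SimpleGraph W), IsKP4 H → InS2 H →
  IsComplete H ∨ IsIndSub H gem ∨ IsIndSub H co2P1P3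

end Pool.Agent.MPd439b2
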