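import Pool.Agent.Lib.MP_d439b2_co.B.SpecK

/-!
# MP_d439b2_co, Theorem B, Spec C: the core `A` around a large complete bipartite subgraph

Every `S_...` is a statement to be proved in its own file; the docstring contains the complete
proof.  For a set `D` we write `N_A(D) = nb G D ∩ A`, `N_A(w) = G.neighborSet w ∩ A`,
`M_c = 16 s + 4`.
-/

set_option autoImplicit false

namespace Pool.Agent.MPd439b2

/-- no vertex of `A` is separated from `Q` in `G[A]` by at most `q` vertices -/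
def Lnk {V : Type} (G : SimpleGraph V) (Q A : Set V) (q : ℕ) : Prop :=
  Q ⊆ A ∧ ∀ F : Set V, F.ncard ≤ q → ∀ x ∈ A, x ∉ F →
    ∃ C, Conn G C ∧ C ⊆ A \ F ∧ x ∈ C ∧ (C ∩ Q).Nonempty

/-- `Q₁`, `Q₂` are disjoint, have at least `n` elements and all edges between them are present -/
def Bip {V : Type} (G : SimpleGraph V) (Q₁ Q₂ : Set V) (n : ℕ) : Prop :=
  Disjoint Q₁ Q₂ ∧ n ≤ Q₁.ncard ∧ n ≤ Q₂.ncard ∧ ∀ a ∈ Q₁, ∀ b ∈ Q₂, G.Adj a b

/-- **C1.** The largest linked set.

Proof. `A = ⋃₀ {X | Lnk G (Q₁ ∪ Q₂) X q}`.  `Q₁ ∪ Q₂` is such a set (`C = {x}`), and the union of such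
sets is again one (for `x ∈ X`, `x ∉ F` take the `C ⊆ X \ F`).  If `w ∉ A` had more than `q` neighbours
in `A` then `insert w A` would be linked: let `|F| ≤ q`; for `x ∈ A \ F` take `C ⊆ A \ F`; for `x = w ∉ F` there is
a neighbour `y` of `w` in `A \ F` (`F` has at most `q` elements), take `C` for `y` and `insert w C`.
Contradiction.  HIGH: let `a ∈ A`.  If `a ∈ Q₁` then `Q₂ ⊆ N_A(a)` has more than `q` elements, the same
for `a ∈ Q₂`.  Otherwise let `F = N_A(a)` and suppose `|F| ≤ q`; `a ∉ F`; so there is a connected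
`C ⊆ A \ F` with `a ∈ C` which meets `Q`, so `C ≠ {a}` and there is an edge from `a` to `C \ {a}`
(`Conn` with `B = {a}`), but its end is in `N_A(a) = F`. -/
def S_CSet : Prop := ∀ (V : Type) [Finite V] (G : SimpleGraph V) (Q₁ Q₂ : Set V) (q : ℕ),
  Bip G Q₁ Q₂ (q + 1) → ∃ A : Set V, Lnk G (Q₁ ∪ Q₂) A q ∧
    (∀ w, w ∉ A → (G.neighborSet w ∩ A).ncard ≤ q) ∧ ∀ a ∈ A, q < (G.neighborSet a ∩ A).ncard

/-- **C2.** Rooted models inside the core.  (Menger: `linked_of_sep` of
`Pool/Agent/Lib/MP_b6048d_co/Sep.lean`; you may import that file.)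

Proof. Let `W = A \ F`, `X = {x i | i < r}` (`r` elements), `Y = (Q₁ ∪ Q₂) \ F`, as `Finset`s
(`Set.toFinset` with classical instances).  CLAIM: there are `r` disjoint `X`-`Y` paths in `G[W]`.
By `linked_of_sep` it is enough that every separation `(A', B')` of `W` with `X ⊆ A'`, `Y ⊆ B'` has
`r ≤ |A' ∩ B'|`.  Otherwise there is a root `x i ∉ A' ∩ B'`, so `x i ∈ A' \ B'`; the set
`F' = F ∪ (A' ∩ B')` has at most `|F| + r - 1 ≤ q` elements and does not contain `x i`; so there is a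
connected `C ⊆ A \ F'` with `x i ∈ C` which meets `Q₁ ∪ Q₂`; `C ∩ (A' \ B')` is nonempty and closed in `C`
(no edges between `A' \ B'` and `B' \ A'`), so `C ⊆ A' \ B'`, but `C` contains an element of `Y ⊆ B'`.
Contradiction.
Every root is the first vertex of exactly one path (`r` disjoint paths, `|X| = r`; a path is a list with
the head in `X` and the last element in `Y`); cut every path at its FIRST element in `Y`
(`exists_first_mem` in `Lib/MP_2ce0dd_pr/Menger.lean`).  So for `i < r` there is a connected set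
`L i ⊆ A \ F` containing `x i` with exactly one element `y i` of `Q₁ ∪ Q₂`, and the `L i` are disjoint (a list
with consecutive elements adjacent is connected as a set, induction with `Conn.insert`).
Now `Q₁ \ F \ {y i}` and `Q₂ \ F \ {y i}` have at least `n - |F| - r ≥ r + N` elements each: choose
distinct fresh `a i ∈ Q₁`, `b i ∈ Q₂` for `i < r + N` there (injections `Fin (r + N) → ...`).  For `i < r` put
`X i = L i ∪ {b i}` if `y i ∈ Q₁` and `X i = L i ∪ {a i}` if `y i ∈ Q₂`; for `r ≤ i < r + N` put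
`X i = {a i, b i}`.  Every `X i` is connected and contains an element of `Q₁` and one of `Q₂`, so they touch
pairwise; they are disjoint (the fresh elements are in no `L j`: an element of `Q₁ ∪ Q₂` in `L j` is
`y j`). -/
def S_RC : Prop := ∀ (V : Type) [Finite V] (G : SimpleGraph V) (Q₁ Q₂ A : Set V) (q n : ℕ),
  Bip G Q₁ Q₂ n → Lnk G (Q₁ ∪ Q₂) A q → ∀ (r N : ℕ) (x : ℕ → V) (F : Set V),
    (∀ i < r, x i ∈ A ∧ x i ∉ F) → (∀ i < r, ∀ j < r, x i = x j → i = j) → F ⊆ A →
    r + F.ncard ≤ q + 1 → 2 * r + F.ncard + N ≤ n →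
    ∃ X : ℕ → Set V, Mdl G (Finset.range (r + N)) X ∧ (∀ i < r + N, X i ⊆ A \ F) ∧
      ∀ i < r, x i ∈ X i

/-- The properties of the core used in the sequel. -/
structure CoreP {V : Type} (G : SimpleGraph V) (A : Set V) (s q N : ℕ) : Prop where
  low : ∀ w, w ∉ A → (G.neighborSet w ∩ A).ncard ≤ q
  high : ∀ a ∈ A, q < (G.neighborSet a ∩ A).ncard
  rc : ∀ (r : ℕ) (x : ℕ → V) (F : Set V), (∀ i < r, x i ∈ A ∧ x i ∉ F) →
    (∀ i < r, ∀ j < r, x i = x j → i = j) → F ⊆ A → r + F.ncard ≤ q + 1 →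
    ∃ X : ℕ → Set V, Mdl G (Finset.range (r + N)) X ∧ (∀ i < r + N, X i ⊆ A \ F) ∧
      ∀ i < r, x i ∈ X i
  /-- no path of four sets each of which is a vertex of `A` or a connected set outside `A` with at least
  `16 s + 4` neighbours in `A` -/
  pat : ∀ P : Fin 4 → Set V, PathPat G P → ¬ ∀ i, (∃ a ∈ A, P i = {a}) ∨
    (Disjoint (P i) A ∧ 16 * s + 4 ≤ (nb G (P i) ∩ A).ncard)
  common : ∀ x ∈ A, ∀ y ∈ A, x ≠ y → ¬ G.Adj x y →
    q < (G.neighborSet x ∩ G.neighborSet y ∩ A).ncard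

/-- **C3.** No path of four big sets (Claim M).  (Uses `S_KPd`.)  The hypothesis `hrc` is the
property `rc` of `CoreP`.

Proof. Let `P` be such a path.  Let `F = {a ∈ A | P i = {a} for some i}`, `|F| ≤ 4`.  Every `P i` has at least
`16 s + 4` neighbours in `A` (for `P i = {a}`: `nb G {a} ∩ A = N_A(a)`, more than `q ≥ 16 s + 3`), hence at
least `16 s` in `A \ F`.  Choose one after the other `16 s` distinct roots `x k`, `k < 16 s`, in `A \ F`, with
`x (4 s i + l) ∈ nb G (P i)` for `i < 4`, `l < 4 s`.  `16 s + |F| ≤ 16 s + 4 ≤ q + 1`, so `hrc` gives a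
model `X`, `X k ⊆ A \ F`, `x k ∈ X k`.  `P i` touches the `4 s` sets `X k` with `4 s i ≤ k < 4 s (i + 1)`
(`x k` is a neighbour of `P i`).  The `X k` are disjoint from the `P i` (`P i` is a singleton of `F` or disjoint
from `A`).  `S_KPd` with `I = range (16 s)`. -/
def S_Pat : Prop := ∀ (V : Type) [Finite V] (G : SimpleGraph V) (A : Set V) (s q : ℕ),
  ¬ IMS (KP s) G Set.univ → 16 * s + 3 ≤ q → (∀ a ∈ A, q < (G.neighborSet a ∩ A).ncard) →
    (∀ (r : ℕ) (x : ℕ → V) (F : Set V), (∀ i < r, x i ∈ A ∧ x i ∉ F) →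
      (∀ i < r, ∀ j < r, x i = x j → i = j) → F ⊆ A → r + F.ncard ≤ q + 1 →
      ∃ X : ℕ → Set V, Mdl G (Finset.range r) X ∧ (∀ i < r, X i ⊆ A \ F) ∧ ∀ i < r, x i ∈ X i) →
    ∀ P : Fin 4 → Set V, PathPat G P → ¬ ∀ i, (∃ a ∈ A, P i = {a}) ∨
      (Disjoint (P i) A ∧ 16 * s + 4 ≤ (nb G (P i) ∩ A).ncard)

/-- **C4.** Non-adjacent vertices of the core have many common neighbours.  (Uses `S_Path`.)

Proof. Suppose `F = N(x) ∩ N(y) ∩ A` has at most `q` elements.  `x, y ∉ F`.  Take `C_x, C_y ⊆ A \ F` from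
`Lnk`.  `Q' = (Q₁ ∪ Q₂) \ F` is connected: it contains elements of `Q₁` and of `Q₂`
(`|Q_i| ≥ q + 1 > |F|`) and all edges between them; so `C = C_x ∪ Q' ∪ C_y` is connected (`Conn.union`,
`C_x ∩ Q' ≠ ∅`), `C ⊆ A \ F`.  By `S_Path` with `X = {x}`, `Y = {y}` there is an induced path
`x = p 0, ..., p l = y` in `C`; `l ≥ 2` since `x ≠ y`, `x` not adjacent to `y`; `l ≥ 3` is impossible since
`p 0, p 1, p 2, p 3` would be an induced path in `A` (`P4Free`: with `a = p 0` etc. it gives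
`G.Adj (p 0) (p 3)`, contradiction); so `l = 2` and `p 1` is a common neighbour in `A \ F`, but
`p 1 ∈ N(x) ∩ N(y) ∩ A = F`.  Contradiction. -/
def S_Com : Prop := ∀ (V : Type) [Finite V] (G : SimpleGraph V) (Q₁ Q₂ A : Set V) (q : ℕ),
  Bip G Q₁ Q₂ (q + 1) → Lnk G (Q₁ ∪ Q₂) A q → P4Free G A → ∀ x ∈ A, ∀ y ∈ A, x ≠ y →
    ¬ G.Adj x y → q < (G.neighborSet x ∩ G.neighborSet y ∩ A).ncard

/-- **C5.** The core exists.  (Uses `S_CSet`, `S_RC`, `S_Pat`, `S_Com`.)

Proof. `n = 2 (q + 1) + N + q + 2` is large enough (in `rc`, `r ≤ q + 1` and `|F| ≤ q + 1`).  `rc` without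
the `N` additional sets follows by restriction (`Finset.range r ⊆ Finset.range (r + N)`).  `P4Free G A`:
an induced path `a, b, c, d` in `A` gives the `PathPat` of the four singletons (`![{a}, {b}, {c}, {d}]`;
singletons are connected; `Tch G {a} {b} ↔ G.Adj a b`), which contradicts `pat`. -/
def S_CoreP : Prop := ∀ s q N : ℕ, 16 * s + 3 ≤ q → ∃ n : ℕ,
  ∀ (V : Type) [Finite V] (G : SimpleGraph V) (Q₁ Q₂ : Set V), ¬ IMS (KP s) G Set.univ →
    Bip G Q₁ Q₂ n → ∃ A : Set V, Q₁ ∪ Q₂ ⊆ A ∧ P4Free G A ∧ CoreP G A s q N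

/-- **C6.** Nested neighbourhoods of big non-touching sets outside the core.

Proof. Otherwise let `x ∈ N_A(D) \ N_A(D')`, `x' ∈ N_A(D') \ N_A(D)`; `x ≠ x'`.  If `x ~ x'` the path
`D, {x}, {x'}, D'` contradicts `pat`.  Otherwise there are more than `q` common neighbours of `x, x'` in
`A`, so one of them, `c`, is not in `N_A(D)` (`|N_A(D)| ≤ q`).  If `c ∈ N_A(D')` the path `D, {x}, {c}, D'`
(`D` touches `{x}`, not `{c}`, not `D'`; `x ~ c`; `x ∉ N_A(D')`; `c` touches `D'`) contradicts `pat`.  If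
`c ∉ N_A(D')` the path `D, {x}, {c}, {x'}` (`x' ∉ N_A(D)`, `x` not adjacent to `x'`) contradicts `pat`.
(`nb G D ∩ A` is the set of the `a ∈ A` touched by `D`, as `D` is disjoint from `A`.) -/
def S_Nest : Prop := ∀ (V : Type) [Finite V] (G : SimpleGraph V) (A : Set V) (s q N : ℕ),
  CoreP G A s q N → ∀ D D' : Set V, Conn G D → Conn G D' → Disjoint D A → Disjoint D' A →
    Disjoint D D' → ¬ Tch G D D' → 16 * s + 4 ≤ (nb G D ∩ A).ncard →
    16 * s + 4 ≤ (nb G D' ∩ A).ncard → (nb G D ∩ A).ncard ≤ q →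
    nb G D ∩ A ⊆ nb G D' ∩ A ∨ nb G D' ∩ A ⊆ nb G D ∩ A

/-- `p 0, ..., p (l - 1)` is an induced path outside `A` -/
def OutPath {V : Type} (G : SimpleGraph V) (A : Set V) (l : ℕ) (p : ℕ → V) : Prop :=
  0 < l ∧ (∀ i < l, p i ∉ A) ∧ (∀ i < l, ∀ j < l, p i = p j → i = j) ∧
    ∀ i < l, ∀ j < l, G.Adj (p i) (p j) ↔ i = j + 1 ∨ j = i + 1

/-- the vertices `p i`, `a ≤ i < b` -/
def seg {V : Type} (p : ℕ → V) (a b : ℕ) : Set V := {v | ∃ i, a ≤ i ∧ i < b ∧ p i = v}

/-- **C7.** Induced paths outside the core have few neighbours in the core.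

Proof. `M_c = 16 s + 4`, `f(a, b) = |N_A(seg p a b)|` (`N_A(D)` for `D` disjoint from `A`: the set of the
elements of `A` adjacent to an element of `D`).  `f(a, a) = 0`, `f(a, b + 1) ≤ f(a, b) + d`.  Put `b_0 = 0` and
let `b_{k+1}` be the smallest `b ≤ l` with `b > b_k` and `f(b_k, b) ≥ M_c`, if there is one (`Nat.find`); then
`f(b_k, b_{k+1}) ≤ M_c + d`.  If `b_4` exists then the four segments `seg p b_k b_{k+1}`, `k < 4`, are
connected (consecutive vertices adjacent), disjoint from `A`, pairwise disjoint, consecutive ones touch,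
others do not (induced path), and have at least `M_c` neighbours in `A`: contradiction to `pat`.  So for
some `k ≤ 3` the number `b_{k+1}` does not exist: `f(b_k, l) < M_c`, and
`f(0, l) ≤ 3 (M_c + d) + M_c ≤ 4 (M_c + d)`. -/
def S_PathB : Prop := ∀ (V : Type) [Finite V] (G : SimpleGraph V) (A : Set V) (s q N : ℕ),
  CoreP G A s q N → ∀ (l : ℕ) (p : ℕ → V) (d : ℕ), OutPath G A l p →
    (∀ i < l, (G.neighborSet (p i) ∩ A).ncard ≤ d) →
    (nb G (seg p 0 l) ∩ A).ncard ≤ 4 * (16 * s + 4 + d)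

/-- `I` is a connected set outside `A` with the distinct neighbours `x`, `y` in `A` -/
def ALink {V : Type} (G : SimpleGraph V) (A I : Set V) (x y : V) : Prop :=
  Conn G I ∧ Disjoint I A ∧ x ∈ A ∧ y ∈ A ∧ x ≠ y ∧ x ∈ nb G I ∧ y ∈ nb G I

/-- a system of `n` disjoint links -/
def LinkSys {V : Type} (G : SimpleGraph V) (A : Set V) (n : ℕ) (I : ℕ → Set V) (x y : ℕ → V) :
    Prop :=
  (∀ k < n, ALink G A (I k) (x k) (y k)) ∧ ∀ k < n, ∀ l < n, k ≠ l →
    Disjoint (I k) (I l) ∧ x k ≠ x l ∧ x k ≠ y l ∧ y k ≠ y l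

/-- a system of links whose sets are induced paths `p k 0, ..., p k (L k - 1)`, the index set `S` -/
def PSys {V : Type} (G : SimpleGraph V) (A : Set V) (S : Finset ℕ) (L : ℕ → ℕ) (p : ℕ → ℕ → V)
    (x y : ℕ → V) : Prop :=
  (∀ k ∈ S, OutPath G A (L k) (p k) ∧ x k ∈ A ∧ y k ∈ A ∧ x k ≠ y k ∧ G.Adj (x k) (p k 0) ∧
    G.Adj (y k) (p k (L k - 1))) ∧
  ∀ k ∈ S, ∀ l ∈ S, k ≠ l → Disjoint (seg (p k) 0 (L k)) (seg (p l) 0 (L l)) ∧ x k ≠ x l ∧
    x k ≠ y l ∧ y k ≠ y l

/-- **C8.** From links to induced paths.  (Uses `S_Path`.)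

Proof. `S_Path` with `C = I k`, `X = {v | G.Adj (x k) v}`, `Y = {v | G.Adj (y k) v}`, `L k = l + 1`.  Extend
the functions outside `k < n` arbitrarily. -/
def S_PSys : Prop := ∀ (V : Type) (G : SimpleGraph V) (A : Set V) (n : ℕ) (I : ℕ → Set V)
  (x y : ℕ → V), LinkSys G A n I x y → ∃ (L : ℕ → ℕ) (p : ℕ → ℕ → V),
    PSys G A (Finset.range n) L p x y

/-- **C9.** A large system of links with pairwise touching paths is impossible.  (Uses `S_PathB`,
`S_Dig`.)

Proof. `M_c = 16 s + 4`, `b = 4 (M_c + q)`, `n = 3 (2 M_c b + 1) M_c`.  By `S_PathB` with `d = q` (property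
`low`) `|N_A(I k)| ≤ b` for the path sets `I k = seg (p k) 0 (L k)`.  Take `3 (2 M_c b + 1)` disjoint groups
`S_g ⊆ S` of `M_c` indices (for instance through an injection of `range (3 (2 M_c b + 1) M_c)` into `S`,
`g = k / M_c`).  The union `J_g` of the `I k`, `k ∈ S_g`, is connected (pairwise touching connected sets),
disjoint from `A`, and `N_A(J_g)` contains the `M_c` distinct elements `x k`, `k ∈ S_g` and has at most
`M_c b` elements.  Different `J_g` are disjoint and touch.  Let `z_g = x k_g` for one `k_g ∈ S_g`.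
`S_Dig` with `E g h := z_h ∈ N_A(J_g)` (out-degree at most `M_c b`, as the `z_h` are distinct) gives three
groups `1, 2, 3` with `z_h ∉ N_A(J_g)` for `g ≠ h`.  If `z_2 ~ z_3`: path `J_1, J_2, {z_2}, {z_3}`.  If not:
path `{z_2}, J_2, J_3, {z_3}`.  Both contradict `pat`. -/
def S_Touch : Prop := ∀ s q : ℕ, ∃ n : ℕ, ∀ (V : Type) [Finite V] (G : SimpleGraph V) (A : Set V)
  (N : ℕ) (S : Finset ℕ) (L : ℕ → ℕ) (p : ℕ → ℕ → V) (x y : ℕ → V), CoreP G A s q N →
    PSys G A S L p x y → n ≤ S.card →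
    ¬ ∀ k ∈ S, ∀ l ∈ S, k ≠ l → Tch G (seg (p k) 0 (L k)) (seg (p l) 0 (L l))

/-- **C10.** Private links: a large subsystem such that no end of a link is a neighbour of another
path.  (Uses `S_PathB`, `S_Dig`.)

Proof. `b = 4 (16 s + 4 + q)`; `n = (2 b + 1) m'`; `S_Dig` with
`E k l := x l ∈ N_A(I k) ∨ y l ∈ N_A(I k)`: out-degree at most `|N_A(I k)| ≤ b` (`S_PathB`, property `low`;
an element of `N_A(I k)` is equal to `x l` or `y l` for at most one `l`). -/
def S_Priv : Prop := ∀ s q m' : ℕ, ∃ n : ℕ, ∀ (V : Type) [Finite V] (G : SimpleGraph V) (A : Set V)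
  (N : ℕ) (S : Finset ℕ) (L : ℕ → ℕ) (p : ℕ → ℕ → V) (x y : ℕ → V), CoreP G A s q N →
    PSys G A S L p x y → n ≤ S.card → ∃ T ⊆ S, T.card = m' ∧ ∀ k ∈ T, ∀ l ∈ T, k ≠ l →
      x l ∉ nb G (seg (p k) 0 (L k)) ∧ y l ∉ nb G (seg (p k) 0 (L k))

/-- **C11.** Private non-touching links yield short beginnings.  (Uses `S_PathB`, `S_Nest`.)

Proof. `M_c = 16 s + 4`.  For `k ∈ T` let `d k` be the smallest `i < L k` with `|N_A(p k i)| ≥ M₁`, and
`d k = L k` if there is none.  (1) At most one `k ∈ T` has `d k = 0`: for two such, `D = {p k 0}` and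
`D' = {p l 0}` are non-touching, with at least `M₁ ≥ M_c` and at most `q` (property `low`) neighbours in
`A`; by `S_Nest` the sets `N_A(D)`, `N_A(D')` are nested; but `x k` is in the first and not in the second,
`x l` in the second and not in the first.  (2) At most one `k ∈ T` with `d k ≥ 1` has
`|N_A(seg (p k) 0 (d k))| ≥ M_c`: all vertices `p k i`, `i < d k`, have less than `M₁` neighbours in `A`; by
`S_PathB` (the path cut after `d k` vertices is again an `OutPath`)
`|N_A(seg (p k) 0 (d k))| ≤ 4 (M_c + M₁) ≤ q`, and again `S_Nest` gives a contradiction for two such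
`k, l`, as `x k ∈ N_A(seg (p k) 0 (d k))` (`d k ≥ 1`).  Remove these at most two elements of `T`. -/
def S_Short : Prop := ∀ (V : Type) [Finite V] (G : SimpleGraph V) (A : Set V) (s q N M₁ m : ℕ)
  (T : Finset ℕ) (L : ℕ → ℕ) (p : ℕ → ℕ → V) (x y : ℕ → V), CoreP G A s q N →
    16 * s + 4 ≤ M₁ → 4 * (16 * s + 4 + M₁) ≤ q → PSys G A T L p x y → m + 2 ≤ T.card →
    (∀ k ∈ T, ∀ l ∈ T, k ≠ l → x l ∉ nb G (seg (p k) 0 (L k)) ∧
      ¬ Tch G (seg (p k) 0 (L k)) (seg (p l) 0 (L l))) →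
    ∃ T' ⊆ T, T'.card = m ∧ ∃ d : ℕ → ℕ, ∀ k ∈ T', 0 < d k ∧ d k ≤ L k ∧
      (nb G (seg (p k) 0 (d k)) ∩ A).ncard < 16 * s + 4 ∧
      (d k = L k ∨ M₁ ≤ (G.neighborSet (p k (d k)) ∩ A).ncard)

/-- **C12.** The induced minor `DD N m` from `m` short beginnings.  (Uses `S_DDd`.)

Proof. `M_c = 16 s + 4`, `D k = seg (p k) 0 (d k)`, `F' = ⋃_{k ∈ T} N_A(D k)`, so
`|F'| ≤ m (M_c - 1)`.  Enumerate `T = {k_0, ..., k_{m-1}}` (write `k` for `k_q`).  Second roots `z k`: if
`d k = L k` then `z k = y k`.  Otherwise `z k = α k ∈ N_A(p k (d k))`, chosen one after the other outside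
`F'`, different from all `x l`, all `y l` and the earlier `α`: possible as
`M₁ = m M_c + 3 m + 1 > m (M_c - 1) + m + m + m`.  The `2 m` roots `x k`, `z k` are distinct.  Put
`F = F' \ {roots}`; `2 m + |F| ≤ q + 1`.  `rc` with `r = 2 m` and the roots in the order
`2 q ↦ x k_q`, `2 q + 1 ↦ z k_q` gives `X 0, ..., X (2 m + N - 1)`.  Put `X' i = X i`, except that
`X' (2 q + 1) = X (2 q + 1) ∪ {p k (d k)}` if `d k < L k` (`k = k_q`): connected, since `p k (d k)` is adjacent
to `α k ∈ X (2 q + 1)`.  The added vertices are outside `A` and distinct, so `X'` is a model on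
`range (2 m + N)`.  `Y q = D k_q`: connected (`0 < d k`), disjoint from all `X' i` (outside `A`; and
`p l (d l)` is not in `D k`).  `D k` touches `X' (2 q)`: `x k ~ p k 0`.  `D k` touches `X' (2 q + 1)`: if
`d k = L k` by `y k ~ p k (L k - 1)`, otherwise `p k (d k - 1) ~ p k (d k)`.  `D k` touches no other `X' i`: the
neighbours of `D k` in `A` are in `F'`; `X i ∩ F = ∅`; so a neighbour of `D k` in `X i` is a root in
`N_A(D k)`; a root `x l` or `y l` with `l ≠ k` is not in `nb G (seg (p k) 0 (L k))`, hence not a neighbour of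
`D k`; the roots `α l` are not in `F'`; so it is `x k` or `y k = z k`, contained only in `X (2 q)` resp.
`X (2 q + 1)`.  And `D k` does not touch `{p l (d l)}` for `l ≠ k` (non-touching paths).  `Y q, Y q'` are
disjoint and do not touch.  `S_DDd` with `u q = 2 q`, `w q = 2 q + 1`. -/
def S_DDC : Prop := ∀ (V : Type) [Finite V] (G : SimpleGraph V) (A : Set V) (s q N M₁ m : ℕ)
  (T : Finset ℕ) (L d : ℕ → ℕ) (p : ℕ → ℕ → V) (x y : ℕ → V), CoreP G A s q N →
    m * (16 * s + 4) + 3 * m + 1 ≤ M₁ → m * (16 * s + 4) + 2 * m ≤ q → PSys G A T L p x y →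
    T.card = m →
    (∀ k ∈ T, ∀ l ∈ T, k ≠ l → x l ∉ nb G (seg (p k) 0 (L k)) ∧
      y l ∉ nb G (seg (p k) 0 (L k)) ∧ ¬ Tch G (seg (p k) 0 (L k)) (seg (p l) 0 (L l))) →
    (∀ k ∈ T, 0 < d k ∧ d k ≤ L k ∧ (nb G (seg (p k) 0 (d k)) ∩ A).ncard < 16 * s + 4 ∧
      (d k = L k ∨ M₁ ≤ (G.neighborSet (p k (d k)) ∩ A).ncard)) → IMS (DD N m) G Set.univ

/-- **C13.** Bounded number of disjoint links.  (Uses `S_PSys`, `S_Touch`, `S_Priv`, `S_Short`,
`S_DDC`, `S_Ram`.)

Proof. `M₁ = m M_c + 3 m + 1 + M_c`, `q = 4 (M_c + M₁) + 2 m + m M_c` (so `16 s + 3 ≤ q`).  `n` = the Ramsey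
number for `a` = number of `S_Touch` and `b` = number of `S_Priv` for `m' = m + 2`, relation the path sets
touch, on `S = range n`. -/
def S_LinkBd : Prop := ∀ s N m : ℕ, ∃ q n : ℕ, 16 * s + 3 ≤ q ∧
  ∀ (V : Type) [Finite V] (G : SimpleGraph V) (A : Set V), CoreP G A s q N →
    ¬ IMS (DD N m) G Set.univ → ¬ ∃ (I : ℕ → Set V) (x y : ℕ → V), LinkSys G A n I x y

/-- A tripod outside `A`: centre `c`, three legs `T i` (possibly empty) and three distinct ends
`e i ∈ A`; the leg `T i` is empty and `c ~ e i`, or connected and touches `c` and `e i`. -/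
def Tripod {V : Type} (G : SimpleGraph V) (A : Set V) (c : V) (T : Fin 3 → Set V)
    (e : Fin 3 → V) : Prop :=
  c ∉ A ∧ Function.Injective e ∧ (∀ i, e i ∈ A) ∧ (∀ i, Disjoint (T i) A ∧ c ∉ T i) ∧
    (∀ i j, i ≠ j → Disjoint (T i) (T j)) ∧
    ∀ i, (T i = ∅ ∧ G.Adj c (e i)) ∨ (Conn G (T i) ∧ c ∈ nb G (T i) ∧ e i ∈ nb G (T i))

/-- **C14.** A connected set with three neighbours in `A` contains a tripod.  (Uses `S_Path`.)

Proof. By `S_Path` (`C = K`, `X = {v | G.Adj (e 0) v}`, `Y = {v | G.Adj (e 1) v}`) there is an induced path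
`p 0, ..., p l` in `K`, `e 0 ~ p 0`, `e 1 ~ p l`; let `R` be its vertex set.  If `e 2` is adjacent to some `p i`:
`c = p i`, `T 0 = {p j | j < i}`, `T 1 = {p j | i < j ≤ l}`, `T 2 = ∅`.  (An empty leg `T 0` means
`i = 0`, and `c = p 0 ~ e 0`; otherwise `T 0` is connected, contains `p 0` and `p (i - 1) ~ c`.)  Otherwise
apply `S_Path` with `C = K`, `X = {v | G.Adj (e 2) v}`, `Y = R`: a path `r 0, ..., r k` with `r k ∈ R` and no
earlier vertex in `R`, `k ≥ 1`; `r k = p i`; `c = p i`, `T 0`, `T 1` as before, `T 2 = {r j | j < k}`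
(connected, contains `r 0 ~ e 2`, `r (k-1) ~ c`, disjoint from `R`). -/
def S_Tri : Prop := ∀ (V : Type) (G : SimpleGraph V) (A K : Set V) (e : Fin 3 → V), Conn G K →
  Disjoint K A → Function.Injective e → (∀ i, e i ∈ A ∧ e i ∈ nb G K) →
    ∃ (c : V) (T : Fin 3 → Set V), Tripod G A c T e ∧ c ∈ K ∧ ∀ i, T i ⊆ K

/-- **C15.** Weak form of Gallai's theorem on `A`-paths.  (Uses `S_Tri`, `S_Path`.)

Proof. A PIECE is either a link `(I; x, y)` (`ALink`) or a tripod `(c; T; e)`.  Its body is `I`, resp.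
`{c} ∪ T 0 ∪ T 1 ∪ T 2` (outside `A`), its ends are `x, y` resp. `e 0, e 1, e 2` (in `A`), its centres: none
resp. `c`.  A SYSTEM is a finite set of pieces with pairwise disjoint bodies and pairwise disjoint sets of
ends.  (Suggestion: a structure with the fields `body ends cen : Set V`, and a `Finset` of such
objects.)  Every piece contains a link with the same body (tripod: its body is connected and has the
neighbours `e 0`, `e 1`), so a system has less than `n` pieces.  Choose a system with the maximal number of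
pieces, and among these one with the maximal number of tripods.  Let `X` be the set of all ends and
centres: `|X| ≤ 4 n`.  Let `D` be a component of `(A ∪ X)ᶜ` and suppose that `nb G D ∩ A` contains two
distinct elements `x, y ∉ X`.  By `S_Path` there is a path `p 0, ..., p l` in `D` with `x ~ p 0`, `y ~ p l`.
(a) No `p i` is in a body: then the link `({p 0, ..., p l}; x, y)` can be added, contradiction.
(b) Otherwise let `i` be minimal with `p i` in the body of a piece `Π` and `Λ = {p j | j < i}`: empty or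
connected, disjoint from all bodies; if `Λ = ∅` then `x ~ p i`, otherwise `x ∈ nb G Λ` and `p (i-1) ~ p i`.
`p i ∉ X` is not a centre.
(b1) `Π = (I; x', y')` a link: `K = I ∪ Λ` is connected, outside `A`, with the three distinct neighbours
`x', y', x` in `A` (`x ∉ X`); by `S_Tri` it contains a tripod with these ends; replace `Π` by it: the same
number of pieces (bodies stay disjoint: `K` is disjoint from the other bodies; `x` is not an end of
another piece), one more tripod, contradiction.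
(b2) `Π = (c; T; e)`, `p i ∈ T 0` (by symmetry; use a general index `a` and the other two indices): then
`(T a ∪ Λ; e a, x)` and `({c} ∪ T b ∪ T b'; e b, e b')` are two disjoint links, with bodies inside
`body Π ∪ Λ` and ends among the ends of `Π` and `x`; replace `Π` by them: one more piece, contradiction. -/
def S_Gal : Prop := ∀ (V : Type) [Finite V] (G : SimpleGraph V) (A : Set V) (n : ℕ),
  (¬ ∃ (I : ℕ → Set V) (x y : ℕ → V), LinkSys G A n I x y) →
    ∃ X : Set V, X.ncard ≤ 4 * n ∧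
      ∀ D, IsComp G (A ∪ X)ᶜ D → ((nb G D ∩ A) \ X).ncard ≤ 1

end Pool.Agent.MPd439b2
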