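import Pool.Agent.Lib.MP_d439b2_co.Spec1

/-!
# MP_d439b2_co, Spec E: two more classes of split graphs of unbounded clique-width

`InCQ` and `InMC` are closed under induced minors and unbounded; they do not contain `C_4` (split
graphs), `InCQ` does not contain `K_4 + P_1`, `InMC` does not contain `K_4` with two vertices of degree
two attached to disjoint edges.  Every `S_...` is a statement to be proved in its own file; the
docstring contains the complete proof.
-/

set_option autoImplicit false

namespace Pool.Agent.MPd439b2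

/-- split graphs with a clique `K` such that every vertex outside `K` has at most two non-neighbours
in `K` -/
def InCQ {W : Type} (H : SimpleGraph W) : Prop :=
  ∃ K : Set W, (∀ u ∈ K, ∀ v ∈ K, u ≠ v → H.Adj u v) ∧ (∀ u, u ∉ K → ∀ v, v ∉ K → ¬ H.Adj u v) ∧
    ∀ v, v ∉ K → {k | k ∈ K ∧ ¬ H.Adj v k}.encard ≤ 2

/-- split graphs with a clique `K` such that the neighbourhoods of the vertices outside `K` are nested
after deleting at most one element from each of them -/
def InMC {W : Type} (H : SimpleGraph W) : Prop :=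
  ∃ (K : Set W) (C : W → Set W), (∀ u ∈ K, ∀ v ∈ K, u ≠ v → H.Adj u v) ∧
    (∀ u, u ∉ K → ∀ v, v ∉ K → ¬ H.Adj u v) ∧
    (∀ v, v ∉ K → C v ⊆ H.neighborSet v ∧ (H.neighborSet v \ C v).encard ≤ 1) ∧
    ∀ u, u ∉ K → ∀ v, v ∉ K → C u ⊆ C v ∨ C v ⊆ C u

/-- clique `Fin n`; the vertex `(b, c)` is adjacent to all `a` except `b` and `c` -/
def CQG (n : ℕ) : SimpleGraph (Fin n ⊕ (Fin n × Fin n)) where
  Adj
    | Sum.inl a, Sum.inl b => a ≠ b
    | Sum.inl a, Sum.inr q => a ≠ q.1 ∧ a ≠ q.2
    | Sum.inr q, Sum.inl a => a ≠ q.1 ∧ a ≠ q.2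
    | Sum.inr _, Sum.inr _ => False
  symm := ⟨fun u v h => by
    rcases u with u | u <;> rcases v with v | v
    · exact Ne.symm h
    · exact h
    · exact h
    · exact h⟩
  loopless := ⟨fun u h => by
    rcases u with u | u
    · exact h rfl
    · exact h⟩

/-- clique `Fin n`; the vertex `(b, c)` is adjacent to all `a < b` and to `c` -/
def MCG (n : ℕ) : SimpleGraph (Fin n ⊕ (Fin n × Fin n)) where
  Adj
    | Sum.inl a, Sum.inl b => a ≠ b
    | Sum.inl a, Sum.inr q => a < q.1 ∨ a = q.2
    | Sum.inr q, Sum.inl a => a < q.1 ∨ a = q.2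
    | Sum.inr _, Sum.inr _ => False
  symm := ⟨fun u v h => by
    rcases u with u | u <;> rcases v with v | v
    · exact Ne.symm h
    · exact h
    · exact h
    · exact h⟩
  loopless := ⟨fun u h => by
    rcases u with u | u
    · exact h rfl
    · exact h⟩

/-- **E1.** The classes `InCQ` and `InMC` are closed under induced minors.

Proof (compare `S2Closed.lean`). Let `K` (and `C`) be given for `G`, `B` the model of `H`,
`K' = {w | (B w ∩ K).Nonempty}`.  It is a clique of `H`: for `w ≠ w'` in `K'` pick `x ∈ B w ∩ K`,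
`y ∈ B w' ∩ K`, `x ≠ y` by disjointness.  For `w ∉ K'` the set `B w` is a connected subset of the
independent set `V \ K`, so it is a singleton `{v w}`; two such `w` are not adjacent.
`InCQ`: for `w ∉ K'` choose for every non-neighbour `w' ∈ K'` of `w` an element of `B w' ∩ K`; it is a
non-neighbour of `v w` in `K`, different for different `w'` (disjointness): `Set.encard_le_encard_of_injOn`.
`InMC`: `C' w = {w' | (B w' ∩ C (v w)).Nonempty}` for `w ∉ K'` (`v w` the element of `B w`); `w' ∈ C' w` is
adjacent to `w` (an element of `B w' ∩ C (v w)` is a neighbour of `v w`; `w' ≠ w` since `v w ∉ N(v w)`).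
`N(w) \ C' w`: for `w'` in it choose `y ∈ B w'` adjacent to `v w`; `y ∉ C (v w)`; so `y` is the unique
element of `N(v w) \ C (v w)`, and `w'` is unique by disjointness.  Nested: monotonicity. -/
def S_EClosed : Prop := ∀ (V W : Type) (G : SimpleGraph V) (H : SimpleGraph W), IsIndMinor H G →
  (InCQ G → InCQ H) ∧ (InMC G → InMC H)

/-- **E2.** `CQG n` is in `InCQ` and has unbounded clique-width.

Proof. `K = range inl`; the non-neighbours of `inr q` in `K` are in `{inl q.1, inl q.2}`.
Let `CWLe c (CQG n)`, `n > 3 c`, `n ≥ 2`.  `S_CWCut` with `M = range inl` gives `A`; let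
`I = {a | inl a ∈ A}`, `J` its complement: `|I|, |J| ≥ n / 3 > c`.  If for every `b ∈ J` there is `a ∈ I` with
`inr (a, b) ∈ A`, then `inl k`, `k ∈ J`, is in the trace of this vertex iff `k ≠ b` (`k ≠ a` as `a ∈ I`): the
traces for different `b ∈ J` are different (`inl b` is missing only in the trace for `b`): more than `c`
traces, contradiction.  Otherwise there is `b₀ ∈ J` with `inr (a, b₀) ∉ A` for all `a ∈ I`; for `a, a' ∈ I`
the vertex `inr (a', b₀)` is in the trace of `inl a` iff `a ≠ a'` (`a ≠ b₀`): `|I| > c` different traces. -/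
def S_CQUnb : Prop := (∀ n, InCQ (CQG n)) ∧ ∀ c n : ℕ, 3 * c < n → 2 ≤ n → ¬ CWLe c (CQG n)

/-- **E3.** `MCG n` is in `InMC` and has unbounded clique-width.

Proof. `K = range inl`, `C (inr q) = {inl a | a < q.1}`.  Nested since `Fin n` is linearly ordered.
Let `CWLe c (MCG n)`, `n = 3 (c + 2) ^ 2`, `r = c + 2`.  `S_CWCut` with `M = range inl` gives `A`; let
`I = {a | inl a ∈ A}`, `J` its complement: `|I|, |J| ≥ n / 3 = (c + 2) ^ 2`.  Let `k_1 < ... < k_r` be the `r`
smallest elements of `I`, `l_1 < ... < l_r` those of `J` (for instance with `Finset.orderEmbOfFin`).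
CASE `k_r < l_r`.  `J' = {b ∈ J | k_r < b}` contains all elements of `J` except `l_1, ..., l_(r-1)`, so
`|J'| ≥ (c + 2) ^ 2 - (c + 1)`.  Fix `a ∈ {k_2, ..., k_r}`.  At most `c` elements `b ∈ J'` satisfy
`inr (a, b) ∈ A`: for two such `b ≠ b'`, `inl b` is in the trace of `inr (a, b)` (`b ∈ J`) but not in the trace
of `inr (a, b')`, as `b > k_r ≥ a`.  So at most `(c + 1) c < |J'|` elements of `J'` are bad for some `a`, and
there is `b ∈ J'` with `inr (k_j, b) ∉ A` for `j = 2, ..., r`.  The vertex `inr (k_j, b)` is in the trace of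
`inl k_i ∈ A` iff `k_i < k_j` (`k_i ≠ b` since `b ∈ J`), that is iff `i < j`: the traces of the `r = c + 2`
vertices `inl k_i` are different: contradiction.
CASE `l_r < k_r` (`k_r ≠ l_r` since `I`, `J` are disjoint).  `I' = {b ∈ I | l_r < b}`,
`|I'| ≥ (c + 2) ^ 2 - (c + 1)`.  Fix `a ∈ {l_2, ..., l_r}`.  At most `c` elements `b ∈ I'` satisfy
`inr (a, b) ∉ A`: for two such `b ≠ b'`, `inr (a, b)` is in the trace of `inl b ∈ A`, but not in the trace of
`inl b'` (`b' > l_r ≥ a`, `b' ≠ b`).  So there is `b ∈ I'` with `inr (l_j, b) ∈ A` for `j = 2, ..., r`.  For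
`i < r` the vertex `inl l_i ∉ A` is in the trace of `inr (l_j, b)` iff `l_i < l_j` (`l_i ≠ b` since `b ∈ I`):
the traces of the `r - 1 = c + 1` vertices `inr (l_j, b)`, `2 ≤ j ≤ r`, are different: contradiction. -/
def S_MCUnb : Prop := (∀ n, InMC (MCG n)) ∧ ∀ c : ℕ, ∃ n : ℕ, 1 ≤ n ∧ ¬ CWLe c (MCG n)

/-- **E4.** The excluded graphs.  `K_4 + P_1`, `K_3` together with an isolated vertex and two vertices
attached to the edges `0 1` and `0 2`, and `C_4` are not in `InCQ`; `K_4` with two vertices attached to the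
disjoint edges `0 1` and `2 3`, and `C_4` are not in `InMC`.  Formulated with the vertices given inside a
graph `H` (all vertices distinct by the adjacencies and the listed inequalities).

Proof. `InCQ`, `K_4 + P_1` (`a b c d` the clique, `v` the isolated vertex): `Kᶜ` is independent, so at least
three of `a b c d` are in `K`; then `v ∉ K` (not adjacent to them), and `v` has three non-neighbours in `K`.
Second graph (triangle `a b c`, `x ~ a, b`, `y ~ a, c`, `v` isolated from all of them): at least two of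
`a b c` are in `K`, so `v ∉ K`, so at most two elements of `{a, b, c, x, y}` are in `K` (they are
non-neighbours of `v`).  So exactly two of `a b c` and neither `x` nor `y` are in `K`; the third one is
adjacent to `x` or to `y`, or it is `a`, which is adjacent to `x`: in all cases an edge outside `K`.
`C_4` (`a b c d` with `a ≁ c`, `b ≁ d`): `a` or `c` is outside `K`, `b` or `d` is outside `K`, and these
two are adjacent, impossible (this holds for `InCQ` and for `InMC`).
`InMC`, clique `a b c d`, `x ~ a, b`, `x ≁ c, d`, `y ~ c, d`, `y ≁ a, b`: if `x ∈ K` then `c, d ∉ K` (non-neighbours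
of `x`, different from `x`) are adjacent, impossible; so `x ∉ K`, in the same way `y ∉ K`; and
`a, b, c, d ∈ K`, as each of them is adjacent to `x` or `y`.  `C x` contains `a` or `b` (`N(x) \ C x` has at most
one element), which is not a neighbour of `y`, so not in `C y`; `C y` contains `c` or `d`, not in `C x`: not
nested. -/
def S_EExcl : Prop :=
  (∀ (W : Type) (H : SimpleGraph W) (a b c d v : W), H.Adj a b → H.Adj a c → H.Adj a d →
    H.Adj b c → H.Adj b d → H.Adj c d → v ≠ a → v ≠ b → v ≠ c → v ≠ d → ¬ H.Adj v a →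
    ¬ H.Adj v b → ¬ H.Adj v c → ¬ H.Adj v d → ¬ InCQ H) ∧
  (∀ (W : Type) (H : SimpleGraph W) (a b c x y v : W), H.Adj a b → H.Adj a c → H.Adj b c →
    H.Adj x a → H.Adj x b → H.Adj y a → H.Adj y c → x ≠ y → ¬ H.Adj x y → x ≠ c → y ≠ b →
    v ≠ a → v ≠ b → v ≠ c → v ≠ x → v ≠ y → ¬ H.Adj v a → ¬ H.Adj v b → ¬ H.Adj v c →
    ¬ H.Adj v x → ¬ H.Adj v y → ¬ InCQ H) ∧
  (∀ (W : Type) (H : SimpleGraph W) (a b c d x y : W), H.Adj a b → H.Adj a c → H.Adj a d →
    H.Adj b c → H.Adj b d → H.Adj c d → H.Adj x a → H.Adj x b → ¬ H.Adj x c → ¬ H.Adj x d →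
    H.Adj y c → H.Adj y d → ¬ H.Adj y a → ¬ H.Adj y b → x ≠ c → x ≠ d → y ≠ a → y ≠ b →
    ¬ InMC H) ∧
  ∀ (W : Type) (H : SimpleGraph W) (a b c d : W), a ≠ c → b ≠ d → H.Adj a b → H.Adj b c →
    H.Adj c d → H.Adj d a → ¬ H.Adj a c → ¬ H.Adj b d → ¬ InCQ H ∧ ¬ InMC H

end Pool.Agent.MPd439b2
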