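import Pool.Agent.Lib.MP_d439b2_co.Defs7
import Pool.Agent.Lib.MP_d439b2_co.B.SpecE
import Pool.Agent.Lib.MP_d439b2_co.Spec4

/-!
# MP_d439b2_co, Spec F: the finite part of the classification and the assembly

Every `S_...` is a statement to be proved in its own file; the docstring contains the complete proof.
`D` always denotes the complement `Hᶜ` of the graph under consideration.
-/

set_option autoImplicit false

namespace Pool.Agent.MPd439b2

/-- **FN.** A graph in `InCoS` without the complements of `2 P_3` and of `6 P_2` has at most 28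
vertices which are not adjacent to all other vertices.

Proof. `D = Hᶜ`; by `InCoS` (with `f`) and `Size8_tdeg` (in `Size8.lean`) every vertex has at most three
neighbours in `D`; `D` has no triangle (`Size8_ttri`).  `nonDom H` is the set of the vertices with at least one
neighbour in `D`.  Let `S` be a set of vertices such that every vertex outside `S` has at most one
`D`-neighbour outside `S`, and `M` the set of the vertices outside `S` with exactly one `D`-neighbour outside
`S`.  Then `|M| ≤ 10`: otherwise choose greedily six vertices `u_1, ..., u_6 ∈ M` such that `u_i` is none of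
`u_j`, `u_j'` for `j < i`, where `u'` is the `D`-neighbour of `u ∈ M` outside `S` (`u'' = u`; the vertices `u_j`,
`u_j'`, `j < i ≤ 6`, are at most ten).  The map `(i, false) ↦ u_i`, `(i, true) ↦ u_i'` shows
`IsIndSub co6P2 H`: two different elements of `M` are not adjacent in `H` iff they are partners.
CASE 1: no vertex has two different neighbours in `D`: `S = ∅`, `nonDom H = M`.
CASE 2: `x` has the `D`-neighbours `y ≠ z`.  Let `S` be the set of `x, y, z` and all their `D`-neighbours;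
`|S| ≤ 8` (`x`, at most three neighbours of `x`, `y` and `z` among them, two further neighbours of `y` and of
`z`).  A vertex `u ∉ S` with two different `D`-neighbours `v, w ∉ S` gives `IsIndSub co2P3 H` with
`0, 1, 2, 3, 4, 5 ↦ x, y, z, u, v, w`: `u, v, w` are not `D`-adjacent to `x, y, z` (they are not in `S`), and `y, z`
and `v, w` are not `D`-adjacent (no triangle).  So `S` is as above.  A vertex of `nonDom H` outside `S ∪ M` has
a `D`-neighbour `s ∈ S`, `s ≠ x, y, z` (neighbours of `x, y, z` are in `S`); there are at most five such `s`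
(`|S \ {x, y, z}| ≤ 5`), and every one has at most three `D`-neighbours, one of which is `x`, `y` or `z`.  So
there are at most ten such vertices, and `|nonDom H| ≤ 8 + 10 + 10`. -/
def S_FN : Prop := ∀ (W : Type) [Finite W] (H : SimpleGraph W), InCoS H → ¬ IsIndSub co2P3 H →
  ¬ IsIndSub co6P2 H → (nonDom H).ncard ≤ 28

/-- **FA.** Three pairwise non-adjacent vertices; four mutually adjacent vertices and a vertex which is
adjacent to none of them; `K_4` with two vertices attached to two disjoint edges.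

Proof. (1) The complement contains a triangle, the tripods do not (`Size8_ttri`).
(2) In `D = Hᶜ` the vertex `v` has the four different neighbours `a, b, c, d`, so `f v` has four different
neighbours in the tripods (nets); at most three exist: `Size8_tdeg`, `Size8_ndeg`.
(3) In `D` the vertex `x` is adjacent to `c, d, y`, the vertex `y` to `a, b, x`.  Tripods: a vertex with three
different neighbours is a centre `(c, 0, 0)`, so `f x`, `f y` are both centres of the same component, so they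
are equal, but they are adjacent.  Nets: `f x` has three different neighbours `f c, f d, f y`; if its level is
positive it has at most two neighbours (the levels `j - 1`, `j + 1` of its leg), so its level is `0`; at most
one of the three is of level `1`, the others have level `0` in the same component, so they are adjacent in `D`
by the last condition of `InCoT`; but `c ~ d`, `c ~ y`, `d ~ y` in `H`. -/
def S_FA : Prop := (∀ (W : Type) (H : SimpleGraph W), Ind3 H → ¬ InCoS H) ∧
  (∀ (W : Type) (H : SimpleGraph W) (a b c d v : W), H.Adj a b → H.Adj a c → H.Adj a d →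
    H.Adj b c → H.Adj b d → H.Adj c d → v ≠ a → v ≠ b → v ≠ c → v ≠ d → ¬ H.Adj v a →
    ¬ H.Adj v b → ¬ H.Adj v c → ¬ H.Adj v d → ¬ InCoS H ∧ ¬ InCoT H) ∧
  ∀ (W : Type) (H : SimpleGraph W) (a b c d x y : W), H.Adj a b → H.Adj a c → H.Adj a d →
    H.Adj b c → H.Adj b d → H.Adj c d → H.Adj x a → H.Adj x b → ¬ H.Adj x c → ¬ H.Adj x d →
    H.Adj y c → H.Adj y d → ¬ H.Adj y a → ¬ H.Adj y b → x ≠ c → x ≠ d → y ≠ a → y ≠ b →
    x ≠ y → ¬ H.Adj x y → ¬ InCoS H ∧ ¬ InCoT H

/-- **FB.** The members of `S2` with independence number two.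

Proof. Let `K` be the clique of `InS2` and `I` its complement (independent, so at most two elements, and not
empty since `H` is not complete).
CASE `I = {v}`.  `N` = the neighbours of `v` (at most two, in `K`), `M = K \ N`.  If `|M| ≥ 4`: third
alternative.  If `|M| = 3`: `IsIndSub K3P H` (`0, 1, 2 ↦ M`, `3 ↦ v`) and `IsIndSub H K5P` (`v ↦ 5`, `M` to
`2, 3, 4`, `N` into `{0, 1}`).  If `|M| ≤ 2`: `IsIndSub H co2P1P3` (`v ↦ 4`, `N` into `{0, 1}`, `M` into `{2, 3}`).
CASE `I = {x, y}`, `x ≠ y`.  Every `k ∈ K` is adjacent to `x` or `y` (otherwise `x, y, k` gives `Ind3`).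
`X`, `Y`, `Z`: the vertices of `K` adjacent to `x` only, to `y` only, to both; `|X| + |Z| ≤ 2`,
`|Y| + |Z| ≤ 2`.  (i) `|X|, |Y|, |Z| ≤ 1`: `IsIndSub H gem`: `x, X, Y, y ↦ 0, 1, 2, 3`, `Z ↦ 4`.
(ii) `|Z| = 2`: `X`, `Y` are empty; `IsIndSub H gem`: `x ↦ 0`, `y ↦ 2`, `Z ↦ {1, 4}`.
(iii) `|Z| = 0` (this holds whenever `|X| = 2` or `|Y| = 2`) and `|X| = 2` (the case `|Y| = 2` is symmetric).
`|Y| = 0`: `H` is `K_3 + P_1`: `IsIndSub K3P H` (`0, 1 ↦ X`, `2 ↦ x`, `3 ↦ y`) and `IsIndSub H K5P`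
(`X ∪ {x}` to `2, 3, 4`, `y ↦ 5`).  `|Y| = 1`: `H` is the kite: `y ↦ 3`, `Y ↦ 0`, `X ↦ {1, 2}`, `x ↦ 4`.
`|Y| = 2`: fourth alternative with `X = {a, b}`, `Y = {c, d}`. -/
def S_FB : Prop := ∀ (W : Type) [Finite W] (H : SimpleGraph W), InS2 H → ¬ IsComplete H →
  ¬ Ind3 H → Kn H ∨ Row2 H ∨
    (∃ a b c d v : W, H.Adj a b ∧ H.Adj a c ∧ H.Adj a d ∧ H.Adj b c ∧ H.Adj b d ∧ H.Adj c d ∧
      v ≠ a ∧ v ≠ b ∧ v ≠ c ∧ v ≠ d ∧ ¬ H.Adj v a ∧ ¬ H.Adj v b ∧ ¬ H.Adj v c ∧ ¬ H.Adj v d) ∨
    ∃ a b c d x y : W, H.Adj a b ∧ H.Adj a c ∧ H.Adj a d ∧ H.Adj b c ∧ H.Adj b d ∧ H.Adj c d ∧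
      H.Adj x a ∧ H.Adj x b ∧ ¬ H.Adj x c ∧ ¬ H.Adj x d ∧ H.Adj y c ∧ H.Adj y d ∧
      ¬ H.Adj y a ∧ ¬ H.Adj y b ∧ x ≠ c ∧ x ≠ d ∧ y ≠ a ∧ y ≠ b ∧ x ≠ y ∧ ¬ H.Adj x y

/-- **FC.** The graphs between `K3P` and `K5P`.

Proof. Let `f` be the embedding of `H` into `K5P` and `g` the one of `K3P` into `H`.  In `K5P` only the vertex
`5` has more than one non-neighbour (`2, 3, 4`), so `f (g 3) = 5` (it is not adjacent to the three different
vertices `f (g 0)`, `f (g 1)`, `f (g 2)`), and `f (g 0), f (g 1), f (g 2)` are `2, 3, 4` in some order.  If `0` and `1`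
are in the range of `f` then `f` is bijective and gives the isomorphism.  Otherwise compose `f` with the map
`5 ↦ 4`, `0, 1 ↦ 0`, `2, 3, 4 ↦ 1, 2, 3`, injective on the range of `f`. -/
def S_FC : Prop := ∀ (W : Type) (H : SimpleGraph W), IsIndSub K3P H → IsIndSub H K5P →
  IsIndSub H K4P ∨ Nonempty (H ≃g K5P)

/-- **FD.** Monotonicity.

Proof. (1) An embedding as an induced subgraph is an induced minor model with singletons
(`A5Aux.ims_of_emb`, `ims_univ_iff`).  (2) Transitivity of `IMS` (`imsTrans`, used in `B/Fin2.lean`): a graph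
without `H₁` and without `H₂` contains neither `H₁'` nor `H₂'`. -/
def S_FD : Prop := (∀ (W W' : Type) (H : SimpleGraph W) (H' : SimpleGraph W'), IsIndSub H H' →
    IsIndMinor H H') ∧
  ∀ (W₁ W₂ W₃ W₄ : Type) (H₁ : SimpleGraph W₁) (H₂ : SimpleGraph W₂) (H₁' : SimpleGraph W₃)
    (H₂' : SimpleGraph W₄), IsIndMinor H₁ H₁' → IsIndMinor H₂ H₂' → BoundedCW H₁' H₂' →
    BoundedCW H₁ H₂

/-- the row theorems used in the assembly -/
def S_Rows : Prop := (∀ (W : Type) [Finite W] (H : SimpleGraph W), InCoT H → BoundedCW K4P H) ∧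
  (∀ (W : Type) [Finite W] (H : SimpleGraph W), InCoT H → (InGrid K5P ∨ InGrid H) →
    BoundedCW K5P H) ∧
  (∀ (W : Type) [Finite W] (H : SimpleGraph W), InCoT H → BoundedCW Kite H) ∧
  ∀ (s : ℕ) (W : Type) [Finite W] (H : SimpleGraph W), InS2 H → InGrid H → InCoT H →
    BoundedCW H (KC s)

/-- the negative theorems used in the assembly -/
def S_Kill : Prop := ∀ (W W' : Type) (H : SimpleGraph W) (H' : SimpleGraph W'), Ind3 H →
  (IsIndMinor co2P3 H' ∨ IsIndMinor co6P2 H') → ¬ BoundedCW H H'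

/-- **FE.** The sufficient condition.

Proof. By symmetry (`Fin2Aux.boundedCW_symm`) let `Suf H H'` with `InGrid H ∨ InGrid H'`.
(a) `H` complete or `IsKP4 H'`: `Fin2Aux.suff1`.
(b) `Row2 H`, `InCoT H'`.  `H` isomorphic to `Kite`: third part of `S_Rows` and FD (an isomorphism gives
`IsIndMinor H Kite`).  Otherwise FC: `IsIndSub H K4P`: first part of `S_Rows` and FD.  `H` isomorphic to `K5P`:
second part of `S_Rows` and FD; `InGrid H` gives `InGrid K5P` by transitivity (`IsIndMinor K5P H`).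
(c) last part of `S_Rows` for `KC s`, and FD (`IsIndMinor H' (KC s)`). -/
def S_FE : Prop := S_FC → S_FD → S_Rows → S_LayB → ∀ (W₁ W₂ : Type) [Finite W₁] [Finite W₂]
  (H₁ : SimpleGraph W₁) (H₂ : SimpleGraph W₂), Good H₁ H₂ → BoundedCW H₁ H₂

/-- the six necessary conditions (`Fin2Aux.six`), the classes `InCQ` and `InMC` -/
def S_Nec : Prop := ∀ (W₁ W₂ : Type) [Finite W₁] [Finite W₂] (H₁ : SimpleGraph W₁)
  (H₂ : SimpleGraph W₂), BoundedCW H₁ H₂ →
    (InS2 H₁ ∨ InS2 H₂) ∧ (InCoS H₁ ∨ InCoS H₂) ∧ (InCoT H₁ ∨ InCoT H₂) ∧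
      (InGrid H₁ ∨ InGrid H₂) ∧ (InQS H₁ ∨ InQS H₂) ∧ (InA3 H₁ ∨ InA3 H₂) ∧
      (InCQ H₁ ∨ InCQ H₂) ∧ (InMC H₁ ∨ InMC H₂)

/-- **FG.** The classes `InCQ`, `InMC` as necessary conditions.

Proof. The first six from the hypothesis.  If `c` is a bound for `(H₁, H₂)`: `CQG (3 * c + 2)` has no layout (E2),
so it contains `H₁` or `H₂`, which is in `InCQ` by E1; the same for `MCG n` with `n` from E3 (compare
`Fin2Aux.six` and `Goal3Aux.principle`). -/
def S_FG : Prop := S_EClosed → S_CQUnb → S_MCUnb →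
  (∀ (W₁ W₂ : Type) [Finite W₁] [Finite W₂] (H₁ : SimpleGraph W₁)
    (H₂ : SimpleGraph W₂), BoundedCW H₁ H₂ →
    (InS2 H₁ ∨ InS2 H₂) ∧ (InCoS H₁ ∨ InCoS H₂) ∧ (InCoT H₁ ∨ InCoT H₂) ∧
      (InGrid H₁ ∨ InGrid H₂) ∧ (InQS H₁ ∨ InQS H₂) ∧ (InA3 H₁ ∨ InA3 H₂)) → S_Nec

/-- **FH.** The necessary condition.

Proof. `S_Nec`; let `InS2 H₁` (otherwise exchange the graphs; `Good` is symmetric, and `BoundedCW` by
`Fin2Aux.boundedCW_symm`); put `H = H₁`, `H' = H₂`.
(1) `H` complete: `Good`.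
(2) `Ind3 H`.  FA: `¬ InCoS H`, so `InCoS H'`.  By `S_Kill` and FD, `H'` has no induced subgraph `co2P3`,
`co6P2`.  If `InCoT H` or (`InQS H` and `InA3 H`): `Rem H H'`.  Otherwise `InCoT H'`, and `H'` has no `C_4`
(otherwise by `S_C4`: `H'` is neither in `InQS` nor in `InA3`, so `H` is in both), so `IsKP4 H'` by `S_KP4`:
`Good` (compare `Fin2Aux.red2`).
(3) `H` not complete and not `Ind3`: FB.  `Kn H`: done.  `Row2 H`: `H` is not in `InCoT`: otherwise `K3P` or the
kite would be in `InCoT` (compose the map `f` of `InCoT` with the embedding), contradicting `S_K7`,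
`S_X18`; so `InCoT H'` and `Good`.  Third alternative of FB: FA gives `¬ InCoS H`, `¬ InCoT H`, and E4 gives
`¬ InCQ H`; so `InCoS H'`, `InCoT H'`, `InCQ H'`; by E4 `H'` has no `C_4`, so `IsKP4 H'` by `S_KP4`: `Good`.
Fourth alternative: the same with `InMC`. -/
def S_FH : Prop := S_FA → S_FB → S_FD → S_Kill → S_Nec → S_C4 → S_KP4 → S_EExcl → S_K7 → S_X18 →
  ∀ (W₁ W₂ : Type) [Finite W₁] [Finite W₂] (H₁ : SimpleGraph W₁) (H₂ : SimpleGraph W₂),
    BoundedCW H₁ H₂ → (InGrid H₁ ∨ InGrid H₂) ∧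
      (Good H₁ H₂ ∨ Kn H₁ ∨ Kn H₂ ∨ Rem H₁ H₂ ∨ Rem H₂ H₁)

end Pool.Agent.MPd439b2
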