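import Pool.Agent.Lib.MP_d439b2_co.Spec1

/-!
# MP_d439b2_co, Spec G: five grid-like families of unbounded clique-width (helper22)

All families have a part `X = {x (a, b)}` (in `GF5` two parts `X`, `X'`, matched), and two parts
`Y = {y k}`, `Z = {z l}`; the adjacency of `x (a, b)` to `y k` depends only on `(a, k)`, to `z l` only on
`(b, l)`.  The statements `S_...` are to be proved in their own files; the docstrings contain the
complete proofs.  What is killed:
`GF1`: `K_2 + 2 P_1` with the complements of `P_6` and of `P_2 + P_4`;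
`GF2`: `K_3` with `0`, `12`, `12` attached, with `C_4`;   `GF3`: `K_5` with a pendant vertex, with `C_4`;
`GF4`: the `3`-sun, with `C_4`;
`GF5`: `K_3` with `01` attached and an isolated vertex, with the complements of `P_2 + P_3` and of `3 P_2`.
-/

set_option autoImplicit false

namespace Pool.Agent.MPd439b2

/-! ## the small graphs -/

/-- the complete graph on `Fin m` together with `r` independent vertices, the vertex `q` being
adjacent to the members of `N q` -/
def KA (m r : ℕ) (N : Fin r → Set (Fin m)) : SimpleGraph (Fin m ⊕ Fin r) where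
  Adj
    | Sum.inl i, Sum.inl j => i ≠ j
    | Sum.inl i, Sum.inr q => i ∈ N q
    | Sum.inr q, Sum.inl i => i ∈ N q
    | Sum.inr _, Sum.inr _ => False
  symm := ⟨fun u v h => by
    rcases u with u | u <;> rcases v with v | v
    · exact Ne.symm h
    · exact h
    · exact h
    · exact h⟩
  loopless := ⟨fun u h => by
    rcases u with u | u
    · exact h rfl
    · exact h⟩

/-- the four-cycle `0 1 2 3` -/
def cyc4 : SimpleGraph (Fin 4) where
  Adj i j := (i.val + j.val) % 2 = 1
  symm := ⟨fun i j h => by rw [Nat.add_comm]; exact h⟩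
  loopless := ⟨fun i h => by omega⟩

/-- the complement of the path `0 1 2 3 4 5` -/
def coP6 : SimpleGraph (Fin 6) where
  Adj i j := i ≠ j ∧ ¬ (i.val + 1 = j.val ∨ j.val + 1 = i.val)
  symm := ⟨fun i j h => ⟨h.1.symm, fun h' => h.2 h'.symm⟩⟩
  loopless := ⟨fun _ h => h.1 rfl⟩

/-- the complement of the disjoint union of the path `0 1 2 3` and the edge `4 5` -/
def coP4P2 : SimpleGraph (Fin 6) where
  Adj i j := i ≠ j ∧ ¬ ((i.val + 1 = j.val ∧ i.val ≠ 3) ∨ (j.val + 1 = i.val ∧ j.val ≠ 3))
  symm := ⟨fun i j h => ⟨h.1.symm, fun h' => h.2 h'.symm⟩⟩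
  loopless := ⟨fun _ h => h.1 rfl⟩

/-- the complement of the disjoint union of the path `0 1 2` and the edge `3 4` -/
def coP3P2 : SimpleGraph (Fin 5) where
  Adj i j := i ≠ j ∧ ¬ ((i.val + 1 = j.val ∧ i.val ≠ 2) ∨ (j.val + 1 = i.val ∧ j.val ≠ 2))
  symm := ⟨fun i j h => ⟨h.1.symm, fun h' => h.2 h'.symm⟩⟩
  loopless := ⟨fun _ h => h.1 rfl⟩

/-- the complement of the three disjoint edges `0 1`, `2 3`, `4 5` -/
def co3P2 : SimpleGraph (Fin 6) where
  Adj i j := i.val / 2 ≠ j.val / 2
  symm := ⟨fun _ _ h => h.symm⟩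
  loopless := ⟨fun _ h => h rfl⟩

/-! ## the hosts -/

/-- the vertices: `inl (a, b)` is `x (a, b)`, `inr (inl k)` is `y k`, `inr (inr l)` is `z l` -/
abbrev GFV (n : ℕ) : Type := (Fin n × Fin n) ⊕ (Fin n ⊕ Fin n)

/-- `X`, `Y`, `Z` cliques, `x (a, b) ~ y k` iff `k ≠ a`, `x (a, b) ~ z l` iff `l ≠ b`, `Y`, `Z` anticomplete -/
def GF1 (n : ℕ) : SimpleGraph (GFV n) where
  Adj
    | Sum.inl x, Sum.inl x' => x ≠ x'
    | Sum.inl x, Sum.inr (Sum.inl k) => k ≠ x.1
    | Sum.inl x, Sum.inr (Sum.inr l) => l ≠ x.2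
    | Sum.inr (Sum.inl k), Sum.inl x => k ≠ x.1
    | Sum.inr (Sum.inr l), Sum.inl x => l ≠ x.2
    | Sum.inr (Sum.inl k), Sum.inr (Sum.inl k') => k ≠ k'
    | Sum.inr (Sum.inr l), Sum.inr (Sum.inr l') => l ≠ l'
    | Sum.inr (Sum.inl _), Sum.inr (Sum.inr _) => False
    | Sum.inr (Sum.inr _), Sum.inr (Sum.inl _) => False
  symm := ⟨fun u v h => by
    rcases u with u | u | u <;> rcases v with v | v | v <;> first
      | exact Ne.symm h
      | exact h⟩
  loopless := ⟨fun u h => by
    rcases u with u | u | u <;> exact h rfl⟩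

/-- `Y` a clique, `X`, `Z` independent, `x (a, b) ~ y k` iff `k ≠ a`, `x (a, b) ~ z l` iff `l = b`,
`Y`, `Z` complete -/
def GF2 (n : ℕ) : SimpleGraph (GFV n) where
  Adj
    | Sum.inl _, Sum.inl _ => False
    | Sum.inl x, Sum.inr (Sum.inl k) => k ≠ x.1
    | Sum.inl x, Sum.inr (Sum.inr l) => l = x.2
    | Sum.inr (Sum.inl k), Sum.inl x => k ≠ x.1
    | Sum.inr (Sum.inr l), Sum.inl x => l = x.2
    | Sum.inr (Sum.inl k), Sum.inr (Sum.inl k') => k ≠ k'
    | Sum.inr (Sum.inr _), Sum.inr (Sum.inr _) => False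
    | Sum.inr (Sum.inl _), Sum.inr (Sum.inr _) => True
    | Sum.inr (Sum.inr _), Sum.inr (Sum.inl _) => True
  symm := ⟨fun u v h => by
    rcases u with u | u | u <;> rcases v with v | v | v <;> first
      | exact h
      | exact Ne.symm h⟩
  loopless := ⟨fun u h => by
    rcases u with u | u | u <;> first
      | exact h
      | exact h rfl⟩

/-- `X` independent, `Y ∪ Z` a clique, `x (a, b) ~ y k` iff `k ≠ a`, `x (a, b) ~ z l` iff `l ≠ b` -/
def GF3 (n : ℕ) : SimpleGraph (GFV n) where
  Adj
    | Sum.inl _, Sum.inl _ => False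
    | Sum.inl x, Sum.inr (Sum.inl k) => k ≠ x.1
    | Sum.inl x, Sum.inr (Sum.inr l) => l ≠ x.2
    | Sum.inr (Sum.inl k), Sum.inl x => k ≠ x.1
    | Sum.inr (Sum.inr l), Sum.inl x => l ≠ x.2
    | Sum.inr (Sum.inl k), Sum.inr (Sum.inl k') => k ≠ k'
    | Sum.inr (Sum.inr l), Sum.inr (Sum.inr l') => l ≠ l'
    | Sum.inr (Sum.inl _), Sum.inr (Sum.inr _) => True
    | Sum.inr (Sum.inr _), Sum.inr (Sum.inl _) => True
  symm := ⟨fun u v h => by
    rcases u with u | u | u <;> rcases v with v | v | v <;> first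
      | exact h
      | exact Ne.symm h⟩
  loopless := ⟨fun u h => by
    rcases u with u | u | u <;> first
      | exact h
      | exact h rfl⟩

/-- `X` a clique, `Y ∪ Z` independent, `x (a, b) ~ y k` iff `k ≤ a`, `x (a, b) ~ z l` iff `l ≤ b` -/
def GF4 (n : ℕ) : SimpleGraph (GFV n) where
  Adj
    | Sum.inl x, Sum.inl x' => x ≠ x'
    | Sum.inl x, Sum.inr (Sum.inl k) => k ≤ x.1
    | Sum.inl x, Sum.inr (Sum.inr l) => l ≤ x.2
    | Sum.inr (Sum.inl k), Sum.inl x => k ≤ x.1
    | Sum.inr (Sum.inr l), Sum.inl x => l ≤ x.2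
    | Sum.inr _, Sum.inr _ => False
  symm := ⟨fun u v h => by
    rcases u with u | u | u <;> rcases v with v | v | v <;> first
      | exact h
      | exact Ne.symm h⟩
  loopless := ⟨fun u h => by
    rcases u with u | u | u <;> first
      | exact h
      | exact h rfl⟩

/-- `inl (inl p)` is `x p`, `inl (inr p)` is `x' p`, `inr (inl k)` is `y k`, `inr (inr l)` is `z l`; `X`, `X'`
independent, `x p ~ x' q` iff `p = q`; `Y ∪ Z` a clique; `x (a, b) ~ y k` iff `k ≠ a`, `X`, `Z` complete;
`x' (a, b) ~ z l` iff `l ≠ b`, `X'`, `Y` complete -/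
def GF5 (n : ℕ) : SimpleGraph (((Fin n × Fin n) ⊕ (Fin n × Fin n)) ⊕ (Fin n ⊕ Fin n)) where
  Adj
    | Sum.inl (Sum.inl _), Sum.inl (Sum.inl _) => False
    | Sum.inl (Sum.inr _), Sum.inl (Sum.inr _) => False
    | Sum.inl (Sum.inl p), Sum.inl (Sum.inr q) => p = q
    | Sum.inl (Sum.inr p), Sum.inl (Sum.inl q) => p = q
    | Sum.inl (Sum.inl p), Sum.inr (Sum.inl k) => k ≠ p.1
    | Sum.inl (Sum.inl _), Sum.inr (Sum.inr _) => True
    | Sum.inl (Sum.inr _), Sum.inr (Sum.inl _) => True
    | Sum.inl (Sum.inr p), Sum.inr (Sum.inr l) => l ≠ p.2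
    | Sum.inr (Sum.inl k), Sum.inl (Sum.inl p) => k ≠ p.1
    | Sum.inr (Sum.inr _), Sum.inl (Sum.inl _) => True
    | Sum.inr (Sum.inl _), Sum.inl (Sum.inr _) => True
    | Sum.inr (Sum.inr l), Sum.inl (Sum.inr p) => l ≠ p.2
    | Sum.inr (Sum.inl k), Sum.inr (Sum.inl k') => k ≠ k'
    | Sum.inr (Sum.inr l), Sum.inr (Sum.inr l') => l ≠ l'
    | Sum.inr (Sum.inl _), Sum.inr (Sum.inr _) => True
    | Sum.inr (Sum.inr _), Sum.inr (Sum.inl _) => True
  symm := ⟨fun u v h => by
    rcases u with (u | u) | (u | u) <;> rcases v with (v | v) | (v | v) <;> first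
      | exact h
      | exact Eq.symm h
      | exact Ne.symm h⟩
  loopless := ⟨fun u h => by
    rcases u with (u | u) | (u | u) <;> first
      | exact h
      | exact h rfl⟩

/-! ## unbounded clique-width -/

/-- the relation `r` distinguishes the rows and the columns of every `2 × 2` minor `{a, b} × {a, b}` -/
def SepR {n : ℕ} (r : Fin n → Fin n → Prop) : Prop := ∀ a b, a ≠ b →
  ¬ ((r a a ↔ r b a) ∧ (r a b ↔ r b b)) ∧ ¬ ((r a a ↔ r a b) ∧ (r b a ↔ r b b))

/-- **G1.** A cut with at most `c` traces has at most `2 c` mixed rows.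

Proof. Let `M` be the set of mixed rows, `P = {a ∈ M | y a ∉ A}`, `Q = {a ∈ M | y a ∈ A}`.
`|P| ≤ c`: choose `u a = x (a, b) ∈ A` for `a ∈ P`.  For `a ≠ b` in `P` the traces of `u a`, `u b` are different:
`y a`, `y b` are outside `A` and `u a ~ y a`, `u a ~ y b`, `u b ~ y a`, `u b ~ y b` iff `r a a`, `r a b`, `r b a`, `r b b`;
first part of `SepR`.  `|Q| ≤ c`: choose `v a = x (a, b) ∉ A` for `a ∈ Q`.  For `a ≠ b` in `Q` the traces of
`y a ∈ A`, `y b ∈ A` are different: `v a`, `v b` are outside `A`; `y a ~ v a` iff `r a a`, `y b ~ v a` iff `r a b`,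
`y a ~ v b` iff `r b a`, `y b ~ v b` iff `r b b`; second part of `SepR`. -/
def S_GRow : Prop := ∀ (V : Type) [Finite V] (G : SimpleGraph V) (n c : ℕ)
  (x : Fin n × Fin n → V) (y : Fin n → V) (r : Fin n → Fin n → Prop), SepR r →
  (∀ p k, G.Adj (x p) (y k) ↔ r p.1 k) → ∀ A : Set V,
  {T : Set V | ∃ u ∈ A, T = G.neighborSet u \ A}.ncard ≤ c →
  {a : Fin n | (∃ b, x (a, b) ∈ A) ∧ ∃ b, x (a, b) ∉ A}.ncard ≤ 2 * c

/-- **G2.** Unbounded clique-width (uses A2 = `S_CWCut`, proved in `CWCut.lean`, and G1).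

Proof. Let `CWLe c G`; `S_CWCut` with `M = range x` (`n ^ 2` elements) gives `A`.
(1) G1 for `x`, `y`: at most `2 c` rows `a` are mixed (for `x`).  G1 for `x' ∘ Prod.swap`, `z`: at most `2 c`
columns `b` are mixed for `x'`.
(2) `D = {p | ¬ (x p ∈ A ↔ x' p ∈ A)}` has at most `2 c` elements: clear if `x = x'`.  Otherwise the traces of the
`x p`, `p ∈ D`, `x p ∈ A`, are pairwise different (`x' q ∉ A` is in the trace of `x p` iff `p = q`): at most
`c`; the traces of the `x' p`, `p ∈ D`, `x' p ∈ A`, are pairwise different: at most `c`.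
(3) There is a row `a` with `x (a, b) ∈ A` for all `b`: otherwise all elements of `A ∩ M` are in mixed rows,
`|A ∩ M| ≤ 2 c n`, `3 |A ∩ M| ≤ 6 c n < n ^ 2`.  There is a row `a'` with `x (a', b) ∉ A` for all `b`:
otherwise at least `n - 2 c` rows are inside `A`, `3 |A ∩ M| ≥ 3 (n - 2 c) n > 2 n ^ 2`.
(4) For all `b` except at most `2 c` (those with `(a, b) ∈ D` or `(a', b) ∈ D`) `x' (a, b) ∈ A`, `x' (a', b) ∉ A`: the
column `b` is mixed for `x'`.  So `n - 2 c ≤ 2 c`, contradicting `6 c < n`. -/
def S_GUnb : Prop := S_CWCut → S_GRow → ∀ (V : Type) [Finite V] (G : SimpleGraph V) (n c : ℕ)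
  (x x' : Fin n × Fin n → V) (y z : Fin n → V) (r s : Fin n → Fin n → Prop), 6 * c < n → 2 ≤ n →
  Function.Injective x → SepR r → SepR s → (∀ p k, G.Adj (x p) (y k) ↔ r p.1 k) →
  (∀ p k, G.Adj (x' p) (z k) ↔ s p.2 k) → (x = x' ∨ ∀ p q, G.Adj (x p) (x' q) ↔ p = q) →
  ¬ CWLe c G

/-- **G3.** The five families.

Proof. G2 with `x = x' = inl`, `y = inr ∘ inl`, `z = inr ∘ inr` for `GF1` to `GF4`, with `x = inl ∘ inl`,
`x' = inl ∘ inr` for `GF5`.  The relations `k ≠ a`, `k = a`, `k ≤ a` (as functions of `a`, `k`) are `SepR`. -/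
def S_GFam : Prop := S_CWCut → S_GRow → S_GUnb → ∀ c n : ℕ, 6 * c < n → 2 ≤ n →
  ¬ CWLe c (GF1 n) ∧ ¬ CWLe c (GF2 n) ∧ ¬ CWLe c (GF3 n) ∧ ¬ CWLe c (GF4 n) ∧ ¬ CWLe c (GF5 n)

/-! ## excluded induced minors -/

/-- **G4.** Excluded induced minors of `GF1 n`.

Proof. Let `B` be a model; `w` HAS the letter `X` (`Y`, `Z`) if `B w` contains a vertex of `X` (`Y`, `Z`).
(i) If `w ≠ w'` are not adjacent then they have no common letter (`X`, `Y`, `Z` are cliques, the sets are
disjoint), and no edge joins `B w`, `B w'`.  (ii) If `w` has `Y` and `Z` then it has `X` (`B w` is connected,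
`Y`, `Z` are anticomplete).
(a) `KA 2 2 ![∅, ∅]` (vertices `0, 1` adjacent, `2, 3` isolated): `0, 2, 3` are pairwise non-adjacent, every one has
a letter, no letter is used twice: every one of them has exactly one letter; the same for `1, 2, 3`: `0` and `1`
have the same single letter.  If it is `X`: `B 2`, `B 3` are inside `Y`, `Z` (in some order); let `y c`, `z d` be elements
of them; every `x (a, b) ∈ B 0 ∪ B 1` is not adjacent to them, so `(a, b) = (c, d)`: `B 0`, `B 1` are not disjoint.
If it is `Y`: one of `B 2`, `B 3` contains some `x (a, b)`, and `B 0`, `B 1` both are `{y a}`: contradiction.  `Z`: the same.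
(b) Let `H` be `coP6` or `coP4P2` and call `w ≠ w'` `F`-adjacent if they are not adjacent in `H`.  Every `w` has an
`F`-neighbour, so by (i) it has not all three letters, and by (ii) not both `Y` and `Z`.  Let `l w` be `X` if
`w` has `X`, otherwise `Y` or `Z` (its only letter).  (1) `F`-adjacent vertices have different `l` (by (i): `X, X`: common
letter; `Y, Y`, `Z, Z` the same).  (2) `l w = Y`, `l w' = Z` implies that `w`, `w'` are `F`-adjacent (`B w ⊆ Y`, `B w' ⊆ Z`).
(3) If `l w = X` then at most one `F`-neighbour `w'` of `w` has `l w' = Y`: with `x (a, b) ∈ B w` we get `B w' = {y a}`; at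
most one has `l w' = Z`.  No function `l : Fin 6 → {X, Y, Z}` satisfies (1), (2), (3) (`decide`, or by hand: `{l = X}`
has at most three elements, being independent in `F`; `{l = Y}`, `{l = Z}` are independent and completely joined in
`F`: if both are nonempty, one has one element and the other one the (at most two) neighbours of it, and there
must be three vertices with `l = X`, so these are a centre and its two neighbours; the remaining three vertices
contain an edge of `F`; if one of them is empty, `{l = X}` and the other one are the two colour classes with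
three elements each, and some `w` with `l w = X` is an inner vertex of a path, with two neighbours: (3)). -/
def S_G1Excl : Prop := ∀ n : ℕ, ¬ IsIndMinor (KA 2 2 ![∅, ∅]) (GF1 n) ∧ ¬ IsIndMinor coP6 (GF1 n) ∧
  ¬ IsIndMinor coP4P2 (GF1 n)

/-- **G5.** Excluded induced minors of `GF2 n`.

Proof. Let `B` be a model.  `w` is BIG if `B w` meets `Y`; otherwise it is a `z`-set if it contains some `z l`, and
else an `x`-set.  (i) Two big `w ≠ w'` are adjacent.  (ii) A `z`-set is adjacent to all big sets.  (iii) An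
`x`-set is a single vertex `x (a, b)` (connected, `X` independent); if it is not adjacent to the big `w` then
`B w ∩ Y = {y a}`; so an `x`-set is non-adjacent to at most one big set, and if `x (a, b)`, `x (a', b')` are both
not adjacent to the same big set then `a = a'`.  (iv) Two adjacent sets which are not big are one `z`-set and
one `x`-set `{x (a, b)}`, and the `z`-set contains `z b` (`Z`, `X` independent).
(v) Hence of three pairwise adjacent vertices at least one is big.
(a) `C_4` (`0 1 2 3`, `0 ≁ 2`, `1 ≁ 3`): by (i) one of `0, 2` and one of `1, 3` are not big, and these two are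
adjacent: by (iv) one of them is a `z`-set, say (symmetry) `0` or so, adjacent to all big sets.  Let `w` be this `z`-set,
`w'` the other one (an `x`-set `x (a, b)`, `z b ∈ B w`), `u` the vertex opposite to `w`, `u'` the vertex opposite to `w'`.
`u ≁ w` is not big (ii); it is adjacent to `w'`, an `x`-set: by (iv) `z b ∈ B u`: not disjoint from `B w`.
(b) `KA 3 3 ![{0}, {1, 2}, {1, 2}]`, `t_0, t_1, t_2` the triangle, `u ~ t_0`, `v, v' ~ t_1, t_2`.
Case 1: `t_1`, `t_2` not big.  By (v) for `t_1 t_2 v` and `t_1 t_2 v'`: `v`, `v'` big: contradiction to (i).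
Case 2: `t_1`, `t_2` big.  `u` is not adjacent to them: `u` is not big, not a `z`-set, so an `x`-set which is
non-adjacent to two big sets: contradiction to (iii).
Case 3: `t_1` big, `t_2` not big (or the other way round, symmetric).  `u ≁ t_1`: `u` is an `x`-set `x (a, b)`.
At least one of `v`, `v'` is not big, say `v'`.  By (iv) for `t_2`, `v'`: one of them is a `z`-set.
3a: `v` is not big.  By (iv) for `t_2 v` and `t_2 v'`: if `t_2` is an `x`-set `{x (c, d)}` then both `v`, `v'` contain `z d`: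
contradiction.  So `t_2` is a `z`-set and `v = {x (c, d)}`, `v' = {x (c', d')}` with `z d, z d' ∈ B t_2`; here `d = d'`
because a connected set without vertices of `Y` contains at most one `z l` (the components of `GF2[X ∪ Z]` are
the stars of the `z l`).  `t_0` is adjacent to `t_2`; if `t_0` is not big then it is an `x`-set, but it is adjacent to
`u = {x (a, b)}`: contradiction to (iv).  So `t_0` is big and not adjacent to `v`, `v'`: `c = c'` by (iii), so
`v = v'` as sets: contradiction.
3b: `v` is big.  `v ≁ t_0`, so `t_0` is not big (i).  `t_0` is adjacent to `u = {x (a, b)}`: `z b ∈ B t_0` (iv).  `t_0 ~ t_2`: `t_2`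
is an `x`-set `{x (c, b')}` with `z b' ∈ B t_0`, so `b' = b` (at most one `z l` in a set which is not big).
`v' ~ t_2`: `z b ∈ B v'`, not disjoint from `B t_0`: contradiction. -/
def S_G2Excl : Prop := ∀ n : ℕ, ¬ IsIndMinor cyc4 (GF2 n) ∧
  ¬ IsIndMinor (KA 3 3 ![{0}, {1, 2}, {1, 2}]) (GF2 n)

/-- **G6.** Excluded induced minors of `GF3 n` and `GF4 n`.

Proof. Both are split graphs; `w` is BIG if `B w` meets the clique; otherwise `B w` is a single vertex (connected,
inside an independent set).  (i) Two big sets are adjacent; two sets which are not big are not adjacent.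
(a) `C_4`: one of `0, 2` and one of `1, 3` are not big, and they are adjacent: contradiction.
(b) `GF3`, `KA 5 1 ![{0}]` (clique `t_0, .., t_4`, `u ~ t_0`): at most one `t_i` is not big (i), so at least three of
`t_1, .., t_4` are big; `u` is not adjacent to them, so it is not big, `u = {x (a, b)}`, and every big `w` not adjacent
to `u` has `B w ∩ (Y ∪ Z) ⊆ {y a, z b}`: at most two disjoint ones: contradiction.
(c) `GF4`, `KA 3 3 ![{0, 1}, {0, 2}, {1, 2}]` (triangle `t_0, t_1, t_2`, `u_2 ~ t_0, t_1`, `u_1 ~ t_0, t_2`, `u_0 ~ t_1, t_2`): if some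
`t_i` is not big then the two `u_j`, `j ≠ i`, are adjacent to `t_i`, so they are big, hence adjacent:
contradiction.  So all `t_i` are big, and no `u_i` is big (`u_i ≁ t_i`): three single vertices of `Y ∪ Z`; two of them,
`u_i`, `u_j` (`i ≠ j`), are in `Y` or both in `Z`, say `y k`, `y k'` with `k ≤ k'`: every `x` adjacent to `y k'` is
adjacent to `y k`.  Let `u_i` be `y k'`, `u_j` be `y k`: `u_i ~ t_j` (an element `x ∈ B t_j` is adjacent to `y k'`,
elements of `B t_j` outside `X` are not adjacent to `y k'`), so `y k` is adjacent to `x`, `u_j ~ t_j`: contradiction. -/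
def S_G34Excl : Prop := ∀ n : ℕ, ¬ IsIndMinor cyc4 (GF3 n) ∧ ¬ IsIndMinor (KA 5 1 ![{0}]) (GF3 n) ∧
  ¬ IsIndMinor cyc4 (GF4 n) ∧ ¬ IsIndMinor (KA 3 3 ![{0, 1}, {0, 2}, {1, 2}]) (GF4 n)

/-- **G7.** Excluded induced minors of `GF5 n`.

Proof. `w` is BIG if `B w` meets the clique `Y ∪ Z`.  (i) Two big sets are adjacent.  (ii) If `w` is not big then
`B w ⊆ {x p, x' p}` for some `p` (connected).  If `B w` is a single vertex then there is exactly one element `k` of
`Y ∪ Z` not adjacent to it; if `B w = {x p, x' p}` then all elements of `Y ∪ Z` are adjacent to `B w`.  So, for `w`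
not big: every big `w'` not adjacent to `w` has `B w' ∩ (Y ∪ Z) = {k w}`; at most one big `w'` is not adjacent to `w`.
(iii) If `w ≠ w'` are not big and adjacent then `B w`, `B w'` are `{x p}`, `{x' p}` (in some order); so no third set
which is not big is adjacent to `w` or `w'`.
(a) `KA 3 2 ![∅, {0, 1}]` (triangle `t_0, t_1, t_2`, `u ~ t_0, t_1`, `e` isolated): by (iii) among `t_0, t_1, t_2` at most
two are not big, so one is big and `e` is not big (i); so at most one of the `t_0, t_1, t_2, u` is big (ii), hence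
exactly one of `t_0, t_1, t_2`, and `u` is not big.  If `t_2` is the big one: `t_0, t_1, u` are pairwise adjacent, not
big: contradiction to (iii).  If `t_0` is the big one: `t_1 ~ t_2`, `t_1 ~ u`: contradiction to (iii).  `t_1`: the same.
(b) `coP3P2` (non-adjacent pairs `0 1`, `1 2`, `3 4`): one of `3, 4` is not big (i), call it `p`.
If `1` is not big: `p ~ 1`, so by (iii) `0` (adjacent to `p`) and `2` (adjacent to `p`) are big; both are not adjacent to
`1`: contradiction to (ii).  If `1` is big then `0`, `2` are not big (i); `0 ~ 2`, `0 ~ p`: contradiction to (iii).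
(c) `co3P2`: one of `0, 1`, one of `2, 3`, one of `4, 5` is not big (i); these three are pairwise adjacent:
contradiction to (iii). -/
def S_G5Excl : Prop := ∀ n : ℕ, ¬ IsIndMinor (KA 3 2 ![∅, {0, 1}]) (GF5 n) ∧
  ¬ IsIndMinor coP3P2 (GF5 n) ∧ ¬ IsIndMinor co3P2 (GF5 n)

/-- **G8.** The necessary conditions.

Proof. Let `c` be a bound for `(H, H')` and `n = 6 c + 2`.  The host (`GF1 n`, ..., `GF5 n`) does not contain `H`
(otherwise it contains the small graph contained in `H` by transitivity of `IsIndMinor`, compare `TMain.lean`)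
and not `H'`, so `CWLe c` holds for it, which contradicts G3. -/
def S_GMain : Prop := S_CWCut → S_GRow → S_GUnb → S_GFam → S_G1Excl → S_G2Excl → S_G34Excl →
  S_G5Excl → ∀ (W W' : Type) (H : SimpleGraph W) (H' : SimpleGraph W'), BoundedCW H H' →
  (IsIndMinor (KA 2 2 ![∅, ∅]) H → ¬ IsIndMinor coP6 H' ∧ ¬ IsIndMinor coP4P2 H') ∧
  (IsIndMinor (KA 3 3 ![{0}, {1, 2}, {1, 2}]) H → ¬ IsIndMinor cyc4 H') ∧
  (IsIndMinor (KA 5 1 ![{0}]) H → ¬ IsIndMinor cyc4 H') ∧
  (IsIndMinor (KA 3 3 ![{0, 1}, {0, 2}, {1, 2}]) H → ¬ IsIndMinor cyc4 H') ∧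
  (IsIndMinor (KA 3 2 ![∅, {0, 1}]) H → ¬ IsIndMinor coP3P2 H' ∧ ¬ IsIndMinor co3P2 H')

end Pool.Agent.MPd439b2
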