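import Pool.Agent.Lib.MP_d439b2_co.Spec1

/-!
# MP_d439b2_co, Spec H: the pentagon helix (helper28)

A class of graphs with independence number two and unbounded clique-width which does not contain
`K_{2,2,2,2,2,2}` (the complement of six disjoint edges) as an induced minor.  The complement `D` of such
a graph has a map to the pentagon such that the vertices with the same image have nested
neighbourhoods.  Every `S_...` is a statement to be proved in its own file; the docstring contains the
complete proof.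
-/

set_option autoImplicit false

namespace Pool.Agent.MPd439b2

/-- `D` maps to the pentagon (adjacent vertices have consecutive colours), and vertices of the same
colour have nested neighbourhoods -/
def InPent {V : Type} (D : SimpleGraph V) : Prop :=
  ∃ c : V → ZMod 5, (∀ u v, D.Adj u v → c v = c u + 1 ∨ c u = c v + 1) ∧
    ∀ u v, c u = c v → D.neighborSet u ⊆ D.neighborSet v ∨ D.neighborSet v ⊆ D.neighborSet u

/-- `K_{2,2,2,2,2,2}`: the complement of the six disjoint edges `{(i, false), (i, true)}` -/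
def K62 : SimpleGraph (Fin 6 × Bool) where
  Adj u v := u.1 ≠ v.1
  symm := ⟨fun _ _ h => h.symm⟩
  loopless := ⟨fun _ h => h rfl⟩

/-- **U1.** Excluded induced minors: three pairwise non-adjacent vertices, and `K62`.

Proof. Let `B` be a model of `H` in `Dᶜ`.  All `B w` are nonempty and pairwise disjoint.  If `w ≠ w'` are
not adjacent in `H`, then there is no edge of `Dᶜ` between `B w` and `B w'`; as they are disjoint, every
`x ∈ B w`, `y ∈ B w'` satisfy `D.Adj x y`.  If `w ≠ w'` are adjacent in `H` then there are `x ∈ B w`,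
`y ∈ B w'` with `¬ D.Adj x y`.
(a) Three pairwise non-adjacent vertices give `x, y, z` pairwise adjacent in `D`, so the differences
`c y - c x`, `c z - c y`, `c x - c z` are `1` or `-1` in `ZMod 5`, and their sum is `0`: impossible (a sum of
three signs is odd, between `-3` and `3`).
(b) `H = K62`.  Let `i : Fin 6`, `X = B (i, false)`, `Y = B (i, true)`, `D`-complete to each other.
CLAIM: there are `b i : Bool` and `a i : ZMod 5` with `c z = a i` for all `z ∈ B (i, b i)`.  Otherwise there
are `x, x' ∈ X` with `c x ≠ c x'` (`b i = false` fails for `a i = c x`, where `x ∈ X` is any element), and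
`y, y' ∈ Y` with `c y ≠ c y'`.  `c y, c y'` are the two different elements of both `{c x - 1, c x + 1}` and
`{c x' - 1, c x' + 1}`, so these two sets are equal, hence `c x = c x'` (in `ZMod 5`:
`c x - 1 = c x' + 1` and `c x + 1 = c x' - 1` would give `4 = 0`; a `decide` over `ZMod 5`): contradiction.
By the pigeonhole principle (six values of `i`, five colours) there are `i ≠ j` with `a i = a j`.  As
`(i, b i)` and `(j, ! b j)` are adjacent in `K62` there are `z ∈ B (i, b i)`, `w ∈ B (j, ! b j)` with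
`¬ D.Adj z w`; as `(j, b j)` and `(i, ! b i)` are adjacent there are `z' ∈ B (j, b j)`, `w' ∈ B (i, ! b i)`
with `¬ D.Adj z' w'`.  `D.Adj z w'` and `D.Adj z' w` (non-adjacent vertices of `K62`).
`c z = a i = a j = c z'`, so the neighbourhoods are nested: `N(z) ⊆ N(z')` contradicts `w'`,
`N(z') ⊆ N(z)` contradicts `w`. -/
def S_PentExcl : Prop := ∀ (V : Type) (D : SimpleGraph V), InPent D →
  (∀ (W : Type) (H : SimpleGraph W) (w₁ w₂ w₃ : W), w₁ ≠ w₂ → w₁ ≠ w₃ → w₂ ≠ w₃ →
    ¬ H.Adj w₁ w₂ → ¬ H.Adj w₁ w₃ → ¬ H.Adj w₂ w₃ → ¬ IsIndMinor H Dᶜ) ∧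
  ¬ IsIndMinor K62 Dᶜ

/-- The rails `r : Fin 10` with the points `t : Fin n`.  `(r, t)` and `(r', t')`, where `r` is even and `r'`
is odd and `r, r'` are consecutive modulo `10`, are adjacent iff `t ≤ t'` (iff `t + d ≤ t'` if `r = 0`,
`r' = 1`). -/
def HL (n d : ℕ) (u v : Fin 10 × Fin n) : Prop :=
  u.1.val % 2 = 0 ∧ ((u.1.val + 1) % 10 = v.1.val ∨ (v.1.val + 1) % 10 = u.1.val) ∧
    u.2.val + (if u.1.val = 0 ∧ v.1.val = 1 then d else 0) ≤ v.2.val

/-- the rails `r, r'` are even and consecutive modulo `5` -/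
def HC (n : ℕ) (u v : Fin 10 × Fin n) : Prop :=
  u.1.val % 2 = 0 ∧ v.1.val % 2 = 0 ∧
    ((u.1.val + 4) % 10 = v.1.val ∨ (v.1.val + 4) % 10 = u.1.val)

/-- the complement `D` of the pentagon helix: ten rails with `n` points; `HL`: half graphs between
consecutive rails, with the lag `d` between the rails `0` and `1`; `HC`: complete between even rails with
difference `4` -/
def HD (n d : ℕ) : SimpleGraph (Fin 10 × Fin n) where
  Adj u v := HL n d u v ∨ HL n d v u ∨ HC n u v
  symm := ⟨fun u v h => by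
    rcases h with h | h | ⟨h1, h2, h3⟩
    · exact Or.inr (Or.inl h)
    · exact Or.inl h
    · exact Or.inr (Or.inr ⟨h2, h1, h3.symm⟩)⟩
  loopless := ⟨fun u h => by
    rcases h with ⟨_, h, _⟩ | ⟨_, h, _⟩ | ⟨_, _, h⟩
    · have := u.1.isLt; omega
    · have := u.1.isLt; omega
    · have := u.1.isLt; omega⟩

/-- **U2.** The helix belongs to the class.

Proof. The colour of `(r, t)` is `r` modulo `5` (`((u.1.val : ℕ) : ZMod 5)`).  Adjacent vertices: the rails
differ by `1` or `4` modulo `10`, so the colours differ by `1` or `-1` (`9 ≡ 4 ≡ -1`).  It may be convenient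
to express everything by `decide`/`omega` on the values `r % 5`.
Nested: let `u = (r, t)`, `v = (r', t')` with `r ≡ r'` modulo `5`, so `r = r'` or the parities are different.
(1) `r = r'` even, `t ≤ t'`: `N(v) ⊆ N(u)`: a neighbour of `v` is `(q, s)` with `q` odd consecutive to `r`
and `t' + lag ≤ s` (then `t + lag ≤ s` with the same lag) or `HC`-related (depends only on the rails).
(2) `r = r'` odd, `t ≤ t'`: `N(u) ⊆ N(v)`: a neighbour of `u` is `(q, s)` with `q` even consecutive to `r`
and `s + lag ≤ t`, so `s + lag ≤ t'`.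
(3) `r` even, `r' = r ± 5` odd: `N(v) ⊆ N(u)`: a neighbour of `v` is `(q, s)` with `q` even,
`q ≡ r' ± 1 ≡ r ± 5 ± 1`, i.e. `q ≡ r ± 4` modulo `10` (`± 6 ≡ ∓ 4`), so `(q, s)` is `HC`-related to
`u`.  (4) exchange `u` and `v`. -/
def S_PentIn : Prop := ∀ n d : ℕ, InPent (HD n d)

/-- **U3.** Few traces: the chain principle.

Proof. Let `i < j`.  The traces of `a i` and `a j` in `Dᶜ`, `(Dᶜ).neighborSet (a i) \ A`, are different:
in the case of the first alternative `b i ∉ A` is adjacent to `a i` and not to `a j` in `D`, `b i ≠ a i`,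
`b i ≠ a j` (as `a` is in `A`), so `b i` belongs to the trace of `a j` in `Dᶜ` and not to the trace of `a i`.
In the case of the second alternative `b j` is adjacent to `a j` and not to `a i`.  So
`i ↦ (Dᶜ).neighborSet (a i) \ A` is injective on `T` with values in the set of the traces, which is finite
(`V` is finite): `T.card ≤ k`. -/
def S_PentChain : Prop := ∀ (V : Type) [Finite V] (D : SimpleGraph V) (A : Set V) (k : ℕ),
  {T : Set V | ∃ u ∈ A, T = (Dᶜ).neighborSet u \ A}.ncard ≤ k →
  ∀ (T : Finset ℕ) (a b : ℕ → V), (∀ i ∈ T, a i ∈ A) → (∀ i ∈ T, b i ∉ A) →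
    (∀ i ∈ T, D.Adj (a i) (b i)) →
    ((∀ i ∈ T, ∀ j ∈ T, i < j → ¬ D.Adj (a j) (b i)) ∨
      (∀ i ∈ T, ∀ j ∈ T, i < j → ¬ D.Adj (a i) (b j))) → T.card ≤ k

/-- **U4.** The helix has unbounded clique-width (uses A2 = `S_CWCut`, proved in `CWCut.lean`, and U3).

Proof. Let `k` be given; put `m = 2 k + 1`, `d = 300 (k + 1)`, `n = d m`, and suppose
`CWLe k (HD n d)ᶜ`.  `S_CWCut` with `M = Set.univ` (`10 n` elements) gives `A` with
`10 n ≤ 3 |A|`, `3 |A| ≤ 20 n` and at most `k` traces.  Let `α r t` be the proposition `(r, t) ∈ A` (for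
`t < n`).
(1) Let `r, r'` be consecutive rails modulo `10`, `{r, r'} ≠ {0, 1}`.  Then at most `2 k` numbers `t < n`
satisfy `¬ (α r t ↔ α r' t)`.  Indeed let `r` be even, `r'` odd.  `T₁ = {t | α r t, ¬ α r' t}`: U3 with
`a t = (r, t)`, `b t = (r', t)`: adjacent (`t ≤ t`); for `t < s`: `a s = (r, s)` is not adjacent to
`b t = (r', t)` (first alternative).  `T₂ = {t | ¬ α r t, α r' t}`: `a t = (r', t)`, `b t = (r, t)`; for
`t < s`: `a t = (r', t)` is not adjacent to `b s = (r, s)` (second alternative).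
(1') At most `2 k` numbers `t` with `t + d < n` satisfy `¬ (α 0 t ↔ α 1 (t + d))`: the same with
`a t = (0, t)`, `b t = (1, t + d)` and vice versa.
(2) By (1) for the pairs `(1,2), (2,3), ..., (8,9), (9,0)`: for every rail `r` at most `18 k` numbers
`t < n` satisfy `¬ (α r t ↔ α 0 t)`.  With (1'): at most `20 k` numbers `t` with `t + d < n`
satisfy `¬ (α 0 t ↔ α 0 (t + d))` (for `r = 1` use `t + d`; the map `t ↦ t + d` is injective).
(3) Call `ρ < d` good if `α 0 (ρ + j d) ↔ α 0 ρ` for all `j < m`.  A `ρ` which is not good gives some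
`j` with `j + 1 < m` and `¬ (α 0 (ρ + j d) ↔ α 0 (ρ + (j + 1) d))`, and different `ρ` give different
`t = ρ + j d`.  So at most `20 k` numbers `ρ < d` are not good.
(4) All good `ρ` have the same value of `α 0 ρ`.  Suppose `ρ, σ` are good, `α 0 ρ`, `¬ α 0 σ`; put
`u j = ρ + j d`, `v j = σ + j d` (`j < m`).  If `ρ < σ`: `u j < v j < u (j + 1)`.  The numbers `j < m` with
`α 9 (v j)` are at most `k` (as in (1), `T₂` for `r = 0`, `r' = 9`); for the other `j` the points
`(0, u j) ∈ A`, `(9, v j) ∉ A` are adjacent, and `(0, u j')` is not adjacent to `(9, v j)` for `j < j'`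
(`v j < u j'`): at most `k` by U3.  So `m ≤ 2 k`: contradiction.  If `σ < ρ`: `v j < u j < v (j + 1)`.  The
numbers `j` with `¬ α 9 (u j)` are at most `k` (`T₁`); for the other `j` the points `(9, u j) ∈ A`,
`(0, v j) ∉ A` are adjacent, and `(9, u j)` is not adjacent to `(0, v j')` for `j < j'`: at most `k` by U3.
(5) So there is a value `β` (true or false) such that `¬ (α 0 t ↔ β)` for at most `20 k m` numbers
`t < n` (the `t = ρ + j d` with `ρ` not good).  By (2), for every rail `r`, `¬ (α r t ↔ β)` for at most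
`20 k m + 18 k ≤ 38 k m` numbers `t < n`; so `¬ ((r, t) ∈ A ↔ β)` for at most `380 k m` points.  If `β` is
false: `10 n ≤ 3 |A| ≤ 1140 k m < 10 d m`: contradiction.  If `β` is true: `|Aᶜ| ≤ 380 k m`, and
`3 |Aᶜ| = 30 n - 3 |A| ≥ 10 n`: the same contradiction. -/
def S_PentUnb : Prop := S_CWCut → S_PentChain → ∀ k : ℕ, ∃ n d : ℕ, 1 ≤ n ∧ ¬ CWLe k (HD n d)ᶜ

/-- **U5.** The necessary condition: if `H` has three pairwise non-adjacent vertices and `H'` contains
`K62` as an induced minor then the class of `(H, H')`-induced-minor-free graphs has unbounded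
clique-width.

Proof. As in `B/TMain.lean`. Let `c` be a bound, `n, d` from U4.  `(HD n d)ᶜ` does not contain `H` (U1, U2)
and not `H'` (otherwise it contains `K62` by transitivity, see `TMain.lean`), so
`CWLe c (HD n d)ᶜ`, which contradicts U4. -/
def S_PentMain : Prop := S_PentExcl → S_PentIn → S_PentUnb → S_PentChain → S_CWCut →
  ∀ (W W' : Type) (H : SimpleGraph W) (H' : SimpleGraph W'),
  (∃ w₁ w₂ w₃ : W, w₁ ≠ w₂ ∧ w₁ ≠ w₃ ∧ w₂ ≠ w₃ ∧ ¬ H.Adj w₁ w₂ ∧ ¬ H.Adj w₁ w₃ ∧
    ¬ H.Adj w₂ w₃) → IsIndMinor K62 H' → ¬ BoundedCW H H'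

end Pool.Agent.MPd439b2
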