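import Pool.Agent.Lib.MP_d439b2_co.Defs5

/-!
# MP_d439b2_co, Theorem B, Spec K: detection of the two induced minors, and finite combinatorics

Every `S_...` is a statement to be proved in its own file; the docstring contains the complete
proof.  Toolkit: `Basic.lean` (sets `Conn`, `Tch`, `nb`, `exists_comp`, ...).
All statements are independent of each other unless the docstring says that one is used (then take
it as a hypothesis `(h : S_...)` of your theorem).
-/

set_option autoImplicit false

namespace Pool.Agent.MPd439b2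

/-- **K1.** Detection of `K_s ∨ P_4` in a model of a complete graph: four sets in path position, each
touching at least `4 s` sets of the model.

Proof. For `j = 0, 1, 2, 3` choose one after the other `F_j ⊆ tau (P j)` with `|F_j| = s`, disjoint from
the earlier ones (at most `3 s` elements are used).  Enumerate `F_j = {f j l | l : Fin s}`
(`Finset.equivFin` or `Finset.orderIsoOfFin`), `f` injective as a function of `(j, l)`.  Branch sets:
`inl l ↦ U l := ⋃ j : Fin 4, B (f j l)` and `inr j ↦ P j`.  `U l` is connected (union of four connected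
pairwise touching sets: `Conn.union` three times); `U l`, `U l'` are disjoint and touch; `U l` is disjoint
from `P j` and touches it through `B (f j l)`.  For `s = 0` this also works (only the path). -/
def S_KPd : Prop := ∀ (V : Type) (G : SimpleGraph V) (s : ℕ) (I : Finset ℕ) (B : ℕ → Set V)
  (P : Fin 4 → Set V), Mdl G I B → PathPat G P → (∀ i ∈ I, ∀ j, Disjoint (B i) (P j)) →
    (∀ j, 4 * s ≤ (tau G I B (P j)).card) → IMS (KP s) G Set.univ

/-- **K2.** Detection of `DD N m`.

Proof. Let `R = {u q, w q | q < m} ⊆ I`, `|I \ R| ≥ N`.  Choose an injection `ψ : Fin N → I \ R` and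
put `φ i = u q` if `i = 2 q`, `q < m`; `φ i = w q` if `i = 2 q + 1`, `q < m`; `φ i = ψ i` otherwise.  `φ`
is injective (the hypotheses on `u`, `w`), with values in `I`.  Branch sets: `inl i ↦ B (φ i)`,
`inr q ↦ Y q`.  `DD` adjacency of `inl i`, `inr q` is `i = 2 q ∨ i = 2 q + 1`, and this is equivalent to
`φ i = u q ∨ φ i = w q`. -/
def S_DDd : Prop := ∀ (V : Type) (G : SimpleGraph V) (N m : ℕ) (I : Finset ℕ) (B Y : ℕ → Set V)
  (u w : ℕ → ℕ), Mdl G I B → N + 2 * m ≤ I.card →
    (∀ q < m, Conn G (Y q) ∧ u q ∈ I ∧ w q ∈ I) →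
    (∀ q < m, ∀ i ∈ I, Disjoint (Y q) (B i) ∧ (Tch G (Y q) (B i) ↔ i = u q ∨ i = w q)) →
    (∀ q < m, ∀ q' < m, q ≠ q' → Disjoint (Y q) (Y q') ∧ ¬ Tch G (Y q) (Y q')) →
    (∀ q < m, ∀ q' < m, u q ≠ w q') → (∀ q < m, ∀ q' < m, u q = u q' → q = q') →
    (∀ q < m, ∀ q' < m, w q = w q' → q = q') → IMS (DD N m) G Set.univ

/-- **K3.** Independent sets in digraphs of bounded out-degree.

Proof. Induction on `m`; `m = 0` trivial.  For `m + 1`: `S` is nonempty; `∑ x ∈ S, |{y ∈ S | E x y}| ≤
d |S|`, and this is `∑ y ∈ S, |{x ∈ S | E x y}|`, so some `y ∈ S` has in-degree at most `d`.  Remove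
`y`, its at most `d` in-neighbours and at most `d` out-neighbours, use the induction for the rest and
add `y`. -/
def S_Dig : Prop := ∀ (α : Type) (S : Finset α) (E : α → α → Prop) (d m : ℕ),
  (∀ x ∈ S, ∃ F : Finset α, F.card ≤ d ∧ ∀ y ∈ S, y ≠ x → E x y → y ∈ F) →
    (2 * d + 1) * m ≤ S.card → ∃ T ⊆ S, T.card = m ∧ ∀ x ∈ T, ∀ y ∈ T, x ≠ y → ¬ E x y

/-- **K4.** Ramsey's theorem for pairs.

Proof. Induction on `a + b` (with `n (a+1) (b+1) = n a (b+1) + n (a+1) b + 1`), or use a Ramsey theorem
which is already in the pool (for example `Lib/MP_ce98c0_co/Merge.lean`, `Lib/MP_06c6c1_co/Ramsey.lean`). -/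
def S_Ram : Prop := ∀ a b : ℕ, ∃ n : ℕ, ∀ (α : Type) (S : Finset α) (E : α → α → Prop),
  (∀ x y, E x y → E y x) → n ≤ S.card →
    (∃ T ⊆ S, T.card = a ∧ ∀ x ∈ T, ∀ y ∈ T, x ≠ y → E x y) ∨
      ∃ T ⊆ S, T.card = b ∧ ∀ x ∈ T, ∀ y ∈ T, x ≠ y → ¬ E x y

/-- **K5.** A finite connected set with more than one vertex has a vertex different from a given one
whose removal leaves it connected; and connected sets can be grown.

Proof. (a) Let `D ⊂ C` be a connected proper subset of `C` containing `u`, with the maximal number of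
elements (`{u}` is such a set; `C` is finite).  As `C` is connected there is a vertex `v ∈ C \ D` adjacent
to a vertex of `D` (`Conn` with `B = D`), `insert v D` is connected (`Conn.insert`), so by maximality
`insert v D = C`, that is `D = C \ {v}`.
(b) follows from (a) by strong induction on the size: let `f` be a monotone function (on sets) with
`f C ≥ M`, `f {u} < M`, and `f (insert v D) ≤ f D + d` for all `D` and `v ∈ C`.  Take a connected
`D ⊆ C` with `u ∈ D` and `f D ≥ M` of minimal size; `D ≠ {u}`; by (a) `D \ {v}` is connected and contains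
`u`, so `f (D \ {v}) < M` and `f D < M + d`. -/
def S_Grow : Prop := ∀ (V : Type) [Finite V] (G : SimpleGraph V) (C : Set V) (u : V), Conn G C →
  u ∈ C → (C ≠ {u} → ∃ v ∈ C, v ≠ u ∧ Conn G (C \ {v})) ∧
    ∀ (f : Set V → ℕ) (M d : ℕ), (∀ D v, v ∈ C → f (insert v D) ≤ f D + d) → f {u} < M →
      M ≤ f C → ∃ D ⊆ C, u ∈ D ∧ Conn G D ∧ M ≤ f D ∧ f D < M + d

/-- **K6.** Induced paths inside connected sets.

Proof. Among all pairs (number `l`, function `p : ℕ → V`) with `p 0 ∈ X`, `p l ∈ Y`, `p i ∈ C` for `i ≤ l`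
and `G.Adj (p i) (p (i+1))` for `i < l` choose one with minimal `l` (`Nat.find`).  EXISTENCE: the set of all
the vertices of `C` reachable from `X ∩ C` in this way is nonempty and closed in `C` (if `v` is
reached by `p 0, ..., p l = v` and `v ~ w ∈ C` then `w` is reached by `Function.update p (l+1) w`), so it is
`C` (`Conn.eq_of_nb`) and contains a vertex of `Y`.  MINIMALITY gives: if `i < j ≤ l` and `p i = p j` or
(`p i ~ p j` and `j > i + 1`) then a shorter path exists (skip the vertices between: the function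
`k ↦ if k ≤ i then p k else p (k + (j - i))` resp. `p (k + (j - i - 1))`).  The first vertex is the only one
in `X` and the last one is the only one in `Y` (otherwise shorter). -/
def S_Path : Prop := ∀ (V : Type) (G : SimpleGraph V) (C X Y : Set V), Conn G C →
  (C ∩ X).Nonempty → (C ∩ Y).Nonempty → ∃ (l : ℕ) (p : ℕ → V), p 0 ∈ X ∧ p l ∈ Y ∧
    (∀ i ≤ l, p i ∈ C) ∧ (∀ i ≤ l, ∀ j ≤ l, p i = p j → i = j) ∧
    (∀ i ≤ l, ∀ j ≤ l, G.Adj (p i) (p j) ↔ i = j + 1 ∨ j = i + 1) ∧
    (∀ i ≤ l, p i ∈ X → i = 0) ∧ ∀ i ≤ l, p i ∈ Y → i = l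

end Pool.Agent.MPd439b2
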