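import Pool.Agent.Lib.MP_d439b2_co.B.SpecK

/-!
# MP_d439b2_co, Theorem B, Spec Q: from a model of a complete graph to a complete bipartite subgraph

Every `S_...` is a statement to be proved in its own file; the docstring contains the complete
proof.  `tau G I B D` is the set of the indices `i ∈ I` such that `D` touches `B i`.
-/

set_option autoImplicit false

namespace Pool.Agent.MPd439b2

/-- **L1.** Non-touching connected sets have nested traces.  (Uses `S_KPd`.)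

Proof. Otherwise take `i ∈ τ(D) \ τ(D')`, `j ∈ τ(D') \ τ(D)`; apply `S_KPd` to the index set
`I' = I \ {i, j}` and the path `D, B i, B j, D'` (`D` touches `B i`, not `B j`, not `D'`; `B i` touches
`B j`, not `D'`).  `|τ_{I'}(D)| ≥ 4 s + 2 - 1`, the same for `D'`, and `B i`, `B j` touch all sets of `I'`, where
`I' ⊇ τ(D) \ {i}` has at least `4 s` elements. -/
def S_L1 : Prop := ∀ (V : Type) (G : SimpleGraph V) (s : ℕ) (I : Finset ℕ) (B : ℕ → Set V)
  (D D' : Set V), ¬ IMS (KP s) G Set.univ → Mdl G I B → Conn G D → Conn G D' → Disjoint D D' →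
    ¬ Tch G D D' → (∀ i ∈ I, Disjoint D (B i) ∧ Disjoint D' (B i)) →
    4 * s + 2 ≤ (tau G I B D).card → 4 * s + 2 ≤ (tau G I B D').card →
    tau G I B D ⊆ tau G I B D' ∨ tau G I B D' ⊆ tau G I B D

/-- **L2.** Touching connected sets have equal traces, or their traces cover everything.  (Uses
`S_KPd`.)

Proof. Suppose `k ∈ I` is in neither trace and the traces differ; by symmetry let
`j ∈ τ(D') \ τ(D)`.  Apply `S_KPd` to `I' = I \ {j, k}` and the path `D, D', B j, B k`. -/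
def S_L2 : Prop := ∀ (V : Type) (G : SimpleGraph V) (s : ℕ) (I : Finset ℕ) (B : ℕ → Set V)
  (D D' : Set V), ¬ IMS (KP s) G Set.univ → Mdl G I B → Conn G D → Conn G D' → Disjoint D D' →
    Tch G D D' → (∀ i ∈ I, Disjoint D (B i) ∧ Disjoint D' (B i)) →
    4 * s + 2 ≤ (tau G I B D).card → 4 * s + 2 ≤ (tau G I B D').card →
    tau G I B D = tau G I B D' ∨ tau G I B D ∪ tau G I B D' = I

/-- **Q1a.** A connected set `D` which touches all sets of the model, but all of whose vertices touch few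
of them.  (Uses `S_L2`, `S_Grow`.)

Proof. `M₀ = 4 s + 2`.  Let `W ⊆ D` be connected with `|τ(W)| ≥ M₀` and with the minimal number of
elements.  Then `|τ(W)| ≤ M₀ - 1 + δ`: trivial if `W` is a singleton (even `≤ δ`), otherwise remove a
vertex such that the rest is connected (`S_Grow` (a)).  Put `J = I \ τ(W)`.  Let `j ∈ J`.  There is a
vertex `x ∈ D` adjacent to a vertex of `B j`, `x ∉ W`.  Let `C` be the component of `G[D \ W]` which
contains `x` (`exists_comp`), so `j ∈ τ(C)`.  `D \ C` is connected: it is the union of `W` and of the other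
components of `G[D \ W]`, each of which touches `W` (because `D` is connected); in the closed-set form of
`Conn`: a nonempty closed subset `E` of `D \ C` contains `W` or is disjoint from `W`; if it is
disjoint from `W` it is closed in `D` (no edges between `C` and `D \ W \ C`), impossible; if it contains `W`
then `(D \ C) \ E` is closed in `D`, hence empty.
Suppose `|τ(C)| ≥ M₀`.  Let `u ∈ C` be adjacent to a vertex of `W` (`D` connected).  By L2 for `C`, `W`
and `j ∈ τ(C) \ τ(W)`: `τ(C) ∪ τ(W) = I`, so `|τ(C)| ≥ |I| - (M₀ - 1 + δ) ≥ M₀ + δ`.  By `S_Grow` (b)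
with `f D' = |τ(D')|`, `d = δ`, `M = M₀ + δ` (`f {u} ≤ δ < M`) there is a connected `C' ⊆ C` containing `u`
with `M₀ + δ ≤ |τ(C')| < M₀ + 2 δ`.  (If `δ = 0` then this is contradictory at once.)  By L2 for `C'`,
`W`: `τ(C') = τ(W)`, impossible since `|τ(W)| < M₀ + δ`, or `τ(C') ∪ τ(W) = I`, impossible since
`|τ(C')| + |τ(W)| < 2 M₀ + 3 δ ≤ |I|`.  So `|τ(C)| ≤ 4 s + 1`. -/
def S_Q1a : Prop := ∀ (V : Type) [Finite V] (G : SimpleGraph V) (s δ : ℕ) (I : Finset ℕ)
  (B : ℕ → Set V) (D : Set V), ¬ IMS (KP s) G Set.univ → Mdl G I B → Conn G D →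
    (∀ i ∈ I, Disjoint D (B i) ∧ Tch G D (B i)) → (∀ v ∈ D, (tau G I B {v}).card ≤ δ) →
    8 * s + 4 + 3 * δ ≤ I.card →
    ∃ J ⊆ I, I.card ≤ J.card + (4 * s + 1 + δ) ∧ ∀ j ∈ J, ∃ C ⊆ D, Conn G C ∧ Conn G (D \ C) ∧
      j ∈ tau G I B C ∧ (tau G I B C).card ≤ 4 * s + 1

/-- **Q1b.** Fewer than `n₁` sets of the model are bad: all others contain a vertex which touches more
than `δ` other sets.  (Uses `S_Q1a`, `S_DDd`, `S_Dig`.)

Proof. `n₁ = (2 (4 s + 1) + 1) m + 1` will do.  Suppose that there are `n₁` bad indices; let `Bad` be a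
set of exactly `n₁` of them.  For `i ∈ Bad` apply Q1a to `D = B i` and the index set `I_i = range t \ {i}`
(`t` large): sets `J_i` and, for `j ∈ J_i`, `C_i(j)`.  Let `R` be the set of the `j ∈ range t`, `j ∉ Bad`,
which are in all `J_i`, `i ∈ Bad`; `|R| ≥ t - n₁ (4 s + 3 + δ)`.  The record of `j ∈ R` is the function
`i ↦ τ(C_i(j)) ∩ Bad`; there are at most `2 ^ (n₁ ^ 2)` records (functions `Bad → Finset Bad`, or
encode as a subset of `Bad ×ˢ Bad`).  For `t` large the pigeonhole principle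
(`Finset.exists_lt_card_fiber_of_mul_lt_card_of_maps_to`) gives `R' ⊆ R` with
`|R'| ≥ (2 m (4 s + 1) + 1) m` and a common record `i ↦ R_i`, `|R_i| ≤ 4 s + 1`.  By `S_Dig` (with
`E i i' := i' ∈ R_i`) there are distinct `i_0, ..., i_{m-1} ∈ Bad` with `i_l ∉ R_{i_k}` for `k ≠ l`
(and `i_k ∉ τ(C_{i_k}(j))` because `i_k ∉ I_{i_k}`).  By `S_Dig` on `R'` with
`E j j' := j' ∈ ⋃_k τ(C_{i_k}(j))` (at most `m (4 s + 1)` elements) there are distinct `j_0, ..., j_{m-1}`
in `R'` with `j_l ∉ τ(C_{i_k}(j_k))` for `k ≠ l`.  Put `C_k = C_{i_k}(j_k)`.  So `τ(C_k)` contains `j_k` but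
no other `j_l` and no `i_l`.  Choose a set `Fr` of `m + N` fresh indices in
`range t \ Bad \ {j's} \ ⋃ τ(C_k)`: `f_0, ..., f_{m-1}` and `e_0, ..., e_{N-1}`.
Core sets: `P_k = B i_k \ C_k`, `Q_k = B j_k ∪ B f_k`, `B e_x`; degree two sets: `Y_k = C_k`.  Index them
by `range (N + 2 m)`: `2 k ↦ P_k`, `2 k + 1 ↦ Q_k`, `2 m + x ↦ B e_x`.
They are connected.  Touching: `P_k, P_l`: there is an edge `x y` between `B i_k` and `B i_l`; `x ∉ C_k` as
`i_l ∉ τ(C_k)`, `y ∉ C_l` as `i_k ∉ τ(C_l)`.  `P_k` and a set containing `B f`, `f` fresh: there is an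
edge between `B i_k` and `B f`, its end is not in `C_k`.  The others contain distinct full sets `B`.
`Y_k` touches `P_k` (`B i_k` is connected, split into `C_k` and `P_k`), `Q_k` (`j_k ∈ τ(C_k)`), not `P_l`
(`l ≠ k`: `i_l ∉ τ(C_k)`), not `Q_l` (`j_l, f_l ∉ τ(C_k)`), not `B e_x`; `Y_k`, `Y_l` do not touch (`Y_l` is
inside `B i_l`).  `S_DDd` gives `DD N m`: contradiction. -/
def S_Q1b : Prop := ∀ s N m : ℕ, ∃ n₁ : ℕ, ∀ δ : ℕ, ∃ t₀ : ℕ, ∀ t : ℕ, t₀ ≤ t →
  ∀ (V : Type) [Finite V] (G : SimpleGraph V) (B : ℕ → Set V), Free s N m G →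
    Mdl G (Finset.range t) B → ∃ Bad : Finset ℕ, Bad.card < n₁ ∧
      ∀ i < t, i ∉ Bad → ∃ v ∈ B i, δ < (tau G (Finset.range t \ {i}) B {v}).card

/-- **Q2.** A large clique among the chosen vertices, or an independent set completely joined to many
sets of the model.  (Uses `S_Ram`, `S_L1`.)

Proof. `g = max (n_Ramsey(n, p)) p`.  Take Ramsey for exactly the vertices `v i`, `i ∈ Gd`
(relation `G.Adj (v i) (v j)`).  In the independent case `T`, `|T| = p ≤ g`, put `J₀ = range t \ T`; for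
`i ∈ T` the trace `τ_i` of `{v i}` in `J₀` has at least `(g + L) - p ≥ L ≥ 4 s + 2` elements (`T` has `p`
elements, `range t \ {i} \ T = J₀`).  By L1 for the model `(B j)`, `j ∈ J₀` (`v i ∈ B i` is in no `B j`
with `j ∈ J₀`), the `τ_i` are pairwise nested; let `J` be the one with the fewest elements; it is
contained in all the others. -/
def S_Q2 : Prop := ∀ s n p : ℕ, 1 ≤ p → ∃ g : ℕ, ∀ L : ℕ, 4 * s + 2 ≤ L →
  ∀ (V : Type) (G : SimpleGraph V) (t : ℕ) (B : ℕ → Set V) (Gd : Finset ℕ) (v : ℕ → V),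
    ¬ IMS (KP s) G Set.univ → Mdl G (Finset.range t) B → Gd ⊆ Finset.range t → g ≤ Gd.card →
    (∀ i ∈ Gd, v i ∈ B i ∧ g + L ≤ (tau G (Finset.range t \ {i}) B {v i}).card) →
    (∃ T ⊆ Gd, T.card = n ∧ ∀ i ∈ T, ∀ j ∈ T, i ≠ j → G.Adj (v i) (v j)) ∨
    ∃ T ⊆ Gd, T.card = p ∧ (∀ i ∈ T, ∀ j ∈ T, ¬ G.Adj (v i) (v j)) ∧
      ∃ J ⊆ Finset.range t \ T, L ≤ J.card ∧ ∀ i ∈ T, ∀ j ∈ J, Tch G {v i} (B j)

/-- The situation of Q3: independent vertices `v c`, `c ∈ P`, and a model `B j`, `j ∈ J`, of a complete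
graph such that every `v c` touches every `B j` (and lies in none). -/
def VB {V : Type} (G : SimpleGraph V) (P J : Finset ℕ) (v : ℕ → V) (B : ℕ → Set V) : Prop :=
  Mdl G J B ∧ (∀ c ∈ P, ∀ c' ∈ P, v c = v c' → c = c') ∧
    (∀ c ∈ P, ∀ c' ∈ P, ¬ G.Adj (v c) (v c')) ∧ ∀ c ∈ P, ∀ j ∈ J, v c ∉ B j ∧ Tch G {v c} (B j)

/-- **L3.** In the situation `VB`: touching sets have nested traces on the vertices `v c`.  (Uses
`S_KPd`.)  The trace of `D` is `a(D) = tau G P (fun c => {v c}) D`.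

Proof. Otherwise take `i ∈ a(D) \ a(D')`, `i' ∈ a(D') \ a(D)`, and `J₁ ⊆ J` with `|J₁| = |P \ {i, i'}|` and
a bijection `g : J₁ → P \ {i, i'}` (for instance `g` from `Finset.equivOfCardEq`, extended to `ℕ → ℕ`).
Model: `X j = B j ∪ {v (g j)}`, `j ∈ J₁`: connected (`v (g j)` touches `B j`), pairwise disjoint and
touching.  Path: `{v i}, D, D', {v i'}` (`v i` is adjacent to `D`, not to `D'`, not to `v i'`).
`D` touches `X j` if `g j ∈ a(D)`: at least `|a(D) \ {i}| ≥ 4 s` of them (note `i' ∉ a(D)`); same for `D'`;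
`v i` touches all the sets `B j`, and `|J₁| ≥ |a(D) \ {i}| ≥ 4 s`.  Disjointness: `D` contains no `v c`
(hypothesis) and is disjoint from the `B j`.  `S_KPd` gives a contradiction. -/
def S_L3 : Prop := ∀ (V : Type) (G : SimpleGraph V) (s : ℕ) (P J : Finset ℕ) (v : ℕ → V)
  (B : ℕ → Set V) (D D' : Set V), ¬ IMS (KP s) G Set.univ → VB G P J v B → P.card ≤ J.card →
    Conn G D → Conn G D' → Disjoint D D' → Tch G D D' →
    (∀ j ∈ J, Disjoint D (B j) ∧ Disjoint D' (B j)) → (∀ c ∈ P, v c ∉ D ∧ v c ∉ D') →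
    4 * s + 2 ≤ (tau G P (fun c => {v c}) D).card →
    4 * s + 2 ≤ (tau G P (fun c => {v c}) D').card →
    tau G P (fun c => {v c}) D ⊆ tau G P (fun c => {v c}) D' ∨
      tau G P (fun c => {v c}) D' ⊆ tau G P (fun c => {v c}) D

/-- **Q3a.** In the situation `VB`: a connected set `D` which touches all the `v c`, but all of whose
vertices touch at most `δ` of them.  (Uses `S_L3`, `S_KPd`, `S_Grow`.)

Proof. Write `a(E) = tau G P (fun c => {v c}) E`, `τ(E) = tau G J B E`.  Let `W ⊆ D` be connected with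
`|P| ≤ 2 |a(W)|` and the minimal number of elements.
(1) If `W = F ∪ (W \ F)` with both parts connected (nonempty) then one of the parts has
`|a| ≤ 4 s + 1`: otherwise by L3 (they touch since `W` is connected) the traces are nested, so one part has
the same trace as `W`, and this contradicts the minimality of `W`.
(2) Let `Z ⊆ W` be connected with `|a(Z)| ≥ M` of minimal size (exists: `2 |a(W)| ≥ |P| ≥ 2 M`).  Then
`|a(Z)| ≤ M - 1 + δ` (singleton: `≤ δ`, and `M ≥ 1`; otherwise remove a vertex, `S_Grow` (a)).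
(3) Let `F` be a component of `G[W \ Z]`.  `W \ F` is connected (proof as in Q1a), contains `Z`, so
`|a(W \ F)| ≥ M ≥ 4 s + 2` and `|a(F)| ≤ 4 s + 1` by (1).  `F` touches `Z`.
(4) Call `F` big if `|τ(F)| > 4 s`.  Two different big components `F`, `F'` have
`a(F) \ a(Z) = a(F') \ a(Z)`: otherwise by symmetry there is `i ∈ a(F)`, `i ∉ a(Z)`, `i ∉ a(F')`; path:
`{v i}, F, Z, F'` (`F`, `F'` do not touch, they are different components).  Model: choose `J₁ ⊆ J` with
`|J₁| = 4 s` and an injection `g : J₁ → a(Z)` (`i ∉ a(Z)`, `|a(Z)| ≥ M ≥ 4 s`); `X j = B j ∪ {v (g j)}`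
for `j ∈ J₁`, `X j = B j` for `j ∈ J \ J₁`.  `Z` touches `X j` for `j ∈ J₁`; `F` and `F'` touch the `X j` with
`j ∈ τ(F)`, `j ∈ τ(F')`; `v i` touches all `X j`.  `S_KPd`: contradiction.
(5) Every `i ∈ a(W) \ a(Z)` is in `a(F)` for a component `F` of `W \ Z` (the vertex of `W` adjacent to `v i` is
not in `Z`; `exists_comp`).  Let `U` be the set of the `i ∈ a(W) \ a(Z)` which are in `a(F)` for a component
`F` which is not big.  The others are in `a(F) \ a(Z)` for a big `F`; by (4) this is one fixed set with at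
most `4 s + 1` elements (if there is a big component at all).  So
`|U| ≥ |a(W)| - (M - 1 + δ) - (4 s + 1)`, and `2 |a(W)| ≥ |P|`.  `A₀ = a(Z)`. -/
def S_Q3a : Prop := ∀ (V : Type) [Finite V] (G : SimpleGraph V) (s δ M K : ℕ) (P J : Finset ℕ)
  (v : ℕ → V) (B : ℕ → Set V) (D : Set V), ¬ IMS (KP s) G Set.univ → VB G P J v B →
    P.card ≤ J.card → 4 * s ≤ J.card → 4 * s + 2 ≤ M → 2 * (M + δ + 4 * s + K) ≤ P.card →
    Conn G D → (∀ j ∈ J, Disjoint D (B j)) → (∀ c ∈ P, v c ∉ D ∧ Tch G D {v c}) →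
    (∀ x ∈ D, (tau G P (fun c => {v c}) {x}).card ≤ δ) →
    ∃ W ⊆ D, ∃ A₀ ⊆ P, ∃ U ⊆ P, M ≤ A₀.card ∧ K ≤ U.card ∧ ∀ i ∈ U, ∃ F ⊆ W, Conn G F ∧
      Conn G (W \ F) ∧ Tch G F (W \ F) ∧ i ∈ tau G P (fun c => {v c}) F ∧
      (tau G P (fun c => {v c}) F).card ≤ 4 * s + 1 ∧ (tau G J B F).card ≤ 4 * s ∧
      A₀ ⊆ tau G P (fun c => {v c}) (W \ F)

/-- **Q3b.** In the situation `VB` with `|P| = p`: fewer than `n₃` sets of the model are bad: all
others contain a vertex adjacent to more than `n` of the vertices `v c`.  (Uses `S_Q3a`, `S_DDd`,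
`S_Dig`.)

Proof. `M = m (4 s + 1) + m + 4 s + 2`, `K = (2 (4 s + 1) + 1) m`, `δ = n`, `p = 2 (M + n + 4 s + K)`,
`n₃ = 2 ^ (p + p + p * p) * ((2 * (4 s) * m + 1) * m) + 1`, `L = n₃ + p + 4 s + (2 m (4 s + 1) + 4 m + N)`
(anything larger is fine).  Suppose there are `n₃` bad indices, `Bad ⊆ J`.  For `j ∈ Bad` apply Q3a to
`D = B j` and the model `J \ {j}` (it is again in the situation `VB`): `W_j, A_j, U_j, F_j(i)`.  The record of
`j` is `(A_j, U_j, {(i, c) | i ∈ U_j, c ∈ a(F_j(i))})`: a subset of `P`, a subset of `P`, a subset of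
`P ×ˢ P`, so there are at most `2 ^ (p + p + p * p)` records, and `(2 (4 s) m + 1) m` bad indices `Bad'` have
the same record `A₀, U, (a_i)_{i ∈ U}` with `|a_i| ≤ 4 s + 1`, `i ∈ a_i`.  `S_Dig` on `U` with
`E i i' := i' ∈ a_i`: distinct `i_0, ..., i_{m-1}` in `U` with `i_l ∉ a_{i_k}` for `k ≠ l`.  Choose distinct
`c_0, ..., c_{m-1}` in `A₀ \ ⋃_k a_{i_k}` (so they are also different from all the `i_l`).  `S_Dig` on
`Bad'` with `E j j' := j' ∈ ⋃_k τ(F_j(i_k))` (at most `4 s m` elements): distinct `j_0, ..., j_{m-1}`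
with `j_l ∉ τ(F_{j_k}(i_k))` for `k ≠ l`.  Put `F_k = F_{j_k}(i_k)`, `W'_k = W_{j_k} \ F_k`.  Choose fresh
distinct indices `g_k, h_k` (`k < m`) and `e_x` (`x < N`) in `J`, different from all `j_l` and not in any
`τ(F_k)`.
Core sets: `P_k = W'_k ∪ {v c_k} ∪ B g_k`, `Q_k = {v i_k} ∪ B h_k`, `B e_x`.  They are disjoint,
connected (`v c_k` touches `W'_k` since `A₀ ⊆ a(W'_k)`), pairwise touching (each contains its own `B`).
`Y_k = F_k` touches `P_k` (through `W'_k`), `Q_k` (through `v i_k`), not `P_l` for `l ≠ k` (`W'_l ⊆ B j_l`,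
`j_l ∉ τ(F_k)`; `c_l ∉ a_{i_k}`; `g_l ∉ τ(F_k)`), not `Q_l` (`i_l ∉ a_{i_k}`, `h_l ∉ τ(F_k)`), not `B e_x`.
`Y_k`, `Y_l` do not touch as `Y_l ⊆ B j_l`.  (`τ` is meant in `J \ {j_k}`; `j_k` itself is not used
otherwise.)  `S_DDd`: contradiction. -/
def S_Q3b : Prop := ∀ s N m n : ℕ, ∃ p n₃ L : ℕ, 1 ≤ p ∧
  ∀ (V : Type) [Finite V] (G : SimpleGraph V) (P J : Finset ℕ) (v : ℕ → V) (B : ℕ → Set V),
    Free s N m G → VB G P J v B → P.card = p → L ≤ J.card → ∃ Bad : Finset ℕ, Bad.card < n₃ ∧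
      ∀ j ∈ J, j ∉ Bad → ∃ x ∈ B j, n < (tau G P (fun c => {v c}) {x}).card

/-- **Q3.** Conclusion of the third part.  (Uses `S_Q3b`.)

Proof. Take `p, n₃, L` from Q3b and `L' = max L (n₃ + 2 ^ p * n + 1)`.  For the good `j ∈ J` (at least
`2 ^ p * n + 1` of them) choose `x_j ∈ B j` with `|a(x_j)| > n`, where `a(x) ⊆ P` is the set of the `c` such
that `x` is adjacent to `v c`.  By the pigeonhole principle `n` of them (at least) have the same trace
`a(x_j) = A`.  `Q₁ = {v c | c ∈ A}` (`v` is injective on `P`), `Q₂ = {x_j}` (distinct since the `B j` are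
disjoint; `v c ∉ B j`). -/
def S_Q3 : Prop := ∀ s N m n : ℕ, ∃ p L : ℕ, 1 ≤ p ∧
  ∀ (V : Type) [Finite V] (G : SimpleGraph V) (P J : Finset ℕ) (v : ℕ → V) (B : ℕ → Set V),
    Free s N m G → VB G P J v B → P.card = p → L ≤ J.card →
      ∃ Q₁ Q₂ : Set V, Disjoint Q₁ Q₂ ∧ n ≤ Q₁.ncard ∧ n ≤ Q₂.ncard ∧
        (∀ a ∈ Q₁, ∀ b ∈ Q₂, G.Adj a b) ∧ ∀ a ∈ Q₁, ∃ c ∈ P, a = v c

end Pool.Agent.MPd439b2
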