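import Pool.Agent.Lib.MP_d439b2_co.B.SpecT

/-!
# MP_d439b2_co, T4: the graphs `TG n` have unbounded clique-width
-/

set_option autoImplicit false

namespace Pool.Agent.MPd439b2

namespace tUnbAux

/-- the traces are different -/
theorem cp {V ι : Type} [Finite V] (G : SimpleGraph V) (A : Set V) (c : ℕ)
    (hA : {T : Set V | ∃ u ∈ A, T = G.neighborSet u \ A}.ncard ≤ c) (T : Finset ι) (u v : ι → V)
    (hu : ∀ k ∈ T, u k ∈ A) (hv : ∀ k ∈ T, v k ∉ A)
    (h : ∀ k ∈ T, ∀ l ∈ T, k ≠ l → ∃ m ∈ T, ¬ (G.Adj (u k) (v m) ↔ G.Adj (u l) (v m))) :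
    T.card ≤ c := by
  have hfin : {T : Set V | ∃ u ∈ A, T = G.neighborSet u \ A}.Finite := Set.toFinite _
  rw [← Set.ncard_coe_finset]
  refine le_trans (Set.ncard_le_ncard_of_injOn (fun k => G.neighborSet (u k) \ A) ?_ ?_ hfin) hA
  · intro k hk
    exact ⟨u k, hu k hk, rfl⟩
  · intro k hk l hl he
    by_contra hne
    obtain ⟨m, hm, hn⟩ := h k hk l hl hne
    apply hn
    have he' : G.neighborSet (u k) \ A = G.neighborSet (u l) \ A := he
    constructor
    · intro h1
      have h2 : v m ∈ G.neighborSet (u k) \ A := ⟨h1, hv m hm⟩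
      rw [he'] at h2
      exact h2.1
    · intro h1
      have h2 : v m ∈ G.neighborSet (u l) \ A := ⟨h1, hv m hm⟩
      rw [← he'] at h2
      exact h2.1

theorem cpLe {V : Type} [Finite V] {n : ℕ} (G : SimpleGraph V) (A : Set V) (c : ℕ)
    (hA : {T : Set V | ∃ u ∈ A, T = G.neighborSet u \ A}.ncard ≤ c) (T : Finset (Fin n))
    (u v : Fin n → V) (hu : ∀ k ∈ T, u k ∈ A) (hv : ∀ k ∈ T, v k ∉ A)
    (h : ∀ k l, G.Adj (u k) (v l) ↔ ¬ k ≤ l) : T.card ≤ c := by
  refine cp G A c hA T u v hu hv ?_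
  intro k hk l hl hkl
  rcases lt_or_gt_of_ne hkl with h1 | h1
  · refine ⟨k, hk, ?_⟩
    rw [h, h]
    intro h2
    exact (h2.mpr (not_le.mpr h1)) le_rfl
  · refine ⟨l, hl, ?_⟩
    rw [h, h]
    intro h2
    exact (h2.mp (not_le.mpr h1)) le_rfl

theorem cpGe {V : Type} [Finite V] {n : ℕ} (G : SimpleGraph V) (A : Set V) (c : ℕ)
    (hA : {T : Set V | ∃ u ∈ A, T = G.neighborSet u \ A}.ncard ≤ c) (T : Finset (Fin n))
    (u v : Fin n → V) (hu : ∀ k ∈ T, u k ∈ A) (hv : ∀ k ∈ T, v k ∉ A)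
    (h : ∀ k l, G.Adj (u k) (v l) ↔ ¬ l ≤ k) : T.card ≤ c := by
  refine cp G A c hA T u v hu hv ?_
  intro k hk l hl hkl
  rcases lt_or_gt_of_ne hkl with h1 | h1
  · refine ⟨l, hl, ?_⟩
    rw [h, h]
    intro h2
    exact (h2.mp (not_le.mpr h1)) le_rfl
  · refine ⟨k, hk, ?_⟩
    rw [h, h]
    intro h2
    exact (h2.mpr (not_le.mpr h1)) le_rfl

theorem cpEq {V : Type} [Finite V] {n : ℕ} (G : SimpleGraph V) (A : Set V) (c : ℕ)
    (hA : {T : Set V | ∃ u ∈ A, T = G.neighborSet u \ A}.ncard ≤ c) (T : Finset (Fin n))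
    (u v : Fin n → V) (hu : ∀ k ∈ T, u k ∈ A) (hv : ∀ k ∈ T, v k ∉ A)
    (h : ∀ k l, G.Adj (u k) (v l) ↔ ¬ k = l) : T.card ≤ c := by
  refine cp G A c hA T u v hu hv ?_
  intro k hk l hl hkl
  refine ⟨k, hk, ?_⟩
  rw [h, h]
  intro h2
  exact (h2.mpr (fun h3 => hkl h3.symm)) rfl

/-- double counting -/
theorem avg {n c : ℕ} (hn : 2 ≤ n) (I : Finset (Fin n)) (hI : n ≤ 3 * I.card)
    (P : Fin n → Fin n → Prop) [∀ a b, Decidable (P a b)]
    (h : ∀ b, (I.filter (fun a => P a b)).card ≤ c) :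
    ∃ a ∈ I, ((Finset.univ : Finset (Fin n)).filter (fun b => P a b)).card ≤ 3 * c := by
  by_contra hcon
  push Not at hcon
  have h1 : ∑ a ∈ I, ((Finset.univ : Finset (Fin n)).filter (fun b => P a b)).card =
      ∑ b : Fin n, (I.filter (fun a => P a b)).card := by
    simp_rw [Finset.card_filter]
    exact Finset.sum_comm
  have h2 : I.card * (3 * c + 1) ≤
      ∑ a ∈ I, ((Finset.univ : Finset (Fin n)).filter (fun b => P a b)).card := by
    rw [← smul_eq_mul]
    exact Finset.card_nsmul_le_sum _ _ _ (fun a ha => hcon a ha)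
  have h3 : ∑ b : Fin n, (I.filter (fun a => P a b)).card ≤ n * c := by
    have := Finset.sum_le_card_nsmul (Finset.univ : Finset (Fin n))
      (fun b => (I.filter (fun a => P a b)).card) c (fun b _ => h b)
    rwa [Finset.card_univ, Fintype.card_fin, smul_eq_mul] at this
  have h4 : n * c ≤ (3 * I.card) * c := Nat.mul_le_mul_right c hI
  have h5 : I.card * (3 * c + 1) = 3 * I.card * c + I.card := by ring
  omega

/-- splitting a filter -/
theorem split {n : ℕ} (P Q : Fin n → Prop) [DecidablePred P] [DecidablePred Q] (s t : ℕ)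
    (h1 : ((Finset.univ : Finset (Fin n)).filter (fun k => Q k)).card ≤ s)
    (h2 : ((Finset.univ : Finset (Fin n)).filter (fun k => P k ∧ ¬ Q k)).card ≤ t) :
    ((Finset.univ : Finset (Fin n)).filter (fun k => P k)).card ≤ s + t := by
  have h3 : (Finset.univ : Finset (Fin n)).filter (fun k => P k) ⊆
      (Finset.univ : Finset (Fin n)).filter (fun k => Q k) ∪
        (Finset.univ : Finset (Fin n)).filter (fun k => P k ∧ ¬ Q k) := by
    intro k hk
    rw [Finset.mem_filter] at hk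
    rw [Finset.mem_union, Finset.mem_filter, Finset.mem_filter]
    by_cases hq : Q k
    · exact Or.inl ⟨hk.1, hq⟩
    · exact Or.inr ⟨hk.1, hk.2, hq⟩
  have h4 := Finset.card_le_card h3
  have h5 := Finset.card_union_le ((Finset.univ : Finset (Fin n)).filter (fun k => Q k))
    ((Finset.univ : Finset (Fin n)).filter (fun k => P k ∧ ¬ Q k))
  omega

end tUnbAux

open tUnbAux in
/-- **T4.** -/
theorem tUnb : S_TUnb := by
  classical
  intro h c n hcn hn hcw
  have hinj : Function.Injective (fun k : Fin n => (Sum.inr (Sum.inr k) : TS n ⊕ TS n)) :=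
    fun a b hab => Sum.inr_injective (Sum.inr_injective hab)
  have hM : (Set.range (fun k : Fin n => (Sum.inr (Sum.inr k) : TS n ⊕ TS n))).ncard = n := by
    rw [← Set.image_univ, Set.ncard_image_of_injective _ hinj, Set.ncard_univ,
      Nat.card_eq_fintype_card, Fintype.card_fin]
  obtain ⟨A, hA1, hA2, hA3⟩ := h _ (TG n) c hcw
    (Set.range (fun k : Fin n => (Sum.inr (Sum.inr k) : TS n ⊕ TS n))) (by rw [hM]; exact hn)
  rw [hM] at hA1 hA2
  let y : Fin n → TS n ⊕ TS n := fun k => Sum.inr (Sum.inr k)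
  let z : Fin n → TS n ⊕ TS n := fun k => Sum.inl (Sum.inr k)
  let x : Fin n → Fin n → TS n ⊕ TS n := fun a b => Sum.inl (Sum.inl (a, b))
  let x' : Fin n → Fin n → TS n ⊕ TS n := fun a b => Sum.inr (Sum.inl (a, b))
  let I : Finset (Fin n) := Finset.univ.filter (fun k => y k ∈ A)
  let J : Finset (Fin n) := Finset.univ.filter (fun k => ¬ y k ∈ A)
  have hIJ : I.card + J.card = n := by
    have := Finset.card_filter_add_card_filter_not (s := (Finset.univ : Finset (Fin n))) (fun k => y k ∈ A)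
    rwa [Finset.card_univ, Fintype.card_fin] at this
  have hI : (A ∩ Set.range (fun k : Fin n => (Sum.inr (Sum.inr k) : TS n ⊕ TS n))).ncard =
      I.card := by
    have : A ∩ Set.range (fun k : Fin n => (Sum.inr (Sum.inr k) : TS n ⊕ TS n)) = y '' ↑I := by
      ext w
      constructor
      · rintro ⟨hw, a, rfl⟩
        exact ⟨a, Finset.mem_coe.mpr (Finset.mem_filter.mpr ⟨Finset.mem_univ _, hw⟩), rfl⟩
      · rintro ⟨a, ha, rfl⟩
        exact ⟨(Finset.mem_filter.mp (Finset.mem_coe.mp ha)).2, a, rfl⟩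
    rw [this, Set.ncard_image_of_injective _ hinj, Set.ncard_coe_finset]
  rw [hI] at hA1 hA2
  have hJ3 : n ≤ 3 * J.card := by omega
  -- step 1
  obtain ⟨a₁, -, ha₁⟩ := avg hn I hA1 (fun a b => ¬ x a b ∈ A) (c := c) (fun b => by
    refine cpLe (TG n) A c hA3 _ y (fun k => x k b) ?_ ?_ ?_
    · intro k hk
      exact (Finset.mem_filter.mp (Finset.mem_filter.mp hk).1).2
    · intro k hk
      exact (Finset.mem_filter.mp hk).2
    · intro k l
      exact Iff.rfl)
  -- step 2
  obtain ⟨a₂, -, ha₂⟩ := avg hn J hJ3 (fun a b => x a b ∈ A) (c := c) (fun b => by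
    refine cpGe (TG n) A c hA3 _ (fun k => x k b) y ?_ ?_ ?_
    · intro k hk
      exact (Finset.mem_filter.mp hk).2
    · intro k hk
      exact (Finset.mem_filter.mp (Finset.mem_filter.mp hk).1).2
    · intro k l
      exact Iff.rfl)
  -- step 3
  have h3a := split (fun b => ¬ x' a₁ b ∈ A) (fun b => ¬ x a₁ b ∈ A) (3 * c) c ha₁ (by
    refine cpEq (TG n) A c hA3 _ (fun b => x a₁ b) (fun b => x' a₁ b) ?_ ?_ ?_
    · intro k hk
      exact not_not.mp (Finset.mem_filter.mp hk).2.2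
    · intro k hk
      exact (Finset.mem_filter.mp hk).2.1
    · intro k l
      change ¬ ((a₁, k) = (a₁, l)) ↔ ¬ k = l
      rw [Prod.mk.injEq]
      simp)
  have h3b := split (fun b => x' a₂ b ∈ A) (fun b => x a₂ b ∈ A) (3 * c) c ha₂ (by
    refine cpEq (TG n) A c hA3 _ (fun b => x' a₂ b) (fun b => x a₂ b) ?_ ?_ ?_
    · intro k hk
      exact (Finset.mem_filter.mp hk).2.1
    · intro k hk
      exact (Finset.mem_filter.mp hk).2.2
    · intro k l
      change ¬ ((a₂, l) = (a₂, k)) ↔ ¬ k = l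
      rw [Prod.mk.injEq]
      simp [eq_comm])
  -- step 4
  have h4a := split (fun k => ¬ z k ∈ A) (fun k => ¬ x' a₁ k ∈ A) (3 * c + c) c h3a (by
    refine cpGe (TG n) A c hA3 _ (fun k => x' a₁ k) z ?_ ?_ ?_
    · intro k hk
      exact not_not.mp (Finset.mem_filter.mp hk).2.2
    · intro k hk
      exact (Finset.mem_filter.mp hk).2.1
    · intro k l
      exact Iff.rfl)
  have h4b := split (fun k => z k ∈ A) (fun k => x' a₂ k ∈ A) (3 * c + c) c h3b (by
    refine cpLe (TG n) A c hA3 _ z (fun k => x' a₂ k) ?_ ?_ ?_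
    · intro k hk
      exact (Finset.mem_filter.mp hk).2.1
    · intro k hk
      exact (Finset.mem_filter.mp hk).2.2
    · intro k l
      exact Iff.rfl)
  have h5 := Finset.card_filter_add_card_filter_not (s := (Finset.univ : Finset (Fin n))) (fun k => z k ∈ A)
  rw [Finset.card_univ, Fintype.card_fin] at h5
  omega

end Pool.Agent.MPd439b2
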